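import Pool.Agent.Lib.MP_aa40d3_nt.GR.SpecA

/-! Taylor series of analytic germs. -/

open Polynomial Matrix Filter Topology

namespace Pool.Agent.GR

/-- Functions analytic at the origin. -/
def An : Subalgebra ℂ (ℂ → ℂ) where
  carrier := {f | AnalyticAt ℂ f 0}
  mul_mem' hf hg := hf.mul hg
  add_mem' hf hg := hf.add hg
  algebraMap_mem' _ := analyticAt_const

/-- The Taylor series at the origin. -/
noncomputable def tay (f : ℂ → ℂ) : PowerSeries ℂ :=
  PowerSeries.mk fun k => iteratedDeriv k f 0 / (k.factorial : ℂ)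

theorem tay_congr {f g : ℂ → ℂ} (h : f =ᶠ[𝓝 0] g) : tay f = tay g := by
  ext k
  simp only [tay, PowerSeries.coeff_mk, h.iteratedDeriv_eq k]

theorem tay_const (c : ℂ) : tay (fun _ => c) = PowerSeries.C c := by
  ext k
  rcases k with _ | k <;> simp [tay, iteratedDeriv_const, PowerSeries.coeff_C]

theorem tay_id : tay (fun s => s) = PowerSeries.X := by
  ext k
  simp only [tay, PowerSeries.coeff_mk, iteratedDeriv_fun_id_zero, PowerSeries.coeff_X]
  split_ifs with h <;> simp [h]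

theorem tay_add {f g : ℂ → ℂ} (hf : AnalyticAt ℂ f 0) (hg : AnalyticAt ℂ g 0) :
    tay (f + g) = tay f + tay g := by
  ext k
  simp only [tay, PowerSeries.coeff_mk, map_add, iteratedDeriv_add hf.contDiffAt hg.contDiffAt,
    add_div]

theorem tay_mul {f g : ℂ → ℂ} (hf : AnalyticAt ℂ f 0) (hg : AnalyticAt ℂ g 0) :
    tay (f * g) = tay f * tay g := by
  ext k
  rw [PowerSeries.coeff_mul, Finset.Nat.sum_antidiagonal_eq_sum_range_succ
    (fun i j => PowerSeries.coeff i (tay f) * PowerSeries.coeff j (tay g))]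
  simp only [tay, PowerSeries.coeff_mk, iteratedDeriv_mul hf.contDiffAt hg.contDiffAt,
    Finset.sum_div]
  refine Finset.sum_congr rfl fun i hi => ?_
  have hik : i ≤ k := Nat.lt_succ_iff.1 (Finset.mem_range.1 hi)
  have h1 : (k.factorial : ℂ) = k.choose i * i.factorial * (k - i).factorial := by
    exact_mod_cast (Nat.choose_mul_factorial_mul_factorial hik).symm
  have h2 : (k.choose i : ℂ) ≠ 0 := by exact_mod_cast (Nat.choose_pos hik).ne'
  have h3 : (i.factorial : ℂ) ≠ 0 := by exact_mod_cast i.factorial_ne_zero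
  have h4 : ((k - i).factorial : ℂ) ≠ 0 := by exact_mod_cast (k - i).factorial_ne_zero
  rw [h1]
  field_simp

theorem tay_deriv (f : ℂ → ℂ) : PowerSeries.derivative ℂ (tay f) = tay (deriv f) := by
  ext k
  have h3 : (k.factorial : ℂ) ≠ 0 := by exact_mod_cast k.factorial_ne_zero
  have h4 : (k : ℂ) + 1 ≠ 0 := Nat.cast_add_one_ne_zero k
  simp only [PowerSeries.coeff_derivative, tay, PowerSeries.coeff_mk, iteratedDeriv_succ',
    Nat.factorial_succ]
  push_cast
  field_simp

theorem tay_eq_zero {f : ℂ → ℂ} (hf : AnalyticAt ℂ f 0) (h : tay f = 0) : ∀ᶠ s in 𝓝 0, f s = 0 := by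
  have h1 : ∀ k, iteratedDeriv k f 0 = 0 := fun k => by
    have h2 := congrArg (PowerSeries.coeff k) h
    have h3 : (k.factorial : ℂ) ≠ 0 := by exact_mod_cast k.factorial_ne_zero
    simpa [tay, h3] using h2
  have h2 := hf.hasFPowerSeriesAt
  simp only [h1, zero_div] at h2
  have h3 : FormalMultilinearSeries.ofScalars ℂ (fun _ : ℕ => (0 : ℂ)) = 0 := by
    ext k
    simp
  rw [h3] at h2
  exact h2.eventually_eq_zero

/-- The Taylor series as an algebra map. -/
noncomputable def tayH : An →ₐ[ℂ] PowerSeries ℂ where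
  toFun f := tay f.1
  map_one' := (tay_const 1).trans (map_one _)
  map_mul' f g := tay_mul f.2 g.2
  map_zero' := (tay_const 0).trans (map_zero _)
  map_add' f g := tay_add f.2 g.2
  commutes' c := (tay_const c).trans (by simp)

/-- The germ of `f` at `z` is algebraic. -/
def AlgG (f : ℂ → ℂ) (z : ℂ) : Prop :=
  ∃ P : ℂ[X][X], P ≠ 0 ∧ ∀ᶠ x in 𝓝 z, P.evalEval x (f x) = 0

theorem specb_eval {f : ℂ → ℂ} (hf : AnalyticAt ℂ f 0) (P : ℂ[X][X]) :
    AnalyticAt ℂ (fun s => P.evalEval s (f s)) 0 ∧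
      tay (fun s => P.evalEval s (f s)) = aeval (tay f) P := by
  let i : An := ⟨fun s => s, analyticAt_id⟩
  let F : An := ⟨f, hf⟩
  let g : An := P.eval₂ (aeval i : ℂ[X] →ₐ[ℂ] An).toRingHom F
  have hg : g.1 = fun s => P.evalEval s (f s) := by
    funext s
    let ev : An →+* ℂ := (Pi.evalRingHom (fun _ : ℂ => ℂ) s).comp An.val.toRingHom
    have h1 : ev.comp (aeval i : ℂ[X] →ₐ[ℂ] An).toRingHom = evalRingHom s := by
      ext c <;> simp [ev, i]
    show ev g = _
    rw [hom_eval₂, h1, eval₂_evalRingHom]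
    rfl
  have h2 : tayH.toRingHom.comp (aeval i : ℂ[X] →ₐ[ℂ] An).toRingHom =
      algebraMap ℂ[X] (PowerSeries ℂ) := by
    refine Polynomial.ringHom_ext (fun c => ?_) ?_
    · simp [speca_algebraMap]
    · simp [speca_algebraMap]
      exact tay_id
  rw [← hg]
  refine ⟨g.2, ?_⟩
  show tayH.toRingHom g = _
  rw [hom_eval₂, h2]
  rfl

theorem algG_iff {f : ℂ → ℂ} (hf : AnalyticAt ℂ f 0) : AlgG f 0 ↔ IsAlgebraic ℂ[X] (tay f) := by
  refine exists_congr fun P => and_congr_right fun _ => ?_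
  obtain ⟨h1, h2⟩ := specb_eval hf P
  rw [← h2]
  refine ⟨fun h => ?_, tay_eq_zero h1⟩
  rw [tay_congr h]
  simpa using tay_const 0

theorem AlgG.aff {f : ℂ → ℂ} {a c w : ℂ} (hc : c ≠ 0) (h : AlgG f (a + c * w)) :
    AlgG (fun s => f (a + c * s)) w := by
  obtain ⟨P, hP, h⟩ := h
  let σ : ℂ[X] →+* ℂ[X] := compRingHom (C a + C c * X)
  have hσ : Function.Injective σ := by
    rw [injective_iff_map_eq_zero]
    intro p hp
    refine Polynomial.funext fun x => ?_
    have h1 := congrArg (eval ((x - a) / c)) hp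
    have h2 : a + c * ((x - a) / c) = x := by field_simp; ring
    simpa [σ, eval_comp, h2] using h1
  refine ⟨P.map σ, (Polynomial.map_ne_zero_iff hσ).2 hP, ?_⟩
  have hc : ContinuousAt (fun s : ℂ => a + c * s) w := by fun_prop
  filter_upwards [hc.eventually h] with s hs
  have h1 : (evalRingHom s).comp σ = evalRingHom (a + c * s) := by
    ext <;> simp [σ]
  rw [← eval₂_evalRingHom, eval₂_map, h1, eval₂_evalRingHom]
  exact hs

variable {n r : ℕ}

/-- The products `∏_{j ≠ i} (z - t j)`. -/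
def dd {S : Type} [CommRing S] (t : Fin n → S) (z : S) (i : Fin n) : S :=
  ∏ j ∈ Finset.univ.erase i, (z - t j)

theorem tay_geo (d : ℂ) : AnalyticAt ℂ (fun s : ℂ => (1 + d * s)⁻¹) 0 ∧
    tay (fun s : ℂ => (1 + d * s)⁻¹) = geo d := by
  have h1 : AnalyticAt ℂ (fun s : ℂ => 1 + d * s) 0 := by fun_prop
  have h2 : AnalyticAt ℂ (fun s : ℂ => (1 + d * s)⁻¹) 0 := h1.inv (by simp)
  refine ⟨h2, ?_⟩
  have h3 : tay (fun s : ℂ => 1 + d * s) = 1 + PowerSeries.C d * PowerSeries.X := by
    have := tay_add (f := fun _ => 1) (g := (fun _ => d) * fun s => s) analyticAt_const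
      (analyticAt_const.mul analyticAt_id)
    rw [tay_mul (g := fun s => s) analyticAt_const analyticAt_id, tay_const, tay_const, tay_id, map_one] at this
    exact this
  have h4 : tay ((fun s : ℂ => 1 + d * s) * fun s : ℂ => (1 + d * s)⁻¹) = 1 := by
    have : ((fun s : ℂ => 1 + d * s) * fun s : ℂ => (1 + d * s)⁻¹) =ᶠ[𝓝 0] fun _ => 1 := by
      filter_upwards [h1.continuousAt.eventually_ne (y := 0) (by simp)] with s hs
      exact mul_inv_cancel₀ hs
    rw [tay_congr this, tay_const, map_one]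
  rw [tay_mul h1 h2, h3] at h4
  rw [← one_mul (tay _), ← geo_mul d, mul_assoc, h4, mul_one]

/-- The Taylor series of a rescaled solution is a formal solution. -/
theorem tay_ode {t : Fin n → ℂ} {A : Fin n → Matrix (Fin r) (Fin r) ℂ} {z : ℂ}
    (hz : ∀ i, z ≠ t i) {Y : ℂ → Matrix (Fin r) (Fin r) ℂ}
    (hY : ∀ᶠ x in 𝓝 z, ∀ a b,
      HasDerivAt (fun y => Y y a b) (((∑ i, (x - t i)⁻¹ • A i) * Y x) a b) x) :
    (∀ a b, AnalyticAt ℂ (fun s => Y (z + (∏ i, (z - t i)) * s) a b) 0) ∧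
    FSol (fB (dd t z) A) (Matrix.of fun a b => tay fun s => Y (z + (∏ i, (z - t i)) * s) a b) := by
  set Δ := ∏ i, (z - t i) with hΔ
  have hc : ContinuousAt (fun s : ℂ => z + Δ * s) 0 := by fun_prop
  have hc' : Tendsto (fun s : ℂ => z + Δ * s) (𝓝 0) (𝓝 z) := by simpa using hc.tendsto
  have hY' := hc'.eventually hY
  have hD : ∀ᶠ s in 𝓝 (0 : ℂ), ∀ a b, HasDerivAt (fun s => Y (z + Δ * s) a b)
      (∑ c, (∑ i, dd t z i * (1 + dd t z i * s)⁻¹ * A i a c) * Y (z + Δ * s) c b) s := by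
    filter_upwards [hY'] with s hs a b
    have h1 : HasDerivAt (fun s : ℂ => z + Δ * s) Δ s := by
      simpa using ((hasDerivAt_id s).const_mul Δ).const_add z
    have h2 := (hs a b).comp s h1
    refine HasDerivAt.congr_deriv h2 ?_
    rw [Matrix.mul_apply, Finset.sum_mul]
    refine Finset.sum_congr rfl fun c _ => ?_
    rw [mul_right_comm]
    congr 1
    rw [Matrix.sum_apply, Finset.sum_mul]
    refine Finset.sum_congr rfl fun i _ => ?_
    have h3 : Δ = (z - t i) * dd t z i :=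
      (Finset.mul_prod_erase Finset.univ (fun j => z - t j) (Finset.mem_univ i)).symm
    have h4 : z + Δ * s - t i = (z - t i) * (1 + dd t z i * s) := by rw [h3]; ring
    have h5 : z - t i ≠ 0 := sub_ne_zero.2 (hz i)
    rw [Matrix.smul_apply, smul_eq_mul, h4, mul_inv, h3]
    field_simp
  have hA : ∀ a b, AnalyticAt ℂ (fun s => Y (z + Δ * s) a b) 0 := fun a b =>
    Complex.analyticAt_iff_eventually_differentiableAt.2 (hD.mono fun s hs => (hs a b).differentiableAt)
  refine ⟨hA, ?_⟩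
  unfold FSol
  ext1 a b
  rw [Matrix.map_apply, Matrix.of_apply, tay_deriv]
  let y : Fin r → An := fun c => ⟨fun s => Y (z + Δ * s) c b, hA c b⟩
  let u : Fin n → An := fun i => ⟨fun s => (1 + dd t z i * s)⁻¹, (tay_geo _).1⟩
  let g : An := ∑ c, (∑ i, algebraMap ℂ An (dd t z i) * u i * algebraMap ℂ An (A i a c)) * y c
  have hg : deriv (fun s => Y (z + Δ * s) a b) =ᶠ[𝓝 0] g.1 := by
    filter_upwards [hD] with s hs
    rw [(hs a b).deriv]
    simp [g, y, u]
  rw [tay_congr hg]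
  show tayH g = _
  have hu : ∀ i, tayH (u i) = geo (dd t z i) := fun i => (tay_geo _).2
  have hy : ∀ c, tayH (y c) = tay fun s => Y (z + Δ * s) c b := fun c => rfl
  simp [g, Matrix.mul_apply, fB, Matrix.sum_apply, hu, hy]

theorem tay_coeff_zero (f : ℂ → ℂ) : PowerSeries.coeff 0 (tay f) = f 0 := by
  simp [tay]

end Pool.Agent.GR
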