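import Pool.Agent.Lib.MP_aa40d3_nt.GR.GlobBr

/-! Convergent Puiseux expansions. -/

open Polynomial Set

namespace Pool.Agent.GR

private lemma puiseux_branch_eq {n : ℕ} {U : Set ℂ} (hU : IsPreconnected U)
    {θ : Fin n → ℂ → ℂ} (hθ : ∀ j, ContinuousOn (θ j) U)
    (hinj : ∀ s ∈ U, Function.Injective fun j => θ j s) {f : ℂ → ℂ} (hf : ContinuousOn f U)
    (hr : ∀ s ∈ U, ∃ j, f s = θ j s) (hne : U.Nonempty) : ∃ j, ∀ s ∈ U, f s = θ j s := by
  classical
  choose J hJ using hr
  let J' : U → Fin n := fun s => J s.1 s.2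
  have hcl : ∀ j, IsClosed (J' ⁻¹' {j}) := by
    intro j
    have : J' ⁻¹' {j} = {s : U | f s.1 = θ j s.1} := by
      ext s
      simp only [mem_preimage, mem_singleton_iff, mem_ofPred_eq]
      constructor
      · intro h
        rw [← h]
        exact hJ s.1 s.2
      · intro h
        apply hinj s.1 s.2
        show θ (J s.1 s.2) s.1 = θ j s.1
        rw [← hJ s.1 s.2, h]
    rw [this]
    exact isClosed_eq hf.domRestrict (hθ j).domRestrict
  have hc : Continuous J' := by
    rw [continuous_iff_isClosed]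
    intro S _
    have : J' ⁻¹' S = ⋃ j ∈ S, J' ⁻¹' {j} := by
      ext s
      simp
    rw [this]
    exact (Set.toFinite S).isClosed_biUnion fun j _ => hcl j
  have : PreconnectedSpace U := isPreconnected_iff_preconnectedSpace.mp hU
  obtain ⟨s₀, hs₀⟩ := hne
  refine ⟨J s₀ hs₀, fun s hs => ?_⟩
  have h1 : J' ⟨s, hs⟩ = J' ⟨s₀, hs₀⟩ := PreconnectedSpace.constant this hc
  have h2 : J s hs = J s₀ hs₀ := h1
  rw [← h2]
  exact hJ s hs

private lemma puiseux_root_bound (F : ℂ[X][X]) (hF : F.Monic) :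
    ∃ B : ℝ, ∀ u : ℂ, ‖u‖ ≤ 1 → ∀ θ : ℂ, (fib F u).eval θ = 0 → ‖θ‖ ≤ B := by
  have hb : ∀ i : ℕ, ∃ b : NNReal, ∀ u : ℂ, ‖u‖ ≤ 1 → ‖(F.coeff i).eval u‖₊ ≤ b := by
    intro i
    obtain ⟨b, hb⟩ := (isCompact_closedBall (0 : ℂ) 1).exists_bound_of_continuousOn
      (f := fun u => (F.coeff i).eval u) (F.coeff i).continuous.continuousOn
    refine ⟨b.toNNReal, fun u hu => ?_⟩
    have := hb u (by simpa using hu)
    rw [← NNReal.coe_le_coe, coe_nnnorm]
    exact this.trans (Real.le_coe_toNNReal b)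
  choose b hb using hb
  refine ⟨((Finset.range F.natDegree).sup b + 1 : NNReal), fun u hu θ hθ => ?_⟩
  have hm : (fib F u).Monic := hF.map _
  have hdeg : (fib F u).natDegree = F.natDegree := hF.natDegree_map _
  have h1 := IsRoot.norm_lt_cauchyBound hm.ne_zero (a := θ) hθ
  rw [cauchyBound, hm.leadingCoeff, hdeg, nnnorm_one, div_one] at h1
  have h2 : (Finset.range F.natDegree).sup (fun i => ‖(fib F u).coeff i‖₊)
      ≤ (Finset.range F.natDegree).sup b := by
    apply Finset.sup_mono_fun
    intro i _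
    have := hb i u hu
    simpa [fib, coeff_map] using this
  have h3 : ‖θ‖₊ ≤ (Finset.range F.natDegree).sup b + 1 :=
    h1.le.trans (by gcongr)
  exact_mod_cast h3

private lemma puiseux_punct (G : ℂ[X]) (hG : G ≠ 0) :
    ∃ δ : ℝ, 0 < δ ∧ δ ≤ 1 ∧ ∀ u : ℂ, u ≠ 0 → ‖u‖ < δ → G.eval u ≠ 0 := by
  have hfin : ({u : ℂ | G.IsRoot u} \ {0}).Finite :=
    (finite_setOfPred_isRoot hG).subset sdiff_subset
  have hop : IsOpen ({u : ℂ | G.IsRoot u} \ {0})ᶜ := hfin.isClosed.isOpen_compl
  obtain ⟨δ, hδ, hsub⟩ := Metric.isOpen_iff.mp hop 0 (by simp)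
  refine ⟨min δ 1, lt_min hδ one_pos, min_le_right _ _, fun u hu hlt h0 => ?_⟩
  have : u ∈ Metric.ball (0 : ℂ) δ := by
    simpa using hlt.trans_le (min_le_left _ _)
  exact hsub this ⟨h0, hu⟩

private lemma puiseux_q_add_one (s : ℂ) :
    Function.Periodic.qParam 1 (s + 1) = Function.Periodic.qParam 1 s := by
  simp only [Function.Periodic.qParam, Complex.ofReal_one, div_one, mul_add, mul_one,
    Complex.exp_add, Complex.exp_two_pi_mul_I]

private lemma puiseux_q_pow {e : ℕ} (he : 0 < e) (s : ℂ) :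
    Function.Periodic.qParam e s ^ e = Function.Periodic.qParam 1 s := by
  have : (e : ℂ) ≠ 0 := by exact_mod_cast he.ne'
  simp only [Function.Periodic.qParam, Complex.ofReal_one, div_one, Complex.ofReal_natCast]
  rw [← Complex.exp_nat_mul]
  congr 1
  field_simp

/-- Apply the previous lemma on a half plane `re s < c` with `φ = exp`. Translation by `2 π I`
permutes the branches (at a base point, hence everywhere), by a permutation whose order divides
`(natDegree F)!`; so the branches are periodic with period `e * 2 π I` and `θ j (e * log z)` is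
holomorphic on a punctured disc (near a negative real `z` use `log (-z) + π I`; or use
`Function.Periodic.cuspFunction`). The roots of a monic polynomial with bounded coefficients are
bounded, so the singularity at `0` is removable
(`Complex.differentiableOn_update_limUnder_of_bddAbove`). -/
theorem exists_puiseux (F : ℂ[X][X]) (hF : F.Monic) (G : ℂ[X]) (hG : G ≠ 0)
    (hsep : ∀ u θ, G.eval u ≠ 0 → (fib F u).eval θ = 0 → (derivative (fib F u)).eval θ ≠ 0)
    {e : ℕ} (he : 0 < e) (hd : F.natDegree.factorial ∣ e) :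
    ∃ ε : ℝ, 0 < ε ∧ ∃ θ : Fin F.natDegree → ℂ → ℂ, (∀ j, AnalyticAt ℂ (θ j) 0) ∧
      ∀ z ∈ Metric.ball (0 : ℂ) ε, z ≠ 0 → fib F (z ^ e) = ∏ j, (X - C (θ j z)) := by
  classical
  obtain ⟨δ, hδ, hδ1, hGδ⟩ := puiseux_punct G hG
  obtain ⟨B, hB⟩ := puiseux_root_bound F hF
  obtain ⟨c, hc⟩ : ∃ c : ℝ, Real.exp (-2 * Real.pi * c / 1) = δ := by
    refine ⟨-Real.log δ / (2 * Real.pi), ?_⟩
    have hpi : Real.pi ≠ 0 := Real.pi_pos.ne'
    have : -2 * Real.pi * (-Real.log δ / (2 * Real.pi)) / 1 = Real.log δ := by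
      field_simp
    rw [this, Real.exp_log hδ]
  set U : Set ℂ := {s | c < s.im} with hUdef
  have hUo : IsOpen U := isOpen_lt continuous_const Complex.continuous_im
  have hUc : Convex ℝ U := convex_halfSpace_im_gt c
  have hq : ∀ s ∈ U, ‖Function.Periodic.qParam 1 s‖ < δ := by
    intro s hs
    rw [← hc]
    exact (Function.Periodic.norm_qParam_lt_iff one_pos c s).mpr hs
  obtain ⟨θ, hθd, hθi, hθp⟩ := exists_global_branches F hF hUo hUc
    (φ := Function.Periodic.qParam 1)
    Function.Periodic.differentiable_qParam.differentiableOn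
    (fun s hs θ hθ => hsep _ θ (hGδ _ (Function.Periodic.qParam_ne_zero s) (hq s hs)) hθ)
  have hroot : ∀ s ∈ U, ∀ j, (fib F (Function.Periodic.qParam 1 s)).eval (θ j s) = 0 := by
    intro s hs j
    rw [hθp s hs, eval_prod]
    exact Finset.prod_eq_zero (Finset.mem_univ j) (by simp)
  have hadd : ∀ s ∈ U, ∀ k : ℕ, s + k ∈ U := by
    intro s hs k
    simpa [hUdef] using hs
  have hadd1 : ∀ s ∈ U, s + 1 ∈ U := by
    intro s hs
    simpa [hUdef] using hs
  have hne : U.Nonempty := ⟨((c + 1 : ℝ) : ℂ) * Complex.I, by simp [hUdef]⟩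
  have hσ : ∀ j, ∃ k, ∀ s ∈ U, θ j (s + 1) = θ k s := by
    intro j
    refine puiseux_branch_eq hUc.isPreconnected (fun k => (hθd k).continuousOn) hθi
      (f := fun s => θ j (s + 1)) ?_ ?_ hne
    · exact (hθd j).continuousOn.comp (continuous_add_const 1).continuousOn hadd1
    · intro s hs
      have h1 := hroot (s + 1) (hadd1 s hs) j
      rw [puiseux_q_add_one, hθp s hs, eval_prod, Finset.prod_eq_zero_iff] at h1
      obtain ⟨k, -, hk⟩ := h1
      exact ⟨k, by simpa [sub_eq_zero] using hk⟩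
  choose σ hσ using hσ
  have hσi : Function.Injective σ := by
    intro j k hjk
    obtain ⟨s, hs⟩ := hne
    apply hθi (s + 1) (hadd1 s hs)
    show θ j (s + 1) = θ k (s + 1)
    rw [hσ j s hs, hσ k s hs, hjk]
  let τ : Equiv.Perm (Fin F.natDegree) :=
    Equiv.ofBijective σ (Finite.injective_iff_bijective.mp hσi)
  have hτ : ∀ j, τ j = σ j := fun j => rfl
  have hτk : ∀ k : ℕ, ∀ j, ∀ s ∈ U, θ j (s + k) = θ ((τ ^ k) j) s := by
    intro k
    induction k with
    | zero => intro j s _; simp
    | succ k ih =>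
      intro j s hs
      rw [pow_succ, Equiv.Perm.mul_apply, ← ih (τ j) s hs, hτ, ← hσ j _ (hadd s hs k)]
      congr 1
      push_cast
      ring
  have hτe : τ ^ e = 1 := by
    rw [← orderOf_dvd_iff_pow_eq_one]
    refine dvd_trans ?_ hd
    have := orderOf_dvd_card (x := τ)
    rwa [Fintype.card_perm, Fintype.card_fin] at this
  have hper : ∀ j, Function.Periodic (U.indicator (θ j)) ((e : ℝ) : ℂ) := by
    intro j s
    by_cases hs : s ∈ U
    · have hs' : s + ((e : ℝ) : ℂ) ∈ U := by simpa [hUdef] using hs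
      rw [indicator_of_mem hs, indicator_of_mem hs', Complex.ofReal_natCast, hτk e j s hs, hτe]
      rfl
    · have hs' : s + ((e : ℝ) : ℂ) ∉ U := by simpa [hUdef] using hs
      rw [indicator_of_notMem hs, indicator_of_notMem hs']
  have hepos : (0 : ℝ) < e := by exact_mod_cast he
  have hUev : ∀ᶠ s in Filter.comap Complex.im Filter.atTop, s ∈ U :=
    Filter.preimage_mem_comap (Filter.Ioi_mem_atTop c)
  refine ⟨Real.exp (-2 * Real.pi * c / e), Real.exp_pos _,
    fun j => Function.Periodic.cuspFunction e (U.indicator (θ j)), fun j => ?_, fun z hz hz0 => ?_⟩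
  · have hhol : ∀ᶠ s in Filter.comap Complex.im Filter.atTop,
        DifferentiableAt ℂ (U.indicator (θ j)) s := by
      filter_upwards [hUev] with s hs
      refine ((hθd j).differentiableAt (hUo.mem_nhds hs)).congr_of_eventuallyEq ?_
      filter_upwards [hUo.mem_nhds hs] with t ht
      exact indicator_of_mem ht _
    have hbd : Filter.BoundedAtFilter (Filter.comap Complex.im Filter.atTop)
        (U.indicator (θ j)) := by
      refine Asymptotics.IsBigO.of_bound B ?_
      filter_upwards [hUev] with s hs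
      rw [indicator_of_mem hs]
      simpa using hB _ ((hq s hs).le.trans hδ1) _ (hroot s hs j)
    rw [Complex.analyticAt_iff_eventually_differentiableAt, ← nhdsNE_sup_pure, Filter.eventually_sup]
    exact ⟨Function.Periodic.eventually_differentiableAt_cuspFunction_nhds_ne_zero hepos
      (hper j) hhol,
      Function.Periodic.differentiableAt_cuspFunction_zero hepos (hper j) hhol hbd⟩
  · have hzq := Function.Periodic.qParam_right_inv hepos.ne' hz0
    have hs : Function.Periodic.invQParam e z ∈ U := by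
      apply (Function.Periodic.norm_qParam_lt_iff hepos c _).mp
      rw [hzq]
      simpa using hz
    have h1 := hθp _ hs
    rw [← puiseux_q_pow he, hzq] at h1
    rw [h1]
    refine Finset.prod_congr rfl fun j _ => ?_
    beta_reduce
    rw [Function.Periodic.cuspFunction_eq_of_nonzero _ _ hz0, indicator_of_mem hs]

end Pool.Agent.GR
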