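import Pool.Agent.Lib.MP_aa40d3_nt.GR.ExtP

/-! Closure properties of polynomial functions; algebraicity for finite monodromy. -/

open Polynomial Matrix Set Filter Topology
open scoped Matrix.Norms.Operator

namespace Pool.Agent.GR

variable {n r : ℕ} [NeZero r]

/-- Evaluation of a polynomial function at a matrix. -/
noncomputable def pfunEv (M : Mat r) : PF r →+* ℂ :=
  (Pi.evalRingHom (fun _ : Mat r => ℂ) M).comp (PF r).val.toRingHom

omit [NeZero r] in
theorem pfun_ev (M : Mat r) (F : PF r) : pfunEv M F = F.val M := rfl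

theorem pfun_unif {ι : Type*} [Fintype ι] {U : Set ℂ} (δ : ℂ[X]) (F : ι → ℂ → ℂ)
    (h : ∀ i, ∃ (m : ℕ) (q : ℂ[X]), ∀ x ∈ U, δ.eval x ^ m * F i x = q.eval x) :
    ∃ (m : ℕ) (q : ι → ℂ[X]), ∀ i, ∀ x ∈ U, δ.eval x ^ m * F i x = (q i).eval x := by
  choose m q hq using h
  refine ⟨∑ i, m i, fun i => δ ^ ((∑ i, m i) - m i) * q i, fun i x hx => ?_⟩
  have hle : m i ≤ ∑ i, m i :=
    Finset.single_le_sum (fun j _ => Nat.zero_le (m j)) (Finset.mem_univ i)
  rw [eval_mul, eval_pow, ← hq i x hx, ← mul_assoc, ← pow_add, Nat.sub_add_cancel hle]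

theorem PF.entry_mul (B : Mat r) (a b : Fin r) : (fun M : Mat r => (M * B) a b) ∈ PF r := by
  have h := (PF r).sum_mem (t := Finset.univ) fun c _ => (PF r).smul_mem
    (Algebra.subset_adjoin (Set.mem_range_self (f := fun q : Fin r × Fin r =>
      fun M : Mat r => M q.1 q.2) (a, c))) (B c b)
  have e : (fun M : Mat r => (M * B) a b) = ∑ c, B c b • fun M : Mat r => M a c := by
    funext M
    simp only [Matrix.mul_apply, Finset.sum_apply, Pi.smul_apply, smul_eq_mul, mul_comm]
  rw [e]
  exact h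

/-- View the matrix as a matrix over the subalgebra and use `RingHom.map_det`. -/
theorem PF.det {J : Mat r → Mat r} (h : ∀ a b, (fun M => J M a b) ∈ PF r) :
    (fun M => (J M).det) ∈ PF r := by
  let K : Matrix (Fin r) (Fin r) (PF r) := Matrix.of fun a b => ⟨_, h a b⟩
  have e : (fun M => (J M).det) = K.det.val := by
    funext M
    rw [← pfun_ev, RingHom.map_det]
    rfl
  rw [e]
  exact K.det.2

theorem PF.adjugate {J : Mat r → Mat r} (h : ∀ a b, (fun M => J M a b) ∈ PF r) (a b : Fin r) :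
    (fun M => (J M).adjugate a b) ∈ PF r := by
  let K : Matrix (Fin r) (Fin r) (PF r) := Matrix.of fun a b => ⟨_, h a b⟩
  have e : (fun M => (J M).adjugate a b) = (K.adjugate a b).val := by
    funext M
    exact (congrFun (congrFun (RingHom.map_adjugate (pfunEv M) K) a) b).symm
  rw [e]
  exact (K.adjugate a b).2

/-- The coefficients of `∏_{γ ∈ Γ} (X - C ((M * γ) a b))` are invariant elements of `PF r` (form the
product in `(PF r)[X]`); clear the denominators with one power of `dl t`. The leading coefficient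
`dl t ^ m` is nonzero. -/
theorem alg_of_finite {t : Fin n → ℂ} {g : Fin n → (Mat r)ˣ}
    (hf : Finite (Subgroup.closure (Set.range g))) {U : Set ℂ} {Y : ℂ → Mat r}
    (he : ExtProp t g U Y) (a b : Fin r) :
    ∃ P : ℂ[X][X], P ≠ 0 ∧ ∀ x ∈ U, P.evalEval x (Y x a b) = 0 := by
  classical
  have := Fintype.ofFinite (Subgroup.closure (Set.range g))
  let Pr : (PF r)[X] := ∏ γ : Subgroup.closure (Set.range g),
    (X - C (⟨fun M : Mat r => (M * γ.val.val) a b, PF.entry_mul _ a b⟩ : PF r))
  have hPr : ∀ M : Mat r, Pr.map (pfunEv M) =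
      ∏ γ : Subgroup.closure (Set.range g), (X - C ((M * γ.val.val) a b)) := by
    intro M
    simp only [Pr, Polynomial.map_prod, Polynomial.map_sub, map_X, map_C, pfun_ev]
  obtain ⟨N, hN⟩ : ∃ N, N = Fintype.card (Subgroup.closure (Set.range g)) := ⟨_, rfl⟩
  obtain ⟨m, q, hq⟩ := pfun_unif (ι := Fin N) (U := U) (dl t)
    (fun i x => (Pr.coeff i).val (Y x)) (by
      intro i
      refine he _ (Pr.coeff i).2 fun M c => ?_
      rw [← pfun_ev, ← pfun_ev, ← coeff_map, ← coeff_map, hPr, hPr]
      congr 1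
      refine Fintype.prod_equiv (Equiv.mulLeft (⟨g c, Subgroup.subset_closure
        (Set.mem_range_self c)⟩ : Subgroup.closure (Set.range g))) _ _ fun γ => ?_
      rw [Units.val_mul, mul_assoc]
      rfl)
  have hδ : dl t ≠ 0 := (monic_prod_X_sub_C t Finset.univ).ne_zero
  refine ⟨C (dl t ^ m) * X ^ N + ∑ i : Fin N, C (q i) * X ^ (i : ℕ), fun h0 => ?_, fun x hx => ?_⟩
  · have h1 := congrArg (fun P : ℂ[X][X] => P.coeff N) h0
    simp only [coeff_add, finsetSum_coeff, coeff_C_mul_X_pow, if_true, coeff_zero] at h1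
    rw [Finset.sum_eq_zero fun i _ => if_neg i.2.ne', add_zero] at h1
    exact pow_ne_zero m hδ h1
  · have hm : (Pr.map (pfunEv (Y x))).Monic := by
      rw [hPr]
      exact monic_prod_X_sub_C _ _
    have hd : (Pr.map (pfunEv (Y x))).natDegree = N := by
      rw [hPr, natDegree_finsetProd_X_sub_C_eq_card, hN, Finset.card_univ]
    have h0 : (Pr.map (pfunEv (Y x))).eval (Y x a b) = 0 := by
      rw [hPr, eval_prod]
      refine Finset.prod_eq_zero (Finset.mem_univ 1) ?_
      simp
    rw [hm.as_sum, hd, Finset.sum_range] at h0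
    simp only [eval_add, eval_pow, eval_X, eval_finsetSum, eval_mul, eval_C, coeff_map,
      pfun_ev] at h0
    simp only [evalEval, eval_add, eval_pow, eval_X, eval_finsetSum, eval_mul, eval_C,
      ← hq _ x hx, mul_assoc, ← Finset.mul_sum]
    rw [← mul_add, h0, mul_zero]

end Pool.Agent.GR
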