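import Pool.Agent.Lib.MP_aa40d3_nt.GR.Stmt

/-! Loops in a box, moves on ordered tuples, Gram matrices. -/

open Polynomial Matrix Set

namespace Pool.Agent.GR

variable {n r : ℕ}

section rect
variable {G : Type*} [Group G]

/-- Transport composes inside every rectangle free of marked points. -/
def RectT (T : ℝ × ℝ → ℝ × ℝ → G) (pts : Fin n → ℝ × ℝ) : Prop :=
  ∀ x1 x2 y1 y2 : ℝ, (∀ i, pts i ∉ Icc x1 x2 ×ˢ Icc y1 y2) →
    ∀ a ∈ Icc x1 x2 ×ˢ Icc y1 y2, ∀ b ∈ Icc x1 x2 ×ˢ Icc y1 y2, ∀ c ∈ Icc x1 x2 ×ˢ Icc y1 y2,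
      T b c * T a b = T a c

/-- All points lie in the open box of half side `H`. -/
def InBox (pts : Fin n → ℝ × ℝ) (H : ℝ) : Prop := ∀ i, |(pts i).1| < H ∧ |(pts i).2| < H

/-- From the corner `(-H, -H)` to the corner `(-H, H)`, crossing the box at abscissa `σ`. -/
def Vp (T : ℝ × ℝ → ℝ × ℝ → G) (H σ : ℝ) : G :=
  T (σ, H) (-H, H) * T (σ, -H) (σ, H) * T (-H, -H) (σ, -H)

/-- `[lo, hi]` isolates `x i`. -/
def ValidAt (x : Fin n → ℝ) (i : Fin n) (lo hi : ℝ) : Prop :=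
  lo < x i ∧ x i < hi ∧ ∀ j, j ≠ i → x j ∉ Icc lo hi

open Classical in
/-- The loop around the point `i`, joined to the corner `(-H, -H)` from below. -/
noncomputable def vt (T : ℝ × ℝ → ℝ × ℝ → G) (pts : Fin n → ℝ × ℝ) (H : ℝ) (i : Fin n) : G :=
  if h : ∃ q : ℝ × ℝ, ValidAt (fun j => (pts j).1) i q.1 q.2 then
    (Vp T H h.choose.1)⁻¹ * Vp T H h.choose.2 else 1

/-- The loop around the point `i`, joined to the corner `(-H, -H)` from the left. -/
noncomputable def vs (T : ℝ × ℝ → ℝ × ℝ → G) (pts : Fin n → ℝ × ℝ) (H : ℝ) (i : Fin n) : G :=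
  (vt (fun a b => T a.swap b.swap) (fun j => (pts j).swap) H i)⁻¹

/-- The boundary of a rectangle, counterclockwise from the lower left corner. -/
def RL (T : ℝ × ℝ → ℝ × ℝ → G) (x1 x2 y1 y2 : ℝ) : G :=
  T (x1, y2) (x1, y1) * T (x2, y2) (x1, y2) * T (x2, y1) (x2, y2) * T (x1, y1) (x2, y1)

/-- Transport to `q` along the bottom line and then vertically. -/
def Ybot (T : ℝ × ℝ → ℝ × ℝ → G) (H : ℝ) (q : ℝ × ℝ) : G :=
  T (q.1, -H) q * T (-H, -H) (q.1, -H)

/-- Transport to `q` along the left side, the top line and then vertically. -/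
def Ytop (T : ℝ × ℝ → ℝ × ℝ → G) (H : ℝ) (q : ℝ × ℝ) : G :=
  T (q.1, H) q * T (-H, H) (q.1, H) * T (-H, -H) (-H, H)

/-- `l` lists an initial segment for the order `ρ`, increasingly. -/
def LowerL (ρ : Fin n → ℝ) (l : List (Fin n)) : Prop :=
  l.Pairwise (fun a b => ρ a < ρ b) ∧ ∀ a ∈ l, ∀ b, ρ b < ρ a → b ∈ l

/-- The indices that `i` passes when it moves down to position `x`. -/
noncomputable def mvS (ρ : Fin n → ℝ) (i : Fin n) (x : ℝ) : Finset (Fin n) :=
  Finset.univ.filter fun c => x < ρ c ∧ ρ c < ρ i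

/-- The move on tuples. -/
def mvT (g : Fin n → G) (i : Fin n) (S : Finset (Fin n)) : Fin n → G :=
  fun c => if c ∈ S then (g i)⁻¹ * g c * g i else g c

/-- The order after a list of moves. -/
def rhoL : List (Fin n × ℝ) → (Fin n → ℝ) → Fin n → ℝ
  | [], ρ => ρ
  | m :: μ, ρ => rhoL μ (Function.update ρ m.1 m.2)

/-- The tuple after a list of moves. -/
noncomputable def mvTL : List (Fin n × ℝ) → (Fin n → ℝ) → (Fin n → G) → Fin n → G
  | [], _, g => g
  | m :: μ, ρ, g => mvTL μ (Function.update ρ m.1 m.2) (mvT g m.1 (mvS ρ m.1 m.2))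

/-- Every move goes down to a free position. -/
def ValidL : List (Fin n × ℝ) → (Fin n → ℝ) → Prop
  | [], _ => True
  | m :: μ, ρ => m.2 < ρ m.1 ∧ (∀ c, ρ c ≠ m.2) ∧ ValidL μ (Function.update ρ m.1 m.2)

end rect

section gram
variable {K : Type*} [Field K]

/-- The matrix whose principal minors give characteristic polynomials of ordered products. -/
noncomputable def Qm (ρ : Fin n → ℝ) (ζ : Fin n → K) (N : Matrix (Fin n) (Fin n) K) :
    Matrix (Fin n) (Fin n) K[X] :=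
  Matrix.of fun a b => if a = b then X - C (ζ a) else if ρ a < ρ b then X * C (N a b) else C (N a b)

/-- Principal minor. -/
def minor {R : Type*} [CommRing R] (J : Finset (Fin n)) (M : Matrix (Fin n) (Fin n) R) : R :=
  (M.submatrix (Subtype.val : J → Fin n) Subtype.val).det

/-- The move on Gram matrices. -/
def mvN (ζ : Fin n → K) (N : Matrix (Fin n) (Fin n) K) (i : Fin n) (S : Finset (Fin n)) :
    Matrix (Fin n) (Fin n) K :=
  Matrix.of fun a b => if a ∈ S then (if b ∈ S then N a b else N a b - N a i * N i b)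
    else if b ∈ S then N a b + (ζ i)⁻¹ * N a i * N i b else N a b

/-- The Gram matrix after a list of moves. -/
noncomputable def mvNL (ζ : Fin n → K) :
    List (Fin n × ℝ) → (Fin n → ℝ) → Matrix (Fin n) (Fin n) K → Matrix (Fin n) (Fin n) K
  | [], _, N => N
  | m :: μ, ρ, N => mvNL ζ μ (Function.update ρ m.1 m.2) (mvN ζ N m.1 (mvS ρ m.1 m.2))

/-- Product of the entries along the walk `a, l, b`. -/
def wk {R : Type*} [CommRing R] (N : Matrix (Fin n) (Fin n) R) : Fin n → List (Fin n) → Fin n → R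
  | a, [], b => N a b
  | a, c :: l, b => N a c * wk N c l b

/-- The reflection of index `a` on the coefficient space. -/
def rf {R : Type*} [CommRing R] (N : Matrix (Fin n) (Fin n) R) (a : Fin n) :
    Matrix (Fin n) (Fin n) R := 1 - vecMulVec (Pi.single a 1) (N a)

/-- The matrix coefficients of a word. -/
def Gm {R : Type*} [CommRing R] (N : Matrix (Fin n) (Fin n) R) (w : List (Fin n)) :
    Matrix (Fin n) (Fin n) R := N * (w.map (rf N)).prod

/-- The Gram matrix of the conjugate dual tuple. -/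
noncomputable def starN (ζ : Fin n → ℂ) (N : Matrix (Fin n) (Fin n) ℂ) :
    Matrix (Fin n) (Fin n) ℂ := Matrix.of fun a b => -ζ a * (starRingEnd ℂ) (N b a)

end gram

/-- The argument divided by `2 π`, in `[0, 1)`. -/
noncomputable def a01 (z : ℂ) : ℝ := Int.fract (Complex.arg z / (2 * Real.pi))

/-- The field of algebraic numbers in `ℂ`. -/
abbrev LL : Type := algebraicClosure ℚ ℂ

/-- `g` is a reflection with special eigenvalue `ζ`. -/
def IsRefl (g : Matrix (Fin r) (Fin r) ℂ) (ζ : ℂ) : Prop :=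
  ∃ e f : Fin r → ℂ, g = 1 - vecMulVec e f ∧ f ⬝ᵥ e = 1 - ζ

/-- The characteristic polynomial of the loop around `I`: roots of unity satisfying the exponent
inequalities for all embeddings and twists. -/
def Orr (r : ℕ) (ζ : Fin n → LL) (I : Finset (Fin n)) (q : ℂ[X]) : Prop :=
  ∃ ω : Fin r → LL, (∀ j, IsOfFinOrder (ω j)) ∧ q = ∏ j, (X - C (ω j : ℂ)) ∧
    ∀ σ : LL →+* ℂ, ∀ J ⊆ I, ∑ j, a01 (σ (ω j) / ∏ i ∈ J, σ (ζ i)) ≤
      ((r : ℝ) - 1) * ∑ i ∈ J, a01 (σ (ζ i))⁻¹ + ∑ i ∈ I \ J, a01 (σ (ζ i))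

/-- The two families of inequalities used at the level of Gram matrices. -/
def GIneq (ζ : Fin n → ℂ) (I : Finset (Fin n)) (ν : Multiset ℂ) : Prop :=
  (ν.map a01).sum ≤ ∑ i ∈ I, a01 (ζ i) ∧ ∀ a ∈ I, (ν.map fun z => a01 (z / ζ a)).sum ≤
    ((I.card : ℝ) - 1) * a01 (ζ a)⁻¹ + ∑ i ∈ I.erase a, a01 (ζ i)

/-- Arithmetic form of the information on a principal minor of `Qm`. -/
def GOr (ζ : Fin n → LL) (I : Finset (Fin n)) (q : ℂ[X]) : Prop :=
  ∃ ν : Multiset LL, (∀ z ∈ ν, IsOfFinOrder z) ∧ q = (ν.map fun z => X - C (z : ℂ)).prod ∧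
    ∀ σ : LL →+* ℂ, GIneq (fun i => σ (ζ i)) I (ν.map σ)

/-- The information after applying one embedding. -/
def WOr (ζ : Fin n → ℂ) (I : Finset (Fin n)) (q : ℂ[X]) : Prop :=
  ∃ ν : Multiset ℂ, (∀ z ∈ ν, ‖z‖ = 1) ∧ q = (ν.map fun z => X - C z).prod ∧ GIneq ζ I ν ∧
    GIneq (fun i => (ζ i)⁻¹) I (ν.map fun z => z⁻¹)

end Pool.Agent.GR
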