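import Pool.Agent.Lib.MP_aa40d3_nt.GR.LoopB

/-! The characteristic polynomial of the loop on the neck of a degeneration. -/

open Polynomial Matrix Set Filter Asymptotics Topology
open scoped Matrix.Norms.Operator

namespace Pool.Agent.GR

variable {n r : ℕ}

theorem sc_map {R S : Type*} [CommRing R] [CommRing S] (φ : R →+* S) (c : R) (P : R[X]) :
    (sc c P).map φ = sc (φ c) (P.map φ) := by
  rw [sc, sc, Polynomial.map_comp, Polynomial.map_mul, map_C, map_X]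

/-- The side stays in the annulus. -/
def LoopSd (ya yb : ℂ) : Prop := ∀ s, 1 ≤ ‖lin ya yb s‖ ∧ ‖lin ya yb s‖ ≤ 2

theorem loop_norm {y : ℂ} (h : (|y.re| = 1 ∧ |y.im| ≤ 1) ∨ (|y.im| = 1 ∧ |y.re| ≤ 1)) :
    1 ≤ ‖y‖ ∧ ‖y‖ ≤ 2 := by
  have h1 := Complex.abs_re_le_norm y
  have h2 := Complex.abs_im_le_norm y
  have h3 := Complex.norm_le_abs_re_add_abs_im y
  rcases h with h | h
  · exact ⟨by linarith [h.1], by linarith [h.1, h.2]⟩
  · exact ⟨by linarith [h.1], by linarith [h.1, h.2]⟩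

theorem loop_lin (a b : ℂ) (s : unitInterval) : lin a b s = a + (s : ℝ) * (b - a) := rfl

theorem loop_sides : LoopSd (-1 - Complex.I) (1 - Complex.I) ∧
    LoopSd (1 - Complex.I) (1 + Complex.I) ∧ LoopSd (1 + Complex.I) (-1 + Complex.I) ∧
    LoopSd (-1 + Complex.I) (-1 - Complex.I) := by
  refine ⟨fun s => loop_norm (Or.inr ?_), fun s => loop_norm (Or.inl ?_),
    fun s => loop_norm (Or.inr ?_), fun s => loop_norm (Or.inl ?_)⟩ <;>
  · have h0 := s.2.1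
    have h1 := s.2.2
    rw [loop_lin, abs_le]
    refine ⟨by simp, ?_, ?_⟩ <;> simp <;> linarith

theorem LoopSd.ne {ya yb : ℂ} (h : LoopSd ya yb) (s : unitInterval) : lin ya yb s ≠ 0 :=
  norm_pos_iff.1 (zero_lt_one.trans_le (h s).1)

theorem LoopSd.not_mem {ya yb c x : ℂ} (h : LoopSd ya yb)
    (hx : ∀ y : ℂ, 1 ≤ ‖y‖ → ‖y‖ ≤ 2 → x ≠ c * y) : x ∉ segment ℝ (c * ya) (c * yb) := by
  rw [segment_eq_image']
  rintro ⟨θ, hθ, rfl⟩
  refine hx _ (h ⟨θ, hθ⟩).1 (h ⟨θ, hθ⟩).2 ?_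
  simp only [loop_lin, Complex.real_smul]
  ring

theorem loop_sq {𝔸 : Type} [NormedRing 𝔸] [NormedAlgebra ℂ 𝔸] [CompleteSpace 𝔸] (t : Fin n → ℂ)
    (A : Fin n → 𝔸) (c : ℂ) : sqLoop t A 0 c =
      T t A (c * (-1 + Complex.I)) (c * (-1 - Complex.I)) *
        T t A (c * (1 + Complex.I)) (c * (-1 + Complex.I)) *
        T t A (c * (1 - Complex.I)) (c * (1 + Complex.I)) *
        T t A (c * (-1 - Complex.I)) (c * (1 - Complex.I)) := by
  simp only [sqLoop, loop, zero_add]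

theorem loop_isBigO {𝔸 : Type} [NormedRing 𝔸] [NormedAlgebra ℂ 𝔸] [CompleteSpace 𝔸]
    {φ : 𝔸 → ℂ} (hφ : Differentiable ℂ φ) {l : Filter ℂ} {b0 b1 b2 b3 : ℂ → CI 𝔸}
    {c0 c1 c2 c3 : CI 𝔸} {u : ℂ → ℂ} (hu : Tendsto u l (𝓝 0))
    (h0 : (fun z => b0 z - c0) =O[l] u) (h1 : (fun z => b1 z - c1) =O[l] u)
    (h2 : (fun z => b2 z - c2) =O[l] u) (h3 : (fun z => b3 z - c3) =O[l] u) :
    (fun z => φ (Tr (b3 z) * Tr (b2 z) * Tr (b1 z) * Tr (b0 z)) -
      φ (Tr c3 * Tr c2 * Tr c1 * Tr c0)) =O[l] u := by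
  have hT := differentiable_Tr (𝔸 := 𝔸)
  have hd : Differentiable ℂ fun q : (CI 𝔸 × CI 𝔸) × (CI 𝔸 × CI 𝔸) =>
      φ (Tr q.2.2 * Tr q.2.1 * Tr q.1.2 * Tr q.1.1) :=
    hφ.comp ((((hT.comp differentiable_snd.snd).mul (hT.comp differentiable_snd.fst)).mul
      (hT.comp differentiable_fst.snd)).mul (hT.comp differentiable_fst.fst))
  have hO : (fun z => (((b0 z, b1 z), (b2 z, b3 z)) - ((c0, c1), (c2, c3)) :
      (CI 𝔸 × CI 𝔸) × (CI 𝔸 × CI 𝔸))) =O[l] u := (h0.prod_left h1).prod_left (h2.prod_left h3)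
  have ht : Tendsto (fun z => (((b0 z, b1 z), (b2 z, b3 z)) : (CI 𝔸 × CI 𝔸) × (CI 𝔸 × CI 𝔸))) l
      (𝓝 ((c0, c1), (c2, c3))) := tendsto_sub_nhds_zero_iff.1 (hO.trans_tendsto hu)
  exact ((hd ((c0, c1), (c2, c3))).isBigO_sub.comp_tendsto ht).trans hO

theorem loop_conj {W0 W1 W2 W3 T0 T1 T2 T3 P0 P1 P2 P3 : Mat r} (hW : W0.det ≠ 0)
    (h0 : W1 * T0 = P0 * W0) (h1 : W2 * T1 = P1 * W1) (h2 : W3 * T2 = P2 * W2)
    (h3 : W0 * T3 = P3 * W3) : (T3 * T2 * T1 * T0).charpoly = (P3 * P2 * P1 * P0).charpoly := by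
  have hu : IsUnit W0.det := isUnit_iff_ne_zero.2 hW
  have h4 : W0 * (T3 * T2 * T1 * T0) = P3 * P2 * P1 * P0 * W0 := by
    rw [← mul_assoc, ← mul_assoc, ← mul_assoc, h3, mul_assoc P3, h2, ← mul_assoc,
      mul_assoc (P3 * P2), h1, ← mul_assoc, mul_assoc (P3 * P2 * P1), h0, ← mul_assoc]
  rw [← nonsing_inv_mul_cancel_left W0 (T3 * T2 * T1 * T0) hu, h4, charpoly_mul_comm,
    mul_nonsing_inv_cancel_right _ _ hu]

theorem loop_nfErr {R : Type*} [CommRing R] (H : (PowerSeries R)[X])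
    (N : Fin r → (PowerSeries R)[X]) (γ : Fin r → R) (u : PowerSeries R)
    (g d : Matrix (Fin r) (Fin r) (PowerSeries R)[X]) :
    nfErr H N γ (g + (C u : (PowerSeries R)[X]) • d) =
      nfErr H N γ g + (C u : (PowerSeries R)[X]) • nfErr H N γ d := by
  have h : (g + (C u : (PowerSeries R)[X]) • d).map th =
      g.map th + (C u : (PowerSeries R)[X]) • d.map th := by
    refine Matrix.ext fun a b => ?_
    simp only [map_apply, Matrix.add_apply, Matrix.smul_apply, smul_eq_mul, th, derivative_add,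
      derivative_C_mul]
    ring
  unfold nfErr
  rw [h]
  simp only [Matrix.add_mul, Matrix.smul_mul, Matrix.mul_add, Matrix.mul_smul, smul_add, smul_sub,
    smul_comm H (C u : (PowerSeries R)[X])]
  abel

/-- Replace the formal gauge by a gauge over pairs. -/
theorem loop_approx (H : (PowerSeries ℂ)[X]) (N : Fin r → (PowerSeries ℂ)[X]) (γ : Fin r → ℂ)
    (m : ℕ) (g : Matrix (Fin r) (Fin r) (PowerSeries ℂ)[X])
    (h : ∀ a b, C (PowerSeries.X ^ (m + 1)) ∣ nfErr H N γ g a b) :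
    ∃ g' : Matrix (Fin r) (Fin r) PR[X], (g'.map (Polynomial.map ser)).map red = g.map red ∧
      ∀ a b, C (PowerSeries.X ^ (m + 1)) ∣ nfErr H N γ (g'.map (Polynomial.map ser)) a b := by
  choose g' d hd using fun a b => exists_pair_approx (g a b) (m + 1)
  have h1 : (Matrix.of g').map (Polynomial.map ser) =
      g + (C (PowerSeries.X ^ (m + 1)) : (PowerSeries ℂ)[X]) • Matrix.of d :=
    Matrix.ext fun a b => eq_add_of_sub_eq' (hd a b)
  refine ⟨Matrix.of g', ?_, fun a b => ?_⟩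
  · rw [h1]
    refine Matrix.ext fun a b => ?_
    have h2 : red (C (PowerSeries.X ^ (m + 1)) : (PowerSeries ℂ)[X]) = 0 := by simp [red]
    simp only [map_apply, Matrix.add_apply, Matrix.smul_apply, smul_eq_mul, map_add, map_mul, h2,
      zero_mul, add_zero]
  · rw [h1, loop_nfErr]
    exact dvd_add (h a b) (Dvd.intro _ rfl)

theorem loop_diff (τ : Fin n → PR) (G : PR) (Q : Fin n → Matrix (Fin r) (Fin r) PR) (ϱ : ℕ)
    (haw : ∀ᶠ z in 𝓝[≠] (0 : ℂ), evz z G ≠ 0 ∧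
      ∀ i (y : ℂ), 1 ≤ ‖y‖ → ‖y‖ ≤ 2 → evz z (τ i) ≠ z ^ ϱ * y) :
    ∀ᶠ z in 𝓝[≠] (0 : ℂ), DifferentiableAt ℂ (fun z => sqLoop (fun i => evz z (τ i))
      (fun i => ((evz z G)⁻¹ • (Q i).map (evz z) : Mat r)) 0 (z ^ ϱ)) z := by
  filter_upwards [haw, evz_diff G, eventually_all.2 fun i => evz_diff (τ i),
    eventually_all.2 fun i => eventually_all.2 fun a => eventually_all.2 fun b =>
      evz_diff (Q i a b)] with z h1 h2 h3 h4
  have key : ∀ ya yb : ℂ, LoopSd ya yb → DifferentiableAt ℂ (fun z => T (fun i => evz z (τ i))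
      (fun i => ((evz z G)⁻¹ • (Q i).map (evz z) : Mat r)) (z ^ ϱ * ya) (z ^ ϱ * yb)) z :=
    fun ya yb h => differentiableAt_T h3
      (fun i => differentiableAt_mat.2 fun a b => (h2.inv h1.1).mul (h4 i a b))
      ((differentiableAt_pow ϱ).mul_const ya) ((differentiableAt_pow ϱ).mul_const yb)
      fun i => h.not_mem (h1.2 i)
  obtain ⟨s0, s1, s2, s3⟩ := loop_sides
  simp only [loop_sq]
  exact (((key _ _ s3).mul (key _ _ s2)).mul (key _ _ s1)).mul (key _ _ s0)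

theorem loop_asy [NeZero r] (τ : Fin n → PR) (G : PR) (Q : Fin n → Matrix (Fin r) (Fin r) PR)
    (ϱ : ℕ) (β : Fin r → ℂ)
    (hnf : NFData (sc (PowerSeries.X ^ ϱ) ((HF τ G Q).map ser))
      (fun k => sc (PowerSeries.X ^ ϱ) ((NF τ G Q k).map ser)) β)
    (haw : ∀ᶠ z in 𝓝[≠] (0 : ℂ), evz z G ≠ 0 ∧
      ∀ i (y : ℂ), 1 ≤ ‖y‖ → ‖y‖ ≤ 2 → evz z (τ i) ≠ z ^ ϱ * y) (k K : ℕ) :
    (fun z => (sqLoop (fun i => evz z (τ i)) (fun i => ((evz z G)⁻¹ • (Q i).map (evz z) : Mat r)) 0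
        (z ^ ϱ)).charpoly.coeff k -
      (∏ j, (X - C (Complex.exp (2 * Real.pi * Complex.I * β j)))).coeff k) =O[𝓝[≠] 0]
      fun z : ℂ => z ^ (K + 1) := by
  obtain ⟨v, j0, c, hc, hH, hK⟩ := hnf
  obtain ⟨M, V, g0, hV, hg0, hE0⟩ := hK (K + 1)
  obtain ⟨g, hg, hE⟩ := loop_approx _ _ _ (v + K) g0 hE0
  rw [hg0] at hg
  have e1 : ∀ P : PR[X], (sc (prP (X ^ ϱ)) P).map ser = sc (PowerSeries.X ^ ϱ) (P.map ser) :=
    fun P => by rw [sc_map, ser_prP, Polynomial.coe_pow, Polynomial.coe_X]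
  have e2 : ∀ (z : ℂ) (P : PR[X]), (sc (prP (X ^ ϱ)) P).map (evz z) = sc (z ^ ϱ) (P.map (evz z)) :=
    fun z P => by rw [sc_map, evz_prP, eval_pow, eval_X]
  have key : ∀ ya yb : ℂ, LoopSd ya yb → ∃ b : ℂ → CI (Mat r),
      (fun z => b z - coef ![0] ![diagonal fun j => β j - M] ya yb) =O[𝓝[≠] 0]
        (fun z : ℂ => z ^ (K + 1)) ∧ ∀ᶠ z in 𝓝[≠] (0 : ℂ),
      gaugeW (fun i => evz z (τ i)) (evz z G) (fun i => (Q i).map (evz z)) (z ^ ϱ)
          (g.map (Polynomial.map (evz z))) yb *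
        T (fun i => evz z (τ i)) (fun i => ((evz z G)⁻¹ • (Q i).map (evz z) : Mat r))
          (z ^ ϱ * ya) (z ^ ϱ * yb) =
        Tr (b z) * gaugeW (fun i => evz z (τ i)) (evz z G) (fun i => (Q i).map (evz z)) (z ^ ϱ)
          (g.map (Polynomial.map (evz z))) ya ∧
      (gaugeW (fun i => evz z (τ i)) (evz z G) (fun i => (Q i).map (evz z)) (z ^ ϱ)
          (g.map (Polynomial.map (evz z))) ya).det ≠ 0 := fun ya yb h => by
    obtain ⟨b, hb1, hb2⟩ := side_asy (H := sc (prP (X ^ ϱ)) (HF τ G Q))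
      (N := fun k => sc (prP (X ^ ϱ)) (NF τ G Q k)) (γ := fun j => β j - M) (v := v) (j0 := j0)
      (K := K + 1) hc hV (by rw [e1]; exact hH) hg (by simp only [e1]; exact hE) h.ne
    refine ⟨b, hb1, ?_⟩
    filter_upwards [hb2, haw, self_mem_nhdsWithin] with z h1 h2 h3
    simp only [e2, HF_map, NF_map] at h1
    exact side_gauge h2.1 _ (pow_ne_zero ϱ h3) (fun i => h.not_mem (h2.2 i)) h.ne h1
  obtain ⟨s0, s1, s2, s3⟩ := loop_sides
  obtain ⟨b0, p0, q0⟩ := key _ _ s0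
  obtain ⟨b1, p1, q1⟩ := key _ _ s1
  obtain ⟨b2, p2, q2⟩ := key _ _ s2
  obtain ⟨b3, p3, q3⟩ := key _ _ s3
  have hu : Tendsto (fun z : ℂ => z ^ (K + 1)) (𝓝[≠] 0) (𝓝 0) :=
    ((continuous_pow (K + 1)).tendsto' 0 0 (zero_pow K.succ_ne_zero)).mono_left nhdsWithin_le_nhds
  refine (loop_isBigO (differentiable_charpoly_coeff k) hu p0 p1 p2 p3).congr' ?_ EventuallyEq.rfl
  filter_upwards [q0, q1, q2, q3] with z q0 q1 q2 q3
  have h1 := loop_sq ![0] ![(diagonal fun j => β j - M : Mat r)] 1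
  rw [sqLoop_euler _ _ one_ne_zero] at h1
  simp only [one_mul, T] at h1
  rw [loop_sq, loop_conj q0.2 q0.1 q1.1 q2.1 q3.1, ← h1, ← charpoly_exp_diagonal β M]
  rfl

/-- Fix a coefficient index `k` and let `f z` be the difference of the `k`-th coefficients. It is
differentiable near `0` (`differentiableAt_T`, `evz_diff`, `differentiable_charpoly_coeff`). To see
`f = O (z ^ K)` take `M, V, g` from `NFData` at order `K + 1`, replace `g` by pairs
(`exists_pair_approx` at order `v + K + 1`; `nfErr` is additive in `g` and preserves divisibility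
by `C (X ^ m)`), and apply `side_asy` to `H' = sc (prP (X ^ ϱ)) (HF τ G Q)` on the four sides of
the square with corners `-1 - I, 1 - I, 1 + I, -1 + I`. By `side_gauge` (`sc_map`, `HF_map`,
`NF_map`) the loop is conjugate to the product of the four `Tr (b z)`. The map from quadruples to
the `k`-th coefficient is differentiable, so it differs by `O (z ^ (K + 1))`
(`HasFDerivAt.isBigO_sub` or `DifferentiableAt.isBigO_sub`) from its value at the Euler system,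
given by `sqLoop_euler` and `charpoly_exp_diagonal`. Conclude with `flat_zero` for the finitely
many `k ≤ r`. -/
theorem loop_charpoly [NeZero r] (τ : Fin n → PR) (G : PR) (Q : Fin n → Matrix (Fin r) (Fin r) PR)
    (ϱ : ℕ) (β : Fin r → ℂ)
    (hnf : NFData (sc (PowerSeries.X ^ ϱ) ((HF τ G Q).map ser))
      (fun k => sc (PowerSeries.X ^ ϱ) ((NF τ G Q k).map ser)) β)
    (haw : ∀ᶠ z in 𝓝[≠] (0 : ℂ), evz z G ≠ 0 ∧
      ∀ i (y : ℂ), 1 ≤ ‖y‖ → ‖y‖ ≤ 2 → evz z (τ i) ≠ z ^ ϱ * y) :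
    ∀ᶠ z in 𝓝[≠] (0 : ℂ),
      (sqLoop (fun i => evz z (τ i)) (fun i => ((evz z G)⁻¹ • (Q i).map (evz z) : Mat r)) 0
        (z ^ ϱ)).charpoly = ∏ j, (X - C (Complex.exp (2 * Real.pi * Complex.I * β j))) := by
  have key : ∀ k : ℕ, ∀ᶠ z in 𝓝[≠] (0 : ℂ),
      (sqLoop (fun i => evz z (τ i)) (fun i => ((evz z G)⁻¹ • (Q i).map (evz z) : Mat r)) 0
        (z ^ ϱ)).charpoly.coeff k -
      (∏ j, (X - C (Complex.exp (2 * Real.pi * Complex.I * β j)))).coeff k = 0 := fun k => by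
    refine flat_zero ?_ fun K => (loop_asy τ G Q ϱ β hnf haw k K).trans
      ((isLittleO_pow_pow (𝕜 := ℂ) K.lt_succ_self).isBigO.mono nhdsWithin_le_nhds)
    filter_upwards [loop_diff τ G Q ϱ haw] with z hz
    exact (((differentiable_charpoly_coeff k) _).comp z hz).sub_const _
  filter_upwards [(eventually_all_finset (Finset.range (r + 1))).2 fun k _ => key k] with z hz
  refine Polynomial.ext fun k => ?_
  by_cases hk : k < r + 1
  · exact sub_eq_zero.1 (hz k (Finset.mem_range.2 hk))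
  · rw [← charpoly_exp_diagonal β 0, coeff_eq_zero_of_natDegree_lt, coeff_eq_zero_of_natDegree_lt]
    · rw [charpoly_natDegree_eq_dim, Fintype.card_fin]
      omega
    · rw [charpoly_natDegree_eq_dim, Fintype.card_fin]
      omega

end Pool.Agent.GR
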