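import Pool.Agent.Lib.MP_aa40d3_nt.GR.Rk

/-! Affine changes of variable, scalar factors and twists of Fuchsian systems. -/

open Polynomial Matrix

namespace Pool.Agent.GR

variable {n r : ℕ}

theorem aff_cols {R : Type*} [CommRing R] {δ : R[X]} {P Φ : Matrix (Fin r) (Fin r) R[X]}
    (h : ∀ b, IsSol δ P fun a => Φ a b) : δ • Φ.map derivative = P * Φ :=
  Matrix.ext fun a b => congrFun (h b) a

theorem aff_pm_apply {R : Type*} [CommRing R] (t : Fin n → R)
    (A : Fin n → Matrix (Fin r) (Fin r) R) (a b : Fin r) :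
    pm t A a b = ∑ i, (∏ j ∈ Finset.univ.erase i, (X - C (t j))) * C (A i a b) := by
  rw [pm, Matrix.sum_apply]
  rfl

section aff
variable {k : Type*} [Field k]

theorem aff_inj {c b : k} (hc : c ≠ 0) {q : k[X]} (h : q.comp (C c * X + C b) = 0) : q = 0 := by
  refine (comp_eq_zero_iff.1 h).resolve_right fun e => ?_
  have h1 := congrArg natDegree e.2
  rw [natDegree_linear hc, natDegree_C] at h1
  exact one_ne_zero h1

theorem aff_prod {t t' : Fin n → k} {c b : k} (h : ∀ i, t i = c * t' i + b) (S : Finset (Fin n)) :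
    (∏ j ∈ S, (X - C (t j))).comp (C c * X + C b) = C c ^ S.card * ∏ j ∈ S, (X - C (t' j)) := by
  rw [prod_comp, ← Finset.prod_const, ← Finset.prod_mul_distrib]
  refine Finset.prod_congr rfl fun j _ => ?_
  rw [sub_comp, X_comp, C_comp, h j, C_add, C_mul]
  ring

theorem aff_dl {t t' : Fin n → k} {c b : k} (h : ∀ i, t i = c * t' i + b) :
    (dl t).comp (C c * X + C b) = C c ^ n * dl t' := by
  rw [dl, aff_prod h, Finset.card_univ, Fintype.card_fin, dl]

theorem aff_pm {t t' : Fin n → k} {c b : k} (h : ∀ i, t i = c * t' i + b)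
    (A : Fin n → Matrix (Fin r) (Fin r) k) (a a' : Fin r) :
    C c * (pm t A a a').comp (C c * X + C b) = C c ^ n * pm t' A a a' := by
  rw [aff_pm_apply, aff_pm_apply, sum_comp, Finset.mul_sum, Finset.mul_sum]
  refine Finset.sum_congr rfl fun i _ => ?_
  have h1 := Finset.card_erase_add_one (Finset.mem_univ i)
  rw [Finset.card_univ, Fintype.card_fin] at h1
  rw [mul_comp, C_comp, aff_prod h, ← mul_assoc, ← mul_assoc, ← pow_succ', h1, mul_assoc]

/-- With `u = C c * X + C b`: `(dl t).comp u = C (c ^ n) * dl t'`, each product in `pm` picks up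
`c ^ (n - 1)` and the chain rule gives one more factor `c` (for `n = 0` both sides are trivial). -/
theorem isSol_aff {t t' : Fin n → k} {c b : k} (hc : c ≠ 0) (h : ∀ i, t i = c * t' i + b)
    {A : Fin n → Matrix (Fin r) (Fin r) k} {v : Fin r → k[X]} (hv : IsSol (dl t) (pm t A) v) :
    IsSol (dl t') (pm t' A) fun a => (v a).comp (C c * X + C b) := by
  funext a
  have h1 : dl t * derivative (v a) = ∑ j, pm t A a j * v j := congrFun hv a
  have h2 := congrArg (fun q => C c * q.comp (C c * X + C b)) h1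
  simp only [mul_comp, sum_comp, Finset.mul_sum, ← mul_assoc, aff_dl h, aff_pm h] at h2
  change dl t' * derivative ((v a).comp (C c * X + C b)) =
    ∑ j, pm t' A a j * (v j).comp (C c * X + C b)
  refine mul_left_cancel₀ (pow_ne_zero n (C_ne_zero.2 hc)) ?_
  rw [derivative_comp, Finset.mul_sum, derivative_add, derivative_C, derivative_C_mul_X, add_zero]
  simp only [← mul_assoc]
  rw [← h2]
  ring

theorem hasFund_aff {t t' : Fin n → k} {c b : k} (hc : c ≠ 0) (h : ∀ i, t i = c * t' i + b)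
    {A : Fin n → Matrix (Fin r) (Fin r) k} (hf : HasFund t A) : HasFund t' A := by
  obtain ⟨Φ, h1, h2⟩ := hf
  refine ⟨Φ.map (compRingHom (C c * X + C b)), fun e => h1 (aff_inj hc (b := b) ?_),
    aff_cols fun j => isSol_aff hc h (isSol_col h2 j)⟩
  have h3 := RingHom.map_det (compRingHom (C c * X + C b)) Φ
  rw [RingHom.mapMatrix_apply, e] at h3
  exact h3

theorem injS_aff [NeZero r] {t t' : Fin n → k} {c b : k} (hc : c ≠ 0)
    (h : ∀ i, t i = c * t' i + b) {A : Fin n → Matrix (Fin r) (Fin r) k}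
    (hf : InjS (dl t) (pm t A)) : InjS (dl t') (pm t' A) := by
  intro v hv h0
  have h1 := hf _ (isSol_aff (t := t') (t' := t) (b := -(c⁻¹ * b)) (inv_ne_zero hc)
    (fun i => by rw [h i, mul_add, inv_mul_cancel_left₀ hc, add_neg_cancel_right]) hv)
    (by simp only [h0, zero_comp])
  exact funext fun a => aff_inj (inv_ne_zero hc) (congrFun h1 a)

theorem GoodSys.aff [NeZero r] {k : Type} [Field k] {D : ℕ} {a : Fin n → ℤ} {t t' : Fin n → k}
    {c b : k} (hc : c ≠ 0) (h : ∀ i, t i = c * t' i + b) {A : Fin n → Matrix (Fin r) (Fin r) k}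
    (hg : GoodSys D a t A) : GoodSys D a t' A := by
  exact ⟨fun i j e => hg.inj (by rw [h i, h j, e]), hg.rk, hg.tr, injS_aff hc h hg.injS⟩

theorem isSol_clear {t : Fin n → k} {G : k} (hG : G ≠ 0) {Q : Fin n → Matrix (Fin r) (Fin r) k}
    {v : Fin r → k[X]} :
    IsSol (C G * dl t) (pm t Q) v ↔ IsSol (dl t) (pm t fun i => G⁻¹ • Q i) v := by
  rw [IsSol, IsSol, pm_smul, smul_mulVec, mul_smul]
  constructor
  · intro h
    rw [← h, smul_smul, ← C_mul, inv_mul_cancel₀ hG, C_1, one_smul]
  · intro h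
    rw [h, smul_smul, ← C_mul, mul_inv_cancel₀ hG, C_1, one_smul]

end aff

section twist
variable {R : Type*} [CommRing R]

theorem aff_pm_add (t : Fin n → R) (A : Fin n → Matrix (Fin r) (Fin r) R) (m : Fin n → ℕ) :
    (pm t fun i => A i + (m i : R) • (1 : Matrix (Fin r) (Fin r) R)) = pm t A +
      (∑ i, (m i : R[X]) * ∏ j ∈ Finset.univ.erase i, (X - C (t j))) •
        (1 : Matrix (Fin r) (Fin r) R[X]) := by
  refine Matrix.ext fun a b => ?_
  rw [Matrix.add_apply, aff_pm_apply, aff_pm_apply, Matrix.smul_apply, smul_eq_mul,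
    Finset.sum_mul, ← Finset.sum_add_distrib]
  refine Finset.sum_congr rfl fun i _ => ?_
  rw [Matrix.add_apply, Matrix.smul_apply, smul_eq_mul, C_add, C_mul, map_natCast, one_apply,
    one_apply]
  split_ifs
  · rw [C_1]
    ring
  · rw [C_0]
    ring

theorem aff_logder (t : Fin n → R) (m : Fin n → ℕ) (S : Finset (Fin n)) :
    dl t * derivative (∏ i ∈ S, (X - C (t i)) ^ m i) =
      (∑ i ∈ S, (m i : R[X]) * ∏ j ∈ Finset.univ.erase i, (X - C (t j))) *
        ∏ i ∈ S, (X - C (t i)) ^ m i := by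
  induction S using Finset.induction_on with
  | empty => simp
  | insert i S hi ih =>
    have h1 : dl t * derivative ((X - C (t i)) ^ m i) =
        (m i : R[X]) * (∏ j ∈ Finset.univ.erase i, (X - C (t j))) * (X - C (t i)) ^ m i := by
      rw [dl, ← Finset.mul_prod_erase _ _ (Finset.mem_univ i), derivative_X_sub_C_pow, map_natCast]
      rcases m i with _ | q
      · simp
      · rw [Nat.add_sub_cancel]
        ring
    rw [Finset.prod_insert hi, Finset.sum_insert hi, derivative_mul]
    linear_combination (∏ i ∈ S, (X - C (t i)) ^ m i) * h1 + (X - C (t i)) ^ m i * ih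

theorem aff_prod_ne [IsDomain R] (t : Fin n → R) (m : Fin n → ℕ) :
    (∏ i, (X - C (t i)) ^ m i : R[X]) ≠ 0 :=
  Finset.prod_ne_zero_iff.2 fun i _ => pow_ne_zero _ (X_sub_C_ne_zero (t i))

/-- Logarithmic derivative of `∏ (X - t i) ^ m i`. -/
theorem isSol_twist {t : Fin n → R} {A : Fin n → Matrix (Fin r) (Fin r) R} {v : Fin r → R[X]}
    (m : Fin n → ℕ) (hv : IsSol (dl t) (pm t A) v) :
    IsSol (dl t) (pm t fun i => A i + (m i : R) • (1 : Matrix (Fin r) (Fin r) R))
      ((∏ i, (X - C (t i)) ^ m i) • v) := by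
  rw [IsSol, aff_pm_add, add_mulVec, smul_mulVec, one_mulVec, mulVec_smul, ← hv]
  funext a
  have h1 := aff_logder t m Finset.univ
  simp only [Pi.smul_apply, Pi.add_apply, smul_eq_mul, derivative_mul]
  linear_combination v a * h1

theorem hasFund_twist [IsDomain R] {t : Fin n → R} {A : Fin n → Matrix (Fin r) (Fin r) R}
    (m : Fin n → ℕ) (hf : HasFund t A) :
    HasFund t fun i => A i + (m i : R) • (1 : Matrix (Fin r) (Fin r) R) := by
  obtain ⟨Φ, h1, h2⟩ := hf
  refine ⟨(∏ i, (X - C (t i)) ^ m i : R[X]) • Φ, ?_, aff_cols fun j => ?_⟩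
  · rw [det_smul]
    exact mul_ne_zero (pow_ne_zero _ (aff_prod_ne t m)) h1
  · have h3 := isSol_twist m (isSol_col h2 j)
    generalize (∏ i, (X - C (t i)) ^ m i : R[X]) = q at h3
    exact h3

/-- Twist back by `(p - 1) * m i`. -/
theorem injS_twist [IsDomain R] [NeZero r] (p : ℕ) [CharP R p] (hp : 0 < p) {t : Fin n → R}
    {A : Fin n → Matrix (Fin r) (Fin r) R} (m : Fin n → ℕ) (h : InjS (dl t) (pm t A)) :
    InjS (dl t) (pm t fun i => A i + (m i : R) • (1 : Matrix (Fin r) (Fin r) R)) := by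
  intro v hv h0
  have h1 := isSol_twist (fun i => (p - 1) * m i) hv
  have h2 : ∀ i, A i + (m i : R) • (1 : Matrix (Fin r) (Fin r) R) +
      (((p - 1) * m i : ℕ) : R) • (1 : Matrix (Fin r) (Fin r) R) = A i := fun i => by
    have h3 : m i + (p - 1) * m i = p * m i := by
      obtain ⟨q, rfl⟩ : ∃ q, p = q + 1 := ⟨p - 1, by omega⟩
      rw [Nat.add_sub_cancel, add_mul, one_mul, add_comm]
    rw [add_assoc, ← add_smul, ← Nat.cast_add, h3, Nat.cast_mul, CharP.cast_eq_zero, zero_mul,
      zero_smul, add_zero]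
  simp only [h2] at h1
  have h4 := h _ h1 (by rw [Pi.smul_apply, h0, smul_zero])
  exact funext fun a => (mul_eq_zero.1 (congrFun h4 a)).resolve_left (aff_prod_ne t _)

end twist

end Pool.Agent.GR
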