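import Pool.Agent.Lib.MP_aa40d3_nt.GR.WalkA

/-! Integrality of closed walks. -/

open Polynomial Matrix

namespace Pool.Agent.GR

variable {n : ℕ} {K : Type*} [Field K]

private theorem walk_perm_eq {m : ℕ} (σ : Equiv.Perm (Fin (m + 1))) (h0 : σ (Fin.last m) = 0)
    (h : ∀ i, (σ i : ℕ) ≤ (i : ℕ) + 1) : σ = finRotate (m + 1) := by
  have key : ∀ k : ℕ, ∀ i : Fin (m + 1), (i : ℕ) = k → k < m → (σ i : ℕ) = k + 1 := by
    intro k
    induction k using Nat.strong_induction_on with
    | _ k ih =>
      intro i hi hk
      have h1 := h i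
      by_contra hne
      rcases Nat.eq_zero_or_pos (σ i : ℕ) with hz | hp
      · have : σ i = σ (Fin.last m) := by rw [h0]; exact Fin.ext hz
        have := σ.injective this
        rw [this] at hi
        simp at hi
        omega
      · have ht : (σ i : ℕ) - 1 < m + 1 := by omega
        have := ih ((σ i : ℕ) - 1) (by omega) ⟨_, ht⟩ rfl (by omega)
        have h2 : σ ⟨_, ht⟩ = σ i := Fin.ext (by omega)
        have h3 := congrArg Fin.val (σ.injective h2)
        simp at h3
        omega
  ext i
  by_cases hi : i = Fin.last m
  · subst hi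
    rw [h0, finRotate_last]
  · have hlt : (i : ℕ) < m := by
      have := i.2
      have h2 : (i : ℕ) ≠ m := fun h => hi (Fin.ext (by simpa using h))
      omega
    rw [key i i rfl hlt, coe_finRotate_of_ne_last hi]

private theorem walk_det_mem (N : Matrix (Fin n) (Fin n) K) (O : ValuationSubring K)
    (h : ∀ J, minor J N ∈ O) {m : ℕ} (v : Fin m → Fin n) : (N.submatrix v v).det ∈ O := by
  classical
  by_cases hv : Function.Injective v
  · let J : Finset (Fin n) := Finset.univ.image v
    have hb : Function.Bijective (fun i => (⟨v i, by simp [J]⟩ : J)) := by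
      refine ⟨fun i j hij => hv (congrArg Subtype.val hij), ?_⟩
      rintro ⟨x, hx⟩
      obtain ⟨i, -, rfl⟩ := Finset.mem_image.1 hx
      exact ⟨i, rfl⟩
    have := h J
    unfold minor at this
    rw [← Matrix.det_submatrix_equiv_self (Equiv.ofBijective _ hb)] at this
    exact this
  · unfold Function.Injective at hv
    push Not at hv
    obtain ⟨i, j, hij, hne⟩ := hv
    rw [Matrix.det_zero_of_row_eq hne]
    · exact O.zero_mem
    · ext t
      simp [hij]

private theorem walk_cyc (N : Matrix (Fin n) (Fin n) K) (O : ValuationSubring K)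
    (h : ∀ J, minor J N ∈ O) (m : ℕ) : ∀ f : ℕ → Fin n,
      (∏ t ∈ Finset.range m, N (f t) (f (t + 1))) * N (f m) (f 0) ∈ O := by
  classical
  induction m using Nat.strong_induction_on with
  | _ m ih =>
    intro f
    by_contra hW
    let F : ℕ → Fin n := fun t => f (t % (m + 1))
    have hF : ∀ t, F (t + (m + 1)) = F t := fun t => by simp [F]
    let P : ℕ → K := fun i => ∏ t ∈ Finset.range i, N (F t) (F (t + 1))
    have hPs : ∀ i, P (i + 1) = P i * N (F i) (F (i + 1)) := fun i => Finset.prod_range_succ _ _
    have hP0 : P 0 = 1 := by simp [P]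
    have hWP : (∏ t ∈ Finset.range m, N (f t) (f (t + 1))) * N (f m) (f 0) = P (m + 1) := by
      rw [hPs]
      congr 1
      · refine Finset.prod_congr rfl fun t ht => ?_
        have := Finset.mem_range.1 ht
        simp only [F]
        rw [Nat.mod_eq_of_lt (by omega), Nat.mod_eq_of_lt (by omega)]
      · simp [F]
    rw [hWP] at hW
    have hadd : ∀ a b, P (a + b) = P a * ∏ t ∈ Finset.range b, N (F (a + t)) (F (a + t + 1)) :=
      fun a b => Finset.prod_range_add _ _ _
    have hper : ∀ i, P (i + (m + 1)) = P (m + 1) * P i := by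
      intro i
      rw [add_comm, hadd]
      congr 1
      refine Finset.prod_congr rfl fun t _ => ?_
      rw [show m + 1 + t = t + (m + 1) by ring, show t + (m + 1) + 1 = (t + 1) + (m + 1) by ring,
        hF, hF]
    have hW0 : P (m + 1) ≠ 0 := fun h0 => hW (h0 ▸ O.zero_mem)
    have hWi : (P (m + 1))⁻¹ ∈ O := (O.mem_or_inv_mem _).resolve_left hW
    have hne : ∀ i, i ≤ m + 1 → P i ≠ 0 := by
      intro i hi h0
      obtain ⟨b, hb⟩ := Nat.exists_eq_add_of_le hi
      apply hW0
      rw [hb, hadd, h0, zero_mul]
    have hcyc : ∀ a b, a ≤ m + 1 → b < m → P (a + b) * N (F (a + b)) (F a) / P a ∈ O := by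
      intro a b ha hb
      have := ih b hb (fun t => F (a + t))
      rw [hadd, mul_assoc, mul_div_cancel_left₀ _ (hne a ha)]
      simpa [add_assoc] using this
    let M : Fin (m + 1) → Fin (m + 1) → K := fun i j => P i * N (F i) (F j) / P j
    have hbig : ∀ i j : Fin (m + 1), (i : ℕ) + 1 < j → P (m + 1) * M i j ∈ O := by
      intro i j hij
      have hj := j.2
      have := hcyc j ((i : ℕ) + (m + 1) - j) (by omega) (by omega)
      rw [show (j : ℕ) + ((i : ℕ) + (m + 1) - j) = i + (m + 1) by omega, hF, hper] at this
      simp only [M]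
      convert this using 1
      ring
    have hM : ∀ i j : Fin (m + 1), ¬ (i = Fin.last m ∧ j = 0) → M i j ∈ O := by
      intro i j hij
      have hi := i.2
      have hj := j.2
      rcases lt_trichotomy ((i : ℕ) + 1) j with h1 | h1 | h1
      · have := O.mul_mem _ _ hWi (hbig i j h1)
        rwa [inv_mul_cancel_left₀ hW0] at this
      · have : M i j = 1 := by
          simp only [M]
          rw [← h1, ← hPs, div_self (hne _ (by omega))]
        rw [this]
        exact O.one_mem
      · have hlt : (i : ℕ) - j < m := by
          by_contra hc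
          exact hij ⟨Fin.ext (by rw [Fin.val_last]; omega), Fin.ext (by rw [Fin.val_zero]; omega)⟩
        have := hcyc j ((i : ℕ) - j) (by omega) hlt
        rwa [show (j : ℕ) + ((i : ℕ) - j) = i by omega] at this
    have hML : M (Fin.last m) 0 = P (m + 1) := by
      simp only [M, Fin.val_last, Fin.val_zero]
      rw [hP0, div_one, hPs, ← hF 0, zero_add]
    have hprod : ∀ σ : Equiv.Perm (Fin (m + 1)),
        ∏ i : Fin (m + 1), N (F i) (F (σ i)) = ∏ i, M i (σ i) := by
      intro σ
      simp only [M]
      rw [Finset.prod_div_distrib, Finset.prod_mul_distrib,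
        Equiv.prod_comp σ (fun i : Fin (m + 1) => P i), mul_div_cancel_left₀]
      exact Finset.prod_ne_zero_iff.2 fun i _ => hne _ (by have := i.2; omega)
    have hother : ∀ σ : Equiv.Perm (Fin (m + 1)), σ ≠ finRotate (m + 1) → ∏ i, M i (σ i) ∈ O := by
      intro σ hσ
      by_cases h0 : σ (Fin.last m) = 0
      · have : ¬ ∀ i, (σ i : ℕ) ≤ (i : ℕ) + 1 := fun hh => hσ (walk_perm_eq σ h0 hh)
        push Not at this
        obtain ⟨i, hi⟩ := this
        have hil : i ≠ Fin.last m := by
          rintro rfl
          rw [h0] at hi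
          simp at hi
        rw [← Finset.mul_prod_erase _ _ (Finset.mem_univ (Fin.last m)),
          ← Finset.mul_prod_erase _ _ (Finset.mem_erase.2 ⟨hil, Finset.mem_univ i⟩), h0, hML,
          ← mul_assoc]
        refine O.mul_mem _ _ (hbig _ _ hi) (O.toSubring.prod_mem fun t ht => hM _ _ ?_)
        exact fun hh => (Finset.mem_erase.1 (Finset.mem_erase.1 ht).2).1 hh.1
      · refine O.toSubring.prod_mem fun t _ => hM _ _ ?_
        rintro ⟨rfl, h2⟩
        exact h0 h2
    have hrot : ∏ i, M i (finRotate (m + 1) i) = P (m + 1) := by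
      rw [← Finset.mul_prod_erase _ _ (Finset.mem_univ (Fin.last m)), finRotate_last, hML,
        Finset.prod_eq_one, mul_one]
      intro i hi
      have hil := (Finset.mem_erase.1 hi).1
      have := i.2
      simp only [M]
      rw [coe_finRotate_of_ne_last hil, ← hPs, div_self (hne _ (by omega))]
    have hdet := walk_det_mem N O h (fun i : Fin (m + 1) => F i)
    rw [← Matrix.det_transpose, Matrix.det_apply,
      ← Finset.add_sum_erase _ _ (Finset.mem_univ (finRotate (m + 1)))] at hdet
    simp only [Matrix.transpose_apply, Matrix.submatrix_apply] at hdet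
    simp only [hprod] at hdet
    rw [hrot] at hdet
    have hrest : ∑ σ ∈ Finset.univ.erase (finRotate (m + 1)),
        Equiv.Perm.sign σ • ∏ i, M i (σ i) ∈ O := by
      refine O.toSubring.sum_mem fun σ hσ => ?_
      have := hother σ (Finset.mem_erase.1 hσ).1
      rcases Int.units_eq_one_or (Equiv.Perm.sign σ) with hs | hs <;> rw [hs]
      · simpa using this
      · simpa using O.neg_mem _ this
    have hfin := O.toSubring.sub_mem hdet hrest
    rw [add_sub_cancel_right] at hfin
    apply hW
    rcases Int.units_eq_one_or (Equiv.Perm.sign (finRotate (m + 1))) with hs | hs <;>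
      rw [hs] at hfin
    · simpa using hfin
    · have := O.neg_mem _ hfin
      simpa using this

private theorem walk_wk_eq (N : Matrix (Fin n) (Fin n) K) (l : List (Fin n)) :
    ∀ a b : Fin n, wk N a l b = (∏ t ∈ Finset.range l.length,
      N ((a :: l).getD t b) ((a :: l).getD (t + 1) b)) * N ((a :: l).getD l.length b) b := by
  induction l with
  | nil => intro a b; simp [wk]
  | cons c l ih =>
    intro a b
    rw [wk, ih c b, List.length_cons, Finset.prod_range_succ']
    simp only [List.getD_cons_succ, List.getD_cons_zero]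
    ring

/-- Strong induction on the length; in the expansion of the principal minor on a shortest closed
walk with product outside `O`, every other permutation contributes an element of `O`. -/
theorem wk_mem_valuationSubring (N : Matrix (Fin n) (Fin n) K) (O : ValuationSubring K)
    (h : ∀ J, minor J N ∈ O) (a : Fin n) (l : List (Fin n)) : wk N a l a ∈ O := by
  rw [walk_wk_eq]
  exact walk_cyc N O h l.length (fun t => (a :: l).getD t a)

/-- `iInf_valuationSubring_superset` describes the integral closure. -/
theorem wk_isIntegral (N : Matrix (Fin n) (Fin n) K) (h : ∀ J, IsIntegral ℤ (minor J N))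
    (a : Fin n) (l : List (Fin n)) : IsIntegral ℤ (wk N a l a) := by
  let s : Set K := {x | IsIntegral ℤ x}
  have h1 : wk N a l a ∈ (integralClosure (Subring.closure s) K).toSubring := by
    rw [← iInf_valuationSubring_superset, Subring.mem_iInf]
    intro V
    exact wk_mem_valuationSubring N V.1 (fun J => V.2 (h J)) a l
  have h2 : IsIntegral (Subring.closure s) (wk N a l a) := h1
  have h3 : Subring.closure s ≤ (integralClosure ℤ K).toSubring :=
    Subring.closure_le.2 fun x hx => hx
  have : Algebra.IsIntegral ℤ (Subring.closure s) := ⟨fun x => by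
    have hx : IsIntegral ℤ (x : K) := h3 x.2
    exact (isIntegral_algHom_iff (Subring.closure s).subtype.toIntAlgHom
      Subtype.val_injective).1 hx⟩
  exact isIntegral_trans _ h2

end Pool.Agent.GR
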