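import Pool.Agent.Lib.MP_aa40d3_nt.GR.Gram
import Pool.Agent.Lib.MP_aa40d3_nt.GR.Walk

/-! Finiteness criteria. -/

open Polynomial Matrix

namespace Pool.Agent.GR

variable {n r : ℕ}

/-- No proper invariant subspace. -/
def IrrT (g : Fin n → (Matrix (Fin r) (Fin r) ℂ)ˣ) : Prop :=
  ∀ U : Submodule ℂ (Fin r → ℂ), (∀ a, ∀ v ∈ U, (g a).val *ᵥ v ∈ U) → U = ⊥ ∨ U = ⊤

theorem groupA_mulVec {g : Fin n → (Matrix (Fin r) (Fin r) ℂ)ˣ} {e f : Fin n → Fin r → ℂ}
    {N : Matrix (Fin n) (Fin n) ℂ} (h : Repr g e f N) (c : Fin n) (v : Fin r → ℂ) :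
    (g c).val *ᵥ v = v - (f c ⬝ᵥ v) • e c := by
  rw [h.1, sub_mulVec, one_mulVec, vecMulVec_mulVec]
  simp

theorem groupA_span {g : Fin n → (Matrix (Fin r) (Fin r) ℂ)ˣ} {e f : Fin n → Fin r → ℂ}
    {N : Matrix (Fin n) (Fin n) ℂ} (h : Repr g e f N) (hd : ∀ a, N a a ≠ 0) (hi : IrrT g)
    {S : Set (Fin n)} {b : Fin n} (hb : b ∈ S) (hS : ∀ a ∈ S, ∀ c, N c a ≠ 0 → c ∈ S) :
    Submodule.span ℂ (e '' S) = ⊤ := by
  refine (hi _ fun c v hv => ?_).resolve_left fun h0 => hd b ?_
  · induction hv using Submodule.span_induction with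
    | mem v hv =>
      obtain ⟨a, ha, rfl⟩ := hv
      rw [groupA_mulVec h, ← h.2]
      refine sub_mem (Submodule.subset_span ⟨a, ha, rfl⟩) ?_
      by_cases h1 : N c a = 0
      · rw [h1, zero_smul]
        exact zero_mem _
      · exact Submodule.smul_mem _ _ (Submodule.subset_span ⟨c, hS a ha c h1, rfl⟩)
    | zero => simp
    | add x y _ _ hx hy => rw [mulVec_add]; exact add_mem hx hy
    | smul a x _ hx => rw [mulVec_smul]; exact Submodule.smul_mem _ _ hx
  · have h1 : e b ∈ Submodule.span ℂ (e '' S) := Submodule.subset_span ⟨b, hb, rfl⟩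
    rw [h0, Submodule.mem_bot] at h1
    rw [h.2, h1, dotProduct_zero]

/-- The span of the `e a` with a nonzero walk from `a` to `b` is invariant
(`g c *ᵥ e a = e a - N c a • e c`) and contains `e b ≠ 0`; since `f a ≠ 0`, some such `e a'` has
`N a a' ≠ 0`. -/
theorem Repr.connected {g : Fin n → (Matrix (Fin r) (Fin r) ℂ)ˣ} {e f : Fin n → Fin r → ℂ}
    {N : Matrix (Fin n) (Fin n) ℂ} (h : Repr g e f N) (hd : ∀ a, N a a ≠ 0) (hi : IrrT g)
    (a b : Fin n) : ∃ l, wk N a l b ≠ 0 := by
  have hS : ∀ a' ∈ {a' | ∃ l, wk N a' l b ≠ 0}, ∀ c, N c a' ≠ 0 →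
      c ∈ {a' | ∃ l, wk N a' l b ≠ 0} := fun a' ⟨l, hl⟩ c hc => ⟨a' :: l, mul_ne_zero hc hl⟩
  have h1 := groupA_span h hd hi (S := {a' | ∃ l, wk N a' l b ≠ 0}) (b := b) ⟨[], hd b⟩ hS
  by_contra h2
  have h3 : ∀ v ∈ Submodule.span ℂ (e '' {a' | ∃ l, wk N a' l b ≠ 0}), f a ⬝ᵥ v = 0 := by
    intro v hv
    induction hv using Submodule.span_induction with
    | mem v hv =>
      obtain ⟨a', ha', rfl⟩ := hv
      by_contra h4
      exact h2 (hS a' ha' a (h.2 a a' ▸ h4))
    | zero => simp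
    | add x y _ _ hx hy => rw [dotProduct_add, hx, hy, add_zero]
    | smul c x _ hx => rw [dotProduct_smul, hx, smul_zero]
  exact hd a (h.2 a a ▸ h3 _ (h1 ▸ Submodule.mem_top))

/-- `g c *ᵥ e b = ∑ (rf N c) d b • e d`; induction on `w`. -/
theorem Repr.Gm_eq {g : Fin n → (Matrix (Fin r) (Fin r) ℂ)ˣ} {e f : Fin n → Fin r → ℂ}
    {N : Matrix (Fin n) (Fin n) ℂ} (h : Repr g e f N) (w : List (Fin n)) (a b : Fin n) :
    Gm N w a b = f a ⬝ᵥ ((w.map g).prod.val *ᵥ e b) := by
  induction w generalizing a with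
  | nil => simp [Gm, h.2]
  | cons c w ih =>
    rw [Gm_cons, ih, ih, List.map_cons, List.prod_cons, Units.val_mul, ← mulVec_mulVec,
      groupA_mulVec h, dotProduct_sub, dotProduct_smul, h.2, smul_eq_mul, mul_comm]

/-- If `n = 0` the group is trivial. Otherwise the `e b` span the space and the `f a` have no common
kernel (both subspaces are invariant), so `w ↦ (w.map g).prod` factors injectively through
`Gm N w`; hence the submonoid generated by the `g a` is finite, each `g a` has finite order and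
the subgroup is the submonoid. -/
theorem Repr.finite_of_Gm {g : Fin n → (Matrix (Fin r) (Fin r) ℂ)ˣ} {e f : Fin n → Fin r → ℂ}
    {N : Matrix (Fin n) (Fin n) ℂ} (h : Repr g e f N) (hd : ∀ a, N a a ≠ 0) (hi : IrrT g)
    (hf : (Set.range (Gm N)).Finite) : Finite (Subgroup.closure (Set.range g)) := by
  classical
  rcases isEmpty_or_nonempty (Fin n) with hn | ⟨⟨b₀⟩⟩
  · rw [Set.range_eq_empty, Subgroup.closure_empty]
    infer_instance
  have h1 := groupA_span h hd hi (S := Set.univ) (b := b₀) trivial fun _ _ _ _ => trivial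
  let U : Submodule ℂ (Fin r → ℂ) :=
    { carrier := {v | ∀ a, f a ⬝ᵥ v = 0}
      add_mem' := fun hx hy a => by rw [dotProduct_add, hx a, hy a, add_zero]
      zero_mem' := fun a => dotProduct_zero _
      smul_mem' := fun c x hx a => by rw [dotProduct_smul, hx a, smul_zero] }
  have h2 : U = ⊥ := by
    refine (hi U fun c v hv => ?_).resolve_right fun h0 => hd b₀ ?_
    · rw [groupA_mulVec h, hv c, zero_smul, sub_zero]
      exact hv
    · have h3 : e b₀ ∈ U := h0 ▸ Submodule.mem_top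
      rw [h.2]
      exact h3 b₀
  have h3 : ∀ w w', Gm N w = Gm N w' → (w.map g).prod = (w'.map g).prod := by
    intro w w' hw
    have h4 : ∀ v ∈ Submodule.span ℂ (e '' Set.univ),
        (w.map g).prod.val *ᵥ v = (w'.map g).prod.val *ᵥ v := by
      intro v hv
      induction hv using Submodule.span_induction with
      | mem v hv =>
        obtain ⟨b, -, rfl⟩ := hv
        have h5 : (w.map g).prod.val *ᵥ e b - (w'.map g).prod.val *ᵥ e b ∈ U := fun a => by
          rw [dotProduct_sub, ← h.Gm_eq, ← h.Gm_eq, hw, sub_self]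
        rwa [h2, Submodule.mem_bot, sub_eq_zero] at h5
      | zero => simp
      | add x y _ _ hx hy => rw [mulVec_add, mulVec_add, hx, hy]
      | smul c x _ hx => rw [mulVec_smul, mulVec_smul, hx]
    refine Units.ext (Matrix.toLin'.injective (LinearMap.ext fun v => ?_))
    exact h4 v (h1 ▸ Submodule.mem_top)
  have h4 : (Set.range fun w : List (Fin n) => (w.map g).prod).Finite := by
    refine (hf.image fun M => if hM : ∃ w, Gm N w = M then (hM.choose.map g).prod else 1).subset ?_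
    rintro _ ⟨w, rfl⟩
    have hM : ∃ w', Gm N w' = Gm N w := ⟨w, rfl⟩
    exact ⟨_, ⟨w, rfl⟩, by simp only [dif_pos hM]; exact h3 _ _ hM.choose_spec⟩
  let T : Submonoid (Matrix (Fin r) (Fin r) ℂ)ˣ :=
    { carrier := Set.range fun w : List (Fin n) => (w.map g).prod
      mul_mem' := by
        rintro _ _ ⟨w, rfl⟩ ⟨w', rfl⟩
        exact ⟨w ++ w', by simp⟩
      one_mem' := ⟨[], rfl⟩ }
  refine (h4.subset fun x hx => ?_).to_subtype
  change x ∈ T
  induction hx using Subgroup.closure_induction with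
  | mem x hx =>
    obtain ⟨a, rfl⟩ := hx
    exact ⟨[a], by simp⟩
  | one => exact one_mem _
  | mul x y _ _ hx hy => exact mul_mem hx hy
  | inv x _ hx =>
    have h5 : IsOfFinOrder x := finite_powers.1 (h4.subset (Submonoid.powers_le.2 hx : _ ≤ T))
    exact (Submonoid.powers_le.2 hx)
      (h5.mem_powers_iff_mem_zpowers.2 (inv_mem (Subgroup.mem_zpowers x)))

theorem groupA_lift {F L M : Type*} [Field F] [Field L] [Field M] [IsAlgClosed M] [Algebra F L]
    [Algebra.IsAlgebraic F L] (φ : F →+* M) : ∃ σ : L →+* M, ∀ x, σ (algebraMap F L x) = φ x := by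
  let _ : Algebra F M := φ.toAlgebra
  exact ⟨(IsAlgClosed.lift (R := F) (S := L) (M := M)).toRingHom,
    (IsAlgClosed.lift (R := F) (S := L) (M := M)).commutes⟩

theorem groupA_ext {E L M : Type*} [Field E] [Field L] [Field M] [IsAlgClosed M] [Algebra E L]
    [Algebra.IsAlgebraic E L] (F : IntermediateField E L) (φ : F →+* M) :
    ∃ σ : L →+* M, ∀ x : F, σ (x : L) = φ x :=
  groupA_lift φ

/-- Let `F` be the number field generated over `ℚ` by the entries of `N` inside `LL`
(`IntermediateField.adjoin`, finite dimensional since the entries are algebraic). The elements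
`x w = Gm N w a b * wk N b l a` lie in `F`, are integral (`Gm_mul_wk_mem` for the integral closure)
and every embedding of `F` extends to `LL` (`IsAlgClosed.lift`), so
`NumberField.Embeddings.finite_of_norm_le` applies; divide by `wk N b l a ≠ 0`. -/
theorem finite_Gm_of_bound {N : Matrix (Fin n) (Fin n) LL} (hc : ∀ a b, ∃ l, wk N a l b ≠ 0)
    (hint : ∀ a l, IsIntegral ℤ (wk N a l a))
    (hb : ∀ (σ : LL →+* ℂ) w a b l, ‖σ (Gm N w a b * wk N b l a)‖ ≤ 2 ^ (l.length + 2)) :
    (Set.range (Gm N)).Finite := by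
  have halg : Algebra.IsAlgebraic ℚ LL := algebraicClosure.isAlgebraic ℚ ℂ
  let F : IntermediateField ℚ LL :=
    IntermediateField.adjoin ℚ (Set.range fun p : Fin n × Fin n => N p.1 p.2)
  have hfd : FiniteDimensional ℚ F := IntermediateField.finiteDimensional_adjoin fun x _ =>
    (Algebra.IsAlgebraic.isAlgebraic x).isIntegral
  have hnf : NumberField F := ⟨⟩
  have hN : ∀ a b, N a b ∈ F := fun a b => IntermediateField.subset_adjoin _ _ ⟨(a, b), rfl⟩
  have hwk : ∀ l a b, wk N a l b ∈ F := by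
    intro l
    induction l with
    | nil => exact hN
    | cons c l ih => exact fun a b => mul_mem (hN a c) (ih c b)
  have key : ∀ a b, (Set.range fun w => Gm N w a b).Finite := by
    intro a b
    obtain ⟨l, hl⟩ := hc b a
    refine ((NumberField.Embeddings.finite_of_norm_le F ℂ (2 ^ (l.length + 2))).image
      fun x : F => (x : LL) / wk N b l a).subset ?_
    rintro _ ⟨w, rfl⟩
    have h1 : Gm N w a b * wk N b l a ∈ F :=
      Gm_mul_wk_mem N F.toSubalgebra.toSubring (fun a l => hwk l a a) w a b l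
    have h2 : IsIntegral ℤ (Gm N w a b * wk N b l a) :=
      Gm_mul_wk_mem N (integralClosure ℤ LL).toSubring hint w a b l
    refine ⟨⟨_, h1⟩, ⟨?_, fun φ => ?_⟩, mul_div_cancel_right₀ _ hl⟩
    · exact (isIntegral_algHom_iff (F.val.restrictScalars ℤ) Subtype.val_injective).1 h2
    · obtain ⟨σ, hσ⟩ := groupA_ext F φ
      rw [← hσ]
      exact hb σ w a b l
  refine (Set.Finite.pi' fun a => Set.Finite.pi' fun b => key a b).subset ?_
  rintro _ ⟨w, rfl⟩ a b
  exact ⟨w, rfl⟩

end Pool.Agent.GR
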