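import Pool.Agent.Lib.MP_aa40d3_nt.GR.PFun
import Pool.Agent.Lib.MP_aa40d3_nt.GR.GroupA

/-! Irreducibility of the monodromy. -/

open Polynomial Matrix Set Filter Topology
open scoped Matrix.Norms.Operator

namespace Pool.Agent.GR

variable {n r : ℕ} [NeZero r]

omit [NeZero r] in
theorem mono_proj (V : Submodule ℂ (Fin r → ℂ)) :
    ∃ Q : Matrix (Fin r) (Fin r) ℂ, (∀ v, Q *ᵥ v ∈ V) ∧ ∀ v ∈ V, Q *ᵥ v = v := by
  obtain ⟨V', h⟩ := V.exists_isCompl
  refine ⟨LinearMap.toMatrix' (V.projection V' h), fun v => ?_, fun v hv => ?_⟩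
  · rw [LinearMap.toMatrix'_mulVec]
    exact Submodule.projection_apply_mem h v
  · rw [LinearMap.toMatrix'_mulVec]
    exact Submodule.projection_apply_of_mem_left h hv

omit [NeZero r] in
theorem mono_det (u v : Fin r → ℂ) : (1 - vecMulVec u v).det = 1 - v ⬝ᵥ u := by
  have h : (1 - vecMulVec u v : Matrix (Fin r) (Fin r) ℂ) =
      1 + replicateCol Unit (-u) * replicateRow Unit v := by
    rw [← vecMulVec_eq, sub_eq_add_neg, neg_vecMulVec]
  rw [h, det_one_add_replicateCol_mul_replicateRow, dotProduct_neg, sub_eq_add_neg]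

omit [NeZero r] in
theorem mono_deth {Q g : Matrix (Fin r) (Fin r) ℂ} {ζ : ℂ} {D : ℕ} (hQ : Q * Q = Q)
    (hg : Q * g * Q = g * Q) (hr : IsRefl g ζ) (hζ : ζ ^ D = 1) :
    (Q * g * Q + (1 - Q)).det ^ D = 1 := by
  obtain ⟨e, f, rfl, hfe⟩ := hr
  have h1 : Q * (1 - vecMulVec e f) * Q = Q - vecMulVec (Q *ᵥ e) (f ᵥ* Q) := by
    rw [mul_sub, mul_one, sub_mul, hQ, mul_vecMulVec, vecMulVec_mul]
  have h2 : (1 - vecMulVec e f) * Q = Q - vecMulVec e (f ᵥ* Q) := by
    rw [sub_mul, one_mul, vecMulVec_mul]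
  have h3 : vecMulVec (Q *ᵥ e - e) (f ᵥ* Q) = 0 := by
    rw [h1, h2, sub_right_inj] at hg
    rw [sub_vecMulVec, hg, sub_self]
  have h4 : Q * (1 - vecMulVec e f) * Q + (1 - Q) = 1 - vecMulVec (Q *ᵥ e) (f ᵥ* Q) := by
    rw [h1]; abel
  rw [h4, mono_det]
  rcases vecMulVec_eq_zero.1 h3 with h | h
  · rw [sub_eq_zero] at h
    rw [h, ← dotProduct_mulVec, h, hfe, sub_sub_cancel, hζ]
  · rw [h, zero_dotProduct, sub_zero, one_pow]

theorem mono_J {R : Type*} [Ring R] {Q g M : R} (hQ : Q * Q = Q) (hg : Q * g * Q = g * Q) :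
    M * g * Q + (1 - Q) = (M * Q + (1 - Q)) * (Q * g * Q + (1 - Q)) := by
  have a1 : Q * (Q * g * Q + (1 - Q)) = g * Q := by
    rw [mul_add, mul_sub, mul_one, hQ, sub_self, add_zero, ← mul_assoc, ← mul_assoc, hQ, hg]
  rw [add_mul, mul_assoc M Q, a1, sub_mul, one_mul, a1, hg, mul_assoc M g]
  abel

theorem mono_Qh {R : Type*} [Ring R] {Q g M : R} (hQ : Q * Q = Q) (hg : Q * g * Q = g * Q) :
    M * g * Q = M * Q * (Q * g * Q + (1 - Q)) := by
  have a1 : Q * (Q * g * Q + (1 - Q)) = g * Q := by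
    rw [mul_add, mul_sub, mul_one, hQ, sub_self, add_zero, ← mul_assoc, ← mul_assoc, hQ, hg]
  rw [mul_assoc M Q, a1, mul_assoc]

/-- The invariant scalar. -/
noncomputable def monoD (Q : Matrix (Fin r) (Fin r) ℂ) (D : ℕ) (M : Matrix (Fin r) (Fin r) ℂ) : ℂ :=
  (M * Q + (1 - Q)).det ^ D

/-- The invariant matrix. -/
noncomputable def monoP (Q : Matrix (Fin r) (Fin r) ℂ) (D : ℕ) (M : Matrix (Fin r) (Fin r) ℂ) :
    Matrix (Fin r) (Fin r) ℂ :=
  (M * Q + (1 - Q)).det ^ (D - 1) • (M * Q * (M * Q + (1 - Q)).adjugate)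

omit [NeZero r] in
theorem mono_D_inv {Q g : Matrix (Fin r) (Fin r) ℂ} {D : ℕ} (hQ : Q * Q = Q)
    (hg : Q * g * Q = g * Q) (hd : (Q * g * Q + (1 - Q)).det ^ D = 1)
    (M : Matrix (Fin r) (Fin r) ℂ) : monoD Q D (M * g) = monoD Q D M := by
  unfold monoD
  rw [mono_J hQ hg, det_mul, mul_pow, hd, mul_one]

omit [NeZero r] in
theorem mono_P_inv {Q g : Matrix (Fin r) (Fin r) ℂ} {D : ℕ} (hD : 0 < D) (hQ : Q * Q = Q)
    (hg : Q * g * Q = g * Q) (hd : (Q * g * Q + (1 - Q)).det ^ D = 1)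
    (M : Matrix (Fin r) (Fin r) ℂ) : monoP Q D (M * g) = monoP Q D M := by
  unfold monoP
  rw [mono_J hQ hg, det_mul, adjugate_mul_distrib, mono_Qh (M := M) hQ hg]
  generalize Q * g * Q + (1 - Q) = h at hd
  obtain ⟨k, rfl⟩ : ∃ k, D = k + 1 := ⟨D - 1, by omega⟩
  rw [Nat.add_sub_cancel, mul_assoc (M * Q) h, ← mul_assoc h, mul_adjugate, smul_mul_assoc,
    one_mul, mul_smul_comm, smul_smul, mul_pow, mul_assoc, ← pow_succ, hd, mul_one]

omit [NeZero r] in
theorem mono_PD {Q : Matrix (Fin r) (Fin r) ℂ} {D : ℕ} (hD : 0 < D) (hQ : Q * Q = Q)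
    (M : Matrix (Fin r) (Fin r) ℂ) : monoP Q D M * (M * Q) = monoD Q D M • (M * Q) := by
  unfold monoP monoD
  have a1 : M * Q = (M * Q + (1 - Q)) * Q := by
    rw [add_mul, mul_assoc, hQ, sub_mul, one_mul, hQ, sub_self, add_zero]
  have a2 : (M * Q + (1 - Q)).adjugate * (M * Q) = (M * Q + (1 - Q)).det • Q := by
    calc _ = (M * Q + (1 - Q)).adjugate * ((M * Q + (1 - Q)) * Q) := by rw [← a1]
      _ = _ := by rw [← mul_assoc, adjugate_mul, smul_mul_assoc, one_mul]
  obtain ⟨k, rfl⟩ : ∃ k, D = k + 1 := ⟨D - 1, by omega⟩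
  rw [Nat.add_sub_cancel, smul_mul_assoc, mul_assoc (M * Q), a2, mul_smul_comm, smul_smul,
    ← pow_succ, mul_assoc, hQ]

theorem mono_J_mem (Q : Mat r) (a b : Fin r) :
    (fun M : Mat r => (M * Q + (1 - Q)) a b) ∈ PF r := by
  have h := (PF r).add_mem (PF.entry_mul Q a b) ((PF r).algebraMap_mem ((1 - Q) a b))
  exact h

theorem mono_D_mem (Q : Mat r) (D : ℕ) : monoD Q D ∈ PF r :=
  (PF r).pow_mem (PF.det (J := fun M => M * Q + (1 - Q)) (mono_J_mem Q)) D

theorem mono_P_mem (Q : Mat r) (D : ℕ) (a b : Fin r) :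
    (fun M : Mat r => monoP Q D M a b) ∈ PF r := by
  have h1 := (PF r).pow_mem (PF.det (J := fun M => M * Q + (1 - Q)) (mono_J_mem Q)) (D - 1)
  have h2 := (PF r).sum_mem (t := Finset.univ) fun c _ => (PF r).mul_mem (PF.entry_mul Q a c)
    (PF.adjugate (J := fun M => M * Q + (1 - Q)) (mono_J_mem Q) c b)
  have h3 := (PF r).mul_mem h1 h2
  have e : (fun M : Mat r => monoP Q D M a b) = (fun M : Mat r => (M * Q + (1 - Q)).det) ^ (D - 1) *
      ∑ c, (fun M : Mat r => (M * Q) a c) * fun M : Mat r => (M * Q + (1 - Q)).adjugate c b := by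
    funext M
    simp only [monoP, Pi.mul_apply, Pi.pow_apply, Finset.sum_apply, Matrix.smul_apply, smul_eq_mul]
    rw [Matrix.mul_apply]
  rw [e]
  exact h3

theorem mono_unif {ι : Type*} [Fintype ι] {U : Set ℂ} (δ : ℂ[X]) (F : ι → ℂ → ℂ)
    (h : ∀ i, ∃ (m : ℕ) (q : ℂ[X]), ∀ x ∈ U, δ.eval x ^ m * F i x = q.eval x) :
    ∃ (m : ℕ) (q : ι → ℂ[X]), ∀ i, ∀ x ∈ U, δ.eval x ^ m * F i x = (q i).eval x := by
  choose m q hq using h
  refine ⟨∑ i, m i, fun i => δ ^ ((∑ i, m i) - m i) * q i, fun i x hx => ?_⟩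
  have hle : m i ≤ ∑ i, m i :=
    Finset.single_le_sum (fun j _ => Nat.zero_le (m j)) (Finset.mem_univ i)
  rw [eval_mul, eval_pow, ← hq i x hx, ← mul_assoc, ← pow_add, Nat.sub_add_cancel hle]

omit [NeZero r] in
theorem mono_pm (t : Fin n → ℂ) (A : Fin n → Mat r) {x : ℂ} (hx : ∀ i, x ≠ t i) (a b : Fin r) :
    (pm t A a b).eval x = (dl t).eval x * sys t A x a b := by
  simp only [pm, sys, Matrix.sum_apply, Matrix.smul_apply, Matrix.map_apply, smul_eq_mul,
    eval_finsetSum, eval_mul, eval_C, Finset.mul_sum]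
  refine Finset.sum_congr rfl fun i _ => ?_
  have h : dl t = (X - C (t i)) * ∏ j ∈ Finset.univ.erase i, (X - C (t j)) :=
    (Finset.mul_prod_erase _ (fun j => X - C (t j)) (Finset.mem_univ i)).symm
  have hne : x - t i ≠ 0 := sub_ne_zero.2 (hx i)
  rw [h, eval_mul, eval_sub, eval_X, eval_C]
  field_simp

omit [NeZero r] in
theorem mono_dl_ne (t : Fin n → ℂ) {x : ℂ} (hx : ∀ i, x ≠ t i) : (dl t).eval x ≠ 0 := by
  simp only [dl, eval_prod, eval_sub, eval_X, eval_C]
  exact Finset.prod_ne_zero_iff.2 fun i _ => sub_ne_zero.2 (hx i)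

/-- Polynomial rows that kill `Z x` on `U`. -/
def monoW (U : Set ℂ) (Z : ℂ → Matrix (Fin r) (Fin r) ℂ) : Submodule ℂ[X] (Fin r → ℂ[X]) where
  carrier := {l | ∀ x ∈ U, ∀ b, ∑ a, (l a).eval x * Z x a b = 0}
  add_mem' := by
    intro l l' h h' x hx b
    simp only [Pi.add_apply, eval_add, add_mul, Finset.sum_add_distrib]
    rw [h x hx b, h' x hx b, add_zero]
  zero_mem' := by
    intro x _ b
    simp
  smul_mem' := by
    intro c l h x hx b
    simp only [Pi.smul_apply, smul_eq_mul, eval_mul, mul_assoc, ← Finset.mul_sum]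
    rw [h x hx b, mul_zero]

omit [NeZero r] in
theorem mono_stable {t : Fin n → ℂ} {A : Fin n → Mat r} {U : Set ℂ} (hU : IsOpen U)
    {Z : ℂ → Mat r} (hZ : ∀ x ∈ U, (∀ i, x ≠ t i) ∧ ∀ a b,
      HasDerivAt (fun y => Z y a b) (∑ c, sys t A x a c * Z x c b) x) :
    ∀ l ∈ monoW U Z, (dl t • fun a => derivative (l a)) + l ᵥ* pm t A ∈ monoW U Z := by
  intro l hl x hx b
  obtain ⟨hne, hd⟩ := hZ x hx
  have h1 : HasDerivAt (fun y => ∑ a, (l a).eval y * Z y a b)
      (∑ a, ((derivative (l a)).eval x * Z x a b +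
        (l a).eval x * ∑ c, sys t A x a c * Z x c b)) x :=
    HasDerivAt.fun_sum fun a _ => ((l a).hasDerivAt x).fun_mul (hd a b)
  have h2 : HasDerivAt (fun y => ∑ a, (l a).eval y * Z y a b) 0 x := by
    refine (hasDerivAt_const x (0 : ℂ)).congr_of_eventuallyEq ?_
    filter_upwards [hU.mem_nhds hx] with y hy using hl y hy b
  have h3 := h1.unique h2
  have h4 : ∑ a, (((dl t • fun a => derivative (l a)) + l ᵥ* pm t A) a).eval x * Z x a b =
      (dl t).eval x * ∑ a, ((derivative (l a)).eval x * Z x a b +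
        (l a).eval x * ∑ c, sys t A x a c * Z x c b) := by
    simp only [Pi.add_apply, Pi.smul_apply, smul_eq_mul, eval_add, eval_mul, vecMul, dotProduct,
      eval_finsetSum, mono_pm t A hne, add_mul, mul_add, Finset.sum_add_distrib, Finset.mul_sum,
      Finset.sum_mul]
    congr 1
    · exact Finset.sum_congr rfl fun a _ => by ring
    · rw [Finset.sum_comm]
      exact Finset.sum_congr rfl fun a _ => Finset.sum_congr rfl fun c _ => by ring
  rw [h4, h3, mul_zero]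

/-- Suppose `V` is invariant, `V ≠ ⊥, ⊤`; let `Q` be the matrix of a projection onto `V`
(`Q * Q = Q`, `Q ≠ 0, 1`, `Q * g a * Q = g a * Q`). Let `J M = M * Q + (1 - Q)` and
`h a = Q * g a * Q + (1 - Q)`; then `J (M * g a) = J M * h a`, `h a` commutes with `Q`, and
`det (h a) = 1 - f ⬝ᵥ Q *ᵥ e` is `1` (if `f` vanishes on `V`) or `ζ a` (if `e ∈ V`). So
`d M = det (J M) ^ D` and `P M = det (J M) ^ (D - 1) • (M * Q * adjugate (J M))` are invariant
(`M * Q = J M * Q`, `adjugate (J * h) = adjugate h * adjugate J`, `h * adjugate h = det h • 1`).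
By `ExtProp`, `δ ^ m * d (Y x) = q x` and `δ ^ m • P (Y x) = q' x` with one `m`. Let `W` be the
module of polynomial rows `l` with `l(x) ᵥ* (Y x * Q) = 0` for all `x ∈ U`. Differentiating shows
that it is stable. The rows of `q • 1 - q'` lie in `W` (`P M * (M * Q) = d M • (M * Q)`), and they
are not all zero (value `δ ^ m • (1 - Q)` at `x₀`). If `c • Pi.single a 1 ∈ W` with `c ≠ 0` for all
`a`, then `Y x * Q = 0` at a point of the infinite set `U`, which is false. -/
theorem irrT_of_irred {t : Fin n → ℂ} {A : Fin n → Mat r} (hi : Irred t A)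
    {g : Fin n → (Mat r)ˣ} {ζ : Fin n → ℂ} (hr : ∀ a, IsRefl (g a).val (ζ a)) {D : ℕ} (hD : 0 < D)
    (hζ : ∀ a, ζ a ^ D = 1) {U : Set ℂ} (hU : IsOpen U) {x₀ : ℂ} (hx₀ : x₀ ∈ U) {Y : ℂ → Mat r}
    (hY0 : Y x₀ = 1) (hY : ∀ x ∈ U, (∀ i, x ≠ t i) ∧ (Y x).det ≠ 0 ∧
      HasDerivAt Y (sys t A x * Y x) x) (he : ExtProp t g U Y) : IrrT g := by
  intro V hV
  by_contra hcon
  rw [not_or] at hcon
  obtain ⟨Q, hQ1, hQ2⟩ := mono_proj V
  have hQ : Q * Q = Q := by
    refine Matrix.ext_iff_mulVec.2 fun v => ?_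
    rw [← mulVec_mulVec, hQ2 _ (hQ1 v)]
  have hQ0 : Q ≠ 0 := fun h => hcon.1 ((Submodule.eq_bot_iff V).2 fun v hv => by
    rw [← hQ2 v hv, h, zero_mulVec])
  have hQo : Q ≠ 1 := fun h => hcon.2 (Submodule.eq_top_iff'.2 fun v => by
    have := hQ1 v
    rwa [h, one_mulVec] at this)
  have hg : ∀ a, Q * (g a).val * Q = (g a).val * Q := fun a => by
    refine Matrix.ext_iff_mulVec.2 fun v => ?_
    rw [← mulVec_mulVec, ← mulVec_mulVec, ← mulVec_mulVec, hQ2 _ (hV a _ (hQ1 v))]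
  have hd : ∀ a, (Q * (g a).val * Q + (1 - Q)).det ^ D = 1 := fun a =>
    mono_deth hQ (hg a) (hr a) (hζ a)
  obtain ⟨m, q, hq⟩ := mono_unif (ι := Option (Fin r × Fin r)) (U := U) (dl t)
    (fun i x => match i with
      | none => monoD Q D (Y x)
      | some p => monoP Q D (Y x) p.1 p.2) (by
      intro i
      cases i with
      | none => exact he _ (mono_D_mem Q D) fun M a => mono_D_inv hQ (hg a) (hd a) M.val
      | some p =>
        refine he _ (mono_P_mem Q D p.1 p.2) fun M a => ?_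
        exact congrFun (congrFun (mono_P_inv hD hQ (hg a) (hd a) M.val) p.1) p.2)
  have hq0 : ∀ x ∈ U, (dl t).eval x ^ m * monoD Q D (Y x) = (q none).eval x := hq none
  have hq1 : ∀ a b, ∀ x ∈ U, (dl t).eval x ^ m * monoP Q D (Y x) a b = (q (some (a, b))).eval x :=
    fun a b => hq (some (a, b))
  have hst := mono_stable (t := t) (A := A) hU (Z := fun x => Y x * Q) (by
    intro x hx
    refine ⟨(hY x hx).1, fun a b => ?_⟩
    have h1 := hasDerivAt_mat.1 (hY x hx).2.2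
    have h2 : HasDerivAt (fun y => ∑ c, Y y a c * Q c b)
        (∑ c, (sys t A x * Y x) a c * Q c b) x :=
      HasDerivAt.fun_sum fun c _ => (h1 a c).mul_const _
    have e : ∑ c, sys t A x a c * (Y x * Q) c b = ∑ c, (sys t A x * Y x) a c * Q c b := by
      rw [← Matrix.mul_apply, ← Matrix.mul_apply, Matrix.mul_assoc]
    rw [e]
    exact h2)
  have hrow : ∀ a, (fun b => (if a = b then q none else 0) - q (some (a, b))) ∈
      monoW U fun x => Y x * Q := by
    intro a x hx b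
    have h1 := congrFun (congrFun (mono_PD hD hQ (Y x)) a) b
    rw [Matrix.mul_apply, Matrix.smul_apply, smul_eq_mul] at h1
    have h2 : ∑ c, ((if a = c then q none else 0) - q (some (a, c))).eval x * (Y x * Q) c b =
        (dl t).eval x ^ m * (monoD Q D (Y x) * (Y x * Q) a b -
          ∑ c, monoP Q D (Y x) a c * (Y x * Q) c b) := by
      simp only [eval_sub, sub_mul, Finset.sum_sub_distrib, mul_sub, Finset.mul_sum, ← mul_assoc,
        hq0 x hx, hq1 _ _ x hx]
      congr 1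
      rw [Finset.sum_eq_single a (fun c _ hc => by simp [hc.symm]) (by simp), if_pos rfl]
    show ∑ c, ((if a = c then q none else 0) - q (some (a, c))).eval x * (Y x * Q) c b = 0
    rw [h2, h1, sub_self, mul_zero]
  rcases hi _ hst with h | h
  · apply hQo
    ext a b
    have h1 := hrow a
    rw [h, Submodule.mem_bot] at h1
    have h2 := congrArg (eval x₀) (congrFun h1 b)
    have hδ := pow_ne_zero m (mono_dl_ne t (hY x₀ hx₀).1)
    have e1 : monoD Q D (Y x₀) = 1 := by simp [monoD, hY0]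
    have e2 : monoP Q D (Y x₀) = Q := by simp [monoP, hY0]
    have h3 := hq0 x₀ hx₀
    have h4 := hq1 a b x₀ hx₀
    rw [e1] at h3
    rw [e2] at h4
    apply mul_left_cancel₀ hδ
    rw [h4, Matrix.one_apply]
    by_cases hab : a = b
    · simp only [hab, if_true, eval_sub, Pi.zero_apply, eval_zero] at h2 ⊢
      rw [h3]
      exact (sub_eq_zero.1 h2).symm
    · simp only [hab, if_false, zero_sub, eval_neg, Pi.zero_apply, eval_zero, neg_eq_zero] at h2 ⊢
      rw [h2, mul_zero]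
  · choose c hc0 hc using fun a => h (Pi.single a 1)
    have hp : ∏ a, c a ≠ 0 := Finset.prod_ne_zero_iff.2 fun a _ => hc0 a
    have hinf : U.Infinite := infinite_of_mem_nhds x₀ (hU.mem_nhds hx₀)
    obtain ⟨x, hx, hxr⟩ := hinf.exists_notMem_finset (∏ a, c a).roots.toFinset
    rw [Multiset.mem_toFinset, mem_roots hp, IsRoot.def, eval_prod, Finset.prod_eq_zero_iff] at hxr
    push Not at hxr
    have hz : Y x * Q = 0 := by
      ext a b
      have h1 := hc a x hx b
      rw [Finset.sum_eq_single a (fun d _ hd => by simp [hd]) (by simp)] at h1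
      simp only [Pi.smul_apply, Pi.single_eq_same, smul_eq_mul, mul_one] at h1
      exact (mul_eq_zero.1 h1).resolve_left (hxr a (Finset.mem_univ a))
    apply hQ0
    have hu : IsUnit (Y x) := (Matrix.isUnit_iff_isUnit_det _).2 (hY x hx).2.1.isUnit
    exact hu.mul_right_eq_zero.1 hz

end Pool.Agent.GR
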