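import Pool.Agent.Lib.MP_aa40d3_nt.GR.RectA

/-! Relations between loops in a box. Everything follows from `RectT`: each transport along a
segment is split and recombined inside rectangles free of points (a segment is a degenerate
rectangle; `RectT` gives `T a a = 1` and `T b a = (T a b)⁻¹` there). -/

open Set

namespace Pool.Agent.GR

variable {n : ℕ} {G : Type*} [Group G] {T : ℝ × ℝ → ℝ × ℝ → G} {pts : Fin n → ℝ × ℝ} {H : ℝ}

theorem rect_one (hT : RectT T pts) {a : ℝ × ℝ} (h : ∀ j, pts j ≠ a) : T a a = 1 := by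
  have ha : a ∈ Icc a.1 a.1 ×ˢ Icc a.2 a.2 := ⟨⟨le_rfl, le_rfl⟩, le_rfl, le_rfl⟩
  exact mul_eq_left.1 (hT _ _ _ _ (fun j hj => h j (Prod.ext (le_antisymm hj.1.2 hj.1.1)
    (le_antisymm hj.2.2 hj.2.1))) a ha a ha a ha)

theorem rect_h (hT : RectT T pts) {y : ℝ} (h : ∀ j, (pts j).2 ≠ y) (a b c : ℝ) :
    T (b, y) (c, y) * T (a, y) (b, y) = T (a, y) (c, y) :=
  hT (min a (min b c)) (max a (max b c)) y y (fun j hj => h j (le_antisymm hj.2.2 hj.2.1))
    _ ⟨⟨min_le_left _ _, le_max_left _ _⟩, le_rfl, le_rfl⟩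
    _ ⟨⟨(min_le_right _ _).trans (min_le_left _ _), (le_max_left _ _).trans (le_max_right _ _)⟩,
      le_rfl, le_rfl⟩
    _ ⟨⟨(min_le_right _ _).trans (min_le_right _ _), (le_max_right _ _).trans (le_max_right _ _)⟩,
      le_rfl, le_rfl⟩

theorem rect_v (hT : RectT T pts) {x : ℝ} (h : ∀ j, (pts j).1 ≠ x) (a b c : ℝ) :
    T (x, b) (x, c) * T (x, a) (x, b) = T (x, a) (x, c) :=
  rect_h hT.swap h a b c

theorem rect_top (hb : InBox pts H) (j : Fin n) : (pts j).2 ≠ H := (abs_lt.1 (hb j).2).2.ne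

theorem rect_bot (hb : InBox pts H) (j : Fin n) : (pts j).2 ≠ -H := (abs_lt.1 (hb j).2).1.ne'

theorem rect_Vp (hT : RectT T pts) (hb : InBox pts H) (hH : 0 ≤ H) {σ σ' : ℝ}
    (h : ∀ j, ((pts j).1 < σ ∧ (pts j).1 < σ') ∨ (σ < (pts j).1 ∧ σ' < (pts j).1)) :
    Vp T H σ = Vp T H σ' := by
  rcases le_total σ σ' with e | e
  · exact Vp_eq hT hb hH e fun j hj =>
      (h j).elim (fun k => k.1.not_ge hj.1) fun k => k.2.not_ge hj.2
  · exact (Vp_eq hT hb hH e fun j hj =>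
      (h j).elim (fun k => k.2.not_ge hj.1) fun k => k.1.not_ge hj.2).symm

theorem rect_sort {x : Fin n → ℝ} (hx : Function.Injective x) (σ : ℝ) :
    ∃ l : List (Fin n), LowerL x l ∧ ∀ a, a ∈ l ↔ x a < σ := by
  classical
  let r : Fin n → Fin n → Prop := fun a b => x a ≤ x b
  have : IsTrans (Fin n) r := ⟨fun _ _ _ => le_trans⟩
  have : Std.Antisymm r := ⟨fun _ _ h h' => hx (le_antisymm h h')⟩
  have : Std.Total r := ⟨fun _ _ => le_total _ _⟩
  have hm : ∀ a, a ∈ (Finset.univ.filter fun a => x a < σ).sort r ↔ x a < σ := fun a => by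
    rw [Finset.mem_sort, Finset.mem_filter_univ]
  refine ⟨_, ⟨?_, fun a ha b hb => (hm b).2 (hb.trans ((hm a).1 ha))⟩, hm⟩
  exact ((Finset.pairwise_sort _ r).and (Finset.sort_nodup _ r)).imp fun h =>
    lt_of_le_of_ne h.1 (hx.ne h.2)

theorem Vp_inv_mul (hT : RectT T pts) (hb : InBox pts H) (hH : 0 ≤ H) {σ σ' : ℝ}
    (hσ : ∀ j, (pts j).1 ≠ σ) : (Vp T H σ)⁻¹ * Vp T H σ' =
      (T (-H, -H) (σ, -H))⁻¹ * RL T σ σ' (-H) H * T (-H, -H) (σ, -H) := by
  have h1 := rect_h hT (rect_top hb) σ' σ (-H)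
  have h2 := rect_h hT (rect_bot hb) (-H) σ σ'
  have h3 := rect_v hT hσ (-H) H (-H)
  rw [rect_one hT (fun j e => hσ j (congrArg Prod.fst e)), mul_eq_one_iff_eq_inv] at h3
  rw [Vp, Vp, RL, ← h1, ← h2, h3]
  group

/-- The loop around one point is conjugate to a small rectangle. -/
theorem vt_eq_RL (hT : RectT T pts) (hb : InBox pts H) {i : Fin n} {lo hi y1 y2 : ℝ}
    (h : ValidAt (fun j => (pts j).1) i lo hi) (h1 : -H ≤ y1) (h2 : y1 < (pts i).2)
    (h3 : (pts i).2 < y2) (h4 : y2 ≤ H) :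
    vt T pts H i = (Ybot T H (lo, y1))⁻¹ * RL T lo hi y1 y2 * Ybot T H (lo, y1) := by
  have hH : 0 ≤ H := (abs_nonneg _).trans (hb i).1.le
  have hlo : ∀ j, (pts j).1 ≠ lo := fun j e => by
    by_cases hj : j = i
    · exact h.1.ne' (hj ▸ e)
    · exact h.2.2 j hj ⟨e.ge, e.le.trans (h.1.trans h.2.1).le⟩
  rw [vt_eq hT hb h, Vp_inv_mul hT hb hH hlo,
    RL_nest hT le_rfl (h.1.trans h.2.1).le le_rfl h1 (h2.trans h3).le h4 fun j hj => ?_,
    rect_one hT (fun j e => hlo j (congrArg Prod.fst e)), Ybot]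
  · group
  · obtain rfl : j = i := by
      by_contra hji
      exact h.2.2 j hji hj.1
    exact ⟨⟨h.1, h.2.1⟩, h2, h3⟩

/-- Telescoping product, by induction on `l` from the right (or generalising the left end). -/
theorem prod_vt (hT : RectT T pts) (hb : InBox pts H) (hH : 0 ≤ H)
    (hx : Function.Injective fun j => (pts j).1) {l : List (Fin n)}
    (hl : LowerL (fun j => (pts j).1) l) {σ : ℝ} (h1 : ∀ a ∈ l, (pts a).1 < σ)
    (h2 : ∀ a, a ∉ l → σ < (pts a).1) : (l.map (vt T pts H)).prod = (Vp T H (-H))⁻¹ * Vp T H σ := by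
  induction l using List.reverseRecOn generalizing σ with
  | nil =>
    rw [rect_Vp hT hb hH (σ := -H) (σ' := σ) fun j =>
      Or.inr ⟨(abs_lt.1 (hb j).1).1, h2 j List.not_mem_nil⟩, inv_mul_cancel]
    rfl
  | append_singleton l a ih =>
    have hp := List.pairwise_append.1 hl.1
    have hlt : ∀ b ∈ l, (pts b).1 < (pts a).1 := fun b hb => hp.2.2 b hb a (List.mem_singleton_self a)
    have ha : a ∈ l ++ [a] := List.mem_append_right _ (List.mem_singleton_self a)
    have hmem : ∀ b, b ∈ l ++ [a] ↔ b ∈ l ∨ b = a := fun b => by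
      rw [List.mem_append, List.mem_singleton]
    obtain ⟨ε, hε, hv⟩ := exists_validAt hx a
    have hv' := hv _ _ le_rfl (sub_lt_self _ hε) (lt_add_of_pos_right _ hε) le_rfl
    have hl' : LowerL (fun j => (pts j).1) l := by
      refine ⟨hp.1, fun b hbl c hc => ((hmem c).1 (hl.2 b (List.mem_append_left _ hbl) c hc)).resolve_right
        fun e => ?_⟩
      exact lt_asymm (hlt b hbl) (e ▸ hc)
    have ih' := ih hl' (σ := (pts a).1 - ε) (fun b hbl => ?_) fun b hbl => ?_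
    · rw [List.map_append, List.prod_append, ih', List.map_singleton, List.prod_singleton,
        vt_eq hT hb hv', mul_assoc, mul_inv_cancel_left]
      refine congrArg _ (rect_Vp hT hb hH fun j => ?_)
      by_cases hj : j ∈ l ++ [a]
      · refine Or.inl ⟨?_, h1 j hj⟩
        rcases (hmem j).1 hj with hj | rfl
        · exact (hlt j hj).trans hv'.2.1
        · exact hv'.2.1
      · refine Or.inr ⟨lt_of_not_ge fun e => ?_, h2 j hj⟩
        exact hv'.2.2 j (fun e => hj (e ▸ ha)) ⟨(hv'.1.trans ((h1 a ha).trans (h2 j hj))).le, e⟩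
    · refine lt_of_not_ge fun e => hv'.2.2 b (fun e => (hlt b hbl).ne (e ▸ rfl))
        ⟨e, ((hlt b hbl).trans hv'.2.1).le⟩
    · by_cases hba : b = a
      · exact hba ▸ hv'.1
      · exact hv'.1.trans ((h1 a ha).trans (h2 b fun e => ((hmem b).1 e).elim hbl hba))

/-- The product over an initial segment is conjugate to a rectangle around these points. -/
theorem prod_vt_conj (hT : RectT T pts) (hb : InBox pts H)
    (hx : Function.Injective fun j => (pts j).1) {l : List (Fin n)}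
    (hl : LowerL (fun j => (pts j).1) l) {x1 x2 y1 y2 : ℝ} (h1 : -H ≤ x1) (h2 : x1 ≤ x2)
    (h3 : -H ≤ y1) (h4 : y1 ≤ y2) (h5 : y2 ≤ H) (hin : ∀ a ∈ l, pts a ∈ Ioo x1 x2 ×ˢ Ioo y1 y2)
    (hout : ∀ a, a ∉ l → x2 < (pts a).1) :
    IsConj (l.map (vt T pts H)).prod (RL T x1 x2 y1 y2) := by
  have hH : 0 ≤ H := by linarith
  have hx1 : ∀ j, x1 < (pts j).1 := fun j => by
    by_cases hj : j ∈ l
    · exact (hin j hj).1.1
    · exact h2.trans_lt (hout j hj)
  rw [prod_vt hT hb hH hx hl (fun a ha => (hin a ha).1.2) hout,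
    rect_Vp hT hb hH (σ := -H) (σ' := x1) fun j => Or.inr ⟨(abs_lt.1 (hb j).1).1, hx1 j⟩,
    Vp_inv_mul hT hb hH fun j => (hx1 j).ne',
    RL_nest hT le_rfl h2 le_rfl h3 h4 h5 fun j hj => hin j ?_, isConj_iff]
  · refine ⟨T (x1, -H) (x1, y1) * T (x1, -H) (x1, -H) * T (-H, -H) (x1, -H), ?_⟩
    group
  · by_contra hjl
    exact (hout j hjl).not_ge hj.1.2

/-- Off the vertical lines through the points the two determinations differ by monodromy:
`Ybot q = Ytop q * ((Vp (-H))⁻¹ * Vp q.1)`; sort the points to the left of `q` and use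
`prod_vt`. -/
theorem Ybot_eq_Ytop (hT : RectT T pts) (hb : InBox pts H) (hH : 0 ≤ H)
    (hx : Function.Injective fun j => (pts j).1) {q : ℝ × ℝ} (hq : ∀ j, (pts j).1 ≠ q.1) :
    ∃ l : List (Fin n), Ybot T H q = Ytop T H q * (l.map (vt T pts H)).prod := by
  obtain ⟨l, hl, hm⟩ := rect_sort hx q.1
  refine ⟨l, ?_⟩
  have hH' : ∀ j, (pts j).1 ≠ -H := fun j => (abs_lt.1 (hb j).1).1.ne'
  have h1 := rect_h hT (rect_top hb) q.1 (-H) q.1
  have h2 : T (q.1, H) q * T (q.1, -H) (q.1, H) = T (q.1, -H) q := rect_v hT hq (-H) H q.2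
  rw [rect_one hT (a := (q.1, H)) (fun j e => hq j (Prod.ext_iff.1 e).1),
    mul_eq_one_iff_eq_inv] at h1
  rw [prod_vt hT hb hH hx hl (fun a ha => (hm a).1 ha)
    (fun a ha => lt_of_le_of_ne (not_lt.1 fun e => ha ((hm a).2 e)) (hq a).symm), Ybot, Ytop, Vp,
    Vp, rect_one hT (a := (-H, H)) (fun j e => hH' j (congrArg Prod.fst e)),
    rect_one hT (a := (-H, -H)) (fun j e => hH' j (congrArg Prod.fst e)), h1, ← h2]
  group

end Pool.Agent.GR
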