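import Pool.Agent.Lib.MP_aa40d3_nt.GR.Holo
import Pool.Agent.Lib.MP_aa40d3_nt.GR.Aff
import Pool.Agent.Lib.MP_aa40d3_nt.GR.Rect

/-! Matrices as a Banach algebra, transport between points of `ℝ × ℝ`, local reflections. -/

open Polynomial Matrix Set
open scoped Matrix.Norms.Operator

namespace Pool.Agent.GR

variable {n r : ℕ}

/-- Complex square matrices. -/
abbrev Mat (r : ℕ) : Type := Matrix (Fin r) (Fin r) ℂ

theorem norm_entry_le (M : Mat r) (a b : Fin r) : ‖M a b‖ ≤ ‖M‖ := by
  have h1 : ‖M a b‖₊ ≤ ∑ j, ‖M a j‖₊ :=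
    Finset.single_le_sum (f := fun j => ‖M a j‖₊) (fun j _ => zero_le) (Finset.mem_univ b)
  have h2 : ∑ j, ‖M a j‖₊ ≤ Finset.univ.sup fun i => ∑ j, ‖M i j‖₊ :=
    Finset.le_sup (f := fun i => ∑ j, ‖M i j‖₊) (Finset.mem_univ a)
  have h3 : ‖M a b‖₊ ≤ ‖M‖₊ := by
    rw [Matrix.linfty_opNNNorm_def]
    exact h1.trans h2
  exact_mod_cast h3

/-- An entry as a continuous linear map. -/
noncomputable def matan_ent (a b : Fin r) : Mat r →L[ℂ] ℂ :=
  LinearMap.mkContinuous (Matrix.entryLinearMap ℂ ℂ a b) 1 fun M => by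
    rw [one_mul]
    exact norm_entry_le M a b

theorem matan_ent_apply (a b : Fin r) (M : Mat r) : matan_ent a b M = M a b := rfl

theorem matan_decomp (M : Mat r) :
    M = ∑ a, ∑ b, M a b • (Matrix.single a b (1 : ℂ) : Mat r) := by
  conv_lhs => rw [Matrix.matrix_eq_sum_single M]
  refine Finset.sum_congr rfl fun a _ => Finset.sum_congr rfl fun b _ => ?_
  rw [Matrix.smul_single, smul_eq_mul, mul_one]

theorem differentiableAt_mat {E : Type*} [NormedAddCommGroup E] [NormedSpace ℂ E] {x : E}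
    {f : E → Mat r} : DifferentiableAt ℂ f x ↔ ∀ a b, DifferentiableAt ℂ (fun y => f y a b) x := by
  constructor
  · intro h a b
    exact (matan_ent a b).differentiableAt.comp x h
  · intro h
    have e : f = fun y => ∑ a, ∑ b, f y a b • (Matrix.single a b (1 : ℂ) : Mat r) :=
      funext fun y => matan_decomp (f y)
    rw [e]
    exact DifferentiableAt.fun_sum fun a _ => DifferentiableAt.fun_sum fun b _ =>
      (h a b).smul_const _

theorem hasDerivAt_mat {f : ℂ → Mat r} {f' : Mat r} {x : ℂ} :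
    HasDerivAt f f' x ↔ ∀ a b, HasDerivAt (fun y => f y a b) (f' a b) x := by
  constructor
  · intro h a b
    exact (matan_ent a b).hasFDerivAt.comp_hasDerivAt x h
  · intro h
    have e : f = fun y => ∑ a, ∑ b, f y a b • (Matrix.single a b (1 : ℂ) : Mat r) :=
      funext fun y => matan_decomp (f y)
    rw [e, matan_decomp f']
    exact HasDerivAt.fun_sum fun a _ => HasDerivAt.fun_sum fun b _ => (h a b).smul_const _

theorem hasDerivAt_polyMat (P : Matrix (Fin r) (Fin r) ℂ[X]) (x : ℂ) :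
    HasDerivAt (fun y => (P.map (eval y) : Mat r)) ((P.map derivative).map (eval x)) x :=
  hasDerivAt_mat.2 fun a b => (P a b).hasDerivAt x

/-- Polynomial valued functions with differentiable coefficients. -/
def matan_PD (f : Mat r → ℂ[X]) : Prop := ∀ k, Differentiable ℂ fun M => (f M).coeff k

theorem matan_PD_const (p : ℂ[X]) : matan_PD fun _ : Mat r => p := fun _ =>
  differentiable_const _

theorem matan_PD_mul {f g : Mat r → ℂ[X]} (hf : matan_PD f) (hg : matan_PD g) :
    matan_PD fun M => f M * g M := by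
  intro k
  simp only [coeff_mul]
  exact Differentiable.fun_sum fun p _ => (hf p.1).mul (hg p.2)

theorem matan_PD_sum {ι : Type*} (s : Finset ι) {f : ι → Mat r → ℂ[X]}
    (hf : ∀ i, matan_PD (f i)) : matan_PD fun M => ∑ i ∈ s, f i M := by
  intro k
  simp only [finsetSum_coeff]
  exact Differentiable.fun_sum fun i _ => hf i k

theorem matan_PD_prod {ι : Type*} (s : Finset ι) {f : ι → Mat r → ℂ[X]}
    (hf : ∀ i, matan_PD (f i)) : matan_PD fun M => ∏ i ∈ s, f i M := by
  classical
  induction s using Finset.induction_on with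
  | empty => simpa using matan_PD_const 1
  | insert i s hi ih =>
    simp only [Finset.prod_insert hi]
    exact matan_PD_mul (hf i) ih

theorem matan_PD_char (a b : Fin r) : matan_PD fun M : Mat r => M.charmatrix a b := by
  intro k
  have e : (fun M : Mat r => (M.charmatrix a b).coeff k) = fun M : Mat r =>
      ((Matrix.scalar (Fin r) (X : ℂ[X])) a b).coeff k - (if k = 0 then matan_ent a b M else 0) := by
    funext M
    rw [Matrix.charmatrix, Matrix.sub_apply, coeff_sub, RingHom.mapMatrix_apply, Matrix.map_apply,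
      coeff_C, matan_ent_apply]
  rw [e]
  refine (differentiable_const _).sub ?_
  split_ifs
  · exact (matan_ent a b).differentiable
  · exact differentiable_const _

/-- Polynomial valued functions with differentiable coefficients are closed under sums and
products (`coeff_mul`); expand the determinant of `charmatrix`. -/
theorem differentiable_charpoly_coeff (k : ℕ) :
    Differentiable ℂ fun M : Mat r => M.charpoly.coeff k := by
  have h : matan_PD fun M : Mat r => M.charpoly := by
    simp only [Matrix.charpoly, Matrix.det_apply']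
    exact matan_PD_sum _ fun σ => matan_PD_mul (matan_PD_const _)
      (matan_PD_prod _ fun i => matan_PD_char _ _)
  exact h k

theorem charpoly_of_isConj {a b : (Mat r)ˣ} (h : IsConj a b) :
    (a : Mat r).charpoly = (b : Mat r).charpoly := by
  obtain ⟨c, hc⟩ := isConj_iff.1 h
  rw [← hc, Units.val_mul, Units.val_mul, Matrix.charpoly_mul_comm, ← mul_assoc, Units.inv_mul,
    one_mul]

/-- `Matrix.exp_diagonal`, `charpoly_of_upperTriangular` or `charpoly_diagonal`. -/
theorem charpoly_exp_diagonal (β : Fin r → ℂ) (M : ℕ) :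
    (NormedSpace.exp ((2 * Real.pi * Complex.I : ℂ) • diagonal fun j => β j - M)).charpoly =
      ∏ j, (X - C (Complex.exp (2 * Real.pi * Complex.I * β j))) := by
  rw [← Matrix.diagonal_smul, Matrix.exp_diagonal, Matrix.charpoly_diagonal]
  refine Finset.prod_congr rfl fun j _ => ?_
  congr 2
  rw [Pi.coe_exp, ← Complex.exp_eq_exp_ℂ, Pi.smul_apply, smul_eq_mul, mul_sub, Complex.exp_sub,
    mul_comm _ (M : ℂ), Complex.exp_nat_mul_two_pi_mul_I, div_one]

/-- The complex number with coordinates `q`. -/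
def cpt (q : ℝ × ℝ) : ℂ := ⟨q.1, q.2⟩

/-- Coordinates of the singular points. -/
def pp (t : Fin n → ℂ) : Fin n → ℝ × ℝ := fun i => ((t i).re, (t i).im)

/-- Transport between points of the real plane. -/
noncomputable def TT (t : Fin n → ℂ) (A : Fin n → Mat r) (a b : ℝ × ℝ) : (Mat r)ˣ :=
  TU t A (cpt a) (cpt b)

/-- `T_tri` for the convex set `{z | z.re ∈ Icc x1 x2 ∧ z.im ∈ Icc y1 y2}`. -/
theorem rectT_TT (t : Fin n → ℂ) (A : Fin n → Mat r) : RectT (TT t A) (pp t) := by
  intro x1 x2 y1 y2 h a ha b hb c hc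
  have hC : Convex ℝ (Complex.reLm ⁻¹' Icc x1 x2 ∩ Complex.imLm ⁻¹' Icc y1 y2) :=
    ((convex_Icc x1 x2).linear_preimage Complex.reLm).inter
      ((convex_Icc y1 y2).linear_preimage Complex.imLm)
  apply Units.ext
  exact T_tri A hC (fun i hi => h i hi) (a := cpt a) (b := cpt b) (c := cpt c) ha hb hc

theorem RL_TT (t : Fin n → ℂ) (A : Fin n → Mat r) (c : ℂ) (ρ : ℝ) :
    (RL (TT t A) (c.re - ρ) (c.re + ρ) (c.im - ρ) (c.im + ρ)).val = sqLoop t A c ρ := by
  have e0 : cpt (c.re - ρ, c.im - ρ) = c + ρ * (-1 - Complex.I) := by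
    apply Complex.ext <;> simp [cpt] <;> ring
  have e1 : cpt (c.re + ρ, c.im - ρ) = c + ρ * (1 - Complex.I) := by
    apply Complex.ext <;> simp [cpt] <;> ring
  have e2 : cpt (c.re + ρ, c.im + ρ) = c + ρ * (1 + Complex.I) := by
    apply Complex.ext <;> simp [cpt]
  have e3 : cpt (c.re - ρ, c.im + ρ) = c + ρ * (-1 + Complex.I) := by
    apply Complex.ext <;> simp [cpt] <;> ring
  unfold RL TT sqLoop loop
  rw [e0, e1, e2, e3]
  rfl

theorem IsRefl.conj {g : Mat r} {ζ : ℂ} (h : IsRefl g ζ) (u : (Mat r)ˣ) :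
    IsRefl (u.val * g * (u⁻¹).val) ζ := by
  obtain ⟨e, f, rfl, hf⟩ := h
  refine ⟨u.val *ᵥ e, f ᵥ* (u⁻¹).val, ?_, ?_⟩
  · rw [mul_sub, sub_mul, mul_one, Units.mul_inv, Matrix.mul_vecMulVec, Matrix.vecMulVec_mul]
  · rw [Matrix.dotProduct_mulVec, Matrix.vecMul_vecMul, Units.inv_mul, Matrix.vecMul_one, hf]

/-- `P = α⁻¹ • A c` is idempotent (`Rk1.mul_self`) and equals `vecMulVec e f` with `f ⬝ᵥ e = 1`;
use `sqLoop_local`, `RL_TT`, `vt_eq_RL`, `exists_validAt`. -/
theorem isRefl_vt {t : Fin n → ℂ} (ht : Function.Injective fun i => (t i).re) {H : ℝ}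
    (hb : InBox (pp t) H) {A : Fin n → Mat r} {c : Fin n} (hrk : Rk1 (A c))
    (htr : ∀ m : ℤ, (A c).trace ≠ m) :
    IsRefl (vt (TT t A) (pp t) H c).val
      (Complex.exp (2 * Real.pi * Complex.I * (A c).trace)) := by
  have hα : (A c).trace ≠ 0 := by simpa using htr 0
  have hti : Function.Injective t := fun i j hij => ht (by simp only [hij])
  have hP : ((A c).trace⁻¹ • A c) * ((A c).trace⁻¹ • A c) = (A c).trace⁻¹ • A c := by
    rw [smul_mul_smul_comm, hrk.mul_self, smul_smul, mul_assoc, inv_mul_cancel₀ hα, mul_one]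
  have hA : A c = (A c).trace • ((A c).trace⁻¹ • A c) := by
    rw [smul_smul, mul_inv_cancel₀ hα, one_smul]
  obtain ⟨ε, hε, hloc⟩ := sqLoop_local hti A c hP htr hA
  obtain ⟨ε', hε', hval⟩ := exists_validAt ht c
  have him : |(t c).im| < H := (hb c).2
  set ρ : ℝ := min (ε / 2) (min ε' (H - |(t c).im|)) with hρ
  have hρ0 : 0 < ρ := lt_min (by linarith) (lt_min hε' (by linarith))
  have hρ1 : ρ < ε := lt_of_le_of_lt (min_le_left _ _) (by linarith)
  have hρ2 : ρ ≤ ε' := (min_le_right _ _).trans (min_le_left _ _)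
  have hρ3 : ρ ≤ H - |(t c).im| := (min_le_right _ _).trans (min_le_right _ _)
  obtain ⟨u, hu⟩ := hloc ρ hρ0 hρ1
  have hv : ValidAt (fun j => (pp t j).1) c ((t c).re - ρ) ((t c).re + ρ) :=
    hval _ _ (by linarith) (by linarith) (by linarith) (by linarith)
  have l1 := le_abs_self (t c).im
  have l2 := neg_abs_le (t c).im
  have hvt := vt_eq_RL (rectT_TT t A) hb hv (y1 := (t c).im - ρ) (y2 := (t c).im + ρ)
    (by linarith) (by show _ < (t c).im; linarith) (by show (t c).im < _; linarith) (by linarith)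
  have h0 : IsRefl (1 + (Complex.exp (2 * Real.pi * Complex.I * (A c).trace) - 1) •
      ((A c).trace⁻¹ • A c)) (Complex.exp (2 * Real.pi * Complex.I * (A c).trace)) := by
    obtain ⟨e, f, hef⟩ := hrk.exists_vec
    have htr' : (A c).trace = f ⬝ᵥ e := by
      rw [hef, Matrix.trace_vecMulVec, dotProduct_comm]
    refine ⟨((1 - Complex.exp (2 * Real.pi * Complex.I * (A c).trace)) * (A c).trace⁻¹) • e, f,
      ?_, ?_⟩
    · rw [Matrix.smul_vecMulVec, ← hef, smul_smul, sub_eq_add_neg (1 : Mat r), ← neg_smul]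
      congr 2
      ring
    · rw [dotProduct_smul, ← htr', smul_eq_mul, mul_assoc, inv_mul_cancel₀ hα, mul_one]
  have h1 := h0.conj u
  rw [← hu, ← RL_TT] at h1
  have h2 := h1.conj (Ybot (TT t A) H ((t c).re - ρ, (t c).im - ρ))⁻¹
  rw [hvt, Units.val_mul, Units.val_mul]
  rw [inv_inv] at h2
  exact h2

end Pool.Agent.GR
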