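import Pool.Agent.Lib.MP_aa40d3_nt.GR.CycA

/-! Basic facts on the cyclic vector data. Direct computations or inductions on `k`. -/

open Polynomial Matrix

namespace Pool.Agent.GR

variable {R S : Type*} [CommRing R] [CommRing S] {n r : ℕ} [NeZero r]

theorem rowL_map (φ : R →+* S) (ξ δ : R[X]) (P : Matrix (Fin r) (Fin r) R[X]) (k : ℕ)
    (a : Fin r) : (rowL ξ δ P k a).map φ =
      rowL (ξ.map φ) (δ.map φ) (P.map (Polynomial.map φ)) k a := by
  induction k generalizing a with
  | zero =>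
    simp only [rowL, Pi.single_apply]
    split_ifs <;> simp
  | succ k ih =>
    have ih' : rowL (ξ.map φ) (δ.map φ) (P.map (Polynomial.map φ)) k =
        fun a => (rowL ξ δ P k a).map φ := funext fun a => (ih a).symm
    simp only [rowL, ih', vecMul, dotProduct, Pi.smul_apply, Pi.add_apply, Pi.sub_apply,
      smul_eq_mul, Polynomial.map_mul, Polynomial.map_add, Polynomial.map_sub, Polynomial.map_sum,
      Polynomial.map_natCast, derivative_map, Matrix.map_apply]

theorem cycM_map (φ : R →+* S) (ξ δ : R[X]) (P : Matrix (Fin r) (Fin r) R[X]) :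
    (cycM ξ δ P).map (Polynomial.map φ) =
      cycM (ξ.map φ) (δ.map φ) (P.map (Polynomial.map φ)) := by
  refine Matrix.ext fun k a => ?_
  simp only [cycM, Matrix.map_apply, of_apply, Polynomial.map_mul, Polynomial.map_pow, rowL_map]

theorem cycH_map (φ : R →+* S) (ξ δ : R[X]) (P : Matrix (Fin r) (Fin r) R[X]) :
    (cycH ξ δ P).map φ = cycH (ξ.map φ) (δ.map φ) (P.map (Polynomial.map φ)) := by
  unfold cycH
  rw [← cycM_map]
  exact (mapRingHom φ).map_det _

theorem cycN_map (φ : R →+* S) (ξ δ : R[X]) (P : Matrix (Fin r) (Fin r) R[X]) (k : Fin r) :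
    (cycN ξ δ P k).map φ = cycN (ξ.map φ) (δ.map φ) (P.map (Polynomial.map φ)) k := by
  have h := (mapRingHom φ).map_adjugate (cycM ξ δ P)
  have h' : ∀ a, (cycM (ξ.map φ) (δ.map φ) (P.map (Polynomial.map φ))).adjugate a k =
      ((cycM ξ δ P).adjugate a k).map φ := fun a => by
    rw [← cycM_map]
    exact (congrFun (congrFun h a) k).symm
  simp only [cycN, Pi.neg_apply, vecMul, dotProduct, Polynomial.map_neg, Polynomial.map_sum,
    Polynomial.map_mul, rowL_map, h']

theorem cyc_dpow (δ : R[X]) (k : ℕ) :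
    δ * derivative (δ ^ k) = (k : R[X]) * derivative δ * δ ^ k := by
  induction k with
  | zero => simp
  | succ k ih =>
    rw [pow_succ, derivative_mul]
    push_cast
    linear_combination δ * ih

/-- Differentiate `δ ^ k * y_k = l_k ⬝ᵥ v` and multiply by `ξ * δ`. -/
theorem rowL_spec {ξ δ : R[X]} {P : Matrix (Fin r) (Fin r) R[X]} {v : Fin r → R[X]}
    (h : IsSol δ P v) (k : ℕ) :
    rowL ξ δ P k ⬝ᵥ v = δ ^ k * (fun y => ξ * derivative y)^[k] (v 0) := by
  induction k with
  | zero => simp [rowL]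
  | succ k ih =>
    have h1 := congrArg derivative ih
    have h2 : derivative (rowL ξ δ P k ⬝ᵥ v) = (fun a => derivative (rowL ξ δ P k a)) ⬝ᵥ v +
        rowL ξ δ P k ⬝ᵥ fun a => derivative (v a) := by
      simp only [dotProduct, derivative_sum, derivative_mul, Finset.sum_add_distrib]
    have h3 : (rowL ξ δ P k ᵥ* P) ⬝ᵥ v = δ * (rowL ξ δ P k ⬝ᵥ fun a => derivative (v a)) := by
      rw [← dotProduct_mulVec, ← h, dotProduct_smul, smul_eq_mul]
    rw [h2, derivative_mul] at h1
    rw [Function.iterate_succ_apply', rowL, smul_dotProduct, add_dotProduct, sub_dotProduct,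
      smul_dotProduct, smul_dotProduct, h3, ih]
    simp only [smul_eq_mul]
    linear_combination ξ * δ * h1 +
      ξ * (fun y => ξ * derivative y)^[k] (v 0) * cyc_dpow δ k

theorem cyc_mulVec {ξ δ : R[X]} {P : Matrix (Fin r) (Fin r) R[X]} {v : Fin r → R[X]}
    (h : IsSol δ P v) : cycM ξ δ P *ᵥ v =
      δ ^ r • fun k : Fin r => (fun y => ξ * derivative y)^[(k : ℕ)] (v 0) := by
  funext k
  have e : (cycM ξ δ P *ᵥ v) k = δ ^ (r - (k : ℕ)) * (rowL ξ δ P k ⬝ᵥ v) := by
    simp only [cycM, mulVec, dotProduct, of_apply, Finset.mul_sum, mul_assoc]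
  rw [e, rowL_spec h, ← mul_assoc, ← pow_add, Nat.sub_add_cancel k.2.le]
  rfl

/-- `cycM *ᵥ v = δ ^ r • η` with `η k = θ^k (v 0)`; multiply by the adjugate, pair with
`rowL r` and cancel `δ ^ r`. -/
theorem scalEq_of_isSol [IsDomain R] {δ : R[X]} (hδ : δ ≠ 0) {P : Matrix (Fin r) (Fin r) R[X]}
    {v : Fin r → R[X]} (h : IsSol δ P v) : ScalEq (cycH X δ P) (cycN X δ P) (v 0) := by
  have h1 : cycM X δ P *ᵥ v = δ ^ r • fun k : Fin r => th^[(k : ℕ)] (v 0) := cyc_mulVec h
  have h2 : rowL X δ P r ⬝ᵥ v = δ ^ r * th^[r] (v 0) := rowL_spec h r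
  have h3 := congrArg (fun u => rowL X δ P r ⬝ᵥ ((cycM X δ P).adjugate *ᵥ u)) h1
  simp only [mulVec_mulVec, adjugate_mul, smul_mulVec, one_mulVec, dotProduct_smul,
    mulVec_smul, smul_eq_mul] at h3
  rw [h2, dotProduct_mulVec] at h3
  refine mul_left_cancel₀ (pow_ne_zero r hδ) ?_
  have h4 : ∑ k : Fin r, cycN X δ P k * th^[(k : ℕ)] (v 0) =
      -((rowL X δ P r ᵥ* (cycM X δ P).adjugate) ⬝ᵥ fun k : Fin r => th^[(k : ℕ)] (v 0)) := by
    rw [← neg_dotProduct]
    rfl
  rw [h4, cycH]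
  linear_combination h3

theorem injS_of_cycH [IsDomain R] {ξ δ : R[X]} {P : Matrix (Fin r) (Fin r) R[X]}
    (h : cycH ξ δ P ≠ 0) : InjS δ P := by
  intro v hv h0
  refine Matrix.eq_zero_of_mulVec_eq_zero h ?_
  rw [cyc_mulVec hv, h0]
  funext k
  rw [Pi.smul_apply, Function.iterate_fixed (by simp), smul_zero]
  rfl

/-- `cycM * Φ = δ ^ r • wr (first row of Φ)`; take determinants. -/
theorem cyc_det {δ : R[X]} {P Φ : Matrix (Fin r) (Fin r) R[X]}
    (h : δ • Φ.map derivative = P * Φ) :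
    cycH X δ P * Φ.det = δ ^ (r * r) * (wr fun b => Φ 0 b).det := by
  have e : cycM X δ P * Φ = δ ^ r • wr fun b => Φ 0 b := Matrix.ext fun k b =>
    congrFun (cyc_mulVec (ξ := X) (isSol_col h b)) k
  rw [cycH, ← det_mul, e, det_smul, Fintype.card_fin, pow_mul]

/-- Row `k` of the bracket is `δ ^ (r - k) • rowL (k + 1)`; for the last row use
`cycH • rowL r = rowL r ᵥ* adjugate M ᵥ* M`. -/
theorem cyc_gauge (ξ δ : R[X]) (P : Matrix (Fin r) (Fin r) R[X]) :
    cycH ξ δ P • (ξ • (δ • (cycM ξ δ P).map derivative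
        - ((r : R[X]) * derivative δ) • cycM ξ δ P + cycM ξ δ P * P)) =
      δ • (cmp (cycH ξ δ P) (cycN ξ δ P) * cycM ξ δ P) := by
  refine Matrix.ext fun k j => ?_
  have e1 : (ξ • (δ • (cycM ξ δ P).map derivative
      - ((r : R[X]) * derivative δ) • cycM ξ δ P + cycM ξ δ P * P)) k j =
      δ ^ (r - (k : ℕ)) * rowL ξ δ P (k + 1) j := by
    have e2 : (cycM ξ δ P * P) k j = δ ^ (r - (k : ℕ)) * (rowL ξ δ P k ᵥ* P) j := by
      simp only [cycM, Matrix.mul_apply, vecMul, dotProduct, of_apply, Finset.mul_sum, mul_assoc]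
    have e3 := cyc_dpow δ (r - (k : ℕ))
    rw [Nat.cast_sub k.2.le] at e3
    rw [Matrix.smul_apply, Matrix.add_apply, e2]
    simp only [rowL, cycM, Matrix.sub_apply, Matrix.smul_apply, Matrix.map_apply, of_apply,
      Pi.smul_apply, Pi.add_apply, Pi.sub_apply, smul_eq_mul, derivative_mul]
    linear_combination ξ * rowL ξ δ P k j * e3
  rw [Matrix.smul_apply, e1, Matrix.smul_apply, smul_eq_mul, smul_eq_mul]
  by_cases hk : (k : ℕ) + 1 = r
  · have e4 : (cmp (cycH ξ δ P) (cycN ξ δ P) * cycM ξ δ P) k j =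
        ((rowL ξ δ P r ᵥ* (cycM ξ δ P).adjugate) ᵥ* cycM ξ δ P) j := by
      rw [Matrix.mul_apply]
      refine Finset.sum_congr rfl fun i _ => ?_
      simp only [cmp, of_apply, if_pos hk, cycN, Pi.neg_apply, neg_neg]
    have e5 : r - (k : ℕ) = 1 := by omega
    rw [e4, vecMul_vecMul, adjugate_mul, vecMul_smul, vecMul_one, e5, hk, Pi.smul_apply,
      smul_eq_mul, cycH]
    ring
  · have hk' : (k : ℕ) + 1 < r := by omega
    have e4 : (cmp (cycH ξ δ P) (cycN ξ δ P) * cycM ξ δ P) k j =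
        cycH ξ δ P * cycM ξ δ P ⟨k + 1, hk'⟩ j := by
      rw [Matrix.mul_apply, Finset.sum_eq_single ⟨k + 1, hk'⟩]
      · simp only [cmp, of_apply, if_neg hk, if_true]
      · intro i _ hi
        have : ¬(i : ℕ) = k + 1 := fun e => hi (Fin.ext e)
        simp only [cmp, of_apply, if_neg hk, if_neg this, zero_mul]
      · exact fun h => absurd (Finset.mem_univ _) h
    have e5 : r - (k : ℕ) = r - (k + 1) + 1 := by omega
    rw [e4, e5]
    simp only [cycM, of_apply]
    ring

theorem cyc_natDegree_rowL {δ : R[X]} {P : Matrix (Fin r) (Fin r) R[X]} {d : ℕ}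
    (hδ : δ.natDegree ≤ d) (hP : ∀ a b, (P a b).natDegree ≤ d) (k : ℕ) (a : Fin r) :
    (rowL X δ P k a).natDegree ≤ k * (d + 1) := by
  induction k generalizing a with
  | zero =>
    simp only [rowL, Pi.single_apply]
    split_ifs <;> simp
  | succ k ih =>
    have hd : ∀ y : R[X], (derivative y).natDegree ≤ y.natDegree := fun y =>
      (natDegree_derivative_le y).trans (Nat.sub_le _ _)
    have h1 : (δ * derivative (rowL X δ P k a)).natDegree ≤ d + k * (d + 1) :=
      natDegree_mul_le.trans (add_le_add hδ ((hd _).trans (ih a)))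
    have h2 : ((k : R[X]) * derivative δ * rowL X δ P k a).natDegree ≤ d + k * (d + 1) := by
      refine natDegree_mul_le.trans (add_le_add (natDegree_mul_le.trans ?_) (ih a))
      rw [natDegree_natCast, zero_add]
      exact (hd _).trans hδ
    have h3 : (∑ b, rowL X δ P k b * P b a).natDegree ≤ d + k * (d + 1) :=
      natDegree_sum_le_of_forall_le _ _ fun b _ =>
        natDegree_mul_le.trans ((add_le_add (ih b) (hP b a)).trans_eq (add_comm _ _))
    have h4 := natDegree_add_le_of_degree_le ((natDegree_sub_le _ _).trans (max_le h1 h2)) h3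
    refine (natDegree_mul_le.trans (add_le_add natDegree_X_le h4)).trans_eq ?_
    ring

/-- `rowL X δ P k` has degree at most `k * (d + 1)`, so the entries of `cycM` have degree at most
`r * (d + 1)`. -/
theorem natDegree_cycH {δ : R[X]} {P : Matrix (Fin r) (Fin r) R[X]} {d : ℕ}
    (hδ : δ.natDegree ≤ d) (hP : ∀ a b, (P a b).natDegree ≤ d) :
    (cycH X δ P).natDegree ≤ r * r * (d + 1) := by
  have hM : ∀ k a, (cycM X δ P k a).natDegree ≤ r * (d + 1) := fun k a => by
    refine (natDegree_mul_le.trans (add_le_add (natDegree_pow_le.trans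
      (Nat.mul_le_mul_left _ (hδ.trans (Nat.le_succ d)))) (cyc_natDegree_rowL hδ hP k a))).trans_eq ?_
    rw [← add_mul, Nat.sub_add_cancel k.2.le]
  rw [cycH, det_apply']
  refine natDegree_sum_le_of_forall_le _ _ fun σ _ => natDegree_mul_le.trans ?_
  rw [natDegree_intCast, zero_add]
  refine (natDegree_prod_le _ _).trans ((Finset.sum_le_sum fun i _ => hM (σ i) i).trans_eq ?_)
  simp [mul_assoc]

end Pool.Agent.GR
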