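import Pool.Agent.Lib.MP_aa40d3_nt.GR.Spread
import Pool.Agent.Lib.MP_aa40d3_nt.GR.Cyc

/-! Cartier's lemma for systems and the passage from maximal ideals to all points. -/

open Polynomial Matrix

namespace Pool.Agent.GR

variable {n r : ℕ}

/-- `iterB δ P k * Φ = δ ^ k • Φ^(k)` for solutions `Φ`. -/
noncomputable def iterB {R : Type*} [CommRing R] (δ : R[X]) (P : Matrix (Fin r) (Fin r) R[X]) :
    ℕ → Matrix (Fin r) (Fin r) R[X]
  | 0 => 1
  | k + 1 => δ • (iterB δ P k).map derivative - ((k : R[X]) * derivative δ) • iterB δ P k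
      + iterB δ P k * P

theorem cart_D_mul {R : Type*} [CommRing R] (M N : Matrix (Fin r) (Fin r) R[X]) :
    (M * N).map derivative = M.map derivative * N + M * N.map derivative := by
  ext1 a b
  simp only [Matrix.map_apply, Matrix.mul_apply, Matrix.add_apply, map_sum, derivative_mul,
    Finset.sum_add_distrib]

theorem cart_D_smul {R : Type*} [CommRing R] (u : R[X]) (M : Matrix (Fin r) (Fin r) R[X]) :
    (u • M).map derivative = derivative u • M + u • M.map derivative := by
  ext1 a b
  simp only [Matrix.map_apply, Matrix.smul_apply, Matrix.add_apply, smul_eq_mul, derivative_mul]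

theorem cart_D_pow {R : Type*} [CommRing R] (δ : R[X]) (k : ℕ) :
    δ * derivative (δ ^ k) = (k : R[X]) * derivative δ * δ ^ k := by
  induction k with
  | zero => simp
  | succ k ih =>
    rw [pow_succ, derivative_mul, mul_add, ← mul_assoc, ih]
    push_cast
    ring

theorem cart_cancel_left {R : Type*} [CommRing R] [IsDomain R] {M N : Matrix (Fin r) (Fin r) R}
    (hM : M.det ≠ 0) (h : M * N = 0) : N = 0 := by
  have h1 : M.det • N = 0 := by
    rw [← one_mul N, ← smul_mul_assoc, ← adjugate_mul, mul_assoc, h, mul_zero]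
  ext a b
  have h2 := congrFun (congrFun h1 a) b
  simp only [Matrix.smul_apply, smul_eq_mul, Matrix.zero_apply] at h2
  exact (mul_eq_zero.1 h2).resolve_left hM

theorem cart_cancel_right {R : Type*} [CommRing R] [IsDomain R] {M N : Matrix (Fin r) (Fin r) R}
    (hM : M.det ≠ 0) (h : N * M = 0) : N = 0 := by
  have h1 : M.det • N = 0 := by
    rw [← mul_one N, ← mul_smul_comm, ← mul_adjugate, ← mul_assoc, h, zero_mul]
  ext a b
  have h2 := congrFun (congrFun h1 a) b
  simp only [Matrix.smul_apply, smul_eq_mul, Matrix.zero_apply] at h2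
  exact (mul_eq_zero.1 h2).resolve_left hM

theorem cart_spec {R : Type*} [CommRing R] {δ : R[X]} {P Φ : Matrix (Fin r) (Fin r) R[X]}
    (h : δ • Φ.map derivative = P * Φ) (k : ℕ) :
    iterB δ P k * Φ = δ ^ k • Φ.map (derivative^[k]) := by
  induction k with
  | zero =>
    rw [iterB, one_mul, pow_zero, one_smul]
    rfl
  | succ k ih =>
    have h1 := congrArg (fun M : Matrix (Fin r) (Fin r) R[X] => δ • M.map derivative) ih
    have e : (Φ.map (derivative^[k])).map derivative = Φ.map (derivative^[k + 1]) := by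
      ext1 a b
      simp only [Matrix.map_apply, Function.iterate_succ_apply']
    simp only [cart_D_mul, cart_D_smul, smul_add, smul_smul, cart_D_pow, e] at h1
    rw [← mul_smul_comm δ (iterB δ P k), h] at h1
    rw [iterB, add_mul, sub_mul, smul_mul_assoc, smul_mul_assoc, ih, mul_assoc (iterB δ P k),
      smul_smul, pow_succ', sub_add_eq_add_sub, h1, add_sub_cancel_left]

theorem cart_intJacobson : IsJacobsonRing ℤ := by
  rw [isJacobsonRing_iff_prime_eq]
  intro P hP
  by_cases h : P = ⊥
  · subst h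
    rw [eq_bot_iff]
    intro x hx
    have := Ideal.mem_jacobson_bot.1 hx x
    rw [Int.isUnit_iff] at this
    have h0 : x = 0 := by rcases this with h | h <;> nlinarith
    simp [h0]
  · have : P.IsMaximal := Ring.DimensionLEOne.maximalOfPrime h hP
    exact Ideal.jacobson_eq_self_of_isMaximal

/-- Coefficients of the projector. -/
noncomputable def cartA {k : Type*} [Field k] (c : k) (j : ℕ) : k[X] :=
  (-(X - C c)) ^ j * C ((j.factorial : k)⁻¹)

theorem cart_A_succ {k : Type*} [Field k] (c : k) {j : ℕ} (hj : ((j + 1 : ℕ) : k) ≠ 0) :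
    derivative (cartA c (j + 1)) = -cartA c j := by
  have e : ((j + 1 : ℕ) : k) * (((j + 1).factorial : k))⁻¹ = (j.factorial : k)⁻¹ := by
    rw [Nat.factorial_succ, Nat.cast_mul, mul_inv, ← mul_assoc, mul_inv_cancel₀ hj, one_mul]
  unfold cartA
  rw [derivative_mul, derivative_C, mul_zero, add_zero, derivative_pow, ← e, C_mul,
    Nat.add_sub_cancel, derivative_neg, derivative_X_sub_C]
  ring

/-- The telescoping terms. -/
noncomputable def cartW {k : Type*} [Field k] (p : ℕ) (c : k) (δ : k[X])
    (P : Matrix (Fin r) (Fin r) k[X]) : ℕ → Matrix (Fin r) (Fin r) k[X]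
  | 0 => 0
  | j + 1 => (cartA c j * δ ^ (p - j)) • iterB δ P (j + 1)

theorem cart_term {k : Type*} [Field k] (p : ℕ) [CharP k p] (c : k) (δ : k[X])
    (P : Matrix (Fin r) (Fin r) k[X]) {j : ℕ} (hj : j < p) :
    δ • ((cartA c j * δ ^ (p - j)) • iterB δ P j).map derivative +
      ((cartA c j * δ ^ (p - j)) • iterB δ P j) * P = cartW p c δ P (j + 1) - cartW p c δ P j := by
  have hp : ((p - j : ℕ) : k[X]) = -(j : k[X]) := by
    rw [Nat.cast_sub hj.le, CharP.cast_eq_zero k[X] p, zero_sub]
  have e1 : δ * derivative (cartA c j * δ ^ (p - j)) =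
      derivative (cartA c j) * δ ^ (p - j + 1) -
        cartA c j * δ ^ (p - j) * ((j : k[X]) * derivative δ) := by
    rw [derivative_mul, mul_add, mul_left_comm δ (cartA c j), cart_D_pow, hp]
    ring
  have e2 : cartW p c δ P j = -((derivative (cartA c j) * δ ^ (p - j + 1)) • iterB δ P j) := by
    cases j with
    | zero => simp [cartW, cartA]
    | succ i =>
      have hi : ((i + 1 : ℕ) : k) ≠ 0 := fun h0 =>
        absurd (Nat.le_of_dvd i.succ_pos ((CharP.cast_eq_zero_iff k p _).1 h0)) (by omega)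
      rw [cartW, cart_A_succ c hi, show p - (i + 1) + 1 = p - i by omega, neg_mul, neg_smul,
        neg_neg]
  rw [e2, cartW, iterB, cart_D_smul, smul_add, smul_smul, e1, smul_mul_assoc, smul_add, smul_sub,
    sub_smul, smul_smul, smul_smul, smul_smul, mul_comm δ (cartA c j * δ ^ (p - j))]
  abel

theorem iterB_map {R S : Type*} [CommRing R] [CommRing S] (φ : R →+* S) (δ : R[X])
    (P : Matrix (Fin r) (Fin r) R[X]) (k : ℕ) :
    (iterB δ P k).map (Polynomial.map φ) = iterB (δ.map φ) (P.map (Polynomial.map φ)) k := by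
  induction k with
  | zero =>
    ext1 a b
    simp only [iterB, Matrix.map_apply, Matrix.one_apply]
    split_ifs <;> simp
  | succ k ih =>
    rw [iterB, iterB, ← ih]
    ext1 a b
    simp only [Matrix.map_apply, Matrix.add_apply, Matrix.sub_apply, Matrix.smul_apply,
      smul_eq_mul, Matrix.mul_apply, Polynomial.map_add, Polynomial.map_sub, Polynomial.map_mul,
      Polynomial.map_sum, Polynomial.map_natCast, derivative_map]

/-- `iterB δ P k * Φ = δ ^ k • Φ.map (derivative^[k])` by induction, and the `p`-th derivative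
vanishes (`Polynomial.iterate_derivative_eq_factorial_smul_sum`, or `p ∣ descFactorial`). -/
theorem iterB_eq_zero {k : Type*} [CommRing k] [IsDomain k] (p : ℕ) [Fact p.Prime] [CharP k p]
    {δ : k[X]} {P : Matrix (Fin r) (Fin r) k[X]} (h : Fund δ P) : iterB δ P p = 0 := by
  obtain ⟨Φ, hΦ, hs⟩ := h
  refine cart_cancel_right hΦ ?_
  rw [cart_spec hs]
  have e : Φ.map (derivative^[p]) = 0 := by
    ext1 a b
    have hp : p ∣ p.factorial := Nat.dvd_factorial (Fact.out : p.Prime).pos le_rfl
    rw [Matrix.map_apply, iterate_derivative_eq_factorial_smul_sum, nsmul_eq_mul,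
      (CharP.cast_eq_zero_iff k[X] p _).2 hp, zero_mul, Matrix.zero_apply]
  rw [e, smul_zero]

/-- Katz's projector. Let `Ψ = ∑_{j < p} ((-(X - C c)) ^ j * C (j!)⁻¹ * δ ^ (p - j)) • iterB j`.
Then `δ • Ψ' + Ψ * P = 0` (telescoping, the last term contains `iterB p`), and
`Ψ(c) = δ(c) ^ p • 1`, so `det Ψ ≠ 0`. Put `Φ = det Ψ ^ (p - 1) • adjugate Ψ`, so that
`Ψ * Φ = det Ψ ^ p • 1` has derivative zero; hence `Ψ * (δ • Φ' - P * Φ) = 0`. -/
theorem fund_of_iterB {k : Type*} [Field k] (p : ℕ) [Fact p.Prime] [CharP k p] {δ : k[X]}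
    {P : Matrix (Fin r) (Fin r) k[X]} {c : k} (hc : δ.eval c ≠ 0) (h : iterB δ P p = 0) :
    Fund δ P := by
  have hp : 0 < p := (Fact.out : p.Prime).pos
  obtain ⟨Ψ, hΨ⟩ : ∃ Ψ : Matrix (Fin r) (Fin r) k[X],
      Ψ = ∑ j ∈ Finset.range p, (cartA c j * δ ^ (p - j)) • iterB δ P j := ⟨_, rfl⟩
  have h1 : δ • Ψ.map derivative + Ψ * P = 0 := by
    have e : Ψ.map derivative =
        ∑ j ∈ Finset.range p, ((cartA c j * δ ^ (p - j)) • iterB δ P j).map derivative := by
      rw [hΨ]
      ext1 a b
      simp only [Matrix.map_apply, Matrix.sum_apply, map_sum]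
    rw [e, hΨ, Finset.smul_sum, Finset.sum_mul, ← Finset.sum_add_distrib,
      Finset.sum_congr rfl fun j hj => cart_term p c δ P (Finset.mem_range.1 hj),
      Finset.sum_range_sub]
    obtain ⟨q, rfl⟩ : ∃ q, p = q + 1 := ⟨p - 1, by omega⟩
    rw [cartW, cartW, h, smul_zero, sub_zero]
  have h2 : Ψ.det ≠ 0 := by
    intro h0
    have e : (evalRingHom c).mapMatrix Ψ = (δ.eval c ^ p) • (1 : Matrix (Fin r) (Fin r) k) := by
      rw [hΨ]
      ext a b
      simp only [RingHom.mapMatrix_apply, Matrix.map_apply, Matrix.sum_apply, Matrix.smul_apply,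
        smul_eq_mul, coe_evalRingHom, eval_finsetSum, eval_mul]
      rw [Finset.sum_eq_single 0]
      · simp only [cartA, iterB, Matrix.one_apply]
        split_ifs <;> simp
      · intro j _ hj
        simp [cartA, hj]
      · intro h
        exact absurd (Finset.mem_range.2 hp) h
    have e2 := RingHom.map_det (evalRingHom c) Ψ
    rw [h0, e, map_zero, det_smul, det_one, mul_one] at e2
    exact pow_ne_zero _ (pow_ne_zero _ hc) e2.symm
  have h3 : Ψ * (Ψ.det ^ (p - 1) • Ψ.adjugate) = Ψ.det ^ p • (1 : Matrix (Fin r) (Fin r) k[X]) := by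
    rw [mul_smul_comm, mul_adjugate, smul_smul, ← pow_succ, Nat.sub_add_cancel hp]
  generalize Ψ.det ^ (p - 1) • Ψ.adjugate = Φ at h3
  refine ⟨Φ, fun h0 => ?_, ?_⟩
  · have e := congrArg det h3
    rw [det_mul, h0, mul_zero, det_smul, det_one, mul_one] at e
    exact pow_ne_zero _ (pow_ne_zero _ h2) e.symm
  · have e1 : (1 : Matrix (Fin r) (Fin r) k[X]).map derivative = 0 := by
      ext1 a b
      simp only [Matrix.map_apply, Matrix.one_apply, Matrix.zero_apply]
      split_ifs <;> simp
    have e := congrArg (fun M : Matrix (Fin r) (Fin r) k[X] => δ • M.map derivative) h3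
    simp only [cart_D_mul, cart_D_smul, e1, derivative_pow, CharP.cast_eq_zero, map_zero, zero_mul,
      zero_smul, smul_zero, add_zero, smul_add] at e
    rw [← sub_eq_zero]
    refine cart_cancel_left h2 ?_
    rw [← smul_mul_assoc, eq_neg_of_add_eq_zero_left h1] at e
    rw [mul_sub, mul_smul_comm, ← mul_assoc, ← e, neg_mul]
    abel

/-- Take the same `S` and `P0 = n`. Given `ι : R → ℂ` injective with `S ⊆ range ι`, there is
`j : closure S →+* R` with `ι ∘ j = subtype`, so `j` maps the given lifts to `t'`, `A'`.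
Let `ψ = φ ∘ j` and `R₀ = closure S` (finite type over `ℤ`, hence a Jacobson ring). Every maximal
ideal `m ⊇ ker ψ` contains `p`, so `R₀ / m` has characteristic `p` and all coefficients of
`iterB (dl t₀) (pm t₀ A₀) p` lie in `m` (`iterB_eq_zero`, `iterB_map`); `ker ψ` is prime, hence
the intersection of these `m` (`IsJacobsonRing.out`). Finally `dl` has degree `n < p`, so one of
`0, …, p - 1` is not a root, and `fund_of_iterB` applies. -/
theorem pc_of_fullModAll {t : Fin n → ℂ} {A : Fin n → Matrix (Fin r) (Fin r) ℂ}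
    (h : FullModAll t A) : PC t A := by
  obtain ⟨S, t0, A0, ht0, hA0, hm⟩ := h
  refine ⟨S, n, fun R _ ι hι hS t' A' ht' hA' p hp hnp k _ _ φ => ?_⟩
  have : Fact p.Prime := ⟨hp⟩
  have hle : Subring.closure (S : Set ℂ) ≤ ι.range := Subring.closure_le.2 fun s hs => hS s hs
  let e : R ≃+* ι.range := RingEquiv.ofBijective ι.rangeRestrict
    ⟨fun x y hxy => hι (congrArg Subtype.val hxy), ι.rangeRestrict_surjective⟩
  let j : Subring.closure (S : Set ℂ) →+* R := e.symm.toRingHom.comp (Subring.inclusion hle)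
  have hj : ∀ x, ι (j x) = x := fun x =>
    congrArg Subtype.val (e.apply_symm_apply (Subring.inclusion hle x))
  have hjt : ∀ i, j (t0 i) = t' i := fun i => hι (by rw [hj, ht0, ht'])
  have hjA : ∀ i a b, j (A0 i a b) = A' i a b := fun i a b => hι (by
    rw [hj, hA0, ← hA' i, Matrix.map_apply])
  let ψ := φ.comp j
  have et : (fun i => φ (t' i)) = fun i => ψ (t0 i) := funext fun i => by
    rw [← hjt]; rfl
  have eA : (fun i => (A' i).map φ) = fun i => (A0 i).map ψ := funext fun i => by
    ext a b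
    rw [Matrix.map_apply, Matrix.map_apply, ← hjA]; rfl
  rw [et, eA]
  have := cart_intJacobson
  have := finiteType_closure S
  have hJ : IsJacobsonRing (Subring.closure (S : Set ℂ)) := isJacobsonRing_of_finiteType (A := ℤ)
  have hz : iterB (dl fun i => ψ (t0 i)) (pm (fun i => ψ (t0 i)) fun i => (A0 i).map ψ) p = 0 := by
    rw [← dl_map, ← pm_map, ← iterB_map]
    ext a b i
    rw [Matrix.map_apply, coeff_map, Matrix.zero_apply, coeff_zero, ← RingHom.mem_ker,
      ← hJ.out (RingHom.ker_isPrime ψ).isRadical]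
    refine Ideal.mem_sInf.2 fun m hmm => ?_
    have := hmm.2
    have hpm : (p : Subring.closure (S : Set ℂ)) ∈ m :=
      hmm.1 (by rw [RingHom.mem_ker, map_natCast, CharP.cast_eq_zero])
    have : CharP (Subring.closure (S : Set ℂ) ⧸ m) p := (CharP.charP_iff_prime_eq_zero hp).2 (by
      rw [← map_natCast (Ideal.Quotient.mk m)]
      exact Ideal.Quotient.eq_zero_iff_mem.2 hpm)
    have h1 := iterB_eq_zero p (hm m hmm.2)
    rw [← dl_map, ← pm_map, ← iterB_map] at h1
    have h2 := congrArg (fun q => coeff q i) (congrFun (congrFun h1 a) b)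
    simp only [Matrix.map_apply, coeff_map, Matrix.zero_apply, coeff_zero] at h2
    exact Ideal.Quotient.eq_zero_iff_mem.1 h2
  obtain ⟨c, hc⟩ : ∃ c : k, (dl fun i => ψ (t0 i)).eval c ≠ 0 := by
    by_contra hcon
    push Not at hcon
    refine (dl_monic fun i => ψ (t0 i)).ne_zero ?_
    refine eq_zero_of_natDegree_lt_card_of_eval_eq_zero _ (f := fun a : Fin p => ((a : ℕ) : k))
      (fun a b hab => Fin.ext (CharP.natCast_injOn_Iio k p a.2 b.2 hab)) (fun a => hcon _) ?_
    rw [Fintype.card_fin]
    exact (natDegree_dl _).trans_lt hnp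
  exact fund_of_iterB p hc hz

end Pool.Agent.GR
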