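import Pool.Agent.Lib.MP_aa40d3_nt.GR.Tr

/-! Transport of a Fuchsian system along a segment. -/

open Set

namespace Pool.Agent.GR

variable {𝔸 : Type} [NormedRing 𝔸] [NormedAlgebra ℂ 𝔸] [CompleteSpace 𝔸] {n : ℕ}

/-- The coefficient of the system. -/
noncomputable def sys (t : Fin n → ℂ) (A : Fin n → 𝔸) (x : ℂ) : 𝔸 := ∑ i, (x - t i)⁻¹ • A i

/-- The point of the segment from `a` to `b` with parameter `s`. -/
noncomputable def lin (a b : ℂ) : C(unitInterval, ℂ) :=
  ⟨fun s => a + (s : ℝ) * (b - a), by fun_prop⟩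

/-- The coefficient along the segment from `a` to `b`. -/
noncomputable def coef (t : Fin n → ℂ) (A : Fin n → 𝔸) (a b : ℂ) : C(unitInterval, 𝔸) :=
  ∑ i, Ring.inverse (lin a b - ContinuousMap.const _ (t i)) •
    ContinuousMap.const unitInterval ((b - a) • A i)

/-- Transport along the segment from `a` to `b`. -/
noncomputable def T (t : Fin n → ℂ) (A : Fin n → 𝔸) (a b : ℂ) : 𝔸 := Tr (coef t A a b)

/-- Transport as a unit. -/
noncomputable def TU (t : Fin n → ℂ) (A : Fin n → 𝔸) (a b : ℂ) : 𝔸ˣ :=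
  (isUnit_Tr (coef t A a b)).unit

theorem val_TU (t : Fin n → ℂ) (A : Fin n → 𝔸) (a b : ℂ) : (TU t A a b : 𝔸) = T t A a b := rfl

/-- Transport around a quadrilateral. -/
noncomputable def loop (t : Fin n → ℂ) (A : Fin n → 𝔸) (v0 v1 v2 v3 : ℂ) : 𝔸 :=
  T t A v3 v0 * T t A v2 v3 * T t A v1 v2 * T t A v0 v1

private lemma seg_mem (a b : ℂ) {s : ℝ} (hs : s ∈ Icc (0 : ℝ) 1) :
    a + s * (b - a) ∈ segment ℝ a b := by
  rw [segment_eq_image']
  exact ⟨s, hs, by simp⟩

private lemma seg_isUnit {a b c : ℂ} (h : c ∉ segment ℝ a b) :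
    IsUnit (lin a b - ContinuousMap.const _ c) := by
  rw [ContinuousMap.isUnit_iff_forall_ne_zero]
  intro s hs
  apply h
  have h1 : a + (s : ℝ) * (b - a) = c := sub_eq_zero.mp hs
  rw [← h1]
  exact seg_mem a b s.2

private lemma seg_inv_apply {a b c : ℂ} (h : c ∉ segment ℝ a b) (s : unitInterval) :
    (Ring.inverse (lin a b - ContinuousMap.const _ c) : C(unitInterval, ℂ)) s
      = (lin a b s - c)⁻¹ := by
  have h1 := DFunLike.congr_fun (Ring.inverse_mul_cancel _ (seg_isUnit h)) s
  exact eq_inv_of_mul_eq_one_left h1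

/-- A nowhere vanishing continuous function is a unit (`ContinuousMap.isUnit_iff_forall_ne_zero`)
and its inverse is the pointwise inverse. -/
theorem coef_apply {t : Fin n → ℂ} (A : Fin n → 𝔸) {a b : ℂ} (h : ∀ i, t i ∉ segment ℝ a b)
    (s : unitInterval) : coef t A a b s = (b - a) • sys t A (lin a b s) := by
  simp only [coef, sys, ContinuousMap.coe_sum, Finset.sum_apply, Finset.smul_sum]
  refine Finset.sum_congr rfl fun i _ => ?_
  show (Ring.inverse (lin a b - ContinuousMap.const _ (t i)) : C(unitInterval, ℂ)) s •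
    ((b - a) • A i) = _
  rw [seg_inv_apply (h i), smul_comm]

private lemma seg_ext_coef {t : Fin n → ℂ} (A : Fin n → 𝔸) {a b : ℂ}
    (h : ∀ i, t i ∉ segment ℝ a b) {s : ℝ} (hs : s ∈ Icc (0 : ℝ) 1) :
    ext (coef t A a b) s = (b - a) • sys t A (a + s * (b - a)) := by
  rw [ext, coef_apply A h, projIcc_of_mem _ hs]
  rfl

private lemma seg_hasDerivAt_lin (a b : ℂ) (s : ℝ) :
    HasDerivAt (fun s : ℝ => a + (s : ℂ) * (b - a)) (b - a) s := by
  have h1 := ((Complex.ofRealCLM.hasDerivAt (x := s)).mul_const (b - a)).const_add a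
  simpa using h1

/-- `coef` only depends on differences. -/
theorem T_translate (t : Fin n → ℂ) (A : Fin n → 𝔸) (a b c : ℂ) :
    T (fun i => t i - c) A (a - c) (b - c) = T t A a b := by
  unfold T
  congr 1
  unfold coef
  refine Finset.sum_congr rfl fun i _ => ?_
  have h1 : lin (a - c) (b - c) - ContinuousMap.const _ (t i - c)
      = lin a b - ContinuousMap.const _ (t i) := by
    ext s
    show a - c + (s : ℝ) * (b - c - (a - c)) - (t i - c) = a + (s : ℝ) * (b - a) - t i
    ring
  have h2 : b - c - (a - c) = b - a := by ring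
  rw [h1, h2]

private lemma seg_lin_eq (a b c : ℂ) : lin a b - ContinuousMap.const _ c
    = (a - c) • (1 : C(unitInterval, ℂ)) + (b - a) • lin 0 1 := by
  ext s
  show a + (s : ℝ) * (b - a) - c = (a - c) * 1 + (b - a) * (0 + (s : ℝ) * (1 - 0))
  ring

/-- `differentiable_Tr`, `differentiableAt_inverse` in the Banach algebra `C(unitInterval, ℂ)`,
and the bounded bilinear map `(g, x) ↦ g • const x`. -/
theorem differentiableAt_T {E : Type*} [NormedAddCommGroup E] [NormedSpace ℂ E] {x : E}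
    {t : E → Fin n → ℂ} {A : E → Fin n → 𝔸} {a b : E → ℂ}
    (ht : ∀ i, DifferentiableAt ℂ (fun y => t y i) x)
    (hA : ∀ i, DifferentiableAt ℂ (fun y => A y i) x) (ha : DifferentiableAt ℂ a x)
    (hb : DifferentiableAt ℂ b x) (h : ∀ i, t x i ∉ segment ℝ (a x) (b x)) :
    DifferentiableAt ℂ (fun y => T (t y) (A y) (a y) (b y)) x := by
  unfold T
  refine (differentiable_Tr _).comp x ?_
  unfold coef
  refine DifferentiableAt.fun_sum fun i _ => ?_
  have h1 : DifferentiableAt ℂ
      (fun y => lin (a y) (b y) - ContinuousMap.const unitInterval (t y i)) x := by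
    simp only [seg_lin_eq]
    exact ((ha.sub (ht i)).smul_const _).add ((hb.sub ha).smul_const _)
  have h2 := h1.inverse (seg_isUnit (h i))
  let L : C(unitInterval, ℂ) →L[ℂ] C(unitInterval, 𝔸) :=
    (ContinuousLinearMap.toSpanSingleton ℂ (1 : 𝔸)).compLeftContinuous ℂ unitInterval
  let K : 𝔸 →L[ℂ] C(unitInterval, 𝔸) := ContinuousLinearMap.const ℂ unitInterval
  have h3 := (L.differentiableAt.comp x h2).mul
    (K.differentiableAt.comp x ((hb.sub ha).smul (hA i)))
  refine h3.congr_of_eventuallyEq (Filter.Eventually.of_forall fun y => ?_)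
  ext s
  show (Ring.inverse (lin (a y) (b y) - ContinuousMap.const _ (t y i)) : C(unitInterval, ℂ)) s •
      ((b y - a y) • A y i)
    = ((Ring.inverse (lin (a y) (b y) - ContinuousMap.const _ (t y i)) : C(unitInterval, ℂ)) s •
      (1 : 𝔸)) * ((b y - a y) • A y i)
  rw [smul_mul_assoc, one_mul]

/-- Gauge transformation along a segment: `Tr_gauge` with `u s = U (a + s (b - a))`. -/
theorem T_gauge {n' : ℕ} {t : Fin n → ℂ} {A : Fin n → 𝔸} {t' : Fin n' → ℂ} {A' : Fin n' → 𝔸}
    {a b : ℂ} (h : ∀ i, t i ∉ segment ℝ a b) (h' : ∀ i, t' i ∉ segment ℝ a b) (U U' : ℂ → 𝔸)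
    (hU : ∀ x ∈ segment ℝ a b, HasDerivAt U (U' x) x)
    (he : ∀ x ∈ segment ℝ a b, U' x + U x * sys t A x = sys t' A' x * U x) :
    U b * T t A a b = T t' A' a b * U a := by
  have h1 := Tr_gauge (coef t A a b) (coef t' A' a b) (fun s => U (a + s * (b - a)))
    (fun s => (b - a) • U' (a + s * (b - a)))
    (fun s hs => (hU _ (seg_mem a b hs)).scomp s (seg_hasDerivAt_lin a b s))
    (fun s hs => by
      rw [seg_ext_coef A h hs, seg_ext_coef A' h' hs, mul_smul_comm, smul_mul_assoc, ← smul_add,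
        he _ (seg_mem a b hs)])
  simpa [T] using h1

theorem T_unique {t : Fin n → ℂ} {A : Fin n → 𝔸} {a b : ℂ} (h : ∀ i, t i ∉ segment ℝ a b)
    (Y : ℂ → 𝔸) (hY : ∀ x ∈ segment ℝ a b, HasDerivAt Y (sys t A x * Y x) x) :
    Y b = T t A a b * Y a := by
  have h1 := Tr_unique (coef t A a b) (fun s => Y (a + s * (b - a)))
    (fun s hs => by
      rw [seg_ext_coef A h hs, smul_mul_assoc]
      exact (hY _ (seg_mem a b hs)).scomp s (seg_hasDerivAt_lin a b s))
  simpa [T] using h1

theorem T_self (t : Fin n → ℂ) (A : Fin n → 𝔸) (a : ℂ) : T t A a a = 1 := by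
  have h0 : coef t A a a = 0 := by
    unfold coef
    refine Finset.sum_eq_zero fun i _ => ?_
    ext s
    show (Ring.inverse (lin a a - ContinuousMap.const _ (t i)) : C(unitInterval, ℂ)) s •
      ((a - a) • A i) = 0
    rw [sub_self, zero_smul, smul_zero]
  have h1 := Tr_unique (0 : C(unitInterval, 𝔸)) (fun _ => 1) (fun s _ => by
    simpa [ext] using hasDerivAt_const s (1 : 𝔸))
  rw [T, h0]
  simpa using h1.symm

private lemma seg_eventually {t : Fin n → ℂ} {a x : ℂ} (h : ∀ i, t i ∉ segment ℝ a x) :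
    ∀ᶠ y in nhds x, ∀ i, t i ∉ segment ℝ a y := by
  rw [Filter.eventually_all]
  intro i
  have hc : Continuous fun y : ℂ => lin a y - ContinuousMap.const unitInterval (t i) := by
    simp only [seg_lin_eq]
    fun_prop
  have h1 := hc.continuousAt.eventually ((Units.isOpen).mem_nhds (seg_isUnit (h i)))
  filter_upwards [h1] with y hy hmem
  rw [segment_eq_image'] at hmem
  obtain ⟨s, hs, he⟩ := hmem
  refine (ContinuousMap.isUnit_iff_forall_ne_zero _).mp hy ⟨s, hs⟩ ?_
  show a + (s : ℝ) * (y - a) - t i = 0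
  rw [← he]
  simp

private lemma seg_differentiableAt {t : Fin n → ℂ} (A : Fin n → 𝔸) {a x : ℂ}
    (h : ∀ i, t i ∉ segment ℝ a x) : DifferentiableAt ℂ (fun y => T t A a y) x :=
  differentiableAt_T (t := fun _ => t) (A := fun _ => A) (a := fun _ => a) (b := fun y => y)
    (fun _ => differentiableAt_const _) (fun _ => differentiableAt_const _)
    (differentiableAt_const _) differentiableAt_id h

private lemma seg_deriv_ne {t : Fin n → ℂ} (A : Fin n → 𝔸) {a x : ℂ}
    (h : ∀ i, t i ∉ segment ℝ a x) (hx : x ≠ a) :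
    deriv (fun y => T t A a y) x = sys t A x * T t A a x := by
  obtain ⟨Y, hY0, hY1, hY⟩ := Tr_spec (coef t A a x)
  have hF : ∀ s ∈ Icc (0 : ℝ) 1, T t A a (a + s * (x - a)) = Y s := by
    intro s hs
    have hsub : ∀ i, t i ∉ segment ℝ a (a + s * (x - a)) := fun i hi =>
      h i ((convex_segment a x).segment_subset (left_mem_segment ℝ a x) (seg_mem a x hs) hi)
    have h1 := Tr_unique (coef t A a (a + s * (x - a))) (fun σ => Y (s * σ)) (fun σ hσ => by
      have hm : s * σ ∈ Icc (0 : ℝ) 1 := ⟨mul_nonneg hs.1 hσ.1, mul_le_one₀ hs.2 hσ.1 hσ.2⟩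
      have h2 := (hY _ hm).scomp σ ((hasDerivAt_id σ).const_mul s)
      rw [seg_ext_coef A h hm] at h2
      rw [seg_ext_coef A hsub hσ]
      have e1 : a + (σ : ℂ) * (a + s * (x - a) - a) = a + ((s * σ : ℝ) : ℂ) * (x - a) := by
        push_cast
        ring
      have e2 : a + s * (x - a) - a = (s : ℂ) * (x - a) := by ring
      rw [e1, e2]
      refine HasDerivAt.congr_deriv h2 ?_
      rw [mul_one, mul_smul, smul_mul_assoc (s : ℂ), Complex.coe_smul])
    rw [T]
    simpa [hY0] using h1.symm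
  have hx1 : a + ((1 : ℝ) : ℂ) * (x - a) = x := by simp
  have hd : HasDerivAt (fun y => T t A a y) (deriv (fun y => T t A a y) x)
      (a + ((1 : ℝ) : ℂ) * (x - a)) := by
    rw [hx1]
    exact (seg_differentiableAt A h).hasDerivAt
  have h1 := (hd.scomp (1 : ℝ) (seg_hasDerivAt_lin a x 1)).hasDerivWithinAt (s := Icc 0 1)
  have hm : (1 : ℝ) ∈ Icc (0 : ℝ) 1 := ⟨zero_le_one, le_rfl⟩
  have h2 : HasDerivWithinAt ((fun y => T t A a y) ∘ fun s : ℝ => a + (s : ℂ) * (x - a))
      (ext (coef t A a x) 1 * Y 1) (Icc 0 1) 1 :=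
    (hY 1 hm).hasDerivWithinAt.congr (fun s hs => hF s hs) (hF 1 hm)
  have h3 := (uniqueDiffOn_Icc zero_lt_one 1 hm).eq_deriv _ h1 h2
  rw [seg_ext_coef A h hm, hx1, hY1, smul_mul_assoc] at h3
  exact smul_right_injective 𝔸 (sub_ne_zero.mpr hx) h3

/-- `F y = T t A a y` is differentiable near `x` (the hypothesis is open in `x`). For `x ≠ a`:
with `Y` from `Tr_spec`, `F (a + s (x - a)) = Y s` for `s ∈ [0, 1]` (`Tr_unique` applied to
`σ ↦ Y (s σ)`), so the left derivative at `s = 1` gives `(x - a) • F' = (x - a) • (sys x * F x)`.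
For `x = a` use continuity of `deriv F` (analytic near `a`). -/
theorem hasDerivAt_T {t : Fin n → ℂ} (A : Fin n → 𝔸) {a x : ℂ} (h : ∀ i, t i ∉ segment ℝ a x) :
    HasDerivAt (fun y => T t A a y) (sys t A x * T t A a x) x := by
  have hd := (seg_differentiableAt A h).hasDerivAt
  suffices hs : deriv (fun y => T t A a y) x = sys t A x * T t A a x from hs ▸ hd
  by_cases hx : x = a
  swap
  · exact seg_deriv_ne A h hx
  subst hx
  have hev := seg_eventually h
  have han : AnalyticAt ℂ (fun y => T t A x y) x := by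
    rw [Complex.analyticAt_iff_eventually_differentiableAt]
    filter_upwards [hev] with y hy using seg_differentiableAt A hy
  have hc1 : ContinuousAt (deriv fun y => T t A x y) x := han.deriv.continuousAt
  have hc2 : ContinuousAt (fun y => sys t A y * T t A x y) x := by
    refine ContinuousAt.mul ?_ han.continuousAt
    unfold sys
    refine tendsto_finsetSum _ fun i _ => ?_
    have hne : x - t i ≠ 0 := fun h0 => h i (by
      rw [← sub_eq_zero.mp h0]
      exact left_mem_segment ℝ x x)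
    exact (((continuousAt_id.sub continuousAt_const).inv₀ hne).smul continuousAt_const :
      ContinuousAt (fun y : ℂ => (y - t i)⁻¹ • A i) x)
  refine tendsto_nhds_unique (l := nhdsWithin x {x}ᶜ) (hc1.tendsto.mono_left nhdsWithin_le_nhds) ?_
  refine (hc2.tendsto.mono_left nhdsWithin_le_nhds).congr' ?_
  filter_upwards [nhdsWithin_le_nhds hev, self_mem_nhdsWithin] with y hy hyx
  exact (seg_deriv_ne A hy hyx).symm

/-- Homotopy invariance inside a convex set: `T_unique` applied to `T t A a` on `[b, c]`. -/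
theorem T_tri {t : Fin n → ℂ} (A : Fin n → 𝔸) {C : Set ℂ} (hC : Convex ℝ C) (h : ∀ i, t i ∉ C)
    {a b c : ℂ} (ha : a ∈ C) (hb : b ∈ C) (hc : c ∈ C) : T t A b c * T t A a b = T t A a c := by
  refine (T_unique (fun i hi => h i (hC.segment_subset hb hc hi)) (fun y => T t A a y)
    fun x hx => hasDerivAt_T A fun i hi => h i ?_).symm
  exact hC.segment_subset ha (hC.segment_subset hb hc hx) hi

end Pool.Agent.GR
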