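import Mathlib

/-! Definitions used in the statement: Fuchsian systems `Y' = ∑ (x - t i)⁻¹ A i Y`. -/

open Polynomial Matrix

namespace Pool.Agent.GR

variable {R : Type*} [CommRing R] {n r : ℕ}

/-- The denominator `Δ = ∏ (X - t i)`. -/
noncomputable def dl (t : Fin n → R) : R[X] := ∏ i, (X - C (t i))

/-- The numerator `Δ * ∑ (X - t i)⁻¹ A i = ∑ (∏_{j ≠ i} (X - t j)) A i`. -/
noncomputable def pm (t : Fin n → R) (A : Fin n → Matrix (Fin r) (Fin r) R) :
    Matrix (Fin r) (Fin r) R[X] :=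
  ∑ i, (∏ j ∈ Finset.univ.erase i, (X - C (t j))) • (A i).map C

/-- The system has a fundamental matrix of polynomial solutions. -/
def HasFund (t : Fin n → R) (A : Fin n → Matrix (Fin r) (Fin r) R) : Prop :=
  ∃ Φ : Matrix (Fin r) (Fin r) R[X], Φ.det ≠ 0 ∧ dl t • Φ.map derivative = pm t A * Φ

/-- The system is defined over a finitely generated subring of `ℂ` and its reduction modulo every
maximal ideal of that ring has a fundamental matrix of polynomial solutions. -/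
def FullModAll (t : Fin n → ℂ) (A : Fin n → Matrix (Fin r) (Fin r) ℂ) : Prop :=
  ∃ (S : Finset ℂ) (t' : Fin n → Subring.closure (S : Set ℂ))
    (A' : Fin n → Matrix (Fin r) (Fin r) (Subring.closure (S : Set ℂ))),
    (∀ i, (t' i : ℂ) = t i) ∧ (∀ i a b, (A' i a b : ℂ) = A i a b) ∧
    ∀ m : Ideal (Subring.closure (S : Set ℂ)), m.IsMaximal →
      HasFund (fun i => Ideal.Quotient.mk m (t' i)) (fun i => (A' i).map (Ideal.Quotient.mk m))

/-- Irreducibility over `ℂ(x)`: a module of polynomial row vectors stable under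
`l ↦ Δ l' + l (Δ A)` is zero or has full rank. -/
def Irred (t : Fin n → ℂ) (A : Fin n → Matrix (Fin r) (Fin r) ℂ) : Prop :=
  ∀ W : Submodule ℂ[X] (Fin r → ℂ[X]),
    (∀ l ∈ W, (dl t • fun a => derivative (l a)) + l ᵥ* pm t A ∈ W) →
      W = ⊥ ∨ ∀ v, ∃ q : ℂ[X], q ≠ 0 ∧ q • v ∈ W

/-- On some disc without singular points there is a fundamental matrix of solutions all of whose
entries are algebraic functions. -/
def AlgSol (t : Fin n → ℂ) (A : Fin n → Matrix (Fin r) (Fin r) ℂ) : Prop :=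
  ∃ (x₀ : ℂ) (ε : ℝ) (Y : ℂ → Matrix (Fin r) (Fin r) ℂ), 0 < ε ∧
    (∀ x ∈ Metric.ball x₀ ε, (∀ i, x ≠ t i) ∧ (Y x).det ≠ 0 ∧ ∀ a b,
      HasDerivAt (fun y => Y y a b) (((∑ i, (x - t i)⁻¹ • A i) * Y x) a b) x) ∧
    ∀ a b, ∃ P : ℂ[X][X], P ≠ 0 ∧ ∀ x ∈ Metric.ball x₀ ε, P.evalEval x (Y x a b) = 0

end Pool.Agent.GR
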