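import Pool.Agent.Lib.MP_aa40d3_nt.GR.SpecB
import Pool.Agent.Lib.MP_aa40d3_nt.GR.Seg
import Pool.Agent.Lib.MP_aa40d3_nt.GR.Stmt

/-! Algebraicity of all solutions passes to specialisations. -/

open Polynomial Matrix Filter Topology
open scoped Matrix.Norms.Operator

namespace Pool.Agent.GR

variable {n r : ℕ}

theorem spec_ident {R : Type} [CommRing R] (ψ : R →+* ℂ) (t : Fin n → R)
    (A : Fin n → Matrix (Fin r) (Fin r) R) {F : Matrix (Fin r) (Fin r) (PowerSeries R[X])}
    (hF : FSol (fB (dd (fun i => C (t i)) X) fun i => (A i).map C) F)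
    (h0 : F.map (PowerSeries.coeff 0) = 1) (z : ℂ) {G : Matrix (Fin r) (Fin r) (PowerSeries ℂ)}
    (hG : FSol (fB (dd (fun i => ψ (t i)) z) fun i => (A i).map ψ) G)
    (hG0 : G.map (PowerSeries.coeff 0) = 1) :
    F.map (PowerSeries.map (eval₂RingHom ψ z)) = G := by
  have h1 := hF.map (eval₂RingHom ψ z)
  rw [fB_map] at h1
  have h2 : (fun i => eval₂RingHom ψ z (dd (fun i => C (t i)) X i)) = dd (fun i => ψ (t i)) z := by
    funext i
    simp [dd, map_prod, -coe_eval₂RingHom]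
    simp
  have h3 : (fun i => ((A i).map C).map (eval₂RingHom ψ z)) = fun i => (A i).map ψ := by
    funext i
    ext a b
    simp
  rw [h2, h3] at h1
  refine h1.unique hG ?_
  rw [hG0]
  ext a b
  have h4 := congrFun (congrFun h0 a) b
  simp only [Matrix.map_apply] at h4 ⊢
  rw [PowerSeries.coeff_map, h4, Matrix.one_apply, Matrix.one_apply]
  split_ifs <;> simp

theorem spec_uncountable (x : ℂ) {ε : ℝ} (hε : 0 < ε) : ¬ (Metric.ball x ε).Countable := by
  intro h
  have h1 := h.measure_zero MeasureTheory.volume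
  exact (Metric.measure_ball_pos MeasureTheory.volume x hε).ne' h1

theorem spec_rat {R : Type} [CommRing R] [Algebra ℚ R] (ι φ : R →+* ℂ)
    (hi : Function.Injective ι) (t : Fin n → R) (A : Fin n → Matrix (Fin r) (Fin r) R)
    (h : AlgSol (fun i => ι (t i)) (fun i => (A i).map ι)) :
    AlgSol (fun i => φ (t i)) (fun i => (A i).map φ) := by
  obtain ⟨x₀, ε, Y, hε, hY, hP⟩ := h
  obtain ⟨F, hF, h0⟩ := exists_fsol (fB (dd (fun i => C (t i)) (X : R[X])) fun i => (A i).map C)
  have halg : ∀ a b, ∀ z ∈ Metric.ball x₀ ε,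
      IsAlgebraic ℂ[X] (PowerSeries.map (eval₂RingHom ι z) (F a b)) := by
    intro a b z hz
    have hn := Metric.isOpen_ball.mem_nhds hz
    obtain ⟨hA, hS⟩ := tay_ode (hY z hz).1 (Y := Y)
      (by filter_upwards [hn] with x hx using (hY x hx).2.2)
    have h1 := spec_ident ι t A hF h0 z (hS.mul_const (Y z)⁻¹) (by
      rw [← Matrix.mul_nonsing_inv (Y z) (isUnit_iff_ne_zero.2 (hY z hz).2.1)]
      ext a b
      simp [Matrix.mul_apply, ← PowerSeries.coeff_zero_eq_constantCoeff_apply, tay_coeff_zero])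
    have h2 := congrFun (congrFun h1 a) b
    rw [Matrix.map_apply] at h2
    rw [h2, Matrix.mul_apply]
    refine Finset.sum_induction _ (IsAlgebraic ℂ[X]) (fun _ _ hu hv => hu.add hv)
      isAlgebraic_zero fun c _ => IsAlgebraic.mul ?_ ?_
    · rw [Matrix.of_apply, ← algG_iff (hA a c)]
      refine AlgG.aff (f := fun x => Y x a c)
        (Finset.prod_ne_zero_iff.2 fun i _ => sub_ne_zero.2 ((hY z hz).1 i)) ?_
      obtain ⟨P, hP0, hP1⟩ := hP a c
      refine ⟨P, hP0, ?_⟩
      rw [mul_zero, add_zero]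
      filter_upwards [hn] with x hx using hP1 x hx
    · have := isAlgebraic_algebraMap (R := ℂ[X]) (A := PowerSeries ℂ) (C ((Y z)⁻¹ c b))
      rw [speca_algebraMap, Polynomial.coe_C] at this
      exact this
  obtain ⟨w, hw⟩ := Infinite.exists_notMem_finset (Finset.univ.image fun i => φ (t i))
  have hw' : ∀ i, w ≠ φ (t i) := fun i e => hw (Finset.mem_image.2 ⟨i, Finset.mem_univ _, e.symm⟩)
  obtain ⟨δ, hδ, hb⟩ : ∃ δ > 0, ∀ x ∈ Metric.ball w δ, ∀ i, x ≠ φ (t i) :=
    Metric.eventually_nhds_iff_ball.1 (eventually_all.2 fun i => eventually_ne_nhds (hw' i))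
  let Z : ℂ → Matrix (Fin r) (Fin r) ℂ := fun x => T (fun i => φ (t i)) (fun i => (A i).map φ) w x
  have hZ : ∀ x ∈ Metric.ball w δ, ∀ a b, HasDerivAt (fun y => Z y a b)
      (((∑ i, (x - φ (t i))⁻¹ • (A i).map φ) * Z x) a b) x := by
    intro x hx a b
    have h1 := hasDerivAt_T (t := fun i => φ (t i)) (fun i => (A i).map φ) (a := w) (x := x)
      fun i hi => hb _ ((convex_ball w δ).segment_subset (Metric.mem_ball_self hδ) hx hi) i rfl
    let L : Matrix (Fin r) (Fin r) ℂ →L[ℂ] ℂ :=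
      LinearMap.toContinuousLinearMap (Matrix.entryLinearMap ℂ ℂ a b)
    exact L.hasFDerivAt.comp_hasDerivAt x h1
  obtain ⟨hA, hS⟩ := tay_ode hw' (Y := Z)
    (by filter_upwards [Metric.ball_mem_nhds w hδ] with x hx using hZ x hx)
  have h1 := spec_ident φ t A hF h0 w hS (by
    ext a b
    simp [← PowerSeries.coeff_zero_eq_constantCoeff_apply, tay_coeff_zero, Z, T_self])
  have hG : ∀ a b, AlgG (fun x => Z x a b) w := by
    intro a b
    have h2 := spec_det ι φ hi (F a b) (spec_uncountable x₀ hε) (halg a b) w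
    have h3 := congrFun (congrFun h1 a) b
    rw [Matrix.map_apply] at h3
    rw [h3, Matrix.of_apply, ← algG_iff (hA a b)] at h2
    set Δ := ∏ i, (w - φ (t i))
    have hΔ : Δ ≠ 0 := Finset.prod_ne_zero_iff.2 fun i _ => sub_ne_zero.2 (hw' i)
    have h4 := AlgG.aff (f := fun s => Z (w + Δ * s) a b) (a := -(Δ⁻¹ * w)) (w := w)
      (inv_ne_zero hΔ) (by rw [neg_add_cancel]; exact h2)
    have h5 : ∀ s, w + Δ * (-(Δ⁻¹ * w) + Δ⁻¹ * s) = s := fun s => by field_simp; ring
    simpa only [h5] using h4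
  choose P hP0 hP1 using hG
  obtain ⟨η, hη, hη'⟩ := Metric.eventually_nhds_iff_ball.1
    ((eventually_all.2 fun a => eventually_all.2 fun b => hP1 a b).and
      (Metric.ball_mem_nhds w hδ))
  refine ⟨w, η, Z, hη, fun x hx => ⟨hb x (hη' x hx).2, ?_, hZ x (hη' x hx).2⟩,
    fun a b => ⟨P a b, hP0 a b, fun x hx => (hη' x hx).1 a b⟩⟩
  exact ((Matrix.isUnit_iff_isUnit_det _).1 (isUnit_Tr _)).ne_zero

/-- Pairs of values, up to a common integer denominator. -/
def specR {R : Type} [CommRing R] (ι φ : R →+* ℂ) : Subalgebra ℚ (ℂ × ℂ) where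
  carrier := {x | ∃ (N : ℤ) (y : R), N ≠ 0 ∧ N * x.1 = ι y ∧ N * x.2 = φ y}
  mul_mem' := by
    rintro a b ⟨N, y, hN, h1, h2⟩ ⟨M, z, hM, h3, h4⟩
    refine ⟨N * M, y * z, mul_ne_zero hN hM, ?_, ?_⟩
    · rw [map_mul, ← h1, ← h3]; simp; ring
    · rw [map_mul, ← h2, ← h4]; simp; ring
  add_mem' := by
    rintro a b ⟨N, y, hN, h1, h2⟩ ⟨M, z, hM, h3, h4⟩
    refine ⟨N * M, M * y + N * z, mul_ne_zero hN hM, ?_, ?_⟩
    · rw [map_add, map_mul, map_mul, ← h1, ← h3]; simp; ring
    · rw [map_add, map_mul, map_mul, ← h2, ← h4]; simp; ring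
  algebraMap_mem' q := by
    have h : ((q.den : ℤ) : ℂ) * (q : ℂ) = (q.num : ℂ) := by
      rw [mul_comm]
      exact_mod_cast Rat.mul_den_eq_num q
    exact ⟨q.den, q.num, by exact_mod_cast q.den_ne_zero, by simpa using h, by simpa using h⟩

/-- If all solutions are algebraic for an injective embedding of the ring of definition, they are
algebraic for every complex point of that ring. -/
theorem AlgSol.spec {R : Type} [CommRing R] (ι φ : R →+* ℂ) (hi : Function.Injective ι)
    (t : Fin n → R) (A : Fin n → Matrix (Fin r) (Fin r) R)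
    (h : AlgSol (fun i => ι (t i)) (fun i => (A i).map ι)) :
    AlgSol (fun i => φ (t i)) (fun i => (A i).map φ) := by
  let j : R → specR ι φ := fun y => ⟨(ι y, φ y), 1, y, one_ne_zero, by simp, by simp⟩
  let ι' : specR ι φ →+* ℂ := (RingHom.fst ℂ ℂ).comp (specR ι φ).val.toRingHom
  let φ' : specR ι φ →+* ℂ := (RingHom.snd ℂ ℂ).comp (specR ι φ).val.toRingHom
  have hi' : Function.Injective ι' := by
    rw [injective_iff_map_eq_zero]
    rintro ⟨x, N, y, hN, h1, h2⟩ hx
    have h3 : x.1 = 0 := hx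
    have h4 : y = 0 := hi (by rw [← h1, h3, mul_zero, map_zero])
    rw [h4, map_zero] at h2
    exact Subtype.ext (Prod.ext h3 ((mul_eq_zero.1 h2).resolve_left (Int.cast_ne_zero.2 hN)))
  exact spec_rat ι' φ' hi' (fun i => j (t i)) (fun i => (A i).map j) h

end Pool.Agent.GR
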