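import Pool.Agent.Lib.MP_aa40d3_nt.GR.Stmt

/-! Algebraic definitions: systems `δ v' = P v`, cyclic vector data, scalar equations. -/

open Polynomial Matrix

namespace Pool.Agent.GR

section general
variable {R : Type*} [CommRing R] {n r : ℕ}

/-- `v` solves `δ v' = P v`. -/
def IsSol (δ : R[X]) (P : Matrix (Fin r) (Fin r) R[X]) (v : Fin r → R[X]) : Prop :=
  (δ • fun a => derivative (v a)) = P *ᵥ v

/-- `δ Φ' = P Φ` has a solution with nonzero determinant. -/
def Fund (δ : R[X]) (P : Matrix (Fin r) (Fin r) R[X]) : Prop :=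
  ∃ Φ : Matrix (Fin r) (Fin r) R[X], Φ.det ≠ 0 ∧ δ • Φ.map derivative = P * Φ

/-- A solution with vanishing first coordinate vanishes. -/
def InjS [NeZero r] (δ : R[X]) (P : Matrix (Fin r) (Fin r) R[X]) : Prop :=
  ∀ v, IsSol δ P v → v 0 = 0 → v = 0

/-- All `2 × 2` minors vanish. -/
def Rk1 (A : Matrix (Fin r) (Fin r) R) : Prop := ∀ a b c d, A a b * A c d = A a d * A c b

/-- The Euler operator `X d/dX`. -/
noncomputable def th (y : R[X]) : R[X] := X * derivative y

/-- Rows with `rowL ξ δ P k ⬝ᵥ v = δ ^ k * (ξ d/dX)^k (v 0)` for solutions `v`. -/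
noncomputable def rowL [NeZero r] (ξ δ : R[X]) (P : Matrix (Fin r) (Fin r) R[X]) :
    ℕ → Fin r → R[X]
  | 0 => Pi.single 0 1
  | k + 1 => ξ • ((δ • fun a => derivative (rowL ξ δ P k a))
      - ((k : R[X]) * derivative δ) • rowL ξ δ P k + rowL ξ δ P k ᵥ* P)

/-- The cyclic vector matrix. -/
noncomputable def cycM [NeZero r] (ξ δ : R[X]) (P : Matrix (Fin r) (Fin r) R[X]) :
    Matrix (Fin r) (Fin r) R[X] :=
  Matrix.of fun k a => δ ^ (r - (k : ℕ)) * rowL ξ δ P k a

/-- Leading coefficient of the scalar equation. -/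
noncomputable def cycH [NeZero r] (ξ δ : R[X]) (P : Matrix (Fin r) (Fin r) R[X]) : R[X] :=
  (cycM ξ δ P).det

/-- Lower coefficients of the scalar equation. -/
noncomputable def cycN [NeZero r] (ξ δ : R[X]) (P : Matrix (Fin r) (Fin r) R[X]) :
    Fin r → R[X] :=
  -(rowL ξ δ P r ᵥ* (cycM ξ δ P).adjugate)

/-- The scalar equation `H θ^r y + ∑ N k θ^k y = 0`. -/
def ScalEq (H : R[X]) (N : Fin r → R[X]) (y : R[X]) : Prop :=
  H * th^[r] y + ∑ k : Fin r, N k * th^[(k : ℕ)] y = 0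

/-- The Wronskian matrix for the Euler operator. -/
noncomputable def wr (y : Fin r → R[X]) : Matrix (Fin r) (Fin r) R[X] :=
  Matrix.of fun k b => th^[(k : ℕ)] (y b)

/-- `H` times the companion matrix of the scalar equation. -/
noncomputable def cmp (H : R[X]) (N : Fin r → R[X]) : Matrix (Fin r) (Fin r) R[X] :=
  Matrix.of fun k j => if (k : ℕ) + 1 = r then -N j else if (j : ℕ) = (k : ℕ) + 1 then H else 0

/-- The substitution `X ↦ c X`. -/
noncomputable def sc (c : R) (P : R[X]) : R[X] := P.comp (C c * X)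

/-- Reduction of the coefficients modulo the variable of the power series ring. -/
noncomputable def red : (PowerSeries R)[X] →+* R[X] := mapRingHom PowerSeries.constantCoeff

/-- Coefficientwise base change of polynomials over power series. -/
noncomputable def mps {S : Type*} [CommRing S] (φ : R →+* S) :
    (PowerSeries R)[X] →+* (PowerSeries S)[X] := mapRingHom (PowerSeries.map φ)

end general

section arith
variable {n r : ℕ}

/-- Working form of the hypothesis on reductions: every field valued point of large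
characteristic of every ring of definition containing `S`. -/
def PC (t : Fin n → ℂ) (A : Fin n → Matrix (Fin r) (Fin r) ℂ) : Prop :=
  ∃ (S : Finset ℂ) (P0 : ℕ), ∀ (R : Type) [CommRing R] (ι : R →+* ℂ), Function.Injective ι →
    (∀ s ∈ S, s ∈ ι.range) → ∀ (t' : Fin n → R) (A' : Fin n → Matrix (Fin r) (Fin r) R),
    (∀ i, ι (t' i) = t i) → (∀ i, (A' i).map ι = A i) →
    ∀ p : ℕ, p.Prime → P0 < p → ∀ (k : Type) [Field k] [CharP k p] (φ : R →+* k),
      HasFund (fun i => φ (t' i)) (fun i => (A' i).map φ)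

/-- What is known about a system over a field at a good point. -/
structure GoodSys [NeZero r] {k : Type} [Field k] (D : ℕ) (a : Fin n → ℤ) (t : Fin n → k)
    (A : Fin n → Matrix (Fin r) (Fin r) k) : Prop where
  inj : Function.Injective t
  rk : ∀ i, Rk1 (A i)
  tr : ∀ i, (D : k) * (A i).trace = (a i : k)
  injS : InjS (dl t) (pm t A)

/-- Evaluation of integer polynomials in the parameters. -/
noncomputable def ev1 {σ k : Type} [CommRing k] (w : σ → k) : MvPolynomial σ ℤ →+* k :=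
  MvPolynomial.eval₂Hom (Int.castRingHom k) w

/-- Evaluation of integer polynomials in the parameters and one more variable. -/
noncomputable def ev2 {σ k : Type} [CommRing k] (w : σ → k) (θ : k) :
    (MvPolynomial σ ℤ)[X] →+* k :=
  eval₂RingHom (ev1 w) θ

/-- An algebraic family of systems over a finite cover of an open part of affine space, whose
first `n` coordinates are the singular points. -/
structure Model (n r : ℕ) [NeZero r] where
  m : ℕ
  F : (MvPolynomial (Fin n ⊕ Fin m) ℤ)[X]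
  G : MvPolynomial (Fin n ⊕ Fin m) ℤ
  Q : Fin n → Matrix (Fin r) (Fin r) (MvPolynomial (Fin n ⊕ Fin m) ℤ)[X]
  D : ℕ
  a : Fin n → ℤ
  P0 : ℕ
  monic : F.Monic
  D_pos : 0 < D
  not_dvd : ∀ i, ¬ (D : ℤ) ∣ a i
  sep : ∀ (k : Type) [Field k] (w : Fin n ⊕ Fin m → k) (θ : k), ev2 w θ F = 0 → ev1 w G ≠ 0 →
    ev2 w θ (derivative F) ≠ 0
  good : ∀ (k : Type) [Field k] (w : Fin n ⊕ Fin m → k) (θ : k), ev2 w θ F = 0 → ev1 w G ≠ 0 →
    GoodSys D a (fun i => w (Sum.inl i)) (fun i => (ev1 w G)⁻¹ • (Q i).map (ev2 w θ))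
  fund : ∀ (k : Type) [Field k] (w : Fin n ⊕ Fin m → k) (θ : k), ev2 w θ F = 0 → ev1 w G ≠ 0 →
    ∀ p : ℕ, p.Prime → P0 < p → CharP k p →
      HasFund (fun i => w (Sum.inl i)) (fun i => (ev1 w G)⁻¹ • (Q i).map (ev2 w θ))

/-- The residue matrices of the member of the family at `(w, θ)`. -/
noncomputable def Model.mA [NeZero r] (M : Model n r) {k : Type} [Field k]
    (w : Fin n ⊕ Fin M.m → k) (θ : k) : Fin n → Matrix (Fin r) (Fin r) k :=
  fun i => (ev1 w M.G)⁻¹ • (M.Q i).map (ev2 w θ)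

/-- Solutions of the scalar equation whose reduced Wronskian does not vanish. -/
def CPO1 {κ : Type} [Field κ] (H : (PowerSeries κ)[X]) (N : Fin r → (PowerSeries κ)[X]) : Prop :=
  ∃ y : Fin r → (PowerSeries κ)[X], red (wr y).det ≠ 0 ∧ ∀ b, ScalEq H N (y b)

/-- Twisted solutions with a bound on the order of vanishing of the reduced Wronskian. -/
def CPO2 {κ : Type} [Field κ] (p : ℕ) (I : Finset (Fin n)) (D : ℕ) (a : Fin n → ℤ) (c : ℕ)
    (H : (PowerSeries κ)[X]) (N : Fin r → (PowerSeries κ)[X]) : Prop :=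
  ∀ m0 m1 : Fin n → ℕ, (∀ i, m0 i < p) → (∀ i, m1 i < p) → (∀ i, i ∉ I → m0 i = 0) →
    (∀ i ∈ I, (D : κ) * ((m1 i : κ) - m0 i) = (a i : κ)) →
    ∃ (y : Fin r → (PowerSeries κ)[X]) (g : (PowerSeries κ)[X]), red (wr y).det ≠ 0 ∧
      (red (wr y).det).natTrailingDegree ≤ ∑ i ∈ I, ((r - 1) * m0 i + m1 i) + c ∧
      red g = X ^ (∑ i ∈ I, (p - m0 i)) ∧ ∀ b, ScalEq H N (g * y b)

/-- The exponent inequalities, for all Galois conjugates and all twists. -/
def IneqQ (r : ℕ) (I : Finset (Fin n)) (α : Fin n → ℚ) (β : Fin r → ℚ) : Prop :=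
  ∃ D : ℕ, 0 < D ∧ (∀ i, ∃ z : ℤ, α i * D = z) ∧ (∀ j, ∃ z : ℤ, β j * D = z) ∧
    ∀ l : ℤ, IsCoprime l (D : ℤ) → ∀ J ⊆ I,
      ∑ j, Int.fract ((l : ℚ) * (β j - ∑ i ∈ J, α i)) ≤
        ((r : ℚ) - 1) * ∑ i ∈ J, Int.fract (-((l : ℚ) * α i)) +
          ∑ i ∈ I \ J, Int.fract ((l : ℚ) * α i)

/-- The error term of a gauge `g` from `θ + diag β` to the companion system of `(H, N)`. -/
noncomputable def nfErr {R : Type*} [CommRing R] (H : (PowerSeries R)[X])
    (N : Fin r → (PowerSeries R)[X]) (β : Fin r → R)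
    (g : Matrix (Fin r) (Fin r) (PowerSeries R)[X]) : Matrix (Fin r) (Fin r) (PowerSeries R)[X] :=
  H • (g.map th + g * diagonal fun j => C (PowerSeries.C (β j))) - cmp H N * g

/-- Formal normal form to every order on the annulus. -/
def NFData (H : (PowerSeries ℂ)[X]) (N : Fin r → (PowerSeries ℂ)[X]) (β : Fin r → ℂ) : Prop :=
  ∃ (v j0 : ℕ) (c : ℂ), c ≠ 0 ∧
    C (PowerSeries.X ^ (v + 1)) ∣ H - C (PowerSeries.X ^ v * PowerSeries.C c) * X ^ j0 ∧
    ∀ K : ℕ, ∃ (M : ℕ) (V : Matrix (Fin r) (Fin r) ℂ)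
      (g : Matrix (Fin r) (Fin r) (PowerSeries ℂ)[X]), V.det ≠ 0 ∧
      g.map red = (X ^ M : ℂ[X]) • V.map C ∧
      ∀ a b, C (PowerSeries.X ^ (v + K)) ∣ nfErr H N (fun j => β j - M) g a b

end arith

end Pool.Agent.GR
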