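import Pool.Agent.Lib.MP_aa40d3_nt.GR.DefsA

/-! Basic facts on `dl`, `pm`, `th`, `wr`, `ScalEq`. Direct computations. -/

open Polynomial Matrix

namespace Pool.Agent.GR

variable {R S : Type*} [CommRing R] [CommRing S] {n r : ℕ}

theorem dl_map (φ : R →+* S) (t : Fin n → R) : (dl t).map φ = dl fun i => φ (t i) := by
  simp [dl, Polynomial.map_prod]

theorem cyca_pm_apply (t : Fin n → R) (A : Fin n → Matrix (Fin r) (Fin r) R) (a b : Fin r) :
    pm t A a b = ∑ i, (∏ j ∈ Finset.univ.erase i, (X - C (t j))) * C (A i a b) := by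
  simp only [pm, Matrix.sum_apply, Matrix.smul_apply, Matrix.map_apply, smul_eq_mul]

theorem pm_map (φ : R →+* S) (t : Fin n → R) (A : Fin n → Matrix (Fin r) (Fin r) R) :
    (pm t A).map (Polynomial.map φ) = pm (fun i => φ (t i)) fun i => (A i).map φ := by
  ext1 a b
  rw [Matrix.map_apply, cyca_pm_apply, cyca_pm_apply, Polynomial.map_sum]
  refine Finset.sum_congr rfl fun i _ => ?_
  simp [Polynomial.map_prod]

theorem dl_monic (t : Fin n → R) : (dl t).Monic :=
  monic_prod_of_monic _ _ fun i _ => monic_X_sub_C (t i)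

theorem cyca_natDegree_prod (t : Fin n → R) (s : Finset (Fin n)) :
    (∏ j ∈ s, (X - C (t j))).natDegree ≤ n := by
  refine (natDegree_prod_le _ _).trans ?_
  refine (Finset.sum_le_sum fun j _ => natDegree_X_sub_C_le (t j)).trans ?_
  simpa using Finset.card_le_univ s

theorem natDegree_dl (t : Fin n → R) : (dl t).natDegree ≤ n :=
  cyca_natDegree_prod t _

theorem natDegree_pm (t : Fin n → R) (A : Fin n → Matrix (Fin r) (Fin r) R) (a b : Fin r) :
    (pm t A a b).natDegree ≤ n := by
  rw [cyca_pm_apply]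
  exact natDegree_sum_le_of_forall_le _ _ fun i _ =>
    (natDegree_mul_C_le _ _).trans (cyca_natDegree_prod t _)

theorem pm_smul (t : Fin n → R) (A : Fin n → Matrix (Fin r) (Fin r) R) (c : R) :
    pm t (fun i => c • A i) = (C c : R[X]) • pm t A := by
  ext1 a b
  rw [Matrix.smul_apply, cyca_pm_apply, cyca_pm_apply, smul_eq_mul, Finset.mul_sum]
  refine Finset.sum_congr rfl fun i _ => ?_
  rw [Matrix.smul_apply, smul_eq_mul, C_mul]
  ring

theorem th_map (φ : R →+* S) (y : R[X]) : (th y).map φ = th (y.map φ) := by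
  simp [th, derivative_map]

theorem th_sc (c : R) (y : R[X]) : th (sc c y) = sc c (th y) := by
  simp only [th, sc, derivative_comp, mul_comp, X_comp, derivative_mul, derivative_C,
    derivative_X, zero_mul, zero_add, mul_one]
  ring

theorem coeff_th (y : R[X]) (m : ℕ) : (th y).coeff m = m * y.coeff m := by
  cases m with
  | zero => simp [th]
  | succ m =>
    rw [th, coeff_X_mul, coeff_derivative]
    push_cast
    ring

theorem cyca_iter_map (φ : R →+* S) (k : ℕ) (y : R[X]) :
    (th^[k] y).map φ = th^[k] (y.map φ) := by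
  induction k with
  | zero => rfl
  | succ k ih => rw [Function.iterate_succ_apply', Function.iterate_succ_apply', th_map, ih]

theorem cyca_iter_sc (c : R) (k : ℕ) (y : R[X]) : th^[k] (sc c y) = sc c (th^[k] y) := by
  induction k with
  | zero => rfl
  | succ k ih => rw [Function.iterate_succ_apply', Function.iterate_succ_apply', ih, th_sc]

theorem cyca_iter_add (k : ℕ) (y z : R[X]) : th^[k] (y + z) = th^[k] y + th^[k] z := by
  induction k with
  | zero => rfl
  | succ k ih =>
    rw [Function.iterate_succ_apply', Function.iterate_succ_apply', Function.iterate_succ_apply',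
      ih]
    simp only [th, derivative_add, mul_add]

theorem cyca_iter_mul {u : R[X]} (hu : derivative u = 0) (k : ℕ) (y : R[X]) :
    th^[k] (u * y) = u * th^[k] y := by
  induction k with
  | zero => rfl
  | succ k ih =>
    rw [Function.iterate_succ_apply', Function.iterate_succ_apply', ih]
    simp only [th, derivative_mul, hu, zero_mul, zero_add]
    ring

theorem wr_map (φ : R →+* S) (y : Fin r → R[X]) :
    (wr y).map (Polynomial.map φ) = wr fun b => (y b).map φ := by
  ext1 a b
  simp only [wr, Matrix.map_apply, Matrix.of_apply, cyca_iter_map]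

theorem cmp_map (φ : R →+* S) (H : R[X]) (N : Fin r → R[X]) :
    (cmp H N).map (Polynomial.map φ) = cmp (H.map φ) fun k => (N k).map φ := by
  ext1 a b
  simp only [cmp, Matrix.map_apply, Matrix.of_apply]
  split_ifs <;> simp

theorem cyca_lhs_map (φ : R →+* S) (H : R[X]) (N : Fin r → R[X]) (y : R[X]) :
    (H * th^[r] y + ∑ k : Fin r, N k * th^[(k : ℕ)] y).map φ =
      H.map φ * th^[r] (y.map φ) + ∑ k : Fin r, (N k).map φ * th^[(k : ℕ)] (y.map φ) := by
  simp only [Polynomial.map_add, Polynomial.map_mul, Polynomial.map_sum, cyca_iter_map]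

theorem ScalEq.map (φ : R →+* S) {H : R[X]} {N : Fin r → R[X]} {y : R[X]} (h : ScalEq H N y) :
    ScalEq (H.map φ) (fun k => (N k).map φ) (y.map φ) := by
  unfold ScalEq at h ⊢
  rw [← cyca_lhs_map, h, Polynomial.map_zero]

theorem ScalEq.of_map (φ : R →+* S) (hφ : Function.Injective φ) {H : R[X]} {N : Fin r → R[X]}
    {y : R[X]} (h : ScalEq (H.map φ) (fun k => (N k).map φ) (y.map φ)) : ScalEq H N y := by
  unfold ScalEq at h ⊢
  rw [← cyca_lhs_map] at h
  exact Polynomial.map_injective φ hφ (h.trans (Polynomial.map_zero φ).symm)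

theorem ScalEq.sc (c : R) {H : R[X]} {N : Fin r → R[X]} {y : R[X]} (h : ScalEq H N y) :
    ScalEq (sc c H) (fun k => sc c (N k)) (sc c y) := by
  unfold ScalEq at h ⊢
  have h2 := congrArg (fun p : R[X] => p.comp (C c * X)) h
  simp only [add_comp, mul_comp, Polynomial.sum_comp, zero_comp] at h2
  simp only [cyca_iter_sc]
  exact h2

theorem ScalEq.cancel [IsDomain R] {u H : R[X]} (hu : u ≠ 0) {N : Fin r → R[X]} {y : R[X]}
    (h : ScalEq (u * H) (fun k => u * N k) y) : ScalEq H N y := by
  unfold ScalEq at h ⊢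
  apply mul_left_cancel₀ hu
  rw [mul_zero, ← h, mul_add, Finset.mul_sum]
  simp only [mul_assoc]

theorem ScalEq.add {H : R[X]} {N : Fin r → R[X]} {y z : R[X]} (hy : ScalEq H N y)
    (hz : ScalEq H N z) : ScalEq H N (y + z) := by
  unfold ScalEq at hy hz ⊢
  simp only [cyca_iter_add, mul_add, Finset.sum_add_distrib]
  linear_combination hy + hz

theorem cyca_lhs_mul {H : R[X]} {N : Fin r → R[X]} {y : R[X]} {u : R[X]}
    (hu : derivative u = 0) :
    H * th^[r] (u * y) + ∑ k : Fin r, N k * th^[(k : ℕ)] (u * y) =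
      u * (H * th^[r] y + ∑ k : Fin r, N k * th^[(k : ℕ)] y) := by
  simp only [cyca_iter_mul hu, mul_add, Finset.mul_sum]
  congr 1
  · ring
  · exact Finset.sum_congr rfl fun k _ => by ring

/-- Multiplication by a constant of the derivation. -/
theorem ScalEq.const_mul {H : R[X]} {N : Fin r → R[X]} {y : R[X]} {u : R[X]}
    (hu : derivative u = 0) (hy : ScalEq H N y) : ScalEq H N (u * y) := by
  unfold ScalEq at hy ⊢
  rw [cyca_lhs_mul hu, hy, mul_zero]

theorem ScalEq.of_const_mul [IsDomain R] {H : R[X]} {N : Fin r → R[X]} {y : R[X]} {u : R[X]}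
    (hu : derivative u = 0) (hu0 : u ≠ 0) (hy : ScalEq H N (u * y)) : ScalEq H N y := by
  unfold ScalEq at hy ⊢
  rw [cyca_lhs_mul hu] at hy
  exact (mul_eq_zero.1 hy).resolve_left hu0

/-- Matrix form of the scalar equation: rows `k < r - 1` are trivial, the last row is `ScalEq`. -/
theorem wr_eq {H : R[X]} {N : Fin r → R[X]} {y : Fin r → R[X]} (h : ∀ b, ScalEq H N (y b)) :
    H • (wr y).map th = cmp H N * wr y := by
  ext1 k b
  have e1 : (H • (wr y).map th) k b = H * th^[(k : ℕ) + 1] (y b) := by
    rw [Function.iterate_succ_apply']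
    rfl
  rw [e1, Matrix.mul_apply]
  by_cases hk : (k : ℕ) + 1 = r
  · have hb := h b
    unfold ScalEq at hb
    have e2 : ∑ j, cmp H N k j * wr y j b = -∑ j : Fin r, N j * th^[(j : ℕ)] (y b) := by
      rw [← Finset.sum_neg_distrib]
      refine Finset.sum_congr rfl fun j _ => ?_
      simp only [cmp, wr, Matrix.of_apply, if_pos hk, neg_mul]
    rw [e2, hk]
    linear_combination hb
  · have hk' : (k : ℕ) + 1 < r := lt_of_le_of_ne k.2 hk
    rw [Finset.sum_eq_single (⟨(k : ℕ) + 1, hk'⟩ : Fin r)]
    · simp only [cmp, wr, Matrix.of_apply, if_neg hk, if_true]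
    · intro j _ hj
      have hj' : ¬ (j : ℕ) = (k : ℕ) + 1 := fun e => hj (Fin.ext e)
      simp only [cmp, Matrix.of_apply, if_neg hk, if_neg hj', zero_mul]
    · intro hj
      exact absurd (Finset.mem_univ _) hj

/-- Columns of a matrix solution are solutions. -/
theorem isSol_col {δ : R[X]} {P Φ : Matrix (Fin r) (Fin r) R[X]}
    (h : δ • Φ.map derivative = P * Φ) (b : Fin r) : IsSol δ P fun a => Φ a b := by
  funext a
  exact congrFun (congrFun h a) b

/-- Combinations of the columns with coefficients killed by the derivation are solutions. -/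
theorem isSol_mulVec {δ : R[X]} {P Φ : Matrix (Fin r) (Fin r) R[X]}
    (h : δ • Φ.map derivative = P * Φ) (c : Fin r → R[X]) (hc : ∀ b, derivative (c b) = 0) :
    IsSol δ P (Φ *ᵥ c) := by
  unfold IsSol
  rw [Matrix.mulVec_mulVec, ← h, Matrix.smul_mulVec]
  congr 1
  funext a
  simp only [Matrix.mulVec, dotProduct, derivative_sum, derivative_mul, hc, mul_zero, add_zero,
    Matrix.map_apply]

end Pool.Agent.GR
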