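import Pool.Agent.Lib.MP_aa40d3_nt.GR.Cartier

/-! From maximal ideals of an abstract ring of definition to all points. -/

open Polynomial Matrix

namespace Pool.Agent.GR

variable {n r : ℕ}

theorem pc_of_max {R₀ : Type} [CommRing R₀] [Algebra.FiniteType ℤ R₀] (ι₀ : R₀ →+* ℂ)
    (hι₀ : Function.Injective ι₀) {t0 : Fin n → R₀} {A0 : Fin n → Matrix (Fin r) (Fin r) R₀}
    (hm : ∀ m : Ideal R₀, m.IsMaximal →
      HasFund (fun i => Ideal.Quotient.mk m (t0 i)) fun i => (A0 i).map (Ideal.Quotient.mk m)) :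
    PC (fun i => ι₀ (t0 i)) fun i => (A0 i).map ι₀ := by
  classical
  obtain ⟨T, hT⟩ := (Algebra.FiniteType.out : (⊤ : Subalgebra ℤ R₀).FG)
  refine ⟨T.image ι₀, n, fun R _ ι hι hS t' A' ht' hA' p hp hnp k _ _ φ => ?_⟩
  have : Fact p.Prime := ⟨hp⟩
  have hmem : ∀ x, ι₀ x ∈ ι.range := by
    intro x
    have hx : x ∈ Algebra.adjoin ℤ (T : Set R₀) := hT ▸ Algebra.mem_top
    rw [Algebra.adjoin_int] at hx
    have hle : Subring.closure (T : Set R₀) ≤ ι.range.comap ι₀ := by
      rw [Subring.closure_le]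
      intro s hs
      exact hS _ (Finset.mem_image_of_mem _ hs)
    exact hle hx
  let e : R ≃+* ι.range := RingEquiv.ofBijective ι.rangeRestrict
    ⟨fun x y hxy => hι (congrArg Subtype.val hxy), ι.rangeRestrict_surjective⟩
  let j : R₀ →+* R := e.symm.toRingHom.comp (ι₀.codRestrict ι.range hmem)
  have hj : ∀ x, ι (j x) = ι₀ x := fun x =>
    congrArg Subtype.val (e.apply_symm_apply (ι₀.codRestrict ι.range hmem x))
  have hjt : ∀ i, j (t0 i) = t' i := fun i => hι (by rw [hj, ht'])
  have hjA : ∀ i a b, j (A0 i a b) = A' i a b := fun i a b => hι (by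
    have := congrFun (congrFun (hA' i) a) b
    simp only [Matrix.map_apply] at this
    rw [hj, this])
  let ψ := φ.comp j
  have et : (fun i => φ (t' i)) = fun i => ψ (t0 i) := funext fun i => by
    rw [← hjt]; rfl
  have eA : (fun i => (A' i).map φ) = fun i => (A0 i).map ψ := funext fun i => by
    ext a b
    rw [Matrix.map_apply, Matrix.map_apply, ← hjA]; rfl
  rw [et, eA]
  have := cart_intJacobson
  have hJ : IsJacobsonRing R₀ := isJacobsonRing_of_finiteType (A := ℤ)
  have hz : iterB (dl fun i => ψ (t0 i)) (pm (fun i => ψ (t0 i)) fun i => (A0 i).map ψ) p = 0 := by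
    rw [← dl_map, ← pm_map, ← iterB_map]
    ext a b i
    rw [Matrix.map_apply, coeff_map, Matrix.zero_apply, coeff_zero, ← RingHom.mem_ker,
      ← hJ.out (RingHom.ker_isPrime ψ).isRadical]
    refine Ideal.mem_sInf.2 fun m hmm => ?_
    have := hmm.2
    have hpm : (p : R₀) ∈ m :=
      hmm.1 (by rw [RingHom.mem_ker, map_natCast, CharP.cast_eq_zero])
    have : CharP (R₀ ⧸ m) p := (CharP.charP_iff_prime_eq_zero hp).2 (by
      rw [← map_natCast (Ideal.Quotient.mk m)]
      exact Ideal.Quotient.eq_zero_iff_mem.2 hpm)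
    have h1 := iterB_eq_zero p (hm m hmm.2)
    rw [← dl_map, ← pm_map, ← iterB_map] at h1
    have h2 := congrArg (fun q => coeff q i) (congrFun (congrFun h1 a) b)
    simp only [Matrix.map_apply, coeff_map, Matrix.zero_apply, coeff_zero] at h2
    exact Ideal.Quotient.eq_zero_iff_mem.1 h2
  obtain ⟨c, hc⟩ : ∃ c : k, (dl fun i => ψ (t0 i)).eval c ≠ 0 := by
    by_contra hcon
    push Not at hcon
    refine (dl_monic fun i => ψ (t0 i)).ne_zero ?_
    refine eq_zero_of_natDegree_lt_card_of_eval_eq_zero _ (f := fun a : Fin p => ((a : ℕ) : k))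
      (fun a b hab => Fin.ext (CharP.natCast_injOn_Iio k p a.2 b.2 hab)) (fun a => hcon _) ?_
    rw [Fintype.card_fin]
    exact (natDegree_dl _).trans_lt hnp
  exact fund_of_iterB p hc hz

end Pool.Agent.GR
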