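import Pool.Agent.Lib.MP_aa40d3_nt.GR.DefsA

/-! From inequalities between residues modulo large primes to inequalities between fractional
parts. -/

namespace Pool.Agent.GR

/-- If `D ∣ l * p + 1`, `m < p` and `D * m ≡ a` mod `p`, write `D * m = a + p * j`; then
`j ≡ l * a` mod `D`. For `p > |a|` one has `-1 < j < D + 1`, so `j ∈ [0, D]` and
`j = D` is possible only if `D ∣ a` (`l` is prime to `D`). -/
theorem rep_bounds {D : ℕ} (hD : 0 < D) {l : ℤ} (hl : IsCoprime l (D : ℤ)) {a : ℤ} {p m : ℕ}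
    (hp : (D : ℤ) ∣ l * p + 1) (ha : |a| < p) (hm : m < p) (h : (p : ℤ) ∣ D * m - a) :
    (p : ℚ) * Int.fract ((l : ℚ) * a / D) - |(a : ℚ)| ≤ m ∧
      (¬ (D : ℤ) ∣ a → (m : ℚ) ≤ p * Int.fract ((l : ℚ) * a / D) + |(a : ℚ)|) := by
  obtain ⟨j, hj⟩ := h
  obtain ⟨u, hu⟩ := hp
  have hD' : (0 : ℤ) < D := by exact_mod_cast hD
  have hDq : (0 : ℚ) < D := by exact_mod_cast hD
  have hD1 : (1 : ℚ) ≤ D := by exact_mod_cast hD
  have hm' : (m : ℤ) + 1 ≤ p := by exact_mod_cast hm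
  have hm0 : (0 : ℤ) ≤ m := by positivity
  have ha1 := abs_lt.1 ha
  have hp0 : (0 : ℤ) < p := by omega
  have hla : l * a = j + D * (l * m - u * j) := by linear_combination (-l) * hj - j * hu
  have hj0 : 0 ≤ j := by
    by_contra hc
    have : (p : ℤ) * j ≤ p * (-1) := mul_le_mul_of_nonneg_left (by omega) hp0.le
    nlinarith [mul_nonneg hD'.le hm0]
  have hjD : j ≤ D := by
    by_contra hc
    have h1 : (p : ℤ) * (D + 1) ≤ p * j := mul_le_mul_of_nonneg_left (by omega) hp0.le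
    have h2 : (D : ℤ) * (m + 1) ≤ D * p := mul_le_mul_of_nonneg_left hm' hD'.le
    nlinarith
  have hfr : Int.fract ((l : ℚ) * a / D) = Int.fract ((j : ℚ) / D) := by
    have : (l : ℚ) * a / D = (j : ℚ) / D + ((l * m - u * j : ℤ) : ℚ) := by
      have h1 : (l : ℚ) * a = j + D * ((l * m - u * j : ℤ) : ℚ) := by exact_mod_cast hla
      rw [h1]
      field_simp
    rw [this, Int.fract_add_intCast]
  have habs : |(a : ℚ) / D| ≤ |(a : ℚ)| := by
    rw [abs_div, abs_of_pos hDq]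
    exact div_le_self (abs_nonneg _) hD1
  have habs' := abs_le.1 habs
  rcases eq_or_lt_of_le hjD with hjD | hjD
  · rw [hfr, hjD, Int.cast_natCast, div_self hDq.ne', Int.fract_one]
    refine ⟨by
      have : (0 : ℚ) ≤ m := by positivity
      linarith [abs_nonneg (a : ℚ)], fun hn => absurd ?_ hn⟩
    refine hl.symm.dvd_of_dvd_mul_left ⟨1 + (l * m - u * j), ?_⟩
    rw [hla, mul_add, mul_one, hjD]
  · have hj0' : (0 : ℚ) ≤ j := by exact_mod_cast hj0
    have hjD' : (j : ℚ) < D := by exact_mod_cast hjD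
    rw [hfr, Int.fract_eq_self.2 ⟨by positivity, (div_lt_one hDq).2 hjD'⟩]
    have h1 : (p : ℚ) * (j / D) = m - a / D := by
      have h2 : (D : ℚ) * m - a = p * j := by exact_mod_cast hj
      field_simp
      linarith
    rw [h1]
    exact ⟨by linarith [habs'.1], fun _ => by linarith [habs'.2]⟩

private theorem frac_exists_rep {D p : ℕ} (hp : p.Prime) (hD : 0 < D) (hDp : D < p) (b : ℤ) :
    ∃ e : ℕ, e < p ∧ (p : ℤ) ∣ D * e - b := by
  have : Fact p.Prime := ⟨hp⟩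
  have hD0 : (D : ZMod p) ≠ 0 := by
    rw [Ne, ZMod.natCast_eq_zero_iff]
    exact Nat.not_dvd_of_pos_of_lt hD hDp
  refine ⟨((D : ZMod p)⁻¹ * b).val, ZMod.val_lt _, ?_⟩
  rw [← ZMod.intCast_zmod_eq_zero_iff_dvd]
  push_cast
  rw [ZMod.natCast_zmod_val, mul_inv_cancel_left₀ hD0, sub_self]

/-- Take primes `p → ∞` with `D ∣ l * p + 1` (`Nat.forall_exists_prime_gt_and_zmodEq`), choose the
representatives (`D` is invertible mod `p`), apply `rep_bounds` and divide by `p`. -/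
theorem frac_ineq {ι ι' : Type*} [Fintype ι] [Fintype ι'] {D : ℕ} (hD : 0 < D) {l : ℤ}
    (hl : IsCoprime l (D : ℤ)) (b : ι → ℤ) (a : ι' → ℤ) (ha : ∀ i, ¬ (D : ℤ) ∣ a i) (wt : ι' → ℕ)
    (c : ℕ) (h : ∃ P : ℕ, ∀ p : ℕ, p.Prime → P < p → ∀ (e : ι → ℕ) (m : ι' → ℕ),
      (∀ j, e j < p) → (∀ i, m i < p) → (∀ j, (p : ℤ) ∣ D * e j - b j) →
      (∀ i, (p : ℤ) ∣ D * m i - a i) → ∑ j, e j ≤ ∑ i, wt i * m i + c) :
    ∑ j, Int.fract ((l : ℚ) * b j / D) ≤ ∑ i, (wt i : ℚ) * Int.fract ((l : ℚ) * a i / D) := by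
  obtain ⟨P, hP⟩ := h
  by_contra hc
  rw [not_le, ← sub_pos] at hc
  set A := ∑ j, Int.fract ((l : ℚ) * b j / D) with hA
  set B := ∑ i, (wt i : ℚ) * Int.fract ((l : ℚ) * a i / D) with hB
  set T : ℚ := ∑ j, |(b j : ℚ)| + ∑ i, (wt i : ℚ) * |(a i : ℚ)| + c with hT
  obtain ⟨M, hM⟩ := exists_nat_gt (T / (A - B))
  obtain ⟨u, v, huv⟩ := id hl
  obtain ⟨p, hp1, hp, hp2⟩ := Nat.forall_exists_prime_gt_and_zmodEq
    (P + M + D + ∑ j, (b j).natAbs + ∑ i, (a i).natAbs) (q := D) (a := -u) hD.ne'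
    ⟨-l, v, by linear_combination huv⟩
  have hlp : (D : ℤ) ∣ l * p + 1 := by
    obtain ⟨w, hw⟩ := hp2.dvd
    exact ⟨v - l * w, by linear_combination (-l) * hw - huv⟩
  choose e he1 he2 using fun j => frac_exists_rep hp hD (by omega) (b j)
  choose m hm1 hm2 using fun i => frac_exists_rep hp hD (by omega) (a i)
  have h1 := hP p hp (by omega) e m he1 hm1 he2 hm2
  have h2 : ∑ j, (e j : ℚ) ≤ ∑ i, (wt i : ℚ) * m i + c := by exact_mod_cast h1
  have h3 : ∀ j, (p : ℚ) * Int.fract ((l : ℚ) * b j / D) - |(b j : ℚ)| ≤ e j := fun j => by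
    refine (rep_bounds hD hl hlp ?_ (he1 j) (he2 j)).1
    have := Finset.single_le_sum (f := fun j => (b j).natAbs) (fun _ _ => Nat.zero_le _)
      (Finset.mem_univ j)
    rw [Int.abs_eq_natAbs]
    exact_mod_cast (by omega : (b j).natAbs < p)
  have h4 : ∀ i, (wt i : ℚ) * m i ≤
      p * (wt i * Int.fract ((l : ℚ) * a i / D)) + wt i * |(a i : ℚ)| := fun i => by
    have h5 := (rep_bounds hD hl hlp (by
      have := Finset.single_le_sum (f := fun j => (a j).natAbs) (fun _ _ => Nat.zero_le _)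
        (Finset.mem_univ i)
      rw [Int.abs_eq_natAbs]
      exact_mod_cast (by omega : (a i).natAbs < p)) (hm1 i) (hm2 i)).2 (ha i)
    have := mul_le_mul_of_nonneg_left h5 (Nat.cast_nonneg (α := ℚ) (wt i))
    linarith
  have h6 := Finset.sum_le_sum fun j (_ : j ∈ Finset.univ) => h3 j
  have h7 := Finset.sum_le_sum fun i (_ : i ∈ Finset.univ) => h4 i
  rw [Finset.sum_sub_distrib, ← Finset.mul_sum, ← hA] at h6
  rw [Finset.sum_add_distrib, ← Finset.mul_sum, ← hB] at h7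
  rw [div_lt_iff₀ hc] at hM
  have h8 : (M : ℚ) ≤ p := by exact_mod_cast (by omega : M ≤ p)
  have h9 := mul_le_mul_of_nonneg_right h8 hc.le
  nlinarith

end Pool.Agent.GR
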