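import Pool.Agent.Lib.MP_aa40d3_nt.GR.NForm
import Pool.Agent.Lib.MP_aa40d3_nt.GR.Frac

/-! Rationality of the exponents on the annulus and the exponent inequalities. -/

open Polynomial Matrix

namespace Pool.Agent.GR

variable {n r : ℕ}

theorem arithb_wr {κ : Type} [Field κ] (y : Fin r → (PowerSeries κ)[X]) :
    (wr fun b => red (y b)).det = red (wr y).det := by
  rw [RingHom.map_det]
  congr 1
  exact (wr_map PowerSeries.constantCoeff y).symm

theorem arithb_red {κ : Type} [Field κ] {H : (PowerSeries κ)[X]} {N : Fin r → (PowerSeries κ)[X]}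
    {c : κ} {j0 : ℕ} {β : Fin r → κ} (he : EulerRed H N c j0 β) {y : (PowerSeries κ)[X]}
    (hy : ScalEq H N y) :
    ScalEq (C c * X ^ j0) (fun j : Fin r => C (c * (∏ i, (X - C (β i))).coeff j) * X ^ j0)
      (red y) := by
  have h0 : ∀ z : (PowerSeries κ)[X], z.map PowerSeries.constantCoeff = red z := fun _ => rfl
  have h1 := hy.map PowerSeries.constantCoeff
  simp only [h0] at h1
  rw [he.1, funext he.2] at h1
  exact h1

theorem arithb_sum {M : Type} [AddCommMonoid M] (s : Finset (Fin n)) (f : Fin n → M) :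
    ∑ i ∈ s, f i = ∑ i, if i ∈ s then f i else 0 := by
  rw [Finset.sum_ite_mem, Finset.univ_inter]

/-- Reduce the solutions of `CPO1` (`ScalEq.map` with `constantCoeff`, `wr_map`), apply `euler_exp`
with `s = 0` and `euler_charp`. -/
theorem CPO1.exp {κ : Type} [Field κ] (p : ℕ) [Fact p.Prime] [CharP κ p]
    {H : (PowerSeries κ)[X]} {N : Fin r → (PowerSeries κ)[X]} {c : κ} (hc : c ≠ 0) {j0 : ℕ}
    {β : Fin r → κ} (he : EulerRed H N c j0 β) (ho : CPO1 H N) :
    Function.Injective β ∧ ∀ j, β j ^ p = β j := by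
  obtain ⟨y, hw, hy⟩ := ho
  rw [← arithb_wr] at hw
  obtain ⟨h1, h2, -⟩ := euler_charp p _ hw β fun b m hm => by
    obtain ⟨j, hj⟩ := euler_exp hc j0 0 β (y := red (y b))
      (by rw [pow_zero, one_mul]; exact arithb_red he (hy b)) m hm
    exact ⟨j, by rwa [zero_add] at hj⟩
  refine ⟨h1, fun j => ?_⟩
  obtain ⟨m, hm⟩ := h2 j
  rw [← hm, ← frobenius_def, map_natCast]

/-- Same with `s = ∑ (p - m0 i)` and `γ j = β j + ∑ m0 i`. -/
theorem CPO2.exp {κ : Type} [Field κ] (p : ℕ) [Fact p.Prime] [CharP κ p] {I : Finset (Fin n)}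
    {D : ℕ} {a : Fin n → ℤ} {c1 : ℕ} {H : (PowerSeries κ)[X]} {N : Fin r → (PowerSeries κ)[X]}
    {c : κ} (hc : c ≠ 0) {j0 : ℕ} {β : Fin r → κ} (he : EulerRed H N c j0 β)
    (ho : CPO2 p I D a c1 H N) (m0 m1 : Fin n → ℕ) (h0 : ∀ i, m0 i < p) (h1 : ∀ i, m1 i < p)
    (hI : ∀ i, i ∉ I → m0 i = 0) (hm : ∀ i ∈ I, (D : κ) * ((m1 i : κ) - m0 i) = (a i : κ))
    (e : Fin r → ℕ) (hp : ∀ j, e j < p) (hj : ∀ j, (e j : κ) = β j + ∑ i ∈ I, (m0 i : κ)) :
    ∑ j, e j ≤ ∑ i ∈ I, ((r - 1) * m0 i + m1 i) + c1 := by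
  obtain ⟨y, g, hw, hb, hg, hy⟩ := ho m0 m1 h0 h1 hI hm
  rw [← arithb_wr] at hw hb
  have hs : ((∑ i ∈ I, (p - m0 i) : ℕ) : κ) = -∑ i ∈ I, (m0 i : κ) := by
    rw [Nat.cast_sum, ← Finset.sum_neg_distrib]
    refine Finset.sum_congr rfl fun i _ => ?_
    rw [Nat.cast_sub (h0 i).le, CharP.cast_eq_zero, zero_sub]
  obtain ⟨-, -, h2⟩ := euler_charp p _ hw (fun j => β j + ∑ i ∈ I, (m0 i : κ)) fun b m hm => by
    obtain ⟨j, hj⟩ := euler_exp hc j0 (∑ i ∈ I, (p - m0 i)) β (y := red (y b))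
      (by rw [← hg, ← map_mul]; exact arithb_red he (hy b)) m hm
    refine ⟨j, ?_⟩
    rw [← hj, Nat.cast_add, hs]
    ring
  exact (h2 e hp hj).trans hb

/-- Injectivity: one `φ` from `spread` (with `x = 1`). Rationality: `rat_of_frob`. Let `D'` be a
common multiple of `D` and the denominators of the `β j`, `D' = D * D''`, `b j = D' * β j`,
`a' i = D'' * a i`. For `l` prime to `D'` and `J ⊆ I` apply `frac_ineq` with `ι = Fin r`,
numerators `b j - ∑_J a'`, `ι' = I`, numerators `-a' i` with weight `r - 1` for `i ∈ J` and `a' i`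
with weight `1` otherwise. Given representatives `e`, `m`, take any `φ` (from `spread`) and use
`CPO2.exp` with `m0 i = m i`, `m1 i = 0` on `J`, and `m0 i = 0`, `m1 i = m i` on `I \ J`. -/
theorem arith_ineq [NeZero r] {R : Type} [CommRing R] [IsDomain R] [CharZero R]
    [Algebra.FiniteType ℤ R] (ι : R →+* ℂ) {H : (PowerSeries R)[X]}
    {N : Fin r → (PowerSeries R)[X]} {c : R} (hc : IsUnit c) {j0 : ℕ} {β : Fin r → R}
    (he : EulerRed H N c j0 β) {I : Finset (Fin n)} {D : ℕ} (hD : 0 < D) {a : Fin n → ℤ}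
    (ha : ∀ i, ¬ (D : ℤ) ∣ a i) {c1 : ℕ}
    (ho : ∃ P : ℕ, ∀ p : ℕ, p.Prime → P < p → ∀ (κ : Type) [Field κ] [CharP κ p] (φ : R →+* κ),
      CPO1 (mps φ H) (fun k => mps φ (N k)) ∧ CPO2 p I D a c1 (mps φ H) fun k => mps φ (N k)) :
    Function.Injective β ∧ (∃ D' : ℕ, 0 < D' ∧ ∀ j, ∃ b : ℤ, (D' : R) * β j = b) ∧
      ∃ q : Fin r → ℚ, (∀ j, ι (β j) = q j) ∧ IneqQ r I (fun i => (a i : ℚ) / D) q := by
  obtain ⟨P, hP⟩ := ho
  obtain ⟨P1, hP1⟩ := spread (x := (1 : R)) one_ne_zero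
  have hrat : ∀ j, ∃ u d : ℤ, d ≠ 0 ∧ (d : R) * β j = u := fun j =>
    rat_of_frob (β j) ⟨P, fun p hp hPp κ _ _ φ =>
      have : Fact p.Prime := ⟨hp⟩
      (CPO1.exp p (hc.map φ).ne_zero (he.map φ) (hP p hp hPp κ φ).1).2 j⟩
  choose u d hd hu using hrat
  obtain ⟨E, hE, hdE⟩ : ∃ E : ℕ, 0 < E ∧ ∀ j, d j ∣ (E : ℤ) := by
    refine ⟨∏ j, (d j).natAbs, Finset.prod_pos fun j _ => Int.natAbs_pos.2 (hd j), fun j => ?_⟩
    rw [← Int.natAbs_dvd, Int.natCast_dvd_natCast]
    exact Finset.dvd_prod_of_mem (fun j => (d j).natAbs) (Finset.mem_univ j)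
  have hb : ∀ j, ∃ b : ℤ, ((D * E : ℕ) : R) * β j = b := by
    intro j
    obtain ⟨v, hv⟩ := hdE j
    refine ⟨D * v * u j, ?_⟩
    have h1 : (E : R) = d j * v := by exact_mod_cast congrArg (Int.cast : ℤ → R) hv
    push_cast
    rw [h1, ← hu j]
    ring
  have hDE : 0 < D * E := Nat.mul_pos hD hE
  refine ⟨?_, ⟨D * E, hDE, hb⟩, ?_⟩
  · obtain ⟨p, hp1, hp⟩ := Nat.exists_infinite_primes (P + P1 + 1)
    obtain ⟨κ, _, _, φ, -⟩ := hP1 p hp (by omega)
    have : Fact p.Prime := ⟨hp⟩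
    exact Function.Injective.of_comp (f := φ)
      (CPO1.exp p (hc.map φ).ne_zero (he.map φ) (hP p hp (by omega) κ φ).1).1
  choose b hb using hb
  have hDq : (D : ℚ) ≠ 0 := Nat.cast_ne_zero.2 hD.ne'
  have hEq : (E : ℚ) ≠ 0 := Nat.cast_ne_zero.2 hE.ne'
  refine ⟨fun j => (b j : ℚ) / (D * E : ℕ), fun j => ?_, D * E, hDE, fun i => ⟨a i * E, ?_⟩,
    fun j => ⟨b j, ?_⟩, fun l hl J hJ => ?_⟩
  · have h1 := congrArg ι (hb j)
    rw [map_mul, map_natCast, map_intCast] at h1
    have h2 : ((D * E : ℕ) : ℂ) ≠ 0 := Nat.cast_ne_zero.2 hDE.ne'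
    rw [Rat.cast_div, Rat.cast_intCast, Rat.cast_natCast, eq_div_iff h2, mul_comm, h1]
  · push_cast
    field_simp
  · push_cast
    field_simp
  have key := frac_ineq hDE hl (fun j => b j - ∑ i ∈ J, a i * E)
    (fun i => if i ∈ J then -(a i * E) else a i * E) ?_
    (fun i => if i ∈ J then r - 1 else if i ∈ I then 1 else 0) c1 ?_
  · refine le_of_eq_of_le ?_ (key.trans_eq ?_)
    · refine Finset.sum_congr rfl fun j _ => ?_
      congr 1
      have h1 : ∑ i ∈ J, (a i : ℚ) / D = (∑ i ∈ J, (a i : ℚ) * E) / (D * E) := by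
        rw [Finset.sum_div]
        refine Finset.sum_congr rfl fun i _ => ?_
        field_simp
      rw [h1]
      push_cast
      ring
    · rw [Finset.mul_sum, arithb_sum J, arithb_sum (I \ J), ← Finset.sum_add_distrib]
      refine Finset.sum_congr rfl fun i _ => ?_
      have h1 : (l : ℚ) * ((a i * E : ℤ) : ℚ) / (D * E : ℕ) = l * ((a i : ℚ) / D) := by
        push_cast
        field_simp
      by_cases hi : i ∈ J
      · have h2 : i ∉ I \ J := fun h => (Finset.mem_sdiff.1 h).2 hi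
        simp only [if_pos hi, if_neg h2]
        rw [Int.cast_neg, mul_neg, neg_div, h1, Nat.cast_sub (NeZero.pos r), Nat.cast_one, add_zero]
      · by_cases hi' : i ∈ I
        · have h2 : i ∈ I \ J := Finset.mem_sdiff.2 ⟨hi', hi⟩
          simp only [if_neg hi, if_pos hi', if_pos h2]
          rw [h1, Nat.cast_one, one_mul, zero_add]
        · have h2 : i ∉ I \ J := fun h => hi' (Finset.mem_sdiff.1 h).1
          simp only [if_neg hi, if_neg hi', if_neg h2]
          rw [Nat.cast_zero, zero_mul, add_zero]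
  · intro i h
    have h1 : ((D * E : ℕ) : ℤ) ∣ a i * E := by
      by_cases hi : i ∈ J
      · simp only [if_pos hi] at h
        exact (dvd_neg.1 h)
      · simpa only [if_neg hi] using h
    rw [Nat.cast_mul] at h1
    exact ha i (Int.dvd_of_mul_dvd_mul_right (Nat.cast_ne_zero.2 hE.ne') h1)
  · refine ⟨P + P1 + D * E, fun p hp hPp e m he' hm' hpe hpm => ?_⟩
    obtain ⟨κ, _, _, φ, -⟩ := hP1 p hp (by omega)
    have : Fact p.Prime := ⟨hp⟩
    have hκ : ((D * E : ℕ) : κ) ≠ 0 := fun h =>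
      absurd (Nat.le_of_dvd hDE ((CharP.cast_eq_zero_iff κ p _).1 h)) (by omega)
    have hEκ : (E : κ) ≠ 0 := by
      rw [Nat.cast_mul] at hκ
      exact right_ne_zero_of_mul hκ
    have hm1 : ∀ i ∈ J, (D : κ) * m i = -a i := by
      intro i hi
      have h1 := (CharP.intCast_eq_zero_iff κ p _).2 (hpm i)
      simp only [if_pos hi] at h1
      push_cast at h1
      exact mul_right_cancel₀ hEκ (by linear_combination h1)
    have hm2 : ∀ i, i ∉ J → (D : κ) * m i = a i := by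
      intro i hi
      have h1 := (CharP.intCast_eq_zero_iff κ p _).2 (hpm i)
      simp only [if_neg hi] at h1
      push_cast at h1
      exact mul_right_cancel₀ hEκ (by linear_combination h1)
    have h1 := CPO2.exp p (hc.map φ).ne_zero (he.map φ) (hP p hp (by omega) κ φ).2
      (fun i => if i ∈ J then m i else 0) (fun i => if i ∈ J then 0 else m i) ?_ ?_ ?_ ?_ e he' ?_
    · refine h1.trans_eq ?_
      congr 1
      rw [arithb_sum I]
      refine Finset.sum_congr rfl fun i _ => ?_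
      by_cases hi : i ∈ J
      · simp [hi, hJ hi]
      · by_cases hi' : i ∈ I
        · simp [hi, hi']
        · simp [hi, hi']
    · intro i
      split_ifs
      · exact hm' i
      · exact hp.pos
    · intro i
      split_ifs
      · exact hp.pos
      · exact hm' i
    · intro i hi
      exact if_neg fun h => hi (hJ h)
    · intro i _
      by_cases hi : i ∈ J
      · simp only [if_pos hi, Nat.cast_zero]
        linear_combination -hm1 i hi
      · simp only [if_neg hi, Nat.cast_zero]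
        linear_combination hm2 i hi
    · intro j
      have h2 : ∑ i ∈ I, (((if i ∈ J then m i else 0 : ℕ)) : κ) = ∑ i ∈ J, (m i : κ) := by
        rw [← Finset.sum_subset hJ (fun i _ hi => by rw [if_neg hi, Nat.cast_zero])]
        exact Finset.sum_congr rfl fun i hi => by rw [if_pos hi]
      have h3 := (CharP.intCast_eq_zero_iff κ p _).2 (hpe j)
      have h4 := congrArg φ (hb j)
      rw [map_mul, map_natCast, map_intCast] at h4
      have h5 : (D : κ) * E * ∑ i ∈ J, (m i : κ) = -∑ i ∈ J, (a i : κ) * E := by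
        rw [Finset.mul_sum, ← Finset.sum_neg_distrib]
        refine Finset.sum_congr rfl fun i hi => ?_
        linear_combination (E : κ) * hm1 i hi
      rw [h2]
      refine mul_left_cancel₀ hκ ?_
      push_cast at h3 h4 ⊢
      linear_combination h3 - h4 - h5

end Pool.Agent.GR
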