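import Pool.Agent.Lib.MP_aa40d3_nt.GR.ArithA
import Pool.Agent.Lib.MP_aa40d3_nt.GR.ArithB

/-! The arithmetic input for one degeneration. -/

open Polynomial Matrix

namespace Pool.Agent.GR

variable {n r : ℕ}

theorem arith_split {K : Type} [Field K] [IsAlgClosed K] (f : K[X]) (hf : f.Monic) {r : ℕ}
    (hr : f.natDegree = r) : ∃ b : Fin r → K, ∏ j, (X - C (b j)) = f := by
  have hs : f.Splits := IsAlgClosed.splits f
  have hcard : f.roots.card = r := by rw [← hr]; exact hs.natDegree_eq_card_roots.symm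
  have hprod : (f.roots.map fun a => X - C a).prod = f := (hs.eq_prod_roots_of_monic hf).symm
  obtain ⟨l, hl⟩ := Quotient.exists_rep f.roots
  have hl' : f.roots = (l : Multiset K) := hl.symm
  rw [hl'] at hcard hprod
  have hlen : l.length = r := by simpa using hcard
  subst hlen
  refine ⟨l.get, ?_⟩
  rw [← hprod, Multiset.map_coe, Multiset.prod_coe, ← List.prod_ofFn]
  congr 1
  conv_rhs => rw [← List.ofFn_get l, List.map_ofFn]
  rfl

theorem arith_red_mps {R S : Type*} [CommRing R] [CommRing S] (φ : R →+* S)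
    (P : (PowerSeries R)[X]) : red (mps φ P) = (red P).map φ := by
  ext k
  simp only [red, mps, coe_mapRingHom, coeff_map]
  rw [← PowerSeries.coeff_zero_eq_constantCoeff_apply, PowerSeries.coeff_map,
    PowerSeries.coeff_zero_eq_constantCoeff_apply]

theorem arith_mps_mps {R S T : Type*} [CommRing R] [CommRing S] [CommRing T] (φ : R →+* S)
    (ψ : S →+* T) (P : (PowerSeries R)[X]) : mps ψ (mps φ P) = mps (ψ.comp φ) P := by
  simp [mps, Polynomial.map_map, PowerSeries.map_comp]

theorem arith_mps_sc {R S : Type*} [CommRing R] [CommRing S] (φ : R →+* S) (ϱ : ℕ)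
    (P : (PowerSeries R)[X]) :
    mps φ (sc (PowerSeries.X ^ ϱ) P) = sc (PowerSeries.X ^ ϱ) (mps φ P) := by
  simp [mps, sc, Polynomial.map_comp]

theorem arith_mps_CX {R S : Type*} [CommRing R] [CommRing S] (φ : R →+* S) (v : ℕ) :
    mps φ (C (PowerSeries.X ^ v)) = C (PowerSeries.X ^ v) := by
  simp [mps]

theorem arith_nfErr_mul {R : Type*} [CommRing R] (u H : (PowerSeries R)[X])
    (N : Fin r → (PowerSeries R)[X]) (γ : Fin r → R)
    (g : Matrix (Fin r) (Fin r) (PowerSeries R)[X]) :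
    nfErr (u * H) (fun k => u * N k) γ g = u • nfErr H N γ g := by
  have h : cmp (u * H) (fun k => u * N k) = u • cmp H N := by
    refine Matrix.ext fun a b => ?_
    simp only [cmp, Matrix.of_apply, Matrix.smul_apply, smul_eq_mul]
    split_ifs
    · exact (mul_neg _ _).symm
    · rfl
    · exact (mul_zero _).symm
  simp only [nfErr, h, smul_sub, Matrix.smul_mul, mul_smul]

theorem arith_unit {R' : Subring ℂ} (x : R') (hx : (x : ℂ) ≠ 0) (h : (x : ℂ)⁻¹ ∈ R') :
    IsUnit x :=
  IsUnit.of_mul_eq_one ⟨_, h⟩ (Subtype.ext (mul_inv_cancel₀ hx))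

/-- `R` is a domain of characteristic zero (`hι`). Take `ϱ, v, j0, c0, ν, H1, N1` from `arith_radius`.
Split `X ^ r + ∑ C (ι (ν k) / ι c0) * X ^ k = ∏ (X - C (b j))` over `ℂ`. Let `g0` be a nonzero
coefficient of `G` and use `exists_enlarge` with the inverses of `ι c0`, `ι g0`, `ι (c j)`, the
`b j` and `(vandermonde b).det⁻¹`. Over `R'` the data `mps j H1`, `mps j (N1 k)` satisfy `EulerRed`
(check after the injective map to `ℂ`). For `φ : R' →+* κ` and `p > max P0 D` apply `ho` to
`φ.comp j` (units have nonzero image) and `cp_scaled`; `mps φ (mps j x) = mps (φ.comp j) x`. Then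
`arith_ineq` and `exists_nf` (the Vandermonde determinant is nonzero by injectivity, so it is a
unit of `R'`). Map to `ℂ` with `nfErr_map`, and use
`nfErr (C u * H) (fun k => C u * N k) γ g = C u • nfErr H N γ g` for `u = X ^ v`. -/
theorem arith [NeZero r] {R : Type} [CommRing R] [Algebra.FiniteType ℤ R] (ι : R →+* ℂ)
    (hι : Function.Injective ι) {D : ℕ} (hD : 0 < D) {a : Fin n → ℤ} (ha : ∀ i, ¬ (D : ℤ) ∣ a i)
    (I : Finset (Fin n)) {e : ℕ} (he : 2 * (r * r * (n + 1)) + 4 ≤ e) {c : Fin n → R}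
    (hc : ∀ j, j ∉ I → c j ≠ 0) {G : PowerSeries R} (hG : G ≠ 0)
    {Q : Fin n → Matrix (Fin r) (Fin r) (PowerSeries R)} (ho : Orc D a (tauF e I c) G Q) :
    ∃ (ϱ : ℕ) (β : Fin r → ℚ), 0 < ϱ ∧ ϱ < e ∧ IneqQ r I (fun i => (a i : ℚ) / D) β ∧
      NFData (sc (PowerSeries.X ^ ϱ) (mps ι (HF (tauF e I c) G Q)))
        (fun k => sc (PowerSeries.X ^ ϱ) (mps ι (NF (tauF e I c) G Q k))) fun j => (β j : ℂ) := by
  classical
  have hdom : IsDomain R := hι.isDomain ι
  have hcz : CharZero R := RingHom.charZero ι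
  obtain ⟨ϱ, v, j0, c0, ν, H1, N1, hϱ0, hϱe, hc0, hH, hN, hrH, hrN⟩ := arith_radius hD I he hc hG ho
  have hι0 : ∀ x : R, x ≠ 0 → ι x ≠ 0 := fun x hx h => hx (hι (h.trans (map_zero ι).symm))
  let f : ℂ[X] := X ^ r + ∑ k : Fin r, C (ι (ν k) / ι c0) * X ^ (k : ℕ)
  have hdeg : (∑ k : Fin r, C (ι (ν k) / ι c0) * X ^ (k : ℕ) : ℂ[X]).degree < r :=
    degree_sum_fin_lt _
  have hfm : f.Monic := monic_X_pow_add hdeg
  have hfd : f.natDegree = r := by
    refine natDegree_eq_of_degree_eq_some ?_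
    rw [degree_add_eq_left_of_degree_lt (by rwa [degree_X_pow]), degree_X_pow]
  have hfc : ∀ k : Fin r, f.coeff k = ι (ν k) / ι c0 := by
    intro k
    simp only [f, coeff_add, coeff_X_pow, if_neg k.2.ne, zero_add, finsetSum_coeff, coeff_C_mul,
      mul_ite, mul_one, mul_zero]
    rw [Finset.sum_eq_single k]
    · simp
    · intro k' _ hk
      rw [if_neg fun h => hk (Fin.ext h.symm)]
    · simp
  obtain ⟨b, hb⟩ := arith_split f hfm hfd
  obtain ⟨i0, hi0⟩ : ∃ i0, PowerSeries.coeff i0 G ≠ 0 := by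
    by_contra h
    push Not at h
    exact hG (PowerSeries.ext fun i => by simpa using h i)
  obtain ⟨R', j, hft, hj, hS⟩ := exists_enlarge ι
    ({(ι c0)⁻¹, (ι (PowerSeries.coeff i0 G))⁻¹, (vandermonde b).det⁻¹} ∪
      (Finset.univ.image fun i => (ι (c i))⁻¹) ∪ Finset.univ.image b)
  have hcomp : R'.subtype.comp j = ι := RingHom.ext hj
  let β : Fin r → R' := fun i => ⟨b i, hS _ (by simp)⟩
  have hu0 : IsUnit (j c0) :=
    arith_unit _ (by rw [hj]; exact hι0 _ hc0) (by rw [hj]; exact hS _ (by simp))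
  have hu1 : IsUnit (j (PowerSeries.coeff i0 G)) :=
    arith_unit _ (by rw [hj]; exact hι0 _ hi0) (by rw [hj]; exact hS _ (by simp))
  have hu2 : ∀ i, i ∉ I → IsUnit (j (c i)) := fun i hi =>
    arith_unit _ (by rw [hj]; exact hι0 _ (hc i hi)) (by rw [hj]; exact hS _ (by simp))
  have hE : EulerRed (mps j H1) (fun k => mps j (N1 k)) (j c0) j0 β := by
    refine ⟨?_, fun k => ?_⟩
    · rw [arith_red_mps, hrH]
      simp
    · rw [arith_red_mps, hrN]
      have : j (ν k) = j c0 * (∏ i, (X - C (β i))).coeff k := by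
        refine Subtype.ext ?_
        have h1 : (((∏ i, (X - C (β i))).coeff k : R') : ℂ) = f.coeff k := by
          rw [← hb]
          have : (∏ i, (X - C (b i)) : ℂ[X]) = (∏ i, (X - C (β i))).map R'.subtype := by
            simp [Polynomial.map_prod, β]
          rw [this, coeff_map]
          rfl
        rw [Subring.coe_mul, h1, hfc, hj, hj, mul_div_cancel₀ _ (hι0 _ hc0)]
      simp [this]
  obtain ⟨P0, hP0⟩ := ho
  have ho' : ∃ P : ℕ, ∀ p : ℕ, p.Prime → P < p → ∀ (κ : Type) [Field κ] [CharP κ p]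
      (φ : R' →+* κ), CPO1 (mps φ (mps j H1)) (fun k => mps φ (mps j (N1 k))) ∧
        CPO2 p I D a (r * r * (n + 1)) (mps φ (mps j H1)) fun k => mps φ (mps j (N1 k)) := by
    refine ⟨max P0 D, fun p hp hlt κ _ _ φ => ?_⟩
    have : Fact p.Prime := ⟨hp⟩
    have hG' : PowerSeries.map (φ.comp j) G ≠ 0 := by
      intro h
      have := congrArg (PowerSeries.coeff i0) h
      rw [PowerSeries.coeff_map, map_zero] at this
      exact (hu1.map φ).ne_zero this
    have hD' : (D : κ) ≠ 0 := by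
      intro h
      have := Nat.le_of_dvd hD ((CharP.cast_eq_zero_iff κ p D).1 h)
      have := le_max_right P0 D
      omega
    obtain ⟨hg, hf⟩ := hP0 p hp (lt_of_le_of_lt (le_max_left _ _) hlt) κ (φ.comp j) hG'
    simp only [arith_mps_mps]
    exact cp_scaled p (φ.comp j) I hD' hϱ0 hϱe (fun i hi => ((hu2 i hi).map φ).ne_zero) hG' hg hf
      hH hN
  obtain ⟨hinj, ⟨D', hD', hβ⟩, q, hq, hineq⟩ := arith_ineq R'.subtype hu0 hE hD ha ho'
  have hbq : ∀ i, b i = q i := hq
  have hbinj : Function.Injective b := fun i i' h => hinj (Subtype.ext h)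
  have hV0 : (vandermonde b).det ≠ 0 := det_vandermonde_ne_zero_iff.2 hbinj
  have hVmap : (vandermonde β).map R'.subtype = vandermonde b := by
    ext i i'
    simp [vandermonde, β]
  have hVc : (((vandermonde β).det : R') : ℂ) = (vandermonde b).det := by
    rw [← hVmap]
    exact R'.subtype.map_det _
  have hV : IsUnit (vandermonde β).det :=
    arith_unit _ (by rwa [hVc]) (by rw [hVc]; exact hS _ (by simp))
  have hH' : sc (PowerSeries.X ^ ϱ) (mps ι (HF (tauF e I c) G Q)) =
      C (PowerSeries.X ^ v) * mps ι H1 := by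
    rw [← arith_mps_sc, hH, map_mul, arith_mps_CX]
  have hN' : (fun k => sc (PowerSeries.X ^ ϱ) (mps ι (NF (tauF e I c) G Q k))) =
      fun k => C (PowerSeries.X ^ v) * mps ι (N1 k) := by
    funext k
    rw [← arith_mps_sc, hN, map_mul, arith_mps_CX]
  refine ⟨ϱ, q, hϱ0, hϱe, hineq, v, j0, ι c0, hι0 _ hc0, ?_, fun K => ?_⟩
  · rw [hH', pow_succ, map_mul, map_mul, mul_assoc, ← mul_sub]
    refine mul_dvd_mul_left _ ?_
    rw [C_dvd_iff_dvd_coeff]
    intro i
    rw [PowerSeries.X_dvd_iff]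
    have h1 : red (mps ι H1 - C (PowerSeries.C (ι c0)) * X ^ j0) = 0 := by
      rw [map_sub, arith_red_mps, hrH]
      simp [red]
    have h2 := congrArg (fun P => P.coeff i) h1
    simpa only [red, coe_mapRingHom, coeff_map, coeff_zero] using h2
  · obtain ⟨P, hP⟩ := ho'
    obtain ⟨M, d, g, hd, hg, hdv⟩ := exists_nf hu0 hE hV hD' hβ
      ⟨P, fun p hp hlt κ _ _ φ => (hP p hp hlt κ φ).1⟩ K
    refine ⟨M, (d : ℂ) • (vandermonde b)ᵀ, g.map (mps R'.subtype), ?_, ?_, fun x y => ?_⟩
    · rw [det_smul, det_transpose]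
      exact mul_ne_zero (pow_ne_zero _ (Int.cast_ne_zero.2 hd)) hV0
    · ext x y : 2
      have := congrFun (congrFun hg x) y
      simp only [Matrix.map_apply, Matrix.smul_apply, smul_eq_mul, transpose_apply] at this ⊢
      rw [arith_red_mps, this, ← hVmap]
      simp
    · rw [hH', hN', arith_nfErr_mul, pow_add, map_mul, Matrix.smul_apply, smul_eq_mul]
      refine mul_dvd_mul_left _ ?_
      have h1 := congrFun (congrFun (nfErr_map R'.subtype (mps j H1) (fun k => mps j (N1 k))
        (fun i => β i - M) g) x) y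
      simp only [arith_mps_mps, hcomp, Matrix.map_apply] at h1
      have h2 : (fun i => R'.subtype (β i - M)) = fun i => (q i : ℂ) - M := by
        funext i
        rw [map_sub, map_natCast, ← hbq]
        rfl
      rw [h2] at h1
      rw [← h1, ← arith_mps_CX R'.subtype]
      exact _root_.map_dvd _ (hdv x y)

end Pool.Agent.GR
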