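import Pool.Agent.Lib.MP_aa40d3_nt.GR.ArcA
import Pool.Agent.Lib.MP_aa40d3_nt.GR.Puiseux

/-! The loop around an initial cluster has an admissible characteristic polynomial. -/

open Polynomial Matrix Set Filter Topology
open scoped Matrix.Norms.Operator

namespace Pool.Agent.GR

variable {n r : ℕ} [NeZero r]

/-- The monodromy tuple joined from below. -/
noncomputable def mon (M : Model n r) (H : ℝ) (y : (Fin n ⊕ Fin M.m → ℂ) × ℂ) : Fin n → (Mat r)ˣ :=
  vt (TT (fun i => y.1 (Sum.inl i)) (M.mA y.1 y.2)) (pp fun i => y.1 (Sum.inl i)) H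

/-- The monodromy tuple joined from the left. -/
noncomputable def mos (M : Model n r) (H : ℝ) (y : (Fin n ⊕ Fin M.m → ℂ) × ℂ) : Fin n → (Mat r)ˣ :=
  vs (TT (fun i => y.1 (Sum.inl i)) (M.mA y.1 y.2)) (pp fun i => y.1 (Sum.inl i)) H

theorem diffU_mon (M : Model n r) {ρ : Fin n → ℝ} (hρ : Function.Injective ρ) {H : ℝ}
    {w : Fin n ⊕ Fin M.m → ℂ} (hw : w ∈ Cham M.m ρ H) (hG : ev1 w M.G ≠ 0) (θ : ℂ) (i : Fin n) :
    DiffU (fun y => mon M H y i) (w, θ) := by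
  exact diffU_vt (t := fun (y : (Fin n ⊕ Fin M.m → ℂ) × ℂ) i => y.1 (Sum.inl i))
    (A := fun y => M.mA y.1 y.2) (x := (w, θ)) (fun i => by fun_prop)
    (fun i => differentiableAt_mA M (y := (w, θ)) hG i) hw.1 (Cham.re_injective hρ hw) i

theorem diffU_mos (M : Model n r) {ρ : Fin n → ℝ} (hρ : Function.Injective ρ) {H : ℝ}
    {w : Fin n ⊕ Fin M.m → ℂ} (hw : w ∈ ChamI M.m ρ H) (hG : ev1 w M.G ≠ 0) (θ : ℂ) (i : Fin n) :
    DiffU (fun y => mos M H y i) (w, θ) := by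
  exact diffU_vs (t := fun (y : (Fin n ⊕ Fin M.m → ℂ) × ℂ) i => y.1 (Sum.inl i))
    (A := fun y => M.mA y.1 y.2) (x := (w, θ)) (fun i => by fun_prop)
    (fun i => differentiableAt_mA M (y := (w, θ)) hG i) hw.1 (ChamI.im_injective hρ hw) i

theorem arc_in {m : ℕ} {l : List (Fin n)} {i : Fin n} (h : i ∈ l) (a : ℂ)
    (w : Fin n ⊕ Fin m → ℂ) (s : ℂ) :
    (wstar l.toFinset a w + s • (w - wstar l.toFinset a w)) (Sum.inl i) =
      a + s * (w (Sum.inl i) - a) := by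
  simp [wstar, h]

theorem arc_out {m : ℕ} {l : List (Fin n)} {i : Fin n} (h : i ∉ l) (a : ℂ)
    (w : Fin n ⊕ Fin m → ℂ) (s : ℂ) :
    (wstar l.toFinset a w + s • (w - wstar l.toFinset a w)) (Sum.inl i) = w (Sum.inl i) := by
  simp [wstar, h]

theorem arc_lt {ρ : Fin n → ℝ} (hρ : Function.Injective ρ) {l : List (Fin n)} (hl : LowerL ρ l)
    {i j : Fin n} (hi : i ∈ l) (hj : j ∉ l) : ρ i < ρ j := by
  rcases lt_trichotomy (ρ i) (ρ j) with h | h | h
  · exact h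
  · exact absurd (hρ h ▸ hi) hj
  · exact absurd (hl.2 i hi j h) hj

/-- For `i₀ ∈ l`, `a = w (inl i₀)` and `0 < s ≤ 1` the point `w* + s • (w - w*)` stays in the
chamber (the points of `l` move inside their convex hull). -/
theorem arc_mem_Cham {m : ℕ} {ρ : Fin n → ℝ} (hρ : Function.Injective ρ) {H : ℝ}
    {l : List (Fin n)} (hl : LowerL ρ l) {i₀ : Fin n} (hi : i₀ ∈ l) {w : Fin n ⊕ Fin m → ℂ}
    (hw : w ∈ Cham m ρ H) {s : ℝ} (h0 : 0 < s) (h1 : s ≤ 1) :
    wstar l.toFinset (w (Sum.inl i₀)) w + (s : ℂ) • (w - wstar l.toFinset (w (Sum.inl i₀)) w) ∈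
      Cham m ρ H := by
  have hb := hw.1
  have hb0 := hb i₀
  simp only [pp, abs_lt] at hb0
  refine ⟨fun i => ?_, fun c d hcd => ?_⟩
  · have hbi := hb i
    simp only [pp, abs_lt] at hbi ⊢
    by_cases h : i ∈ l
    · rw [arc_in h]
      simp only [Complex.add_re, Complex.add_im, Complex.re_ofReal_mul, Complex.im_ofReal_mul,
        Complex.sub_re, Complex.sub_im]
      refine ⟨⟨?_, ?_⟩, ?_, ?_⟩ <;> nlinarith [hbi.1.1, hbi.1.2, hbi.2.1, hbi.2.2, hb0.1.1,
        hb0.1.2, hb0.2.1, hb0.2.2]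
    · rw [arc_out h]
      exact hbi
  · have hlt := hw.2 c d hcd
    by_cases hd : d ∈ l
    · rw [arc_in hd, arc_in (hl.2 d hd c hcd)]
      simp only [Complex.add_re, Complex.re_ofReal_mul, Complex.sub_re]
      nlinarith
    · rw [arc_out hd]
      by_cases hc : c ∈ l
      · have h2 := hw.2 i₀ d (arc_lt hρ hl hi hd)
        rw [arc_in hc]
        simp only [Complex.add_re, Complex.re_ofReal_mul, Complex.sub_re]
        nlinarith
      · rw [arc_out hc]
        exact hlt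

/-- `l = []` is `orr_empty`. Otherwise let `a = w (inl i₀)`, `w0 = wstar l.toFinset a w`,
`F' = M.F.map (lineHom w0 w)`, `G' = lineHom w0 w M.G` (nonzero at `1`) and
`e = (natDegree F')! * (2 * (r * r * (n + 1)) + 4)`. Take the branches `θ j` of `exists_puiseux` and
`ϱ j` from `arc_branch`. There is `δ ∈ (0, 1)` such that for real `z ∈ (0, δ)` and all `j` the
conclusion of `arc_branch` holds, the square of centre `a` and half side `z ^ ϱ j` lies in the box,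
contains the points of `l` (at distance `z ^ e * ‖w (inl i) - a‖` from `a`) and lies to the left of
the other points. By `prod_vt_conj`, `RL_TT`, `charpoly_of_isConj` the product has the
characteristic polynomial of the square loop. Every `s ∈ (0, δ ^ e)` is `z ^ e` and every root over
it is some `θ j z`. Conclude with `charpoly_cont`. -/
theorem arc (M : Model n r) {ρ : Fin n → ℝ} (hρ : Function.Injective ρ) {H : ℝ}
    {l : List (Fin n)} (hl : LowerL ρ l) {w : Fin n ⊕ Fin M.m → ℂ} (hw : w ∈ Cham M.m ρ H)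
    (hG : ev1 w M.G ≠ 0) {θ : ℂ} (hF : ev2 w θ M.F = 0) :
    Orr r M.ζ l.toFinset ((l.map (mon M H (w, θ))).prod.val).charpoly := by
  classical
  rcases List.eq_nil_or_concat l with rfl | ⟨l', i₀, hl'⟩
  · simpa using orr_empty (r := r) M.ζ
  have hi : i₀ ∈ l := by simp [hl']
  clear hl' l'
  obtain ⟨a, ha⟩ : ∃ a, a = w (Sum.inl i₀) := ⟨_, rfl⟩
  obtain ⟨w0, hw0⟩ : ∃ w0, w0 = wstar l.toFinset a w := ⟨_, rfl⟩
  have hFm : (M.F.map (lineHom w0 w)).Monic := M.monic.map _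
  have hG' : lineHom w0 w M.G ≠ 0 := by
    intro h
    have h1 := eval_lineHom w0 w 1 M.G
    rw [h, eval_zero, one_smul, add_sub_cancel] at h1
    exact hG h1.symm
  have hsep : ∀ u θ, (lineHom w0 w M.G).eval u ≠ 0 →
      (fib (M.F.map (lineHom w0 w)) u).eval θ = 0 →
      (derivative (fib (M.F.map (lineHom w0 w)) u)).eval θ ≠ 0 := by
    intro u θ h1 h2
    rw [eval_lineHom] at h1
    rw [fib_lineHom, ← ev2_eq_eval] at h2
    rw [fib_lineHom, derivative_map, ← ev2_eq_eval]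
    exact M.sep ℂ _ _ h2 h1
  obtain ⟨e, he⟩ : ∃ e, e = (M.F.map (lineHom w0 w)).natDegree.factorial *
    (2 * (r * r * (n + 1)) + 4) := ⟨_, rfl⟩
  have he1 : 2 * (r * r * (n + 1)) + 4 ≤ e := by
    rw [he]
    exact Nat.le_mul_of_pos_left _ (Nat.factorial_pos _)
  have he0 : 0 < e := by omega
  obtain ⟨ε, hε, θs, hθa, hθs⟩ := exists_puiseux _ hFm _ hG' hsep he0 (he ▸ dvd_mul_right _ _)
  have hout : ∀ j, j ∉ l → a.re < (w (Sum.inl j)).re := fun j hj =>
    ha ▸ hw.2 i₀ j (arc_lt hρ hl hi hj)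
  have hne : ∀ j, j ∉ l.toFinset → w (Sum.inl j) ≠ a := by
    intro j hj h
    have h1 := hout j (by simpa using hj)
    rw [h] at h1
    exact lt_irrefl _ h1
  have hbr : ∀ j, ∃ ϱ : ℕ, 0 < ϱ ∧ ϱ < e ∧ ∀ᶠ z in 𝓝[≠] (0 : ℂ), Orr r M.ζ l.toFinset
      (sqLoop (fun i => (w0 + z ^ e • (w - w0)) (Sum.inl i))
        (M.mA (w0 + z ^ e • (w - w0)) (θs j z) : Fin n → Mat r) a (z ^ ϱ)).charpoly := by
    intro j
    rw [hw0]
    refine arc_branch M l.toFinset a hne hG he1 (hθa j) ?_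
    filter_upwards [self_mem_nhdsWithin,
      mem_nhdsWithin_of_mem_nhds (Metric.ball_mem_nhds (0 : ℂ) hε)] with z hz hz'
    rw [← hw0, ev2_eq_eval, ← fib_lineHom, hθs z hz' hz, eval_prod]
    exact Finset.prod_eq_zero (Finset.mem_univ j) (by simp)
  choose ϱ hϱ0 hϱe hϱ using hbr
  have hbox := hw.1 i₀
  simp only [pp, abs_lt, ← ha] at hbox
  have htend : Tendsto (fun x : ℝ => (x : ℂ)) (𝓝[>] 0) (𝓝[≠] 0) := by
    refine tendsto_nhdsWithin_iff.2 ⟨?_, ?_⟩
    · have := (Complex.continuous_ofReal.tendsto 0).mono_left (nhdsWithin_le_nhds (s := Ioi 0))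
      simpa using this
    · filter_upwards [self_mem_nhdsWithin] with x hx
      exact Complex.ofReal_ne_zero.2 (ne_of_gt hx)
  have hsmall : ∀ c d : ℝ, 0 < d → ∀ᶠ x : ℝ in 𝓝[>] 0, x * c < d := by
    intro c d hd
    refine Eventually.filter_mono nhdsWithin_le_nhds ?_
    have : ContinuousAt (fun x : ℝ => x * c) 0 := by fun_prop
    exact this.eventually_lt continuousAt_const (by simpa using hd)
  have hev : ∀ᶠ x : ℝ in 𝓝[>] 0, (∀ j, Orr r M.ζ l.toFinset
      (sqLoop (fun i => (w0 + (x : ℂ) ^ e • (w - w0)) (Sum.inl i))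
        (M.mA (w0 + (x : ℂ) ^ e • (w - w0)) (θs j x) : Fin n → Mat r) a
          ((x : ℂ) ^ ϱ j)).charpoly) ∧ x * 1 < 1 ∧ x * 1 < ε ∧ x * 1 < a.re + H ∧
      x * 1 < a.im + H ∧ x * 1 < H - a.im ∧ (∀ i, x * ‖w (Sum.inl i) - a‖ < 1) ∧
      ∀ i, i ∉ l → x * 1 < (w (Sum.inl i)).re - a.re := by
    refine (htend.eventually (eventually_all.2 hϱ)).and ((hsmall _ _ one_pos).and
      ((hsmall _ _ hε).and ((hsmall _ _ (by linarith [hbox.1.1])).and
      ((hsmall _ _ (by linarith [hbox.2.1])).and ((hsmall _ _ (by linarith [hbox.2.2])).and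
      ((eventually_all.2 fun i => hsmall _ _ one_pos).and (eventually_all.2 fun i => ?_)))))))
    by_cases h : i ∈ l
    · exact Eventually.of_forall fun x hx => absurd h hx
    · filter_upwards [hsmall 1 _ (sub_pos.2 (hout i h))] with x hx _ using hx
  obtain ⟨δ, hδ, hδ'⟩ := mem_nhdsGT_iff_exists_Ioo_subset.1 hev
  have hδ0 : 0 < δ := hδ
  refine charpoly_cont M (isOpen_Cham ρ H) (convex_Cham ρ H)
    (fun y => (l.map (mon M H y)).prod)
    (fun w' hw' hG' θ' => DiffU.list_prod (fun i => diffU_mon M hρ hw' hG' θ' i) l) M.ζ l.toFinset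
    (w0 := w0) hw hG (pow_pos hδ0 e) (fun s hs => ?_) hF
  obtain ⟨x, hx0, hxs⟩ : ∃ x : ℝ, 0 < x ∧ x ^ e = s :=
    ⟨s ^ ((e : ℝ)⁻¹), Real.rpow_pos_of_pos hs.1 _, Real.rpow_inv_natCast_pow hs.1.le he0.ne'⟩
  have hxδ : x < δ := lt_of_pow_lt_pow_left₀ e hδ0.le (hxs ▸ hs.2)
  obtain ⟨h1, h2, h3, h4, h5, h6, h7, h8⟩ := hδ' ⟨hx0, hxδ⟩
  rw [mul_one] at h2 h3 h4 h5 h6
  have hs1 : s ≤ 1 := hxs ▸ pow_le_one₀ hx0.le h2.le
  have hmem : w0 + (s : ℂ) • (w - w0) ∈ Cham M.m ρ H := by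
    rw [hw0, ha]
    exact arc_mem_Cham hρ hl hi hw hs.1 hs1
  refine ⟨hmem, fun _ θ' hθ' => ?_⟩
  have hsx : (x : ℂ) ^ e = s := by rw [← hxs, Complex.ofReal_pow]
  obtain ⟨j, rfl⟩ : ∃ j, θ' = θs j x := by
    have hxb : (x : ℂ) ∈ Metric.ball (0 : ℂ) ε := by
      rw [mem_ball_zero_iff, Complex.norm_real, Real.norm_eq_abs, abs_of_pos hx0]
      exact h3
    rw [ev2_eq_eval, ← fib_lineHom, ← hsx, hθs x hxb (Complex.ofReal_ne_zero.2 hx0.ne'),
      eval_prod, Finset.prod_eq_zero_iff] at hθ'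
    obtain ⟨j, -, hj⟩ := hθ'
    exact ⟨j, by simpa [sub_eq_zero] using hj⟩
  have hO := h1 j
  rw [hsx, ← Complex.ofReal_pow, ← RL_TT] at hO
  obtain ⟨y, hy⟩ : ∃ y, y = x ^ ϱ j := ⟨_, rfl⟩
  rw [← hy] at hO
  have hy0 : 0 < y := hy ▸ pow_pos hx0 _
  have hyx : y ≤ x := hy ▸ pow_le_of_le_one hx0.le h2.le (hϱ0 j).ne'
  have hsy : s ≤ y * x := by
    rw [← hxs, hy, ← pow_succ]
    exact pow_le_pow_of_le_one hx0.le h2.le (hϱe j)
  have hconj := prod_vt_conj (rectT_TT (fun i => (w0 + (s : ℂ) • (w - w0)) (Sum.inl i))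
      (M.mA (w0 + (s : ℂ) • (w - w0)) (θs j x))) hmem.1 (Cham.re_injective hρ hmem)
    (Cham.lowerL hρ hmem hl) (x1 := a.re - y) (x2 := a.re + y) (y1 := a.im - y) (y2 := a.im + y)
    (by linarith) (by linarith) (by linarith) (by linarith) (by linarith) ?_ ?_
  · have h9 := charpoly_of_isConj hconj
    rw [← h9] at hO
    exact hO
  · intro c hc
    have hn : s * ‖w (Sum.inl c) - a‖ < y := by
      have h9 := h7 c
      have h10 := norm_nonneg (w (Sum.inl c) - a)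
      nlinarith
    have hre := abs_lt.1 (lt_of_le_of_lt (mul_le_mul_of_nonneg_left
      (Complex.abs_re_le_norm (w (Sum.inl c) - a)) hs.1.le) hn |>.trans_le' (by
        rw [abs_mul, abs_of_pos hs.1]) : |s * (w (Sum.inl c) - a).re| < y)
    have him := abs_lt.1 (lt_of_le_of_lt (mul_le_mul_of_nonneg_left
      (Complex.abs_im_le_norm (w (Sum.inl c) - a)) hs.1.le) hn |>.trans_le' (by
        rw [abs_mul, abs_of_pos hs.1]) : |s * (w (Sum.inl c) - a).im| < y)
    simp only [pp, hw0, arc_in hc, mem_prod, mem_Ioo, Complex.add_re, Complex.add_im,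
      Complex.re_ofReal_mul, Complex.im_ofReal_mul]
    refine ⟨⟨?_, ?_⟩, ?_, ?_⟩ <;> linarith [hre.1, hre.2, him.1, him.2]
  · intro c hc
    have h9 := h8 c hc
    simp only [pp, hw0, arc_out hc]
    linarith

end Pool.Agent.GR
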