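import Mathlib

/-! The theorem of Eisenstein on algebraic power series. -/

open Polynomial Set

namespace Pool.Agent.GR

/-- Power series with all coefficients in a subring. -/
def eisSub (R : Subring ℂ) : Subring (PowerSeries ℂ) where
  carrier := {f | ∀ i, PowerSeries.coeff i f ∈ R}
  mul_mem' := fun {a b} ha hb i => by
    rw [PowerSeries.coeff_mul]
    exact R.sum_mem fun x _ => R.mul_mem (ha _) (hb _)
  one_mem' := fun i => by
    rw [PowerSeries.coeff_one]
    split_ifs
    · exact R.one_mem
    · exact R.zero_mem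
  add_mem' := fun {a b} ha hb i => by
    rw [map_add]
    exact R.add_mem (ha i) (hb i)
  zero_mem' := fun i => by
    rw [map_zero]
    exact R.zero_mem
  neg_mem' := fun {a} ha i => by
    rw [map_neg]
    exact R.neg_mem (ha i)

/-- Let `m` be the order of `F' (θ)` and `c` its coefficient of degree `m`; put in `S` the
coefficients of `θ` of index `≤ m` and `c⁻¹`. For `N > m` let `θ_N = trunc N θ` and `η = θ - θ_N`
(divisible by `X ^ N`). By `Polynomial.evalSubFactor` or `aeval_add_of_sq_eq_zero`-type Taylor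
formulas (`Polynomial.binomExpansion` at `θ` with increment `-η`),
`F (θ_N) = -F' (θ) η + k η ^ 2`; the coefficient of degree `N + m` gives
`coeff (N + m) (F (θ_N)) = -c * coeff N θ`. Strong induction on `N`. -/
theorem eisenstein (R : Subring ℂ) (F : (PowerSeries ℂ)[X])
    (hF : ∀ j i, PowerSeries.coeff i (F.coeff j) ∈ R) {θ : PowerSeries ℂ} (h0 : F.eval θ = 0)
    (h1 : (derivative F).eval θ ≠ 0) :
    ∃ S : Finset ℂ, ∀ i, PowerSeries.coeff i θ ∈ Subring.closure ((R : Set ℂ) ∪ S) := by
  classical
  obtain ⟨m, hc, hm⟩ : ∃ m : ℕ, PowerSeries.coeff m ((derivative F).eval θ) ≠ 0 ∧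
      ∀ i < m, PowerSeries.coeff i ((derivative F).eval θ) = 0 :=
    ⟨_, PowerSeries.coeff_order h1, fun i hi => PowerSeries.coeff_of_lt_order_toNat i hi⟩
  obtain ⟨u, hu⟩ := PowerSeries.X_pow_dvd_iff.2 hm
  let S : Finset ℂ := insert (PowerSeries.coeff m ((derivative F).eval θ))⁻¹
    ((Finset.range (m + 1)).image fun i => PowerSeries.coeff i θ)
  refine ⟨S, fun N => ?_⟩
  induction N using Nat.strong_induction_on with
  | _ N ih =>
    by_cases hN : N < m + 1
    · exact Subring.subset_closure (Or.inr (Finset.mem_coe.2 (Finset.mem_insert_of_mem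
        (Finset.mem_image.2 ⟨N, Finset.mem_range.2 hN, rfl⟩))))
    have ht : ((PowerSeries.trunc N θ : ℂ[X]) : PowerSeries ℂ) ∈
        eisSub (Subring.closure ((R : Set ℂ) ∪ S)) := fun i => by
      rw [Polynomial.coeff_coe, PowerSeries.coeff_trunc]
      split_ifs with hi
      · exact ih i hi
      · exact Subring.zero_mem _
    have hE : F.eval ((PowerSeries.trunc N θ : ℂ[X]) : PowerSeries ℂ) ∈
        eisSub (Subring.closure ((R : Set ℂ) ∪ S)) := by
      rw [eval_eq_sum_range]
      exact Subring.sum_mem _ fun j _ => Subring.mul_mem _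
        (fun i => Subring.subset_closure (Or.inl (hF j i))) (Subring.pow_mem _ ht j)
    obtain ⟨e, he⟩ : PowerSeries.X ^ N ∣ ((PowerSeries.trunc N θ : ℂ[X]) : PowerSeries ℂ) - θ :=
      PowerSeries.X_pow_dvd_iff.2 fun i hi => by
        rw [map_sub, Polynomial.coeff_coe, PowerSeries.coeff_trunc, if_pos hi, sub_self]
    obtain ⟨k, hk⟩ := F.binomExpansion θ (PowerSeries.X ^ N * e)
    rw [← he, add_sub_cancel, he, h0, zero_add, hu] at hk
    have h2 : PowerSeries.coeff N θ = -PowerSeries.coeff 0 e := by
      have h3 := congrArg (PowerSeries.coeff N) he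
      rw [map_sub, Polynomial.coeff_coe, PowerSeries.coeff_trunc, if_neg (lt_irrefl N), zero_sub,
        PowerSeries.coeff_X_pow_mul', if_pos le_rfl, Nat.sub_self] at h3
      rw [← h3, neg_neg]
    have h3 : PowerSeries.coeff m ((derivative F).eval θ) = PowerSeries.coeff 0 u := by
      rw [hu, PowerSeries.coeff_X_pow_mul', if_pos le_rfl, Nat.sub_self]
    have h4 := hE (m + N)
    rw [hk, show PowerSeries.X ^ m * u * (PowerSeries.X ^ N * e) =
        PowerSeries.X ^ (m + N) * (u * e) by ring,
      show k * (PowerSeries.X ^ N * e) ^ 2 = PowerSeries.X ^ (2 * N) * (k * e ^ 2) by ring,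
      map_add, PowerSeries.coeff_X_pow_mul', PowerSeries.coeff_X_pow_mul', if_pos le_rfl,
      if_neg (by omega), add_zero, Nat.sub_self, PowerSeries.coeff_zero_eq_constantCoeff_apply,
      map_mul, ← PowerSeries.coeff_zero_eq_constantCoeff_apply,
      ← PowerSeries.coeff_zero_eq_constantCoeff_apply, ← h3] at h4
    have h5 : (PowerSeries.coeff m ((derivative F).eval θ))⁻¹ ∈
        Subring.closure ((R : Set ℂ) ∪ S) :=
      Subring.subset_closure (Or.inr (Finset.mem_coe.2 (Finset.mem_insert_self _ _)))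
    have h6 := Subring.mul_mem _ h5 h4
    rw [inv_mul_cancel_left₀ hc] at h6
    rw [h2]
    exact Subring.neg_mem _ h6

end Pool.Agent.GR
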