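import Pool.Agent.Lib.MP_aa40d3_nt.GR.Cont
import Pool.Agent.Lib.MP_aa40d3_nt.GR.Arith
import Pool.Agent.Lib.MP_aa40d3_nt.GR.Eis

/-! The formal arc that collapses the points in `I`. -/

open Polynomial Matrix Set

namespace Pool.Agent.GR

variable {n r m : ℕ}

/-- The limit parameter: the points in `I` are moved to `a`. -/
def wstar (I : Finset (Fin n)) (a : ℂ) (w : Fin n ⊕ Fin m → ℂ) : Fin n ⊕ Fin m → ℂ
  | Sum.inl i => if i ∈ I then a else w (Sum.inl i)
  | Sum.inr j => w (Sum.inr j)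

/-- The arc `w* + z ^ e (w - w*)`, as polynomials in `z`. -/
noncomputable def wpol (I : Finset (Fin n)) (a : ℂ) (w : Fin n ⊕ Fin m → ℂ) (e : ℕ) :
    Fin n ⊕ Fin m → ℂ[X] :=
  fun s => C (wstar I a w s) + C (w s - wstar I a w s) * X ^ e

/-- The arc over a ring of definition. -/
noncomputable def arcf_W {R : Type} [CommRing R] (I : Finset (Fin n)) (a : R)
    (w : Fin n ⊕ Fin m → R) (e : ℕ) : Fin n ⊕ Fin m → PowerSeries R
  | Sum.inl i => tauF e I (fun j => w (Sum.inl j) - a) i + PowerSeries.C a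
  | Sum.inr j => PowerSeries.C (w (Sum.inr j))

theorem arcf_map {R : Type} [CommRing R] (ι : R →+* ℂ) (I : Finset (Fin n)) (a : R)
    (w : Fin n ⊕ Fin m → R) (e : ℕ) (s : Fin n ⊕ Fin m) :
    PowerSeries.map ι (arcf_W I a w e s) =
      (wpol I (ι a) (fun s => ι (w s)) e s : PowerSeries ℂ) := by
  rcases s with i | j
  · by_cases hi : i ∈ I
    · simp [arcf_W, tauF, wpol, wstar, hi]
      ring
    · simp [arcf_W, tauF, wpol, wstar, hi]
  · simp [arcf_W, wpol, wstar]

theorem arcf_inj {R : Type} [CommRing R] {ι : R →+* ℂ} (hι : Function.Injective ι) :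
    Function.Injective (PowerSeries.map ι) := fun x y h => by
  ext k
  apply hι
  rw [← PowerSeries.coeff_map, ← PowerSeries.coeff_map, h]

/-- Let `W s = (wpol I a w e s : PowerSeries ℂ)` and `Fs = M.F.map (ev1 W)`; `Fs.eval ϑ = 0` and
`(derivative Fs).eval ϑ ≠ 0` by `M.sep` over the field `FF ℂ` (`map_ev1`, `map_ev2`,
`ev2_eq_eval`). The coefficients of `Fs` lie in `R₀ = closure (range w ∪ {a})`, so `eisenstein`
gives `S`; let `R = closure (S ∪ image w ∪ {a})` (`finiteType_closure`), `ι = R.subtype`. Lift `W`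
and `ϑ` to `W'`, `ϑ'` over `R` (`PowerSeries.mk`), put `G' = ev1 W' M.G`,
`Q' i = (M.Q i).map (ev2 W' ϑ')`, `c i = w (inl i) - a`, so that `W' (inl i) = tauF e I c i + C a`.
`PowerSeries.map ι` is injective, so `ev2 W' ϑ' M.F = 0` and `G' ≠ 0`. `Orc` follows from `M.good`,
`M.fund` over `FF κ` at the point `toF φ ∘ W'`, `toF φ ϑ'`, with `GoodSys.aff`, `hasFund_aff`
(`c = 1`). Apply `arith` and rewrite with `HF_map`, `NF_map`. -/
theorem arc_formal [NeZero r] (M : Model n r) (I : Finset (Fin n)) (a : ℂ)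
    {w : Fin n ⊕ Fin M.m → ℂ} (ha : ∀ j, j ∉ I → w (Sum.inl j) ≠ a) {e : ℕ}
    (he : 2 * (r * r * (n + 1)) + 4 ≤ e) {ϑ : PowerSeries ℂ}
    (hF : ev2 (fun s => (wpol I a w e s : PowerSeries ℂ)) ϑ M.F = 0)
    (hG : ev1 (fun s => (wpol I a w e s : PowerSeries ℂ)) M.G ≠ 0) :
    ∃ (ϱ : ℕ) (β : Fin r → ℚ), 0 < ϱ ∧ ϱ < e ∧ IneqQ r I (fun i => (M.a i : ℚ) / M.D) β ∧
      NFData (sc (PowerSeries.X ^ ϱ)
          (HF (fun i => (wpol I a w e (Sum.inl i) : PowerSeries ℂ) - PowerSeries.C a)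
            (ev1 (fun s => (wpol I a w e s : PowerSeries ℂ)) M.G)
            fun i => (M.Q i).map (ev2 (fun s => (wpol I a w e s : PowerSeries ℂ)) ϑ)))
        (fun k => sc (PowerSeries.X ^ ϱ)
          (NF (fun i => (wpol I a w e (Sum.inl i) : PowerSeries ℂ) - PowerSeries.C a)
            (ev1 (fun s => (wpol I a w e s : PowerSeries ℂ)) M.G)
            (fun i => (M.Q i).map (ev2 (fun s => (wpol I a w e s : PowerSeries ℂ)) ϑ)) k))
        fun j => (β j : ℂ) := by
  classical
  set W : Fin n ⊕ Fin M.m → PowerSeries ℂ := fun s => (wpol I a w e s : PowerSeries ℂ) with hW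
  -- the derivative does not vanish
  have hinj : Function.Injective (algebraMap (PowerSeries ℂ) (FF ℂ)) :=
    IsFractionRing.injective _ _
  have hsep : ev2 W ϑ (derivative M.F) ≠ 0 := by
    intro h0
    refine M.sep (FF ℂ) (fun s => algebraMap _ (FF ℂ) (W s)) (algebraMap _ (FF ℂ) ϑ) ?_ ?_ ?_
    · rw [← map_ev2, hF, map_zero]
    · rw [← map_ev1]
      exact fun h => hG (hinj (h.trans (map_zero _).symm))
    · rw [← map_ev2, h0, map_zero]
  -- first ring of definition
  let S0 : Finset ℂ := insert a (Finset.univ.image w)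
  have lift : ∀ R : Subring ℂ, (S0 : Set ℂ) ⊆ R → ∃ (a' : R) (w' : Fin n ⊕ Fin M.m → R),
      (a' : ℂ) = a ∧ (∀ s, (w' s : ℂ) = w s) ∧
        ∀ s, PowerSeries.map R.subtype (arcf_W I a' w' e s) = W s := by
    intro R hR
    have h1 : a ∈ R := hR (by simp [S0])
    have h2 : ∀ s, w s ∈ R := fun s => hR (by simp [S0])
    exact ⟨⟨a, h1⟩, fun s => ⟨w s, h2 s⟩, rfl, fun _ => rfl, fun s => arcf_map _ I _ _ e s⟩
  obtain ⟨a0, w0, -, -, hW0⟩ := lift (Subring.closure (S0 : Set ℂ)) Subring.subset_closure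
  obtain ⟨S, hS⟩ := eisenstein (Subring.closure (S0 : Set ℂ)) (M.F.map (ev1 W)) (θ := ϑ)
    (fun j i => by
      rw [coeff_map]
      have : ev1 W (M.F.coeff j) = PowerSeries.map (Subring.closure (S0 : Set ℂ)).subtype
          (ev1 (arcf_W I a0 w0 e) (M.F.coeff j)) := by
        rw [map_ev1]
        simp only [hW0]
      rw [this, PowerSeries.coeff_map]
      exact Subtype.property _)
    (by rw [← ev2_eq_eval]; exact hF)
    (by rw [derivative_map, ← ev2_eq_eval]; exact hsep)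
  let R : Subring ℂ := Subring.closure ((S0 ∪ S : Finset ℂ) : Set ℂ)
  have : Algebra.FiniteType ℤ R := finiteType_closure _
  have hS0 : (S0 : Set ℂ) ⊆ R := fun x hx => Subring.subset_closure (by
    rw [Finset.coe_union]
    exact Or.inl hx)
  have hϑ : ∀ i, PowerSeries.coeff i ϑ ∈ R := fun i => by
    refine Subring.closure_le.2 ?_ (hS i)
    rintro x (hx | hx)
    · exact Subring.closure_le.2 hS0 hx
    · exact Subring.subset_closure (by
        rw [Finset.coe_union]
        exact Or.inr hx)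
  obtain ⟨a', w', ha', hw', hW'⟩ := lift R hS0
  let ϑ' : PowerSeries R := PowerSeries.mk fun i => ⟨_, hϑ i⟩
  have hϑ' : PowerSeries.map R.subtype ϑ' = ϑ := by
    ext i
    simp [ϑ']
  have hι : Function.Injective R.subtype := Subtype.coe_injective
  set W' := arcf_W I a' w' e with hWd
  have e1 : ∀ q, PowerSeries.map R.subtype (ev1 W' q) = ev1 W q := fun q => by
    rw [map_ev1]
    simp only [hW']
  have e2 : ∀ q, PowerSeries.map R.subtype (ev2 W' ϑ' q) = ev2 W ϑ q := fun q => by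
    rw [map_ev2, hϑ']
    simp only [hW']
  have hF' : ev2 W' ϑ' M.F = 0 := arcf_inj hι (by rw [e2, hF, map_zero])
  have hG' : ev1 W' M.G ≠ 0 := fun h => hG (by rw [← e1, h, map_zero])
  have hc : ∀ j, j ∉ I → w' (Sum.inl j) - a' ≠ 0 := fun j hj h => ha j hj (by
    rw [← hw', ← ha', sub_eq_zero.1 h])
  have hWi : ∀ i, W' (Sum.inl i) =
      tauF e I (fun j => w' (Sum.inl j) - a') i + PowerSeries.C a' := fun _ => rfl
  clear_value W' ϑ'
  have ho : Orc M.D M.a (tauF e I fun j => w' (Sum.inl j) - a') (ev1 W' M.G)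
      fun i => (M.Q i).map (ev2 W' ϑ') := by
    refine ⟨M.P0, fun p hp hp0 κ _ _ φ hφ => ?_⟩
    have hinj' : Function.Injective (algebraMap (PowerSeries κ) (FF κ)) :=
      IsFractionRing.injective _ _
    have f1 : ev2 (fun s => toF φ (W' s)) (toF φ ϑ') M.F = 0 := by
      rw [← map_ev2, hF', map_zero]
    have f2 : ev1 (fun s => toF φ (W' s)) M.G ≠ 0 := by
      rw [← map_ev1]
      exact fun h => hφ (hinj' (h.trans (map_zero _).symm))
    have f3 : CharP (FF κ) p := charP_of_injective_ringHom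
      (f := (algebraMap (PowerSeries κ) (FF κ)).comp PowerSeries.C)
      (hinj'.comp PowerSeries.C_injective) p
    have f4 : (fun i => (toF φ (ev1 W' M.G))⁻¹ • ((M.Q i).map (ev2 W' ϑ')).map (toF φ)) =
        fun i => (ev1 (fun s => toF φ (W' s)) M.G)⁻¹ •
          (M.Q i).map (ev2 (fun s => toF φ (W' s)) (toF φ ϑ')) := by
      funext i
      rw [map_ev1]
      congr 1
      ext b c
      simp only [Matrix.map_apply]
      rw [map_ev2]
    have f5 : ∀ i, toF φ (W' (Sum.inl i)) =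
        1 * toF φ (tauF e I (fun j => w' (Sum.inl j) - a') i) + toF φ (PowerSeries.C a') :=
      fun i => by
        rw [one_mul, ← map_add, hWi]
    rw [f4]
    have f6 := M.fund (FF κ) (fun s => toF φ (W' s)) (toF φ ϑ') f1 f2 p hp hp0 f3
    have f7 := M.good (FF κ) (fun s => toF φ (W' s)) (toF φ ϑ') f1 f2
    exact ⟨GoodSys.aff (t := fun i => toF φ (W' (Sum.inl i))) one_ne_zero f5 f7,
      hasFund_aff (t := fun i => toF φ (W' (Sum.inl i))) one_ne_zero f5 f6⟩
  obtain ⟨ϱ, β, h1, h2, h3, h4⟩ := arith R.subtype hι M.D_pos M.not_dvd I he hc hG' ho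
  refine ⟨ϱ, β, h1, h2, h3, ?_⟩
  have g1 : (fun i => PowerSeries.map R.subtype (tauF e I (fun j => w' (Sum.inl j) - a') i)) =
      fun i => W (Sum.inl i) - PowerSeries.C a := by
    funext i
    rw [← hW', ← ha', hWi, map_add, PowerSeries.map_C, eq_sub_iff_add_eq]
    rfl
  have g2 : (fun i => ((M.Q i).map (ev2 W' ϑ')).map (PowerSeries.map R.subtype)) =
      fun i => (M.Q i).map (ev2 W ϑ) := by
    funext i
    refine Matrix.ext fun b c => ?_
    simp only [Matrix.map_apply]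
    exact e2 _
  simp only [mps, coe_mapRingHom] at h4
  simp only [HF_map, NF_map] at h4
  rw [g1, g2, e1] at h4
  exact h4

end Pool.Agent.GR
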