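import Pool.Agent.Lib.MP_aa40d3_nt.GR.ArgA

/-! The different forms of the exponent inequalities. -/

open Polynomial Complex

namespace Pool.Agent.GR

variable {n r : ℕ}

theorem arg_bind (ν : Multiset LL) :
    (ν >>= fun a => (pure (a : ℂ) : Multiset ℂ)) = ν.map Subtype.val :=
  Multiset.bind_singleton _ _

theorem orr_empty (ζ : Fin n → LL) : Orr r ζ ∅ (1 : Matrix (Fin r) (Fin r) ℂ).charpoly := by
  refine ⟨fun _ => 1, fun _ => IsOfFinOrder.one, ?_, fun σ J hJ => ?_⟩
  · rw [Matrix.charpoly_one]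
    simp
  · rw [Finset.subset_empty.1 hJ]
    simp [a01_one]

/-- `LL` is countable (`Algebra.IsAlgebraic.countable` or `Algebraic.countable`). -/
theorem countable_orr (ζ : Fin n → LL) (I : Finset (Fin n)) : {q | Orr r ζ I q}.Countable := by
  have : Countable LL := by
    have h := (Algebraic.countable ℚ ℂ).to_subtype
    exact Function.Injective.countable
      (f := fun z : LL => (⟨z.1, mem_algebraicClosure_iff.1 z.2⟩ : {x : ℂ | IsAlgebraic ℚ x}))
      fun a b hab => Subtype.ext (Subtype.mk.inj hab)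
  refine (Set.countable_range fun ω : Fin r → LL => ∏ j, (X - C (ω j : ℂ))).mono ?_
  rintro q ⟨ω, -, h, -⟩
  exact ⟨ω, h.symm⟩

/-- The roots of `q'` satisfy `roots q' + r • {1} = roots q + |I| • {1}`; they all come from `LL`.
For every function `φ` on `LL` the sums satisfy the same relation; take `J = ∅` and `J = {a}`. -/
theorem gor_of_orr {ζ : Fin n → LL} {I : Finset (Fin n)} {q q' : ℂ[X]} (h : Orr r ζ I q)
    (hq' : q'.Monic) (he : (X - 1) ^ I.card * q = (X - 1) ^ r * q') : GOr ζ I q' := by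
  obtain ⟨ω, hω, hq, hin⟩ := h
  have h1 : (X - 1 : ℂ[X]) ≠ 0 := X_sub_C_ne_zero 1
  have h2 : (X - 1 : ℂ[X]).roots = {1} := roots_X_sub_C 1
  have h3 : q = ((Finset.univ.val.map fun j => (ω j : ℂ)).map fun a => X - C a).prod := by
    rw [hq, Multiset.map_map]
    rfl
  have h4 : q ≠ 0 := by
    rw [hq]
    exact (monic_prod_of_monic _ _ fun j _ => monic_X_sub_C _).ne_zero
  have h5 := congrArg roots he
  rw [roots_mul (mul_ne_zero (pow_ne_zero _ h1) h4),
    roots_mul (mul_ne_zero (pow_ne_zero _ h1) hq'.ne_zero), roots_pow, roots_pow, h2, h3,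
    roots_multiset_prod_X_sub_C] at h5
  have h6 : ∀ z ∈ q'.roots, ∃ w : LL, (w : ℂ) = z := by
    intro z hz
    have h7 := h5 ▸ Multiset.mem_add.2 (Or.inr hz)
    rcases Multiset.mem_add.1 h7 with h8 | h8
    · exact ⟨1, (Multiset.mem_singleton.1 (Multiset.mem_of_mem_nsmul h8)).symm⟩
    · obtain ⟨j, -, hj⟩ := Multiset.mem_map.1 h8
      exact ⟨ω j, hj⟩
  choose! g hg using h6
  obtain ⟨ν, hν⟩ : ∃ ν : Multiset LL, ν.map Subtype.val = q'.roots := by
    refine ⟨q'.roots.map g, ?_⟩
    rw [Multiset.map_map]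
    exact (Multiset.map_congr rfl hg).trans (Multiset.map_id' _)
  have h7 : I.card • ({1} : Multiset LL) + Finset.univ.val.map ω = r • {1} + ν := by
    refine Multiset.map_injective Subtype.val_injective ?_
    rw [Multiset.map_add, Multiset.map_add, Multiset.map_nsmul, Multiset.map_nsmul,
      Multiset.map_map, hν]
    exact h5
  have h8 : ∀ φ : LL → ℝ, (ν.map φ).sum = ∑ j, φ (ω j) + (I.card - r) * φ 1 := by
    intro φ
    have h9 := congrArg (fun s : Multiset LL => (s.map φ).sum) h7
    simp only [Multiset.map_add, Multiset.sum_add, Multiset.map_nsmul, Multiset.sum_nsmul,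
      Multiset.map_singleton, Multiset.sum_singleton, nsmul_eq_mul, Multiset.map_map] at h9
    have h10 : (Finset.univ.val.map (φ ∘ ω)).sum = ∑ j, φ (ω j) := rfl
    rw [h10] at h9
    linear_combination -h9
  refine ⟨ν, fun z hz => ?_, ?_, fun σ => ⟨?_, fun a ha => ?_⟩⟩
  · have h9 := h7 ▸ Multiset.mem_add.2 (Or.inr hz)
    rcases Multiset.mem_add.1 h9 with h10 | h10
    · rw [Multiset.mem_singleton.1 (Multiset.mem_of_mem_nsmul h10)]
      exact IsOfFinOrder.one
    · obtain ⟨j, -, rfl⟩ := Multiset.mem_map.1 h10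
      exact hω j
  · rw [arg_bind, hν]
    exact (IsAlgClosed.splits q').eq_prod_roots_of_monic hq'
  · have h9 := hin σ ∅ (Finset.empty_subset I)
    rw [Multiset.map_map, h8]
    simpa [a01_one] using h9
  · have h9 := hin σ {a} (Finset.singleton_subset_iff.2 ha)
    rw [Multiset.map_map, h8]
    simp only [Finset.prod_singleton, Finset.sum_singleton, Finset.sdiff_singleton_eq_erase] at h9
    simp only [Function.comp, map_one, one_div]
    linarith

/-- Apply `GOr` to `σ` and to its complex conjugate; `q₀` is the product over `ν` because the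
inclusion of `LL` is injective. -/
theorem wor_of_gor {ζ : Fin n → LL} (hζ : ∀ i, IsOfFinOrder (ζ i)) {I : Finset (Fin n)}
    {q₀ : LL[X]} (h : GOr ζ I (q₀.map (algebraMap LL ℂ))) (σ : LL →+* ℂ) :
    WOr (fun i => σ (ζ i)) I (q₀.map σ) := by
  obtain ⟨ν, hν, hq, hin⟩ := h
  have h1 : q₀ = (ν.map fun z => X - C z).prod := by
    refine map_injective (algebraMap LL ℂ) (algebraMap LL ℂ).injective ?_
    rw [hq, arg_bind, Polynomial.map_multiset_prod, Multiset.map_map, Multiset.map_map]
    congr 1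
    refine Multiset.map_congr rfl fun z _ => ?_
    simp
  refine ⟨ν.map σ, fun z hz => ?_, ?_, hin σ, ?_⟩
  · obtain ⟨w, hw, rfl⟩ := Multiset.mem_map.1 hz
    exact norm_of_isOfFinOrder σ (hν w hw)
  · rw [h1, Polynomial.map_multiset_prod, Multiset.map_map, Multiset.map_map]
    congr 1
    refine Multiset.map_congr rfl fun z _ => ?_
    simp
  · have h2 := hin ((starRingEnd ℂ).comp σ)
    have h3 : (fun i => (starRingEnd ℂ).comp σ (ζ i)) = fun i => (σ (ζ i))⁻¹ :=
      funext fun i => (Complex.inv_eq_conj (norm_of_isOfFinOrder σ (hζ i))).symm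
    have h4 : ν.map ((starRingEnd ℂ).comp σ) = (ν.map σ).map fun z => z⁻¹ := by
      rw [Multiset.map_map]
      exact Multiset.map_congr rfl fun z hz =>
        (Complex.inv_eq_conj (norm_of_isOfFinOrder σ (hν z hz))).symm
    rwa [h3, h4] at h2

/-- The value at `1` is a product of numbers `1 - z` with `z` a root of unity. -/
theorem GOr.isIntegral {ζ : Fin n → LL} {I : Finset (Fin n)} {q : ℂ[X]} (h : GOr ζ I q) :
    IsIntegral ℤ (q.eval 1) := by
  obtain ⟨ν, hν, hq, -⟩ := h
  rw [hq, arg_bind, eval_multiset_prod, Multiset.map_map, Multiset.map_map]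
  refine IsIntegral.multiset_prod fun x hx => ?_
  obtain ⟨z, hz, rfl⟩ := Multiset.mem_map.1 hx
  obtain ⟨m, hm, h1⟩ := isOfFinOrder_iff_pow_eq_one.1 (hν z hz)
  have h2 : (z : ℂ) ^ m = 1 := by exact_mod_cast congrArg (Subtype.val : LL → ℂ) h1
  have h3 : IsIntegral ℤ (z : ℂ) := IsIntegral.of_pow hm (by rw [h2]; exact isIntegral_one)
  simpa using isIntegral_one.sub h3

end Pool.Agent.GR
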