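import Pool.Agent.Lib.MP_aa40d3_nt.GR.DefsG
import Pool.Agent.Lib.MP_aa40d3_nt.GR.DefsA

/-! Arguments of roots of unity. -/

open Polynomial Complex

namespace Pool.Agent.GR

variable {n r : ℕ}

theorem a01_exp (x : ℝ) : a01 (exp (2 * Real.pi * I * x)) = Int.fract x := by
  have hpi : (0 : ℝ) < 2 * Real.pi := Real.two_pi_pos
  have e : (2 * Real.pi * I * x : ℂ) = ((2 * Real.pi * x : ℝ) : ℂ) * I := by
    push_cast; ring
  rw [a01, e, Complex.arg_exp_mul_I, toIocMod, Int.fract_eq_fract]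
  refine ⟨-toIocDiv (mul_pos two_pos Real.pi_pos) (-Real.pi) (2 * Real.pi * x), ?_⟩
  rw [zsmul_eq_mul]
  push_cast
  field_simp
  ring

theorem a01_nonneg (z : ℂ) : 0 ≤ a01 z := Int.fract_nonneg _

theorem a01_lt_one (z : ℂ) : a01 z < 1 := Int.fract_lt_one _

theorem a01_one : a01 1 = 0 := by
  simp [a01]

theorem exp_a01 {z : ℂ} (hz : ‖z‖ = 1) : exp (2 * Real.pi * I * a01 z) = z := by
  have hpi : (Real.pi : ℂ) ≠ 0 := ofReal_ne_zero.2 Real.pi_ne_zero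
  have h := Complex.norm_mul_exp_arg_mul_I z
  rw [hz, ofReal_one, one_mul] at h
  conv_rhs => rw [← h]
  rw [Complex.exp_eq_exp_iff_exists_int]
  refine ⟨-⌊arg z / (2 * Real.pi)⌋, ?_⟩
  rw [a01, Int.fract]
  push_cast
  field_simp
  ring

theorem a01_pos {z : ℂ} (hz : ‖z‖ = 1) (h1 : z ≠ 1) : 0 < a01 z := by
  refine lt_of_le_of_ne (a01_nonneg z) fun h => h1 ?_
  rw [← exp_a01 hz, ← h]
  simp

theorem a01_inv {z : ℂ} (hz : ‖z‖ = 1) (h1 : z ≠ 1) : a01 z⁻¹ = 1 - a01 z := by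
  have e : z⁻¹ = exp (2 * Real.pi * I * ((-a01 z : ℝ) : ℂ)) := by
    conv_lhs => rw [← exp_a01 hz]
    rw [← Complex.exp_neg]
    push_cast
    ring_nf
  have hf : Int.fract (a01 z) = a01 z := Int.fract_eq_self.2 ⟨a01_nonneg z, a01_lt_one z⟩
  rw [e, a01_exp, Int.fract_neg (by rw [hf]; exact (a01_pos hz h1).ne'), hf]

/-- `1 - e^{2 π i x} = -2 i sin (π x) e^{π i x}`. -/
theorem one_sub_eq {z : ℂ} (hz : ‖z‖ = 1) :
    1 - z = -2 * I * Real.sin (Real.pi * a01 z) * exp (Real.pi * I * a01 z) := by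
  conv_lhs => rw [← exp_a01 hz]
  set x : ℂ := (Real.pi : ℂ) * a01 z with hx
  have e1 : (2 * Real.pi * I * a01 z : ℂ) = x * I + x * I := by rw [hx]; ring
  have e2 : (Real.pi * I * a01 z : ℂ) = x * I := by rw [hx]; ring
  have e3 : ((Real.sin (Real.pi * a01 z) : ℝ) : ℂ) = Complex.sin x := by
    rw [hx]; push_cast; rfl
  have e4 : exp (-x * I) * exp (x * I) = 1 := by
    rw [← Complex.exp_add]; simp
  rw [e1, e2, e3, Complex.exp_add, Complex.sin]
  linear_combination (-1 : ℂ) * e4 +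
    (exp (-x * I) - exp (x * I)) * exp (x * I) * Complex.I_mul_I

theorem arga_pow (q : ℚ) : exp (2 * Real.pi * I * q) ^ q.den = 1 := by
  rw [← Complex.exp_nat_mul, Complex.exp_eq_one_iff]
  refine ⟨q.num, ?_⟩
  have h : (q : ℂ) * q.den = q.num := by exact_mod_cast Rat.mul_den_eq_num q
  rw [← h]
  ring

theorem exp_rat_mem (q : ℚ) : exp (2 * Real.pi * I * q) ∈ algebraicClosure ℚ ℂ := by
  rw [mem_algebraicClosure_iff]
  refine IsAlgebraic.of_pow q.den_pos ?_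
  rw [arga_pow]
  exact isAlgebraic_one

/-- The root of unity `exp (2 π i q)` as an algebraic number. -/
noncomputable def ez (q : ℚ) : LL := ⟨exp (2 * Real.pi * I * q), exp_rat_mem q⟩

theorem isOfFinOrder_ez (q : ℚ) : IsOfFinOrder (ez q) := by
  refine isOfFinOrder_iff_pow_eq_one.2 ⟨q.den, q.den_pos, Subtype.ext ?_⟩
  exact arga_pow q

theorem ez_ne_one {q : ℚ} (hq : ∀ m : ℤ, q ≠ m) : ez q ≠ 1 := by
  intro h
  have h1 : exp (2 * Real.pi * I * q) = 1 := congrArg Subtype.val h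
  obtain ⟨m, hm⟩ := Complex.exp_eq_one_iff.1 h1
  refine hq m ?_
  have h2 : (q : ℂ) = m := by
    refine mul_left_cancel₀ Complex.two_pi_I_ne_zero ?_
    rw [hm]; ring
  exact_mod_cast h2

theorem norm_of_isOfFinOrder (σ : LL →+* ℂ) {z : LL} (hz : IsOfFinOrder z) : ‖σ z‖ = 1 :=
  (σ.toMonoidHom.isOfFinOrder hz).norm_eq_one

theorem arga_ez_zpow (q : ℚ) (m : ℤ) : ez (m * q) = ez q ^ m := by
  refine Subtype.ext ?_
  have e : ((ez q ^ m : LL) : ℂ) = (ez q : ℂ) ^ m := map_zpow₀ (algebraicClosure ℚ ℂ).val _ _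
  rw [e]
  show exp (2 * Real.pi * I * ((m * q : ℚ) : ℂ)) = exp (2 * Real.pi * I * q) ^ m
  rw [← Complex.exp_int_mul]
  push_cast
  ring_nf

/-- `σ (ez (1 / D))` is a primitive `D`-th root of unity (`Complex.isPrimitiveRoot_exp`,
`IsPrimitiveRoot.map_of_injective`, `Complex.isPrimitiveRoot_iff`). -/
theorem exists_galois_exp (σ : LL →+* ℂ) {D : ℕ} (hD : 0 < D) :
    ∃ l : ℤ, IsCoprime l (D : ℤ) ∧ ∀ q : ℚ, (∃ z : ℤ, q * D = z) →
      σ (ez q) = exp (2 * Real.pi * I * ((l * q : ℚ) : ℝ)) := by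
  have hD' : (D : ℂ) ≠ 0 := Nat.cast_ne_zero.2 hD.ne'
  have hDq : (D : ℚ) ≠ 0 := Nat.cast_ne_zero.2 hD.ne'
  have h1 : IsPrimitiveRoot ((algebraicClosure ℚ ℂ).val (ez (1 / D))) D := by
    have h := Complex.isPrimitiveRoot_exp D hD.ne'
    have e : (algebraicClosure ℚ ℂ).val (ez (1 / D)) = exp (2 * Real.pi * I / D) := by
      show exp (2 * Real.pi * I * ((1 / D : ℚ) : ℂ)) = _
      push_cast
      ring_nf
    rwa [e]
  have h2 : IsPrimitiveRoot (ez (1 / D)) D :=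
    h1.of_map_of_injective (algebraicClosure ℚ ℂ).val.toRingHom.injective
  have h3 : IsPrimitiveRoot (σ (ez (1 / D))) D := h2.map_of_injective σ.injective
  obtain ⟨i, _, hi, he⟩ := (Complex.isPrimitiveRoot_iff _ D hD.ne').1 h3
  refine ⟨i, Nat.isCoprime_iff_coprime.2 hi, fun q ⟨z, hz⟩ => ?_⟩
  have hq : q = z * (1 / D) := by rw [← hz]; field_simp
  rw [hq, arga_ez_zpow, map_zpow₀, ← he, ← Complex.exp_int_mul]
  push_cast
  ring_nf

theorem arga_fract (x : ℚ) : a01 (exp (2 * Real.pi * I * (x : ℝ))) = ((Int.fract x : ℚ) : ℝ) := by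
  rw [a01_exp, Rat.cast_fract]

theorem orr_of_ineqQ {I : Finset (Fin n)} {α : Fin n → ℚ} {β : Fin r → ℚ} (h : IneqQ r I α β) :
    Orr r (fun i => ez (α i)) I (∏ j, (X - C (exp (2 * Real.pi * Complex.I * (β j : ℂ))))) := by
  obtain ⟨D, hD, hα, hβ, h⟩ := h
  refine ⟨fun j => ez (β j), fun j => isOfFinOrder_ez _, rfl, fun σ J hJ => ?_⟩
  obtain ⟨l, hl, hσ⟩ := exists_galois_exp σ hD
  have h1 := h l hl J hJ
  have e1 : ∀ j, a01 (σ (ez (β j)) / ∏ i ∈ J, σ (ez (α i))) =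
      ((Int.fract ((l : ℚ) * (β j - ∑ i ∈ J, α i)) : ℚ) : ℝ) := by
    intro j
    rw [← arga_fract, hσ _ (hβ j), Finset.prod_congr rfl fun i _ => hσ _ (hα i),
      ← Complex.exp_sum, ← Complex.exp_sub]
    congr 2
    push_cast
    rw [← Finset.mul_sum, ← Finset.mul_sum]
    ring
  have e2 : ∀ i, a01 (σ (ez (α i)))⁻¹ = ((Int.fract (-((l : ℚ) * α i)) : ℚ) : ℝ) := by
    intro i
    rw [← arga_fract, hσ _ (hα i), ← Complex.exp_neg]
    congr 2
    push_cast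
    ring
  have e3 : ∀ i, a01 (σ (ez (α i))) = ((Int.fract ((l : ℚ) * α i) : ℚ) : ℝ) := by
    intro i
    rw [← arga_fract, hσ _ (hα i)]
  simp only [e1, e2, e3]
  exact_mod_cast h1

end Pool.Agent.GR
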