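import Pool.Agent.Lib.MP_aa40d3_nt.GR.KronA

/-! Kronecker: a separable integer polynomial that splits modulo almost all primes has a
rational root. Elementary proof by a two-dimensional larger sieve. -/

open Polynomial

namespace Pool.Agent.GR

private theorem kron_ne (f : ℤ[X]) (hd : 0 < f.natDegree) (hq : ∀ q : ℚ, aeval q f ≠ 0) {x y : ℤ}
    (hxy : x ≠ 0 ∨ y ≠ 0) : homog f x y ≠ 0 := by
  have hf : f ≠ 0 := by
    rintro rfl
    simp at hd
  by_cases hy : y = 0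
  · have hx : x ≠ 0 := hxy.resolve_right (not_not.2 hy)
    subst hy
    rw [homog, Finset.sum_range_succ, Finset.sum_eq_zero]
    · simp [hx, hf]
    · intro i hi
      rw [Finset.mem_range] at hi
      rw [zero_pow (by omega), mul_zero]
  · intro h0
    apply hq ((x : ℚ) / y)
    have hy' : (y : ℚ) ≠ 0 := by exact_mod_cast hy
    have e : (y : ℚ) ^ f.natDegree * aeval ((x : ℚ) / y) f = (homog f x y : ℚ) := by
      rw [aeval_eq_sum_range, homog, Finset.mul_sum]
      push_cast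
      refine Finset.sum_congr rfl fun i hi => ?_
      rw [Finset.mem_range] at hi
      obtain ⟨j, hj⟩ : ∃ j, f.natDegree = i + j := ⟨f.natDegree - i, by omega⟩
      rw [hj, Nat.add_sub_cancel_left, zsmul_eq_mul, div_pow, pow_add]
      field_simp
    rw [h0, Int.cast_zero] at e
    exact (mul_eq_zero.1 e).resolve_left (pow_ne_zero _ hy')

private theorem kron_size (f : ℤ[X]) : ∃ A : ℝ, 1 ≤ A ∧ ∀ (N : ℕ) (x y : ℤ), |x| ≤ N → |y| ≤ N →
    |(homog f x y : ℝ)| ≤ A * (N : ℝ) ^ f.natDegree := by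
  have h0 : 0 ≤ ∑ i ∈ Finset.range (f.natDegree + 1), |(f.coeff i : ℝ)| :=
    Finset.sum_nonneg fun _ _ => abs_nonneg _
  refine ⟨1 + ∑ i ∈ Finset.range (f.natDegree + 1), |(f.coeff i : ℝ)|, by linarith,
    fun N x y hx hy => ?_⟩
  have hx' : |(x : ℝ)| ≤ N := by exact_mod_cast hx
  have hy' : |(y : ℝ)| ≤ N := by exact_mod_cast hy
  have h1 : |(homog f x y : ℝ)| ≤
      (∑ i ∈ Finset.range (f.natDegree + 1), |(f.coeff i : ℝ)|) * (N : ℝ) ^ f.natDegree := by
    rw [homog, Finset.sum_mul]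
    push_cast
    refine (Finset.abs_sum_le_sum_abs _ _).trans (Finset.sum_le_sum fun i hi => ?_)
    rw [Finset.mem_range] at hi
    obtain ⟨j, hj⟩ : ∃ j, f.natDegree = i + j := ⟨f.natDegree - i, by omega⟩
    rw [hj, Nat.add_sub_cancel_left, abs_mul, abs_mul, abs_pow, abs_pow, pow_add, mul_assoc]
    gcongr
  have h2 : (0 : ℝ) ≤ (N : ℝ) ^ f.natDegree := by positivity
  nlinarith

private theorem kron_sep (f : ℤ[X]) (hd : 0 < f.natDegree)
    (hs : (f.map (Int.castRingHom ℚ)).Separable) : ∃ c : ℕ, ∀ (p : ℕ) [Fact p.Prime], c < p →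
      (f.map (Int.castRingHom (ZMod p))).Separable ∧
        (f.map (Int.castRingHom (ZMod p))).natDegree = f.natDegree := by
  have hf : f ≠ 0 := by
    rintro rfl
    simp at hd
  obtain ⟨u, v, huv⟩ := hs
  obtain ⟨b1, hb1, e1⟩ := IsLocalization.integerNormalization_spec (nonZeroDivisors ℤ) u
  obtain ⟨b2, hb2, e2⟩ := IsLocalization.integerNormalization_spec (nonZeroDivisors ℤ) v
  generalize IsLocalization.integerNormalization (nonZeroDivisors ℤ) u = u' at e1
  generalize IsLocalization.integerNormalization (nonZeroDivisors ℤ) v = v' at e2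
  have hb : b1 * b2 ≠ 0 := mul_ne_zero (nonZeroDivisors.ne_zero hb1) (nonZeroDivisors.ne_zero hb2)
  have key : C b2 * u' * f + C b1 * v' * derivative f = C (b1 * b2) := by
    apply map_injective (Int.castRingHom ℚ) (RingHom.injective_int _)
    rw [algebraMap_int_eq] at e1 e2
    simp only [Polynomial.map_add, Polynomial.map_mul, e1, e2, ← derivative_map, map_mul,
      zsmul_eq_mul, eq_intCast, Polynomial.map_intCast]
    linear_combination (b1 : ℚ[X]) * b2 * huv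
  have hnz : ∀ (p : ℕ) (a : ℤ), a ≠ 0 → a.natAbs < p → (a : ZMod p) ≠ 0 := fun p a ha hp h0 => by
    rw [ZMod.intCast_zmod_eq_zero_iff_dvd] at h0
    have := Nat.le_of_dvd (Int.natAbs_pos.2 ha) (Int.natCast_dvd.1 h0)
    omega
  refine ⟨(b1 * b2).natAbs + f.leadingCoeff.natAbs, fun p _ hp => ⟨?_, ?_⟩⟩
  · have h1 := hnz p _ hb (by omega)
    have h2 := congrArg (Polynomial.map (Int.castRingHom (ZMod p))) key
    rw [Polynomial.map_add, Polynomial.map_mul, Polynomial.map_mul (q := derivative f),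
      ← derivative_map, map_C, eq_intCast (Int.castRingHom (ZMod p))] at h2
    refine ⟨C ((b1 * b2 : ℤ) : ZMod p)⁻¹ * (C b2 * u').map (Int.castRingHom (ZMod p)),
      C ((b1 * b2 : ℤ) : ZMod p)⁻¹ * (C b1 * v').map (Int.castRingHom (ZMod p)), ?_⟩
    rw [mul_assoc, mul_assoc, ← mul_add, h2, ← C_mul, inv_mul_cancel₀ h1, C_1]
  · exact natDegree_map_of_leadingCoeff_ne_zero _
      (hnz p _ (leadingCoeff_ne_zero.2 hf) (by omega))

private theorem kron_log {n : ℤ} (hn : n ≠ 0) (S : Finset ℕ) (hS : ∀ p ∈ S, p.Prime) (k : ℕ → ℕ)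
    (hk : ∀ p ∈ S, (p : ℤ) ^ k p ∣ n) :
    ∑ p ∈ S, (k p : ℝ) * Real.log p ≤ Real.log |(n : ℝ)| := by
  have h1 : ∏ p ∈ S, (p : ℤ) ^ k p ∣ n := by
    refine Finset.prod_dvd_of_coprime (fun p hp q hq hpq => ?_) hk
    exact (Nat.isCoprime_iff_coprime.2
      ((Nat.coprime_primes (hS p hp) (hS q hq)).2 hpq)).pow
  have h2 : ∏ p ∈ S, (p : ℤ) ^ k p ≤ |n| := Int.le_of_dvd (abs_pos.2 hn) ((dvd_abs _ _).2 h1)
  have h3 : ∏ p ∈ S, (p : ℝ) ^ k p ≤ |(n : ℝ)| := by exact_mod_cast h2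
  have h4 : ∀ p ∈ S, (0 : ℝ) < (p : ℝ) ^ k p := fun p hp =>
    pow_pos (by exact_mod_cast (hS p hp).pos) _
  refine le_trans (le_of_eq ?_) (Real.log_le_log (Finset.prod_pos h4) h3)
  rw [Real.log_prod fun p hp => (h4 p hp).ne']
  exact Finset.sum_congr rfl fun p _ => (Real.log_pow _ _).symm

private theorem kron_count (f : ℤ[X]) (hd : 0 < f.natDegree) (p : ℕ) [Fact p.Prime]
    (h1 : (f.map (Int.castRingHom (ZMod p))).Separable)
    (h2 : (f.map (Int.castRingHom (ZMod p))).natDegree = f.natDegree)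
    (h3 : (f.map (Int.castRingHom (ZMod p))).Splits) (s : Finset (ℤ × ℤ)) :
    ∃ k : (ℤ × ℤ) × (ℤ × ℤ) → ℕ,
      (∀ q, (p : ℤ) ^ k q ∣ homog f (q.1.1 - q.2.1) (q.1.2 - q.2.2)) ∧
      (f.natDegree : ℝ) * ((s.card : ℝ) ^ 2 / p - s.card) ≤ ∑ q ∈ s.offDiag, (k q : ℝ) := by
  classical
  have hf : f.map (Int.castRingHom (ZMod p)) ≠ 0 := fun e => by
    rw [e, natDegree_zero] at h2
    omega
  have hc : (f.map (Int.castRingHom (ZMod p))).roots.toFinset.card = f.natDegree := by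
    rw [Multiset.toFinset_card_of_nodup (nodup_roots h1), ← h3.natDegree_eq_card_roots, h2]
  refine ⟨_, fun q => pow_card_dvd_homog f hd p hf _ _, ?_⟩
  generalize (f.map (Int.castRingHom (ZMod p))).roots.toFinset = R at hc
  simp only [Finset.card_filter]
  push_cast
  rw [Finset.sum_comm, ← hc, ← nsmul_eq_mul, ← Finset.sum_const]
  refine Finset.sum_le_sum fun ρ _ => ?_
  refine (card_pairs_ge s p fun a => (a.1 : ZMod p) - ρ * a.2).trans (le_of_eq ?_)
  rw [Finset.card_filter]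
  push_cast
  refine Finset.sum_congr rfl fun q _ => if_congr ?_ rfl rfl
  constructor
  · intro e
    linear_combination e
  · intro e
    linear_combination e

/-- Suppose there is no rational root; then `homog f x y ≠ 0` for `(x, y) ≠ 0`. Let `d` be the
degree and `s = [1, N]²`. The product of `|homog f (P - P')|` over the `≤ N⁴` pairs of distinct
points has logarithm at most `N⁴ (d log N + c)`. For large primes `p ≤ N²` the reduction has `d`
distinct roots (Bezout for `f`, `f'` over `ℚ`, leading coefficient prime to `p`); for each root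
`ρ` apply `card_pairs_ge` to `(x, y) ↦ x - ρ y`. So the logarithm is at least
`∑_{P < p ≤ N²} d (N⁴ / p - N²) log p ≥ d N⁴ (2 log N - c') - d N² N² log 4`
(`mertens_lower`, `Chebyshev.theta_le_log4_mul_x`), a contradiction for large `N`. -/
theorem kronecker (f : ℤ[X]) (hd : 0 < f.natDegree) (hs : (f.map (Int.castRingHom ℚ)).Separable)
    (h : ∃ P : ℕ, ∀ p : ℕ, p.Prime → P < p → (f.map (Int.castRingHom (ZMod p))).Splits) :
    ∃ q : ℚ, aeval q f = 0 := by
  classical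
  by_contra hq
  push Not at hq
  obtain ⟨P₁, hP₁⟩ := h
  obtain ⟨P₂, hP₂⟩ := kron_sep f hd hs
  obtain ⟨A, hA, hsize⟩ := kron_size f
  obtain ⟨c, hc⟩ := mertens_lower
  obtain ⟨c₁, hc₁⟩ : ∃ c₁ : ℝ, ∀ M : ℕ, 1 ≤ M → Real.log M - c₁ ≤
      ∑ p ∈ (Nat.primesLE M).filter (P₁ + P₂ < ·), Real.log p / p := by
    refine ⟨c + ∑ p ∈ Finset.range (P₁ + P₂ + 1), Real.log p / p, fun M hM => ?_⟩
    have h1 := hc M hM
    rw [← Finset.sum_filter_add_sum_filter_not _ (P₁ + P₂ < ·)] at h1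
    have h2 : ∑ p ∈ (Nat.primesLE M).filter (fun p => ¬P₁ + P₂ < p), Real.log p / p ≤
        ∑ p ∈ Finset.range (P₁ + P₂ + 1), Real.log p / p := by
      refine Finset.sum_le_sum_of_subset_of_nonneg (fun p hp => ?_) fun p _ _ =>
        div_nonneg (Real.log_natCast_nonneg p) (Nat.cast_nonneg p)
      rw [Finset.mem_filter] at hp
      rw [Finset.mem_range]
      omega
    linarith
  obtain ⟨N, hN⟩ := exists_nat_gt (Real.exp (Real.log A + (c₁ + Real.log 4)))
  have hN0 : (0 : ℝ) < N := (Real.exp_pos _).trans hN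
  have hN1 : 1 ≤ N := by exact_mod_cast hN0
  have hlogN : Real.log A + (c₁ + Real.log 4) < Real.log N := (Real.lt_log_iff_exp_lt hN0).2 hN
  obtain ⟨s, hs1, hs2⟩ : ∃ s : Finset (ℤ × ℤ), s.card = N ^ 2 ∧
      ∀ a ∈ s, ∀ b ∈ s, |a.1 - b.1| ≤ N ∧ |a.2 - b.2| ≤ N := by
    refine ⟨Finset.Icc (1 : ℤ) N ×ˢ Finset.Icc (1 : ℤ) N, by simp [sq], fun a ha b hb => ?_⟩
    simp only [Finset.mem_product, Finset.mem_Icc] at ha hb
    exact ⟨abs_le.2 ⟨by omega, by omega⟩, abs_le.2 ⟨by omega, by omega⟩⟩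
  set S := (Nat.primesLE (N ^ 2)).filter (P₁ + P₂ < ·) with hS
  have hSp : ∀ p ∈ S, p.Prime := fun p hp => (Nat.mem_primesLE.1 (Finset.mem_filter.1 hp).1).2
  have hk : ∀ p : ℕ, ∃ k : (ℤ × ℤ) × (ℤ × ℤ) → ℕ, p ∈ S →
      (∀ q, (p : ℤ) ^ k q ∣ homog f (q.1.1 - q.2.1) (q.1.2 - q.2.2)) ∧
      (f.natDegree : ℝ) * ((s.card : ℝ) ^ 2 / p - s.card) ≤ ∑ q ∈ s.offDiag, (k q : ℝ) := by
    intro p
    by_cases hp : p ∈ S
    · have : Fact p.Prime := ⟨hSp p hp⟩
      have h1 := (Finset.mem_filter.1 hp).2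
      obtain ⟨h2, h3⟩ := hP₂ p (by omega)
      obtain ⟨k, hk⟩ := kron_count f hd p h2 h3 (hP₁ p (hSp p hp) (by omega)) s
      exact ⟨k, fun _ => hk⟩
    · exact ⟨fun _ => 0, fun h1 => absurd h1 hp⟩
  choose k hk using hk
  have hlogA : 0 ≤ Real.log A := Real.log_nonneg hA
  have hlogN0 : 0 ≤ Real.log N := Real.log_natCast_nonneg N
  have hd1 : (1 : ℝ) ≤ f.natDegree := by exact_mod_cast hd
  have hup : ∑ q ∈ s.offDiag, ∑ p ∈ S, (k p q : ℝ) * Real.log p ≤
      ((N : ℝ) ^ 2) ^ 2 * (Real.log A + f.natDegree * Real.log N) := by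
    have h1 : ∀ q ∈ s.offDiag, ∑ p ∈ S, (k p q : ℝ) * Real.log p ≤
        Real.log A + f.natDegree * Real.log N := by
      intro q hq'
      obtain ⟨g1, g2, g3⟩ := Finset.mem_offDiag.1 hq'
      have g4 : homog f (q.1.1 - q.2.1) (q.1.2 - q.2.2) ≠ 0 := by
        refine kron_ne f hd hq ?_
        by_contra g5
        push Not at g5
        exact g3 (Prod.ext (sub_eq_zero.1 g5.1) (sub_eq_zero.1 g5.2))
      refine (kron_log g4 S hSp (fun p => k p q) fun p hp => (hk p hp).1 q).trans ?_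
      rw [← Real.log_pow, ← Real.log_mul (by positivity) (by positivity)]
      exact Real.log_le_log (abs_pos.2 (by exact_mod_cast g4))
        (hsize N _ _ (hs2 _ g1 _ g2).1 (hs2 _ g1 _ g2).2)
    refine (Finset.sum_le_card_nsmul _ _ _ h1).trans ?_
    rw [nsmul_eq_mul]
    have h2 : s.offDiag.card ≤ (N ^ 2) ^ 2 := by
      rw [Finset.offDiag_card, hs1, ← sq]
      exact Nat.sub_le _ _
    have h3 : (s.offDiag.card : ℝ) ≤ ((N : ℝ) ^ 2) ^ 2 := by exact_mod_cast h2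
    exact mul_le_mul_of_nonneg_right h3 (by positivity)
  have hlow : (f.natDegree : ℝ) * (((N : ℝ) ^ 2) ^ 2 * ∑ p ∈ S, Real.log p / p -
      (N : ℝ) ^ 2 * ∑ p ∈ S, Real.log p) ≤ ∑ q ∈ s.offDiag, ∑ p ∈ S, (k p q : ℝ) * Real.log p := by
    rw [Finset.sum_comm, Finset.mul_sum, Finset.mul_sum, ← Finset.sum_sub_distrib, Finset.mul_sum]
    refine Finset.sum_le_sum fun p hp => ?_
    have h1 := mul_le_mul_of_nonneg_right (hk p hp).2 (Real.log_natCast_nonneg p)
    rw [Finset.sum_mul, hs1] at h1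
    refine le_trans (le_of_eq ?_) h1
    push_cast
    ring
  have hth : ∑ p ∈ S, Real.log p ≤ Real.log 4 * (N : ℝ) ^ 2 := by
    have h1 := Chebyshev.theta_le_log4_mul_x (x := ((N ^ 2 : ℕ) : ℝ)) (Nat.cast_nonneg _)
    rw [Chebyshev.theta_eq_sum_primesLE_log, Nat.cast_pow] at h1
    exact (Finset.sum_le_sum_of_subset_of_nonneg (Finset.filter_subset _ _) fun p _ _ =>
      Real.log_natCast_nonneg p).trans h1
  have hme := hc₁ (N ^ 2) (Nat.one_le_pow _ _ hN1)
  rw [← hS, Nat.cast_pow, Real.log_pow] at hme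
  push_cast at hme
  have hM : (0 : ℝ) < (N : ℝ) ^ 2 := by positivity
  generalize (N : ℝ) ^ 2 = M at hup hlow hth hM
  have h1 : M ^ 2 * (2 * Real.log N - c₁) - M * (Real.log 4 * M) ≤
      M ^ 2 * ∑ p ∈ S, Real.log p / p - M * ∑ p ∈ S, Real.log p :=
    sub_le_sub (mul_le_mul_of_nonneg_left hme (by positivity))
      (mul_le_mul_of_nonneg_left hth hM.le)
  have h2 := (mul_le_mul_of_nonneg_left h1 (by positivity : (0 : ℝ) ≤ f.natDegree)).trans
    (hlow.trans hup)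
  have h3 : M ^ 2 * (f.natDegree * (Real.log N - (c₁ + Real.log 4))) ≤ M ^ 2 * Real.log A := by
    linarith
  have h4 := le_of_mul_le_mul_left h3 (by positivity)
  nlinarith

end Pool.Agent.GR
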