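import Pool.Agent.Lib.MP_aa40d3_nt.GR.SpreadA
import Pool.Agent.Lib.MP_aa40d3_nt.GR.Kron

/-! Rationality from Frobenius invariance. -/

open Polynomial

namespace Pool.Agent.GR

/-- Bezout identity over the integers for an irreducible polynomial of positive degree. -/
theorem spread_bez (f q : ℤ[X]) (hf : Irreducible f) (hd : f.natDegree ≠ 0) (h : ¬ f ∣ q) :
    ∃ (a b : ℤ[X]) (N : ℤ), N ≠ 0 ∧ f * a + q * b = C N := by
  have hp := hf.isPrimitive hd
  have h1 : IsCoprime (f.map (Int.castRingHom ℚ)) (q.map (Int.castRingHom ℚ)) := by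
    rw [((IsPrimitive.Int.irreducible_iff_irreducible_map_cast hp).1 hf).coprime_iff_not_dvd,
      ← IsPrimitive.Int.dvd_iff_map_cast_dvd_map_cast _ _ hp]
    exact h
  obtain ⟨a, b, -, -, hab⟩ := exists_mul_add_mul_eq_C_resultant f q le_rfl le_rfl (Or.inl hd)
  refine ⟨a, b, _, fun h0 => resultant_ne_zero _ _ h1 ?_, hab⟩
  have hi : Function.Injective (Int.castRingHom ℚ) := (Int.castRingHom ℚ).injective_int
  rw [natDegree_map_eq_of_injective hi, natDegree_map_eq_of_injective hi, resultant_map_map, h0,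
    map_zero]

theorem spread_cast_ne {L : Type} [Ring L] {p : ℕ} [CharP L p] {N : ℤ} (hN : N ≠ 0)
    (h : N.natAbs < p) : (N : L) ≠ 0 := by
  rw [Ne, CharP.intCast_eq_zero_iff L p, Int.natCast_dvd]
  exact Nat.not_dvd_of_pos_of_lt (Int.natAbs_pos.2 hN) h

/-- Points of the affine line that lift to `R`. -/
theorem spread_key {R : Type} [CommRing R] [IsDomain R] [Algebra.FiniteType ℤ R] (x : R) (P : ℕ)
    (h : ∀ p : ℕ, p.Prime → P < p →
      ∀ (k : Type) [Field k] [CharP k p] (φ : R →+* k), φ x ^ p = φ x) :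
    ∃ u : ℤ[X], eval₂ (Int.castRingHom R) x u ≠ 0 ∧ ∀ p : ℕ, p.Prime → P < p →
      ∀ (L : Type) [CommRing L] [IsDomain L] [CharP L p] (y : L),
        (∀ q : ℤ[X], eval₂ (Int.castRingHom R) x q = 0 → eval₂ (Int.castRingHom L) y q = 0) →
        eval₂ (Int.castRingHom L) y u ≠ 0 → y ^ p = y := by
  set ψ : ℤ[X] →+* R := eval₂RingHom (Int.castRingHom R) x with hψ
  have : (RingHom.ker ψ).IsPrime := RingHom.ker_isPrime ψ
  have hft : (RingHom.kerLift ψ).FiniteType := by
    refine RingHom.FiniteType.of_comp_finiteType (f := Int.castRingHom _) ?_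
    rw [RingHom.ext_int (RingHom.comp _ _) (algebraMap ℤ R)]
    exact RingHom.finiteType_algebraMap.2 inferInstance
  obtain ⟨u, hu, hQ⟩ := chev (RingHom.kerLift ψ) (RingHom.kerLift_injective ψ) hft
  obtain ⟨u, rfl⟩ := Ideal.Quotient.mk_surjective u
  refine ⟨u, fun h0 => hu (Ideal.Quotient.eq_zero_iff_mem.2 h0), fun p hp hP L _ _ _ y hy hyu => ?_⟩
  set g : ℤ[X] ⧸ RingHom.ker ψ →+* L :=
    Ideal.Quotient.lift _ (eval₂RingHom (Int.castRingHom L) y) hy with hg
  obtain ⟨Q, hQp, hQc⟩ := hQ (RingHom.ker g) (RingHom.ker_isPrime g) hyu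
  have key : ∀ q : ℤ[X], ψ q ∈ Q ↔ eval₂ (Int.castRingHom L) y q = 0 := fun q => by
    rw [← RingHom.kerLift_mk, ← Ideal.mem_comap, hQc]
    rfl
  set φ : R →+* FractionRing (R ⧸ Q) := (algebraMap (R ⧸ Q) _).comp (Ideal.Quotient.mk Q) with hφ
  have hk : ∀ r, φ r = 0 ↔ r ∈ Q := fun r => by
    rw [hφ, RingHom.comp_apply, IsFractionRing.to_map_eq_zero_iff, Ideal.Quotient.eq_zero_iff_mem]
  have : CharP (FractionRing (R ⧸ Q)) p := by
    rw [CharP.charP_iff_prime_eq_zero hp, ← map_natCast φ, hk, ← map_natCast ψ, key]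
    simp
  have h1 := h p hp hP _ φ
  rw [← sub_eq_zero, ← map_pow, ← map_sub, hk] at h1
  have h2 := (key (X ^ p - X)).1 (by simpa [hψ] using h1)
  simpa [sub_eq_zero] using h2

/-- If `aeval x : ℤ[X] → R` is injective apply `chev` to it; for `p` not dividing some nonzero
coefficient of `u` take `Q` over `(C p)`; then `X ^ p - X ∈ (C p)`, which is false (monic).
Otherwise the kernel is a nonzero prime not meeting `ℤ`; let `f` be a primitive irreducible
generator (or the primitive part of the minimal polynomial over `ℚ` of the image of `x` in the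
fraction field). Apply `chev` to `ℤ[X] / ker → R`, lift `u` to `u₀ ∉ ker` and write
`a * f + b * u₀ = N ≠ 0` with `N : ℤ`. For `p` large and every root `ρ` of `f` in the algebraic
closure of `ZMod p`, the kernel of `ℤ[X] → closure`, `X ↦ ρ` is a prime containing `ker` and not
`u₀`, so it contains `X ^ p - X`, so `ρ ^ p = ρ` and `ρ` comes from `ZMod p`. Hence `f` splits
modulo `p` and `kronecker` gives a rational root, so `f` has degree one. -/
theorem rat_of_frob {R : Type} [CommRing R] [IsDomain R] [CharZero R] [Algebra.FiniteType ℤ R]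
    (x : R) (h : ∃ P : ℕ, ∀ p : ℕ, p.Prime → P < p →
      ∀ (k : Type) [Field k] [CharP k p] (φ : R →+* k), φ x ^ p = φ x) :
    ∃ a d : ℤ, d ≠ 0 ∧ (d : R) * x = a := by
  obtain ⟨P, h⟩ := h
  obtain ⟨u, hu, key⟩ := spread_key x P h
  have hu0 : u ≠ 0 := fun h0 => hu (by simp [h0])
  set ψ : ℤ[X] →+* R := eval₂RingHom (Int.castRingHom R) x with hψ
  by_cases hK : RingHom.ker ψ = ⊥
  · exfalso
    obtain ⟨p, hp1, hp⟩ := Nat.exists_infinite_primes (P + u.leadingCoeff.natAbs + 1)
    have := Fact.mk hp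
    have e : ∀ q : ℤ[X], eval₂ (Int.castRingHom (ZMod p)[X]) X q =
        q.map (Int.castRingHom (ZMod p)) := fun q => by
      rw [RingHom.ext_int (Int.castRingHom (ZMod p)[X]) (C.comp (Int.castRingHom (ZMod p)))]
      rfl
    have h1 := key p hp (by omega) (ZMod p)[X] X (fun q hq => by
      have : q ∈ RingHom.ker ψ := hq
      rw [hK, Ideal.mem_bot] at this
      simp [this]) (fun h0 => by
      rw [e] at h0
      have h2 := congrArg (coeff · u.natDegree) h0
      simp only [coeff_map, coeff_natDegree, coeff_zero, eq_intCast] at h2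
      exact spread_cast_ne (leadingCoeff_ne_zero.2 hu0) (by omega) h2)
    exact FiniteField.X_pow_card_sub_X_ne_zero (ZMod p) hp.one_lt (sub_eq_zero.2 h1)
  obtain ⟨f, hfK, hf⟩ := (RingHom.ker_isPrime ψ).exists_mem_prime_of_ne_bot hK
  have hf0 : ψ f = 0 := hfK
  have hC : ∀ N : ℤ, ψ (C N) = N := fun N => by simp
  have hd : f.natDegree ≠ 0 := fun h0 => by
    rw [eq_C_of_natDegree_eq_zero h0, hC, Int.cast_eq_zero] at hf0
    exact hf.ne_zero (by rw [eq_C_of_natDegree_eq_zero h0, hf0, map_zero])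
  have hdvd : ∀ q : ℤ[X], ψ q = 0 → f ∣ q := fun q hq => by
    by_contra hn
    obtain ⟨a, b, N, hN, hab⟩ := spread_bez f q hf.irreducible hd hn
    have := congrArg ψ hab
    rw [map_add, map_mul, map_mul, hf0, hq, hC, zero_mul, zero_mul, add_zero, eq_comm,
      Int.cast_eq_zero] at this
    exact hN this
  obtain ⟨a, b, N, hN, hab⟩ := spread_bez f u hf.irreducible hd (fun ⟨c, hc⟩ => hu (by
    change ψ u = 0
    rw [hc, map_mul, hf0, zero_mul]))
  have hirr := (IsPrimitive.Int.irreducible_iff_irreducible_map_cast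
    (hf.irreducible.isPrimitive hd)).1 hf.irreducible
  obtain ⟨q, hq⟩ := kronecker f (Nat.pos_of_ne_zero hd) hirr.separable
    ⟨P + N.natAbs, fun p hp hP => by
      have := Fact.mk hp
      refine Splits.of_splits_map (algebraMap (ZMod p) (AlgebraicClosure (ZMod p)))
        (IsAlgClosed.splits _) fun y hy => ?_
      have h1 : eval₂ (Int.castRingHom (AlgebraicClosure (ZMod p))) y f = 0 := by
        have h2 := isRoot_of_mem_roots hy
        rwa [Polynomial.map_map, IsRoot, eval_map, RingHom.ext_int (RingHom.comp _ _)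
          (Int.castRingHom _)] at h2
      have h3 := key p hp (by omega) _ y (fun q hq => by
        obtain ⟨c, rfl⟩ := hdvd q hq
        rw [eval₂_mul, h1, zero_mul]) (fun h0 => by
        have h4 := congrArg (eval₂ (Int.castRingHom (AlgebraicClosure (ZMod p))) y) hab
        rw [eval₂_add, eval₂_mul, eval₂_mul, h1, h0, zero_mul, zero_mul, add_zero, eval₂_C] at h4
        exact spread_cast_ne hN (p := p) (by omega) h4.symm)
      obtain ⟨n, rfl⟩ := (mem_bot_iff_intCast p _).1 ((Subfield.mem_bot_iff_pow_eq_self _ p).2 h3)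
      exact ⟨n, by simp⟩⟩
  have hdeg : f.natDegree = 1 := by
    have h1 := degree_eq_one_of_irreducible_of_root hirr (x := q) (by
      rwa [IsRoot, eval_map, ← algebraMap_int_eq, ← aeval_def])
    rw [← natDegree_map_eq_of_injective (Int.castRingHom ℚ).injective_int]
    exact natDegree_eq_of_degree_eq_some h1
  refine ⟨-f.coeff 0, f.coeff 1, ?_, ?_⟩
  · rw [← hdeg]
    exact leadingCoeff_ne_zero.2 hf.ne_zero
  · rw [eq_X_add_C_of_natDegree_le_one hdeg.le, map_add, map_mul, hC, hC] at hf0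
    have : ψ X = x := by simp [hψ]
    rw [this] at hf0
    push_cast
    linear_combination hf0

end Pool.Agent.GR
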