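import Pool.Agent.Lib.MP_aa40d3_nt.GR.CP
import Pool.Agent.Lib.MP_aa40d3_nt.GR.Spread

/-! Choice of the radius of the annulus. -/

open Polynomial Matrix

namespace Pool.Agent.GR

variable {n r : ℕ}

/-- For each `ϱ ∈ [1, e)` choose `(j, i)` with `coeff i (H.coeff j) ≠ 0` minimising `i + ϱ * j`;
`j ≤ d`, so by pigeonhole (`Finset.exists_lt_card_fiber_of_mul_lt_card_of_maps_to`) three values
`ϱ₁ < ϱ < ϱ₂` share the same `j = j0`; then `i` is the order `o` of `H.coeff j0` in each case. -/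
theorem exists_radii {R : Type*} [CommRing R] (H : (PowerSeries R)[X]) (hH : H ≠ 0) {d e : ℕ}
    (hd : H.natDegree ≤ d) (he : 2 * d + 4 ≤ e) :
    ∃ ϱ₁ ϱ ϱ₂ j0 o : ℕ, 0 < ϱ₁ ∧ ϱ₁ < ϱ ∧ ϱ < ϱ₂ ∧ ϱ₂ < e ∧
      PowerSeries.coeff o (H.coeff j0) ≠ 0 ∧
      ∀ j i, PowerSeries.coeff i (H.coeff j) ≠ 0 →
        o + ϱ₁ * j0 ≤ i + ϱ₁ * j ∧ o + ϱ₂ * j0 ≤ i + ϱ₂ * j := by
  classical
  have hne : ∃ ji : ℕ × ℕ, PowerSeries.coeff ji.2 (H.coeff ji.1) ≠ 0 := by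
    by_contra hc
    push Not at hc
    apply hH
    ext j i
    simpa using hc (j, i)
  have hmin : ∀ ϱ : ℕ, ∃ ji : ℕ × ℕ, PowerSeries.coeff ji.2 (H.coeff ji.1) ≠ 0 ∧
      ∀ j i, PowerSeries.coeff i (H.coeff j) ≠ 0 → ji.2 + ϱ * ji.1 ≤ i + ϱ * j := by
    intro ϱ
    have hex : ∃ m : ℕ, ∃ ji : ℕ × ℕ, PowerSeries.coeff ji.2 (H.coeff ji.1) ≠ 0 ∧
        ji.2 + ϱ * ji.1 = m := by
      obtain ⟨ji, h⟩ := hne
      exact ⟨_, ji, h, rfl⟩
    obtain ⟨ji, h1, h2⟩ := Nat.find_spec hex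
    refine ⟨ji, h1, fun j i h => ?_⟩
    rw [h2]
    exact Nat.find_min' hex ⟨(j, i), h, rfl⟩
  choose f hf1 hf2 using hmin
  have hmaps : ∀ ϱ ∈ Finset.Ico 1 e, (f ϱ).1 ∈ Finset.range (d + 1) := by
    intro ϱ _
    rw [Finset.mem_range, Nat.lt_succ_iff]
    refine le_trans (le_natDegree_of_ne_zero fun h0 => hf1 ϱ ?_) hd
    rw [h0, map_zero]
  obtain ⟨j0, -, hj⟩ := Finset.exists_lt_card_fiber_of_mul_lt_card_of_maps_to hmaps (n := 2)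
    (by simp only [Finset.card_range, Nat.card_Ico]; omega)
  obtain ⟨a, ha, b, hb, c, hc, hab, hac, hbc⟩ := Finset.two_lt_card.1 hj
  have key : ∀ x y : ℕ, x ∈ (Finset.Ico 1 e).filter (fun ϱ => (f ϱ).1 = j0) →
      y ∈ (Finset.Ico 1 e).filter (fun ϱ => (f ϱ).1 = j0) → x + 2 ≤ y →
      ∃ ϱ₁ ϱ ϱ₂ j0 o : ℕ, 0 < ϱ₁ ∧ ϱ₁ < ϱ ∧ ϱ < ϱ₂ ∧ ϱ₂ < e ∧
      PowerSeries.coeff o (H.coeff j0) ≠ 0 ∧
      ∀ j i, PowerSeries.coeff i (H.coeff j) ≠ 0 →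
        o + ϱ₁ * j0 ≤ i + ϱ₁ * j ∧ o + ϱ₂ * j0 ≤ i + ϱ₂ * j := by
    intro x y hx hy hxy
    obtain ⟨hx1, hx2⟩ := Finset.mem_filter.1 hx
    obtain ⟨hy1, hy2⟩ := Finset.mem_filter.1 hy
    rw [Finset.mem_Ico] at hx1 hy1
    have h1 := hf2 x _ _ (hf1 y)
    have h2 := hf2 y _ _ (hf1 x)
    rw [hx2, hy2] at h1 h2
    have h3 : (f y).2 = (f x).2 := by omega
    refine ⟨x, x + 1, y, j0, (f x).2, by omega, by omega, by omega, hy1.2, hx2 ▸ hf1 x,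
      fun j i h => ⟨?_, ?_⟩⟩
    · have := hf2 x j i h
      rwa [hx2] at this
    · have := hf2 y j i h
      rwa [hy2, h3] at this
  have hcases : a + 2 ≤ b ∨ b + 2 ≤ a ∨ a + 2 ≤ c ∨ c + 2 ≤ a ∨ b + 2 ≤ c ∨ c + 2 ≤ b := by omega
  rcases hcases with h | h | h | h | h | h
  exacts [key _ _ ha hb h, key _ _ hb ha h, key _ _ ha hc h, key _ _ hc ha h, key _ _ hb hc h,
    key _ _ hc hb h]

private theorem aritha_coeff_sc {R : Type*} [CommRing R] (Q : (PowerSeries R)[X]) (ϱ j m : ℕ) :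
    PowerSeries.coeff m ((sc (PowerSeries.X ^ ϱ) Q).coeff j) =
      if ϱ * j ≤ m then PowerSeries.coeff (m - ϱ * j) (Q.coeff j) else 0 := by
  rw [sc, comp_C_mul_X_coeff, ← pow_mul, PowerSeries.coeff_mul_X_pow']

/-- `(sc (X ^ ϱ) Q).coeff j = Q.coeff j * X ^ (ϱ * j)` (`comp_C_mul_X_coeff`),
`C_dvd_iff_dvd_coeff`, `PowerSeries.X_pow_dvd_iff`. -/
theorem dvd_sc_iff {R : Type*} [CommRing R] (Q : (PowerSeries R)[X]) (ϱ v : ℕ) :
    C (PowerSeries.X ^ v) ∣ sc (PowerSeries.X ^ ϱ) Q ↔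
      ∀ j i, PowerSeries.coeff i (Q.coeff j) ≠ 0 → v ≤ i + ϱ * j := by
  rw [C_dvd_iff_dvd_coeff]
  simp only [PowerSeries.X_pow_dvd_iff, aritha_coeff_sc]
  constructor
  · intro h j i hi
    by_contra hc
    have := h j (i + ϱ * j) (by omega)
    rw [if_pos (by omega), Nat.add_sub_cancel] at this
    exact hi this
  · intro h j m hm
    split_ifs with h1
    · by_contra hc
      have := h j _ hc
      omega
    · rfl

/-- The affine function `ϱ ↦ i + ϱ j - (o + ϱ j0)` is nonnegative at `ϱ₁` and `ϱ₂`, so it is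
positive at `ϱ` unless `j = j0`. -/
theorem exists_sc_eq {R : Type*} [CommRing R] (Q : (PowerSeries R)[X]) {ϱ₁ ϱ ϱ₂ j0 o : ℕ}
    (h1 : ϱ₁ < ϱ) (h2 : ϱ < ϱ₂) (h : ∀ j i, PowerSeries.coeff i (Q.coeff j) ≠ 0 →
      o + ϱ₁ * j0 ≤ i + ϱ₁ * j ∧ o + ϱ₂ * j0 ≤ i + ϱ₂ * j) :
    ∃ Q1 : (PowerSeries R)[X], sc (PowerSeries.X ^ ϱ) Q = C (PowerSeries.X ^ (o + ϱ * j0)) * Q1 ∧
      red Q1 = C (PowerSeries.coeff o (Q.coeff j0)) * X ^ j0 := by
  obtain ⟨Q1, hQ1⟩ := (dvd_sc_iff Q ϱ (o + ϱ * j0)).2 (by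
    intro j i hi
    obtain ⟨h3, h4⟩ := h j i hi
    rcases le_total j j0 with hj | hj
    · obtain ⟨t, rfl⟩ := Nat.exists_eq_add_of_le hj
      have : ϱ * t ≤ ϱ₂ * t := Nat.mul_le_mul_right _ h2.le
      rw [mul_add] at h4 ⊢
      omega
    · obtain ⟨t, rfl⟩ := Nat.exists_eq_add_of_le hj
      have : ϱ₁ * t ≤ ϱ * t := Nat.mul_le_mul_right _ h1.le
      rw [mul_add] at h3 ⊢
      omega)
  refine ⟨Q1, hQ1, ?_⟩
  ext j
  have hc := aritha_coeff_sc Q ϱ j (o + ϱ * j0)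
  rw [hQ1, coeff_C_mul, PowerSeries.coeff_X_pow_mul', if_pos le_rfl, Nat.sub_self] at hc
  rw [red, coe_mapRingHom, coeff_map, ← PowerSeries.coeff_zero_eq_constantCoeff_apply, hc,
    coeff_C_mul, coeff_X_pow]
  by_cases hj : j = j0
  · subst hj
    simp
  · rw [if_neg hj, mul_zero]
    split_ifs with h3
    · by_contra hne
      obtain ⟨h4, h5⟩ := h j _ hne
      apply hj
      rcases lt_trichotomy j j0 with hj' | hj' | hj'
      · obtain ⟨t, rfl⟩ := Nat.exists_eq_add_of_lt hj'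
        have : ϱ * (t + 1) < ϱ₂ * (t + 1) := Nat.mul_lt_mul_of_pos_right h2 (by omega)
        rw [add_assoc j, mul_add] at h5 h3
        rw [mul_add ϱ j] at h5
        omega
      · exact hj'
      · obtain ⟨t, rfl⟩ := Nat.exists_eq_add_of_lt hj'
        have : ϱ₁ * (t + 1) < ϱ * (t + 1) := Nat.mul_lt_mul_of_pos_right h1 (by omega)
        rw [add_assoc j0, mul_add] at h4 h3
        rw [mul_add ϱ₁ j0] at h4
        omega
    · rfl

private theorem aritha_mps_sc {R S : Type*} [CommRing R] [CommRing S] (φ : R →+* S)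
    (Q : (PowerSeries R)[X]) (ϱ : ℕ) :
    mps φ (sc (PowerSeries.X ^ ϱ) Q) = sc (PowerSeries.X ^ ϱ) (mps φ Q) := by
  simp [mps, sc, Polynomial.map_comp]

private theorem aritha_coeff_mps {R S : Type*} [CommRing R] [CommRing S] (φ : R →+* S)
    (Q : (PowerSeries R)[X]) (j i : ℕ) :
    PowerSeries.coeff i ((mps φ Q).coeff j) = φ (PowerSeries.coeff i (Q.coeff j)) := by
  simp [mps]

/-- `HF ≠ 0` by `spread` (applied to a nonzero coefficient of `G`) and `HF_ne_zero_red`; its degree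
is at most `r * r * (n + 1)` (`natDegree_cycH`). Take the radii of `exists_radii`. The same
inequalities hold for the `NF k`: if `x = coeff i ((NF k).coeff j) ≠ 0`, apply `spread` to the
product of `x`, a coefficient of `G`, `D` and the `c j` (`j ∉ I`), and use `cp_scaled` with
`v = 0` at `ϱ₁` and `ϱ₂`, `CPO1.dvd` and `dvd_sc_iff` over `κ`. Conclude by `exists_sc_eq`. -/
theorem arith_radius [NeZero r] {R : Type} [CommRing R] [IsDomain R] [CharZero R]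
    [Algebra.FiniteType ℤ R] {D : ℕ} (hD : 0 < D) {a : Fin n → ℤ} (I : Finset (Fin n)) {e : ℕ}
    (he : 2 * (r * r * (n + 1)) + 4 ≤ e) {c : Fin n → R} (hc : ∀ j, j ∉ I → c j ≠ 0)
    {G : PowerSeries R} (hG : G ≠ 0) {Q : Fin n → Matrix (Fin r) (Fin r) (PowerSeries R)}
    (ho : Orc D a (tauF e I c) G Q) :
    ∃ (ϱ v j0 : ℕ) (c0 : R) (ν : Fin r → R) (H1 : (PowerSeries R)[X])
      (N1 : Fin r → (PowerSeries R)[X]), 0 < ϱ ∧ ϱ < e ∧ c0 ≠ 0 ∧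
      sc (PowerSeries.X ^ ϱ) (HF (tauF e I c) G Q) = C (PowerSeries.X ^ v) * H1 ∧
      (∀ k, sc (PowerSeries.X ^ ϱ) (NF (tauF e I c) G Q k) = C (PowerSeries.X ^ v) * N1 k) ∧
      red H1 = C c0 * X ^ j0 ∧ ∀ k, red (N1 k) = C (ν k) * X ^ j0 := by
  classical
  obtain ⟨P0, hP0⟩ := ho
  obtain ⟨g, hg⟩ : ∃ g, PowerSeries.coeff g G ≠ 0 := by
    by_contra hc'
    push Not at hc'
    exact hG (PowerSeries.ext fun i => by simpa using hc' i)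
  have hsp : ∀ x : R, x ≠ 0 → ∃ (p : ℕ) (_ : Fact p.Prime) (κ : Type) (_ : Field κ)
      (_ : CharP κ p) (φ : R →+* κ), P0 < p ∧ φ x ≠ 0 ∧ PowerSeries.map φ G ≠ 0 ∧ (D : κ) ≠ 0 ∧
        ∀ j, j ∉ I → φ (c j) ≠ 0 := by
    intro x hx
    have hy : x * PowerSeries.coeff g G * (D : R) * ∏ j ∈ Iᶜ, c j ≠ 0 :=
      mul_ne_zero (mul_ne_zero (mul_ne_zero hx hg) (Nat.cast_ne_zero.2 hD.ne'))
        (Finset.prod_ne_zero_iff.2 fun j hj => hc j (Finset.mem_compl.1 hj))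
    obtain ⟨P, hP⟩ := spread hy
    obtain ⟨p, hp1, hp⟩ := Nat.exists_infinite_primes (max P P0 + 1)
    obtain ⟨κ, _, _, φ, hφ⟩ := hP p hp (by omega)
    simp only [map_mul, map_natCast, map_prod, ne_eq, mul_eq_zero, not_or,
      Finset.prod_eq_zero_iff, not_exists, not_and] at hφ
    obtain ⟨⟨⟨h1, h2⟩, h3⟩, h4⟩ := hφ
    refine ⟨p, ⟨hp⟩, κ, inferInstance, inferInstance, φ, by omega, h1, fun h0 => h2 ?_, h3,
      fun j hj => h4 j (Finset.mem_compl.2 hj)⟩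
    rw [← PowerSeries.coeff_map, h0, map_zero]
  have hH : HF (tauF e I c) G Q ≠ 0 := by
    obtain ⟨p, hp, κ, _, _, φ, h0, -, h2, -, -⟩ := hsp 1 one_ne_zero
    obtain ⟨h5, h6⟩ := hP0 p hp.out h0 κ φ h2
    exact HF_ne_zero_red p φ h2 h5 h6
  have hdeg : (HF (tauF e I c) G Q).natDegree ≤ r * r * (n + 1) :=
    natDegree_cycH ((natDegree_C_mul_le _ _).trans (natDegree_dl _)) (natDegree_pm _ _)
  obtain ⟨ϱ₁, ϱ, ϱ₂, j0, o, h0, h1, h2, h3, h4, h5⟩ := exists_radii _ hH hdeg he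
  have hN : ∀ k j i, PowerSeries.coeff i ((NF (tauF e I c) G Q k).coeff j) ≠ 0 →
      o + ϱ₁ * j0 ≤ i + ϱ₁ * j ∧ o + ϱ₂ * j0 ≤ i + ϱ₂ * j := by
    intro k j i hi
    obtain ⟨p, hp, κ, _, _, φ, hp0, hx, hG', hD', hc'⟩ := hsp _ hi
    obtain ⟨h6, h7⟩ := hP0 p hp.out hp0 κ φ hG'
    have key : ∀ ρ v : ℕ, 0 < ρ → ρ < e →
        (∀ j i, PowerSeries.coeff i ((HF (tauF e I c) G Q).coeff j) ≠ 0 → v ≤ i + ρ * j) →
        v ≤ i + ρ * j := by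
      intro ρ v hρ hρe hv
      have h8 := (cp_scaled p φ I hD' hρ hρe hc' hG' h6 h7 (v := 0)
        (H1 := sc (PowerSeries.X ^ ρ) (HF (tauF e I c) G Q))
        (N1 := fun k => sc (PowerSeries.X ^ ρ) (NF (tauF e I c) G Q k)) (by simp)
        (fun k => by simp)).1
      have h9 := h8.dvd v (by
        rw [aritha_mps_sc, dvd_sc_iff]
        intro j i hi
        rw [aritha_coeff_mps] at hi
        exact hv j i fun h0 => hi (by rw [h0, map_zero])) k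
      simp only [aritha_mps_sc, dvd_sc_iff] at h9
      exact h9 j i (by rwa [aritha_coeff_mps])
    exact ⟨key ϱ₁ _ h0 (by omega) fun j i h => (h5 j i h).1,
      key ϱ₂ _ (by omega) h3 fun j i h => (h5 j i h).2⟩
  obtain ⟨H1, hH1, hH2⟩ := exists_sc_eq _ h1 h2 h5
  choose N1 hN1 hN2 using fun k => exists_sc_eq _ h1 h2 (hN k)
  exact ⟨ϱ, o + ϱ * j0, j0, _, fun k => PowerSeries.coeff o ((NF (tauF e I c) G Q k).coeff j0),
    H1, N1, by omega, by omega, h4, hH1, hN1, hH2, hN2⟩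

end Pool.Agent.GR
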