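import Mathlib

/-! Local branches of an algebraic function. -/

open Polynomial Set

namespace Pool.Agent.GR

/-- The fibre polynomial `F (u, ·)`. -/
noncomputable def fib (F : ℂ[X][X]) (u : ℂ) : ℂ[X] := F.map (evalRingHom u)

private theorem branch_contDiff_eval (p : ℂ[X]) : ContDiff ℂ 1 (fun u : ℂ => p.eval u) := by
  have : (fun u : ℂ => p.eval u) = fun u : ℂ => ∑ i ∈ Finset.range (p.natDegree + 1),
      p.coeff i * u ^ i := by
    funext u
    exact Polynomial.eval_eq_sum_range u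
  rw [this]
  fun_prop

private theorem branch_contDiff (F : ℂ[X][X]) :
    ContDiff ℂ 1 (fun v : ℂ × ℂ => (fib F v.1).eval v.2) := by
  have : (fun v : ℂ × ℂ => (fib F v.1).eval v.2) = fun v : ℂ × ℂ =>
      ∑ i ∈ Finset.range (F.natDegree + 1), (F.coeff i).eval v.1 * v.2 ^ i := by
    funext v
    unfold fib
    rw [Polynomial.eval_map, Polynomial.eval₂_eq_sum_range]
    simp
  rw [this]
  refine ContDiff.sum fun i _ => ?_
  exact ((branch_contDiff_eval (F.coeff i)).comp contDiff_fst).mul (contDiff_snd.pow i)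

private theorem branch_one (F : ℂ[X][X]) {u₀ θ₀ : ℂ} (h0 : (fib F u₀).eval θ₀ = 0)
    (h1 : (derivative (fib F u₀)).eval θ₀ ≠ 0) :
    ∃ θ : ℂ → ℂ, θ u₀ = θ₀ ∧ (∀ᶠ u in nhds u₀, DifferentiableAt ℂ θ u) ∧
      ∀ᶠ u in nhds u₀, (fib F u).eval (θ u) = 0 := by
  set f : ℂ × ℂ → ℂ := fun v => (fib F v.1).eval v.2 with hf
  have hc : ContDiffAt ℂ 1 f (u₀, θ₀) := (branch_contDiff F).contDiffAt
  have hd : HasFDerivAt f (fderiv ℂ f (u₀, θ₀)) (u₀, θ₀) :=
    (hc.differentiableAt one_ne_zero).hasFDerivAt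
  have hi : HasFDerivAt (fun y : ℂ => ((u₀, y) : ℂ × ℂ)) (ContinuousLinearMap.inr ℂ ℂ ℂ) θ₀ :=
    hasFDerivAt_prodMk_right u₀ θ₀
  have hcomp : HasFDerivAt (fun y : ℂ => (fib F u₀).eval y)
      (fderiv ℂ f (u₀, θ₀) ∘L ContinuousLinearMap.inr ℂ ℂ ℂ) θ₀ :=
    HasFDerivAt.comp (f := fun y : ℂ => ((u₀, y) : ℂ × ℂ)) θ₀ hd hi
  have hp := ((fib F u₀).hasDerivAt θ₀).hasFDerivAt
  have heq := hcomp.unique hp
  have hinv : (fderiv ℂ f (u₀, θ₀) ∘L ContinuousLinearMap.inr ℂ ℂ ℂ).IsInvertible := by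
    rw [heq]
    refine ⟨ContinuousLinearEquiv.unitsEquivAut ℂ (Units.mk0 _ h1), ?_⟩
    ext
    simp
  refine ⟨hc.implicitFunction one_ne_zero hinv, hc.implicitFunction_apply_self one_ne_zero hinv,
    ?_, ?_⟩
  · have h2 := hc.contDiffAt_implicitFunction one_ne_zero hinv
    have h3 := h2.eventually (by simp)
    exact h3.mono fun u hu => hu.differentiableAt one_ne_zero
  · have h2 := hc.eventually_apply_implicitFunction one_ne_zero hinv
    refine h2.mono fun u hu => ?_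
    have : f (u₀, θ₀) = 0 := h0
    rw [this] at hu
    exact hu

private theorem branch_prod {p : ℂ[X]} (hp : p.Monic) {n : ℕ} (hn : p.natDegree = n)
    {a : Fin n → ℂ} (ha : Function.Injective a) (hr : ∀ j, p.eval (a j) = 0) :
    p = ∏ j, (X - C (a j)) := by
  have hq : (∏ j, (X - C (a j)) : ℂ[X]).Monic :=
    monic_prod_of_monic _ _ fun j _ => monic_X_sub_C _
  have hdvd : (∏ j, (X - C (a j)) : ℂ[X]) ∣ p := by
    refine Fintype.prod_dvd_of_coprime ?_ fun j => dvd_iff_isRoot.2 (hr j)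
    exact pairwise_coprime_X_sub_C ha
  have hdeg : (∏ j, (X - C (a j)) : ℂ[X]).natDegree = n := by
    rw [natDegree_prod_of_monic _ _ fun j _ => monic_X_sub_C _]
    simp
  exact (eq_of_monic_of_dvd_of_natDegree_le hq hp hdvd (by rw [hn, hdeg])).symm ▸ rfl

private theorem branch_roots {p : ℂ[X]} (hp : p.Monic) {n : ℕ} (hn : p.natDegree = n)
    (h : ∀ θ, p.eval θ = 0 → (derivative p).eval θ ≠ 0) :
    ∃ a : Fin n → ℂ, Function.Injective a ∧ ∀ j, p.eval (a j) = 0 := by
  classical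
  have hnd : p.roots.Nodup := by
    rw [Multiset.nodup_iff_count_le_one]
    intro a
    rw [count_roots]
    by_contra hlt
    push Not at hlt
    have := (one_lt_rootMultiplicity_iff_isRoot hp.ne_zero).1 hlt
    exact h a this.1 this.2
  have hcard : p.roots.toFinset.card = n := by
    rw [Multiset.toFinset_card_of_nodup hnd, ← hn]
    exact (IsAlgClosed.splits p).natDegree_eq_card_roots.symm
  let e := (Finset.equivFinOfCardEq hcard).symm
  refine ⟨fun j => (e j : ℂ), fun i j hij => e.injective (Subtype.ext hij), fun j => ?_⟩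
  have := (e j).2
  rw [Multiset.mem_toFinset, mem_roots hp.ne_zero] at this
  exact this

/-- Each simple root continues holomorphically (implicit function theorem,
`HasStrictFDerivAt.implicitFunction` or the inverse function theorem for
`(u, θ) ↦ (u, F (u, θ))`, e.g. `HasStrictFDerivAt.toOpenPartialHomeomorph` with
`ContDiffAt.to_localInverse`). The `natDegree F` branches stay distinct near `u₀`, so they are all
the roots of the monic polynomial `fib F u`. -/
theorem exists_branches (F : ℂ[X][X]) (hF : F.Monic) {u₀ : ℂ}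
    (h : ∀ θ, (fib F u₀).eval θ = 0 → (derivative (fib F u₀)).eval θ ≠ 0) :
    ∃ ε : ℝ, 0 < ε ∧ ∃ θ : Fin F.natDegree → ℂ → ℂ,
      (∀ j, DifferentiableOn ℂ (θ j) (Metric.ball u₀ ε)) ∧
      (∀ u ∈ Metric.ball u₀ ε, Function.Injective fun j => θ j u) ∧
      ∀ u ∈ Metric.ball u₀ ε, fib F u = ∏ j, (X - C (θ j u)) := by
  have hm : ∀ u, (fib F u).Monic := fun u => hF.map _
  have hn : ∀ u, (fib F u).natDegree = F.natDegree := fun u => hF.natDegree_map _
  obtain ⟨a, ha, hr⟩ := branch_roots (hm u₀) (hn u₀) h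
  choose θ hθ0 hθd hθr using fun j => branch_one F (hr j) (h _ (hr j))
  have hcont : ∀ j, ContinuousAt (θ j) u₀ := fun j => (hθd j).self_of_nhds.continuousAt
  have hne : ∀ i j, ∀ᶠ u in nhds u₀, i ≠ j → θ i u ≠ θ j u := by
    intro i j
    by_cases hij : i = j
    · exact Filter.Eventually.of_forall fun u hu => absurd hij hu
    · have h0 : θ i u₀ ≠ θ j u₀ := by
        rw [hθ0, hθ0]
        exact fun hh => hij (ha hh)
      have h1 : ContinuousAt (fun u => θ i u - θ j u) u₀ := (hcont i).sub (hcont j)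
      exact (h1.eventually_ne (sub_ne_zero.2 h0)).mono fun u hu _ => sub_ne_zero.1 hu
  have hall : ∀ᶠ u in nhds u₀, (∀ j, DifferentiableAt ℂ (θ j) u) ∧
      (∀ j, (fib F u).eval (θ j u) = 0) ∧ ∀ i j, i ≠ j → θ i u ≠ θ j u := by
    refine (Filter.eventually_all.2 hθd).and ((Filter.eventually_all.2 hθr).and ?_)
    exact Filter.eventually_all.2 fun i => Filter.eventually_all.2 fun j => hne i j
  obtain ⟨ε, hε, hb⟩ := Metric.eventually_nhds_iff_ball.1 hall
  have hinj : ∀ u ∈ Metric.ball u₀ ε, Function.Injective fun j => θ j u := by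
    intro u hu i j hij
    by_contra hne'
    exact (hb u hu).2.2 i j hne' hij
  refine ⟨ε, hε, θ, fun j u hu => ((hb u hu).1 j).differentiableWithinAt, hinj, fun u hu => ?_⟩
  exact branch_prod (hm u) (hn u) (hinj u hu) (hb u hu).2.1

/-- The image of an interval is preconnected and countable, hence a point
(`Set.Countable.isTotallyDisconnected`); then use the identity theorem
(`AnalyticOnNhd.eqOn_of_preconnected_of_frequently_eq`). The interval is parametrised as
`u₁ + s * d`, `s ∈ (0, 1)`. -/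
theorem mem_of_countable {E : Type*} [NormedAddCommGroup E] [NormedSpace ℂ E] [CompleteSpace E]
    {g : ℂ → E} {u₀ : ℂ} {ε : ℝ} (hg : DifferentiableOn ℂ g (Metric.ball u₀ ε)) {S : Set E}
    (hS : S.Countable) {u₁ d : ℂ} (hd : d ≠ 0)
    (h : ∀ s ∈ Ioo (0 : ℝ) 1, u₁ + s * d ∈ Metric.ball u₀ ε ∧ g (u₁ + s * d) ∈ S) :
    ∀ u ∈ Metric.ball u₀ ε, g u ∈ S := by
  set γ : ℝ → ℂ := fun s => u₁ + s * d with hγ
  have hγc : Continuous γ := by fun_prop
  have hcont : ContinuousOn (g ∘ γ) (Ioo (0 : ℝ) 1) :=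
    hg.continuousOn.comp hγc.continuousOn fun s hs => (h s hs).1
  have hpre : IsPreconnected ((g ∘ γ) '' Ioo (0 : ℝ) 1) := isPreconnected_Ioo.image _ hcont
  have hsub : (g ∘ γ) '' Ioo (0 : ℝ) 1 ⊆ S := by
    rintro _ ⟨s, hs, rfl⟩
    exact (h s hs).2
  have hss : ((g ∘ γ) '' Ioo (0 : ℝ) 1).Subsingleton := hS.isTotallyDisconnected _ hsub hpre
  have hhalf : (1 / 2 : ℝ) ∈ Ioo (0 : ℝ) 1 := ⟨by norm_num, by norm_num⟩
  have hconst : ∀ s ∈ Ioo (0 : ℝ) 1, g (γ s) = g (γ (1 / 2)) := fun s hs =>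
    hss ⟨s, hs, rfl⟩ ⟨1 / 2, hhalf, rfl⟩
  have han : AnalyticOnNhd ℂ g (Metric.ball u₀ ε) := hg.analyticOnNhd Metric.isOpen_ball
  have hfr : ∃ᶠ z in nhdsWithin (γ (1 / 2)) {γ (1 / 2)}ᶜ, g z = (fun _ => g (γ (1 / 2))) z := by
    have ht : Filter.Tendsto γ (nhdsWithin (1 / 2 : ℝ) {1 / 2}ᶜ)
        (nhdsWithin (γ (1 / 2)) {γ (1 / 2)}ᶜ) := by
      refine tendsto_nhdsWithin_iff.2 ⟨(hγc.tendsto _).mono_left nhdsWithin_le_nhds, ?_⟩
      filter_upwards [self_mem_nhdsWithin] with s hs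
      intro hh
      apply hs
      have h1 : (s : ℂ) * d = ((1 / 2 : ℝ) : ℂ) * d := add_left_cancel hh
      exact Complex.ofReal_injective (mul_right_cancel₀ hd h1)
    refine ht.frequently (Filter.Eventually.frequently ?_)
    have : Ioo (0 : ℝ) 1 ∈ nhdsWithin (1 / 2 : ℝ) {1 / 2}ᶜ :=
      mem_nhdsWithin_of_mem_nhds (isOpen_Ioo.mem_nhds hhalf)
    filter_upwards [this] with s hs
    exact hconst s hs
  have heq := han.eqOn_of_preconnected_of_frequently_eq analyticOnNhd_const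
    (convex_ball u₀ ε).isPreconnected (h _ hhalf).1 hfr
  intro u hu
  rw [heq hu]
  exact (h _ hhalf).2

end Pool.Agent.GR
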