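import Pool.Agent.Lib.MP_aa40d3_nt.GR.Loc

/-! The determinant of a saturated fundamental matrix. -/

open Polynomial Matrix

namespace Pool.Agent.GR

variable {k : Type*} [Field k] {n r : ℕ}

private theorem glob_eval (t : Fin n → k) (A : Fin n → Matrix (Fin r) (Fin r) k) (i : Fin n) :
    (pm t A).map (eval (t i)) =
      (∏ j ∈ Finset.univ.erase i, (X - C (t j)) : k[X]).eval (t i) • A i := by
  ext a b
  simp only [pm, Matrix.map_apply, Matrix.sum_apply, Matrix.smul_apply, smul_eq_mul,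
    eval_finsetSum, eval_mul, eval_C]
  refine Finset.sum_eq_single i (fun j _ hj => ?_) (by simp)
  have : (∏ l ∈ Finset.univ.erase j, (X - C (t l)) : k[X]).eval (t i) = 0 := by
    rw [eval_prod]
    exact Finset.prod_eq_zero (i := i) (by simp [Ne.symm hj]) (by simp)
  rw [this, zero_mul]

private theorem glob_ne {t : Fin n → k} (ht : Function.Injective t) (i : Fin n) (d : Fin n → ℕ) :
    (∏ j ∈ Finset.univ.erase i, (X - C (t j)) ^ d j : k[X]).eval (t i) ≠ 0 := by
  rw [eval_prod]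
  refine Finset.prod_ne_zero_iff.2 fun j hj => ?_
  have hji : j ≠ i := (Finset.mem_erase.1 hj).1
  simp only [eval_pow, eval_sub, eval_X, eval_C]
  exact pow_ne_zero _ (sub_ne_zero.2 fun h => hji (ht h).symm)

/-- Apply `loc_exp` at each `t i` (with `δ1 = ∏_{j ≠ i} (X - C (t j))`), so that
`∏ (X - C (t i)) ^ d i` divides `det Φ` (pairwise coprime) and the quotient has no irreducible
factor (`Satd.not_dvd`; an irreducible factor of `dl t` is associated to some `X - C (t i)`). -/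
theorem glob (p : ℕ) [Fact p.Prime] [CharP k p] {t : Fin n → k} (ht : Function.Injective t)
    {A : Fin n → Matrix (Fin r) (Fin r) k} (hf : HasFund t A) :
    ∃ (Φ : Matrix (Fin r) (Fin r) k[X]) (e : Fin n → Fin r → ℕ) (c : k), c ≠ 0 ∧
      dl t • Φ.map derivative = pm t A * Φ ∧ (∀ i b, e i b < p) ∧
      (∀ i, (A i).charpoly = ∏ b, (X - C (e i b : k))) ∧
      Φ.det = C c * ∏ i, (X - C (t i)) ^ (∑ b, e i b) := by
  obtain ⟨Φ, hdet, hΦ, hs⟩ := exists_satd p (δ := dl t) (P := pm t A) hf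
  have hdl : ∀ i, dl t = (X - C (t i)) * ∏ j ∈ Finset.univ.erase i, (X - C (t j)) := fun i =>
    (Finset.mul_prod_erase Finset.univ (fun j => (X - C (t j) : k[X])) (Finset.mem_univ i)).symm
  have hδ : ∀ i, (∏ j ∈ Finset.univ.erase i, (X - C (t j)) : k[X]).eval (t i) ≠ 0 := fun i => by
    simpa using glob_ne ht i fun _ => 1
  choose e he hch u hu hu0 using fun i =>
    loc_exp p (hδ i) (glob_eval t A i) (by rw [← hdl i]; exact hΦ) hs
  have hdvd : (∏ i, (X - C (t i)) ^ (∑ b, e i b) : k[X]) ∣ Φ.det := by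
    refine Fintype.prod_dvd_of_coprime (fun i j hij => ?_) fun i => ⟨u i, hu i⟩
    exact (pairwise_coprime_X_sub_C ht hij).pow
  obtain ⟨w, hw⟩ := hdvd
  have hw0 : w ≠ 0 := by
    rintro rfl
    exact hdet (by rw [hw, mul_zero])
  have hwi : ∀ i, w.eval (t i) ≠ 0 := by
    intro i h0
    have h1 : (X - C (t i)) ^ (∑ b, e i b) * u i = (X - C (t i)) ^ (∑ b, e i b) *
        ((∏ j ∈ Finset.univ.erase i, (X - C (t j)) ^ (∑ b, e j b)) * w) := by
      rw [← hu i, hw, ← mul_assoc, Finset.mul_prod_erase Finset.univ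
        (fun j => (X - C (t j) : k[X]) ^ (∑ b, e j b)) (Finset.mem_univ i)]
    have h2 := mul_left_cancel₀ (pow_ne_zero _ (X_sub_C_ne_zero (t i))) h1
    apply hu0 i
    rw [h2, eval_mul, h0, mul_zero]
  have hunit : IsUnit w := by
    by_contra hnu
    obtain ⟨q, hq, hqw⟩ := WfDvdMonoid.exists_irreducible_factor hnu hw0
    have hqd : q ∣ Φ.det := by
      rw [hw]
      exact Dvd.dvd.mul_left hqw _
    refine Satd.not_dvd p hΦ hs hq (fun hqδ => ?_) hqd
    obtain ⟨i, -, hi⟩ := (Prime.dvd_finsetProd_iff hq.prime _).1 hqδ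
    have hass : Associated q (X - C (t i)) := hq.associated_of_dvd (irreducible_X_sub_C _) hi
    exact hwi i (dvd_iff_isRoot.1 (hass.symm.dvd.trans hqw))
  obtain ⟨c, hc, rfl⟩ := Polynomial.isUnit_iff.1 hunit
  exact ⟨Φ, e, c, hc.ne_zero, hΦ, he, hch, by rw [hw, mul_comm]⟩

end Pool.Agent.GR
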