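import Pool.Agent.Lib.MP_aa40d3_nt.GR.Cyc

/-! Euler equations in characteristic `p`. -/

open Polynomial Matrix

namespace Pool.Agent.GR

variable {k : Type*} [Field k] {n r : ℕ}

private theorem eul_coeff_iter (y : k[X]) (j m : ℕ) :
    (th^[j] y).coeff m = (m : k) ^ j * y.coeff m := by
  induction' j with j ih
  · simp
  · rw [Function.iterate_succ_apply', coeff_th, ih]
    ring

/-- If a nonzero polynomial `χ` of degree `< r` vanishes at `(m : k)` for all exponents `m` that
occur in the `y b`, its coefficient vector kills `wr y` from the left (`coeff_th`). -/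
theorem wr_eq_zero_of_poly (y : Fin r → k[X]) (χ : k[X]) (h0 : χ ≠ 0) (hd : χ.natDegree < r)
    (h : ∀ b m, (y b).coeff m ≠ 0 → χ.eval (m : k) = 0) : (wr y).det = 0 := by
  classical
  refine Matrix.exists_vecMul_eq_zero_iff.mp ⟨fun j => C (χ.coeff j), fun hv => ?_, ?_⟩
  · have h1 := congrFun hv ⟨χ.natDegree, hd⟩
    simp only [Pi.zero_apply, C_eq_zero, coeff_natDegree, leadingCoeff_eq_zero] at h1
    exact h0 h1
  · funext b
    ext m
    simp only [vecMul, dotProduct, wr, of_apply, finsetSum_coeff, coeff_C_mul, eul_coeff_iter,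
      Pi.zero_apply, coeff_zero]
    have h1 : ∑ j : Fin r, χ.coeff j * ((m : k) ^ (j : ℕ) * (y b).coeff m) =
        χ.eval (m : k) * (y b).coeff m := by
      rw [eval_eq_sum_range' hd, Finset.sum_mul,
        ← Fin.sum_univ_eq_sum_range (fun j => χ.coeff j * (m : k) ^ j * (y b).coeff m)]
      exact Finset.sum_congr rfl fun j _ => by ring
    rw [h1]
    by_cases h2 : (y b).coeff m = 0
    · rw [h2, mul_zero]
    · rw [h b m h2, zero_mul]

/-- All exponents of the `y b` lie in the set of the `γ j`. If `γ` is not injective, or some `γ j`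
is not a natural number cast, drop that `j` from `∏ (X - C (γ j))` and use the previous lemma.
For the bound let `z j b` be the part of `y b` with exponents `m` such that `(m : k) = γ j`; then
`wr y = (vandermonde γ)ᵀ.map C * z` and `X ^ e j` divides row `j` of `z` (an exponent `m` with
`(m : k) = (e j : k)` and `e j < p` satisfies `e j ≤ m`), so `X ^ ∑ e j` divides the determinant. -/
theorem euler_charp (p : ℕ) [Fact p.Prime] [CharP k p] (y : Fin r → k[X]) (hw : (wr y).det ≠ 0)
    (γ : Fin r → k) (h : ∀ b m, (y b).coeff m ≠ 0 → ∃ j, (m : k) = γ j) :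
    Function.Injective γ ∧ (∀ j, ∃ m : ℕ, (m : k) = γ j) ∧
      ∀ e : Fin r → ℕ, (∀ j, e j < p) → (∀ j, (e j : k) = γ j) →
        ∑ j, e j ≤ ((wr y).det).natTrailingDegree := by
  classical
  have key : ∀ j, ∃ m : ℕ, (m : k) = γ j ∧ ∀ i, i ≠ j → (m : k) ≠ γ i := by
    intro j
    by_contra hcon
    refine hw (wr_eq_zero_of_poly y (∏ i ∈ Finset.univ.erase j, (X - C (γ i)))
      (monic_prod_of_monic _ _ fun i _ => monic_X_sub_C _).ne_zero ?_ fun b m hm => ?_)
    · rw [natDegree_prod_of_monic _ _ fun i _ => monic_X_sub_C _]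
      simp only [natDegree_X_sub_C, Finset.sum_const, smul_eq_mul, mul_one]
      rw [Finset.card_erase_of_mem (Finset.mem_univ j), Finset.card_univ, Fintype.card_fin]
      have := j.2
      omega
    · by_contra h1
      rw [eval_prod, Finset.prod_eq_zero_iff] at h1
      have h2 : ∀ i, i ≠ j → (m : k) ≠ γ i := fun i hi h3 =>
        h1 ⟨i, Finset.mem_erase.mpr ⟨hi, Finset.mem_univ i⟩, by simp [h3]⟩
      obtain ⟨i, hi⟩ := h b m hm
      by_cases h3 : i = j
      · exact hcon ⟨m, h3 ▸ hi, h2⟩
      · exact h2 i h3 hi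
  have hinj : Function.Injective γ := by
    intro i j hij
    by_contra hne
    obtain ⟨m, h1, h2⟩ := key j
    exact h2 i hne (h1.trans hij.symm)
  refine ⟨hinj, fun j => (key j).imp fun m hm => hm.1, fun e he1 he2 => ?_⟩
  let z : Matrix (Fin r) (Fin r) k[X] := Matrix.of fun j b =>
    ∑ m ∈ (y b).support.filter fun m : ℕ => (m : k) = γ j, monomial m ((y b).coeff m)
  have hz : ∀ j b m, (z j b).coeff m = if (m : k) = γ j then (y b).coeff m else 0 := by
    intro j b m
    simp only [z, of_apply, finsetSum_coeff, coeff_monomial, Finset.sum_ite_eq',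
      Finset.mem_filter, mem_support_iff]
    by_cases h1 : (y b).coeff m = 0 <;> simp [h1]
  have hfac : wr y = (Matrix.of fun a j : Fin r => C (γ j ^ (a : ℕ))) * z := by
    ext a b m
    simp only [wr, of_apply, Matrix.mul_apply, finsetSum_coeff, coeff_C_mul, eul_coeff_iter, hz]
    by_cases h1 : (y b).coeff m = 0
    · simp [h1]
    · obtain ⟨j, hj⟩ := h b m h1
      rw [Finset.sum_eq_single j]
      · rw [if_pos hj, hj]
      · intro i _ hi
        rw [if_neg fun h2 => hi (hinj (h2.symm.trans hj)), mul_zero]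
      · exact fun h2 => absurd (Finset.mem_univ j) h2
  have hdiv : ∀ j b, ∃ q, z j b = X ^ e j * q := by
    intro j b
    refine X_pow_dvd_iff.mpr fun d hd => ?_
    rw [hz, if_neg]
    intro h1
    have h2 := CharP.natCast_injOn_Iio k p (Set.mem_Iio.mpr (hd.trans (he1 j)))
      (Set.mem_Iio.mpr (he1 j)) (h1.trans (he2 j).symm)
    omega
  choose q hq using hdiv
  have hz' : z = diagonal (fun j => (X : k[X]) ^ e j) * Matrix.of q := by
    ext j b : 2
    rw [diagonal_mul, hq, of_apply]
  have hdvd : (X : k[X]) ^ (∑ j, e j) ∣ (wr y).det := by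
    rw [hfac, det_mul, hz', det_mul, det_diagonal, Finset.prod_pow_eq_pow_sum]
    exact Dvd.dvd.mul_left (Dvd.intro _ rfl) _
  exact le_natTrailingDegree hw (X_pow_dvd_iff.mp hdvd)

/-- Solutions of an Euler equation: compare the coefficients of `X ^ (j0 + s + m)`; by `coeff_th`
they give `c * χ (s + m) * y.coeff m = 0` with `χ = ∏ (X - C (β j))` monic of degree `r`. -/
theorem euler_exp {c : k} (hc : c ≠ 0) (j0 s : ℕ) (β : Fin r → k) {y : k[X]}
    (h : ScalEq (C c * X ^ j0) (fun j : Fin r => C (c * (∏ i, (X - C (β i))).coeff j) * X ^ j0)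
      (X ^ s * y)) (m : ℕ) (hm : y.coeff m ≠ 0) : ∃ j, ((s + m : ℕ) : k) = β j := by
  classical
  set χ : k[X] := ∏ i, (X - C (β i)) with hχ
  have hmon : χ.Monic := monic_prod_of_monic _ _ fun i _ => monic_X_sub_C _
  have hdeg : χ.natDegree = r := by
    rw [hχ, natDegree_prod_of_monic _ _ fun i _ => monic_X_sub_C _]
    simp
  have h1 := congrArg (fun w => coeff w (j0 + (s + m))) h
  simp only [coeff_add, finsetSum_coeff, mul_assoc, coeff_C_mul, coeff_zero,
    add_comm j0 (s + m), coeff_X_pow_mul, eul_coeff_iter] at h1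
  have h2 : ((X : k[X]) ^ s * y).coeff (s + m) = y.coeff m := by
    rw [add_comm, coeff_X_pow_mul]
  rw [h2] at h1
  have h3 : χ.eval ((s + m : ℕ) : k) =
      ((s + m : ℕ) : k) ^ r + ∑ j : Fin r, χ.coeff j * ((s + m : ℕ) : k) ^ (j : ℕ) := by
    rw [eval_eq_sum_range, hdeg, Finset.sum_range_succ,
      ← Fin.sum_univ_eq_sum_range (fun j => χ.coeff j * ((s + m : ℕ) : k) ^ j)]
    have : χ.coeff r = 1 := hdeg ▸ hmon.coeff_natDegree
    rw [this, one_mul, add_comm]
  have h4 : c * (χ.eval ((s + m : ℕ) : k) * y.coeff m) = 0 := by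
    rw [h3, ← h1, add_mul, mul_add, Finset.sum_mul, Finset.mul_sum]
    congr 1
    exact Finset.sum_congr rfl fun j _ => by ring
  have h5 : χ.eval ((s + m : ℕ) : k) = 0 :=
    (mul_eq_zero.mp ((mul_eq_zero.mp h4).resolve_left hc)).resolve_right hm
  rw [hχ, eval_prod, Finset.prod_eq_zero_iff] at h5
  obtain ⟨j, -, hj⟩ := h5
  exact ⟨j, by simpa [sub_eq_zero] using hj⟩

end Pool.Agent.GR
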