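import Pool.Agent.Lib.MP_aa40d3_nt.GR.SatA
import Pool.Agent.Lib.MP_aa40d3_nt.GR.Eul

/-! Lattices of solutions over `κ⟦X⟧`. -/

open Polynomial Matrix

namespace Pool.Agent.GR

variable {κ : Type} [Field κ] {r : ℕ}

private theorem sat_th_iter_const {R : Type*} [CommRing R] {u : R[X]} (hu : derivative u = 0)
    (y : R[X]) (k : ℕ) : th^[k] (u * y) = u * th^[k] y := by
  induction k with
  | zero => rfl
  | succ k ih =>
    rw [Function.iterate_succ_apply', Function.iterate_succ_apply', ih, th, th, derivative_mul, hu]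
    ring

private theorem sat_red_eq_zero_iff (y : (PowerSeries κ)[X]) :
    red y = 0 ↔ C (PowerSeries.X : PowerSeries κ) ∣ y := by
  rw [C_dvd_iff_dvd_coeff, Polynomial.ext_iff]
  refine forall_congr' fun i => ?_
  rw [PowerSeries.X_dvd_iff, red, coe_mapRingHom, coeff_map, coeff_zero]

private theorem sat_red_C (a : PowerSeries κ) :
    red (C a) = C (PowerSeries.constantCoeff a) := by
  rw [red, coe_mapRingHom, map_C]

private theorem sat_CX_ne : (C (PowerSeries.X : PowerSeries κ) : (PowerSeries κ)[X]) ≠ 0 :=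
  C_ne_zero.mpr PowerSeries.X_ne_zero

private theorem sat_split (W : (PowerSeries κ)[X]) (hW : W ≠ 0) :
    ∃ (m : ℕ) (W1 : (PowerSeries κ)[X]), red W1 ≠ 0 ∧ W = C (PowerSeries.X ^ m) * W1 := by
  have hu : ¬ IsUnit (C (PowerSeries.X : PowerSeries κ) : (PowerSeries κ)[X]) := by
    rw [isUnit_C]
    exact PowerSeries.X_irreducible.not_isUnit
  obtain ⟨m, W1, h1, h2⟩ := WfDvdMonoid.max_power_factor' hW hu
  exact ⟨m, W1, fun h => h1 ((sat_red_eq_zero_iff _).mp h), by rw [h2, map_pow]⟩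

private theorem sat_unique_aux {A B : (PowerSeries κ)[X]} {i j : ℕ} (hA : red A ≠ 0)
    (h : C (PowerSeries.X ^ i) * A = C (PowerSeries.X ^ j) * B) : j ≤ i := by
  by_contra hij
  obtain ⟨d, rfl⟩ : ∃ d, j = i + (d + 1) := ⟨j - i - 1, by omega⟩
  rw [pow_add, map_mul, mul_assoc] at h
  have h' := mul_left_cancel₀ (C_ne_zero.mpr (pow_ne_zero i PowerSeries.X_ne_zero)) h
  apply hA
  rw [sat_red_eq_zero_iff, h', pow_succ', map_mul, mul_assoc]
  exact dvd_mul_right _ _

private theorem sat_unique {A B : (PowerSeries κ)[X]} {i j : ℕ} (hA : red A ≠ 0) (hB : red B ≠ 0)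
    (h : C (PowerSeries.X ^ i) * A = C (PowerSeries.X ^ j) * B) : A = B := by
  obtain rfl : i = j := le_antisymm (sat_unique_aux hB h.symm) (sat_unique_aux hA h)
  exact mul_left_cancel₀ (C_ne_zero.mpr (pow_ne_zero i PowerSeries.X_ne_zero)) h

private theorem sat_split_const (a : PowerSeries κ) (ha : a ≠ 0) :
    ∃ (m : ℕ) (a' : PowerSeries κ), PowerSeries.constantCoeff a' ≠ 0 ∧
      a = PowerSeries.X ^ m * a' := by
  obtain ⟨m, a', h1, h2⟩ :=
    WfDvdMonoid.max_power_factor' ha (PowerSeries.X_irreducible (R := κ)).not_isUnit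
  exact ⟨m, a', fun h => h1 (PowerSeries.X_dvd_iff.mpr h), h2⟩

private theorem sat_clear (W : (FF κ)[X]) :
    ∃ (W1 : (PowerSeries κ)[X]) (u : FF κ), u ≠ 0 ∧ W1.map (algebraMap _ (FF κ)) = C u * W := by
  obtain ⟨b, hb, h⟩ :=
    IsLocalization.integerNormalization_spec (nonZeroDivisors (PowerSeries κ)) W
  refine ⟨IsLocalization.integerNormalization (nonZeroDivisors (PowerSeries κ)) W,
    algebraMap _ (FF κ) b, ?_, ?_⟩
  rotate_left
  · rw [h, ← smul_eq_C_mul, algebraMap_smul]
  · exact (map_ne_zero_iff _ (IsFractionRing.injective (PowerSeries κ) (FF κ))).mpr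
      (nonZeroDivisors.ne_zero hb)

/-- Clear denominators (`IsLocalization.integerNormalization_map_to_map`, one common nonzero `u`
for all `b` or one for each column) and apply `exists_saturated` with
`Pr y := ScalEq H N (g * y)` (`ScalEq.add`, `const_mul`, `of_const_mul`, `of_map`). -/
theorem exists_lattice_basis (p : ℕ) [Fact p.Prime] [CharP κ p] (H g : (PowerSeries κ)[X])
    (N : Fin r → (PowerSeries κ)[X]) (y0 : Fin r → (FF κ)[X]) (hw : (wr y0).det ≠ 0)
    (hy : ∀ b, ScalEq (H.map (algebraMap _ (FF κ))) (fun k => (N k).map (algebraMap _ (FF κ)))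
      (g.map (algebraMap _ (FF κ)) * y0 b)) :
    ∃ (y : Fin r → (PowerSeries κ)[X]) (c : FF κ), c ≠ 0 ∧
      ((wr y).det).map (algebraMap _ (FF κ)) = C c * (wr y0).det ∧ red (wr y).det ≠ 0 ∧
      ∀ b, ScalEq H N (g * y b) := by
  have hinj := IsFractionRing.injective (PowerSeries κ) (FF κ)
  choose y1 u hu hy1 using fun b => sat_clear (y0 b)
  have hdet : ((wr y1).det).map (algebraMap _ (FF κ)) = C (∏ b, u b) * (wr y0).det := by
    have h1 : ((wr y1).det).map (algebraMap _ (FF κ)) =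
        ((wr y1).map (Polynomial.map (algebraMap _ (FF κ)))).det :=
      RingHom.map_det (mapRingHom (algebraMap (PowerSeries κ) (FF κ))) (wr y1)
    have h2 : (wr fun b => (y1 b).map (algebraMap _ (FF κ))) =
        wr y0 * diagonal fun b => C (u b) := by
      ext1 k b
      rw [mul_diagonal, wr, wr, of_apply, of_apply, hy1, sat_th_iter_const (derivative_C), mul_comm]
    rw [h1, wr_map, h2, det_mul, det_diagonal, map_prod, mul_comm]
  have hU : (∏ b, u b) ≠ 0 := Finset.prod_ne_zero_iff.mpr fun b _ => hu b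
  have hw1 : (wr y1).det ≠ 0 := by
    intro h0
    rw [h0, Polynomial.map_zero] at hdet
    exact mul_ne_zero (C_ne_zero.mpr hU) hw hdet.symm
  have hp : ((p : ℕ) : (PowerSeries κ)[X]) = 0 := by
    have h0 : ((p : ℕ) : κ) = 0 := CharP.cast_eq_zero κ p
    have h1 : ((p : ℕ) : (PowerSeries κ)[X]) = C (PowerSeries.C ((p : ℕ) : κ)) := by
      rw [map_natCast, map_natCast]
    rw [h1, h0, map_zero, map_zero]
  obtain ⟨y', m, hPr, hd, hred⟩ := exists_saturated p (fun y => ScalEq H N (g * y))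
    (fun y z hy hz => by
      show ScalEq H N (g * (y + z))
      rw [mul_add]
      exact hy.add hz)
    (fun c y hy => by
      show ScalEq H N (g * (expand (PowerSeries κ) p c * y))
      rw [mul_left_comm]
      refine ScalEq.const_mul ?_ hy
      rw [derivative_expand, hp, zero_mul, mul_zero])
    (fun y hy => by
      have hy' : ScalEq H N (C PowerSeries.X * (g * y)) := by
        rw [mul_left_comm]
        exact hy
      exact ScalEq.of_const_mul derivative_C sat_CX_ne hy')
    y1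
    (fun b => by
      refine ScalEq.of_map (algebraMap _ (FF κ)) hinj ?_
      rw [Polynomial.map_mul, hy1, mul_left_comm]
      exact ScalEq.const_mul derivative_C (hy b))
    hw1
  have hX : algebraMap (PowerSeries κ) (FF κ) (PowerSeries.X ^ m) ≠ 0 :=
    (map_ne_zero_iff _ hinj).mpr (pow_ne_zero m PowerSeries.X_ne_zero)
  refine ⟨y', (algebraMap (PowerSeries κ) (FF κ) (PowerSeries.X ^ m))⁻¹ * ∏ b, u b,
    mul_ne_zero (inv_ne_zero hX) hU, ?_, hred, hPr⟩
  rw [map_mul, mul_assoc, ← hdet, hd, Polynomial.map_mul, map_C, ← mul_assoc, ← map_mul,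
    inv_mul_cancel₀ hX, map_one, one_mul]

/-- A nonzero polynomial over the fraction field is a scalar multiple of a polynomial with
nonzero reduction. -/
theorem exists_primitive (W : (FF κ)[X]) (hW : W ≠ 0) :
    ∃ (W1 : (PowerSeries κ)[X]) (c : FF κ), c ≠ 0 ∧ red W1 ≠ 0 ∧
      W = C c * W1.map (algebraMap _ (FF κ)) := by
  have hinj := IsFractionRing.injective (PowerSeries κ) (FF κ)
  obtain ⟨W0, u, hu, h0⟩ := sat_clear W
  have hW0 : W0 ≠ 0 := by
    intro h
    rw [h, Polynomial.map_zero] at h0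
    exact mul_ne_zero (C_ne_zero.mpr hu) hW h0.symm
  obtain ⟨m, W1, h1, h2⟩ := sat_split W0 hW0
  have hX : algebraMap (PowerSeries κ) (FF κ) (PowerSeries.X ^ m) ≠ 0 :=
    (map_ne_zero_iff _ hinj).mpr (pow_ne_zero m PowerSeries.X_ne_zero)
  refine ⟨W1, u⁻¹ * algebraMap (PowerSeries κ) (FF κ) (PowerSeries.X ^ m),
    mul_ne_zero (inv_ne_zero hu) hX, h1, ?_⟩
  rw [h2, Polynomial.map_mul, map_C] at h0
  rw [map_mul, mul_assoc, h0, ← mul_assoc, ← map_mul, inv_mul_cancel₀ hu, map_one, one_mul]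

/-- Write `c = X ^ a * unit / X ^ b`; after clearing, both sides have the same power of `X`. -/
theorem ntd_eq {W1 W2 : (PowerSeries κ)[X]} {c : FF κ} (h1 : red W1 ≠ 0) (h2 : red W2 ≠ 0)
    (h : W1.map (algebraMap _ (FF κ)) = C c * W2.map (algebraMap _ (FF κ))) :
    (red W1).natTrailingDegree = (red W2).natTrailingDegree := by
  have hinj := IsFractionRing.injective (PowerSeries κ) (FF κ)
  have hc : c ≠ 0 := by
    rintro rfl
    rw [map_zero, zero_mul, Polynomial.map_eq_zero_iff hinj] at h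
    exact h1 (by rw [h, map_zero])
  obtain ⟨a, b, hb, rfl⟩ := IsFractionRing.div_surjective (A := PowerSeries κ) c
  have hb0 : b ≠ 0 := nonZeroDivisors.ne_zero hb
  have ha0 : a ≠ 0 := by
    rintro rfl
    exact hc (by rw [map_zero, zero_div])
  have hb1 : algebraMap (PowerSeries κ) (FF κ) b ≠ 0 := (map_ne_zero_iff _ hinj).mpr hb0
  have h3 : C b * W1 = C a * W2 := by
    apply Polynomial.map_injective _ hinj
    rw [Polynomial.map_mul, Polynomial.map_mul, map_C, map_C, h, ← mul_assoc, ← map_mul,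
      mul_div_cancel₀ _ hb1]
  obtain ⟨i, a', ha', rfl⟩ := sat_split_const a ha0
  obtain ⟨j, b', hb', rfl⟩ := sat_split_const b hb0
  rw [map_mul, map_mul, mul_assoc, mul_assoc] at h3
  have hA : red (C b' * W1) ≠ 0 := by
    rw [map_mul, sat_red_C]
    exact mul_ne_zero (C_ne_zero.mpr hb') h1
  have hB : red (C a' * W2) ≠ 0 := by
    rw [map_mul, sat_red_C]
    exact mul_ne_zero (C_ne_zero.mpr ha') h2
  have h4 := congrArg (fun z => (red z).natTrailingDegree) (sat_unique hA hB h3)
  simp only [map_mul, sat_red_C] at h4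
  rwa [natTrailingDegree_mul (C_ne_zero.mpr hb') h1, natTrailingDegree_mul (C_ne_zero.mpr ha') h2,
    natTrailingDegree_C, natTrailingDegree_C, zero_add, zero_add] at h4

/-- If `red W ≠ 0` then `C X ^ v ∣ x * W` forces `C X ^ v ∣ x` (induction on `v`;
`C X ∣ y ↔ red y = 0` and `κ[X]` is a domain). -/
theorem dvd_of_dvd_mul_red {W x : (PowerSeries κ)[X]} (hW : red W ≠ 0) (v : ℕ)
    (h : C (PowerSeries.X ^ v) ∣ x * W) : C (PowerSeries.X ^ v) ∣ x := by
  induction v generalizing x with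
  | zero => simp
  | succ v ih =>
    rw [pow_succ', map_mul] at h ⊢
    have h1 : red (x * W) = 0 := (sat_red_eq_zero_iff _).mpr (dvd_trans (dvd_mul_right _ _) h)
    rw [map_mul] at h1
    obtain ⟨x', rfl⟩ := (sat_red_eq_zero_iff _).mp ((mul_eq_zero.mp h1).resolve_right hW)
    rw [mul_assoc, mul_dvd_mul_iff_left sat_CX_ne] at h
    exact mul_dvd_mul_left _ (ih h)

/-- Cramer: `N ᵥ* wr y = -H • (th^[r] y)`; multiply by the adjugate. -/
theorem CPO1.dvd {H : (PowerSeries κ)[X]} {N : Fin r → (PowerSeries κ)[X]} (h : CPO1 H N) (v : ℕ)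
    (hH : C (PowerSeries.X ^ v) ∣ H) (k : Fin r) : C (PowerSeries.X ^ v) ∣ N k := by
  obtain ⟨y, hw, hy⟩ := h
  refine dvd_of_dvd_mul_red hw v (dvd_trans hH ?_)
  have h1 : N ᵥ* wr y = fun b => -(H * th^[r] (y b)) := by
    funext b
    have := hy b
    rw [ScalEq] at this
    rw [eq_neg_iff_add_eq_zero, add_comm]
    exact this
  have h2 : N k * (wr y).det = ((N ᵥ* wr y) ᵥ* (wr y).adjugate) k := by
    rw [vecMul_vecMul, mul_adjugate, vecMul_smul, vecMul_one, Pi.smul_apply, smul_eq_mul, mul_comm]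
  rw [h2, h1, vecMul, dotProduct]
  exact Finset.dvd_sum fun b _ => Dvd.dvd.mul_right ((dvd_neg).mpr (dvd_mul_right _ _)) _

end Pool.Agent.GR
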