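import Pool.Agent.Lib.MP_aa40d3_nt.GR.Aff
import Pool.Agent.Lib.MP_aa40d3_nt.GR.Sat
import Pool.Agent.Lib.MP_aa40d3_nt.GR.Glob

/-! The main statement in characteristic `p`, on an annulus separating the points in `I`. -/

open Polynomial Matrix

namespace Pool.Agent.GR

variable {n r : ℕ} [NeZero r]

/-- The linear factors over the power series ring. -/
noncomputable def cpmU {κ : Type} [Field κ] (I : Finset (Fin n)) (σ : Fin n → PowerSeries κ)
    (i : Fin n) : (PowerSeries κ)[X] :=
  if i ∈ I then X - C (σ i) else 1 - C (σ i) * X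

omit [NeZero r] in
theorem cpm_red_u {κ : Type} [Field κ] (I : Finset (Fin n)) (σ : Fin n → PowerSeries κ)
    (hσ : ∀ i, PowerSeries.constantCoeff (σ i) = 0) (d : Fin n → ℕ) :
    red (∏ i, cpmU I σ i ^ d i) = X ^ (∑ i ∈ I, d i) := by
  classical
  rw [map_prod]
  have h : ∀ i, red (cpmU I σ i ^ d i) = (X : κ[X]) ^ (if i ∈ I then d i else 0) := by
    intro i
    rw [map_pow]
    by_cases hi : i ∈ I
    · simp [cpmU, hi, red, hσ i]
    · simp [cpmU, hi, red, hσ i]
  simp_rw [h]
  rw [Finset.prod_pow_eq_pow_sum, Finset.sum_ite_mem, Finset.univ_inter]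

omit [NeZero r] in
theorem cpm_factor {κ : Type} [Field κ] (I : Finset (Fin n)) {s : Fin n → FF κ}
    (σ : Fin n → PowerSeries κ)
    (hI : ∀ i ∈ I, s i = algebraMap _ (FF κ) (σ i))
    (hJ : ∀ i, i ∉ I → s i * algebraMap _ (FF κ) (σ i) = 1) (d : Fin n → ℕ) :
    ∃ c : FF κ, c ≠ 0 ∧ ∏ i, (X - C (s i)) ^ d i =
      C c * (∏ i, cpmU I σ i ^ d i).map (algebraMap _ (FF κ)) := by
  classical
  have h : ∀ i, ∃ c : FF κ, c ≠ 0 ∧
      X - C (s i) = C c * (cpmU I σ i).map (algebraMap _ (FF κ)) := by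
    intro i
    by_cases hi : i ∈ I
    · refine ⟨1, one_ne_zero, ?_⟩
      simp [cpmU, hi, hI i hi]
    · have h1 := hJ i hi
      refine ⟨-s i, neg_ne_zero.mpr (left_ne_zero_of_mul_eq_one h1), ?_⟩
      have h2 : (C (s i) : (FF κ)[X]) * C (algebraMap _ (FF κ) (σ i)) = 1 := by
        rw [← C_mul, h1, C_1]
      simp only [cpmU, hi, if_false, Polynomial.map_sub, Polynomial.map_one, Polynomial.map_mul,
        map_C, map_X, C_neg]
      linear_combination (-X) * h2
  choose c hc0 hc using h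
  refine ⟨∏ i, c i ^ d i, Finset.prod_ne_zero_iff.mpr fun i _ => pow_ne_zero _ (hc0 i), ?_⟩
  rw [Polynomial.map_prod, map_prod, ← Finset.prod_mul_distrib]
  refine Finset.prod_congr rfl fun i _ => ?_
  rw [Polynomial.map_pow, map_pow, ← mul_pow, ← hc i]

/-- `CPO1`: take `Φ` from `hf`, `y0 b = Φ 0 b`, `wr_ne_zero_of_injS`, `exists_lattice_basis` with
`g = 1`.
`CPO2`: let `A' i = A i + m0 i • 1` (`hasFund_twist`, `injS_twist`), take `Φ, e, c` from `glob` for
`A'`, `y0 b = Φ 0 b`, `g = ∏_{i ∈ I} (X - C (σ i)) ^ (p - m0 i)`. By `isSol_twist` with exponents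
`if i ∈ I then p - m0 i else 0`, `g • (column b of Φ)` solves the system `A`, so `hHN` applies.
For `i ∈ I`, `∑ b, e i b = (r - 1) * m0 i + m1 i` by `sum_exp` (cancel `D` in the field).
With `H' = cycH X (dl s) (pm s A')`, `cyc_det` gives `H' * det Φ = dl s ^ (r * r) * W0`;
write `H' = C c' * H1` (`exists_primitive`), `X - C (s i) = (X - C (σ i)).map` for `i ∈ I` and
`X - C (s j) = C (-s j) * (1 - C (σ j) * X).map` otherwise; `ntd_eq` and additivity of
`natTrailingDegree` give `ntd W + r * r * |I| = ntd (red H1) + ∑_{I} d i`, and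
`ntd (red H1) ≤ natDegree H' ≤ r * r * (n + 1)` (`natDegree_cycH`). -/
theorem cp_main {κ : Type} [Field κ] (p : ℕ) [Fact p.Prime] [CharP κ p] (I : Finset (Fin n))
    {D : ℕ} {a : Fin n → ℤ} (hD : (D : κ) ≠ 0) {s : Fin n → FF κ}
    {A : Fin n → Matrix (Fin r) (Fin r) (FF κ)} (hg : GoodSys D a s A) (hf : HasFund s A)
    (σ : Fin n → PowerSeries κ) (hσ : ∀ i, PowerSeries.constantCoeff (σ i) = 0)
    (hI : ∀ i ∈ I, s i = algebraMap _ (FF κ) (σ i))
    (hJ : ∀ i, i ∉ I → s i * algebraMap _ (FF κ) (σ i) = 1)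
    (H : (PowerSeries κ)[X]) (N : Fin r → (PowerSeries κ)[X])
    (hHN : ∀ v, IsSol (dl s) (pm s A) v →
      ScalEq (H.map (algebraMap _ (FF κ))) (fun k => (N k).map (algebraMap _ (FF κ))) (v 0)) :
    CPO1 H N ∧ CPO2 p I D a (r * r * (n + 1)) H N := by
  classical
  have hp : 0 < p := (Fact.out : p.Prime).pos
  have : CharP (FF κ) p := charP_of_injective_algebraMap (algebraMap κ (FF κ)).injective p
  have hinj : Function.Injective (algebraMap (PowerSeries κ) (FF κ)) :=
    IsFractionRing.injective _ _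
  constructor
  · obtain ⟨Φ, hΦ, hsol⟩ := hf
    have hw := wr_ne_zero_of_injS p hΦ hsol hg.injS
    obtain ⟨y, c, -, -, hred, hy⟩ := exists_lattice_basis p H 1 N (fun b => Φ 0 b) hw
      (fun b => by simpa using hHN _ (isSol_col hsol b))
    exact ⟨y, hred, fun b => by simpa using hy b⟩
  · intro m0 m1 h0 h1 hJ0 hDm
    have hf' := hasFund_twist m0 hf
    have hi' := injS_twist p hp m0 hg.injS
    obtain ⟨Φ, e, c, hc, hsol, he, hchar, hdet⟩ := glob p hg.inj hf'
    have hΦ : Φ.det ≠ 0 := by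
      rw [hdet]
      exact mul_ne_zero (C_ne_zero.mpr hc)
        (Finset.prod_ne_zero_iff.mpr fun i _ => pow_ne_zero _ (X_sub_C_ne_zero _))
    have hw0 := wr_ne_zero_of_injS p hΦ hsol hi'
    set g : (PowerSeries κ)[X] := ∏ i ∈ I, (X - C (σ i)) ^ (p - m0 i) with hgdef
    have hgmap : g.map (algebraMap _ (FF κ)) =
        ∏ i, (X - C (s i)) ^ (if i ∈ I then p - m0 i else 0) := by
      rw [hgdef, Polynomial.map_prod]
      have h : ∀ i, (X - C (s i)) ^ (if i ∈ I then p - m0 i else 0) =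
          if i ∈ I then (X - C (s i)) ^ (p - m0 i) else 1 := by
        intro i
        split_ifs <;> simp
      simp_rw [h]
      rw [Finset.prod_ite_mem, Finset.univ_inter]
      refine Finset.prod_congr rfl fun i hi => ?_
      simp [hI i hi]
    have hA : (fun i => (A i + (m0 i : FF κ) • (1 : Matrix (Fin r) (Fin r) (FF κ))) +
        (((if i ∈ I then p - m0 i else 0 : ℕ) : FF κ)) • (1 : Matrix (Fin r) (Fin r) (FF κ))) =
        A := by
      funext i
      rw [add_assoc, ← add_smul, ← Nat.cast_add]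
      by_cases hi : i ∈ I
      · rw [if_pos hi, Nat.add_sub_cancel' (h0 i).le, CharP.cast_eq_zero, zero_smul, add_zero]
      · rw [if_neg hi, hJ0 i hi]
        simp
    have hy0 : ∀ b, ScalEq (H.map (algebraMap _ (FF κ)))
        (fun k => (N k).map (algebraMap _ (FF κ)))
        (g.map (algebraMap _ (FF κ)) * Φ 0 b) := by
      intro b
      have h := isSol_twist (fun i => if i ∈ I then p - m0 i else 0) (isSol_col hsol b)
      rw [hA] at h
      have h2 := hHN _ h
      rw [hgmap]
      simpa using h2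
    obtain ⟨y, c1, hc1, hmap, hred, hy⟩ := exists_lattice_basis p H g N (fun b => Φ 0 b) hw0 hy0
    refine ⟨y, g, hred, ?_, ?_, hy⟩
    · have hcyc := cyc_det hsol
      have hdl : dl s ≠ 0 := (dl_monic s).ne_zero
      set H' := cycH X (dl s)
        (pm s fun i => A i + (m0 i : FF κ) • (1 : Matrix (Fin r) (Fin r) (FF κ))) with hH'
      have hH0 : H' ≠ 0 := by
        intro h
        rw [h, zero_mul] at hcyc
        exact mul_ne_zero (pow_ne_zero _ hdl) hw0 hcyc.symm
      have hdeg : H'.natDegree ≤ r * r * (n + 1) :=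
        natDegree_cycH (natDegree_dl s) (natDegree_pm s _)
      obtain ⟨H1, c', hc', hH1, hHe⟩ := exists_primitive H' hH0
      obtain ⟨k1, hk1, hk1e⟩ := cpm_factor I σ hI hJ (fun i => ∑ b, e i b)
      obtain ⟨k2, hk2, hk2e⟩ := cpm_factor I σ hI hJ (fun _ => r * r)
      have hdlp : dl s ^ (r * r) = ∏ i, (X - C (s i)) ^ (r * r) := by
        rw [dl, Finset.prod_pow]
      rw [hdet, hdlp, hk1e, hk2e, hHe] at hcyc
      have hr1 := cpm_red_u I σ hσ (fun i => ∑ b, e i b)
      have hr2 := cpm_red_u I σ hσ (fun _ => r * r)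
      have hk2' : (C k2 : (FF κ)[X]) * C k2⁻¹ = 1 := by
        rw [← C_mul, mul_inv_cancel₀ hk2, C_1]
      have key : ((wr y).det * ∏ i, cpmU I σ i ^ (r * r)).map (algebraMap _ (FF κ)) =
          C (c1 * c' * c * k1 * k2⁻¹) *
            (H1 * ∏ i, cpmU I σ i ^ (∑ b, e i b)).map (algebraMap _ (FF κ)) := by
        rw [Polynomial.map_mul, Polynomial.map_mul, hmap]
        simp only [C_mul]
        linear_combination (-(C c1 * C k2⁻¹)) * hcyc -
          (C c1 * (wr fun b => Φ 0 b).det *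
            (∏ i, cpmU I σ i ^ (r * r)).map (algebraMap _ (FF κ))) * hk2'
      have hX : ∀ m : ℕ, (X : κ[X]) ^ m ≠ 0 := fun m => pow_ne_zero _ X_ne_zero
      have hntd := ntd_eq (by rw [map_mul, hr2]; exact mul_ne_zero hred (hX _))
        (by rw [map_mul, hr1]; exact mul_ne_zero hH1 (hX _)) key
      rw [map_mul, map_mul, hr1, hr2, natTrailingDegree_mul hred (hX _),
        natTrailingDegree_mul hH1 (hX _), natTrailingDegree_X_pow, natTrailingDegree_X_pow] at hntd
      have hb : (red H1).natTrailingDegree ≤ r * r * (n + 1) := by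
        refine (natTrailingDegree_le_natDegree _).trans ?_
        refine (natDegree_map_le (f := PowerSeries.constantCoeff)).trans ?_
        rw [← natDegree_map_eq_of_injective hinj H1, ← natDegree_C_mul hc', ← hHe]
        exact hdeg
      have hsum : ∑ i ∈ I, ∑ b, e i b = ∑ i ∈ I, ((r - 1) * m0 i + m1 i) := by
        refine Finset.sum_congr rfl fun i hi => ?_
        refine sum_exp p (hg.rk i) (h0 i) (h1 i) ?_ (he i) (hchar i)
        have hD' : (D : FF κ) ≠ 0 := by
          rw [← map_natCast (algebraMap κ (FF κ))]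
          exact (_root_.map_ne_zero _).mpr hD
        refine mul_left_cancel₀ hD' ?_
        rw [hg.tr i]
        have h := congrArg (algebraMap κ (FF κ)) (hDm i hi)
        simpa using h
      omega
    · rw [hgdef, map_prod, ← Finset.prod_pow_eq_pow_sum]
      refine Finset.prod_congr rfl fun i _ => ?_
      simp [red, hσ i]

end Pool.Agent.GR
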