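import Pool.Agent.Lib.MP_aa40d3_nt.GR.ContA

/-! Continuation of admissible characteristic polynomials. -/

open Polynomial Matrix Set
open scoped Matrix.Norms.Operator

namespace Pool.Agent.GR

variable {n r m : ℕ}

theorem cont_differentiable_ev1 {σ : Type} [Fintype σ] (q : MvPolynomial σ ℤ) :
    Differentiable ℂ fun w : σ → ℂ => ev1 w q := by
  induction q using MvPolynomial.induction_on with
  | C a =>
    have : (fun w : σ → ℂ => ev1 w (MvPolynomial.C a)) = fun _ => (a : ℂ) := by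
      funext w; simp [ev1]
    rw [this]; exact differentiable_const _
  | add p q hp hq =>
    simp only [map_add]
    exact hp.add hq
  | mul_X p i hp =>
    have : (fun w : σ → ℂ => ev1 w (p * MvPolynomial.X i)) = fun w => ev1 w p * w i := by
      funext w; rw [map_mul]; simp [ev1]
    rw [this]
    exact hp.mul (differentiable_apply i)

theorem differentiable_ev2 {σ : Type} [Fintype σ] (q : (MvPolynomial σ ℤ)[X]) :
    Differentiable ℂ fun y : (σ → ℂ) × ℂ => ev2 y.1 y.2 q := by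
  induction q using Polynomial.induction_on' with
  | add p q hp hq =>
    simp only [map_add]
    exact hp.add hq
  | monomial k a =>
    have : (fun y : (σ → ℂ) × ℂ => ev2 y.1 y.2 (monomial k a)) =
        fun y => ev1 y.1 a * y.2 ^ k := by
      funext y; simp [ev2]
    rw [this]
    exact ((cont_differentiable_ev1 a).comp differentiable_fst).mul (differentiable_snd.pow k)

variable [NeZero r]

theorem differentiableAt_mA (M : Model n r) {y : (Fin n ⊕ Fin M.m → ℂ) × ℂ}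
    (hG : ev1 y.1 M.G ≠ 0) (i : Fin n) :
    DifferentiableAt ℂ (fun y : (Fin n ⊕ Fin M.m → ℂ) × ℂ => (M.mA y.1 y.2 i : Mat r)) y := by
  rw [differentiableAt_mat]
  intro a b
  have : (fun y : (Fin n ⊕ Fin M.m → ℂ) × ℂ => (M.mA y.1 y.2 i : Mat r) a b) =
      fun y => (ev1 y.1 M.G)⁻¹ * ev2 y.1 y.2 (M.Q i a b) := by
    funext y; simp [Model.mA]
  rw [this]
  refine DifferentiableAt.mul (DifferentiableAt.inv ?_ hG) (differentiable_ev2 _ y)
  exact ((cont_differentiable_ev1 M.G).comp differentiable_fst) y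

theorem cont_natDegree {ζ : Fin n → LL} {I : Finset (Fin n)} {q : ℂ[X]} (h : Orr r ζ I q) :
    q.natDegree ≤ r := by
  obtain ⟨ω, -, rfl, -⟩ := h
  rw [Polynomial.natDegree_prod_of_monic _ _ fun j _ => monic_X_sub_C _]
  simp

theorem cont_ext {p q : ℂ[X]} (hp : p.natDegree ≤ r) (hq : q.natDegree ≤ r)
    (h : (fun k : Fin (r + 1) => p.coeff k) = fun k : Fin (r + 1) => q.coeff k) : p = q := by
  ext k
  by_cases hk : k < r + 1
  · exact congrFun h ⟨k, hk⟩
  · rw [coeff_eq_zero_of_natDegree_lt (by omega), coeff_eq_zero_of_natDegree_lt (by omega)]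

/-- Apply `line_cont` to `M.F.map (lineHom w0 w1)`, `lineHom w0 w1 M.G`, the preimage of `Ω` in the
line, and the vector of the coefficients of index `≤ r` of the characteristic polynomial, with
values in the countable set of coefficient vectors of the `q` with `Orr r ζ I q`
(`countable_orr`, `differentiable_charpoly_coeff`); evaluate at `u = 1`. -/
theorem charpoly_cont (M : Model n r) {Ω : Set (Fin n ⊕ Fin M.m → ℂ)} (hΩ : IsOpen Ω)
    (hc : Convex ℝ Ω) (g : (Fin n ⊕ Fin M.m → ℂ) × ℂ → (Mat r)ˣ)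
    (hg : ∀ w ∈ Ω, ev1 w M.G ≠ 0 → ∀ θ, DiffU g (w, θ)) (ζ : Fin n → LL) (I : Finset (Fin n))
    {w0 w1 : Fin n ⊕ Fin M.m → ℂ} (h1 : w1 ∈ Ω) (hG : ev1 w1 M.G ≠ 0) {b : ℝ} (hb : 0 < b)
    (h : ∀ s ∈ Ioo (0 : ℝ) b, w0 + (s : ℂ) • (w1 - w0) ∈ Ω ∧
      (ev1 (w0 + (s : ℂ) • (w1 - w0)) M.G ≠ 0 → ∀ θ, ev2 (w0 + (s : ℂ) • (w1 - w0)) θ M.F = 0 →
        Orr r ζ I (g (w0 + (s : ℂ) • (w1 - w0), θ)).val.charpoly))
    {θ : ℂ} (hF : ev2 w1 θ M.F = 0) : Orr r ζ I (g (w1, θ)).val.charpoly := by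
  have hdeg : ∀ A : Mat r, A.charpoly.natDegree ≤ r := fun A => by
    rw [Matrix.charpoly_natDegree_eq_dim]; simp
  set L : ℂ → (Fin n ⊕ Fin M.m → ℂ) := fun u => w0 + u • (w1 - w0) with hL
  have hLd : Differentiable ℂ L := (differentiable_id.smul_const _).const_add _
  have hfib : ∀ u θ : ℂ, (fib (M.F.map (lineHom w0 w1)) u).eval θ = ev2 (L u) θ M.F := by
    intro u θ
    rw [fib_lineHom, ev2_eq_eval]
  have hGe : ∀ u : ℂ, (lineHom w0 w1 M.G).eval u = ev1 (L u) M.G := fun u => eval_lineHom _ _ _ _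
  have hL1 : L 1 = w1 := by simp [hL]
  have key := line_cont (M.F.map (lineHom w0 w1)) (M.monic.map _) (lineHom w0 w1 M.G)
    (fun u θ hu hθ => by
      rw [hGe] at hu
      rw [hfib] at hθ
      have := M.sep ℂ (L u) θ hθ hu
      rw [fib_lineHom, Polynomial.derivative_map, ← ev2_eq_eval]
      exact this)
    (D := L ⁻¹' Ω) (hΩ.preimage hLd.continuous)
    (by
      intro u hu v hv s t hs ht hst
      have := hc hu hv hs ht hst
      show L (s • u + t • v) ∈ Ω
      have e : L (s • u + t • v) = s • L u + t • L v := by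
        have hst' : (s : ℂ) + t = 1 := by exact_mod_cast hst
        funext i
        simp only [hL, Pi.add_apply, Pi.smul_apply, Pi.sub_apply, Complex.real_smul, smul_eq_mul]
        linear_combination (-w0 i) * hst'
      rw [e]; exact this)
    (E := Fin (r + 1) → ℂ) (fun y k => (g (L y.1, y.2)).val.charpoly.coeff k)
    (fun u hu hGu θ _ => by
      rw [hGe] at hGu
      have h2 := hg (L u) hu hGu θ
      have h3 : DifferentiableAt ℂ (fun y : ℂ × ℂ => (L y.1, y.2)) (u, θ) :=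
        ((hLd.comp differentiable_fst).prodMk differentiable_snd) _
      have h4 : DifferentiableAt ℂ (fun y : ℂ × ℂ => ((g (L y.1, y.2)).val : Mat r)) (u, θ) :=
        DifferentiableAt.comp (u, θ) (g := fun y => ((g y).val : Mat r)) h2 h3
      rw [differentiableAt_pi]
      intro k
      exact ((differentiable_charpoly_coeff (r := r) k) _).comp (u, θ) h4)
    (S := (fun q : ℂ[X] => fun k : Fin (r + 1) => q.coeff k) '' {q | Orr r ζ I q})
    ((countable_orr ζ I).image _) hb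
    (fun s hs => by
      refine ⟨(h s hs).1, fun hGs θ hθ => ?_⟩
      rw [hGe] at hGs
      rw [hfib] at hθ
      exact ⟨_, (h s hs).2 hGs θ hθ, rfl⟩)
    1 (by show L 1 ∈ Ω; rw [hL1]; exact h1) (by rw [hGe, hL1]; exact hG) θ
    (by rw [hfib, hL1]; exact hF)
  obtain ⟨q, hq, he⟩ := key
  simp only [hL1] at he
  have := cont_ext (cont_natDegree hq) (hdeg _) he
  rw [← this]
  exact hq

/-- Take `w0 ∈ U`; the points `w0 + s • (w1 - w0)` lie in `U` for small `s`. -/
theorem charpoly_cont_open (M : Model n r) {Ω U : Set (Fin n ⊕ Fin M.m → ℂ)} (hΩ : IsOpen Ω)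
    (hc : Convex ℝ Ω) (hU : IsOpen U) (hUΩ : U ⊆ Ω) (hne : U.Nonempty)
    (g : (Fin n ⊕ Fin M.m → ℂ) × ℂ → (Mat r)ˣ)
    (hg : ∀ w ∈ Ω, ev1 w M.G ≠ 0 → ∀ θ, DiffU g (w, θ)) (ζ : Fin n → LL) (I : Finset (Fin n))
    (h : ∀ w ∈ U, ev1 w M.G ≠ 0 → ∀ θ, ev2 w θ M.F = 0 → Orr r ζ I (g (w, θ)).val.charpoly)
    {w : Fin n ⊕ Fin M.m → ℂ} (h1 : w ∈ Ω) (hG : ev1 w M.G ≠ 0) {θ : ℂ} (hF : ev2 w θ M.F = 0) :
    Orr r ζ I (g (w, θ)).val.charpoly := by
  obtain ⟨w0, hw0⟩ := hne
  have hcont : Continuous fun s : ℝ => w0 + (s : ℂ) • (w - w0) :=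
    continuous_const.add (Complex.continuous_ofReal.smul continuous_const)
  have hop : IsOpen ((fun s : ℝ => w0 + (s : ℂ) • (w - w0)) ⁻¹' U) := hU.preimage hcont
  have h0 : (0 : ℝ) ∈ (fun s : ℝ => w0 + (s : ℂ) • (w - w0)) ⁻¹' U := by simpa using hw0
  obtain ⟨ε, hε, hball⟩ := Metric.isOpen_iff.1 hop 0 h0
  refine charpoly_cont M hΩ hc g hg ζ I (w0 := w0) h1 hG hε (fun s hs => ?_) hF
  have hs' : w0 + (s : ℂ) • (w - w0) ∈ U := hball (by
    rw [Metric.mem_ball, Real.dist_eq, sub_zero, abs_of_pos hs.1]; exact hs.2)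
  exact ⟨hUΩ hs', fun hG' θ' hF' => h _ hs' hG' θ' hF'⟩

end Pool.Agent.GR
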