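import Pool.Agent.Lib.MP_aa40d3_nt.GR.MatAn

/-! Holomorphic dependence of the loops on parameters. -/

open Polynomial Matrix Set
open scoped Matrix.Norms.Operator

namespace Pool.Agent.GR

variable {n r : ℕ}

/-- A unit valued function whose value is differentiable. -/
def DiffU {E : Type*} [NormedAddCommGroup E] [NormedSpace ℂ E] (f : E → (Mat r)ˣ) (x : E) : Prop :=
  DifferentiableAt ℂ (fun y => (f y : Mat r)) x

variable {E : Type*} [NormedAddCommGroup E] [NormedSpace ℂ E] {x : E}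

theorem DiffU.mul {f g : E → (Mat r)ˣ} (hf : DiffU f x) (hg : DiffU g x) :
    DiffU (fun y => f y * g y) x := by
  exact DifferentiableAt.mul (𝔸 := Mat r) hf hg

/-- `differentiableAt_inverse`, `Ring.inverse_unit`. -/
theorem DiffU.inv {f : E → (Mat r)ˣ} (hf : DiffU f x) : DiffU (fun y => (f y)⁻¹) x := by
  have h := (differentiableAt_inverse (𝕜 := ℂ) (f x).isUnit).comp x hf
  simp only [Function.comp_def, Ring.inverse_unit] at h
  exact h

theorem DiffU.list_prod {g : E → Fin n → (Mat r)ˣ} (hg : ∀ i, DiffU (fun y => g y i) x)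
    (l : List (Fin n)) : DiffU (fun y => (l.map (g y)).prod) x := by
  induction l with
  | nil => exact differentiableAt_const (1 : Mat r)
  | cons a l ih => exact (hg a).mul ih

theorem DiffU.mvTL {g : E → Fin n → (Mat r)ˣ} (hg : ∀ i, DiffU (fun y => g y i) x)
    (μ : List (Fin n × ℝ)) (ρ : Fin n → ℝ) (i : Fin n) : DiffU (fun y => mvTL μ ρ (g y) i) x := by
  induction μ generalizing g ρ with
  | nil => exact hg i
  | cons m μ ih =>
    refine ih (g := fun y => mvT (g y) m.1 (mvS ρ m.1 m.2)) (fun c => ?_) _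
    unfold mvT
    split_ifs
    · exact ((hg _).inv.mul (hg _)).mul (hg _)
    · exact hg c

theorem diffu_congr {f g : E → (Mat r)ˣ} (hf : DiffU f x) (h : ∀ᶠ y in nhds x, g y = f y) :
    DiffU g x :=
  DifferentiableAt.congr_of_eventuallyEq hf (h.mono fun _ hy => congrArg Units.val hy)

theorem diffu_gen {T : E → ℝ × ℝ → ℝ × ℝ → (Mat r)ˣ} {pts : E → Fin n → ℝ × ℝ}
    (hT : ∀ y, RectT (T y) (pts y)) (h1 : ∀ j, ContinuousAt (fun y => (pts y j).1) x)
    (h2 : ∀ j, ContinuousAt (fun y => (pts y j).2) x)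
    (hd : ∀ a b : ℝ × ℝ, (a.1 = b.1 ∧ ∀ j, (pts x j).1 ≠ a.1) ∨
      (a.2 = b.2 ∧ ∀ j, (pts x j).2 ≠ a.2) → DiffU (fun y => T y a b) x)
    {H : ℝ} (hb : InBox (pts x) H) (hx : Function.Injective fun i => (pts x i).1) (i : Fin n) :
    DiffU (fun y => vt (T y) (pts y) H i) x := by
  obtain ⟨ε, hε, hv⟩ := exists_validAt hx i
  have hV := hv ((pts x i).1 - ε) ((pts x i).1 + ε) le_rfl (by linarith) (by linarith) le_rfl
  generalize (pts x i).1 - ε = lo at hV
  generalize (pts x i).1 + ε = hi at hV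
  have hp : ∀ σ, (∀ j, (pts x j).1 ≠ σ) → DiffU (fun y => Vp (T y) H σ) x := fun σ hσ =>
    ((hd (σ, H) (-H, H) (Or.inr ⟨rfl, fun j => (abs_lt.1 (hb j).2).2.ne⟩)).mul
      (hd (σ, -H) (σ, H) (Or.inl ⟨rfl, hσ⟩))).mul
      (hd (-H, -H) (σ, -H) (Or.inr ⟨rfl, fun j => (abs_lt.1 (hb j).2).1.ne'⟩))
  have hle : lo ≤ hi := (hV.1.trans hV.2.1).le
  have key := (hp lo fun j h => by
    by_cases hj : j = i
    · exact hV.1.ne' (hj ▸ h)
    · exact hV.2.2 j hj ⟨h.ge, h.le.trans hle⟩).inv.mul (hp hi fun j h => by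
    by_cases hj : j = i
    · exact hV.2.1.ne (hj ▸ h)
    · exact hV.2.2 j hj ⟨hle.trans h.ge, h.le⟩)
  refine diffu_congr key ?_
  have e1 : ∀ᶠ y in nhds x, InBox (pts y) H := Filter.eventually_all.2 fun j =>
    ((h1 j).abs.eventually (gt_mem_nhds (hb j).1)).and
      ((h2 j).abs.eventually (gt_mem_nhds (hb j).2))
  have e2 : ∀ᶠ y in nhds x, ∀ j, j ≠ i → (pts y j).1 ∉ Icc lo hi :=
    Filter.eventually_all.2 fun j => Filter.eventually_all.2 fun hj =>
      (h1 j).eventually (isClosed_Icc.isOpen_compl.mem_nhds (hV.2.2 j hj))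
  filter_upwards [e1, e2, (h1 i).eventually (lt_mem_nhds hV.1),
    (h1 i).eventually (gt_mem_nhds hV.2.1)] with y a1 a2 a3 a4
  exact vt_eq (hT y) a1 ⟨a3, a4, a2⟩

theorem diffu_cont {t : E → Fin n → ℂ} (ht : ∀ i, DifferentiableAt ℂ (fun y => t y i) x)
    (j : Fin n) : ContinuousAt (fun y => (pp (t y) j).1) x ∧
      ContinuousAt (fun y => (pp (t y) j).2) x :=
  ⟨Complex.continuous_re.continuousAt.comp (ht j).continuousAt,
    Complex.continuous_im.continuousAt.comp (ht j).continuousAt⟩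

theorem diffu_TT {t : E → Fin n → ℂ} {A : E → Fin n → Mat r}
    (ht : ∀ i, DifferentiableAt ℂ (fun y => t y i) x)
    (hA : ∀ i, DifferentiableAt ℂ (fun y => A y i) x) {a b : ℝ × ℝ}
    (h : (a.1 = b.1 ∧ ∀ j, (pp (t x) j).1 ≠ a.1) ∨ (a.2 = b.2 ∧ ∀ j, (pp (t x) j).2 ≠ a.2)) :
    DiffU (fun y => TT (t y) (A y) a b) x := by
  refine differentiableAt_T ht hA (differentiableAt_const _) (differentiableAt_const _) ?_
  rintro i ⟨u, v, -, -, huv, he⟩
  rcases h with ⟨h1, h2⟩ | ⟨h1, h2⟩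
  · refine h2 i ?_
    have := congrArg Complex.re he
    simp only [cpt, Complex.add_re, Complex.smul_re, smul_eq_mul] at this
    simp only [pp]
    rw [← this, ← h1, ← add_mul, huv, one_mul]
  · refine h2 i ?_
    have := congrArg Complex.im he
    simp only [cpt, Complex.add_im, Complex.smul_im, smul_eq_mul] at this
    simp only [pp]
    rw [← this, ← h1, ← add_mul, huv, one_mul]

/-- Fix `lo`, `hi` valid at `x`; they stay valid near `x` (continuity), where `vt_eq` applies; the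
six segments avoid the singular points, so `differentiableAt_T` applies. -/
theorem diffU_vt {t : E → Fin n → ℂ} {A : E → Fin n → Mat r}
    (ht : ∀ i, DifferentiableAt ℂ (fun y => t y i) x)
    (hA : ∀ i, DifferentiableAt ℂ (fun y => A y i) x) {H : ℝ} (hb : InBox (pp (t x)) H)
    (hx : Function.Injective fun i => (t x i).re) (i : Fin n) :
    DiffU (fun y => vt (TT (t y) (A y)) (pp (t y)) H i) x := by
  exact diffu_gen (fun y => rectT_TT _ _) (fun j => (diffu_cont ht j).1)
    (fun j => (diffu_cont ht j).2) (fun a b h => diffu_TT ht hA h) hb hx i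

/-- The same for the swapped data. -/
theorem diffU_vs {t : E → Fin n → ℂ} {A : E → Fin n → Mat r}
    (ht : ∀ i, DifferentiableAt ℂ (fun y => t y i) x)
    (hA : ∀ i, DifferentiableAt ℂ (fun y => A y i) x) {H : ℝ} (hb : InBox (pp (t x)) H)
    (hy : Function.Injective fun i => (t x i).im) (i : Fin n) :
    DiffU (fun y => vs (TT (t y) (A y)) (pp (t y)) H i) x := by
  exact (diffu_gen (fun y => (rectT_TT (t y) (A y)).swap) (fun j => (diffu_cont ht j).2)
    (fun j => (diffu_cont ht j).1) (fun a b h => diffu_TT ht hA h.symm) hb.swap hy i).inv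

end Pool.Agent.GR
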