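import Pool.Agent.Lib.MP_aa40d3_nt.GR.LineCont
import Pool.Agent.Lib.MP_aa40d3_nt.GR.DiffU
import Pool.Agent.Lib.MP_aa40d3_nt.GR.Arg

/-! Chambers in the parameter space; evaluation maps. -/

open Polynomial Matrix Set
open scoped Matrix.Norms.Operator

namespace Pool.Agent.GR

variable {n r m : ℕ}

/-- The real parts are ordered like `ρ`. -/
def Cham (m : ℕ) (ρ : Fin n → ℝ) (H : ℝ) : Set (Fin n ⊕ Fin m → ℂ) :=
  {w | InBox (pp fun i => w (Sum.inl i)) H ∧
    ∀ a b, ρ a < ρ b → (w (Sum.inl a)).re < (w (Sum.inl b)).re}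

/-- The imaginary parts are ordered oppositely to `ρ`. -/
def ChamI (m : ℕ) (ρ : Fin n → ℝ) (H : ℝ) : Set (Fin n ⊕ Fin m → ℂ) :=
  {w | InBox (pp fun i => w (Sum.inl i)) H ∧
    ∀ a b, ρ a < ρ b → (w (Sum.inl b)).im < (w (Sum.inl a)).im}

theorem conta_box_open (H : ℝ) :
    IsOpen {w : Fin n ⊕ Fin m → ℂ | InBox (pp fun i => w (Sum.inl i)) H} := by
  have : {w : Fin n ⊕ Fin m → ℂ | InBox (pp fun i => w (Sum.inl i)) H} =
      ⋂ i : Fin n, ({w | |(w (Sum.inl i)).re| < H} ∩ {w | |(w (Sum.inl i)).im| < H}) := by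
    ext w
    simp [InBox, pp]
  rw [this]
  refine isOpen_iInter_of_finite fun i => IsOpen.inter ?_ ?_
  · exact isOpen_lt (by fun_prop) continuous_const
  · exact isOpen_lt (by fun_prop) continuous_const

theorem conta_abs {x y a b H : ℝ} (hx : |x| < H) (hy : |y| < H) (ha : 0 ≤ a) (hb : 0 ≤ b)
    (hab : a + b = 1) : |a * x + b * y| < H :=
  (convex_Ioo (-H) H (abs_lt.1 hx) (abs_lt.1 hy) ha hb hab |> abs_lt.2)

theorem conta_lt {x y x' y' a b : ℝ} (hx : x < x') (hy : y < y') (ha : 0 ≤ a) (hb : 0 ≤ b)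
    (hab : a + b = 1) : a * x + b * y < a * x' + b * y' := by
  have h := convex_Ioi (0 : ℝ) (sub_pos.2 hx) (sub_pos.2 hy) ha hb hab
  simp only [smul_eq_mul, mem_Ioi] at h
  linarith

theorem isOpen_Cham (ρ : Fin n → ℝ) (H : ℝ) : IsOpen (Cham m ρ H) := by
  have : Cham m ρ H = {w : Fin n ⊕ Fin m → ℂ | InBox (pp fun i => w (Sum.inl i)) H} ∩
      ⋂ a, ⋂ b, ⋂ (_ : ρ a < ρ b), {w | (w (Sum.inl a)).re < (w (Sum.inl b)).re} := by
    ext w
    simp [Cham]
  rw [this]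
  exact (conta_box_open H).inter (isOpen_iInter_of_finite fun a => isOpen_iInter_of_finite
    fun b => isOpen_iInter_of_finite fun _ => isOpen_lt (by fun_prop) (by fun_prop))

theorem convex_Cham (ρ : Fin n → ℝ) (H : ℝ) : Convex ℝ (Cham m ρ H) := by
  intro x hx y hy a b ha hb hab
  refine ⟨fun i => ⟨?_, ?_⟩, fun i j hij => ?_⟩
  · simpa [pp] using conta_abs (hx.1 i).1 (hy.1 i).1 ha hb hab
  · simpa [pp] using conta_abs (hx.1 i).2 (hy.1 i).2 ha hb hab
  · simpa using conta_lt (hx.2 i j hij) (hy.2 i j hij) ha hb hab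

theorem isOpen_ChamI (ρ : Fin n → ℝ) (H : ℝ) : IsOpen (ChamI m ρ H) := by
  have : ChamI m ρ H = {w : Fin n ⊕ Fin m → ℂ | InBox (pp fun i => w (Sum.inl i)) H} ∩
      ⋂ a, ⋂ b, ⋂ (_ : ρ a < ρ b), {w | (w (Sum.inl b)).im < (w (Sum.inl a)).im} := by
    ext w
    simp [ChamI]
  rw [this]
  exact (conta_box_open H).inter (isOpen_iInter_of_finite fun a => isOpen_iInter_of_finite
    fun b => isOpen_iInter_of_finite fun _ => isOpen_lt (by fun_prop) (by fun_prop))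

theorem convex_ChamI (ρ : Fin n → ℝ) (H : ℝ) : Convex ℝ (ChamI m ρ H) := by
  intro x hx y hy a b ha hb hab
  refine ⟨fun i => ⟨?_, ?_⟩, fun i j hij => ?_⟩
  · simpa [pp] using conta_abs (hx.1 i).1 (hy.1 i).1 ha hb hab
  · simpa [pp] using conta_abs (hx.1 i).2 (hy.1 i).2 ha hb hab
  · simpa using conta_lt (hx.2 i j hij) (hy.2 i j hij) ha hb hab

/-- Take `w (inl a) = ε * ρ' a - ε * ρ a * I` with `ε > 0` small. -/
theorem exists_mem_Cham (ρ ρ' : Fin n → ℝ) {H : ℝ} (hH : 0 < H) :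
    (Cham m ρ' H ∩ ChamI m ρ H).Nonempty := by
  set M : ℝ := 1 + ∑ a, (|ρ a| + |ρ' a|) with hM
  have h0 : ∀ a, |ρ a| + |ρ' a| < M := fun a => by
    have := Finset.single_le_sum (f := fun a => |ρ a| + |ρ' a|) (s := Finset.univ)
      (fun a _ => by positivity) (Finset.mem_univ a)
    linarith
  have hM0 : 0 < M := by positivity
  have hε : 0 < H / M := div_pos hH hM0
  have hb : ∀ x : ℝ, |x| < M → |H / M * x| < H := fun x hx => by
    rw [abs_mul, abs_of_pos hε, div_mul_eq_mul_div, div_lt_iff₀ hM0]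
    exact mul_lt_mul_of_pos_left hx hH
  have hbox : InBox (pp fun i => (⟨H / M * ρ' i, -(H / M * ρ i)⟩ : ℂ)) H := fun i =>
    ⟨hb _ (by have := h0 i; have := abs_nonneg (ρ i); linarith), by
      change |-(H / M * ρ i)| < H
      rw [abs_neg]
      exact hb _ (by have := h0 i; have := abs_nonneg (ρ' i); linarith)⟩
  exact ⟨Sum.elim (fun i => (⟨H / M * ρ' i, -(H / M * ρ i)⟩ : ℂ)) 0,
    ⟨hbox, fun a b hab => mul_lt_mul_of_pos_left hab hε⟩,
    hbox, fun a b hab => neg_lt_neg (mul_lt_mul_of_pos_left hab hε)⟩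

theorem Cham.re_injective {ρ : Fin n → ℝ} (hρ : Function.Injective ρ) {H : ℝ}
    {w : Fin n ⊕ Fin m → ℂ} (hw : w ∈ Cham m ρ H) :
    Function.Injective fun i => (w (Sum.inl i)).re := by
  intro a b hab
  rcases lt_trichotomy (ρ a) (ρ b) with h | h | h
  · exact absurd hab (hw.2 a b h).ne
  · exact hρ h
  · exact absurd hab (hw.2 b a h).ne'

theorem ChamI.im_injective {ρ : Fin n → ℝ} (hρ : Function.Injective ρ) {H : ℝ}
    {w : Fin n ⊕ Fin m → ℂ} (hw : w ∈ ChamI m ρ H) :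
    Function.Injective fun i => (w (Sum.inl i)).im := by
  intro a b hab
  rcases lt_trichotomy (ρ a) (ρ b) with h | h | h
  · exact absurd hab (hw.2 a b h).ne'
  · exact hρ h
  · exact absurd hab (hw.2 b a h).ne

theorem Cham.lowerL {ρ : Fin n → ℝ} (hρ : Function.Injective ρ) {H : ℝ}
    {w : Fin n ⊕ Fin m → ℂ} (hw : w ∈ Cham m ρ H) {l : List (Fin n)} (hl : LowerL ρ l) :
    LowerL (fun i => (w (Sum.inl i)).re) l := by
  refine ⟨hl.1.imp fun h => hw.2 _ _ h, fun a ha b hb => ?_⟩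
  rcases lt_trichotomy (ρ b) (ρ a) with h | h | h
  · exact hl.2 a ha b h
  · exact hρ h ▸ ha
  · exact absurd hb (hw.2 a b h).not_gt

/-- Naturality (`MvPolynomial.ringHom_ext'`, `RingHom.ext_int`). -/
theorem map_ev1 {σ k k' : Type} [CommRing k] [CommRing k'] (φ : k →+* k') (w : σ → k)
    (q : MvPolynomial σ ℤ) : φ (ev1 w q) = ev1 (fun s => φ (w s)) q := by
  have : φ.comp (ev1 w) = ev1 fun s => φ (w s) :=
    MvPolynomial.ringHom_ext' (RingHom.ext_int _ _) fun s => by simp [ev1]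
  exact RingHom.congr_fun this q

theorem map_ev2 {σ k k' : Type} [CommRing k] [CommRing k'] (φ : k →+* k') (w : σ → k) (θ : k)
    (q : (MvPolynomial σ ℤ)[X]) : φ (ev2 w θ q) = ev2 (fun s => φ (w s)) (φ θ) q := by
  have : φ.comp (ev1 w) = ev1 fun s => φ (w s) := RingHom.ext (map_ev1 φ w)
  rw [ev2, ev2, coe_eval₂RingHom, coe_eval₂RingHom, hom_eval₂, this]

theorem ev2_eq_eval {σ k : Type} [CommRing k] (w : σ → k) (θ : k) (q : (MvPolynomial σ ℤ)[X]) :
    ev2 w θ q = (q.map (ev1 w)).eval θ := by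
  rw [ev2, coe_eval₂RingHom, eval_map]

/-- Restriction of polynomials to the line through `w0` and `w1`. -/
noncomputable def lineHom {σ : Type} (w0 w1 : σ → ℂ) : MvPolynomial σ ℤ →+* ℂ[X] :=
  ev1 fun s => C (w0 s) + C (w1 s - w0 s) * X

theorem eval_lineHom {σ : Type} (w0 w1 : σ → ℂ) (u : ℂ) (q : MvPolynomial σ ℤ) :
    (lineHom w0 w1 q).eval u = ev1 (w0 + u • (w1 - w0)) q := by
  have h := map_ev1 (evalRingHom u) (fun s => C (w0 s) + C (w1 s - w0 s) * X) q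
  refine h.trans ?_
  congr 2
  funext s
  simp [mul_comm]

theorem fib_lineHom {σ : Type} (w0 w1 : σ → ℂ) (u : ℂ) (q : (MvPolynomial σ ℤ)[X]) :
    fib (q.map (lineHom w0 w1)) u = q.map (ev1 (w0 + u • (w1 - w0))) := by
  rw [fib, Polynomial.map_map]
  congr 1
  exact RingHom.ext (eval_lineHom w0 w1 u)

end Pool.Agent.GR
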