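import Pool.Agent.Lib.MP_aa40d3_nt.GR.Cyc

/-! Irreducible systems have the first coordinate as a cyclic vector. -/

open Polynomial Matrix

namespace Pool.Agent.GR

variable {n r : ℕ}

section helpers
variable {R : Type*} [CommRing R]

/-- The operator `l ↦ δ l' + l P`. -/
private noncomputable def cycneD (δ : R[X]) (P : Matrix (Fin r) (Fin r) R[X])
    (l : Fin r → R[X]) : Fin r → R[X] :=
  (δ • fun a => derivative (l a)) + l ᵥ* P

private theorem cycne_add (δ : R[X]) (P : Matrix (Fin r) (Fin r) R[X]) (l m : Fin r → R[X]) :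
    cycneD δ P (l + m) = cycneD δ P l + cycneD δ P m := by
  funext a
  simp only [cycneD, Matrix.add_vecMul, Pi.add_apply, Pi.smul_apply, smul_eq_mul, derivative_add]
  ring

private theorem cycne_smul (δ : R[X]) (P : Matrix (Fin r) (Fin r) R[X]) (c : R[X])
    (l : Fin r → R[X]) :
    cycneD δ P (c • l) = c • cycneD δ P l + (δ * derivative c) • l := by
  funext a
  simp only [cycneD, Matrix.smul_vecMul, Pi.add_apply, Pi.smul_apply, smul_eq_mul, derivative_mul]
  ring

private theorem cycne_zero (δ : R[X]) (P : Matrix (Fin r) (Fin r) R[X]) :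
    cycneD δ P 0 = 0 := by
  funext a
  simp [cycneD]

private theorem cycne_row [NeZero r] (δ : R[X]) (P : Matrix (Fin r) (Fin r) R[X]) (j : ℕ) :
    cycneD δ P (rowL 1 δ P j) =
      rowL 1 δ P (j + 1) + ((j : R[X]) * derivative δ) • rowL 1 δ P j := by
  rw [rowL, one_smul, cycneD]
  abel

end helpers

/-- Let `m` be minimal such that `rowL 1 δ P m` depends linearly over `ℂ[X]` on the earlier rows
(if `cycH = 0` such `m < r` exists, and `0 < m` because `rowL 0 ≠ 0`). Let `W` be the module of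
all `l` with `q • l ∈ span {rowL j | j < m}` for some `q ≠ 0`. It is stable: with
`D l = δ • l' + l ᵥ* P` one has `D (c • l) = c • D l + (δ * c') • l`,
`D (rowL j) = rowL (j + 1) + (j * δ') • rowL j`, so `q₀ • D` maps the span to itself, and
`q ^ 2 • D l = q • D (q • l) - (δ * q') • (q • l)`. `W ≠ ⊥`, so `W` has full rank, but the
`r` vectors `q_a • Pi.single a 1` are linearly independent in a span of `m < r` vectors. -/
theorem cycH_ne_zero_of_irred [NeZero r] {t : Fin n → ℂ} {A : Fin n → Matrix (Fin r) (Fin r) ℂ}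
    (h : Irred t A) : cycH 1 (dl t) (pm t A) ≠ 0 := by
  classical
  intro h0
  set δ : ℂ[X] := dl t with hδ
  set P : Matrix (Fin r) (Fin r) ℂ[X] := pm t A with hP
  have hδ0 : δ ≠ 0 := (dl_monic t).ne_zero
  obtain ⟨c, hc0, hc⟩ := Matrix.exists_vecMul_eq_zero_iff.mpr h0
  have hne : (Finset.univ.filter fun k => c k ≠ 0).Nonempty := by
    obtain ⟨k, hk⟩ := Function.ne_iff.mp hc0
    exact ⟨k, by simpa using hk⟩
  set m : Fin r := (Finset.univ.filter fun k => c k ≠ 0).max' hne with hm
  have hcm : c m ≠ 0 := by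
    have := Finset.max'_mem _ hne
    rw [← hm] at this
    simpa using this
  have hgt : ∀ k, m < k → c k = 0 := by
    intro k hk
    by_contra hk'
    exact absurd (Finset.le_max' _ k (by simpa using hk' :
      k ∈ Finset.univ.filter fun k => c k ≠ 0)) (not_le.mpr hk)
  set Sp : Submodule ℂ[X] (Fin r → ℂ[X]) :=
    Submodule.span ℂ[X] (Set.range fun j : Fin (m : ℕ) => rowL 1 δ P j) with hSp
  have hmem : ∀ j : ℕ, j < m → rowL 1 δ P j ∈ Sp := fun j hj =>
    Submodule.subset_span ⟨⟨j, hj⟩, rfl⟩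
  set q0 : ℂ[X] := c m * δ ^ (r - (m : ℕ)) with hq0
  have hq0ne : q0 ≠ 0 := mul_ne_zero hcm (pow_ne_zero _ hδ0)
  have hsum : ∑ k : Fin r, (c k * δ ^ (r - (k : ℕ))) • rowL 1 δ P k = 0 := by
    funext a
    have := congrFun hc a
    simp only [Matrix.vecMul, dotProduct, cycM, Matrix.of_apply, Pi.zero_apply] at this
    simp only [Finset.sum_apply, Pi.smul_apply, smul_eq_mul, Pi.zero_apply, mul_assoc]
    exact this
  have hq0mem : q0 • rowL 1 δ P m ∈ Sp := by
    rw [← Finset.add_sum_erase _ _ (Finset.mem_univ m)] at hsum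
    rw [eq_neg_of_add_eq_zero_left hsum]
    refine Sp.neg_mem (Sp.sum_mem fun k hk => ?_)
    rcases lt_or_gt_of_ne (Finset.ne_of_mem_erase hk) with h1 | h1
    · exact Sp.smul_mem _ (hmem k h1)
    · rw [hgt k h1, zero_mul, zero_smul]; exact Sp.zero_mem
  have hrow0 : rowL 1 δ P 0 ≠ 0 := by
    intro h1
    have := congrFun h1 0
    simp [rowL] at this
  have hmpos : 0 < (m : ℕ) := by
    by_contra h1
    have h2 : (m : ℕ) = 0 := by omega
    have h3 : Sp = ⊥ := by
      rw [hSp, Submodule.span_eq_bot]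
      rintro _ ⟨j, rfl⟩
      exact absurd j.2 (by omega)
    rw [h3, Submodule.mem_bot, h2] at hq0mem
    exact hrow0 ((smul_eq_zero.mp hq0mem).resolve_left hq0ne)
  have hstab : ∀ l ∈ Sp, q0 • cycneD δ P l ∈ Sp := by
    intro l hl
    induction hl using Submodule.span_induction with
    | mem x hx =>
      obtain ⟨j, rfl⟩ := hx
      rw [cycne_row, smul_add]
      refine Sp.add_mem ?_ (Sp.smul_mem _ (Sp.smul_mem _ (hmem j j.2)))
      rcases (Nat.succ_le_of_lt j.2).lt_or_eq with h1 | h1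
      · exact Sp.smul_mem _ (hmem _ h1)
      · have h2 : (j : ℕ) + 1 = m := h1
        rw [h2]; exact hq0mem
    | zero => rw [cycne_zero, smul_zero]; exact Sp.zero_mem
    | add x y _ _ hx hy => rw [cycne_add, smul_add]; exact Sp.add_mem hx hy
    | smul a x hx' hx =>
      rw [cycne_smul, smul_add, smul_comm]
      exact Sp.add_mem (Sp.smul_mem _ hx) (Sp.smul_mem _ (Sp.smul_mem _ hx'))
  let W : Submodule ℂ[X] (Fin r → ℂ[X]) :=
    { carrier := {l | ∃ q : ℂ[X], q ≠ 0 ∧ q • l ∈ Sp}
      add_mem' := by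
        rintro x y ⟨q1, h1, hx⟩ ⟨q2, h2, hy⟩
        refine ⟨q1 * q2, mul_ne_zero h1 h2, ?_⟩
        rw [smul_add]
        refine Sp.add_mem ?_ ?_
        · rw [mul_comm, mul_smul]; exact Sp.smul_mem _ hx
        · rw [mul_smul]; exact Sp.smul_mem _ hy
      zero_mem' := ⟨1, one_ne_zero, by simp⟩
      smul_mem' := by
        rintro a x ⟨q, h1, hx⟩
        exact ⟨q, h1, by rw [smul_comm]; exact Sp.smul_mem _ hx⟩ }
  have hW : ∀ l, l ∈ W ↔ ∃ q : ℂ[X], q ≠ 0 ∧ q • l ∈ Sp := fun l => Iff.rfl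
  rcases h W (fun l hl => by
    obtain ⟨q, hq, hl⟩ := (hW l).mp hl
    refine (hW _).mpr ⟨q0 * q * q, mul_ne_zero (mul_ne_zero hq0ne hq) hq, ?_⟩
    have h1 : (q0 * q * q) • cycneD δ P l =
        q • (q0 • cycneD δ P (q • l)) - (q0 * (δ * derivative q)) • (q • l) := by
      rw [cycne_smul]
      funext a
      simp only [Pi.smul_apply, Pi.sub_apply, Pi.add_apply, smul_eq_mul]
      ring
    change (q0 * q * q) • cycneD δ P l ∈ Sp
    rw [h1]
    exact Sp.sub_mem (Sp.smul_mem _ (hstab _ hl)) (Sp.smul_mem _ hl)) with h1 | h1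
  · have : rowL 1 δ P 0 ∈ W := (hW _).mpr ⟨1, one_ne_zero, by simpa using hmem 0 hmpos⟩
    rw [h1, Submodule.mem_bot] at this
    exact hrow0 this
  · have h2 : ∀ a : Fin r, ∃ q : ℂ[X], q ≠ 0 ∧ q • (Pi.single a 1 : Fin r → ℂ[X]) ∈ Sp := by
      intro a
      obtain ⟨q, hq, hv⟩ := h1 (Pi.single a 1)
      obtain ⟨q', hq', hv'⟩ := (hW _).mp hv
      exact ⟨q' * q, mul_ne_zero hq' hq, by rwa [mul_smul]⟩
    choose q hq hqm using h2
    have hli : LinearIndependent ℂ[X] fun a : Fin r => (⟨_, hqm a⟩ : Sp) := by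
      apply LinearIndependent.of_comp Sp.subtype
      rw [Fintype.linearIndependent_iff]
      intro g hg a
      have := congrFun hg a
      simp only [Function.comp, Submodule.subtype_apply, Finset.sum_apply, Pi.smul_apply,
        smul_eq_mul, Pi.single_apply, mul_ite, mul_one, mul_zero, Finset.sum_ite_eq,
        Finset.mem_univ, if_true, Pi.zero_apply] at this
      exact (mul_eq_zero.mp this).resolve_right (hq a)
    have : Module.Finite ℂ[X] Sp := Module.Finite.span_of_finite _ (Set.finite_range _)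
    have h3 := hli.fintype_card_le_finrank
    have h4 : Module.finrank ℂ[X] Sp ≤ Fintype.card (Fin (m : ℕ)) := finrank_range_le_card _
    simp only [Fintype.card_fin] at h3 h4
    have := m.2
    omega

end Pool.Agent.GR
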