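import Pool.Agent.Lib.MP_aa40d3_nt.GR.Walk

/-! Positive semidefinite matrices and bounds for matrix coefficients. -/

open Polynomial Matrix
open scoped ComplexOrder

namespace Pool.Agent.GR

variable {n : ℕ}

private theorem psdb_det_ne {H : Matrix (Fin n) (Fin n) ℂ} (h : ∀ J, 0 ≤ minor J H) {x : ℝ}
    (hx : 0 ≤ x) : (1 + (x : ℂ) • H).det ≠ 0 := by
  set p : ℂ[X] := det (1 + (X : ℂ[X]) • H.map C) with hp
  have hev : p.eval (x : ℂ) = (1 + (x : ℂ) • H).det := by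
    rw [hp, ← Polynomial.coe_evalRingHom, RingHom.map_det]
    congr 1
    ext i j
    by_cases hij : i = j
    · simp [hij, Matrix.add_apply, Matrix.smul_apply]
      ring
    · simp [hij, Matrix.add_apply, Matrix.smul_apply]
      ring
  have hc : ∀ k, 0 ≤ p.coeff k := by
    intro k
    rw [hp, Matrix.coeff_det_one_add_X_smul_eq_sum_minors]
    exact Finset.sum_nonneg fun s _ => h s
  have hc0 : p.coeff 0 = 1 := by
    rw [hp, Matrix.coeff_det_one_add_X_smul_eq_sum_minors]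
    simp
  have hx' : (0 : ℂ) ≤ (x : ℂ) := by exact_mod_cast hx
  have hge : (1 : ℂ) ≤ p.eval (x : ℂ) := by
    rw [Polynomial.eval_eq_sum_range, Finset.sum_range_succ', hc0]
    simp only [pow_zero, mul_one]
    have : (0 : ℂ) ≤ ∑ k ∈ Finset.range p.natDegree, p.coeff (k + 1) * (x : ℂ) ^ (k + 1) :=
      Finset.sum_nonneg fun k _ => mul_nonneg (hc _) (pow_nonneg hx' _)
    exact le_add_of_nonneg_left this
  rw [← hev]
  intro h0
  rw [h0] at hge
  exact absurd hge (by norm_num)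

/-- `det (1 + x • H) = ∑ x ^ k * (sum of principal minors of size k) ≥ 1` for `x ≥ 0`
(`Matrix.coeff_det_one_add_X_smul_eq_sum_minors`), so no eigenvalue is negative
(`Matrix.IsHermitian.posSemidef_iff_eigenvalues_nonneg`). -/
theorem posSemidef_of_minors {H : Matrix (Fin n) (Fin n) ℂ} (hH : H.IsHermitian)
    (h : ∀ J, 0 ≤ minor J H) : H.PosSemidef := by
  rw [hH.posSemidef_iff_eigenvalues_nonneg]
  intro i
  by_contra hneg
  have hlt : hH.eigenvalues i < 0 := by simpa using hneg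
  set l : ℝ := hH.eigenvalues i with hl
  have hx : 0 ≤ -l⁻¹ := by
    have := inv_lt_zero.mpr hlt
    linarith
  apply psdb_det_ne h hx
  have hv := hH.mulVec_eigenvectorBasis i
  have hne : (hH.eigenvectorBasis i).ofLp ≠ 0 := by
    intro h0
    have h1 := hH.eigenvectorBasis.orthonormal.1 i
    have h2 : hH.eigenvectorBasis i = 0 := by
      ext j
      simpa using congrFun h0 j
    rw [h2] at h1
    simp at h1
  rw [← Matrix.exists_mulVec_eq_zero_iff]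
  refine ⟨_, hne, ?_⟩
  rw [Matrix.add_mulVec, Matrix.one_mulVec, Matrix.smul_mulVec, hv, ← hl]
  have hl0 : (l : ℂ) ≠ 0 := by exact_mod_cast hlt.ne
  ext j
  simp only [Pi.add_apply, Pi.smul_apply, Pi.zero_apply, smul_eq_mul, Complex.real_smul]
  push_cast
  field_simp
  ring

private theorem psdb_cs {m : Type*} [Fintype m] [DecidableEq m] {M : Matrix m m ℂ}
    (hM : M.PosSemidef) (a b : m) : ‖M a b‖ ^ 2 ≤ ‖M a a‖ * ‖M b b‖ := by
  have h2 := (hM.submatrix ![a, b]).det_nonneg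
  rw [Matrix.det_fin_two] at h2
  simp only [Matrix.submatrix_apply, Matrix.cons_val_zero, Matrix.cons_val_one] at h2
  have hba : M b a = (starRingEnd ℂ) (M a b) := by
    have := hM.isHermitian.apply b a
    rw [← this]
    rfl
  rw [hba, Complex.mul_conj, Complex.normSq_eq_norm_sq] at h2
  have h3 := (Complex.nonneg_iff.mp h2).1
  rw [Complex.sub_re, Complex.ofReal_re] at h3
  have h4 : (M a a * M b b).re ≤ ‖M a a‖ * ‖M b b‖ := by
    rw [← norm_mul]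
    exact Complex.re_le_norm _
  linarith

private theorem psdb_rf {ζ : Fin n → ℂ} (hζ : ∀ i, ‖ζ i‖ = 1) (hζ1 : ∀ i, ζ i ≠ 1)
    {N : Matrix (Fin n) (Fin n) ℂ} (hd : ∀ a, N a a = 1 - ζ a) {κ : Fin n → ℂ}
    (hp : (diagonal κ * N).IsHermitian) (a : Fin n) :
    (rf N a)ᴴ * (diagonal κ * N) * rf N a = diagonal κ * N := by
  set H := diagonal κ * N with hH
  have hHe : ∀ i j, H i j = κ i * N i j := fun i j => by rw [hH, Matrix.diagonal_mul]
  have hsym : ∀ i j, H i j = (starRingEnd ℂ) (H j i) := fun i j => by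
    have := hp.apply i j
    rw [← this]
    rfl
  have hzz : ζ a * (starRingEnd ℂ) (ζ a) = 1 := by
    rw [Complex.mul_conj, Complex.normSq_eq_norm_sq, hζ a]
    simp
  have hk : (starRingEnd ℂ) (κ a) + κ a * ζ a = 0 := by
    have h1 := hsym a a
    rw [hHe, hd, map_mul, map_sub, map_one] at h1
    have h2 : ((starRingEnd ℂ) (κ a) + κ a * ζ a) * (1 - ζ a) = 0 := by
      linear_combination ζ a * h1 - (starRingEnd ℂ) (κ a) * hzz
    exact (mul_eq_zero.mp h2).resolve_right (sub_ne_zero.mpr (hζ1 a).symm)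
  have hR : ∀ (M : Matrix (Fin n) (Fin n) ℂ) i j, (M * rf N a) i j = M i j - M i a * N a j := by
    intro M i j
    rw [rf, Matrix.mul_sub, Matrix.mul_one, Matrix.sub_apply, Matrix.mul_vecMulVec,
      Matrix.vecMulVec_apply, Matrix.mulVec_single_one]
    rfl
  have hL : ∀ (M : Matrix (Fin n) (Fin n) ℂ) i j,
      ((rf N a)ᴴ * M) i j = M i j - (starRingEnd ℂ) (N a i) * M a j := by
    intro M i j
    have h1 : (rf N a)ᴴ * M = (Mᴴ * rf N a)ᴴ := by
      rw [Matrix.conjTranspose_mul, Matrix.conjTranspose_conjTranspose]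
    rw [h1, Matrix.conjTranspose_apply, hR]
    simp [Matrix.conjTranspose_apply]
    ring
  ext i j
  rw [hR, hL, hL, hsym i a, hHe a i, hHe a j, hHe a a, hd a, map_mul]
  linear_combination (-(starRingEnd ℂ) (N a i) * N a j) * hk

private theorem psdb_prod {ζ : Fin n → ℂ} (hζ : ∀ i, ‖ζ i‖ = 1) (hζ1 : ∀ i, ζ i ≠ 1)
    {N : Matrix (Fin n) (Fin n) ℂ} (hd : ∀ a, N a a = 1 - ζ a) {κ : Fin n → ℂ}
    (hp : (diagonal κ * N).IsHermitian) (w : List (Fin n)) :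
    ((w.map (rf N)).prod)ᴴ * (diagonal κ * N) * (w.map (rf N)).prod = diagonal κ * N := by
  induction w with
  | nil => simp
  | cons c w ih =>
    rw [List.map_cons, List.prod_cons, Matrix.conjTranspose_mul]
    calc ((w.map (rf N)).prod)ᴴ * (rf N c)ᴴ * (diagonal κ * N) * (rf N c * (w.map (rf N)).prod)
        = ((w.map (rf N)).prod)ᴴ * ((rf N c)ᴴ * (diagonal κ * N) * rf N c) *
            (w.map (rf N)).prod := by simp only [Matrix.mul_assoc]
      _ = diagonal κ * N := by rw [psdb_rf hζ hζ1 hd hp c, ih]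

private theorem psdb_Gm {ζ : Fin n → ℂ} (hζ : ∀ i, ‖ζ i‖ = 1) (hζ1 : ∀ i, ζ i ≠ 1)
    {N : Matrix (Fin n) (Fin n) ℂ} (hd : ∀ a, N a a = 1 - ζ a) {κ : Fin n → ℂ} (hκ : ∀ a, κ a ≠ 0)
    (hp : (diagonal κ * N).PosSemidef) (w : List (Fin n)) (a b : Fin n) :
    ‖Gm N w a b‖ * Real.sqrt ‖κ a‖ ≤ 2 * Real.sqrt ‖κ b‖ := by
  set H := diagonal κ * N with hH
  set R := (w.map (rf N)).prod with hR
  have hRH : Rᴴ * H * R = H := psdb_prod hζ hζ1 hd hp.isHermitian w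
  have hP := hp.conjTranspose_mul_mul_same (Matrix.fromCols (1 : Matrix (Fin n) (Fin n) ℂ) R)
  rw [Matrix.conjTranspose_fromCols_eq_fromRows_conjTranspose, Matrix.fromRows_mul,
    Matrix.fromRows_mul_fromCols] at hP
  have hcs := psdb_cs hP (Sum.inl a) (Sum.inr b)
  simp only [Matrix.fromBlocks_apply₁₁, Matrix.fromBlocks_apply₁₂, Matrix.fromBlocks_apply₂₂,
    Matrix.conjTranspose_one, Matrix.one_mul, Matrix.mul_one, hRH] at hcs
  have h1 : (H * R) a b = κ a * Gm N w a b := by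
    rw [hH, Matrix.mul_assoc, Matrix.diagonal_mul]
    rfl
  have h2 : ∀ c, ‖H c c‖ ≤ 2 * ‖κ c‖ := by
    intro c
    rw [hH, Matrix.diagonal_mul, hd, norm_mul]
    have h3 : ‖1 - ζ c‖ ≤ 2 := by
      have := norm_sub_le (1 : ℂ) (ζ c)
      rw [hζ c, norm_one] at this
      linarith
    nlinarith [norm_nonneg (κ c)]
  rw [h1, norm_mul] at hcs
  have hka : 0 < ‖κ a‖ := norm_pos_iff.mpr (hκ a)
  have h4 : (‖κ a‖ * ‖Gm N w a b‖) ^ 2 ≤ (2 * ‖κ a‖) * (2 * ‖κ b‖) :=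
    hcs.trans (mul_le_mul (h2 a) (h2 b) (norm_nonneg _) (by positivity))
  have h5 : ‖Gm N w a b‖ ^ 2 * ‖κ a‖ ≤ 4 * ‖κ b‖ := by
    have h6 : ‖κ a‖ * (‖Gm N w a b‖ ^ 2 * ‖κ a‖) ≤ ‖κ a‖ * (4 * ‖κ b‖) := by nlinarith
    exact le_of_mul_le_mul_left h6 hka
  refine le_of_sq_le_sq ?_ (by positivity)
  rw [mul_pow, mul_pow, Real.sq_sqrt (norm_nonneg _), Real.sq_sqrt (norm_nonneg _)]
  linarith

/-- `H = diagonal κ * N` satisfies `(rf N a)ᴴ * H * rf N a = H` (since `H a a` is real,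
`κ a * ζ a = -conj (κ a)`). So `R = (w.map (rf N)).prod` preserves `H`, and Cauchy-Schwarz for the
semidefinite form gives `‖(H * R) a b‖ ^ 2 ≤ H a a * H b b ≤ 4 ‖κ a‖ ‖κ b‖`. Hence
`‖Gm w a b‖ ^ 2 ≤ 4 ‖κ b‖ / ‖κ a‖`; the case `w = []` bounds the entries of `N`, and the ratios
telescope along the walk. -/
theorem norm_Gm_mul_wk_le {ζ : Fin n → ℂ} (hζ : ∀ i, ‖ζ i‖ = 1) (hζ1 : ∀ i, ζ i ≠ 1)
    {N : Matrix (Fin n) (Fin n) ℂ} (hd : ∀ a, N a a = 1 - ζ a) {κ : Fin n → ℂ} (hκ : ∀ a, κ a ≠ 0)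
    (hp : (diagonal κ * N).PosSemidef) (w : List (Fin n)) (a b : Fin n) (l : List (Fin n)) :
    ‖Gm N w a b * wk N b l a‖ ≤ 2 ^ (l.length + 2) := by
  have hN : ∀ c d, ‖N c d‖ * Real.sqrt ‖κ c‖ ≤ 2 * Real.sqrt ‖κ d‖ := by
    intro c d
    have := psdb_Gm hζ hζ1 hd hκ hp [] c d
    simpa [Gm] using this
  have hs : ∀ c, 0 < Real.sqrt ‖κ c‖ := fun c => Real.sqrt_pos.mpr (norm_pos_iff.mpr (hκ c))
  have hw : ∀ (l : List (Fin n)) (c : Fin n),
      ‖wk N c l a‖ * Real.sqrt ‖κ c‖ ≤ 2 ^ (l.length + 1) * Real.sqrt ‖κ a‖ := by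
    intro l
    induction l with
    | nil => intro c; simpa [wk] using hN c a
    | cons d l ih =>
      intro c
      rw [wk, norm_mul, List.length_cons]
      calc ‖N c d‖ * ‖wk N d l a‖ * Real.sqrt ‖κ c‖
          = (‖N c d‖ * Real.sqrt ‖κ c‖) * ‖wk N d l a‖ := by ring
        _ ≤ (2 * Real.sqrt ‖κ d‖) * ‖wk N d l a‖ :=
            mul_le_mul_of_nonneg_right (hN c d) (norm_nonneg _)
        _ = 2 * (‖wk N d l a‖ * Real.sqrt ‖κ d‖) := by ring
        _ ≤ 2 * (2 ^ (l.length + 1) * Real.sqrt ‖κ a‖) :=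
            mul_le_mul_of_nonneg_left (ih d) (by norm_num)
        _ = 2 ^ (l.length + 1 + 1) * Real.sqrt ‖κ a‖ := by ring
  have h1 := psdb_Gm hζ hζ1 hd hκ hp w a b
  have h2 := hw l b
  rw [norm_mul]
  have h3 : ‖Gm N w a b‖ * ‖wk N b l a‖ * Real.sqrt ‖κ a‖ ≤
      2 ^ (l.length + 2) * Real.sqrt ‖κ a‖ := by
    calc ‖Gm N w a b‖ * ‖wk N b l a‖ * Real.sqrt ‖κ a‖
        = (‖Gm N w a b‖ * Real.sqrt ‖κ a‖) * ‖wk N b l a‖ := by ring
      _ ≤ (2 * Real.sqrt ‖κ b‖) * ‖wk N b l a‖ := mul_le_mul_of_nonneg_right h1 (norm_nonneg _)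
      _ = 2 * (‖wk N b l a‖ * Real.sqrt ‖κ b‖) := by ring
      _ ≤ 2 * (2 ^ (l.length + 1) * Real.sqrt ‖κ a‖) := mul_le_mul_of_nonneg_left h2 (by norm_num)
      _ = 2 ^ (l.length + 2) * Real.sqrt ‖κ a‖ := by ring
  exact le_of_mul_le_mul_right h3 (hs a)

end Pool.Agent.GR
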