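import Pool.Agent.Lib.MP_aa40d3_nt.GR.PsdA
import Pool.Agent.Lib.MP_aa40d3_nt.GR.PsdB

/-! The invariant positive semidefinite Hermitian form. -/

open Polynomial Matrix
open scoped ComplexOrder

namespace Pool.Agent.GR

variable {n : ℕ}

private theorem psd_conj_kap {z : ℂ} (hz : ‖z‖ = 1) :
    (starRingEnd ℂ) (kap z) = -z * kap z := by
  have h1 := exp_a01 hz
  unfold kap
  set x : ℝ := a01 z with hx
  have h2 : (starRingEnd ℂ) (Complex.exp (-(Real.pi * Complex.I * x))) =
      Complex.exp (Real.pi * Complex.I * x) := by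
    rw [← Complex.exp_conj]
    congr 1
    simp
  have h3 : Complex.exp (2 * Real.pi * Complex.I * x) * Complex.exp (-(Real.pi * Complex.I * x)) =
      Complex.exp (Real.pi * Complex.I * x) := by
    rw [← Complex.exp_add]
    congr 1
    ring
  rw [map_mul, h2, Complex.conj_I, ← h3, h1]
  ring

private theorem psd_kap_mul_conj (z : ℂ) : kap z * (starRingEnd ℂ) (kap z) = 1 := by
  unfold kap
  have h2 : (starRingEnd ℂ) (Complex.exp (-(Real.pi * Complex.I * (a01 z : ℝ)))) =
      Complex.exp (Real.pi * Complex.I * (a01 z : ℝ)) := by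
    rw [← Complex.exp_conj]
    congr 1
    simp
  have h3 : Complex.exp (-(Real.pi * Complex.I * (a01 z : ℝ))) *
      Complex.exp (Real.pi * Complex.I * (a01 z : ℝ)) = 1 := by
    rw [← Complex.exp_add]
    simp
  rw [map_mul, h2, Complex.conj_I]
  linear_combination (-Complex.I ^ 2) * h3 - Complex.I_sq

private theorem psd_mul_conj {z : ℂ} (hz : ‖z‖ = 1) : z * (starRingEnd ℂ) z = 1 := by
  rw [Complex.mul_conj, Complex.normSq_eq_norm_sq, hz]
  simp

private theorem psd_walk {N : Matrix (Fin n) (Fin n) ℂ} {m : Fin n → ℂ}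
    (he : ∀ a b, N a b ≠ 0 → ∃ t : ℝ, 0 < t ∧ m a = t * m b) (l : List (Fin n)) :
    ∀ a b, wk N a l b ≠ 0 → ∃ t : ℝ, 0 < t ∧ m a = t * m b := by
  induction l with
  | nil => intro a b h; exact he a b h
  | cons c l ih =>
    intro a b h
    have h' : N a c * wk N c l b ≠ 0 := h
    obtain ⟨t, ht, h1⟩ := he a c (left_ne_zero_of_mul h')
    obtain ⟨u, hu, h2⟩ := ih c b (right_ne_zero_of_mul h')
    refine ⟨t * u, mul_pos ht hu, ?_⟩
    rw [h1, h2]
    push_cast
    ring

private theorem psd_minor_diagonal (κ : Fin n → ℂ) (N : Matrix (Fin n) (Fin n) ℂ)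
    (J : Finset (Fin n)) : minor J (diagonal κ * N) = (∏ a ∈ J, κ a) * minor J N := by
  unfold minor
  have h1 : (diagonal κ * N).submatrix (Subtype.val : J → Fin n) (Subtype.val : J → Fin n) =
      Matrix.of fun i j : J => κ i * (N.submatrix (Subtype.val : J → Fin n)
        (Subtype.val : J → Fin n)) i j := by
    ext i j
    simp [Matrix.diagonal_mul]
  rw [h1, Matrix.det_mul_column, Finset.prod_coe_sort J κ]

/-- By `cycles_eq` (with `starN_mvNL`, `minor_starN`) and `exists_potential`,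
`starN ζ N = dconj d N`. Let `m a = d a / kap (ζ a)`; along an edge (`N a b ≠ 0`, hence
`N b a ≠ 0`) the ratio `m a / m b` is real (apply `starN` twice, `kap z ^ 2 = -z⁻¹`), so by
connectivity `s a = m a₀ / m a` is real and nonzero, and `H a b = kap (ζ a) * s a * N a b` is
Hermitian. `H a b * H b a > 0` and `sign_pair` give `s a * s b > 0` along edges, so all `s a > 0`.
The principal minors are `∏ s a * ∏ kap (ζ a) * minor J N ≥ 0` (`sign_minor`). -/
theorem exists_psd {ζ : Fin n → ℂ} (hζ : ∀ i, ‖ζ i‖ = 1) (hζ1 : ∀ i, ζ i ≠ 1) {ρ : Fin n → ℝ}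
    (hρ : Function.Injective ρ) {N : Matrix (Fin n) (Fin n) ℂ} (hd : ∀ a, N a a = 1 - ζ a)
    (hc : ∀ a b, ∃ l, wk N a l b ≠ 0)
    (h : ∀ μ, ValidL μ ρ → ∀ J, WOr ζ J (minor J (Qm (rhoL μ ρ) ζ (mvNL ζ μ ρ N)))) :
    ∃ κ : Fin n → ℂ, (∀ a, κ a ≠ 0) ∧ (diagonal κ * N).PosSemidef := by
  have hζ0 : ∀ i, ζ i ≠ 0 := fun i h0 => by
    have h1 := hζ i
    rw [h0, norm_zero] at h1
    exact zero_ne_one h1
  have h0 : ∀ J, WOr ζ J (minor J (Qm ρ ζ N)) := fun J => h [] trivial J
  have hcyc : ∀ a l, wk N a l a = wk (starN ζ N) a l a := by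
    intro a l
    refine cycles_eq hζ0 hρ ?_ ?_ ?_ a l
    · intro c
      have h1 : starN ζ N c c = -ζ c * (starRingEnd ℂ) (N c c) := rfl
      rw [h1, hd c, map_sub, map_one]
      linear_combination -psd_mul_conj (hζ c)
    · intro μ _ c e
      rw [starN_mvNL hζ]
      have h1 : starN ζ (mvNL ζ μ ρ N) e c = -ζ e * (starRingEnd ℂ) (mvNL ζ μ ρ N c e) := rfl
      rw [h1]
      simp [hζ0 e]
    · intro μ hμ J
      obtain ⟨ν, hν, hq, -⟩ := h μ hμ J
      rw [starN_mvNL hζ, minor_starN hζ (rhoL_injective hρ hμ) _ J hν hq]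
  obtain ⟨d, hd0, hdc⟩ := exists_potential hc hcyc
  have hst : ∀ a b, d a * -ζ a * (starRingEnd ℂ) (N b a) = N a b * d b := by
    intro a b
    have h1 : -ζ a * (starRingEnd ℂ) (N b a) = (d a)⁻¹ * N a b * d b :=
      congrFun (congrFun hdc a) b
    have h2 := mul_inv_cancel₀ (hd0 a)
    linear_combination d a * h1 + N a b * d b * h2
  set m : Fin n → ℂ := fun a => d a * (starRingEnd ℂ) (kap (ζ a)) with hm
  have he : ∀ a b, N a b ≠ 0 → ∃ t : ℝ, 0 < t ∧ m a = t * m b := by
    intro a b hab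
    by_cases hne : a = b
    · exact ⟨1, one_pos, by rw [hne]; simp⟩
    have hba : N b a ≠ 0 := by
      intro h1
      have h2 := hst a b
      rw [h1, map_zero, mul_zero] at h2
      exact mul_ne_zero hab (hd0 b) h2.symm
    have h1 := h0 {a, b}
    rw [minor_pair hρ ζ N hne] at h1
    have h2 := sign_pair hζ hζ1 hne (mul_ne_zero hab hba) h1
    obtain ⟨u, hu, hu'⟩ : ∃ u : ℝ, 0 < u ∧ (u : ℂ) = kap (ζ a) * kap (ζ b) * (N a b * N b a) := by
      rw [Complex.lt_def] at h2
      refine ⟨(kap (ζ a) * kap (ζ b) * (N a b * N b a)).re, by simpa using h2.1, ?_⟩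
      apply Complex.ext
      · simp only [Complex.ofReal_re]
      · rw [Complex.ofReal_im, ← h2.2, Complex.zero_im]
    have hv : 0 < Complex.normSq (N b a) := Complex.normSq_pos.2 hba
    have hv' : ((Complex.normSq (N b a) : ℝ) : ℂ) ≠ 0 := by exact_mod_cast hv.ne'
    refine ⟨u / Complex.normSq (N b a), div_pos hu hv, ?_⟩
    push_cast
    rw [div_mul_eq_mul_div, eq_div_iff hv', hu', ← Complex.mul_conj]
    simp only [hm]
    rw [psd_conj_kap (hζ a)]
    linear_combination kap (ζ a) * N b a * hst a b -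
      kap (ζ a) * N a b * N b a * d b * psd_kap_mul_conj (ζ b)
  obtain ⟨s, hs0, hs⟩ : ∃ s : Fin n → ℝ, (∀ a, 0 < s a) ∧ ∀ a b, s a * m a = s b * m b := by
    rcases isEmpty_or_nonempty (Fin n) with hn | ⟨⟨a₀⟩⟩
    · exact ⟨fun _ => 1, fun _ => one_pos, fun a => hn.elim a⟩
    · have h1 : ∀ a, ∃ t : ℝ, 0 < t ∧ m a₀ = t * m a := fun a => by
        obtain ⟨l, hl⟩ := hc a₀ a
        exact psd_walk he l a₀ a hl
      choose s hs0 hs using h1
      exact ⟨s, hs0, fun a b => (hs a).symm.trans (hs b)⟩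
  have hk0 : ∀ a, kap (ζ a) ≠ 0 := fun a => left_ne_zero_of_mul_eq_one (psd_kap_mul_conj (ζ a))
  refine ⟨fun a => kap (ζ a) * s a, fun a => mul_ne_zero (hk0 a) ?_, posSemidef_of_minors ?_ ?_⟩
  · exact_mod_cast (hs0 a).ne'
  · refine Matrix.IsHermitian.ext fun a b => ?_
    rw [Matrix.diagonal_mul, Matrix.diagonal_mul]
    apply mul_right_cancel₀ (hd0 b)
    have h1 := hs a b
    simp only [hm] at h1
    rw [psd_conj_kap (hζ a)] at h1
    rw [← starRingEnd_apply, map_mul, map_mul, Complex.conj_ofReal]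
    linear_combination kap (ζ a) * s a * hst a b - (starRingEnd ℂ) (N b a) * h1
  · intro J
    have h1 := sign_minor hζ hζ1 (minor_Qm_monic J hρ ζ N).2 (h0 J)
    rw [minor_Qm_eval_one J ρ hd] at h1
    rw [psd_minor_diagonal, Finset.prod_mul_distrib, mul_right_comm]
    refine mul_nonneg h1 (Finset.prod_nonneg fun a _ => ?_)
    exact_mod_cast (hs0 a).le

end Pool.Agent.GR
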