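import Pool.Agent.Lib.MP_aa40d3_nt.GR.GroupA
import Pool.Agent.Lib.MP_aa40d3_nt.GR.Psd

/-! Finiteness of the group generated by the reflections. -/

open Polynomial Matrix

namespace Pool.Agent.GR

variable {n r : ℕ}

/-- Choose `e`, `f` and let `N a b = f a ⬝ᵥ e b` (`Repr`, `Repr.connected`). For valid `μ` and all `J`
one has `GOr ζ J (minor J (Qm (rhoL μ ρ) ζ' (mvNL ζ' μ ρ N)))` with `ζ' i = (ζ i : ℂ)`, by
`all_subsets`, `exists_lowerL`, `Repr.mvL`, `mvNL_diag`, `charpoly_prod`, `minor_Qm_monic` and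
`gor_of_orr`. For `μ = []` the minors of `N` are integral (`minor_Qm_eval_one`, `GOr.isIntegral`),
so the closed walks are (`wk_isIntegral`), and `exists_dconj_mem` gives `d` and a matrix `N₀` over
`LL` with `N₀.map (algebraMap LL ℂ) = dconj d N`. For each `σ`, `wor_of_gor` (with `minor_Qm_map`,
`mvNL_map`, `mvNL_dconj`, `minor_Qm_dconj`), `exists_psd` and `norm_Gm_mul_wk_le` for `N₀.map σ`
give the hypothesis of `finite_Gm_of_bound`; conclude with `Gm_map`, `Gm_dconj` and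
`Repr.finite_of_Gm`. -/
theorem group_finite {g : Fin n → (Matrix (Fin r) (Fin r) ℂ)ˣ} {ζ : Fin n → LL}
    (hζ : ∀ i, IsOfFinOrder (ζ i)) (hζ1 : ∀ i, ζ i ≠ 1) (hr : ∀ a, IsRefl (g a).val (ζ a))
    (hi : IrrT g) {ρ : Fin n → ℝ} (hρ : Function.Injective ρ)
    (ho : ∀ μ, ValidL μ ρ → ∀ l, LowerL (rhoL μ ρ) l →
      Orr r ζ l.toFinset ((l.map (mvTL μ ρ g)).prod.val).charpoly) :
    Finite (Subgroup.closure (Set.range g)) := by
  classical
  choose e f hef using hr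
  obtain ⟨N, hN⟩ : ∃ N : Matrix (Fin n) (Fin n) ℂ, N = Matrix.of fun a b => f a ⬝ᵥ e b := ⟨_, rfl⟩
  have hR : Repr g e f N := ⟨fun a => (hef a).1, fun a b => by rw [hN]; rfl⟩
  have hd : ∀ a, N a a = 1 - (ζ a : ℂ) := fun a => by rw [hR.2]; exact (hef a).2
  have hinj : Function.Injective (algebraMap LL ℂ) := (algebraMap LL ℂ).injective
  have hne1 : ∀ (σ : LL →+* ℂ) a, σ (ζ a) ≠ 1 := fun σ a h =>
    hζ1 a (σ.injective (by rw [h, map_one]))
  have hnorm : ∀ (σ : LL →+* ℂ) a, ‖σ (ζ a)‖ = 1 := fun σ a => norm_of_isOfFinOrder σ (hζ a)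
  have hd0 : ∀ a, N a a ≠ 0 := fun a => by
    rw [hd]
    exact sub_ne_zero.2 (hne1 (algebraMap LL ℂ) a).symm
  have hz0 : ∀ a, (ζ a : ℂ) ≠ 0 := fun a h => by
    have h1 := hnorm (algebraMap LL ℂ) a
    change ‖(ζ a : ℂ)‖ = 1 at h1
    rw [h, norm_zero] at h1
    exact zero_ne_one h1
  have hc := hR.connected hd0 hi
  have hG : ∀ μ, ValidL μ ρ → ∀ J, GOr ζ J
      (minor J (Qm (rhoL μ ρ) (fun i => (ζ i : ℂ)) (mvNL (fun i => (ζ i : ℂ)) μ ρ N))) := by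
    refine all_subsets (P := GOr ζ) hρ fun μ hμ J hJ => ?_
    have hρ' := rhoL_injective hρ hμ
    obtain ⟨l, hl, rfl⟩ := exists_lowerL hρ' J hJ
    obtain ⟨e', f', hR'⟩ := hR.mvL hd hz0 μ ρ
    exact gor_of_orr (ho μ hμ l hl) (minor_Qm_monic _ hρ' _ _).1
      (charpoly_prod hR' (fun a => by rw [mvNL_diag, hd]) hl.1)
  have hint : ∀ a l, IsIntegral ℤ (wk N a l a) := by
    refine wk_isIntegral N fun J => ?_
    have h1 := (hG [] trivial J).isIntegral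
    rwa [show rhoL [] ρ = ρ from rfl, show mvNL (fun i => (ζ i : ℂ)) [] ρ N = N from rfl,
      minor_Qm_eval_one J ρ hd] at h1
  obtain ⟨d, hd1, hdm⟩ := exists_dconj_mem hc (algebraicClosure ℚ ℂ).toSubfield fun a l =>
    (mem_algebraicClosure_iff.2 ((hint a l).tower_top (A := ℚ)).isAlgebraic :
      wk N a l a ∈ algebraicClosure ℚ ℂ)
  obtain ⟨N₀, hN₀⟩ : ∃ N₀ : Matrix (Fin n) (Fin n) LL, N₀.map (algebraMap LL ℂ) = dconj d N :=
    ⟨Matrix.of fun a b => ⟨dconj d N a b, hdm a b⟩, rfl⟩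
  have hwk : ∀ a l b, algebraMap LL ℂ (wk N₀ a l b) = (d a)⁻¹ * wk N a l b * d b := fun a l b => by
    rw [wk_map, hN₀, wk_dconj hd1]
  have hc₀ : ∀ a b, ∃ l, wk N₀ a l b ≠ 0 := fun a b => by
    obtain ⟨l, hl⟩ := hc a b
    refine ⟨l, fun h => ?_⟩
    have h1 := hwk a l b
    rw [h, map_zero] at h1
    exact mul_ne_zero (mul_ne_zero (inv_ne_zero (hd1 a)) hl) (hd1 b) h1.symm
  have hint₀ : ∀ a l, IsIntegral ℤ (wk N₀ a l a) := fun a l => by
    rw [← isIntegral_algebraMap_iff hinj, hwk, mul_comm, ← mul_assoc, mul_inv_cancel₀ (hd1 a),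
      one_mul]
    exact hint a l
  have hd₀ : ∀ a, N₀ a a = 1 - ζ a := fun a => by
    apply hinj
    have h1 := hwk a [] a
    rw [mul_comm, ← mul_assoc, mul_inv_cancel₀ (hd1 a), one_mul] at h1
    rw [map_sub, map_one]
    exact h1.trans (hd a)
  have hfin : (Set.range (Gm N₀)).Finite := by
    refine finite_Gm_of_bound hc₀ hint₀ fun σ w a b l => ?_
    have hdσ : ∀ a, N₀.map σ a a = 1 - σ (ζ a) := fun a => by
      rw [Matrix.map_apply, hd₀, map_sub, map_one]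
    obtain ⟨κ, hκ, hp⟩ := exists_psd (ζ := fun i => σ (ζ i)) (hnorm σ) (hne1 σ) hρ hdσ
      (fun a b => by
        obtain ⟨l, hl⟩ := hc₀ a b
        exact ⟨l, by rw [← wk_map]; exact (_root_.map_ne_zero σ).2 hl⟩)
      (fun μ hμ J => by
        rw [← mvNL_map, ← minor_Qm_map]
        refine wor_of_gor hζ ?_ σ
        rw [minor_Qm_map, mvNL_map, hN₀, mvNL_dconj hd1, minor_Qm_dconj hd1]
        exact hG μ hμ J)
    have h1 := norm_Gm_mul_wk_le (ζ := fun i => σ (ζ i)) (hnorm σ) (hne1 σ) hdσ hκ hp w a b l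
    rw [← Gm_map, ← wk_map, Matrix.map_apply, ← map_mul] at h1
    exact h1
  refine hR.finite_of_Gm hd0 hi ?_
  refine (hfin.image fun M => dconj (fun a => (d a)⁻¹) (M.map (algebraMap LL ℂ))).subset ?_
  rintro _ ⟨w, rfl⟩
  refine ⟨_, ⟨w, rfl⟩, ?_⟩
  simp only [Gm_map, hN₀, Gm_dconj hd1]
  ext a b
  have := hd1 a
  have := hd1 b
  simp only [dconj, Matrix.of_apply]
  field_simp

end Pool.Agent.GR
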