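import Pool.Agent.Lib.MP_aa40d3_nt.GR.DefsA

/-! A presentation of a finitely generated subring of `ℂ`. -/

open Polynomial Matrix

namespace Pool.Agent.GR

variable {n r : ℕ}

theorem present_basis {t : Fin n → ℂ} (ht : AlgebraicIndependent ℤ t) (S : Finset ℂ) :
    ∃ (m : ℕ) (w : Fin n ⊕ Fin m → ℂ), (∀ i, w (Sum.inl i) = t i) ∧ AlgebraicIndependent ℤ w ∧
      ∀ s ∈ S, IsAlgebraic (Algebra.adjoin ℤ (Set.range w)) s := by
  classical
  induction S using Finset.induction_on with
  | empty =>
    refine ⟨0, Sum.elim t Fin.elim0, fun i => rfl, ?_, by simp⟩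
    have : Sum.elim t (Fin.elim0 : Fin 0 → ℂ) = t ∘ (Equiv.sumEmpty (Fin n) (Fin 0)) := by
      funext x
      rcases x with x | x
      · rfl
      · exact x.elim0
    rw [this]
    exact ht.comp _ (Equiv.injective _)
  | insert s S _ ih =>
    obtain ⟨m, w, hw, hind, halg⟩ := ih
    by_cases hs : IsAlgebraic (Algebra.adjoin ℤ (Set.range w)) s
    · refine ⟨m, w, hw, hind, fun x hx => ?_⟩
      rcases Finset.mem_insert.1 hx with rfl | hx
      · exact hs
      · exact halg x hx
    · have h1 : AlgebraicIndependent ℤ (fun o : Option (Fin n ⊕ Fin m) => o.elim s w) :=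
        AlgebraicIndependent.option_iff.2 ⟨hind, hs⟩
      let e : Fin n ⊕ Fin (m + 1) → Option (Fin n ⊕ Fin m) :=
        Sum.elim (fun i => some (Sum.inl i)) (Fin.cons none fun j => some (Sum.inr j))
      have he : Function.Injective e := by
        rintro (a | a) (b | b) hab
        · simpa [e] using hab
        · refine Fin.cases ?_ (fun b => ?_) b hab <;> simp [e]
        · refine Fin.cases ?_ (fun a => ?_) a hab <;> simp [e]
        · revert hab
          refine Fin.cases ?_ (fun a => ?_) a <;> refine Fin.cases ?_ (fun b => ?_) b <;>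
            simp [e]
      let w' : Fin n ⊕ Fin (m + 1) → ℂ := (fun o : Option (Fin n ⊕ Fin m) => o.elim s w) ∘ e
      have hle : Algebra.adjoin ℤ (Set.range w) ≤ Algebra.adjoin ℤ (Set.range w') := by
        refine Algebra.adjoin_mono ?_
        rintro _ ⟨x, rfl⟩
        rcases x with x | x
        · exact ⟨Sum.inl x, rfl⟩
        · exact ⟨Sum.inr x.succ, by simp [w', e]⟩
      refine ⟨m + 1, w', fun i => hw i, h1.comp e he, fun x hx => ?_⟩
      rcases Finset.mem_insert.1 hx with rfl | hx
      · have hm : x ∈ Algebra.adjoin ℤ (Set.range w') :=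
          Algebra.subset_adjoin ⟨Sum.inr 0, by simp [w', e]⟩
        exact isAlgebraic_algebraMap (⟨x, hm⟩ : Algebra.adjoin ℤ (Set.range w'))
      · exact (halg x hx).tower_top_of_subalgebra_le hle

theorem present_clear {P K : Type} [CommRing P] [IsDomain P] [Field K] [Algebra P K]
    [IsFractionRing P K] (T : Finset K[X]) :
    ∃ G : P, G ≠ 0 ∧ ∀ f ∈ T, ∃ q : P[X], q.map (algebraMap P K) = C (algebraMap P K G) * f := by
  classical
  induction T using Finset.induction_on with
  | empty => exact ⟨1, one_ne_zero, by simp⟩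
  | insert f T _ ih =>
    obtain ⟨G, hG, h⟩ := ih
    obtain ⟨b, hb, hb'⟩ := IsLocalization.integerNormalization_spec (nonZeroDivisors P) f
    refine ⟨b * G, mul_ne_zero (nonZeroDivisors.ne_zero hb) hG, fun g hg => ?_⟩
    rcases Finset.mem_insert.1 hg with rfl | hg
    · refine ⟨C G * IsLocalization.integerNormalization (nonZeroDivisors P) g, ?_⟩
      rw [Polynomial.map_mul, map_C, hb', Algebra.smul_def, map_mul, map_mul,
        Polynomial.algebraMap_apply]
      ring
    · obtain ⟨q, hq⟩ := h g hg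
      refine ⟨C b * q, ?_⟩
      rw [Polynomial.map_mul, map_C, hq, map_mul, map_mul]
      ring

theorem present_alg {P L : Type} [CommRing P] [IsDomain P] [IsIntegrallyClosed P] [Field L]
    [CharZero L] [Algebra P L] [FaithfulSMul P L] (S : Finset L)
    (hS : ∀ s ∈ S, IsAlgebraic P s) :
    ∃ (θ : L) (F : P[X]) (G : P), F.Monic ∧ G ≠ 0 ∧ (∀ q, aeval θ q = 0 ↔ F ∣ q) ∧
      (∀ s ∈ S, ∃ q : P[X], aeval θ q = algebraMap P L G * s) ∧
      ∃ u v, u * F + v * derivative F = C G := by
  classical
  let K := FractionRing P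
  letI : Algebra K L := FractionRing.liftAlgebra P L
  haveI : IsScalarTower P K L := FractionRing.isScalarTower_liftAlgebra P L
  haveI : CharZero K := RingHom.charZero (algebraMap K L)
  have hinj : Function.Injective (algebraMap P K) := IsFractionRing.injective P K
  have hint : ∀ s ∈ (S : Set L), IsIntegral K s := fun s hs =>
    ((hS s hs).extendScalars hinj).isIntegral
  let E := IntermediateField.adjoin K (S : Set L)
  haveI : FiniteDimensional K E := IntermediateField.finiteDimensional_adjoin hint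
  obtain ⟨α, hα⟩ := Field.exists_primitive_element K E
  have hαK : IsAlgebraic K (α : L) :=
    (Algebra.IsAlgebraic.isAlgebraic (R := K) α).algHom E.val
  have hαP : IsAlgebraic P (α : L) := (IsFractionRing.isAlgebraic_iff P K L).2 hαK
  obtain ⟨y, hy, hθ⟩ := hαP.exists_integral_multiple
  set θ : L := y • (α : L) with hθdef
  have hyL : algebraMap P L y ≠ 0 := by
    rwa [ne_eq, map_eq_zero_iff _ (FaithfulSMul.algebraMap_injective P L)]
  have hmem : ∀ s ∈ S, ∃ f : K[X], aeval θ f = s := by
    intro s hs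
    have h1 : (⟨s, IntermediateField.subset_adjoin K _ hs⟩ : E) ∈
        IntermediateField.adjoin K {α} := by
      rw [hα]
      trivial
    have h2 : (⟨s, IntermediateField.subset_adjoin K _ hs⟩ : E) ∈ Algebra.adjoin K {α} := by
      rw [← IntermediateField.adjoin_simple_toSubalgebra_of_isAlgebraic
        (Algebra.IsAlgebraic.isAlgebraic α)]
      exact h1
    rw [Algebra.adjoin_singleton_eq_range_aeval] at h2
    obtain ⟨f, hf⟩ := h2
    have h3 : aeval (α : L) f = s := by
      have := congrArg E.val hf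
      rw [AlgHom.toRingHom_eq_coe, RingHom.coe_coe, ← aeval_algHom_apply] at this
      exact this
    refine ⟨f.comp (C (algebraMap P K y)⁻¹ * X), ?_⟩
    rw [aeval_comp, map_mul, aeval_C, aeval_X, map_inv₀, ← IsScalarTower.algebraMap_apply,
      hθdef, Algebra.smul_def, ← mul_assoc, inv_mul_cancel₀ hyL, one_mul, h3]
  choose! f hf using hmem
  have hθK : IsIntegral K θ := hθ.tower_top
  have hsep : (minpoly K θ).Separable := (minpoly.irreducible hθK).separable
  obtain ⟨a, b, hab⟩ := hsep
  have hmp : minpoly K θ = (minpoly P θ).map (algebraMap P K) :=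
    minpoly.isIntegrallyClosed_eq_field_fractions' K hθ
  obtain ⟨G, hG, hcl⟩ := present_clear (P := P) (insert a (insert b (S.image f)))
  refine ⟨θ, minpoly P θ, G, minpoly.monic hθ, hG,
    fun q => minpoly.isIntegrallyClosed_dvd_iff hθ q, fun s hs => ?_, ?_⟩
  · obtain ⟨q, hq⟩ := hcl (f s)
      (Finset.mem_insert_of_mem (Finset.mem_insert_of_mem (Finset.mem_image_of_mem f hs)))
    refine ⟨q, ?_⟩
    rw [← aeval_map_algebraMap K, hq, map_mul, aeval_C, hf s hs, ← IsScalarTower.algebraMap_apply]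
  · obtain ⟨u, hu⟩ := hcl a (Finset.mem_insert_self _ _)
    obtain ⟨v, hv⟩ := hcl b (Finset.mem_insert_of_mem (Finset.mem_insert_self _ _))
    refine ⟨u, v, Polynomial.map_injective _ hinj ?_⟩
    rw [Polynomial.map_add, Polynomial.map_mul, Polynomial.map_mul, hu, hv, ← derivative_map,
      ← hmp, map_C, mul_assoc, mul_assoc, ← mul_add, hab, mul_one]

/-- Extend `t` to a finite transcendence basis `w` of the field generated by `t` and `S`,
take a primitive element over `K = ℚ(w)`, scale it to be integral over `ℤ[W]` and let `F` be its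
minimal polynomial over `ℤ[W]`. -/
theorem exists_presentation {t : Fin n → ℂ} (ht : AlgebraicIndependent ℚ t) (S : Finset ℂ) :
    ∃ (m : ℕ) (w : Fin n ⊕ Fin m → ℂ) (θ : ℂ) (F : (MvPolynomial (Fin n ⊕ Fin m) ℤ)[X])
      (G : MvPolynomial (Fin n ⊕ Fin m) ℤ), F.Monic ∧ (∀ i, w (Sum.inl i) = t i) ∧
      ev1 w G ≠ 0 ∧ (∀ q, ev2 w θ q = 0 ↔ F ∣ q) ∧
      (∀ s ∈ S, ∃ q, ev2 w θ q = ev1 w G * s) ∧ ∃ u v, u * F + v * derivative F = C G := by
  obtain ⟨m, w, hw, hind, halg⟩ :=
    present_basis (ht.restrictScalars (algebraMap ℤ ℚ).injective_int) S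
  have hev : ∀ p, ev1 w p = MvPolynomial.aeval w p := fun p => rfl
  have hinj : Function.Injective (ev1 w) := fun p q h => hind h
  letI : Algebra (MvPolynomial (Fin n ⊕ Fin m) ℤ) ℂ := (ev1 w).toAlgebra
  haveI : FaithfulSMul (MvPolynomial (Fin n ⊕ Fin m) ℤ) ℂ :=
    (faithfulSMul_iff_algebraMap_injective _ _).2 hinj
  have hS : ∀ s ∈ S, IsAlgebraic (MvPolynomial (Fin n ⊕ Fin m) ℤ) s := by
    intro s hs
    obtain ⟨g, hg0, hg⟩ := halg s hs
    refine ⟨g.map (hind.aevalEquiv.symm : _ →+* MvPolynomial (Fin n ⊕ Fin m) ℤ), ?_, ?_⟩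
    · rwa [ne_eq, Polynomial.map_eq_zero_iff hind.aevalEquiv.symm.injective]
    · rw [aeval_def, eval₂_map, ← hg, aeval_def]
      congr 1
      ext x
      obtain ⟨p, rfl⟩ := hind.aevalEquiv.surjective x
      simp only [RingHom.coe_comp, RingHom.coe_coe, Function.comp_apply, AlgEquiv.symm_apply_apply]
      rfl
  obtain ⟨θ, F, G, hF, hG, h1, h2, h3⟩ := present_alg S hS
  refine ⟨m, w, θ, F, G, hF, hw, fun h => hG (hinj (h.trans (map_zero _).symm)), h1, h2, h3⟩

end Pool.Agent.GR
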