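import Pool.Agent.Lib.MP_aa40d3_nt.GR.Aff
import Pool.Agent.Lib.MP_aa40d3_nt.GR.Present

/-! Existence of an algebraic family through a system with algebraically independent points. -/

open Polynomial Matrix

namespace Pool.Agent.GR

variable {n r : ℕ}

theorem modelex_ev2_C {σ k : Type} [CommRing k] (w : σ → k) (θ : k) (G : MvPolynomial σ ℤ) :
    ev2 w θ (C G) = ev1 w G := by
  simp [ev2]

theorem modelex_ev1_X {σ k : Type} [CommRing k] (w : σ → k) (i : σ) :
    ev1 w (MvPolynomial.X i) = w i := by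
  simp [ev1]

theorem modelex_ring {σ : Type} (w : σ → ℂ) (θ : ℂ) (F : (MvPolynomial σ ℤ)[X])
    (G : MvPolynomial σ ℤ) (hG : ev1 w G ≠ 0) (hF : ∀ q, ev2 w θ q = 0 ↔ F ∣ q) :
    ∃ (Λ : Type) (_ : CommRing Λ) (ι : Λ →+* ℂ) (π : (MvPolynomial σ ℤ)[X] →+* Λ) (g : Λ),
      Function.Injective ι ∧ π (C G) * g = 1 ∧ (∀ q, ι (π q) = ev2 w θ q) ∧
      ∀ (k : Type) [Field k] (w' : σ → k) (θ' : k), ev2 w' θ' F = 0 → ev1 w' G ≠ 0 →
        ∃ φ : Λ →+* k, ∀ q, φ (π q) = ev2 w' θ' q := by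
  classical
  have key : ∀ (k : Type) [Field k] (w' : σ → k) (θ' : k), ev2 w' θ' F = 0 → ev1 w' G ≠ 0 →
      ∃ j : AdjoinRoot F →+* k, (∀ q, j (AdjoinRoot.mk F q) = ev2 w' θ' q) ∧
        IsUnit (j (AdjoinRoot.mk F (C G))) := by
    intro k _ w' θ' h1 h2
    have h1' : F.eval₂ (ev1 w') θ' = 0 := h1
    have hj : ∀ q, AdjoinRoot.lift (ev1 w') θ' h1' (AdjoinRoot.mk F q) = ev2 w' θ' q := by
      intro q
      rw [AdjoinRoot.lift_mk]
      rfl
    refine ⟨AdjoinRoot.lift (ev1 w') θ' h1', hj, ?_⟩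
    rw [hj, modelex_ev2_C]
    exact isUnit_iff_ne_zero.2 h2
  obtain ⟨j, hj, hju⟩ := key ℂ w θ ((hF F).2 dvd_rfl) hG
  have hjinj : Function.Injective j := by
    rw [injective_iff_map_eq_zero]
    intro x hx
    obtain ⟨q, rfl⟩ := AdjoinRoot.mk_surjective x
    rw [hj] at hx
    exact AdjoinRoot.mk_eq_zero.2 ((hF q).1 hx)
  let y : AdjoinRoot F := AdjoinRoot.mk F (C G)
  refine ⟨Localization.Away y, inferInstance, IsLocalization.Away.lift y hju,
    (algebraMap (AdjoinRoot F) (Localization.Away y)).comp (AdjoinRoot.mk F),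
    IsLocalization.Away.invSelf y, ?_, ?_, ?_, ?_⟩
  · unfold IsLocalization.Away.lift
    rw [IsLocalization.lift_injective_iff]
    intro a b
    constructor
    · intro h
      have h2 := congrArg (IsLocalization.Away.lift (S := Localization.Away y) y hju) h
      simpa [IsLocalization.Away.lift_eq] using h2
    · intro h
      rw [hjinj h]
  · exact IsLocalization.Away.mul_invSelf y
  · intro q
    rw [RingHom.comp_apply, IsLocalization.Away.lift_eq, hj]
  · intro k _ w' θ' h1 h2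
    obtain ⟨j', hj', hju'⟩ := key k w' θ' h1 h2
    refine ⟨IsLocalization.Away.lift y hju', fun q => ?_⟩
    rw [RingHom.comp_apply, IsLocalization.Away.lift_eq, hj']

theorem modelex_cyc {R S : Type*} [CommRing R] [CommRing S] [NeZero r] (φ : R →+* S)
    (t : Fin n → R) (A : Fin n → Matrix (Fin r) (Fin r) R) (e : ℕ) :
    φ ((cycH 1 (dl t) (pm t A)).coeff e) =
      (cycH 1 (dl fun i => φ (t i)) (pm (fun i => φ (t i)) fun i => (A i).map φ)).coeff e := by
  rw [← coeff_map, cycH_map, dl_map, pm_map, Polynomial.map_one]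


/-- Let `x` be a nonzero coefficient of `cycH 1 (dl t) (pm t A)` and apply `exists_presentation`
to `S` (from `hpc`) together with the entries of the `A i`, `x⁻¹` and the `(t i - t j)⁻¹`.
Let `Λ = Localization.Away (AdjoinRoot.mk F (C G))`, `ι : Λ →+* ℂ` the map given by `ev2 w θ`
(injective), and for a point `(w', θ')` over `k` let `φ : Λ →+* k` be given by `ev2 w' θ'`.
With `t' i` the class of the variable `inl i` and `A' i` the class of `G⁻¹ Q i`, every identity
(`Rk1`, trace, `(t i - t j) * y = 1`, `x * y = 1` where `x` is the coefficient of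
`cycH 1 (dl t') (pm t' A')`, see `cycH_map`) lifts to `Λ` by injectivity and maps to `k`;
`injS_of_cycH` gives `InjS`. -/
theorem exists_model [NeZero r] {t : Fin n → ℂ} (ht : AlgebraicIndependent ℚ t)
    {A : Fin n → Matrix (Fin r) (Fin r) ℂ} (hrk : ∀ i, Rk1 (A i)) {D : ℕ} (hD : 0 < D)
    {a : Fin n → ℤ} (ha : ∀ i, ¬ (D : ℤ) ∣ a i) (htr : ∀ i, (D : ℂ) * (A i).trace = a i)
    (hc : cycH 1 (dl t) (pm t A) ≠ 0) (hpc : PC t A) :
    ∃ (M : Model n r) (w : Fin n ⊕ Fin M.m → ℂ) (θ : ℂ), M.D = D ∧ M.a = a ∧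
      ev2 w θ M.F = 0 ∧ ev1 w M.G ≠ 0 ∧ (∀ i, w (Sum.inl i) = t i) ∧ M.mA w θ = A := by
  classical
  obtain ⟨S, P0, hS⟩ := hpc
  obtain ⟨e, he⟩ : ∃ e, (cycH 1 (dl t) (pm t A)).coeff e ≠ 0 := by
    by_contra h
    push Not at h
    exact hc (Polynomial.ext fun e => by simpa using h e)
  have htinj : Function.Injective t := ht.injective
  let x : ℂ := (cycH 1 (dl t) (pm t A)).coeff e
  let S' : Finset ℂ := S ∪ (Finset.univ.image fun p : Fin n × Fin r × Fin r => A p.1 p.2.1 p.2.2) ∪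
    {x⁻¹} ∪ (Finset.univ.image fun p : Fin n × Fin n => (t p.1 - t p.2)⁻¹)
  obtain ⟨m, w, θ, F, G, hFm, hw, hG, hF, hS', u, v, huv⟩ := exists_presentation ht S'
  obtain ⟨Λ, _, ι, π, g, hι, hg, hπ, hφ⟩ := modelex_ring w θ F G hG hF
  have hιg : ι g = (ev1 w G)⁻¹ := by
    have h := congrArg ι hg
    rw [map_mul, map_one, hπ, modelex_ev2_C] at h
    exact eq_inv_of_mul_eq_one_right h
  have hrange : ∀ s ∈ S', ∃ q, ev2 w θ q = ev1 w G * s ∧ ι (g * π q) = s := by
    intro s hs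
    obtain ⟨q, hq⟩ := hS' s hs
    refine ⟨q, hq, ?_⟩
    rw [map_mul, hιg, hπ, hq, ← mul_assoc, inv_mul_cancel₀ hG, one_mul]
  have hA : ∀ i a b, ∃ q, ev2 w θ q = ev1 w G * A i a b ∧ ι (g * π q) = A i a b := by
    intro i a b
    refine hrange _ ?_
    simp only [S', Finset.mem_union, Finset.mem_image, Finset.mem_univ, true_and]
    exact Or.inl (Or.inl (Or.inr ⟨(i, a, b), rfl⟩))
  choose Q hQ1 hQ2 using hA
  let Q' : Fin n → Matrix (Fin r) (Fin r) (MvPolynomial (Fin n ⊕ Fin m) ℤ)[X] :=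
    fun i => Matrix.of fun a b => Q i a b
  let t' : Fin n → Λ := fun i => π (C (MvPolynomial.X (Sum.inl i)))
  let A' : Fin n → Matrix (Fin r) (Fin r) Λ := fun i => Matrix.of fun a b => g * π (Q i a b)
  have ht' : ∀ i, ι (t' i) = t i := by
    intro i
    simp only [t']
    rw [hπ, modelex_ev2_C, modelex_ev1_X, hw]
  have hA' : ∀ i, (A' i).map ι = A i := by
    intro i
    ext a b
    exact hQ2 i a b
  have hrk' : ∀ i, Rk1 (A' i) := by
    intro i a b c d
    apply hι
    have h := hrk i a b c d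
    rw [← hA' i] at h
    simpa only [map_mul, Matrix.map_apply] using h
  have htr' : ∀ i, (D : Λ) * (A' i).trace = (a i : Λ) := by
    intro i
    apply hι
    have h := htr i
    rw [← hA' i] at h
    rw [map_mul, map_natCast, map_intCast, ← h, AddMonoidHom.map_trace ι (A' i)]
  have hinv : ∀ i j, i ≠ j → ∃ y : Λ, (t' i - t' j) * y = 1 := by
    intro i j hij
    obtain ⟨q, -, hq⟩ := hrange (t i - t j)⁻¹ (by
      simp only [S', Finset.mem_union, Finset.mem_image, Finset.mem_univ, true_and]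
      exact Or.inr ⟨(i, j), rfl⟩)
    refine ⟨g * π q, hι ?_⟩
    rw [map_mul, hq, map_sub, ht', ht', map_one]
    exact mul_inv_cancel₀ (sub_ne_zero.2 fun h => hij (htinj h))
  have hx : ∃ y : Λ, (cycH 1 (dl t') (pm t' A')).coeff e * y = 1 := by
    obtain ⟨q, -, hq⟩ := hrange x⁻¹ (by
      simp only [S', Finset.mem_union, Finset.mem_singleton]
      exact Or.inl (Or.inr trivial))
    refine ⟨g * π q, hι ?_⟩
    rw [map_mul, hq, modelex_cyc, map_one]
    simp only [ht', hA']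
    exact mul_inv_cancel₀ he
  have hpt : ∀ (k : Type) [Field k] (w' : Fin n ⊕ Fin m → k) (θ' : k), ev2 w' θ' F = 0 →
      ev1 w' G ≠ 0 → ∃ φ : Λ →+* k, (fun i => w' (Sum.inl i)) = (fun i => φ (t' i)) ∧
        (fun i => (ev1 w' G)⁻¹ • (Q' i).map (ev2 w' θ')) = fun i => (A' i).map φ := by
    intro k _ w' θ' h1 h2
    obtain ⟨φ, hφ'⟩ := hφ k w' θ' h1 h2
    have hφg : φ g = (ev1 w' G)⁻¹ := by
      have h := congrArg φ hg
      rw [map_mul, map_one, hφ', modelex_ev2_C] at h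
      exact eq_inv_of_mul_eq_one_right h
    refine ⟨φ, ?_, ?_⟩
    · funext i
      simp only [t']
      rw [hφ', modelex_ev2_C, modelex_ev1_X]
    · funext i
      ext a b
      simp only [A', Q', Matrix.smul_apply, Matrix.map_apply, Matrix.of_apply, smul_eq_mul,
        map_mul, hφg, hφ']
  refine ⟨⟨m, F, G, Q', D, a, P0, hFm, hD, ha, ?_, ?_, ?_⟩, w, θ, rfl, rfl,
    (hF F).2 dvd_rfl, hG, hw, ?_⟩
  · intro k _ w' θ' h1 h2 h3
    have h := congrArg (ev2 w' θ') huv
    rw [map_add, map_mul, map_mul, h1, h3, modelex_ev2_C] at h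
    exact h2 (by rw [← h]; simp)
  · intro k _ w' θ' h1 h2
    obtain ⟨φ, e1, e2⟩ := hpt k w' θ' h1 h2
    rw [e1, e2]
    refine ⟨?_, fun i => (hrk' i).map φ, fun i => ?_, ?_⟩
    · intro i j hij
      by_contra hne
      obtain ⟨y, hy⟩ := hinv i j hne
      have h := congrArg φ hy
      have hij' : φ (t' i) = φ (t' j) := hij
      rw [map_mul, map_sub, hij', sub_self, zero_mul, map_one] at h
      exact zero_ne_one h
    · have h := congrArg φ (htr' i)
      rw [map_mul, map_natCast, map_intCast, AddMonoidHom.map_trace φ (A' i)] at h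
      exact h
    · refine injS_of_cycH (ξ := 1) fun h0 => ?_
      obtain ⟨y, hy⟩ := hx
      have h := congrArg φ hy
      rw [map_mul, modelex_cyc, h0, coeff_zero, zero_mul, map_one] at h
      exact zero_ne_one h
  · intro k _ w' θ' h1 h2 p hp hP hch
    obtain ⟨φ, e1, e2⟩ := hpt k w' θ' h1 h2
    rw [e1, e2]
    refine hS Λ ι hι (fun s hs => ?_) t' A' ht' hA' p hp hP k φ
    obtain ⟨q, -, hq⟩ := hrange s (by
      simp only [S', Finset.mem_union]
      exact Or.inl (Or.inl (Or.inl hs)))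
    exact ⟨_, hq⟩
  · funext i
    ext a b
    simp only [Model.mA, Q', Matrix.smul_apply, Matrix.map_apply, Matrix.of_apply, smul_eq_mul,
      hQ1]
    rw [← mul_assoc, inv_mul_cancel₀ hG, one_mul]

end Pool.Agent.GR
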