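import Pool.Agent.Lib.MP_aa40d3_nt.GR.Path
import Pool.Agent.Lib.MP_aa40d3_nt.GR.Mono
import Pool.Agent.Lib.MP_aa40d3_nt.GR.GroupFin
import Pool.Agent.Lib.MP_aa40d3_nt.GR.ModelEx
import Pool.Agent.Lib.MP_aa40d3_nt.GR.CycNe

/-! The theorem for rank one residues with rational traces. -/

open Polynomial Matrix Set
open scoped Matrix.Norms.Operator

namespace Pool.Agent.GR

variable {n r : ℕ} [NeZero r]

theorem core {t : Fin n → ℂ} (ht : AlgebraicIndependent ℚ t)
    (hre : Function.Injective fun i => (t i).re) {A : Fin n → Matrix (Fin r) (Fin r) ℂ}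
    (hrk : ∀ i, Rk1 (A i)) {D : ℕ} (hD : 0 < D) {a : Fin n → ℤ}
    (htr : ∀ i, (D : ℂ) * (A i).trace = a i) (hni : ∀ i (m : ℤ), (A i).trace ≠ m)
    (hirr : Irred t A) (hpc : PC t A) : AlgSol t A := by
  classical
  have hD' : (D : ℂ) ≠ 0 := by exact_mod_cast hD.ne'
  have ha : ∀ i, ¬ (D : ℤ) ∣ a i := by
    rintro i ⟨c, hc⟩
    refine hni i c (mul_left_cancel₀ hD' ?_)
    rw [htr, hc]; push_cast; ring
  obtain ⟨M, w, θ, hMD, hMa, hF, hG, hw, hA⟩ :=
    exists_model ht hrk hD ha htr (cycH_ne_zero_of_irred hirr) hpc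
  obtain ⟨H, hH, hb⟩ : ∃ H : ℝ, 0 < H ∧ InBox (pp t) H := by
    refine ⟨1 + ∑ i, ‖t i‖, by positivity, fun i => ?_⟩
    have h1 : ‖t i‖ ≤ ∑ i, ‖t i‖ :=
      Finset.single_le_sum (f := fun i => ‖t i‖) (fun _ _ => norm_nonneg _) (Finset.mem_univ i)
    exact ⟨by have := Complex.abs_re_le_norm (t i); simp only [pp]; linarith,
      by have := Complex.abs_im_le_norm (t i); simp only [pp]; linarith⟩
  have hwt : (fun i => w (Sum.inl i)) = t := funext hw
  have hmon : mon M H (w, θ) = vt (TT t A) (pp t) H := by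
    simp only [mon, hwt, hA]
  have hcham : w ∈ Cham M.m (fun i => (t i).re) H := by
    refine ⟨by rw [hwt]; exact hb, fun a b hab => ?_⟩
    rw [hw, hw]; exact hab
  have htr' : ∀ i, (A i).trace = (((M.a i : ℚ) / M.D : ℚ) : ℂ) := by
    intro i
    rw [hMa, hMD]; push_cast
    rw [eq_div_iff hD', mul_comm, htr]
  have hrefl : ∀ i, IsRefl (vt (TT t A) (pp t) H i).val (M.ζ i) := by
    intro i
    have := isRefl_vt hre hb (hrk i) (hni i)
    rw [htr' i] at this
    exact this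
  have hζ1 : ∀ i, M.ζ i ≠ 1 := fun i => ez_ne_one fun m hm => hni i m (by
    rw [htr' i, hm]; norm_cast)
  have hζD : ∀ i, ((M.ζ i : LL) : ℂ) ^ D = 1 := by
    intro i
    change Complex.exp _ ^ D = 1
    rw [← Complex.exp_nat_mul, ← htr' i]
    have : (D : ℂ) * (2 * Real.pi * Complex.I * (A i).trace) = a i * (2 * Real.pi * Complex.I) := by
      rw [← htr i]; ring
    rw [this, Complex.exp_int_mul_two_pi_mul_I]
  set U : Set ℂ := {x | ∀ i, x.im < (t i).im} with hU
  have hUo : IsOpen U := by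
    rw [hU, setOf_forall]
    exact isOpen_iInter_of_finite fun i => isOpen_lt Complex.continuous_im continuous_const
  have hUc : Convex ℝ U := by
    rw [hU, setOf_forall]
    exact convex_iInter fun i => convex_halfSpace_im_lt _
  have hx₀ : cpt (-H, -H) ∈ U := fun i => by
    have := (hb i).2
    simp only [pp, cpt] at this ⊢
    exact (abs_lt.1 this).1
  have hY : ∀ x ∈ U, (∀ i, x ≠ t i) ∧ (T t A (cpt (-H, -H)) x).det ≠ 0 ∧
      HasDerivAt (T t A (cpt (-H, -H))) (sys t A x * T t A (cpt (-H, -H)) x) x := by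
    intro x hx
    refine ⟨fun i h => lt_irrefl _ (h ▸ hx i), ?_, hasDerivAt_T A fun i hi => ?_⟩
    · exact ((Matrix.isUnit_iff_isUnit_det _).1 (isUnit_Tr _)).ne_zero
    · exact lt_irrefl _ (hUc.segment_subset hx₀ hx hi i)
  have hext := extProp hre A hH.le hb
  have hi : IrrT (vt (TT t A) (pp t) H) :=
    irrT_of_irred hirr hrefl hD hζD hUo hx₀ (T_self _ _ _) hY hext
  have hfin : Finite (Subgroup.closure (Set.range (vt (TT t A) (pp t) H))) := by
    refine group_finite (fun i => isOfFinOrder_ez _) hζ1 hrefl hi hre fun μ hμ l hl => ?_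
    have := path M hH μ hre hμ hl hcham hG hF
    rwa [hmon] at this
  obtain ⟨ε, hε, hball⟩ := Metric.isOpen_iff.1 hUo _ hx₀
  refine ⟨cpt (-H, -H), ε, T t A (cpt (-H, -H)), hε, fun x hx => ?_, fun a b => ?_⟩
  · obtain ⟨h1, h2, h3⟩ := hY x (hball hx)
    exact ⟨h1, h2, hasDerivAt_mat.1 h3⟩
  · obtain ⟨P, hP, h⟩ := alg_of_finite hfin hext a b
    exact ⟨P, hP, fun x hx => h x (hball hx)⟩

end Pool.Agent.GR
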