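import Pool.Agent.Lib.MP_aa40d3_nt.GR.DefsG

set_option autoImplicit false

/-! One shared copy of the unfolding lemmas of `DefsG`. -/

theorem Pool.Agent.GR.mvNL_eqShared : type_of% @Pool.Agent.GR.mvNL.eq_def :=
  @Pool.Agent.GR.mvNL.eq_def

theorem Pool.Agent.GR.mvTL_eqShared : type_of% @Pool.Agent.GR.mvTL.eq_def :=
  @Pool.Agent.GR.mvTL.eq_def
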