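import Pool.Agent.Lib.MP_aa40d3_nt.GR.ExtA

/-! The two determinations of the fundamental solution. -/

open Polynomial Matrix Set Filter Topology
open scoped Matrix.Norms.Operator

namespace Pool.Agent.GR

variable {n r : ℕ}

/-- The solution continued from below. -/
noncomputable def Yb (t : Fin n → ℂ) (A : Fin n → Mat r) (H : ℝ) (x : ℂ) : Mat r :=
  (Ybot (TT t A) H (x.re, x.im)).val

/-- The solution continued from above. -/
noncomputable def Yt (t : Fin n → ℂ) (A : Fin n → Mat r) (H : ℝ) (x : ℂ) : Mat r :=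
  (Ytop (TT t A) H (x.re, x.im)).val

theorem ext_cpt (y : ℂ) : cpt (y.re, y.im) = y := rfl

theorem ext_line {t : Fin n → ℂ} (A : Fin n → Mat r) {h : ℝ} (hh : ∀ i, (t i).im ≠ h)
    (a b c : ℝ) : TT t A (b, h) (c, h) * TT t A (a, h) (b, h) = TT t A (a, h) (c, h) := by
  refine rectT_TT t A (min a (min b c)) (max a (max b c)) h h (fun i hi => ?_) _ ?_ _ ?_ _ ?_
  · exact hh i (le_antisymm hi.2.2 hi.2.1)
  · exact ⟨⟨min_le_left _ _, le_max_left _ _⟩, le_rfl, le_rfl⟩
  · exact ⟨⟨(min_le_right _ _).trans (min_le_left _ _),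
      (le_max_left _ _).trans (le_max_right _ _)⟩, le_rfl, le_rfl⟩
  · exact ⟨⟨(min_le_right _ _).trans (min_le_right _ _),
      (le_max_right _ _).trans (le_max_right _ _)⟩, le_rfl, le_rfl⟩

theorem ext_aux {t : Fin n → ℂ} (A : Fin n → Mat r) {h : ℝ} (hh : ∀ i, (t i).im ≠ h) {x : ℂ}
    (hx : ∀ i, (t i).re = x.re → (t i).im < min h x.im ∨ max h x.im < (t i).im) (c : ℝ)
    (u : (Mat r)ˣ) : DifferentiableAt ℂ
      (fun y : ℂ => (TT t A (y.re, h) (y.re, y.im) * TT t A (c, h) (y.re, h) * u).val) x := by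
  have hlt : ∀ a b : ℝ, a < b → ∀ᶠ ε in 𝓝 (0 : ℝ), a + ε < b := fun a b hab =>
    ContinuousAt.eventually_lt (f := fun ε : ℝ => a + ε) (g := fun _ => b) (by fun_prop)
      continuousAt_const (by simpa using hab)
  have hev : ∀ᶠ ε in 𝓝 (0 : ℝ), ∀ i, pp t i ∉ Icc (x.re - ε) (x.re + ε) ×ˢ
      Icc (min h x.im - ε) (max h x.im + ε) := by
    refine eventually_all.2 fun i => ?_
    rcases lt_trichotomy (t i).re x.re with h1 | h1 | h1
    · filter_upwards [hlt _ _ h1] with ε hε hm
      have := hm.1.1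
      simp only [pp] at this
      linarith
    · rcases hx i h1 with h2 | h2
      · filter_upwards [hlt _ _ h2] with ε hε hm
        have := hm.2.1
        simp only [pp] at this
        linarith
      · filter_upwards [hlt _ _ h2] with ε hε hm
        have := hm.2.2
        simp only [pp] at this
        linarith
    · filter_upwards [hlt _ _ h1] with ε hε hm
      have := hm.1.2
      simp only [pp] at this
      linarith
  obtain ⟨ε, hfree, hε⟩ : ∃ ε : ℝ, (∀ i, pp t i ∉ Icc (x.re - ε) (x.re + ε) ×ˢ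
      Icc (min h x.im - ε) (max h x.im + ε)) ∧ 0 < ε :=
    ((hev.filter_mono nhdsWithin_le_nhds).and (self_mem_nhdsWithin (s := Ioi (0 : ℝ)))).exists
  have h1 := min_le_left h x.im
  have h2 := min_le_right h x.im
  have h3 := le_max_left h x.im
  have h4 := le_max_right h x.im
  have hseg : ∀ i, t i ∉ segment ℝ (cpt (x.re, h)) x := fun i hi => by
    obtain ⟨a, b, ha, hb, hab, he⟩ := hi
    have hre := congrArg Complex.re he
    have him := congrArg Complex.im he
    simp only [cpt, Complex.add_re, Complex.add_im, Complex.smul_re, Complex.smul_im,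
      smul_eq_mul] at hre him
    have hre' : (t i).re = x.re := by rw [← hre, ← add_mul, hab, one_mul]
    rcases hx i hre' with h5 | h5
    · have h6 : a * min h x.im + b * min h x.im = min h x.im := by rw [← add_mul, hab, one_mul]
      linarith [mul_le_mul_of_nonneg_left h1 ha, mul_le_mul_of_nonneg_left h2 hb]
    · have h6 : a * max h x.im + b * max h x.im = max h x.im := by rw [← add_mul, hab, one_mul]
      linarith [mul_le_mul_of_nonneg_left h3 ha, mul_le_mul_of_nonneg_left h4 hb]
  have hd : DifferentiableAt ℂ (fun y : ℂ => T t A (cpt (x.re, h)) y *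
      (TT t A (c, h) (x.re, h) * u).val) x :=
    (hasDerivAt_T A hseg).differentiableAt.mul_const _
  refine hd.congr_of_eventuallyEq ?_
  filter_upwards [Metric.ball_mem_nhds x hε] with y hy
  rw [Metric.mem_ball, dist_eq_norm] at hy
  have h5 := abs_lt.1 ((Complex.abs_re_le_norm (y - x)).trans_lt hy)
  have h6 := abs_lt.1 ((Complex.abs_im_le_norm (y - x)).trans_lt hy)
  rw [Complex.sub_re] at h5
  rw [Complex.sub_im] at h6
  have h7 := rectT_TT t A _ _ _ _ hfree (x.re, h)
    ⟨⟨by linarith, by linarith⟩, by linarith, by linarith⟩ (y.re, h)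
    ⟨⟨by linarith [h5.1], by linarith [h5.2]⟩, by linarith, by linarith⟩ (y.re, y.im)
    ⟨⟨by linarith [h5.1], by linarith [h5.2]⟩, by linarith [h6.1], by linarith [h6.2]⟩
  rw [← ext_line A hh c x.re y.re, ← mul_assoc, h7, mul_assoc, Units.val_mul]
  rfl

/-- A thin closed rectangle around the vertical segment from `(x.re, -H)` to `x` is free of singular
points, so `Yb y = T x y * Yb x` for `y` near `x` (`rectT_TT`); then use `hasDerivAt_T`. -/
theorem differentiableAt_Yb {t : Fin n → ℂ} (A : Fin n → Mat r) {H : ℝ} (hb : InBox (pp t) H)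
    {x : ℂ} (hx : ∀ i, (t i).re = x.re → x.im < (t i).im) : DifferentiableAt ℂ (Yb t A H) x := by
  have h1 := ext_aux A (h := -H) (fun i hi => by
    have := (abs_lt.1 (hb i).2).1
    simp only [pp] at this
    linarith) (x := x) (fun i hi => Or.inr (max_lt (abs_lt.1 (hb i).2).1 (hx i hi))) (-H) 1
  simp only [mul_one] at h1
  exact h1

theorem differentiableAt_Yt {t : Fin n → ℂ} (A : Fin n → Mat r) {H : ℝ} (hb : InBox (pp t) H)
    {x : ℂ} (hx : ∀ i, (t i).re = x.re → (t i).im < x.im) : DifferentiableAt ℂ (Yt t A H) x := by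
  exact ext_aux A (h := H) (fun i hi => by
    have := (abs_lt.1 (hb i).2).2
    simp only [pp] at this
    linarith) (x := x) (fun i hi => Or.inl (lt_min (abs_lt.1 (hb i).2).2 (hx i hi))) (-H)
    (TT t A (-H, -H) (-H, H))

/-- Below all singular points `Yb` is the transport along the straight segment (`T_tri`). -/
theorem Yb_eq_T {t : Fin n → ℂ} (A : Fin n → Mat r) {H : ℝ} (hb : InBox (pp t) H) {x : ℂ}
    (hx : ∀ i, x.im < (t i).im) : Yb t A H x = T t A (cpt (-H, -H)) x := by
  have h1 := rectT_TT t A (min (-H) x.re) (max (-H) x.re) (min (-H) x.im) (max (-H) x.im)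
    (fun i hi => absurd hi.2.2 (not_le.2 (max_lt (abs_lt.1 (hb i).2).1 (hx i))))
    (-H, -H) ⟨⟨min_le_left _ _, le_max_left _ _⟩, min_le_left _ _, le_max_left _ _⟩
    (x.re, -H) ⟨⟨min_le_right _ _, le_max_right _ _⟩, min_le_left _ _, le_max_left _ _⟩
    (x.re, x.im) ⟨⟨min_le_right _ _, le_max_right _ _⟩, min_le_right _ _, le_max_right _ _⟩
  exact congrArg Units.val h1

end Pool.Agent.GR
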