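import Pool.Agent.Lib.MP_aa40d3_nt.GR.MatAn

/-! Polynomial functions of matrices; functions of moderate growth are rational. -/

open Polynomial Matrix Set Filter Topology
open scoped Matrix.Norms.Operator

namespace Pool.Agent.GR

variable {n r : ℕ}

/-- Polynomial functions of the entries of a matrix. -/
noncomputable def PF (r : ℕ) : Subalgebra ℂ (Mat r → ℂ) :=
  Algebra.adjoin ℂ (Set.range fun q : Fin r × Fin r => fun M : Mat r => M q.1 q.2)

theorem PF.differentiable {F : Mat r → ℂ} (hF : F ∈ PF r) : Differentiable ℂ F := by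
  induction hF using Algebra.adjoin_induction with
  | mem x hx =>
    obtain ⟨q, rfl⟩ := hx
    exact fun M => (differentiableAt_mat (f := fun N : Mat r => N)).mp differentiableAt_id q.1 q.2
  | algebraMap a => exact differentiable_const a
  | add x y _ _ hx hy => exact hx.add hy
  | mul x y _ _ hx hy => exact hx.mul hy

theorem PF.growth {F : Mat r → ℂ} (hF : F ∈ PF r) :
    ∃ (c : ℝ) (k : ℕ), 0 ≤ c ∧ ∀ M, ‖F M‖ ≤ c * (1 + ‖M‖) ^ k := by
  induction hF using Algebra.adjoin_induction with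
  | mem x hx =>
    obtain ⟨q, rfl⟩ := hx
    refine ⟨1, 1, zero_le_one, fun M => (norm_entry_le M q.1 q.2).trans ?_⟩
    rw [one_mul, pow_one]
    linarith
  | algebraMap a => exact ⟨‖a‖, 0, norm_nonneg a, fun M => by simp⟩
  | add x y _ _ hx hy =>
    obtain ⟨c, k, hc, h⟩ := hx
    obtain ⟨c', k', hc', h'⟩ := hy
    refine ⟨c + c', k + k', add_nonneg hc hc', fun M => (norm_add_le (x M) (y M)).trans ?_⟩
    have h1 : 1 ≤ 1 + ‖M‖ := by linarith [norm_nonneg M]
    have h2 := mul_le_mul_of_nonneg_left (pow_le_pow_right₀ h1 (Nat.le_add_right k k')) hc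
    have h3 := mul_le_mul_of_nonneg_left (pow_le_pow_right₀ h1 (Nat.le_add_left k' k)) hc'
    have h4 := h M
    have h5 := h' M
    linarith
  | mul x y _ _ hx hy =>
    obtain ⟨c, k, hc, h⟩ := hx
    obtain ⟨c', k', hc', h'⟩ := hy
    refine ⟨c * c', k + k', mul_nonneg hc hc', fun M => (norm_mul_le (x M) (y M)).trans ?_⟩
    refine (mul_le_mul (h M) (h' M) (norm_nonneg _) ((norm_nonneg _).trans (h M))).trans_eq ?_
    ring

theorem exta_entire (k : ℕ) : ∀ g : ℂ → ℂ, Differentiable ℂ g →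
    (∃ c R : ℝ, ∀ x, R ≤ ‖x‖ → ‖g x‖ ≤ c * ‖x‖ ^ k) → ∃ q : ℂ[X], ∀ x, g x = q.eval x := by
  induction k with
  | zero =>
    rintro g hg ⟨c, R, h⟩
    obtain ⟨b, hb⟩ := (isCompact_closedBall (0 : ℂ) R).exists_bound_of_continuousOn
      hg.continuous.continuousOn
    have hbd : Bornology.IsBounded (range g) := by
      refine isBounded_iff_forall_norm_le.mpr ⟨max b c, ?_⟩
      rintro _ ⟨x, rfl⟩
      rcases le_total R ‖x‖ with h1 | h1
      · have := h x h1
        rw [pow_zero, mul_one] at this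
        exact this.trans (le_max_right _ _)
      · exact (hb x (mem_closedBall_zero_iff.mpr h1)).trans (le_max_left _ _)
    obtain ⟨a, ha⟩ := hg.exists_const_forall_eq_of_bounded hbd
    exact ⟨C a, fun x => by rw [ha, eval_C]⟩
  | succ k ih =>
    rintro g hg ⟨c, R, h⟩
    have hd : Differentiable ℂ (dslope g 0) := differentiableOn_univ.mp
      ((Complex.differentiableOn_dslope univ_mem).mpr hg.differentiableOn)
    have he : ∀ x, x * dslope g 0 x = g x - g 0 := fun x => by
      have := sub_smul_dslope g 0 x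
      rwa [sub_zero, smul_eq_mul] at this
    obtain ⟨q, hq⟩ := ih _ hd ⟨c + ‖g 0‖, max R 1, fun x hx => by
      have h1 : 1 ≤ ‖x‖ := (le_max_right _ _).trans hx
      have h2 := h x ((le_max_left _ _).trans hx)
      have h3 : ‖x‖ * ‖dslope g 0 x‖ ≤ ‖g x‖ + ‖g 0‖ := by
        rw [← norm_mul, he]
        exact norm_sub_le _ _
      have h4 := mul_le_mul_of_nonneg_left (one_le_pow₀ h1 (n := k + 1)) (norm_nonneg (g 0))
      refine le_of_mul_le_mul_left ?_ (zero_lt_one.trans_le h1)
      have h5 : ‖x‖ * ((c + ‖g 0‖) * ‖x‖ ^ k) = c * ‖x‖ ^ (k + 1) + ‖g 0‖ * ‖x‖ ^ (k + 1) := by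
        ring
      linarith⟩
    refine ⟨X * q + C (g 0), fun x => ?_⟩
    rw [eval_add, eval_mul, eval_X, eval_C, ← hq, he, sub_add_cancel]

theorem exta_eval (t : Fin n → ℂ) (x : ℂ) : (dl t).eval x = ∏ j, (x - t j) := by
  simp [dl, eval_prod]

theorem exta_ev (t : Fin n → ℂ) (c : ℂ) : ∀ᶠ z in 𝓝[≠] c, ∀ j, z ≠ t j :=
  eventually_all.mpr fun j => by
    by_cases h : c = t j
    · exact eventually_mem_nhdsWithin.mono fun z hz => h ▸ hz
    · exact (eventually_ne_nhds h).filter_mono nhdsWithin_le_nhds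

/-- Removable singularities at the `t i` (`Complex.differentiableOn_update_limUnder_of_isLittleO`
or `..._of_bddAbove` after multiplying by `dl t ^ m`), then an entire function of polynomial growth
is a polynomial: induct on the exponent with `dslope` and Liouville's theorem
(`Differentiable.apply_eq_apply_of_bounded`), or use Cauchy estimates. -/
theorem poly_of_growth {t : Fin n → ℂ} (ht : Function.Injective t) {f : ℂ → ℂ}
    (hd : ∀ x, (∀ i, x ≠ t i) → DifferentiableAt ℂ f x)
    (h0 : ∀ i, ∃ (c : ℝ) (k : ℕ), ∀ᶠ x in 𝓝[≠] (t i), ‖f x‖ ≤ c / ‖x - t i‖ ^ k)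
    (h1 : ∃ (c R : ℝ) (k : ℕ), ∀ x, R ≤ ‖x‖ → ‖f x‖ ≤ c * ‖x‖ ^ k) :
    ∃ (m : ℕ) (q : ℂ[X]), ∀ x, (∀ i, x ≠ t i) → (dl t).eval x ^ m * f x = q.eval x := by
  choose c k hk using h0
  obtain ⟨c₁, R, k₁, h1⟩ := h1
  set m := Finset.univ.sup k + 1 with hm
  have hkm : ∀ i, k i < m := fun i => Nat.lt_succ_of_le (Finset.le_sup (Finset.mem_univ i))
  have hd' : ∀ x, (∀ i, x ≠ t i) →
      DifferentiableAt ℂ (fun x => (dl t).eval x ^ m * f x) x := fun x hx =>
    (((dl t).differentiable x).pow m).mul (hd x hx)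
  have hg : Differentiable ℂ fun x => (dl t).eval x ^ m * f x := fun x => by
    by_cases hx : ∀ i, x ≠ t i
    · exact hd' x hx
    push Not at hx
    obtain ⟨i, rfl⟩ := hx
    refine (Complex.analyticAt_of_differentiable_on_punctured_nhds_of_continuousAt
      ((exta_ev t (t i)).mono hd') ?_).differentiableAt
    have e : ∀ x, (dl t).eval x = (x - t i) * ∏ j ∈ Finset.univ.erase i, (x - t j) := fun x => by
      rw [exta_eval, Finset.mul_prod_erase _ (fun j => x - t j) (Finset.mem_univ i)]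
    have z0 : (dl t).eval (t i) ^ m * f (t i) = 0 := by
      rw [e, sub_self, zero_mul, hm, pow_succ, mul_zero, zero_mul]
    refine continuousWithinAt_compl_self.mp ?_
    unfold ContinuousWithinAt
    beta_reduce
    rw [z0]
    have hB : Continuous fun x : ℂ =>
        ‖∏ j ∈ Finset.univ.erase i, (x - t j)‖ ^ m * ‖x - t i‖ ^ (m - k i) * c i := by fun_prop
    refine squeeze_zero_norm' (a := fun x : ℂ =>
        ‖∏ j ∈ Finset.univ.erase i, (x - t j)‖ ^ m * ‖x - t i‖ ^ (m - k i) * c i) ?_ ?_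
    · filter_upwards [hk i, exta_ev t (t i)] with x h2 h3
      have h4 : 0 < ‖x - t i‖ := norm_pos_iff.mpr (sub_ne_zero.mpr (h3 i))
      rw [norm_mul, norm_pow, e, norm_mul]
      refine (mul_le_mul_of_nonneg_left h2 (by positivity)).trans_eq ?_
      have h5 : ‖x - t i‖ ^ m = ‖x - t i‖ ^ (m - k i) * ‖x - t i‖ ^ k i := by
        rw [← pow_add, Nat.sub_add_cancel (hkm i).le]
      rw [mul_pow, h5]
      field_simp
    · have := (hB.tendsto (t i)).mono_left (nhdsWithin_le_nhds (s := {t i}ᶜ))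
      rwa [sub_self, norm_zero, zero_pow (Nat.sub_ne_zero_of_lt (hkm i)), mul_zero, zero_mul]
        at this
  obtain ⟨q, hq⟩ := exta_entire (n * m + k₁) _ hg ⟨2 ^ (n * m) * c₁, max R (∑ j, ‖t j‖),
    fun x hx => by
      have h2 := h1 x ((le_max_left _ _).trans hx)
      have h3 : ‖(dl t).eval x‖ ≤ (2 * ‖x‖) ^ n := by
        rw [exta_eval, norm_prod]
        refine (Finset.prod_le_prod (g := fun _ => 2 * ‖x‖) (fun j _ => norm_nonneg _)
          fun j _ => ?_).trans_eq (by simp)
        have h4 : ‖t j‖ ≤ ∑ j, ‖t j‖ :=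
          Finset.single_le_sum (fun j _ => norm_nonneg (t j)) (Finset.mem_univ j)
        have h5 := (le_max_right _ _).trans hx
        have h6 := norm_sub_le x (t j)
        linarith
      rw [norm_mul, norm_pow]
      refine (mul_le_mul (pow_le_pow_left₀ (norm_nonneg _) h3 m) h2 (norm_nonneg _)
        (by positivity)).trans_eq ?_
      rw [← pow_mul, mul_pow]
      ring⟩
  exact ⟨m, q, fun x _ => hq x⟩

end Pool.Agent.GR
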