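import Pool.Agent.Lib.MP_aa40d3_nt.GR.Growth

/-! Monodromy invariant polynomials in the solutions are rational functions. -/

open Polynomial Matrix Set Filter Topology
open scoped Matrix.Norms.Operator

namespace Pool.Agent.GR

variable {n r : ℕ} [NeZero r]

/-- Invariant polynomial functions of `Y` are rational on `U`. -/
def ExtProp (t : Fin n → ℂ) (g : Fin n → (Mat r)ˣ) (U : Set ℂ) (Y : ℂ → Mat r) : Prop :=
  ∀ F ∈ PF r, (∀ (M : (Mat r)ˣ) a, F (M * g a).val = F M.val) →
    ∃ (m : ℕ) (q : ℂ[X]), ∀ x ∈ U, (dl t).eval x ^ m * F (Y x) = q.eval x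

theorem extP_bound {c C s u a : ℝ} {k k₁ K : ℕ} (hc : 0 ≤ c) (hu : 0 ≤ u) (hs : 1 ≤ s)
    (ha : |a| ≤ C) (hk : k₁ ≤ K) (h : u ≤ a * s ^ k₁) :
    c * (1 + u) ^ k ≤ c * (1 + C) ^ k * s ^ (K * k) := by
  have h0 : 0 ≤ s := zero_le_one.trans hs
  have h1 : s ^ k₁ ≤ s ^ K := pow_le_pow_right₀ hs hk
  have h2 : 1 ≤ s ^ K := one_le_pow₀ hs
  have h3 : a * s ^ k₁ ≤ C * s ^ K :=
    mul_le_mul ((le_abs_self a).trans ha) h1 (pow_nonneg h0 _) ((abs_nonneg a).trans ha)
  have h4 : 1 + u ≤ (1 + C) * s ^ K := by linarith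
  rw [mul_assoc, pow_mul, ← mul_pow]
  exact mul_le_mul_of_nonneg_left (pow_le_pow_left₀ (by linarith) h4 k) hc

theorem extP_open (t : Fin n → ℂ) {x : ℂ} (ε : ℝ)
    (hx : ∀ i, (t i).re = x.re → ε * x.im < ε * (t i).im) :
    ∀ᶠ y in 𝓝 x, ∀ i, (t i).re = y.re → ε * y.im < ε * (t i).im := by
  refine eventually_all.2 fun i => ?_
  by_cases h : (t i).re = x.re
  · have hc : ContinuousAt (fun y : ℂ => ε * y.im) x := by fun_prop
    filter_upwards [hc.eventually_lt continuousAt_const (hx i h)] with y hy _ using hy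
  · have hc : ContinuousAt (fun y : ℂ => y.re) x := by fun_prop
    filter_upwards [hc.eventually_ne (Ne.symm h)] with y hy h' using absurd h'.symm hy

/-- Let `f x = F (Yb x)` if `∀ i, (t i).re = x.re → x.im < (t i).im`, and `F (Yt x)` otherwise.
By `Ybot_eq_Ytop` and invariance `F (Yb x) = F (Yt x)` if `x.re` is not the real part of a `t i`.
Hence `f = F ∘ Yb` near every point where `Yb` is differentiable and `f = F ∘ Yt` near the other
points `x ≠ t i`; also `f x = F (Yb x)` or `f x = F (Yt x)` can be chosen according to the sign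
conditions of the growth lemmas. Apply `poly_of_growth` and `Yb_eq_T`. -/
theorem extProp {t : Fin n → ℂ} (ht : Function.Injective fun i => (t i).re) (A : Fin n → Mat r)
    {H : ℝ} (hH : 0 ≤ H) (hb : InBox (pp t) H) :
    ExtProp t (vt (TT t A) (pp t) H) {x | ∀ i, x.im < (t i).im} (T t A (cpt (-H, -H))) := by
  classical
  intro F hF hinv
  have hti : Function.Injective t := fun i j h => ht (by simp only [h])
  have hl : ∀ (l : List (Fin n)) (M : (Mat r)ˣ),
      F (M * (l.map (vt (TT t A) (pp t) H)).prod).val = F M.val := by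
    intro l
    induction l with
    | nil => intro M; simp
    | cons a l ih =>
      intro M
      rw [List.map_cons, List.prod_cons, ← mul_assoc, ih, hinv]
  have hE : ∀ x : ℂ, (∀ j, (t j).re ≠ x.re) → F (Yb t A H x) = F (Yt t A H x) := by
    intro x hx
    obtain ⟨l, h⟩ := Ybot_eq_Ytop (rectT_TT t A) hb hH ht (q := (x.re, x.im)) hx
    rw [Yb, h, hl, Yt]
  let f : ℂ → ℂ := fun x =>
    if ∀ i, (t i).re = x.re → x.im < (t i).im then F (Yb t A H x) else F (Yt t A H x)
  have fb : ∀ x : ℂ, (∀ i, (t i).re = x.re → x.im < (t i).im) → f x = F (Yb t A H x) :=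
    fun x hx => if_pos hx
  have ft : ∀ x : ℂ, (∀ i, (t i).re = x.re → (t i).im < x.im) → f x = F (Yt t A H x) := by
    intro x hx
    by_cases h : ∀ i, (t i).re = x.re → x.im < (t i).im
    · rw [fb x h]
      exact hE x fun j hj => (h j hj).not_gt (hx j hj)
    · exact if_neg h
  have hFd := PF.differentiable hF
  obtain ⟨c, k, hc, hg⟩ := PF.growth hF
  have hd : ∀ x, (∀ i, x ≠ t i) → DifferentiableAt ℂ f x := by
    intro x hx
    by_cases h : ∀ i, (t i).re = x.re → x.im < (t i).im
    · refine ((hFd _).comp x (differentiableAt_Yb A hb h)).congr_of_eventuallyEq ?_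
      filter_upwards [extP_open t 1 (by simpa using h)] with y hy
      exact fb y (by simpa using hy)
    · have h' : ∀ i, (t i).re = x.re → (t i).im < x.im := by
        push Not at h
        obtain ⟨i, h1, h2⟩ := h
        intro j hj
        have hij : j = i := ht (hj.trans h1.symm)
        subst hij
        exact lt_of_le_of_ne h2 fun h3 => hx j (Complex.ext h1.symm h3.symm)
      refine ((hFd _).comp x (differentiableAt_Yt A hb h')).congr_of_eventuallyEq ?_
      filter_upwards [extP_open t (-1) (by simpa using h')] with y hy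
      exact ft y (by simpa using hy)
  have h0 : ∀ i, ∃ (c : ℝ) (k : ℕ), ∀ᶠ x in 𝓝[≠] (t i), ‖f x‖ ≤ c / ‖x - t i‖ ^ k := by
    intro i
    obtain ⟨c₁, k₁, e₁⟩ := norm_Yb_near ht A hb i
    obtain ⟨c₂, k₂, e₂⟩ := norm_Yt_near ht A hb i
    refine ⟨c * (1 + (|c₁| + |c₂|)) ^ k, (k₁ + k₂) * k, ?_⟩
    have e₃ : ∀ᶠ x in 𝓝 (t i), ∀ j, j ≠ i → x.re ≠ (t j).re := by
      refine eventually_all.2 fun j => ?_
      by_cases hj : j = i
      · exact Eventually.of_forall fun _ h => absurd hj h
      · have hc : ContinuousAt (fun y : ℂ => y.re) (t i) := by fun_prop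
        filter_upwards [hc.eventually_ne fun h => hj (ht h).symm] with y hy _ using hy
    have e₄ : ∀ᶠ x in 𝓝 (t i), ‖x - t i‖ < 1 := by
      have hc : ContinuousAt (fun y : ℂ => ‖y - t i‖) (t i) := by fun_prop
      exact hc.eventually_lt continuousAt_const (by simp)
    filter_upwards [e₁, e₂, nhdsWithin_le_nhds e₃, nhdsWithin_le_nhds e₄, self_mem_nhdsWithin]
      with x h₁ h₂ h₃ h₄ h₅
    have hx : x ≠ t i := h₅
    have hpos : 0 < ‖x - t i‖ := norm_pos_iff.2 (sub_ne_zero.2 hx)
    have hs : 1 ≤ ‖x - t i‖⁻¹ := (one_le_inv₀ hpos).2 h₄.le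
    have hji : ∀ j, (t j).re = x.re → j = i := fun j hj => by
      by_contra h
      exact h₃ j h hj.symm
    rw [div_eq_mul_inv, ← inv_pow]
    rcases le_total x.im (t i).im with h | h
    · rw [fb x fun j hj => by
        obtain rfl := hji j hj
        exact lt_of_le_of_ne h fun h' => hx (Complex.ext hj.symm h')]
      refine (hg _).trans (extP_bound (a := c₁) hc (norm_nonneg _) hs
        (le_add_of_nonneg_right (abs_nonneg _)) (Nat.le_add_right _ _) ?_)
      rw [inv_pow, ← div_eq_mul_inv]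
      exact h₁ h
    · rw [ft x fun j hj => by
        obtain rfl := hji j hj
        exact lt_of_le_of_ne h fun h' => hx (Complex.ext hj.symm h'.symm)]
      refine (hg _).trans (extP_bound (a := c₂) hc (norm_nonneg _) hs
        (le_add_of_nonneg_left (abs_nonneg _)) (Nat.le_add_left _ _) ?_)
      rw [inv_pow, ← div_eq_mul_inv]
      exact h₂ h
  have h1 : ∃ (c R : ℝ) (k : ℕ), ∀ x, R ≤ ‖x‖ → ‖f x‖ ≤ c * ‖x‖ ^ k := by
    obtain ⟨c₁, R₁, k₁, e₁⟩ := norm_Yb_far A hH hb
    obtain ⟨c₂, R₂, k₂, e₂⟩ := norm_Yt_far A hH hb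
    refine ⟨c * (1 + (|c₁| + |c₂|)) ^ k, max (max R₁ R₂) (max 1 (2 * H)), (k₁ + k₂) * k,
      fun x hx => ?_⟩
    simp only [max_le_iff] at hx
    obtain ⟨⟨h₁, h₂⟩, hs, h₄⟩ := hx
    have hn := Complex.norm_le_abs_re_add_abs_im x
    have hfar : ∀ j, (t j).re = x.re → |(t j).im| < |x.im| := fun j hj => by
      have h5 : |(t j).re| < H := (hb j).1
      have h6 : |(t j).im| < H := (hb j).2
      rw [hj] at h5
      linarith
    rcases le_total x.im 0 with h | h
    · rw [fb x fun j hj => by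
        have := hfar j hj
        rw [abs_of_nonpos h] at this
        linarith [neg_abs_le (t j).im]]
      exact (hg _).trans (extP_bound (a := c₁) hc (norm_nonneg _) hs
        (le_add_of_nonneg_right (abs_nonneg _)) (Nat.le_add_right _ _) (e₁ x h₁ h))
    · rw [ft x fun j hj => by
        have := hfar j hj
        rw [abs_of_nonneg h] at this
        linarith [le_abs_self (t j).im]]
      exact (hg _).trans (extP_bound (a := c₂) hc (norm_nonneg _) hs
        (le_add_of_nonneg_left (abs_nonneg _)) (Nat.le_add_left _ _) (e₂ x h₂ h))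
  obtain ⟨m, q, hq⟩ := poly_of_growth hti hd h0 h1
  refine ⟨m, q, fun x hx => ?_⟩
  have hx' : ∀ i, x.im < (t i).im := hx
  rw [← Yb_eq_T A hb hx', ← fb x fun i _ => hx' i]
  exact hq x fun i h => (hx' i).ne (congrArg Complex.im h)

end Pool.Agent.GR
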