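import Pool.Agent.Lib.MP_aa40d3_nt.GR.Branch

/-! Global branches on a convex set. -/

open Polynomial Set

namespace Pool.Agent.GR

/-- The zero set of `F`. -/
def globbrE (F : ℂ[X][X]) : Type := {q : ℂ × ℂ // (fib F q.1).eval q.2 = 0}

noncomputable instance globbrTop (F : ℂ[X][X]) : TopologicalSpace (globbrE F) :=
  inferInstanceAs (TopologicalSpace {q : ℂ × ℂ // (fib F q.1).eval q.2 = 0})

/-- Its projection. -/
def globbrP (F : ℂ[X][X]) (q : globbrE F) : ℂ := q.1.1

theorem globbr_root {d : ℕ} {a : Fin d → ℂ} {p : ℂ[X]} (hp : p = ∏ j, (X - C (a j))) {z : ℂ} :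
    p.eval z = 0 ↔ ∃ j, a j = z := by
  subst hp
  rw [eval_prod, Finset.prod_eq_zero_iff]
  constructor
  · rintro ⟨j, -, hj⟩
    exact ⟨j, by
      simp only [eval_sub, eval_X, eval_C] at hj
      exact (sub_eq_zero.1 hj).symm⟩
  · rintro ⟨j, hj⟩
    exact ⟨j, Finset.mem_univ _, by simp [hj]⟩

theorem globbr_val_cont (F : ℂ[X][X]) : Continuous (fun q : globbrE F => q.1) :=
  continuous_subtype_val

theorem globbr_cov (F : ℂ[X][X]) (hF : F.Monic) :
    IsCoveringMapOn (globbrP F)
      {u | ∀ θ, (fib F u).eval θ = 0 → (derivative (fib F u)).eval θ ≠ 0} := by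
  intro u₀ hu₀
  obtain ⟨ε, hε, θ, hd, hi, hp⟩ := exists_branches F hF hu₀
  have hPc : Continuous (globbrP F) := continuous_fst.comp (globbr_val_cont F)
  have hex : ∀ q : (globbrP F) ⁻¹' (Metric.ball u₀ ε), ∃ j, θ j q.1.1.1 = q.1.1.2 := fun q =>
    (globbr_root (hp _ q.2)).1 q.1.2
  choose idx hidx using hex
  have hθc : ∀ j, Continuous fun u : Metric.ball u₀ ε => θ j u := fun j =>
    continuousOn_iff_continuous_domRestrict.1 (hd j).continuousOn
  have h1 : Continuous fun q : (globbrP F) ⁻¹' (Metric.ball u₀ ε) =>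
      (⟨q.1.1.1, q.2⟩ : Metric.ball u₀ ε) :=
    Continuous.subtype_mk (hPc.comp continuous_subtype_val) _
  have hfib : ∀ j, IsClosed (idx ⁻¹' {j}) := by
    intro j
    have : idx ⁻¹' {j} = {q | θ j q.1.1.1 = q.1.1.2} := by
      ext q
      simp only [mem_preimage, mem_singleton_iff, mem_setOf_eq]
      constructor
      · rintro rfl; exact hidx q
      · intro h; exact hi _ q.2 ((hidx q).trans h.symm)
    rw [this]
    exact isClosed_eq ((hθc j).comp h1)
      (continuous_snd.comp ((globbr_val_cont F).comp continuous_subtype_val))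
  have hidxc : Continuous idx := by
    rw [continuous_iff_isClosed]
    intro s _
    rw [← biUnion_preimage_singleton idx s]
    exact (Set.toFinite s).isClosed_biUnion fun j _ => hfib j
  have key : IsEvenlyCovered (globbrP F) u₀ (Fin F.natDegree) := by
    refine ⟨inferInstance, Metric.ball u₀ ε, Metric.mem_ball_self hε, Metric.isOpen_ball,
      Metric.isOpen_ball.preimage hPc, ?_⟩
    refine ⟨{ toFun := fun q => (⟨q.1.1.1, q.2⟩, idx q)
              invFun := fun x => ⟨⟨(x.1.1, θ x.2 x.1.1), (globbr_root (hp _ x.1.2)).2 ⟨x.2, rfl⟩⟩,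
                x.1.2⟩
              left_inv := ?_
              right_inv := ?_
              continuous_toFun := h1.prodMk hidxc
              continuous_invFun := ?_ }, fun _ => rfl⟩
    · intro q
      apply Subtype.ext
      apply Subtype.ext
      exact Prod.ext rfl (hidx q)
    · intro x
      refine Prod.ext rfl ?_
      exact hi _ x.1.2 (hidx _)
    · refine Continuous.subtype_mk (Continuous.subtype_mk ?_ _) _
      refine (continuous_subtype_val.comp continuous_fst).prodMk ?_
      exact continuous_prod_of_discrete_right.2 fun j => hθc j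
  exact key.to_isEvenlyCovered_preimage

theorem globbr_prod {p : ℂ[X]} (hp : p.Monic) {d : ℕ} (hd : p.natDegree = d) {a : Fin d → ℂ}
    (ha : Function.Injective a) (hr : ∀ j, p.eval (a j) = 0) : p = ∏ j, (X - C (a j)) := by
  have hm : (∏ j, (X - C (a j)) : ℂ[X]).Monic :=
    monic_prod_of_monic _ _ fun j _ => monic_X_sub_C _
  have hdv : (∏ j, (X - C (a j)) : ℂ[X]) ∣ p :=
    Fintype.prod_dvd_of_coprime (pairwise_coprime_X_sub_C ha) fun j => dvd_iff_isRoot.2 (hr j)
  refine eq_of_monic_of_dvd_of_natDegree_le hm hp hdv ?_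
  rw [natDegree_prod_of_monic _ _ fun j _ => monic_X_sub_C _]
  simp [hd]

/-- Global branches on a convex (or any simply connected) open set, after composition with a
holomorphic `φ`. The projection of `{(s, θ) | s ∈ U, F (φ s, θ) = 0}` to `U` is a covering map
(from `exists_branches`: `IsCoveringMap.mk'`, `IsClosedMap.isCoveringMapOn_of_isLocalHomeomorphOn`
or `IsEvenlyCovered`), so each root over a base point lifts
(`IsCoveringMap.existsUnique_continuousMap_lifts`). A continuous root function agrees locally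
with a branch, so it is holomorphic; two of them that agree at a point agree everywhere. An
alternative proof: continue along segments from a base point using a Lebesgue number. -/
theorem exists_global_branches (F : ℂ[X][X]) (hF : F.Monic) {U : Set ℂ} (hU : IsOpen U)
    (hUc : Convex ℝ U) {φ : ℂ → ℂ} (hφ : DifferentiableOn ℂ φ U)
    (h : ∀ s ∈ U, ∀ θ, (fib F (φ s)).eval θ = 0 → (derivative (fib F (φ s))).eval θ ≠ 0) :
    ∃ θ : Fin F.natDegree → ℂ → ℂ, (∀ j, DifferentiableOn ℂ (θ j) U) ∧
      (∀ s ∈ U, Function.Injective fun j => θ j s) ∧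
      ∀ s ∈ U, fib F (φ s) = ∏ j, (X - C (θ j s)) := by
  classical
  rcases U.eq_empty_or_nonempty with rfl | ⟨s₀, hs₀⟩
  · exact ⟨fun _ _ => 0, fun _ => differentiableOn_empty, fun _ h => h.elim, fun _ h => h.elim⟩
  have : ContractibleSpace U := hUc.contractibleSpace ⟨s₀, hs₀⟩
  have : LocallyPathConnectedSpace U := hU.locallyPathConnectedSpace
  have cov := globbr_cov F hF
  let f : C(U, ℂ) := ⟨fun s => φ s, continuousOn_iff_continuous_domRestrict.1 hφ.continuousOn⟩
  have hf : ∀ a : U, f a ∈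
      {u | ∀ θ, (fib F u).eval θ = 0 → (derivative (fib F u)).eval θ ≠ 0} := fun a => h a a.2
  obtain ⟨ε, hε, η, -, hi, hp⟩ := exists_branches F hF (h s₀ hs₀)
  have hb := Metric.mem_ball_self (x := φ s₀) hε
  have hl : ∀ j : Fin F.natDegree, ∃ G : C(U, globbrE F),
      (G ⟨s₀, hs₀⟩).1 = (φ s₀, η j (φ s₀)) ∧ globbrP F ∘ G = f := by
    intro j
    obtain ⟨G, ⟨h1, h2⟩, -⟩ := cov.existsUnique_continuousMap_lifts f (a₀ := ⟨s₀, hs₀⟩)
      (e₀ := ⟨(φ s₀, η j (φ s₀)), (globbr_root (hp _ hb)).2 ⟨j, rfl⟩⟩) rfl hf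
    exact ⟨G, by rw [h1], h2⟩
  choose G hG0 hG using hl
  have hG1 : ∀ j (s : U), (G j s).1.1 = φ s := fun j s => congrFun (hG j) s
  let θ : Fin F.natDegree → ℂ → ℂ := fun j s => if hs : s ∈ U then (G j ⟨s, hs⟩).1.2 else 0
  have hθ : ∀ j s (hs : s ∈ U), θ j s = (G j ⟨s, hs⟩).1.2 := fun j s hs => dif_pos hs
  have hroot : ∀ j, ∀ s ∈ U, (fib F (φ s)).eval (θ j s) = 0 := by
    intro j s hs
    have := (G j ⟨s, hs⟩).2
    rwa [hG1, ← hθ j s hs] at this
  have hinj : ∀ s ∈ U, Function.Injective fun j => θ j s := by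
    intro s hs i j hij
    have e : G i ⟨s, hs⟩ = G j ⟨s, hs⟩ := by
      apply Subtype.ext
      refine Prod.ext ((hG1 i _).trans (hG1 j _).symm) ?_
      rw [← hθ i s hs, ← hθ j s hs]; exact hij
    obtain ⟨G', -, hu⟩ := cov.existsUnique_continuousMap_lifts f (a₀ := ⟨s, hs⟩)
      (e₀ := G j ⟨s, hs⟩) (hG1 j _) hf
    have e2 : G i = G j := (hu _ ⟨e, hG i⟩).trans (hu _ ⟨rfl, hG j⟩).symm
    have e3 := hG0 i
    rw [e2, hG0 j] at e3
    exact hi _ hb (congrArg Prod.snd e3).symm
  have hcont : ∀ j, ContinuousOn (θ j) U := by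
    intro j
    rw [continuousOn_iff_continuous_domRestrict]
    have : U.domRestrict (θ j) = fun s => (G j s).1.2 := by
      funext s; exact hθ j s s.2
    rw [this]
    exact continuous_snd.comp ((globbr_val_cont F).comp (G j).continuous)
  refine ⟨θ, ?_, hinj, fun s hs => ?_⟩
  · intro j s hs
    obtain ⟨δ, hδ, ζ, hd, hi', hp'⟩ := exists_branches F hF (h s hs)
    have hb' := Metric.mem_ball_self (x := φ s) hδ
    obtain ⟨k, hk⟩ := (globbr_root (hp' _ hb')).1 (hroot j s hs)
    have hUn : U ∈ nhds s := hU.mem_nhds hs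
    have hφs : DifferentiableAt ℂ φ s := hφ.differentiableAt hUn
    have hζ : ∀ l, DifferentiableAt ℂ (fun z => ζ l (φ z)) s := fun l =>
      ((hd l).differentiableAt (Metric.ball_mem_nhds _ hδ)).comp s hφs
    have hθs : ContinuousAt (θ j) s := (hcont j).continuousAt hUn
    have hne : ∀ l, ∀ᶠ z in nhds s, l ≠ k → ζ l (φ z) ≠ θ j z := by
      intro l
      by_cases hl : l = k
      · exact Filter.Eventually.of_forall fun z h => (h hl).elim
      · have : ζ l (φ s) ≠ θ j s := fun e => hl (hi' _ hb' (e.trans hk.symm))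
        have h2 := ((hζ l).continuousAt.sub hθs).eventually_ne (sub_ne_zero.2 this)
        exact h2.mono fun z hz _ => sub_ne_zero.1 hz
    have hall := Filter.eventually_all.2 hne
    have hball : ∀ᶠ z in nhds s, φ z ∈ Metric.ball (φ s) δ :=
      hφs.continuousAt (Metric.ball_mem_nhds _ hδ)
    have heq : θ j =ᶠ[nhds s] fun z => ζ k (φ z) := by
      filter_upwards [hall, hball, hUn] with z h1 h2 h3
      obtain ⟨l, hl⟩ := (globbr_root (hp' _ h2)).1 (hroot j z h3)
      by_cases hlk : l = k
      · rw [← hlk]; exact hl.symm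
      · exact (h1 l hlk hl).elim
    exact ((hζ k).congr_of_eventuallyEq heq).differentiableWithinAt
  · refine globbr_prod (hF.map _) ?_ (hinj s hs) fun j => hroot j s hs
    exact hF.natDegree_map _

end Pool.Agent.GR
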