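import Pool.Agent.Lib.MP_aa40d3_nt.GR.GramChar

/-! From initial segments to all subsets. -/

open Polynomial Matrix

namespace Pool.Agent.GR

variable {n r : ℕ} {K : Type*} [Field K]

/-- Sort a lower set. -/
theorem exists_lowerL {ρ : Fin n → ℝ} (hρ : Function.Injective ρ) (J : Finset (Fin n))
    (hJ : ∀ a ∈ J, ∀ b, ρ b < ρ a → b ∈ J) : ∃ l, LowerL ρ l ∧ l.toFinset = J := by
  classical
  let R : Fin n → Fin n → Prop := fun a b => ρ a ≤ ρ b
  have : IsTrans (Fin n) R := ⟨fun _ _ _ => le_trans⟩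
  have : Std.Antisymm R := ⟨fun _ _ h h' => hρ (le_antisymm h h')⟩
  have : Std.Total R := ⟨fun a b => le_total (ρ a) (ρ b)⟩
  refine ⟨J.sort R, ⟨?_, ?_⟩, ?_⟩
  · have h1 := J.pairwise_sort R
    have h2 := J.sort_nodup R
    refine (h1.and h2).imp ?_
    rintro a b ⟨hab, hne⟩
    exact lt_of_le_of_ne hab fun e => hne (hρ e)
  · intro a ha b hb
    rw [Finset.mem_sort] at ha ⊢
    exact hJ a ha b hb
  · ext a
    simp

theorem gram_free (ρ : Fin n → ℝ) (y : ℝ) : ∃ x < y, ∀ c, ρ c < y → ρ c < x := by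
  classical
  by_cases hne : (Finset.univ.filter fun c => ρ c < y).Nonempty
  · obtain ⟨c, hc, hm⟩ := Finset.exists_max_image _ ρ hne
    have hc' : ρ c < y := (Finset.mem_filter.1 hc).2
    refine ⟨(ρ c + y) / 2, by linarith, fun d hd => ?_⟩
    have := hm d (Finset.mem_filter.2 ⟨Finset.mem_univ _, hd⟩)
    linarith
  · refine ⟨y - 1, by linarith, fun d hd => ?_⟩
    exact absurd ⟨d, Finset.mem_filter.2 ⟨Finset.mem_univ _, hd⟩⟩ hne

theorem gram_congr {ζ : Fin n → K} {ρ ρ' : Fin n → ℝ} {N N' : Matrix (Fin n) (Fin n) K}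
    {J : Finset (Fin n)} (h1 : ∀ a ∈ J, ∀ b ∈ J, a ≠ b → (ρ' a < ρ' b ↔ ρ a < ρ b))
    (h2 : ∀ a ∈ J, ∀ b ∈ J, N' a b = N a b) : minor J (Qm ρ' ζ N') = minor J (Qm ρ ζ N) := by
  unfold minor
  congr 1
  ext1 a b
  simp only [submatrix_apply, Qm, of_apply]
  by_cases hab : (a : Fin n) = b
  · rw [if_pos hab, if_pos hab]
  · rw [if_neg hab, if_neg hab, h2 a a.2 b b.2]
    by_cases h : ρ a < ρ b
    · rw [if_pos h, if_pos ((h1 a a.2 b b.2 hab).2 h)]
    · rw [if_neg h, if_neg fun h' => h ((h1 a a.2 b b.2 hab).1 h')]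

/-- The pairs in the wrong order. -/
noncomputable def gramBad (ρ : Fin n → ℝ) (J : Finset (Fin n)) : Finset (Fin n × Fin n) :=
  Finset.univ.filter fun p => p.1 ∉ J ∧ p.2 ∈ J ∧ ρ p.1 < ρ p.2

/-- Induction on the number of pairs `(c, i)` with `c ∉ J`, `i ∈ J`, `ρ c < ρ i`. Let `c₀` be the
lowest index outside `J` and `i` the lowest index of `J` above it; move `i` to a free position `x`
just below `ρ c₀` (above all lower values of `ρ`). Then `mvS` does not meet `J`, so the entries of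
`N` on `J` and the order on `J` do not change. -/
theorem all_subsets {ζ : Fin n → K} {ρ₀ : Fin n → ℝ} (hρ : Function.Injective ρ₀)
    {N₀ : Matrix (Fin n) (Fin n) K} {P : Finset (Fin n) → K[X] → Prop}
    (h : ∀ μ, ValidL μ ρ₀ → ∀ J : Finset (Fin n),
      (∀ a ∈ J, ∀ b, rhoL μ ρ₀ b < rhoL μ ρ₀ a → b ∈ J) →
        P J (minor J (Qm (rhoL μ ρ₀) ζ (mvNL ζ μ ρ₀ N₀)))) :
    ∀ μ, ValidL μ ρ₀ → ∀ J, P J (minor J (Qm (rhoL μ ρ₀) ζ (mvNL ζ μ ρ₀ N₀))) := by
  classical
  intro μ hμ J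
  induction hk : (gramBad (rhoL μ ρ₀) J).card using Nat.strong_induction_on generalizing μ with
  | _ k ih =>
  by_cases hlow : ∀ a ∈ J, ∀ b, rhoL μ ρ₀ b < rhoL μ ρ₀ a → b ∈ J
  · exact h μ hμ J hlow
  push Not at hlow
  obtain ⟨a₀, ha₀, b₀, hb₀, hb₀J⟩ := hlow
  have hinj := rhoL_injective hρ hμ
  set ρ := rhoL μ ρ₀ with hρdef
  obtain ⟨c₀, hc₀, hcm⟩ := Finset.exists_min_image Jᶜ ρ ⟨b₀, Finset.mem_compl.2 hb₀J⟩
  have hc₀J : c₀ ∉ J := Finset.mem_compl.1 hc₀
  obtain ⟨i, hi, him⟩ := Finset.exists_min_image (J.filter fun a => ρ c₀ < ρ a) ρ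
    ⟨a₀, Finset.mem_filter.2 ⟨ha₀, (hcm b₀ (Finset.mem_compl.2 hb₀J)).trans_lt hb₀⟩⟩
  obtain ⟨hiJ, hci⟩ := Finset.mem_filter.1 hi
  obtain ⟨x, hx, hxm⟩ := gram_free ρ (ρ c₀)
  have key : ∀ a ∈ J, x < ρ a → ρ i ≤ ρ a := by
    intro a ha hxa
    refine him a (Finset.mem_filter.2 ⟨ha, ?_⟩)
    have h1 : ρ c₀ ≤ ρ a := by
      by_contra h'
      exact absurd (hxm a (not_le.1 h')) (not_lt.2 hxa.le)
    refine lt_of_le_of_ne h1 fun e => hc₀J ?_
    rw [hinj e]
    exact ha
  have hfree : ∀ c, ρ c ≠ x := by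
    intro c e
    have := hxm c (e ▸ hx)
    exact absurd e this.ne
  have hv : ValidL (μ ++ [(i, x)]) ρ₀ := validL_append hμ (hx.trans hci) hfree
  have hlt : (gramBad (rhoL (μ ++ [(i, x)]) ρ₀) J).card < k := by
    rw [← hk, rhoL_append]
    refine Finset.card_lt_card ⟨?_, fun hs => ?_⟩
    · rintro ⟨c, a⟩ hp
      simp only [gramBad, Finset.mem_filter, Finset.mem_univ, true_and] at hp ⊢
      obtain ⟨h1, h2, h3⟩ := hp
      have hci' : c ≠ i := fun e => h1 (e ▸ hiJ)
      refine ⟨h1, h2, ?_⟩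
      rw [Function.update_of_ne hci'] at h3
      by_cases hai : a = i
      · subst hai
        rw [Function.update_self] at h3
        exact h3.trans (hx.trans hci)
      · rwa [Function.update_of_ne hai] at h3
    · have : (c₀, i) ∈ gramBad ρ J := by
        simp only [gramBad, Finset.mem_filter, Finset.mem_univ, true_and]
        exact ⟨hc₀J, hiJ, hci⟩
      have h2 := hs this
      simp only [gramBad, Finset.mem_filter, Finset.mem_univ, true_and] at h2
      have hci' : c₀ ≠ i := fun e => hc₀J (e ▸ hiJ)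
      rw [Function.update_of_ne hci', Function.update_self] at h2
      exact absurd h2.2.2 (not_lt.2 hx.le)
  have hres := ih _ hlt (μ ++ [(i, x)]) hv rfl
  rw [rhoL_append, mvNL_append] at hres
  have hS : ∀ a ∈ J, a ∉ mvS ρ i x := by
    intro a ha hs
    simp only [mvS, Finset.mem_filter, Finset.mem_univ, true_and] at hs
    exact absurd hs.2 (not_lt.2 (key a ha hs.1))
  rw [gram_congr (ρ := ρ) (N := mvNL ζ μ ρ₀ N₀)] at hres
  · exact hres
  · intro a ha b hb hab
    by_cases hai : a = i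
    · subst hai
      rw [Function.update_self, Function.update_of_ne (Ne.symm hab)]
      exact ⟨fun h' => lt_of_le_of_ne (key b hb h') fun e => hab (hinj e),
        fun h' => (hx.trans hci).trans h'⟩
    · by_cases hbi : b = i
      · subst hbi
        rw [Function.update_self, Function.update_of_ne hai]
        refine ⟨fun h' => h'.trans (hx.trans hci), fun h' => ?_⟩
        by_contra h''
        have h3 : x < ρ a := lt_of_le_of_ne (not_lt.1 h'') (hfree a).symm
        exact absurd h' (not_lt.2 (key a ha h3))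
      · rw [Function.update_of_ne hai, Function.update_of_ne hbi]
  · intro a ha b hb
    simp only [mvN, of_apply]
    rw [if_neg (hS a ha), if_neg (hS b hb)]

end Pool.Agent.GR
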