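import Pool.Agent.Lib.MP_aa40d3_nt.GR.DefsG
import Pool.Agent.Lib.MP_aa40d3_nt.GR.DefsGEq

/-! Tuples of reflections and their Gram matrices. -/

open Polynomial Matrix

namespace Pool.Agent.GR

variable {n r : ℕ} {K : Type*} [Field K]

/-- `g a = 1 - e a ⊗ f a` with Gram matrix `N`. -/
def Repr (g : Fin n → (Matrix (Fin r) (Fin r) K)ˣ) (e f : Fin n → Fin r → K)
    (N : Matrix (Fin n) (Fin n) K) : Prop :=
  (∀ a, (g a).val = 1 - vecMulVec (e a) (f a)) ∧ ∀ a b, N a b = f a ⬝ᵥ e b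

/-- `(g i)⁻¹ = 1 + (ζ i)⁻¹ • e i ⊗ f i`; for `c ∈ S` take `e' c = (g i)⁻¹ *ᵥ e c` and
`f' c = f c ᵥ* g i`. -/
theorem Repr.mv {g : Fin n → (Matrix (Fin r) (Fin r) K)ˣ} {e f : Fin n → Fin r → K}
    {N : Matrix (Fin n) (Fin n) K} (h : Repr g e f N) {ζ : Fin n → K} (hd : ∀ a, N a a = 1 - ζ a)
    {i : Fin n} (hζ : ζ i ≠ 0) {S : Finset (Fin n)} (hi : i ∉ S) :
    ∃ e' f', Repr (mvT g i S) e' f' (mvN ζ N i S) := by
  have hfe : f i ⬝ᵥ e i = 1 - ζ i := by rw [← h.2, hd]
  have hinv : ((g i)⁻¹).val = 1 + (ζ i)⁻¹ • vecMulVec (e i) (f i) := by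
    apply Units.inv_eq_of_mul_eq_one_right
    rw [h.1 i, sub_mul, mul_add, mul_add, one_mul, mul_one, one_mul, mul_smul_comm,
      vecMulVec_mul_vecMulVec, hfe, vecMulVec_smul, smul_smul]
    have : (ζ i)⁻¹ * (1 - ζ i) = (ζ i)⁻¹ - 1 := by field_simp
    rw [this, sub_smul, one_smul]
    abel
  refine ⟨fun c => if c ∈ S then ((g i)⁻¹).val *ᵥ e c else e c,
    fun c => if c ∈ S then f c ᵥ* (g i).val else f c, fun a => ?_, fun a b => ?_⟩
  · by_cases ha : a ∈ S
    · simp only [mvT, ha, if_true, Units.val_mul]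
      rw [h.1 a, mul_sub, sub_mul, mul_one, Units.inv_mul, mul_vecMulVec, vecMulVec_mul]
    · simp only [mvT, ha, if_false]
      exact h.1 a
  · by_cases ha : a ∈ S <;> by_cases hb : b ∈ S <;>
      simp only [mvN, of_apply, ha, hb, if_true, if_false]
    · rw [dotProduct_mulVec, vecMul_vecMul, Units.mul_inv, vecMul_one, h.2]
    · rw [h.1 i, vecMul_sub, vecMul_one, sub_dotProduct, vecMul_vecMulVec, smul_dotProduct,
        h.2, h.2, h.2, smul_eq_mul]
    · rw [hinv, add_mulVec, one_mulVec, dotProduct_add, smul_mulVec, vecMulVec_mulVec,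
        dotProduct_smul, h.2, h.2, h.2]
      simp only [op_smul_eq_smul, dotProduct_smul, smul_eq_mul]
      ring
    · exact h.2 a b

theorem mvN_diag (ζ : Fin n → K) (N : Matrix (Fin n) (Fin n) K) (i : Fin n) {S : Finset (Fin n)}
    (hi : i ∉ S) (a : Fin n) : mvN ζ N i S a a = N a a := by
  by_cases ha : a ∈ S <;> simp [mvN, ha]

theorem not_mem_mvS (ρ : Fin n → ℝ) (i : Fin n) (x : ℝ) : i ∉ mvS ρ i x := by
  simp [mvS]

theorem mvNL_diag (ζ : Fin n → K) (μ : List (Fin n × ℝ)) (ρ : Fin n → ℝ)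
    (N : Matrix (Fin n) (Fin n) K) (a : Fin n) : mvNL ζ μ ρ N a a = N a a := by
  induction μ generalizing ρ N with
  | nil => rfl
  | cons m μ ih => rw [mvNL, ih, mvN_diag _ _ _ (not_mem_mvS _ _ _)]

theorem Repr.mvL {g : Fin n → (Matrix (Fin r) (Fin r) K)ˣ} {e f : Fin n → Fin r → K}
    {N : Matrix (Fin n) (Fin n) K} (h : Repr g e f N) {ζ : Fin n → K} (hd : ∀ a, N a a = 1 - ζ a)
    (hζ : ∀ i, ζ i ≠ 0) (μ : List (Fin n × ℝ)) (ρ : Fin n → ℝ) :
    ∃ e' f', Repr (mvTL μ ρ g) e' f' (mvNL ζ μ ρ N) := by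
  induction μ generalizing ρ g e f N with
  | nil => exact ⟨e, f, h⟩
  | cons m μ ih =>
    obtain ⟨e', f', h'⟩ := h.mv hd (hζ m.1) (not_mem_mvS ρ m.1 m.2)
    exact ih h' (fun a => by rw [mvN_diag _ _ _ (not_mem_mvS _ _ _), hd]) _

theorem rhoL_injective {μ : List (Fin n × ℝ)} {ρ : Fin n → ℝ} (hρ : Function.Injective ρ)
    (hμ : ValidL μ ρ) : Function.Injective (rhoL μ ρ) := by
  induction μ generalizing ρ with
  | nil => exact hρ
  | cons m μ ih =>
    refine ih ?_ hμ.2.2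
    intro a b hab
    by_cases ha : a = m.1 <;> by_cases hb : b = m.1
    · rw [ha, hb]
    · rw [ha, Function.update_self, Function.update_of_ne hb] at hab
      exact absurd hab.symm (hμ.2.1 b)
    · rw [hb, Function.update_self, Function.update_of_ne ha] at hab
      exact absurd hab (hμ.2.1 a)
    · rw [Function.update_of_ne ha, Function.update_of_ne hb] at hab
      exact hρ hab

theorem rhoL_append (μ : List (Fin n × ℝ)) (m : Fin n × ℝ) (ρ : Fin n → ℝ) :
    rhoL (μ ++ [m]) ρ = Function.update (rhoL μ ρ) m.1 m.2 := by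
  induction μ generalizing ρ with
  | nil => rfl
  | cons m' μ ih => exact ih _

theorem mvNL_append (ζ : Fin n → K) (μ : List (Fin n × ℝ)) (m : Fin n × ℝ) (ρ : Fin n → ℝ)
    (N : Matrix (Fin n) (Fin n) K) :
    mvNL ζ (μ ++ [m]) ρ N = mvN ζ (mvNL ζ μ ρ N) m.1 (mvS (rhoL μ ρ) m.1 m.2) := by
  induction μ generalizing ρ N with
  | nil => rfl
  | cons m' μ ih => exact ih _ _

theorem validL_append {μ : List (Fin n × ℝ)} {m : Fin n × ℝ} {ρ : Fin n → ℝ} (hμ : ValidL μ ρ)
    (h1 : m.2 < rhoL μ ρ m.1) (h2 : ∀ c, rhoL μ ρ c ≠ m.2) : ValidL (μ ++ [m]) ρ := by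
  induction μ generalizing ρ with
  | nil => exact ⟨h1, h2, trivial⟩
  | cons m' μ ih => exact ⟨hμ.1, hμ.2.1, ih hμ.2.2 h1 h2⟩

theorem mvNL_map {K' : Type*} [Field K'] (σ : K →+* K') (ζ : Fin n → K) (μ : List (Fin n × ℝ))
    (ρ : Fin n → ℝ) (N : Matrix (Fin n) (Fin n) K) :
    (mvNL ζ μ ρ N).map σ = mvNL (fun i => σ (ζ i)) μ ρ (N.map σ) := by
  induction μ generalizing ρ N with
  | nil => rfl
  | cons m μ ih =>
    rw [mvNL, mvNL, ih]
    congr 1
    ext a b
    simp only [mvN, map_apply, of_apply]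
    split_ifs <;> simp

theorem minor_Qm_map {K' : Type*} [Field K'] (σ : K →+* K') (J : Finset (Fin n)) (ρ : Fin n → ℝ)
    (ζ : Fin n → K) (N : Matrix (Fin n) (Fin n) K) :
    (minor J (Qm ρ ζ N)).map σ = minor J (Qm ρ (fun i => σ (ζ i)) (N.map σ)) := by
  unfold minor
  rw [← coe_mapRingHom, RingHom.map_det]
  congr 1
  ext1 a b
  simp only [Qm, RingHom.mapMatrix_apply, map_apply, submatrix_apply, of_apply]
  split_ifs <;> simp

theorem minor_Qm_eval_one (J : Finset (Fin n)) (ρ : Fin n → ℝ) {ζ : Fin n → K}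
    {N : Matrix (Fin n) (Fin n) K} (hd : ∀ a, N a a = 1 - ζ a) :
    (minor J (Qm ρ ζ N)).eval 1 = minor J N := by
  unfold minor
  rw [← coe_evalRingHom, RingHom.map_det]
  congr 1
  ext1 a b
  simp only [Qm, RingHom.mapMatrix_apply, map_apply, submatrix_apply, of_apply]
  split_ifs with h1 h2
  · rw [← h1, hd]
    simp
  · simp
  · simp

private lemma grama_det_tri {ι : Type*} [Fintype ι] [DecidableEq ι] {ρ : ι → ℝ}
    (hρ : Function.Injective ρ) (M : Matrix ι ι K) (h : ∀ a b, ρ b < ρ a → M a b = 0) :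
    M.det = ∏ a, M a a := by
  let : LinearOrder ι := LinearOrder.lift' ρ hρ
  have := det_of_isUpperTriangular (M := M) (fun a b hab => h a b hab)
  convert this

/-- At `X = 0` the matrix is triangular for the order `ρ` (`det_of_upperTriangular` after
`BlockTriangular` for the lifted order, or the Leibniz formula). -/
theorem minor_Qm_eval_zero (J : Finset (Fin n)) {ρ : Fin n → ℝ} (hρ : Function.Injective ρ)
    (ζ : Fin n → K) (N : Matrix (Fin n) (Fin n) K) :
    (minor J (Qm ρ ζ N)).eval 0 = ∏ a ∈ J, -ζ a := by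
  unfold minor
  rw [← coe_evalRingHom, RingHom.map_det, ← det_transpose,
    grama_det_tri (ρ := fun a : J => ρ a) (hρ.comp Subtype.val_injective),
    ← Finset.prod_coe_sort J]
  · refine Finset.prod_congr rfl fun a _ => ?_
    simp [Qm]
  · intro a b hab
    have hne : (b : Fin n) ≠ a := fun h => by
      rw [h] at hab
      exact lt_irrefl _ hab
    simp [Qm, hne, hab]

/-- `Qm = X • U + L` with `U` unitriangular, so `det = det U * charpoly (-U⁻¹ L)`; alternatively
use `Matrix.coeff_det_X_add_C_card` or `leadingCoeff_det_X_one_add_C`. -/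
theorem minor_Qm_monic (J : Finset (Fin n)) {ρ : Fin n → ℝ} (hρ : Function.Injective ρ)
    (ζ : Fin n → K) (N : Matrix (Fin n) (Fin n) K) :
    (minor J (Qm ρ ζ N)).Monic ∧ (minor J (Qm ρ ζ N)).natDegree = J.card := by
  let U : Matrix J J K := Matrix.of fun a b =>
    if (a : Fin n) = b then 1 else if ρ a < ρ b then N a b else 0
  let L : Matrix J J K := Matrix.of fun a b =>
    if (a : Fin n) = b then -ζ a else if ρ a < ρ b then 0 else N a b
  have he : minor J (Qm ρ ζ N) = det ((X : K[X]) • U.map C + L.map C) := by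
    unfold minor
    congr 1
    ext1 a b
    simp only [Qm, U, L, submatrix_apply, of_apply, Matrix.add_apply, Matrix.smul_apply,
      map_apply, smul_eq_mul]
    split_ifs <;> simp [sub_eq_add_neg]
  have hU : U.det = 1 := by
    rw [grama_det_tri (ρ := fun a : J => ρ a) (hρ.comp Subtype.val_injective)]
    · simp [U]
    · intro a b hab
      have hne : (a : Fin n) ≠ b := fun h => by
        rw [h] at hab
        exact lt_irrefl _ hab
      simp only [U, of_apply]
      rw [if_neg hne, if_neg hab.le.not_gt]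
  have h1 := coeff_det_X_add_C_card U L
  have h2 := natDegree_det_X_add_C_le U L
  rw [← he, Fintype.card_coe] at h1 h2
  rw [hU] at h1
  exact ⟨monic_of_natDegree_le_of_coeff_eq_one _ h2 h1,
    natDegree_eq_of_le_of_coeff_ne_zero h2 (by rw [h1]; exact one_ne_zero)⟩

end Pool.Agent.GR
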