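import Pool.Agent.Lib.MP_aa40d3_nt.GR.GramA

/-! Characteristic polynomial of an ordered product of reflections. -/

open Polynomial Matrix

namespace Pool.Agent.GR

variable {n r : ℕ} {K : Type*} [Field K]

private theorem gramchar_fact {g : Fin n → (Matrix (Fin r) (Fin r) K)ˣ} {e f : Fin n → Fin r → K}
    {N : Matrix (Fin n) (Fin n) K} (h : Repr g e f N) {ρ : Fin n → ℝ} (l : List (Fin n))
    (hl : l.Pairwise fun a b => ρ a < ρ b) :
    ∃ f' : Fin n → Fin r → K,
      (l.map g).prod.val = 1 - ∑ a ∈ l.toFinset, vecMulVec (e a) (f' a) ∧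
      ∀ a ∈ l.toFinset, f' a + ∑ b ∈ l.toFinset, (if ρ a < ρ b then N a b else 0) • f' b = f a := by
  classical
  induction l with
  | nil => exact ⟨f, by simp, by simp⟩
  | cons a l ih =>
    rw [List.pairwise_cons] at hl
    obtain ⟨f', h1, h2⟩ := ih hl.2
    have ha : a ∉ l.toFinset := by
      intro ha
      exact lt_irrefl _ (hl.1 a (List.mem_toFinset.mp ha))
    set v : Fin r → K := f a ᵥ* (l.map g).prod.val with hv
    have hupd : ∀ b ∈ l.toFinset, Function.update f' a v b = f' b := by
      intro b hb
      have hba : b ≠ a := fun hba => ha (hba ▸ hb)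
      exact Function.update_of_ne hba _ _
    refine ⟨Function.update f' a v, ?_, ?_⟩
    · rw [List.map_cons, List.prod_cons, Units.val_mul, List.toFinset_cons, Finset.sum_insert ha,
        Function.update_self, h.1 a, Matrix.sub_mul, Matrix.one_mul, vecMulVec_mul, ← hv, h1]
      have : ∑ b ∈ l.toFinset, vecMulVec (e b) (Function.update f' a v b) =
          ∑ b ∈ l.toFinset, vecMulVec (e b) (f' b) :=
        Finset.sum_congr rfl fun b hb => by rw [hupd b hb]
      rw [this]
      abel
    · intro c hc
      rw [List.toFinset_cons] at hc ⊢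
      rw [Finset.sum_insert ha]
      have hs : ∑ b ∈ l.toFinset, (if ρ c < ρ b then N c b else 0) • Function.update f' a v b =
          ∑ b ∈ l.toFinset, (if ρ c < ρ b then N c b else 0) • f' b :=
        Finset.sum_congr rfl fun b hb => by rw [hupd b hb]
      rw [hs]
      rcases Finset.mem_insert.mp hc with rfl | hc
      · rw [Function.update_self, if_neg (lt_irrefl _), zero_smul, zero_add, hv, h1,
          Matrix.vecMul_sub, Matrix.vecMul_one, Matrix.vecMul_sum]
        have : ∑ b ∈ l.toFinset, (if ρ c < ρ b then N c b else 0) • f' b =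
            ∑ b ∈ l.toFinset, f c ᵥ* vecMulVec (e b) (f' b) := by
          refine Finset.sum_congr rfl fun b hb => ?_
          rw [if_pos (hl.1 b (List.mem_toFinset.mp hb)), vecMul_vecMulVec, h.2]
        rw [this]
        abel
      · have hlt : ρ a < ρ c := hl.1 c (List.mem_toFinset.mp hc)
        rw [if_neg (not_lt.mpr hlt.le), zero_smul, zero_add, hupd c hc]
        exact h2 c hc

private theorem gramchar_det_unitri {ι R : Type*} [Fintype ι] [DecidableEq ι] [CommRing R]
    (ρ : ι → ℝ) (M : Matrix ι ι R) :
    (1 + Matrix.of fun a b => if ρ a < ρ b then M a b else 0).det = 1 := by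
  classical
  have hT : BlockTriangular (1 + Matrix.of fun a b => if ρ a < ρ b then M a b else 0) ρ := by
    intro i j hij
    have hne : i ≠ j := fun hh => lt_irrefl _ (hh ▸ hij)
    simp [Matrix.one_apply_ne hne, not_lt.mpr hij.le]
  rw [hT.det]
  refine Finset.prod_eq_one fun x _ => ?_
  have : (1 + Matrix.of fun a b => if ρ a < ρ b then M a b else 0).toSquareBlock ρ x = 1 := by
    ext i j
    have hi := i.2
    have hj := j.2
    have hij : ¬ ρ i < ρ j := by rw [hi, hj]; exact lt_irrefl _
    rw [toSquareBlock_def]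
    simp [hij, Matrix.one_apply, Subtype.ext_iff]
  rw [this, det_one]

private theorem gramchar_wa {ι κ R : Type*} [Fintype ι] [DecidableEq ι] [Fintype κ]
    [DecidableEq κ] [CommRing R] (E : Matrix ι κ R) (F : Matrix κ ι R) (x : R) :
    x ^ Fintype.card κ * (x • (1 : Matrix ι ι R) + E * F).det =
      x ^ Fintype.card ι * (x • (1 : Matrix κ κ R) + F * E).det := by
  have h := congrArg (Polynomial.eval x) (charpoly_mul_comm' (-E) F)
  simp only [eval_mul, eval_pow, eval_X, eval_charpoly, Matrix.neg_mul, Matrix.mul_neg,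
    sub_neg_eq_add] at h
  simpa only [scalar_apply, smul_one_eq_diagonal] using h

/-- By induction on `l` there are `f' a` (`f' a = f a ᵥ* (product of the later factors)`) with
`prod = 1 - ∑_{a ∈ l} e a ⊗ f' a` and `f' a + ∑_{b ∈ l, ρ a < ρ b} N a b • f' b = f a`. With
`E`, `F'`, `F` the rectangular matrices indexed by `J = l.toFinset` and `U = 1 + N⁺`:
`prod = 1 - E * F'`, `U * F' = F`, `det U = 1`, `F * E = N`. Use the Weinstein-Aronszajn identity
(`det_one_add_mul_comm`, over the fraction field of `K[X]` or after evaluation at `x ≠ 1`, or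
`Matrix.charpoly_mul_comm'`) and `(X - 1) • U + N = Qm` on `J`. -/
theorem charpoly_prod {g : Fin n → (Matrix (Fin r) (Fin r) K)ˣ} {e f : Fin n → Fin r → K}
    {N : Matrix (Fin n) (Fin n) K} (h : Repr g e f N) {ζ : Fin n → K} (hd : ∀ a, N a a = 1 - ζ a)
    {ρ : Fin n → ℝ} {l : List (Fin n)} (hl : l.Pairwise fun a b => ρ a < ρ b) :
    (X - 1) ^ l.toFinset.card * ((l.map g).prod.val).charpoly =
      (X - 1) ^ r * minor l.toFinset (Qm ρ ζ N) := by
  classical
  obtain ⟨f', h1, h2⟩ := gramchar_fact h l hl
  set J := l.toFinset with hJ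
  let E : Matrix (Fin r) J K[X] := Matrix.of fun i a => C (e a i)
  let F' : Matrix J (Fin r) K[X] := Matrix.of fun a i => C (f' a i)
  let F : Matrix J (Fin r) K[X] := Matrix.of fun a i => C (f a i)
  let U : Matrix J J K[X] :=
    1 + Matrix.of fun a b : J => if ρ a < ρ b then C (N a b) else 0
  have hU : U.det = 1 :=
    gramchar_det_unitri (fun a : J => ρ a) (Matrix.of fun a b : J => C (N a b))
  have hUF : U * F' = F := by
    ext1 a i
    have h3 := congrFun (h2 a a.2) i
    simp only [Pi.add_apply, Finset.sum_apply, Pi.smul_apply, smul_eq_mul] at h3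
    simp only [U, Matrix.add_mul, Matrix.one_mul]
    simp only [F', F, Matrix.add_apply, Matrix.mul_apply, Matrix.of_apply]
    rw [← h3, map_add, map_sum, ← Finset.sum_coe_sort J]
    congr 1
    refine Finset.sum_congr rfl fun b _ => ?_
    split_ifs <;> simp
  have hFE : F * E = Matrix.of fun a b : J => C (N a b) := by
    ext1 a b
    simp only [F, E, Matrix.mul_apply, Matrix.of_apply, h.2, dotProduct, map_sum, map_mul]
  have hch : ((l.map g).prod.val).charpoly =
      ((X - 1 : K[X]) • (1 : Matrix (Fin r) (Fin r) K[X]) + E * F').det := by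
    rw [Matrix.charpoly, h1]
    congr 1
    ext1 i j
    simp only [charmatrix_apply, Matrix.sub_apply, Matrix.add_apply, Matrix.smul_apply,
      Matrix.mul_apply, Matrix.of_apply, E, F', Matrix.sum_apply, vecMulVec_apply, map_sub,
      map_sum, map_mul, smul_eq_mul]
    rw [← Finset.sum_coe_sort J]
    by_cases hij : i = j
    · subst hij
      simp only [diagonal_apply_eq, one_apply_eq, map_one]
      ring
    · simp only [diagonal_apply_ne _ hij, one_apply_ne hij, map_zero]
      ring
  have hQ : minor J (Qm ρ ζ N) = ((X - 1 : K[X]) • (1 : Matrix J J K[X]) + F' * E).det := by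
    have hdet : ((X - 1 : K[X]) • (1 : Matrix J J K[X]) + F' * E).det =
        (U * ((X - 1 : K[X]) • (1 : Matrix J J K[X]) + F' * E)).det := by
      rw [det_mul, hU, one_mul]
    rw [hdet, Matrix.mul_add, ← Matrix.mul_assoc, hUF, hFE, Matrix.mul_smul, Matrix.mul_one, minor]
    congr 1
    ext1 a b
    simp only [submatrix_apply, Qm, Matrix.of_apply, Matrix.add_apply, Matrix.smul_apply, U,
      smul_eq_mul]
    by_cases hab : a = b
    · subst hab
      simp only [if_true, one_apply_eq, lt_irrefl, if_false, hd, map_sub, map_one]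
      ring
    · have hab' : (a : Fin n) ≠ b := fun hh => hab (Subtype.ext hh)
      rw [if_neg hab', one_apply_ne hab]
      split_ifs <;> ring
  have hw := gramchar_wa E F' (X - 1 : K[X])
  rw [Fintype.card_coe, Fintype.card_fin] at hw
  rw [hch, hQ, hw]

end Pool.Agent.GR
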