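import Pool.Agent.Lib.MP_aa40d3_nt.GR.GrowthA

/-! Moderate growth of the solutions. -/

open Polynomial Matrix Set Filter Topology
open scoped Matrix.Norms.Operator

namespace Pool.Agent.GR

variable {n r : ℕ} [NeZero r]

omit [NeZero r] in
theorem growth_lower (f : Fin n → ℝ) (hf : ∀ j, 0 < f j) :
    ∃ η : ℝ, 0 < η ∧ η ≤ 1 ∧ ∀ j, η ≤ f j := by
  have hs : 0 ≤ ∑ j, (f j)⁻¹ := Finset.sum_nonneg fun j _ => (inv_pos.mpr (hf j)).le
  refine ⟨(∑ j, (f j)⁻¹ + 1)⁻¹, by positivity, inv_le_one_of_one_le₀ (by linarith), fun j => ?_⟩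
  have h : (f j)⁻¹ ≤ ∑ j, (f j)⁻¹ :=
    Finset.single_le_sum (f := fun j => (f j)⁻¹) (fun j _ => (inv_pos.mpr (hf j)).le)
      (Finset.mem_univ j)
  exact inv_le_of_inv_le₀ (hf j) (by linarith)

omit [NeZero r] in
/-- Points of a vertical segment. -/
theorem growth_seg {x y : ℂ} {v : ℝ} (hy : y ∈ segment ℝ (cpt (x.re, v)) x) :
    ∃ s : ℝ, 0 ≤ s ∧ s ≤ 1 ∧ y.re = x.re ∧ y.im = x.im + s * (v - x.im) := by
  obtain ⟨a, b, ha, hb, hab, rfl⟩ := hy
  have hb' : b = 1 - a := by linarith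
  subst hb'
  refine ⟨a, ha, by linarith, ?_, ?_⟩
  · simp [cpt]
    ring
  · simp [cpt]
    ring

omit [NeZero r] in
theorem growth_norm_vert {y z : ℂ} (h : y.re = z.re) : ‖y - z‖ = |y.im - z.im| := by
  have h1 : y - z = ((y.im - z.im : ℝ) : ℂ) * Complex.I := by
    apply Complex.ext <;> simp [h]
  rw [h1, norm_mul, Complex.norm_I, mul_one, Complex.norm_real, Real.norm_eq_abs]

omit [NeZero r] in
theorem growth_away {x y p : ℂ} (h : y.re = x.re) (h2 : 0 ≤ (x.im - p.im) * (y.im - x.im)) :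
    ‖x - p‖ ≤ ‖y - p‖ ∧ ‖y - x‖ ≤ ‖y - p‖ := by
  have e1 : ‖x - p‖ ^ 2 = (x.re - p.re) ^ 2 + (x.im - p.im) ^ 2 := by
    rw [Complex.sq_norm, Complex.normSq_apply]
    simp [sq]
  have e2 : ‖y - p‖ ^ 2 = (x.re - p.re) ^ 2 + (y.im - p.im) ^ 2 := by
    rw [Complex.sq_norm, Complex.normSq_apply]
    simp [sq, h]
  have e3 : ‖y - x‖ ^ 2 = (y.im - x.im) ^ 2 := by
    rw [growth_norm_vert h, sq_abs]
  constructor
  · refine (sq_le_sq₀ (norm_nonneg _) (norm_nonneg _)).mp ?_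
    rw [e1, e2]
    nlinarith [sq_nonneg (y.im - x.im)]
  · refine (sq_le_sq₀ (norm_nonneg _) (norm_nonneg _)).mp ?_
    rw [e3, e2]
    nlinarith [sq_nonneg (x.re - p.re), sq_nonneg (x.im - p.im)]

/-- Vertical transport towards a singular point. -/
theorem growth_near {t : Fin n → ℂ} (ht : Function.Injective fun i => (t i).re)
    (A : Fin n → Mat r) (v : ℝ) (i : Fin n) (hv : v ≠ (t i).im) :
    ∃ (c : ℝ) (k : ℕ), 0 ≤ c ∧ ∀ᶠ x in 𝓝[≠] (t i), ‖x - t i‖ ≤ 1 ∧
      (0 ≤ (x.im - (t i).im) * (v - (t i).im) →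
        ‖T t A (cpt (x.re, v)) x‖ ≤ c / ‖x - t i‖ ^ k) := by
  classical
  obtain ⟨η, hη, hη1, hηj⟩ := growth_lower
    (fun j => if j = i then |v - (t i).im| else |(t i).re - (t j).re|) (by
      intro j
      split_ifs with h
      · exact abs_pos.mpr (sub_ne_zero.mpr hv)
      · exact abs_pos.mpr (sub_ne_zero.mpr fun h' => h (ht h').symm))
  have hηi : η ≤ |v - (t i).im| := by simpa using hηj i
  set L : ℝ := |v - (t i).im| + 1 with hL
  have hL0 : 1 ≤ L := by have := abs_nonneg (v - (t i).im); linarith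
  have hκ : 0 < η / (4 * L) := by positivity
  have hκL : η / (4 * L) * L = η / 4 := by field_simp
  have hκ1 : η / (4 * L) ≤ 1 / 2 := by
    rw [div_le_iff₀ (by positivity)]
    linarith
  obtain ⟨k, hk⟩ := norm_T_le_end A hκ
  refine ⟨2 ^ k, k, by positivity, ?_⟩
  have h1 : ∀ᶠ x in 𝓝 (t i), ‖x - t i‖ < η / 2 := by
    have := Metric.ball_mem_nhds (t i) (half_pos hη)
    filter_upwards [this] with x hx
    rwa [Metric.mem_ball, dist_eq_norm] at hx
  filter_upwards [mem_nhdsWithin_of_mem_nhds h1, self_mem_nhdsWithin] with x hx hx0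
  have hpos : 0 < ‖x - t i‖ := norm_pos_iff.mpr (sub_ne_zero.mpr hx0)
  have him : |x.im - (t i).im| ≤ ‖x - t i‖ := by
    simpa using Complex.abs_im_le_norm (x - t i)
  have hre : |x.re - (t i).re| ≤ ‖x - t i‖ := by
    simpa using Complex.abs_re_le_norm (x - t i)
  refine ⟨by linarith, fun hs => ?_⟩
  have hvx : |v - x.im| ≤ L := by
    have := abs_sub_le v (t i).im x.im
    rw [abs_sub_comm (t i).im x.im] at this
    linarith
  have hsign : 0 ≤ (x.im - (t i).im) * (v - x.im) := by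
    have h2 : (x.im - (t i).im) * (v - (t i).im) = |x.im - (t i).im| * |v - (t i).im| := by
      rw [← abs_mul, abs_of_nonneg hs]
    have h3 : (x.im - (t i).im) ^ 2 = |x.im - (t i).im| * |x.im - (t i).im| := by
      rw [← sq, sq_abs]
    have h4 : |x.im - (t i).im| * |x.im - (t i).im| ≤ |x.im - (t i).im| * |v - (t i).im| :=
      mul_le_mul_of_nonneg_left (by linarith) (abs_nonneg _)
    nlinarith
  have hb := hk t (cpt (x.re, v)) x (‖x - t i‖ / 2) (half_pos hpos) (by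
    intro y hy j
    obtain ⟨s, hs0, hs1, hyre, hyim⟩ := growth_seg hy
    by_cases hj : j = i
    · subst hj
      obtain ⟨a1, a2⟩ := growth_away (p := t j) hyre (by
        rw [hyim, add_sub_cancel_left, mul_left_comm]
        exact mul_nonneg hs0 hsign)
      have := mul_le_mul_of_nonneg_right hκ1 (norm_nonneg (y - x))
      linarith
    · have a1 : η ≤ |(t i).re - (t j).re| := by simpa [hj] using hηj j
      have a2 : |y.re - (t j).re| ≤ ‖y - t j‖ := by
        simpa using Complex.abs_re_le_norm (y - t j)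
      have a3 := abs_sub_le (t i).re x.re (t j).re
      rw [abs_sub_comm (t i).re x.re] at a3
      have a4 : ‖y - x‖ ≤ L := by
        rw [growth_norm_vert hyre, hyim, add_sub_cancel_left, abs_mul, abs_of_nonneg hs0]
        nlinarith [abs_nonneg (v - x.im)]
      have a5 := mul_le_mul_of_nonneg_left a4 hκ.le
      rw [hyre] at a2
      linarith)
  refine hb.trans ?_
  rw [← div_pow]
  have a6 : ‖x - cpt (x.re, v)‖ ≤ L := by
    rw [growth_norm_vert (by simp [cpt]), abs_sub_comm]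
    simpa [cpt] using hvx
  have a7 := mul_le_mul_of_nonneg_left a6 hκ.le
  refine pow_le_pow_left₀ (by positivity) ?_ k
  have a8 : η / (4 * L) * ‖x - cpt (x.re, v)‖ / (‖x - t i‖ / 2) =
      2 * (η / (4 * L) * ‖x - cpt (x.re, v)‖) / ‖x - t i‖ := by field_simp
  rw [a8, one_add_div hpos.ne']
  exact div_le_div_of_nonneg_right (by linarith) hpos.le

/-- Vertical transport far from the singular points. -/
theorem growth_far {t : Fin n → ℂ} (A : Fin n → Mat r) {H : ℝ} (hH : 0 ≤ H)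
    (hb : InBox (pp t) H) {v : ℝ} (hv : |v| = H) :
    ∃ (c : ℝ) (k : ℕ), 0 ≤ c ∧ ∀ x : ℂ, 4 * (H + 1) ≤ ‖x‖ → (H < |x.im| → 0 ≤ x.im * v) →
      ‖T t A (cpt (x.re, v)) x‖ ≤ c * ‖x‖ ^ k := by
  obtain ⟨η, hη, hη1, hηj⟩ := growth_lower (fun j => H - |(t j).im|)
    (fun j => sub_pos.mpr (hb j).2)
  obtain ⟨k, hk⟩ := norm_T_le_start A one_pos
  refine ⟨(1 + 2 / η) ^ k, k, by positivity, fun x hx hs => ?_⟩
  have him := Complex.abs_im_le_norm x
  have hb' := hk t (cpt (x.re, v)) x η hη (by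
    intro y hy j
    obtain ⟨s, hs0, hs1, hyre, hyim⟩ := growth_seg hy
    have a0 : ‖y - cpt (x.re, v)‖ = |y.im - v| := growth_norm_vert (by simp [cpt, hyre])
    have a1 : |(t j).re| < H := (hb j).1
    have a2 : η ≤ H - |(t j).im| := hηj j
    rw [a0, one_mul]
    by_cases hc : H < |x.im|
    · have a3 : |y.im - (t j).im| ≤ ‖y - t j‖ := by
        simpa using Complex.abs_im_le_norm (y - t j)
      have a4 := hs hc
      refine le_trans ?_ a3
      have a5 := le_abs_self (t j).im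
      have a6 := neg_abs_le (t j).im
      have hH0 : 0 < H := by have := abs_nonneg (t j).re; linarith
      rcases (abs_eq hH).mp hv with h | h
      · subst h
        have a7 : 0 ≤ x.im := by
          by_contra h'
          push Not at h'
          nlinarith
        rw [abs_of_nonneg a7] at hc
        have a8 : v ≤ y.im := by rw [hyim]; nlinarith
        rw [abs_of_nonneg (by linarith), abs_of_nonneg (by linarith)]
        linarith
      · subst h
        have a7 : x.im ≤ 0 := by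
          by_contra h'
          push Not at h'
          nlinarith
        rw [abs_of_nonpos a7] at hc
        have a8 : y.im ≤ -H := by rw [hyim]; nlinarith
        rw [abs_of_nonpos (by linarith), abs_of_nonpos (by linarith)]
        linarith
    · push Not at hc
      have a3 : |y.re - (t j).re| ≤ ‖y - t j‖ := by
        simpa using Complex.abs_re_le_norm (y - t j)
      have a4 := Complex.norm_le_abs_re_add_abs_im x
      have a5 : |x.re| ≤ |x.re - (t j).re| + |(t j).re| := by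
        simpa using abs_add_le (x.re - (t j).re) (t j).re
      have a6 : |y.im - v| ≤ 2 * H := by
        have e : y.im - v = (1 - s) * (x.im - v) := by rw [hyim]; ring
        have a7 : |x.im - v| ≤ |x.im| + |v| := abs_sub _ _
        rw [e, abs_mul, abs_of_nonneg (by linarith)]
        nlinarith [abs_nonneg (x.im - v)]
      rw [hyre] at a3
      linarith)
  refine hb'.trans ?_
  rw [← mul_pow]
  refine pow_le_pow_left₀ (by positivity) ?_ k
  have a0 : ‖x - cpt (x.re, v)‖ = |x.im - v| := growth_norm_vert (by simp [cpt])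
  have a7 : |x.im - v| ≤ |x.im| + |v| := abs_sub _ _
  rw [a0, one_mul, add_mul, one_mul, div_mul_eq_mul_div]
  have a8 : |x.im - v| / η ≤ 2 * ‖x‖ / η := div_le_div_of_nonneg_right (by linarith) hη.le
  linarith

omit [NeZero r] in
theorem growth_Yb (t : Fin n → ℂ) (A : Fin n → Mat r) (H : ℝ) (x : ℂ) :
    ‖Yb t A H x‖ ≤ ‖T t A (cpt (x.re, -H)) x‖ * ‖T t A (cpt (-H, -H)) (cpt (x.re, -H))‖ :=
  norm_mul_le (T t A (cpt (x.re, -H)) x) (T t A (cpt (-H, -H)) (cpt (x.re, -H)))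

omit [NeZero r] in
theorem growth_Yt (t : Fin n → ℂ) (A : Fin n → Mat r) (H : ℝ) (x : ℂ) :
    ‖Yt t A H x‖ ≤ ‖T t A (cpt (x.re, H)) x‖ * ‖T t A (cpt (-H, H)) (cpt (x.re, H))‖ *
      ‖T t A (cpt (-H, -H)) (cpt (-H, H))‖ :=
  (norm_mul_le (T t A (cpt (x.re, H)) x * T t A (cpt (-H, H)) (cpt (x.re, H)))
    (T t A (cpt (-H, -H)) (cpt (-H, H)))).trans
    (mul_le_mul_of_nonneg_right (norm_mul_le _ _) (norm_nonneg _))

/-- Both transports near a singular point. -/
theorem growth_near2 {t : Fin n → ℂ} (ht : Function.Injective fun i => (t i).re)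
    (A : Fin n → Mat r) {H : ℝ} (hb : InBox (pp t) H) {v : ℝ} (hv : v = H ∨ v = -H) (i : Fin n) :
    ∃ (c : ℝ) (k : ℕ), ∀ᶠ x in 𝓝[≠] (t i), 0 ≤ (x.im - (t i).im) * (v - (t i).im) →
      ‖T t A (cpt (x.re, v)) x‖ * ‖T t A (cpt (-H, v)) (cpt (x.re, v))‖ ≤ c / ‖x - t i‖ ^ k := by
  have hi : |(t i).im| < H := (hb i).2
  have hv' : v ≠ (t i).im := by
    have := abs_lt.mp hi
    rcases hv with h | h <;> rw [h] <;> intro h' <;> linarith [this.1, this.2]
  obtain ⟨c, k, hc, h⟩ := growth_near ht A v i hv'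
  obtain ⟨c', k', h'⟩ := norm_T_horizontal A hb hv
  refine ⟨c * (|c'| * (2 + ‖t i‖) ^ k'), k, ?_⟩
  filter_upwards [h] with x hx hs
  have a1 : |x.re| ≤ 1 + ‖t i‖ := by
    have := Complex.abs_re_le_norm x
    have a2 : ‖x‖ ≤ ‖x - t i‖ + ‖t i‖ := by simpa using norm_add_le (x - t i) (t i)
    linarith [hx.1]
  have a2 : ‖T t A (cpt (-H, v)) (cpt (x.re, v))‖ ≤ |c'| * (2 + ‖t i‖) ^ k' :=
    (h' x.re).trans (mul_le_mul (le_abs_self _)
      (pow_le_pow_left₀ (by positivity) (by linarith) _) (by positivity) (abs_nonneg _))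
  rw [mul_div_right_comm]
  exact mul_le_mul (hx.2 hs) a2 (norm_nonneg _) (by positivity)

/-- Both transports far away. -/
theorem growth_far2 {t : Fin n → ℂ} (A : Fin n → Mat r) {H : ℝ} (hH : 0 ≤ H)
    (hb : InBox (pp t) H) {v : ℝ} (hv : v = H ∨ v = -H) :
    ∃ (c : ℝ) (k : ℕ), ∀ x : ℂ, 4 * (H + 1) ≤ ‖x‖ → 0 ≤ x.im * v →
      ‖T t A (cpt (x.re, v)) x‖ * ‖T t A (cpt (-H, v)) (cpt (x.re, v))‖ ≤ c * ‖x‖ ^ k := by
  have hv' : |v| = H := by
    rcases hv with h | h <;> rw [h]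
    · exact abs_of_nonneg hH
    · rw [abs_neg, abs_of_nonneg hH]
  obtain ⟨c, k, hc, h⟩ := growth_far A hH hb hv'
  obtain ⟨c', k', h'⟩ := norm_T_horizontal A hb hv
  refine ⟨c * (|c'| * 2 ^ k'), k + k', fun x hx hs => ?_⟩
  have a1 := Complex.abs_re_le_norm x
  have a2 : ‖T t A (cpt (-H, v)) (cpt (x.re, v))‖ ≤ |c'| * (2 * ‖x‖) ^ k' :=
    (h' x.re).trans (mul_le_mul (le_abs_self _)
      (pow_le_pow_left₀ (by positivity) (by linarith) _) (by positivity) (abs_nonneg _))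
  refine (mul_le_mul (h x hx fun _ => hs) a2 (norm_nonneg _) (by positivity)).trans_eq ?_
  rw [mul_pow, pow_add]
  ring

/-- Near `t i`, for `x.im ≤ (t i).im`, a point `y` of the vertical segment below `x` satisfies
`‖y - t i‖ ≥ max ‖x - t i‖ ‖y - x‖`, and it stays at distance `≥ η` from the other `t j` (their real
parts differ); so `norm_T_le_end` applies with `d = ‖x - t i‖ / 2` and a small `κ`. -/
theorem norm_Yb_near {t : Fin n → ℂ} (ht : Function.Injective fun i => (t i).re)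
    (A : Fin n → Mat r) {H : ℝ} (hb : InBox (pp t) H) (i : Fin n) :
    ∃ (c : ℝ) (k : ℕ), ∀ᶠ x in 𝓝[≠] (t i), x.im ≤ (t i).im → ‖Yb t A H x‖ ≤ c / ‖x - t i‖ ^ k := by
  obtain ⟨c, k, h⟩ := growth_near2 ht A hb (Or.inr rfl) i
  refine ⟨c, k, ?_⟩
  filter_upwards [h] with x hx hs
  have hi := abs_lt.mp (show |(t i).im| < H from (hb i).2)
  exact (growth_Yb t A H x).trans
    (hx (mul_nonneg_of_nonpos_of_nonpos (by linarith) (by linarith [hi.1])))

theorem norm_Yt_near {t : Fin n → ℂ} (ht : Function.Injective fun i => (t i).re)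
    (A : Fin n → Mat r) {H : ℝ} (hb : InBox (pp t) H) (i : Fin n) :
    ∃ (c : ℝ) (k : ℕ), ∀ᶠ x in 𝓝[≠] (t i), (t i).im ≤ x.im → ‖Yt t A H x‖ ≤ c / ‖x - t i‖ ^ k := by
  obtain ⟨c, k, h⟩ := growth_near2 ht A hb (Or.inl rfl) i
  refine ⟨c * ‖T t A (cpt (-H, -H)) (cpt (-H, H))‖, k, ?_⟩
  filter_upwards [h] with x hx hs
  have hi := abs_lt.mp (show |(t i).im| < H from (hb i).2)
  rw [mul_div_right_comm]
  exact (growth_Yt t A H x).trans (mul_le_mul_of_nonneg_right
    (hx (mul_nonneg (by linarith) (by linarith [hi.2]))) (norm_nonneg _))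

/-- For `‖x‖ ≥ 4 (H + 1)` and `x.im ≤ 0`: if `x.im ≤ -H` the vertical segment goes away from the
box (`norm_T_le_start`); otherwise `|x.re| ≥ 2 H + 1`, the segment has length at most `H` and
stays at distance `≥ 1` from the singular points. -/
theorem norm_Yb_far {t : Fin n → ℂ} (A : Fin n → Mat r) {H : ℝ} (hH : 0 ≤ H)
    (hb : InBox (pp t) H) : ∃ (c R : ℝ) (k : ℕ), ∀ x : ℂ, R ≤ ‖x‖ → x.im ≤ 0 →
      ‖Yb t A H x‖ ≤ c * ‖x‖ ^ k := by
  obtain ⟨c, k, h⟩ := growth_far2 A hH hb (Or.inr rfl)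
  refine ⟨c, 4 * (H + 1), k, fun x hx hs => ?_⟩
  exact (growth_Yb t A H x).trans
    (h x hx (mul_nonneg_of_nonpos_of_nonpos hs (by linarith)))

theorem norm_Yt_far {t : Fin n → ℂ} (A : Fin n → Mat r) {H : ℝ} (hH : 0 ≤ H)
    (hb : InBox (pp t) H) : ∃ (c R : ℝ) (k : ℕ), ∀ x : ℂ, R ≤ ‖x‖ → 0 ≤ x.im →
      ‖Yt t A H x‖ ≤ c * ‖x‖ ^ k := by
  obtain ⟨c, k, h⟩ := growth_far2 A hH hb (Or.inl rfl)
  refine ⟨c * ‖T t A (cpt (-H, -H)) (cpt (-H, H))‖, 4 * (H + 1), k, fun x hx hs => ?_⟩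
  rw [mul_right_comm]
  exact (growth_Yt t A H x).trans (mul_le_mul_of_nonneg_right
    (h x hx (mul_nonneg hs hH)) (norm_nonneg _))

end Pool.Agent.GR
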