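import Pool.Agent.Lib.MP_aa40d3_nt.GR.Ext

/-! Norm bounds for transports along segments. -/

open Polynomial Matrix Set Filter Topology
open scoped Matrix.Norms.Operator

namespace Pool.Agent.GR

variable {n r : ℕ} [NeZero r]

theorem growtha_lin_mem (a b : ℂ) (s : unitInterval) : lin a b s ∈ segment ℝ a b := by
  rw [segment_eq_image']
  exact ⟨s, s.2, by simp [lin]⟩

omit [NeZero r] in
theorem growtha_coef_le (A : Fin n → Mat r) (t : Fin n → ℂ) (a b : ℂ) {D : ℝ} (hD : 0 < D)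
    (h : ∀ i, t i ∉ segment ℝ a b) (s : unitInterval) (hs : ∀ i, D ≤ ‖lin a b s - t i‖) :
    ‖coef t A a b s‖ ≤ ‖b - a‖ * (∑ i, ‖A i‖) / D := by
  rw [coef_apply A h s, norm_smul, mul_div_assoc]
  refine mul_le_mul_of_nonneg_left ?_ (norm_nonneg _)
  unfold sys
  rw [Finset.sum_div]
  refine (norm_sum_le _ _).trans (Finset.sum_le_sum fun i _ => ?_)
  rw [norm_smul, norm_inv, div_eq_inv_mul]
  exact mul_le_mul_of_nonneg_right (inv_anti₀ hD (hs i)) (norm_nonneg _)

theorem growtha_one : ‖(1 : Mat r)‖ = 1 := norm_one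

theorem growtha_frac {L S κ d u : ℝ} {m : ℕ} (hL : 0 < L) (hκ : 0 < κ) (hd : 0 < d) (hu : 0 ≤ u)
    (hm : S / κ ≤ m) : L * S / (d + κ * (u * L)) ≤ m / (d / (κ * L) + u) := by
  have h1 : 0 < d + κ * (u * L) := by positivity
  have h2 : d / (κ * L) + u = (d + κ * (u * L)) / (κ * L) := by field_simp
  rw [h2, div_div_eq_mul_div]
  refine div_le_div_of_nonneg_right ?_ h1.le
  rw [div_le_iff₀ hκ] at hm
  nlinarith

/-- If all points `y` of the segment satisfy `d + κ ‖y - b‖ ≤ ‖y - t i‖`, the coefficient at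
parameter `s` has norm at most `L * ∑ ‖A i‖ / (d + κ L (1 - s))` with `L = ‖b - a‖`; apply
`norm_Tr_le_of_pole` with `c = 1 + d / (κ L)` (the case `a = b` is `T_self`). -/
theorem norm_T_le_end (A : Fin n → Mat r) {κ : ℝ} (hκ : 0 < κ) : ∃ k : ℕ, ∀ (t : Fin n → ℂ)
    (a b : ℂ) (d : ℝ), 0 < d → (∀ y ∈ segment ℝ a b, ∀ i, d + κ * ‖y - b‖ ≤ ‖y - t i‖) →
      ‖T t A a b‖ ≤ (1 + κ * ‖b - a‖ / d) ^ k := by
  obtain ⟨m, hm⟩ := exists_nat_ge ((∑ i, ‖A i‖) / κ)
  refine ⟨m + 1, fun t a b d hd h => ?_⟩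
  by_cases hab : a = b
  · subst hab
    rw [T_self, growtha_one]
    simp
  have hL : 0 < ‖b - a‖ := norm_pos_iff.2 (sub_ne_zero.2 (Ne.symm hab))
  have hseg : ∀ i, t i ∉ segment ℝ a b := by
    intro i hi
    have := h _ hi i
    rw [sub_self, norm_zero] at this
    have h2 : 0 ≤ κ * ‖t i - b‖ := by positivity
    linarith
  have hc : 0 < d / (κ * ‖b - a‖) := by positivity
  have key := norm_Tr_le_of_pole (coef t A a b) m (c := 1 + d / (κ * ‖b - a‖)) (by linarith)
    (fun s => by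
      have hu : 0 ≤ 1 - (s : ℝ) := sub_nonneg.2 s.2.2
      have e : ‖lin a b s - b‖ = (1 - s) * ‖b - a‖ := by
        have : lin a b s - b = -(((1 - s : ℝ) : ℂ) * (b - a)) := by
          simp only [lin, ContinuousMap.coe_mk]; push_cast; ring
        rw [this, norm_neg, norm_mul, Complex.norm_real, Real.norm_of_nonneg hu]
      have h1 := growtha_coef_le A t a b (D := d + κ * ((1 - s) * ‖b - a‖)) (by positivity) hseg s
        (fun i => by rw [← e]; exact h _ (growtha_lin_mem a b s) i)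
      refine h1.trans ((growtha_frac hL hκ hd hu hm).trans_eq ?_)
      congr 1; ring)
  refine key.trans_eq ?_
  congr 1
  rw [add_sub_cancel_left]
  field_simp
  ring

/-- The same with the distance measured from the starting point (`norm_Tr_le_of_decay`). -/
theorem norm_T_le_start (A : Fin n → Mat r) {κ : ℝ} (hκ : 0 < κ) : ∃ k : ℕ, ∀ (t : Fin n → ℂ)
    (a b : ℂ) (d : ℝ), 0 < d → (∀ y ∈ segment ℝ a b, ∀ i, d + κ * ‖y - a‖ ≤ ‖y - t i‖) →
      ‖T t A a b‖ ≤ (1 + κ * ‖b - a‖ / d) ^ k := by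
  obtain ⟨m, hm⟩ := exists_nat_ge ((∑ i, ‖A i‖) / κ)
  refine ⟨m + 1, fun t a b d hd h => ?_⟩
  by_cases hab : a = b
  · subst hab
    rw [T_self, growtha_one]
    simp
  have hL : 0 < ‖b - a‖ := norm_pos_iff.2 (sub_ne_zero.2 (Ne.symm hab))
  have hseg : ∀ i, t i ∉ segment ℝ a b := by
    intro i hi
    have := h _ hi i
    rw [sub_self, norm_zero] at this
    have h2 : 0 ≤ κ * ‖t i - a‖ := by positivity
    linarith
  have hc : 0 < d / (κ * ‖b - a‖) := by positivity
  have key := norm_Tr_le_of_decay (coef t A a b) m (c := d / (κ * ‖b - a‖)) hc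
    (fun s => by
      have hu : 0 ≤ (s : ℝ) := s.2.1
      have e : ‖lin a b s - a‖ = s * ‖b - a‖ := by
        have : lin a b s - a = ((s : ℝ) : ℂ) * (b - a) := by
          simp only [lin, ContinuousMap.coe_mk]; ring
        rw [this, norm_mul, Complex.norm_real, Real.norm_of_nonneg hu]
      have h1 := growtha_coef_le A t a b (D := d + κ * (s * ‖b - a‖)) (by positivity) hseg s
        (fun i => by rw [← e]; exact h _ (growtha_lin_mem a b s) i)
      exact h1.trans (growtha_frac hL hκ hd hu hm))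
  refine key.trans_eq ?_
  congr 1
  field_simp

/-- Transports along the horizontal lines at height `± H` grow polynomially: there is `η > 0` with
`η ≤ dist (y, t i)` on these lines, and `‖y - a‖ ≤ ‖y - t i‖ + ‖t i - a‖`, so
`η / 2 + κ ‖y - a‖ ≤ ‖y - t i‖` for a small `κ`. -/
theorem norm_T_horizontal {t : Fin n → ℂ} (A : Fin n → Mat r) {H : ℝ} (hb : InBox (pp t) H)
    {y : ℝ} (hy : y = H ∨ y = -H) :
    ∃ (c : ℝ) (k : ℕ), ∀ x : ℝ, ‖T t A (cpt (-H, y)) (cpt (x, y))‖ ≤ c * (1 + |x|) ^ k := by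
  classical
  have hpos : ∀ i, 0 < H - |(t i).im| := fun i => sub_pos.2 (hb i).2
  obtain ⟨η, hη, hηi⟩ : ∃ η : ℝ, 0 < η ∧ ∀ i, η ≤ H - |(t i).im| := by
    refine ⟨(∑ i, (H - |(t i).im|)⁻¹ + 1)⁻¹, ?_, fun i => ?_⟩
    · have : 0 ≤ ∑ i, (H - |(t i).im|)⁻¹ := Finset.sum_nonneg fun i _ => (inv_pos.2 (hpos i)).le
      positivity
    · have h1 : (H - |(t i).im|)⁻¹ ≤ ∑ i, (H - |(t i).im|)⁻¹ :=
        Finset.single_le_sum (f := fun i => (H - |(t i).im|)⁻¹)
          (fun i _ => (inv_pos.2 (hpos i)).le) (Finset.mem_univ i)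
      exact inv_le_of_inv_le₀ (hpos i) (by linarith)
  set a := cpt (-H, y) with ha
  set M := ∑ i, ‖t i - a‖ with hM
  have hM0 : 0 ≤ M := Finset.sum_nonneg fun i _ => norm_nonneg _
  have hMi : ∀ i, ‖t i - a‖ ≤ M := fun i =>
    Finset.single_le_sum (f := fun i => ‖t i - a‖) (fun i _ => norm_nonneg _) (Finset.mem_univ i)
  set κ := η / (2 * (η + M)) with hκ
  have hκ0 : 0 < κ := by positivity
  have hκ1 : κ * (η + M) = η / 2 := by rw [hκ]; field_simp
  obtain ⟨k, hk⟩ := norm_T_le_start A hκ0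
  refine ⟨(1 + κ * (1 + |H|) / (η / 2)) ^ k, k, fun x => ?_⟩
  have hk' := hk t a (cpt (x, y)) (η / 2) (by positivity) (fun z hz i => by
    have him : z.im = y := by
      obtain ⟨u, v, -, -, huv, rfl⟩ := hz
      simp only [ha, cpt, Complex.add_im, Complex.smul_im, smul_eq_mul]
      rw [← add_mul, huv, one_mul]
    have h1 : η ≤ ‖z - t i‖ := by
      refine (hηi i).trans (le_trans ?_ (Complex.abs_im_le_norm _))
      rw [Complex.sub_im, him]
      have h3 := le_abs_self (t i).im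
      have h4 := neg_abs_le (t i).im
      rcases hy with hy | hy
      · exact le_trans (by linarith) (le_abs_self _)
      · exact le_trans (by linarith) (neg_le_abs _)
    have h2 : ‖z - a‖ ≤ ‖z - t i‖ + M :=
      (norm_sub_le_norm_sub_add_norm_sub z (t i) a).trans (by linarith [hMi i])
    have h3 : κ * η ≤ η / 2 := by nlinarith
    have h4 : κ ≤ 1 / 2 := by
      by_contra hc
      have hc' := not_le.1 hc
      nlinarith
    nlinarith)
  refine hk'.trans ?_
  rw [← mul_pow]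
  have hn : ‖cpt (x, y) - a‖ ≤ |x| + |H| := by
    have : cpt (x, y) - a = ((x + H : ℝ) : ℂ) := by
      apply Complex.ext <;> simp [ha, cpt]
    rw [this, Complex.norm_real, Real.norm_eq_abs]
    exact abs_add_le _ _
  refine pow_le_pow_left₀ (by positivity) ?_ k
  have hx := abs_nonneg x
  have hH := abs_nonneg H
  have h5 : κ * ‖cpt (x, y) - a‖ / (η / 2) ≤ κ * (1 + |H|) / (η / 2) * (1 + |x|) := by
    rw [div_mul_eq_mul_div (κ * (1 + |H|))]
    refine div_le_div_of_nonneg_right ?_ (half_pos hη).le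
    rw [mul_assoc]
    refine mul_le_mul_of_nonneg_left ?_ hκ0.le
    nlinarith [mul_nonneg hx hH]
  have h6 : 0 ≤ κ * (1 + |H|) / (η / 2) := by positivity
  nlinarith

end Pool.Agent.GR
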