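import Pool.Agent.Lib.MP_aa40d3_nt.GR.Gram
import Pool.Agent.Lib.MP_aa40d3_nt.GR.Walk

/-! Two Gram matrices with the same minors along the whole orbit have the same cycles. -/

open Polynomial Matrix

namespace Pool.Agent.GR

variable {n : ℕ} {K : Type*} [Field K]

theorem herm_minor {R : Type*} [CommRing R] {k : ℕ} (v : Fin k → Fin n)
    (hv : Function.Injective v) {J : Finset (Fin n)} (hJ : ∀ x, x ∈ J ↔ ∃ i, v i = x)
    (M : Matrix (Fin n) (Fin n) R) : minor J M = (M.submatrix v v).det := by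
  let e : Fin k ≃ J := Equiv.ofBijective (fun i => ⟨v i, (hJ _).2 ⟨i, rfl⟩⟩)
    ⟨fun i j h => hv (congrArg Subtype.val h), fun x => by
      obtain ⟨i, hi⟩ := (hJ x.1).1 x.2
      exact ⟨i, Subtype.ext hi⟩⟩
  rw [minor, ← det_submatrix_equiv_self e]
  rfl

/-- `minor {a, b} = (X - ζ a) (X - ζ b) - X * C (N a b * N b a)`. -/
theorem minor_pair {ρ : Fin n → ℝ} (hρ : Function.Injective ρ) (ζ : Fin n → K)
    (N : Matrix (Fin n) (Fin n) K) {a b : Fin n} (hab : a ≠ b) :
    minor {a, b} (Qm ρ ζ N) = (X - C (ζ a)) * (X - C (ζ b)) - X * C (N a b * N b a) := by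
  have hv : Function.Injective ![a, b] := by
    intro i j h
    fin_cases i <;> fin_cases j <;> simp_all [eq_comm]
  rw [herm_minor ![a, b] hv (fun x => by simp [Fin.exists_fin_two, eq_comm]), det_fin_two]
  have hne : ρ a ≠ ρ b := fun h => hab (hρ h)
  rcases lt_or_gt_of_ne hne with h | h
  · simp [Qm, hab, hab.symm, h, h.not_gt]
    ring
  · simp [Qm, hab, hab.symm, h, h.not_gt]
    ring

/-- The minor of size three for `ρ a < ρ b < ρ c` (reindex by `Fin 3`, `det_fin_three`). -/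
theorem minor_triple {ρ : Fin n → ℝ} (ζ : Fin n → K) (N : Matrix (Fin n) (Fin n) K)
    {a b c : Fin n} (hab : ρ a < ρ b) (hbc : ρ b < ρ c) :
    minor {a, b, c} (Qm ρ ζ N) = (X - C (ζ a)) * (X - C (ζ b)) * (X - C (ζ c))
      - (X - C (ζ a)) * X * C (N b c * N c b) - (X - C (ζ b)) * X * C (N a c * N c a)
      - (X - C (ζ c)) * X * C (N a b * N b a) + X ^ 2 * C (N a b * N b c * N c a)
      + X * C (N a c * N c b * N b a) := by
  have hac : ρ a < ρ c := hab.trans hbc
  have h1 : a ≠ b := fun h => hab.ne (congrArg ρ h)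
  have h2 : b ≠ c := fun h => hbc.ne (congrArg ρ h)
  have h3 : a ≠ c := fun h => hac.ne (congrArg ρ h)
  have hv : Function.Injective ![a, b, c] := by
    intro i j h
    fin_cases i <;> fin_cases j <;> simp_all [eq_comm]
  rw [herm_minor ![a, b, c] hv (fun x => by simp [Fin.exists_fin_succ, eq_comm]), det_fin_three]
  simp [Qm, h1, h2, h3, h1.symm, h2.symm, h3.symm, hab, hbc, hac, hab.not_gt, hbc.not_gt,
    hac.not_gt]
  ring

theorem herm_chord {N N' : Matrix (Fin n) (Fin n) K} (hs : ∀ a b, N a b = 0 ↔ N' b a = 0)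
    {u v : Fin n} {l₁ l₂ : List (Fin n)} (h₁ : l₁ ≠ []) (h₂ : l₂ ≠ [])
    (ih : ∀ a l, l.length < (l₁ ++ v :: l₂).length → wk N a l a = wk N' a l a)
    (huv : N u v ≠ 0) : wk N u (l₁ ++ v :: l₂) u = wk N' u (l₁ ++ v :: l₂) u := by
  have p₁ := List.length_pos_of_ne_nil h₁
  have p₂ := List.length_pos_of_ne_nil h₂
  have e₁ := ih u (l₁ ++ [v]) (by simp; omega)
  have e₂ := ih u (v :: l₂) (by simp; omega)
  have e₃ := ih u [v] (by simp; omega)
  rw [wk_append, wk_append] at e₁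
  simp only [wk] at e₁ e₂ e₃
  rw [wk_append, wk_append]
  have hB' : N' v u ≠ 0 := fun h => huv ((hs u v).2 h)
  by_cases hB : N v u = 0
  · have hA' : N' u v = 0 := (hs v u).1 hB
    rw [hB, mul_zero] at e₁
    rw [hA', zero_mul] at e₂
    rw [(mul_eq_zero.1 e₂).resolve_left huv, (mul_eq_zero.1 e₁.symm).resolve_right hB', mul_zero,
      zero_mul]
  · apply mul_right_cancel₀ (mul_ne_zero huv hB)
    linear_combination (N u v * wk N v l₂ u) * e₁ + (wk N' u l₁ v * N' v u) * e₂ -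
      (wk N' u l₁ v * wk N' v l₂ u) * e₃

theorem herm_chord' {N N' : Matrix (Fin n) (Fin n) K} (hs : ∀ a b, N a b = 0 ↔ N' b a = 0)
    {u v : Fin n} {l₁ l₂ : List (Fin n)} (h₁ : l₁ ≠ []) (h₂ : l₂ ≠ [])
    (ih : ∀ a l, l.length < (l₁ ++ v :: l₂).length → wk N a l a = wk N' a l a)
    (huv : ¬ (N u v = 0 ∧ N' u v = 0)) :
    wk N u (l₁ ++ v :: l₂) u = wk N' u (l₁ ++ v :: l₂) u := by
  by_cases h : N u v = 0
  · exact (herm_chord (fun a b => (hs b a).symm) h₁ h₂ (fun a l hl => (ih a l hl).symm)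
      fun h' => huv ⟨h, h'⟩).symm
  · exact herm_chord hs h₁ h₂ ih h

theorem herm_split {N N' : Matrix (Fin n) (Fin n) K} {u : Fin n} {l₁ l₂ : List (Fin n)}
    (ih : ∀ a l, l.length < (l₁ ++ u :: l₂).length → wk N a l a = wk N' a l a) :
    wk N u (l₁ ++ u :: l₂) u = wk N' u (l₁ ++ u :: l₂) u := by
  rw [wk_append, wk_append, ih u l₁ (by simp), ih u l₂ (by simp; omega)]

theorem herm_entry (ζ : Fin n → K) {N : Matrix (Fin n) (Fin n) K} {i a b : Fin n}
    (S : Finset (Fin n)) (h : N a i * N i b = 0) : mvN ζ N i S a b = N a b := by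
  simp only [mvN, of_apply, mul_assoc, h]
  split_ifs <;> simp

theorem herm_path (ζ : Fin n → K) {N : Matrix (Fin n) (Fin n) K} {i : Fin n}
    (S : Finset (Fin n)) (d : Fin n) (m : List (Fin n)) : ∀ c : Fin n,
    (∀ e ∈ m, N i e = 0 ∧ N e i = 0) → (m = [] → N c i * N i d = 0) →
      wk (mvN ζ N i S) c m d = wk N c m d := by
  induction m with
  | nil => exact fun c _ h => herm_entry ζ S (h rfl)
  | cons e m ih =>
    intro c h _
    have he := h e List.mem_cons_self
    simp only [wk]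
    rw [herm_entry ζ S (by rw [he.1, mul_zero]),
      ih e (fun x hx => h x (List.mem_cons_of_mem _ hx)) fun _ => by rw [he.2, zero_mul]]

theorem herm_rot (ρ : Fin n → ℝ) (a : Fin n) (l : List (Fin n)) :
    ∃ (i : Fin n) (l' : List (Fin n)), l'.length = l.length ∧ (∀ e ∈ l', ρ e ≤ ρ i) ∧
      ∀ N : Matrix (Fin n) (Fin n) K, wk N a l a = wk N i l' i := by
  obtain ⟨i, hi, hmax⟩ := (a :: l).toFinset.exists_max_image ρ ⟨a, by simp⟩
  rcases List.mem_cons.1 (List.mem_toFinset.1 hi) with rfl | hi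
  · exact ⟨i, l, rfl, fun e he => hmax e (by simp [he]), fun _ => rfl⟩
  · obtain ⟨l₁, l₂, rfl⟩ := List.append_of_mem hi
    refine ⟨i, l₂ ++ a :: l₁, by simp; omega, fun e he => hmax e ?_, fun N => wk_rotate N _ _ _ _⟩
    simp only [List.mem_append, List.mem_cons] at he
    simp only [List.mem_toFinset, List.mem_append, List.mem_cons]
    tauto

theorem herm_free (ρ : Fin n → ℝ) (M : ℝ) : ∃ x, x < M ∧ ∀ e, ρ e < M → ρ e < x := by
  have h : ∀ᶠ x in nhdsWithin M (Set.Iio M), ∀ e, ρ e < M → ρ e < x := by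
    refine Filter.eventually_all.2 fun e => ?_
    by_cases he : ρ e < M
    · filter_upwards [Ioo_mem_nhdsLT he] with x hx _ using hx.1
    · exact Filter.Eventually.of_forall fun _ h => absurd h he
  obtain ⟨x, h1, h2⟩ := (h.and self_mem_nhdsWithin).exists
  exact ⟨x, h2, h1⟩

theorem herm_three {ρ : Fin n → ℝ} {ζ : Fin n → K} {N N' : Matrix (Fin n) (Fin n) K}
    (hm : ∀ J, minor J (Qm ρ ζ N) = minor J (Qm ρ ζ N'))
    (h2 : ∀ a b, N a b * N b a = N' a b * N' b a) {a b c : Fin n} (hab : ρ a < ρ b)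
    (hbc : ρ b < ρ c) : N a b * N b c * N c a = N' a b * N' b c * N' c a ∧
      N a c * N c b * N b a = N' a c * N' c b * N' b a := by
  have h := hm {a, b, c}
  rw [minor_triple ζ N hab hbc, minor_triple ζ N' hab hbc, h2 b c, h2 a c, h2 a b] at h
  have h' : (X ^ 2 * C (N a b * N b c * N c a) + X * C (N a c * N c b * N b a) : K[X]) =
      X ^ 2 * C (N' a b * N' b c * N' c a) + X * C (N' a c * N' c b * N' b a) := by
    linear_combination h
  have c2 := congrArg (fun p : K[X] => p.coeff 2) h'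
  have c1 := congrArg (fun p : K[X] => p.coeff 1) h'
  simp only [X_pow_mul_C, X_mul_C, coeff_add, coeff_C_mul, coeff_X_pow, coeff_X] at c1 c2
  exact ⟨by simpa using c2, by simpa using c1⟩

/-- Strong induction on the length of `l`, for all `μ` at once. Repeated vertices: split the walk.
Lengths `0, 1, 2`: diagonal entries, `minor_pair`, `minor_triple` (compare coefficients; rotate).
Length `≥ 3`, distinct vertices.
Chord case: there are vertices `u ≠ v` of the cycle, not neighbours on it, with `N u v ≠ 0` or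
`N' u v ≠ 0`; by symmetry assume `N u v ≠ 0`. Rotate so that the cycle is `P₁ * P₂` with `P₁` from
`u` to `v` and `P₂` back. The cycles `P₁ * N v u`, `N u v * P₂`, `N u v * N v u` are shorter. If
`N v u ≠ 0` divide. Otherwise `N' u v = 0`, `N' v u ≠ 0` by `hs`, so `P₂ = 0` and `P₁' = 0`.
No chord: let `i` be the vertex with the largest `ρ`, `d` its predecessor and `c` its successor.
Move `i` to a free position just below `max (ρ c) (ρ d)` (`validL_append`, `mvNL_append`); exactly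
one of `c`, `d` lies in `mvS`. The cycle without `i` for the new matrices has the same entries,
except that the entry `(d, c)` is `κ * N d i * N i c` with `κ = (ζ i)⁻¹` or `-1`. -/
theorem cycles_eq {ζ : Fin n → K} (hζ : ∀ i, ζ i ≠ 0) {ρ₀ : Fin n → ℝ}
    (hρ : Function.Injective ρ₀) {N₀ N₀' : Matrix (Fin n) (Fin n) K}
    (hd : ∀ a, N₀ a a = N₀' a a)
    (hs : ∀ μ, ValidL μ ρ₀ → ∀ a b, mvNL ζ μ ρ₀ N₀ a b = 0 ↔ mvNL ζ μ ρ₀ N₀' b a = 0)
    (hm : ∀ μ, ValidL μ ρ₀ → ∀ J, minor J (Qm (rhoL μ ρ₀) ζ (mvNL ζ μ ρ₀ N₀)) =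
      minor J (Qm (rhoL μ ρ₀) ζ (mvNL ζ μ ρ₀ N₀'))) (a : Fin n) (l : List (Fin n)) :
    wk N₀ a l a = wk N₀' a l a := by
  suffices H : ∀ k : ℕ, ∀ μ, ValidL μ ρ₀ → ∀ (a : Fin n) (l : List (Fin n)), l.length = k →
      wk (mvNL ζ μ ρ₀ N₀) a l a = wk (mvNL ζ μ ρ₀ N₀') a l a from H _ [] trivial a l rfl
  intro k
  induction k using Nat.strong_induction_on with
  | _ k IH =>
  intro μ hμ a l hl
  obtain ⟨i, l', hl', hmax, hrot⟩ := herm_rot (K := K) (rhoL μ ρ₀) a l
  rw [hrot, hrot]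
  have hk : l'.length = k := hl'.trans hl
  have hinj := rhoL_injective hρ hμ
  have hsμ := hs μ hμ
  have hmμ := hm μ hμ
  have ih : ∀ (a : Fin n) (l : List (Fin n)), l.length < l'.length →
      wk (mvNL ζ μ ρ₀ N₀) a l a = wk (mvNL ζ μ ρ₀ N₀') a l a :=
    fun a l h => IH _ (hk ▸ h) μ hμ a l rfl
  have ihm : ∀ x, x < rhoL μ ρ₀ i → (∀ c, rhoL μ ρ₀ c ≠ x) → ∀ (a : Fin n) (l : List (Fin n)),
      l.length < l'.length →
      wk (mvN ζ (mvNL ζ μ ρ₀ N₀) i (mvS (rhoL μ ρ₀) i x)) a l a =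
        wk (mvN ζ (mvNL ζ μ ρ₀ N₀') i (mvS (rhoL μ ρ₀) i x)) a l a := by
    intro x h1 h2 a l h
    have := IH _ (hk ▸ h) (μ ++ [(i, x)]) (validL_append hμ h1 h2) a l rfl
    rwa [mvNL_append, mvNL_append] at this
  have hdμ : ∀ a, mvNL ζ μ ρ₀ N₀ a a = mvNL ζ μ ρ₀ N₀' a a := fun a => by
    rw [mvNL_diag, mvNL_diag, hd]
  clear IH hrot hk hl' hl
  generalize mvNL ζ μ ρ₀ N₀ = N at *
  generalize mvNL ζ μ ρ₀ N₀' = N' at *
  generalize rhoL μ ρ₀ = ρ at *
  have h2 : ∀ a b, N a b * N b a = N' a b * N' b a := by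
    intro a b
    by_cases hab : a = b
    · rw [hab, hdμ]
    · have h := hmμ {a, b}
      rw [minor_pair hinj ζ N hab, minor_pair hinj ζ N' hab, sub_right_inj] at h
      exact C_injective (mul_left_cancel₀ X_ne_zero h)
  rcases l' with _ | ⟨c, l'⟩
  · exact hdμ i
  rcases List.eq_nil_or_concat l' with rfl | ⟨m, d, rfl⟩
  · exact h2 i c
  rw [List.concat_eq_append] at *
  by_cases hci : c = i
  · subst hci
    exact herm_split (l₁ := []) ih
  by_cases hdi : d = i
  · subst hdi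
    exact herm_split (l₁ := c :: m) ih
  have hr : ∀ M : Matrix (Fin n) (Fin n) K,
      wk M i (c :: (m ++ [d])) i = wk M c (m ++ d :: [i]) c := fun M => by
    have := wk_rotate M i [] c (m ++ [d])
    simpa using this
  have ih' : ∀ (a : Fin n) (l : List (Fin n)), l.length < (m ++ d :: [i]).length →
      wk N a l a = wk N' a l a := fun a l h => ih a l (by simp at h ⊢; omega)
  by_cases hcd : d = c
  · subst hcd
    rw [hr, hr]
    exact herm_split ih'
  have hc : ρ c < ρ i := lt_of_le_of_ne (hmax c (by simp)) fun h => hci (hinj h)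
  have hd' : ρ d < ρ i := lt_of_le_of_ne (hmax d (by simp)) fun h => hdi (hinj h)
  have hne : ρ c ≠ ρ d := fun h => hcd (hinj h).symm
  by_cases hm0 : m = []
  · subst hm0
    simp only [List.nil_append, wk]
    rcases lt_or_gt_of_ne hne with h | h
    · linear_combination (herm_three hmμ h2 h hd').1
    · linear_combination (herm_three hmμ h2 h hc).2
  by_cases hch : N c d = 0 ∧ N' c d = 0
  swap
  · rw [hr, hr]
    exact herm_chord' hsμ hm0 (by simp) ih' hch
  by_cases hall : ∀ e ∈ m, N i e = 0 ∧ N' i e = 0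
  swap
  · push Not at hall
    obtain ⟨e, he, hne'⟩ := hall
    obtain ⟨m₁, m₂, rfl⟩ := List.append_of_mem he
    have hl : c :: (m₁ ++ e :: m₂ ++ [d]) = (c :: m₁) ++ e :: (m₂ ++ [d]) := by simp
    rw [hl] at ih ⊢
    exact herm_chord' hsμ (by simp) (by simp) ih fun h => hne' h.1 h.2
  obtain ⟨x, hx, hx'⟩ := herm_free ρ (max (ρ c) (ρ d))
  have hxi : x < ρ i := hx.trans (max_lt hc hd')
  have hfree : ∀ e, ρ e ≠ x := fun e he => by
    by_cases h : ρ e < max (ρ c) (ρ d)
    · exact (hx' e h).ne he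
    · exact h (he ▸ hx)
  have key := ihm x hxi hfree c (m ++ [d]) (by simp)
  rw [wk_append, wk_append,
    herm_path ζ _ d m c (fun e he => ⟨(hall e he).1, (hsμ e i).2 (hall e he).2⟩)
      fun h => absurd h hm0,
    herm_path ζ _ d m c (fun e he => ⟨(hall e he).2, (hsμ i e).1 (hall e he).1⟩)
      fun h => absurd h hm0] at key
  have hdc : N d c = 0 := (hsμ d c).2 hch.2
  have hdc' : N' d c = 0 := (hsμ c d).1 hch.1
  simp only [wk, wk_append] at key ⊢
  rcases lt_or_gt_of_ne hne with h | h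
  · have h1 : d ∈ mvS ρ i x := by
      rw [max_eq_right h.le] at hx
      simp [mvS, hx, hd']
    have h3 : c ∉ mvS ρ i x := by
      have := hx' c (lt_max_of_lt_right h)
      simp [mvS, this.not_gt]
    simp only [mvN, of_apply, h1, h3, if_true, if_false, hdc, hdc'] at key
    linear_combination -key
  · have h1 : c ∈ mvS ρ i x := by
      rw [max_eq_left h.le] at hx
      simp [mvS, hx, hc]
    have h3 : d ∉ mvS ρ i x := by
      have := hx' d (lt_max_of_lt_left h)
      simp [mvS, this.not_gt]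
    simp only [mvN, of_apply, h1, h3, if_true, if_false, hdc, hdc'] at key
    apply mul_left_cancel₀ (inv_ne_zero (hζ i))
    linear_combination key

end Pool.Agent.GR
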