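import Pool.Agent.Lib.MP_aa40d3_nt.GR.HoloG

/-! Euler systems and the local monodromy. -/

open Set Complex

namespace Pool.Agent.GR

variable {𝔸 : Type} [NormedRing 𝔸] [NormedAlgebra ℂ 𝔸] [CompleteSpace 𝔸] {n : ℕ}

/-- Transport around the square with centre `c` and first corner `c + ρ (-1 - I)`. -/
noncomputable def sqLoop (t : Fin n → ℂ) (A : Fin n → 𝔸) (c ρ : ℂ) : 𝔸 :=
  loop t A (c + ρ * (-1 - I)) (c + ρ * (1 - I)) (c + ρ * (1 + I)) (c + ρ * (-1 + I))

omit [CompleteSpace 𝔸] in
theorem holo_sys_one (B : 𝔸) (c x : ℂ) : sys ![c] ![B] x = (x - c)⁻¹ • B := by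
  simp [sys]

/-- Points of a quarter side. -/
theorem holo_seg {a b c x : ℂ} (hb : b - c = I * (a - c))
    (hx : x ∈ segment ℝ a b) :
    ∃ s : ℝ, 0 ≤ s ∧ s ≤ 1 ∧ x - c = (((1 - s : ℝ) : ℂ) + (s : ℂ) * I) * (a - c) := by
  obtain ⟨p, q, hp, hq, hpq, rfl⟩ := hx
  refine ⟨q, hq, by linarith, ?_⟩
  have h1 : (p : ℂ) = 1 - q := by
    have : p = 1 - q := by linarith
    rw [this]; push_cast; ring
  have h2 : b = c + I * (a - c) := by rw [← hb]; ring
  simp only [Complex.real_smul]
  rw [h1, h2]; push_cast; ring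

theorem holo_slit {s : ℝ} (h1 : s ≤ 1) :
    (((1 - s : ℝ) : ℂ) + (s : ℂ) * I) ∈ slitPlane := by
  rw [mem_slitPlane_iff]
  rcases eq_or_lt_of_le h1 with h | h
  · right; simp [h]
  · left; simp; linarith

theorem holo_ne {a b c x : ℂ} (ha : a ≠ c) (hb : b - c = I * (a - c))
    (hx : x ∈ segment ℝ a b) : x ≠ c := by
  obtain ⟨s, h0, h1, hs⟩ := holo_seg hb hx
  intro h
  rw [h, sub_self] at hs
  rcases mul_eq_zero.1 hs.symm with h2 | h2
  · exact slitPlane_ne_zero (holo_slit h1) h2
  · exact ha (sub_eq_zero.1 h2)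

/-- One side: let `b - c = I * (a - c)`, `a ≠ c`. On the segment `(x - c) / (a - c)` lies in the
segment from `1` to `I`, inside the slit plane; `Y x = exp (log ((x - c) / (a - c)) • B)` solves
the system (`hasDerivAt_exp_smul_const'`), so `T = exp ((π / 2 * I) • B)` by `T_unique`. -/
theorem T_euler (B : 𝔸) {a b c : ℂ} (ha : a ≠ c) (hb : b - c = I * (a - c)) :
    T ![c] ![B] a b = NormedSpace.exp ((Real.pi / 2 * I : ℂ) • B) := by
  have hac : a - c ≠ 0 := sub_ne_zero.2 ha
  have h := T_unique (t := ![c]) (A := ![B]) (a := a) (b := b)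
    (by
      intro i hi
      have : (![c] : Fin 1 → ℂ) i = c := by fin_cases i; rfl
      rw [this] at hi
      exact holo_ne ha hb hi rfl)
    (fun x => NormedSpace.exp (Complex.log ((x - c) / (a - c)) • B))
    (by
      intro x hx
      have hxc : x - c ≠ 0 := sub_ne_zero.2 (holo_ne ha hb hx)
      obtain ⟨s, h0, h1, hs⟩ := holo_seg hb hx
      have hsl : (x - c) / (a - c) ∈ slitPlane := by
        rw [hs, mul_div_assoc, div_self hac, mul_one]; exact holo_slit h1
      have hd : HasDerivAt (fun x => (x - c) / (a - c)) (1 / (a - c)) x :=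
        ((hasDerivAt_id x).sub_const c).div_const (a - c)
      have hl : HasDerivAt (fun x => Complex.log ((x - c) / (a - c))) (x - c)⁻¹ x := by
        have := hd.clog hsl
        convert this using 1
        field_simp
      have he := hasDerivAt_exp_smul_const' (𝕂 := ℂ) B (Complex.log ((x - c) / (a - c)))
      have := he.scomp x hl
      rw [holo_sys_one, smul_mul_assoc]
      exact this)
  simp only [div_self hac, Complex.log_one, zero_smul, NormedSpace.exp_zero, mul_one] at h
  rw [← h, hb, mul_div_assoc, div_self hac, mul_one, Complex.log_I]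

theorem sqLoop_euler (B : 𝔸) (c : ℂ) {ρ : ℂ} (hρ : ρ ≠ 0) :
    sqLoop ![c] ![B] c ρ = NormedSpace.exp ((2 * Real.pi * I : ℂ) • B) := by
  unfold sqLoop loop
  have hne : ∀ w : ℂ, w ≠ 0 → c + ρ * w ≠ c := by
    intro w hw h
    have : ρ * w = 0 := by linear_combination h
    rcases mul_eq_zero.1 this with h | h
    exacts [hρ h, hw h]
  have n1 : (-1 - I : ℂ) ≠ 0 := by intro h; have := congrArg Complex.re h; simp at this
  have n2 : (1 - I : ℂ) ≠ 0 := by intro h; have := congrArg Complex.re h; simp at this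
  have n3 : (1 + I : ℂ) ≠ 0 := by intro h; have := congrArg Complex.re h; simp at this
  have n4 : (-1 + I : ℂ) ≠ 0 := by intro h; have := congrArg Complex.re h; simp at this
  have hI : I * I = -1 := Complex.I_mul_I
  rw [T_euler B (hne _ n1) (by linear_combination ρ * hI),
    T_euler B (hne _ n2) (by linear_combination ρ * hI),
    T_euler B (hne _ n3) (by linear_combination (-ρ) * hI),
    T_euler B (hne _ n4) (by linear_combination (-ρ) * hI)]
  have hc : ∀ u v : ℂ, Commute (u • B) (v • B) := fun u v =>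
    ((Commute.refl B).smul_left u).smul_right v
  have hadd : ∀ u v : ℂ, NormedSpace.exp (u • B) * NormedSpace.exp (v • B) =
      NormedSpace.exp ((u + v) • B) := by
    intro u v
    rw [add_smul, NormedSpace.exp_add_of_commute_of_mem_ball (𝕂 := ℂ) (hc u v)
      ((NormedSpace.expSeries_radius_eq_top ℂ 𝔸).symm ▸ edist_lt_top _ _)
      ((NormedSpace.expSeries_radius_eq_top ℂ 𝔸).symm ▸ edist_lt_top _ _)]
  rw [hadd, hadd, hadd]
  congr 2
  ring

/-- Compare the exponential series, `Π ^ (k + 1) = Π`. -/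
theorem exp_smul_idem {P : 𝔸} (hP : P * P = P) (z : ℂ) :
    NormedSpace.exp (z • P) = 1 + (Complex.exp z - 1) • P := by
  have hpow : ∀ k : ℕ, P ^ (k + 1) = P := by
    intro k
    induction k with
    | zero => simp
    | succ k ih => rw [pow_succ, ih, hP]
  have h1 : HasSum (fun k : ℕ => ((k.factorial : ℂ)⁻¹) • (z • P) ^ k) (NormedSpace.exp (z • P)) :=
    NormedSpace.exp_series_hasSum_exp' (𝕂 := ℂ) (z • P)
  have h2 : HasSum (fun k : ℕ => ((k.factorial : ℂ)⁻¹) • z ^ k) (Complex.exp z) := by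
    rw [Complex.exp_eq_exp_ℂ]
    exact NormedSpace.exp_series_hasSum_exp' (𝕂 := ℂ) z
  have h3 := (hasSum_nat_add_iff' 1).2 h1
  have h4 := ((hasSum_nat_add_iff' 1).2 h2).smul_const P
  have h5 : (fun k : ℕ => (((k + 1).factorial : ℂ)⁻¹) • (z • P) ^ (k + 1)) =
      fun k : ℕ => ((((k + 1).factorial : ℂ)⁻¹) • z ^ (k + 1)) • P := by
    funext k
    rw [smul_pow, hpow, smul_assoc]
  rw [h5] at h3
  have h6 := h3.unique h4
  simp only [Finset.range_one, Finset.sum_singleton, Nat.factorial_zero, Nat.cast_one, inv_one,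
    pow_zero, one_smul] at h6
  rw [← h6]; abel

theorem holo_norm_seg {a b c x : ℂ} {r : ℝ} (ha : a ∈ Metric.ball c r) (hb : b ∈ Metric.ball c r)
    (hx : x ∈ segment ℝ a b) : x ∈ Metric.ball c r :=
  (convex_ball c r).segment_subset ha hb hx

/-- `T_gauge` on the four sides (from the Euler system at `t c` to the given one), with `Z` a unit
near `t c` by continuity. -/
theorem sqLoop_local {t : Fin n → ℂ} (ht : Function.Injective t) (A : Fin n → 𝔸) (c : Fin n)
    {P : 𝔸} (hP : P * P = P) {α : ℂ} (hα : ∀ m : ℤ, α ≠ m) (hA : A c = α • P) :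
    ∃ ε : ℝ, 0 < ε ∧ ∀ ρ : ℝ, 0 < ρ → ρ < ε → ∃ u : 𝔸ˣ,
      sqLoop t A (t c) ρ = u * (1 + (Complex.exp (2 * Real.pi * I * α) - 1) • P) * ↑u⁻¹ := by
  obtain ⟨ε, hε, Z, hZ1, hZc, hZ⟩ := exists_holo_gauge ht A c hP hα hA
  have hu : ∀ᶠ x in nhds (t c), IsUnit (Z x) := by
    apply hZc.eventually (p := fun y => IsUnit y)
    rw [hZ1]
    exact Units.isOpen.mem_nhds isUnit_one
  have hfar : ∀ᶠ x in nhds (t c), ∀ j, j ≠ c → x ≠ t j := by
    rw [Filter.eventually_all]
    intro j
    by_cases hj : j = c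
    · exact Filter.Eventually.of_forall fun x h => absurd hj h
    · have : t c ≠ t j := fun h => hj (ht h).symm
      filter_upwards [isOpen_ne.mem_nhds this] with x hx _ using hx
  obtain ⟨δ, hδ, hball⟩ := Metric.eventually_nhds_iff_ball.1 (hu.and hfar)
  refine ⟨min ε δ / 2, by positivity, fun ρ hρ hρε => ?_⟩
  set r := min ε δ with hr
  have hmem : ∀ w : ℂ, ‖w‖ ≤ 2 → t c + ρ * w ∈ Metric.ball (t c) r := by
    intro w hw
    rw [Metric.mem_ball, dist_eq_norm, add_sub_cancel_left, norm_mul, Complex.norm_real,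
      Real.norm_of_nonneg hρ.le]
    nlinarith [norm_nonneg w]
  have hside : ∀ a b : ℂ, a ≠ t c → b - t c = I * (a - t c) → a ∈ Metric.ball (t c) r →
      b ∈ Metric.ball (t c) r → Z b * T ![t c] ![A c] a b = T t A a b * Z a := by
    intro a b ha hb ha' hb'
    refine T_gauge ?_ ?_ Z (fun x => sys t A x * Z x - Z x * ((x - t c)⁻¹ • A c)) ?_ ?_
    · intro i hi
      have : (![t c] : Fin 1 → ℂ) i = t c := by fin_cases i; rfl
      rw [this] at hi
      exact holo_ne ha hb hi rfl
    · intro i hi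
      by_cases hic : i = c
      · exact holo_ne ha hb hi (by rw [hic])
      · have h1 := holo_norm_seg ha' hb' hi
        exact (hball _ (Metric.ball_subset_ball (min_le_right _ _) h1)).2 i hic rfl
    · intro x hx
      exact hZ x (Metric.ball_subset_ball (min_le_left _ _) (holo_norm_seg ha' hb' hx))
        (holo_ne ha hb hx)
    · intro x _
      rw [holo_sys_one]; abel
  have hρ' : (ρ : ℂ) ≠ 0 := by exact_mod_cast hρ.ne'
  have hne : ∀ w : ℂ, w ≠ 0 → t c + ρ * w ≠ t c := by
    intro w hw h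
    have : ρ * w = 0 := by linear_combination h
    rcases mul_eq_zero.1 this with h | h
    exacts [hρ' h, hw h]
  have n1 : (-1 - I : ℂ) ≠ 0 := by intro h; have := congrArg Complex.re h; simp at this
  have n2 : (1 - I : ℂ) ≠ 0 := by intro h; have := congrArg Complex.re h; simp at this
  have n3 : (1 + I : ℂ) ≠ 0 := by intro h; have := congrArg Complex.re h; simp at this
  have n4 : (-1 + I : ℂ) ≠ 0 := by intro h; have := congrArg Complex.re h; simp at this
  have m1 : ‖(-1 - I : ℂ)‖ ≤ 2 := (norm_sub_le _ _).trans (by simp; norm_num)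
  have m2 : ‖(1 - I : ℂ)‖ ≤ 2 := (norm_sub_le _ _).trans (by simp; norm_num)
  have m3 : ‖(1 + I : ℂ)‖ ≤ 2 := (norm_add_le _ _).trans (by simp; norm_num)
  have m4 : ‖(-1 + I : ℂ)‖ ≤ 2 := (norm_add_le _ _).trans (by simp; norm_num)
  have hI : I * I = -1 := Complex.I_mul_I
  have s1 := hside _ (t c + ρ * (1 - I)) (hne _ n1) (by linear_combination ρ * hI)
    (hmem _ m1) (hmem _ m2)
  have s2 := hside _ (t c + ρ * (1 + I)) (hne _ n2) (by linear_combination ρ * hI)
    (hmem _ m2) (hmem _ m3)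
  have s3 := hside _ (t c + ρ * (-1 + I)) (hne _ n3) (by linear_combination (-ρ) * hI)
    (hmem _ m3) (hmem _ m4)
  have s4 := hside _ (t c + ρ * (-1 - I)) (hne _ n4) (by linear_combination (-ρ) * hI)
    (hmem _ m4) (hmem _ m1)
  obtain ⟨u, hu'⟩ := (hball _ (Metric.ball_subset_ball (min_le_right _ _) (hmem _ m1))).1
  refine ⟨u, ?_⟩
  have hE := sqLoop_euler (A c) (t c) hρ'
  rw [hA, smul_smul, exp_smul_idem hP, ← hA] at hE
  rw [← hE, Units.eq_mul_inv_iff_mul_eq, hu']
  unfold sqLoop loop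
  simp only [mul_assoc]
  rw [← s1, ← mul_assoc (T t A _ _) (Z _), ← s2, mul_assoc, ← mul_assoc (T t A _ _) (Z _), ← s3,
    mul_assoc, ← mul_assoc (T t A _ _) (Z _), ← s4, mul_assoc]

end Pool.Agent.GR
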