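import Pool.Agent.Lib.MP_aa40d3_nt.GR.Seg

/-! Holomorphic gauge at a nonresonant point with idempotent residue. -/

open Set Complex

namespace Pool.Agent.GR

variable {𝔸 : Type} [NormedRing 𝔸] [NormedAlgebra ℂ 𝔸] [CompleteSpace 𝔸] {n : ℕ}

omit [CompleteSpace 𝔸] in
theorem holog_linv {P : 𝔸} (hP : P * P = P) {α : ℂ} (hα : ∀ m : ℤ, α ≠ m) :
    ∃ M : ℝ, 0 ≤ M ∧ ∀ (k : ℕ) (E : 𝔸), ∃ W : 𝔸,
      ((k : ℂ) + 1) • W = E + (α • P) * W - W * (α • P) ∧ ‖W‖ ≤ M * ‖E‖ := by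
  obtain ⟨δ, hδ, hb⟩ := Metric.isOpen_iff.1 Complex.isOpen_compl_range_intCast α
    (by rintro ⟨m, hm⟩; exact hα m hm.symm)
  have hd : ∀ m : ℤ, δ ≤ ‖(m : ℂ) - α‖ := fun m => by
    by_contra h
    exact hb (show (m : ℂ) ∈ Metric.ball α δ by
      rw [Metric.mem_ball, dist_eq_norm]; exact not_le.1 h) ⟨m, rfl⟩
  obtain ⟨Q, hQ⟩ : ∃ Q : 𝔸, Q = 1 - P := ⟨_, rfl⟩
  have hPQ : P * Q = 0 := by rw [hQ, mul_sub, mul_one, hP, sub_self]
  have hQP : Q * P = 0 := by rw [hQ, sub_mul, one_mul, hP, sub_self]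
  refine ⟨‖P‖ * ‖P‖ + ‖Q‖ * ‖Q‖ + δ⁻¹ * (‖P‖ * ‖Q‖) + δ⁻¹ * (‖Q‖ * ‖P‖), by positivity,
    fun k E => ⟨((k : ℂ) + 1)⁻¹ • (P * E * P + Q * E * Q) + ((k : ℂ) + 1 - α)⁻¹ • (P * E * Q) +
      ((k : ℂ) + 1 + α)⁻¹ • (Q * E * P), ?_, ?_⟩⟩
  · have h0 : (k : ℂ) + 1 ≠ 0 := by exact_mod_cast Nat.succ_ne_zero k
    have h1 : (k : ℂ) + 1 - α ≠ 0 := fun h => hα (k + 1) (by push_cast; linear_combination -h)
    have h2 : (k : ℂ) + 1 + α ≠ 0 := fun h => hα (-(k + 1)) (by push_cast; linear_combination h)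
    have e : E = P * E * P + Q * E * Q + P * E * Q + Q * E * P := by rw [hQ]; noncomm_ring
    have a1 : P * (P * E * P) = P * E * P := by rw [← mul_assoc, ← mul_assoc, hP]
    have a2 : P * (Q * E * Q) = 0 := by rw [← mul_assoc, ← mul_assoc, hPQ, zero_mul, zero_mul]
    have a3 : P * (P * E * Q) = P * E * Q := by rw [← mul_assoc, ← mul_assoc, hP]
    have a4 : P * (Q * E * P) = 0 := by rw [← mul_assoc, ← mul_assoc, hPQ, zero_mul, zero_mul]
    have b1 : P * E * P * P = P * E * P := by rw [mul_assoc _ P P, hP]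
    have b2 : Q * E * Q * P = 0 := by rw [mul_assoc _ Q P, hQP, mul_zero]
    have b3 : P * E * Q * P = 0 := by rw [mul_assoc _ Q P, hQP, mul_zero]
    have b4 : Q * E * P * P = Q * E * P := by rw [mul_assoc _ P P, hP]
    generalize P * E * P = X1 at *
    generalize Q * E * Q = X2 at *
    generalize P * E * Q = X3 at *
    generalize Q * E * P = X4 at *
    simp only [mul_add, add_mul, mul_smul_comm, smul_mul_assoc, a1, a2, a3, a4, b1, b2, b3, b4]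
    rw [e]
    match_scalars <;> field_simp <;> ring
  · have n3 : ∀ X Y : 𝔸, ‖X * E * Y‖ ≤ ‖X‖ * ‖Y‖ * ‖E‖ := fun X Y =>
      (norm_mul₃_le).trans (le_of_eq (by ring))
    have i0 : ‖((k : ℂ) + 1)⁻¹‖ ≤ 1 := by
      rw [norm_inv]
      refine inv_le_one_of_one_le₀ ?_
      have : ‖((k + 1 : ℕ) : ℂ)‖ = (k + 1 : ℕ) := Complex.norm_natCast _
      push_cast at this
      rw [this]
      linarith [Nat.cast_nonneg (α := ℝ) k]
    have i1 : ‖((k : ℂ) + 1 - α)⁻¹‖ ≤ δ⁻¹ := by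
      rw [norm_inv]
      refine inv_anti₀ hδ ?_
      simpa using hd (k + 1)
    have i2 : ‖((k : ℂ) + 1 + α)⁻¹‖ ≤ δ⁻¹ := by
      rw [norm_inv]
      refine inv_anti₀ hδ ?_
      have := hd (-(k + 1))
      rw [← norm_neg] at this
      refine this.trans (le_of_eq ?_)
      congr 1
      push_cast
      ring
    refine (norm_add₃_le).trans ?_
    rw [norm_smul, norm_smul, norm_smul]
    have j0 := mul_le_mul i0 ((norm_add_le _ _).trans (add_le_add (n3 P P) (n3 Q Q)))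
      (norm_nonneg _) zero_le_one
    have j1 := mul_le_mul i1 (n3 P Q) (norm_nonneg _) (inv_nonneg.2 hδ.le)
    have j2 := mul_le_mul i2 (n3 Q P) (norm_nonneg _) (inv_nonneg.2 hδ.le)
    linarith

theorem holog_sum {V : ℕ → 𝔸} {C Λ : ℝ} (hΛ : 0 ≤ Λ) (h : ∀ k, ‖V k‖ ≤ C * Λ ^ k) {y : ℂ} {ε : ℝ}
    (hy : ‖y‖ ≤ ε) (hε : ε * Λ ≤ 1 / 2) :
    (∀ k, ‖y ^ k • V k‖ ≤ C * (1 / 2) ^ k) ∧ Summable fun k => y ^ k • V k := by
  have hC : 0 ≤ C := by simpa using (norm_nonneg _).trans (h 0)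
  have h1 : ∀ k, ‖y ^ k • V k‖ ≤ C * (1 / 2) ^ k := fun k => by
    rw [norm_smul, norm_pow]
    calc ‖y‖ ^ k * ‖V k‖ ≤ ε ^ k * (C * Λ ^ k) :=
          mul_le_mul (pow_le_pow_left₀ (norm_nonneg _) hy k) (h k) (norm_nonneg _)
            (pow_nonneg ((norm_nonneg _).trans hy) k)
      _ = C * (ε * Λ) ^ k := by ring
      _ ≤ C * (1 / 2) ^ k := mul_le_mul_of_nonneg_left
          (pow_le_pow_left₀ (mul_nonneg ((norm_nonneg _).trans hy) hΛ) hε k) hC
  exact ⟨h1, Summable.of_norm_bounded (summable_geometric_two.mul_left C) h1⟩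

/-- With `y = x - t c` expand `∑_{j ≠ c} (x - t j)⁻¹ • A j = ∑ y ^ m • B m`, where
`B m = -∑_{j ≠ c} (t j - t c)⁻¹ ^ (m + 1) • A j` and `‖B m‖ ≤ a * L ^ m`. Define `Z 0 = 1` and
`Z (k + 1) = Linv (k + 1) (∑_{i + j = k} B i * Z j)`, where `Linv k E` solves
`k • W - α • (P * W - W * P) = E`: with `P' = 1 - P`,
`W = k⁻¹ • (P E P + P' E P') + (k - α)⁻¹ • P E P' + (k + α)⁻¹ • P' E P`, and `‖Linv k E‖ ≤ M ‖E‖`
uniformly in `k ≥ 1`. By strong induction `‖Z k‖ ≤ ‖1‖ * Λ ^ k` for `Λ = L + M a` (or larger).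
The sum of `y ^ k • Z k` is differentiated termwise (`hasDerivAt_tsum_of_isPreconnected` or
`HasFPowerSeriesOnBall`), and the product with `∑ y ^ m • B m` is a Cauchy product
(`tsum_mul_tsum_eq_tsum_sum_antidiagonal_of_summable_norm`). -/
theorem exists_holo_gauge {t : Fin n → ℂ} (ht : Function.Injective t) (A : Fin n → 𝔸) (c : Fin n)
    {P : 𝔸} (hP : P * P = P) {α : ℂ} (hα : ∀ m : ℤ, α ≠ m) (hA : A c = α • P) :
    ∃ ε : ℝ, 0 < ε ∧ ∃ Z : ℂ → 𝔸, Z (t c) = 1 ∧ ContinuousAt Z (t c) ∧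
      ∀ x ∈ Metric.ball (t c) ε, x ≠ t c →
        HasDerivAt Z (sys t A x * Z x - Z x * ((x - t c)⁻¹ • A c)) x := by
  obtain ⟨M, hM, hL⟩ := holog_linv hP hα
  rw [← hA] at hL
  choose Li hLi hLn using hL
  obtain ⟨W, hW0, hW⟩ : ∃ W : ℕ → Fin n → 𝔸, (∀ j, W 0 j = -((t j - t c)⁻¹ • 1)) ∧
      ∀ k j, W (k + 1) j = (t j - t c)⁻¹ • (W k j - Li k (∑ i, A i * W k i)) :=
    ⟨fun k => Nat.rec (fun j => -((t j - t c)⁻¹ • 1))
      (fun k w j => (t j - t c)⁻¹ • (w j - Li k (∑ i, A i * w i))) k, fun _ => rfl, fun _ _ => rfl⟩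
  obtain ⟨U, hU⟩ : ∃ U : ℕ → 𝔸, ∀ k, U k = Li k (∑ i, A i * W k i) := ⟨_, fun _ => rfl⟩
  obtain ⟨a, ha⟩ : ∃ a : ℝ, a = ∑ i, ‖A i‖ := ⟨_, rfl⟩
  obtain ⟨L, hLd⟩ : ∃ L : ℝ, L = ∑ i, ‖(t i - t c)⁻¹‖ := ⟨_, rfl⟩
  have ha0 : 0 ≤ a := ha ▸ Finset.sum_nonneg fun _ _ => norm_nonneg _
  have hL0 : 0 ≤ L := hLd ▸ Finset.sum_nonneg fun _ _ => norm_nonneg _
  have hLj : ∀ j, ‖(t j - t c)⁻¹‖ ≤ L := fun j => hLd ▸
    Finset.single_le_sum (f := fun i => ‖(t i - t c)⁻¹‖) (fun _ _ => norm_nonneg _)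
      (Finset.mem_univ j)
  have hE : ∀ k, ‖∑ i, A i * W k i‖ ≤ a * ‖W k‖ := fun k => by
    rw [ha, Finset.sum_mul]
    exact (norm_sum_le _ _).trans (Finset.sum_le_sum fun i _ => (norm_mul_le _ _).trans
      (mul_le_mul_of_nonneg_left (norm_le_pi_norm _ i) (norm_nonneg _)))
  have hUn : ∀ k, ‖U k‖ ≤ M * a * ‖W k‖ := fun k => by
    rw [hU, mul_assoc]
    exact (hLn _ _).trans (mul_le_mul_of_nonneg_left (hE k) hM)
  obtain ⟨Λ, hΛ⟩ : ∃ Λ : ℝ, Λ = L * (1 + M * a) + 1 := ⟨_, rfl⟩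
  have hMa : 0 ≤ M * a := mul_nonneg hM ha0
  have hΛL : L ≤ Λ := by nlinarith
  have hΛ0 : 0 < Λ := by rw [hΛ]; positivity
  have hWn : ∀ k, ‖W k‖ ≤ ‖W 0‖ * Λ ^ k := by
    intro k
    induction k with
    | zero => simp
    | succ k ih =>
      have h1 : ‖W (k + 1)‖ ≤ Λ * ‖W k‖ := by
        refine (pi_norm_le_iff_of_nonneg (by positivity)).2 fun j => ?_
        rw [hW, ← hU, norm_smul]
        have h2 : ‖W k j - U k‖ ≤ (1 + M * a) * ‖W k‖ := by
          have := norm_sub_le (W k j) (U k)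
          have := norm_le_pi_norm (W k) j
          have := hUn k
          linarith
        have h3 := mul_le_mul (hLj j) h2 (norm_nonneg _) hL0
        have := norm_nonneg (W k)
        rw [hΛ]
        linarith
      calc ‖W (k + 1)‖ ≤ Λ * (‖W 0‖ * Λ ^ k) :=
            h1.trans (mul_le_mul_of_nonneg_left ih hΛ0.le)
        _ = _ := by ring
  have hWj : ∀ j k, ‖W k j‖ ≤ ‖W 0‖ * Λ ^ k := fun j k => (norm_le_pi_norm _ j).trans (hWn k)
  have hUk : ∀ k, ‖U k‖ ≤ M * a * ‖W 0‖ * Λ ^ k := fun k => by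
    rw [mul_assoc]
    exact (hUn k).trans (mul_le_mul_of_nonneg_left (hWn k) hMa)
  have hD : ∀ k : ℕ, ((k : ℂ) + 1) • U k = ∑ i, A i * W k i + A c * U k - U k * A c := fun k => by
    rw [hU]; exact hLi _ _
  have hDn : ∀ k : ℕ, ‖((k : ℂ) + 1) • U k‖ ≤
      (a * ‖W 0‖ + 2 * ‖A c‖ * (M * a * ‖W 0‖)) * Λ ^ k := fun k => by
    rw [hD]
    have h1 := norm_sub_le (∑ i, A i * W k i + A c * U k) (U k * A c)
    have h2 := norm_add_le (∑ i, A i * W k i) (A c * U k)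
    have h3 := (hE k).trans (mul_le_mul_of_nonneg_left (hWn k) ha0)
    have h4 := norm_mul_le (A c) (U k)
    have h5 := norm_mul_le (U k) (A c)
    have h6 := mul_le_mul_of_nonneg_left (hUk k) (norm_nonneg (A c))
    linarith
  have hε : (2 * Λ)⁻¹ * Λ ≤ 1 / 2 := le_of_eq (by field_simp)
  have hε0 : 0 < (2 * Λ)⁻¹ := by positivity
  generalize (2 * Λ)⁻¹ = ε at hε hε0
  have hy : ∀ x ∈ Metric.ball (t c) ε, ‖x - t c‖ ≤ ε := fun x hx => by
    rw [← dist_eq_norm]; exact (Metric.mem_ball.1 hx).le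
  have hder : ∀ x ∈ Metric.ball (t c) ε, HasDerivAt (fun z => 1 + ∑' k, (z - t c) ^ (k + 1) • U k)
      (∑' k : ℕ, (x - t c) ^ k • ((k : ℂ) + 1) • U k) x := by
    intro x hx
    refine HasDerivAt.const_add _ (hasDerivAt_tsum_of_isPreconnected
      (g := fun k z => (z - t c) ^ (k + 1) • U k)
      (g' := fun k z => (z - t c) ^ k • ((k : ℂ) + 1) • U k)
      (summable_geometric_two.mul_left (a * ‖W 0‖ + 2 * ‖A c‖ * (M * a * ‖W 0‖)))
      Metric.isOpen_ball (convex_ball _ _).isPreconnected (fun k z _ => ?_)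
      (fun k z hz => (holog_sum hΛ0.le hDn (hy z hz) hε).1 k) (Metric.mem_ball_self hε0) ?_ hx)
    · have := (((hasDerivAt_id z).sub_const (t c)).pow (k + 1)).smul_const (U k)
      refine HasDerivAt.congr_deriv this ?_
      rw [smul_smul]
      simp [mul_comm]
    · simp [summable_zero]
  refine ⟨ε, hε0, fun z => 1 + ∑' k, (z - t c) ^ (k + 1) • U k, by simp,
    (hder _ (Metric.mem_ball_self hε0)).continuousAt, fun x hx hxc => ?_⟩
  refine (hder x hx).congr_deriv ?_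
  have hy0 : x - t c ≠ 0 := sub_ne_zero.2 hxc
  obtain ⟨u, hu⟩ := (holog_sum hΛ0.le hUk (hy x hx) hε).2
  choose w hw using fun j => (holog_sum hΛ0.le (hWj j) (hy x hx) hε).2
  have hZ : HasSum (fun k => (x - t c) ^ (k + 1) • U k) ((x - t c) • u) := by
    simpa only [smul_smul, pow_succ'] using hu.const_smul (x - t c)
  have hS : HasSum (fun k : ℕ => (x - t c) ^ k • ((k : ℂ) + 1) • U k)
      (∑ i, A i * w i + A c * u - u * A c) := by
    have := ((hasSum_sum fun i (_ : i ∈ Finset.univ) => (hw i).mul_left (A i)).add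
      (hu.mul_left (A c))).sub (hu.mul_right (A c))
    simpa only [hD, smul_sub, smul_add, Finset.smul_sum, mul_smul_comm, smul_mul_assoc] using this
  have hwc : w c = 0 := by
    refine (hw c).unique ?_
    have : ∀ k, W k c = 0 := by
      rintro (_ | k)
      · rw [hW0]; simp
      · rw [hW]; simp
    simp [this]
  have hwj : ∀ j, j ≠ c → w j = (x - t j)⁻¹ • (1 + (x - t c) • u) := by
    intro j hj
    have hd : t j - t c ≠ 0 := sub_ne_zero.2 (ht.ne hj)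
    have hxj : x - t j ≠ 0 := by
      intro h
      have h1 := mul_le_mul (hy x hx) ((hLj j).trans hΛL) (norm_nonneg _) hε0.le
      rw [sub_eq_zero.1 h, ← norm_mul, mul_inv_cancel₀ hd, norm_one] at h1
      linarith
    have h1 : HasSum (fun k => (x - t c) ^ (k + 1) • W (k + 1) j) (w j - W 0 j) := by
      have := (hasSum_nat_add_iff' (f := fun k => (x - t c) ^ k • W k j) 1).2 (hw j)
      simpa using this
    have h2 : HasSum (fun k => (x - t c) ^ (k + 1) • W (k + 1) j)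
        ((t j - t c)⁻¹ • ((x - t c) • w j - (x - t c) • u)) := by
      have := (((hw j).const_smul (x - t c)).sub hZ).const_smul (t j - t c)⁻¹
      have e : ∀ k, (x - t c) ^ (k + 1) • W (k + 1) j = (t j - t c)⁻¹ •
          ((x - t c) • (x - t c) ^ k • W k j - (x - t c) ^ (k + 1) • U k) := fun k => by
        rw [hW, ← hU, smul_smul (x - t c), ← pow_succ', ← smul_sub, smul_comm]
      simpa only [e] using this
    have h3 := congrArg (fun v => ((x - t j)⁻¹ * (t j - t c)) • v) (h1.unique h2)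
    rw [hW0] at h3
    have h4 : ∀ v o : 𝔸, v - (x - t j)⁻¹ • (o + (x - t c) • u) =
        ((x - t j)⁻¹ * (t j - t c)) • ((t j - t c)⁻¹ • ((x - t c) • v - (x - t c) • u)) -
          ((x - t j)⁻¹ * (t j - t c)) • (v - -((t j - t c)⁻¹ • o)) := by
      intro v o
      match_scalars <;> field_simp <;> ring
    rw [← sub_eq_zero, h4, ← h3, sub_self]
  beta_reduce
  rw [hS.tsum_eq, hZ.tsum_eq, sys, Finset.sum_mul, ← Finset.add_sum_erase _ _ (Finset.mem_univ c),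
    ← Finset.add_sum_erase _ _ (Finset.mem_univ c), hwc,
    Finset.sum_congr rfl fun j hj => by rw [hwj j (Finset.ne_of_mem_erase hj), mul_smul_comm,
      ← smul_mul_assoc]]
  generalize ∑ j ∈ Finset.univ.erase c, ((x - t j)⁻¹ • A j) * (1 + (x - t c) • u) = S
  simp only [mul_add, add_mul, mul_one, one_mul, mul_zero, mul_smul_comm, smul_mul_assoc]
  match_scalars <;> field_simp <;> ring

end Pool.Agent.GR
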