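import Mathlib

/-! Ingredients for the theorem of Kronecker. -/

open Polynomial

namespace Pool.Agent.GR

private theorem krona_term {p : ℝ} (hp : 2 ≤ p) :
    Real.log p / (p - 1) ≤ Real.log p / p + 4 * (1 / p ^ (3 / 2 : ℝ)) := by
  have hp0 : 0 < p := by linarith
  have hp1 : 0 < p - 1 := by linarith
  have h1 : Real.log p ≤ p ^ (1 / 2 : ℝ) / (1 / 2) := Real.log_le_rpow_div hp0.le one_half_pos
  have ha : 0 < p ^ (1 / 2 : ℝ) := Real.rpow_pos_of_pos hp0 _
  have hb : 0 < p ^ (3 / 2 : ℝ) := Real.rpow_pos_of_pos hp0 _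
  have hab : p ^ (1 / 2 : ℝ) * p ^ (3 / 2 : ℝ) = p ^ 2 := by
    rw [← Real.rpow_add hp0, ← Real.rpow_natCast]
    norm_num
  generalize p ^ (1 / 2 : ℝ) = a at *
  generalize p ^ (3 / 2 : ℝ) = b at *
  have h2 : Real.log p / (p - 1) = Real.log p / p + Real.log p / (p * (p - 1)) := by
    field_simp
    ring
  rw [h2]
  have h3 : Real.log p / (p * (p - 1)) ≤ 4 * (1 / b) := by
    rw [mul_one_div, div_le_div_iff₀ (mul_pos hp0 hp1) hb]
    have h4 : Real.log p * b ≤ 2 * a * b := mul_le_mul_of_nonneg_right (by linarith) hb.le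
    nlinarith
  linarith

private theorem krona_log_factorial (N : ℕ) :
    Real.log (N.factorial : ℝ) ≤ ∑ p ∈ Nat.primesLE N, N * (Real.log p / ((p : ℝ) - 1)) := by
  rw [Real.log_nat_eq_sum_factorization, Finsupp.sum]
  have hsub : (N.factorial).factorization.support ⊆ Nat.primesLE N := by
    intro p hp
    rw [Nat.support_factorization, Nat.mem_primeFactors] at hp
    exact Nat.mem_primesLE.2 ⟨(hp.1.dvd_factorial).1 hp.2.1, hp.1⟩
  have hnn : ∀ p : ℕ, 0 ≤ Real.log p := fun p => Real.log_natCast_nonneg p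
  refine le_trans (Finset.sum_le_sum_of_subset_of_nonneg hsub fun p _ _ =>
    mul_nonneg (Nat.cast_nonneg _) (hnn p)) (Finset.sum_le_sum fun p hp => ?_)
  have hp' := Nat.prime_of_mem_primesLE hp
  have h1 : (((N.factorial).factorization p : ℕ) : ℝ) ≤ N / ((p : ℝ) - 1) := by
    refine le_trans (Nat.cast_le.2 (Nat.factorization_factorial_le_div_pred hp' N)) ?_
    refine le_trans Nat.cast_div_le ?_
    rw [Nat.cast_sub hp'.one_le, Nat.cast_one]
  calc (((N.factorial).factorization p : ℕ) : ℝ) * Real.log p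
      ≤ N / ((p : ℝ) - 1) * Real.log p := mul_le_mul_of_nonneg_right h1 (hnn p)
    _ = N * (Real.log p / ((p : ℝ) - 1)) := by ring

/-- `N log N - N ≤ log N! = ∑ v_p(N!) log p` and `v_p(N!) ≤ N / (p - 1)`
(`Nat.Prime.sub_one_mul_padicValNat_factorial` or `Nat.factorization_factorial_le_div_pred`),
and `∑ log p / (p (p - 1))` converges (`log p ≤ 2 √p`). -/
theorem mertens_lower : ∃ c : ℝ, ∀ N : ℕ, 1 ≤ N →
    Real.log N - c ≤ ∑ p ∈ Nat.primesLE N, Real.log p / p := by
  have hs : Summable fun n : ℕ => 4 * (1 / (n : ℝ) ^ (3 / 2 : ℝ)) :=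
    (Real.summable_one_div_nat_rpow.2 (by norm_num)).mul_left 4
  refine ⟨1 + ∑' n : ℕ, 4 * (1 / (n : ℝ) ^ (3 / 2 : ℝ)), fun N hN => ?_⟩
  have hN0 : (0 : ℝ) < N := by exact_mod_cast hN
  have h1 := Stirling.le_log_factorial_stirling (n := N) (by omega)
  have h2 := krona_log_factorial N
  have h3 : 0 ≤ Real.log N := Real.log_natCast_nonneg N
  have h4 : 0 ≤ Real.log (2 * Real.pi) := Real.log_nonneg (by linarith [Real.pi_gt_three])
  rw [← Finset.mul_sum] at h2
  have h5 : Real.log N - 1 ≤ ∑ p ∈ Nat.primesLE N, Real.log p / ((p : ℝ) - 1) := by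
    refine le_of_mul_le_mul_left ?_ hN0
    linarith
  have h6 : ∑ p ∈ Nat.primesLE N, Real.log p / ((p : ℝ) - 1) ≤
      ∑ p ∈ Nat.primesLE N, (Real.log p / p + 4 * (1 / (p : ℝ) ^ (3 / 2 : ℝ))) :=
    Finset.sum_le_sum fun p hp => krona_term (by exact_mod_cast Nat.two_le_of_mem_primesLE hp)
  have h7 : ∑ p ∈ Nat.primesLE N, 4 * (1 / (p : ℝ) ^ (3 / 2 : ℝ)) ≤
      ∑' n : ℕ, 4 * (1 / (n : ℝ) ^ (3 / 2 : ℝ)) :=
    hs.sum_le_tsum _ fun n _ => by positivity
  rw [Finset.sum_add_distrib] at h6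
  linarith

/-- Cauchy-Schwarz: a map from a finite set `s` to `ZMod p` has at least `|s|^2 / p - |s|`
ordered pairs of distinct points with the same image (`sq_sum_le_card_mul_sum_sq`). -/
theorem card_pairs_ge {ι : Type*} [DecidableEq ι] (s : Finset ι) (p : ℕ) [NeZero p]
    (f : ι → ZMod p) :
    (s.card : ℝ) ^ 2 / p - s.card ≤
      ((s.offDiag.filter fun q => f q.1 = f q.2).card : ℝ) := by
  have hp : (0 : ℝ) < p := by exact_mod_cast Nat.pos_of_ne_zero (NeZero.ne p)
  have h1 : s.card = ∑ c : ZMod p, (s.filter fun a => f a = c).card :=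
    Finset.card_eq_sum_card_fiberwise fun a _ => Finset.mem_coe.2 (Finset.mem_univ _)
  have h2 : ((s ×ˢ s).filter fun q => f q.1 = f q.2).card =
      ∑ c : ZMod p, (s.filter fun a => f a = c).card ^ 2 := by
    rw [Finset.card_eq_sum_card_fiberwise (f := fun q : ι × ι => f q.1) (t := Finset.univ)
      fun a _ => Finset.mem_coe.2 (Finset.mem_univ _)]
    refine Finset.sum_congr rfl fun c _ => ?_
    rw [sq, ← Finset.card_product]
    congr 1
    ext q
    simp only [Finset.mem_filter, Finset.mem_product]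
    constructor
    · rintro ⟨⟨⟨h1, h2⟩, h3⟩, h4⟩
      exact ⟨⟨h1, h4⟩, h2, h3 ▸ h4⟩
    · rintro ⟨⟨h1, h2⟩, h3, h4⟩
      exact ⟨⟨⟨h1, h3⟩, h2.trans h4.symm⟩, h2⟩
  have h3 : ((s ×ˢ s).filter fun q => f q.1 = f q.2).card ≤
      (s.offDiag.filter fun q => f q.1 = f q.2).card + s.card := by
    have h4 : ((s ×ˢ s).filter fun q => f q.1 = f q.2) ⊆
        (s.offDiag.filter fun q => f q.1 = f q.2) ∪ s.image fun a => (a, a) := by
      intro q hq
      simp only [Finset.mem_filter, Finset.mem_product] at hq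
      simp only [Finset.mem_union, Finset.mem_filter, Finset.mem_offDiag, Finset.mem_image]
      by_cases h : q.1 = q.2
      · exact Or.inr ⟨q.1, hq.1.1, Prod.ext rfl h⟩
      · exact Or.inl ⟨⟨hq.1.1, hq.1.2, h⟩, hq.2⟩
    exact (Finset.card_le_card h4).trans ((Finset.card_union_le _ _).trans
      (Nat.add_le_add_left Finset.card_image_le _))
  have h5 : (∑ c : ZMod p, (s.filter fun a => f a = c).card) ^ 2 ≤
      (Finset.univ : Finset (ZMod p)).card * ∑ c : ZMod p, (s.filter fun a => f a = c).card ^ 2 :=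
    sq_sum_le_card_mul_sum_sq
  rw [← h1, ← h2, Finset.card_univ, ZMod.card] at h5
  have h6 : s.card ^ 2 ≤ p * ((s.offDiag.filter fun q => f q.1 = f q.2).card + s.card) :=
    h5.trans (Nat.mul_le_mul_left _ h3)
  have h7 : (s.card : ℝ) ^ 2 ≤
      p * (((s.offDiag.filter fun q => f q.1 = f q.2).card : ℝ) + s.card) := by
    exact_mod_cast h6
  rw [sub_le_iff_le_add, div_le_iff₀ hp]
  linarith

/-- The homogenisation `F (x, y) = ∑ f_i x^i y^(d - i)`. -/
noncomputable def homog (f : ℤ[X]) (x y : ℤ) : ℤ :=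
  ∑ i ∈ Finset.range (f.natDegree + 1), f.coeff i * x ^ i * y ^ (f.natDegree - i)

/-- If exactly one root `ρ` has `x = ρ y` then `p ∣ homog f x y` (if `y = 0` mod `p` then `x = 0`
mod `p`); if at least two roots have this property then `x = y = 0` mod `p`, so
`p ^ natDegree f` divides, and the number of roots is at most `natDegree f`. -/
theorem pow_card_dvd_homog (f : ℤ[X]) (hd : 0 < f.natDegree) (p : ℕ) [Fact p.Prime]
    (hf : f.map (Int.castRingHom (ZMod p)) ≠ 0) (x y : ℤ) :
    (p : ℤ) ^ ((f.map (Int.castRingHom (ZMod p))).roots.toFinset.filter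
      fun ρ => (x : ZMod p) = ρ * y).card ∣ homog f x y := by
  set g := f.map (Int.castRingHom (ZMod p)) with hg
  set R := g.roots.toFinset.filter fun ρ => (x : ZMod p) = ρ * y with hR
  have hdeg : g.natDegree ≤ f.natDegree := natDegree_map_le
  by_cases h2 : 1 < R.card
  · obtain ⟨a, ha, b, hb, hab⟩ := Finset.one_lt_card.1 h2
    have ha' := (Finset.mem_filter.1 ha).2
    have hb' := (Finset.mem_filter.1 hb).2
    have hy : (y : ZMod p) = 0 := by
      by_contra hy
      exact hab (mul_right_cancel₀ hy (ha'.symm.trans hb'))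
    have hx : (x : ZMod p) = 0 := by rw [ha', hy, mul_zero]
    rw [ZMod.intCast_zmod_eq_zero_iff_dvd] at hx hy
    have hc : R.card ≤ f.natDegree :=
      (Finset.card_filter_le _ _).trans ((Multiset.toFinset_card_le _).trans
        ((card_roots' g).trans hdeg))
    refine (pow_dvd_pow _ hc).trans (Finset.dvd_sum fun i hi => ?_)
    have hi' : i ≤ f.natDegree := Nat.lt_succ_iff.1 (Finset.mem_range.1 hi)
    rw [mul_assoc]
    refine Dvd.dvd.mul_left ?_ _
    have h3 : (p : ℤ) ^ f.natDegree = (p : ℤ) ^ i * (p : ℤ) ^ (f.natDegree - i) := by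
      rw [← pow_add, Nat.add_sub_cancel' hi']
    rw [h3]
    exact mul_dvd_mul (pow_dvd_pow_of_dvd hx _) (pow_dvd_pow_of_dvd hy _)
  · rcases Nat.eq_zero_or_pos R.card with h0 | h0
    · rw [h0, pow_zero]
      exact one_dvd _
    have h1 : R.card = 1 := by omega
    obtain ⟨a, ha⟩ := Finset.card_pos.1 h0
    have ha' := (Finset.mem_filter.1 ha).2
    have hr : g.eval a = 0 :=
      (mem_roots hf).1 (Multiset.mem_toFinset.1 (Finset.mem_filter.1 ha).1)
    rw [h1, pow_one, ← ZMod.intCast_zmod_eq_zero_iff_dvd]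
    rw [eval_eq_sum_range' (Nat.lt_succ_of_le hdeg)] at hr
    have h3 : ((homog f x y : ℤ) : ZMod p) =
        (∑ i ∈ Finset.range (f.natDegree + 1), g.coeff i * a ^ i) * (y : ZMod p) ^ f.natDegree := by
      unfold homog
      rw [Finset.sum_mul, Int.cast_sum]
      refine Finset.sum_congr rfl fun i hi => ?_
      have hi' : i ≤ f.natDegree := Nat.lt_succ_iff.1 (Finset.mem_range.1 hi)
      have h4 : (y : ZMod p) ^ f.natDegree = (y : ZMod p) ^ i * (y : ZMod p) ^ (f.natDegree - i) := by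
        rw [← pow_add, Nat.add_sub_cancel' hi']
      rw [h4, hg, coeff_map, eq_intCast]
      push_cast
      rw [ha']
      ring
    rw [h3, hr, zero_mul]

end Pool.Agent.GR
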