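import Pool.Agent.Lib.MP_aa40d3_nt.GR.Branch

/-! Continuation of countably valued functions along a complex line. -/

open Polynomial Set

namespace Pool.Agent.GR

/-- As in the proof of `Set.Countable.isPathConnected_compl_of_one_lt_rank`: join `u` and `v` by
two segments through a point `w` near the midpoint, on the perpendicular bisector; different `w`
give segments that only meet at `u` and `v`, so all but finitely many `w` work. -/
theorem isPreconnected_diff_finite {D : Set ℂ} (hD : IsOpen D) (hDc : Convex ℝ D) {S : Set ℂ}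
    (hS : S.Finite) : IsPreconnected (D \ S) := by
  have hs := hS.countable
  refine isPreconnected_of_forall_pair fun a ha b hb => ?_
  rcases eq_or_ne a b with rfl | hab
  · exact ⟨{a}, singleton_subset_iff.2 ha, rfl, rfl, isPreconnected_singleton⟩
  let c := (2 : ℝ)⁻¹ • (a + b)
  let x := (2 : ℝ)⁻¹ • (b - a)
  have Ia : c - x = a := by
    simp only [c, x]
    module
  have Ib : c + x = b := by
    simp only [c, x]
    module
  have hc : c ∈ D := by
    have := hDc ha.1 hb.1 (by norm_num : (0 : ℝ) ≤ 2⁻¹) (by norm_num : (0 : ℝ) ≤ 2⁻¹) (by norm_num)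
    rwa [← smul_add] at this
  have x_ne_zero : x ≠ 0 := by simpa [x] using sub_ne_zero.2 hab.symm
  obtain ⟨y, hy⟩ : ∃ y, LinearIndependent ℝ ![x, y] :=
    exists_linearIndependent_pair_of_one_lt_rank (by simp) x_ne_zero
  have A : Set.Countable {t : ℝ | (segment ℝ (c + x) (c + t • y) ∩ S).Nonempty} := by
    apply countable_ofPred_nonempty_of_disjoint _ (fun t ↦ inter_subset_right) hs
    intro t t' htt'
    apply disjoint_iff_inter_eq_empty.2
    have N : {c + x} ∩ S = ∅ := by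
      simpa only [singleton_inter_eq_empty, mem_compl_iff, Ib] using hb.2
    rw [inter_assoc, inter_comm S, inter_assoc, inter_self, ← inter_assoc, ← subset_empty_iff, ← N]
    apply inter_subset_inter_left
    apply Eq.subset
    apply segment_inter_eq_endpoint_of_linearIndependent_of_ne hy htt'.symm
  have B : Set.Countable {t : ℝ | (segment ℝ (c - x) (c + t • y) ∩ S).Nonempty} := by
    apply countable_ofPred_nonempty_of_disjoint _ (fun t ↦ inter_subset_right) hs
    intro t t' htt'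
    apply disjoint_iff_inter_eq_empty.2
    have N : {c - x} ∩ S = ∅ := by
      simpa only [singleton_inter_eq_empty, mem_compl_iff, Ia] using ha.2
    rw [inter_assoc, inter_comm S, inter_assoc, inter_self, ← inter_assoc, ← subset_empty_iff, ← N]
    apply inter_subset_inter_left
    rw [sub_eq_add_neg _ x]
    apply Eq.subset
    apply segment_inter_eq_endpoint_of_linearIndependent_of_ne _ htt'.symm
    convert! hy.units_smul ![-1, 1]
    simp [← List.ofFn_inj]
  have hU : IsOpen {t : ℝ | c + t • y ∈ D} :=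
    hD.preimage (by fun_prop : Continuous fun t : ℝ => c + t • y)
  obtain ⟨t, ht, ht'⟩ := ((A.union B).dense_compl ℝ).inter_open_nonempty _ hU
    ⟨0, by simpa using hc⟩
  simp only [compl_union, mem_inter_iff, mem_compl_iff, mem_ofPred_eq,
    not_nonempty_iff_eq_empty, Ia, Ib] at ht ht'
  refine ⟨segment ℝ a (c + t • y) ∪ segment ℝ b (c + t • y), ?_,
    Or.inl (left_mem_segment _ _ _), Or.inr (left_mem_segment _ _ _),
    IsPreconnected.union (c + t • y) (right_mem_segment _ _ _) (right_mem_segment _ _ _)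
      (convex_segment _ _).isPreconnected (convex_segment _ _).isPreconnected⟩
  rintro z (hz | hz)
  · exact ⟨hDc.segment_subset ha.1 ht hz, fun h => (ht'.2.subset ⟨hz, h⟩ : z ∈ (∅ : Set ℂ))⟩
  · exact ⟨hDc.segment_subset hb.1 ht hz, fun h => (ht'.1.subset ⟨hz, h⟩ : z ∈ (∅ : Set ℂ))⟩

theorem lineCont_local (F : ℂ[X][X]) (hF : F.Monic) {D : Set ℂ} (hD : IsOpen D)
    (hsep : ∀ u ∈ D, ∀ θ, (fib F u).eval θ = 0 → (derivative (fib F u)).eval θ ≠ 0)
    {E : Type*} [NormedAddCommGroup E] [NormedSpace ℂ E] [CompleteSpace E] (f : ℂ × ℂ → E)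
    (hf : ∀ u ∈ D, ∀ θ, (fib F u).eval θ = 0 → DifferentiableAt ℂ f (u, θ))
    {S : Set E} (hS : S.Countable) {u₀ : ℂ} (h₀ : u₀ ∈ D) :
    ∃ ε : ℝ, 0 < ε ∧ Metric.ball u₀ ε ⊆ D ∧ ∀ u₁ d : ℂ, d ≠ 0 →
      (∀ s ∈ Ioo (0 : ℝ) 1, u₁ + s * d ∈ Metric.ball u₀ ε ∧
        ∀ θ, (fib F (u₁ + s * d)).eval θ = 0 → f (u₁ + s * d, θ) ∈ S) →
      ∀ u ∈ Metric.ball u₀ ε, ∀ θ, (fib F u).eval θ = 0 → f (u, θ) ∈ S := by
  obtain ⟨ε₁, h₁, θ, hθ, -, hfac⟩ := exists_branches F hF (hsep u₀ h₀)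
  obtain ⟨ε₂, h₂, hb⟩ := Metric.isOpen_iff.1 hD u₀ h₀
  have s₁ : Metric.ball u₀ (min ε₁ ε₂) ⊆ Metric.ball u₀ ε₁ :=
    Metric.ball_subset_ball (min_le_left _ _)
  have s₂ : Metric.ball u₀ (min ε₁ ε₂) ⊆ D :=
    (Metric.ball_subset_ball (min_le_right _ _)).trans hb
  have hroot : ∀ u ∈ Metric.ball u₀ (min ε₁ ε₂), ∀ t, (fib F u).eval t = 0 ↔ ∃ j, t = θ j u := by
    intro u hu t
    rw [hfac u (s₁ hu), eval_prod, Finset.prod_eq_zero_iff]
    simp only [Finset.mem_univ, true_and, eval_sub, eval_X, eval_C, sub_eq_zero]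
  refine ⟨min ε₁ ε₂, lt_min h₁ h₂, s₂, fun u₁ d hd h u hu t ht => ?_⟩
  obtain ⟨j, rfl⟩ := (hroot u hu t).1 ht
  refine mem_of_countable (g := fun u => f (u, θ j u)) ?_ hS hd
    (fun s hs => ⟨(h s hs).1, (h s hs).2 _ ((hroot _ (h s hs).1 _).2 ⟨j, rfl⟩)⟩) u hu
  intro v hv
  have h3 : DifferentiableAt ℂ (θ j) v :=
    (hθ j).differentiableAt (Metric.isOpen_ball.mem_nhds (s₁ hv))
  exact ((hf v (s₂ hv) _ ((hroot v hv _).2 ⟨j, rfl⟩)).comp v
    (differentiableAt_id.prodMk h3)).differentiableWithinAt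

/-- Let `D' = {u ∈ D | G u ≠ 0}`; it is preconnected by the previous lemma (if `G ≠ 0`).
The set `E` of `u ∈ D'` such that the conclusion holds at all points near `u` is open, closed in
`D'` and nonempty: near `u₀ ∈ D'` take the branches of `exists_branches` on a ball inside `D'` and
apply `mem_of_countable` to `u ↦ f (u, θ j u)`. -/
theorem line_cont (F : ℂ[X][X]) (hF : F.Monic) (G : ℂ[X])
    (hsep : ∀ u θ, G.eval u ≠ 0 → (fib F u).eval θ = 0 → (derivative (fib F u)).eval θ ≠ 0)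
    {D : Set ℂ} (hD : IsOpen D) (hDc : Convex ℝ D) {E : Type*} [NormedAddCommGroup E]
    [NormedSpace ℂ E] [CompleteSpace E] (f : ℂ × ℂ → E)
    (hf : ∀ u ∈ D, G.eval u ≠ 0 → ∀ θ, (fib F u).eval θ = 0 → DifferentiableAt ℂ f (u, θ))
    {S : Set E} (hS : S.Countable) {a b : ℝ} (hab : a < b)
    (h : ∀ s ∈ Ioo a b, (s : ℂ) ∈ D ∧ (G.eval (s : ℂ) ≠ 0 → ∀ θ, (fib F s).eval θ = 0 →
      f (s, θ) ∈ S)) :
    ∀ u ∈ D, G.eval u ≠ 0 → ∀ θ, (fib F u).eval θ = 0 → f (u, θ) ∈ S := by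
  by_cases hG : G = 0
  · intro u _ hu
    exact absurd (by rw [hG, eval_zero]) hu
  have hfin : {u : ℂ | G.IsRoot u}.Finite := G.finite_setOfPred_isRoot hG
  set D' : Set ℂ := D \ {u | G.IsRoot u} with hD'
  have hO : IsOpen D' := hD.sdiff hfin.isClosed
  have hC : IsPreconnected D' := isPreconnected_diff_finite hD hDc hfin
  have hloc := fun u₀ (h₀ : u₀ ∈ D') => lineCont_local F hF hO
    (fun u hu θ => hsep u θ hu.2) f (fun u hu => hf u hu.1 hu.2) hS h₀
  set P : Set ℂ := {u | ∀ θ, (fib F u).eval θ = 0 → f (u, θ) ∈ S} with hP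
  have hsub : D' ⊆ interior P := by
    refine hC.subset_of_closure_inter_subset isOpen_interior ?_ ?_
    · have hfin' : {s : ℝ | G.IsRoot (s : ℂ)}.Finite :=
        hfin.preimage Complex.ofReal_injective.injOn
      obtain ⟨s₀, hs₀, hs₀'⟩ := (Ioo_infinite hab).exists_notMem_finite hfin'
      have h₀ : (s₀ : ℂ) ∈ D' := ⟨(h s₀ hs₀).1, hs₀'⟩
      obtain ⟨ε, hε, hb, hk⟩ := hloc _ h₀
      refine ⟨s₀, h₀, mem_interior.2 ⟨_, ?_, Metric.isOpen_ball, Metric.mem_ball_self hε⟩⟩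
      have hδ : 0 < min ε (b - s₀) := lt_min hε (sub_pos.2 hs₀.2)
      refine hk s₀ (min ε (b - s₀) : ℝ) (Complex.ofReal_ne_zero.2 hδ.ne') fun s hs => ?_
      have h1 : s * min ε (b - s₀) < min ε (b - s₀) := by nlinarith [hs.2]
      have h2 : 0 < s * min ε (b - s₀) := mul_pos hs.1 hδ
      have h3 : (s₀ : ℂ) + s * (min ε (b - s₀) : ℝ) ∈ Metric.ball (s₀ : ℂ) ε := by
        rw [mem_ball_iff_norm, add_sub_cancel_left, ← Complex.ofReal_mul, Complex.norm_real,
          Real.norm_eq_abs, abs_of_pos h2]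
        exact h1.trans_le (min_le_left _ _)
      refine ⟨h3, ?_⟩
      have h4 := (hb h3).2
      rw [← Complex.ofReal_mul, ← Complex.ofReal_add] at h4 ⊢
      refine (h _ ⟨by linarith [hs₀.1], ?_⟩).2 h4
      linarith [min_le_right ε (b - s₀)]
    · rintro u₀ ⟨hu, h₀⟩
      obtain ⟨ε, hε, -, hk⟩ := hloc _ h₀
      obtain ⟨v, hv, hv'⟩ := mem_closure_iff.1 hu _ Metric.isOpen_ball (Metric.mem_ball_self hε)
      obtain ⟨δ, hδ, hb⟩ := Metric.isOpen_iff.1 (Metric.isOpen_ball.inter isOpen_interior) v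
        ⟨hv, hv'⟩
      refine mem_interior.2 ⟨_, ?_, Metric.isOpen_ball, Metric.mem_ball_self hε⟩
      refine hk v (δ : ℝ) (Complex.ofReal_ne_zero.2 hδ.ne') fun s hs => ?_
      have h3 : v + s * (δ : ℝ) ∈ Metric.ball v δ := by
        rw [mem_ball_iff_norm, add_sub_cancel_left, ← Complex.ofReal_mul, Complex.norm_real,
          Real.norm_eq_abs, abs_of_pos (mul_pos hs.1 hδ)]
        nlinarith [hs.2]
      exact ⟨(hb h3).1, interior_subset (hb h3).2⟩
  exact fun u hu hu' => interior_subset (hsub ⟨hu, hu'⟩)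

end Pool.Agent.GR
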