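import Pool.Agent.Lib.MP_aa40d3_nt.GR.Satd

/-! Local exponents of a saturated fundamental matrix. -/

open Polynomial Matrix

namespace Pool.Agent.GR

variable {k : Type*} [Field k] {n r : ℕ}

/-- Leading coefficients of solutions are eigenvectors: substitute `v = (X - C s) ^ m • u`,
cancel `(X - C s) ^ m` and evaluate at `s`. -/
theorem lead_eigen {s : k} {δ1 : k[X]} (hδ : δ1.eval s ≠ 0) {P : Matrix (Fin r) (Fin r) k[X]}
    {A : Matrix (Fin r) (Fin r) k} (hA : P.map (eval s) = δ1.eval s • A) {m : ℕ}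
    {u : Fin r → k[X]} (h : IsSol ((X - C s) * δ1) P ((X - C s) ^ m • u)) :
    A *ᵥ (fun a => (u a).eval s) = (m : k) • fun a => (u a).eval s := by
  funext a
  have h1 := congrFun h a
  have h0 : (X - C s : k[X]) ^ m ≠ 0 := pow_ne_zero _ (X_sub_C_ne_zero s)
  have h2 : (X - C s) * derivative ((X - C s : k[X]) ^ m) = C (m : k) * (X - C s) ^ m := by
    rcases m with _ | m
    · simp
    · rw [derivative_X_sub_C_pow, Nat.add_sub_cancel, pow_succ]
      ring
  rw [mulVec_smul] at h1
  simp only [Pi.smul_apply, smul_eq_mul, derivative_mul] at h1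
  have h3 : δ1 * (C (m : k) * u a + (X - C s) * derivative (u a)) = (P *ᵥ u) a := by
    refine mul_left_cancel₀ h0 ?_
    linear_combination h1 - δ1 * u a * h2
  have h4 := congrArg (eval s) h3
  have h5 : eval s ((P *ᵥ u) a) = δ1.eval s * (A *ᵥ fun a => (u a).eval s) a := by
    simp only [mulVec, dotProduct, eval_finsetSum, eval_mul, Finset.mul_sum]
    refine Finset.sum_congr rfl fun b _ => ?_
    have := congrFun (congrFun hA a) b
    simp only [map_apply, Matrix.smul_apply, smul_eq_mul] at this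
    rw [this, mul_assoc]
  rw [h5] at h4
  simp only [eval_mul, eval_add, eval_C, eval_sub, eval_X, sub_self, zero_mul, add_zero] at h4
  exact (mul_left_cancel₀ hδ h4).symm

/-- A constant change of basis together with orders of vanishing of the columns. -/
def locTri (s : k) (Φ : Matrix (Fin r) (Fin r) k[X]) (B : Matrix (Fin r) (Fin r) k)
    (e : Fin r → ℕ) (U : Matrix (Fin r) (Fin r) k[X]) : Prop :=
  B.det ≠ 0 ∧ ∀ a b, (Φ * B.map C) a b = (X - C s) ^ e b * U a b

theorem loc_lt (p : ℕ) [Fact p.Prime] [CharP k p] {s : k} {Φ : Matrix (Fin r) (Fin r) k[X]}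
    (hs : Satd p Φ) {B : Matrix (Fin r) (Fin r) k} {e : Fin r → ℕ}
    {U : Matrix (Fin r) (Fin r) k[X]} (h : locTri s Φ B e U) (b : Fin r) : e b < p := by
  by_contra hb
  obtain ⟨m, hm⟩ := Nat.exists_eq_add_of_le (not_lt.1 hb)
  have h1 := hs (X - C (s ^ p)) (fun a => C (B a b)) (X_sub_C_ne_zero _) fun a => by
    have h2 : (Φ *ᵥ fun a => expand k p (C (B a b))) a = (Φ * B.map C) a b := by
      simp [mulVec, dotProduct, mul_apply]
    have h3 : expand k p (X - C (s ^ p)) = (X - C s) ^ p := by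
      rw [sub_pow_char, map_sub, expand_X, expand_C, C_pow]
    rw [h2, h.2, h3, hm, pow_add, mul_assoc]
    exact dvd_mul_right _ _
  refine h.1 (det_eq_zero_of_column_eq_zero b fun a => ?_)
  have := dvd_iff_isRoot.1 (h1 a)
  simpa using this

theorem loc_eigen {s : k} {δ1 : k[X]} (hδ : δ1.eval s ≠ 0) {P Φ : Matrix (Fin r) (Fin r) k[X]}
    {A : Matrix (Fin r) (Fin r) k} (hA : P.map (eval s) = δ1.eval s • A)
    (h : ((X - C s) * δ1) • Φ.map derivative = P * Φ) {B : Matrix (Fin r) (Fin r) k}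
    {e : Fin r → ℕ} {U : Matrix (Fin r) (Fin r) k[X]} (ht : locTri s Φ B e U) :
    A * U.map (eval s) = U.map (eval s) * diagonal fun b => (e b : k) := by
  ext a b
  have h1 : IsSol ((X - C s) * δ1) P ((X - C s) ^ e b • fun a => U a b) := by
    have h2 : ((X - C s) ^ e b • fun a => U a b) = Φ *ᵥ fun a => C (B a b) := by
      funext a
      rw [Pi.smul_apply, smul_eq_mul, ← ht.2]
      simp [mulVec, dotProduct, mul_apply]
    rw [h2, IsSol, mulVec_mulVec, ← h, smul_mulVec]
    congr 1
    funext a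
    simp [mulVec, dotProduct]
  have h3 := congrFun (lead_eigen hδ hA h1) a
  rw [mul_diagonal, map_apply, mul_comm]
  simpa [mulVec, dotProduct, mul_apply] using h3

theorem loc_rel {A V : Matrix (Fin r) (Fin r) k} {d x : Fin r → k} (h : A * V = V * diagonal d)
    (hx : V *ᵥ x = 0) (T : Finset (Fin r)) : V *ᵥ (fun b => (∏ j ∈ T, (d b - d j)) * x b) = 0 := by
  induction T using Finset.induction_on with
  | empty => simpa using hx
  | insert j T hj ih =>
    have h1 : (fun b => (∏ i ∈ insert j T, (d b - d i)) * x b) =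
        diagonal d *ᵥ (fun b => (∏ i ∈ T, (d b - d i)) * x b) -
          d j • fun b => (∏ i ∈ T, (d b - d i)) * x b := by
      funext b
      rw [Finset.prod_insert hj, Pi.sub_apply, mulVec_diagonal, Pi.smul_apply, smul_eq_mul]
      ring
    rw [h1, mulVec_sub, mulVec_mulVec, ← h, ← mulVec_mulVec, mulVec_smul, ih]
    simp

theorem loc_step {s : k} {Φ : Matrix (Fin r) (Fin r) k[X]} {B : Matrix (Fin r) (Fin r) k}
    {e : Fin r → ℕ} {U : Matrix (Fin r) (Fin r) k[X]} (ht : locTri s Φ B e U) {z : Fin r → k}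
    {b₀ : Fin r} (h0 : z b₀ ≠ 0) (h1 : ∀ b, e b ≠ e b₀ → z b = 0) (hz : U.map (eval s) *ᵥ z = 0) :
    ∃ B' U', locTri s Φ B' (Function.update e b₀ (e b₀ + 1)) U' := by
  have h2 : ∀ a, (X - C s) ∣ ∑ b, C (z b) * U a b := fun a => by
    rw [dvd_iff_isRoot, IsRoot.def]
    have := congrFun hz a
    simpa [mulVec, dotProduct, eval_finsetSum, mul_comm] using this
  choose v hv using h2
  refine ⟨B.updateCol b₀ fun a => ∑ b, z b • B a b, U.updateCol b₀ v, ?_, fun a b => ?_⟩
  · rw [det_updateCol_sum]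
    exact mul_ne_zero h0 ht.1
  · by_cases hb : b = b₀
    · subst hb
      rw [Function.update_self, updateCol_self, pow_succ, mul_assoc, ← hv, Finset.mul_sum]
      have h3 : ∀ j, (X - C s) ^ e b * (C (z j) * U a j) = C (z j) * (Φ * B.map C) a j := by
        intro j
        by_cases hj : e j = e b
        · rw [ht.2, hj]
          ring
        · simp [h1 j hj]
      simp only [h3, mul_apply, map_apply, updateCol_self, smul_eq_mul, map_sum, map_mul,
        Finset.mul_sum]
      rw [Finset.sum_comm]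
      exact Finset.sum_congr rfl fun _ _ => Finset.sum_congr rfl fun _ _ => by ring
    · rw [Function.update_of_ne hb, updateCol_ne hb, ← ht.2]
      simp only [mul_apply, map_apply, updateCol_ne hb]

/-- For `c : Fin r → k` nonzero, `(X - C s) ^ p = expand p (X - C (s ^ p))` does not divide
`Φ *ᵥ C c` by `Satd`. Among the triples `(B, e, U)` with `B` an invertible constant matrix and
`(Φ * B.map C) a b = (X - C s) ^ e b * U a b` (so `e b < p`) choose one with `∑ e b` maximal.
Then no column of `U(s)` vanishes, the columns are eigenvectors of `A` with eigenvalues `e b`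
(`lead_eigen`). If `det U(s) = 0` take a relation `∑ x b • U(s) b = 0`; applying `∏ (A - e b')`
over the other values, the part of the relation with `e b = e b₀` (`x b₀ ≠ 0`) is again a
relation; replace column `b₀` of `B` by `∑_{e b = e b₀} x b • B b`: `e b₀` increases.
So `U(s)` is invertible, `A * U(s) = U(s) * diagonal e` and `det Φ * C (det B) = (X - C s) ^ ∑ e
* det U`. -/
theorem loc_exp (p : ℕ) [Fact p.Prime] [CharP k p] {s : k} {δ1 : k[X]} (hδ : δ1.eval s ≠ 0)
    {P Φ : Matrix (Fin r) (Fin r) k[X]} {A : Matrix (Fin r) (Fin r) k}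
    (hA : P.map (eval s) = δ1.eval s • A) (h : ((X - C s) * δ1) • Φ.map derivative = P * Φ)
    (hs : Satd p Φ) :
    ∃ e : Fin r → ℕ, (∀ b, e b < p) ∧ A.charpoly = ∏ b, (X - C (e b : k)) ∧
      ∃ u : k[X], Φ.det = (X - C s) ^ (∑ b, e b) * u ∧ u.eval s ≠ 0 := by
  classical
  let S : Set ℕ := {N | ∃ B e U, locTri s Φ B e U ∧ ∑ b, e b = N}
  have hne : S.Nonempty := ⟨0, 1, 0, Φ, ⟨by simp, fun a b => by simp⟩, by simp⟩
  have hbd : BddAbove S := ⟨∑ _b : Fin r, p, by
    rintro _ ⟨B, e, U, ht, rfl⟩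
    exact Finset.sum_le_sum fun b _ => (loc_lt p hs ht b).le⟩
  obtain ⟨B, e, U, ht, hN⟩ := Nat.sSup_mem hne hbd
  have hlt := loc_lt p hs ht
  have heig := loc_eigen hδ hA h ht
  have hU : (U.map (eval s)).det ≠ 0 := by
    intro h0
    obtain ⟨x, hx, hx0⟩ := exists_mulVec_eq_zero_iff.2 h0
    obtain ⟨b₀, hb₀⟩ := Function.ne_iff.1 hx
    obtain ⟨B', U', ht'⟩ := loc_step ht (b₀ := b₀)
      (z := fun b => (∏ j ∈ Finset.univ.filter fun j => e j ≠ e b₀, ((e b : k) - e j)) * x b)
      (mul_ne_zero (Finset.prod_ne_zero_iff.2 fun j hj => sub_ne_zero.2 fun h1 =>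
        (Finset.mem_filter.1 hj).2 (CharP.natCast_injOn_Iio k p (hlt j) (hlt b₀) h1.symm)) hb₀)
      (fun b hb => mul_eq_zero_of_left (Finset.prod_eq_zero
        (Finset.mem_filter.2 ⟨Finset.mem_univ b, hb⟩) (sub_self _)) _)
      (loc_rel heig hx0 (Finset.univ.filter fun j => e j ≠ e b₀))
    have h2 := le_csSup hbd ⟨B', _, U', ht', rfl⟩
    rw [← hN, Finset.sum_update_of_mem (Finset.mem_univ b₀),
      ← Finset.add_sum_erase _ _ (Finset.mem_univ b₀), Finset.sdiff_singleton_eq_erase] at h2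
    omega
  refine ⟨e, hlt, ?_, U.det * C B.det⁻¹, ?_, ?_⟩
  · obtain ⟨V, hV⟩ := (isUnit_iff_isUnit_det _).2 (Ne.isUnit hU)
    have h1 : A = V.val * diagonal (fun b => (e b : k)) * (V⁻¹).val := by
      rw [← hV] at heig
      rw [← heig, mul_assoc, Units.mul_inv, mul_one]
    rw [h1, ← charpoly_diagonal]
    simp
  · have h1 : Φ * B.map C = U * diagonal fun b => (X - C s) ^ e b := by
      ext1 a b
      rw [ht.2, mul_diagonal, mul_comm]
    have h2 := congrArg det h1
    rw [det_mul, det_mul, det_diagonal, Finset.prod_pow_eq_pow_sum,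
      show (B.map C).det = C B.det from (RingHom.map_det C B).symm] at h2
    have h3 : C B.det * C B.det⁻¹ = (1 : k[X]) := by rw [← C_mul, mul_inv_cancel₀ ht.1, C_1]
    linear_combination C B.det⁻¹ * h2 - Φ.det * h3
  · rw [eval_mul, eval_C]
    refine mul_ne_zero ?_ (inv_ne_zero ht.1)
    rw [show eval s U.det = (U.map (eval s)).det from RingHom.map_det (evalRingHom s) U]
    exact hU

end Pool.Agent.GR
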