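import Pool.Agent.Lib.MP_aa40d3_nt.GR.DefsA

/-! The ring of functions with an asymptotic expansion at `0`. -/

open Polynomial Filter Asymptotics Topology

namespace Pool.Agent.GR

/-- `s` is the asymptotic expansion of `f` at `0`, and `f` is holomorphic near `0`. -/
def Asy (f : ℂ → ℂ) (s : PowerSeries ℂ) : Prop :=
  (∀ᶠ z in 𝓝[≠] (0 : ℂ), DifferentiableAt ℂ f z) ∧
    ∀ K : ℕ, (fun z => f z - (PowerSeries.trunc K s).eval z) =O[𝓝[≠] 0] fun z : ℂ => z ^ K

theorem pairs_one (q : ℂ[X]) : (fun z => q.eval z) =O[𝓝[≠] (0 : ℂ)] fun _ : ℂ => (1 : ℂ) :=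
  ((q.continuous.tendsto 0).mono_left nhdsWithin_le_nhds).isBigO_one ℂ

theorem pairs_dvd (q : ℂ[X]) {K : ℕ} (h : X ^ K ∣ q) :
    (fun z => q.eval z) =O[𝓝[≠] (0 : ℂ)] fun z : ℂ => z ^ K := by
  obtain ⟨u, rfl⟩ := h
  have h := (isBigO_refl (fun z : ℂ => z ^ K) (𝓝[≠] (0 : ℂ))).mul (pairs_one u)
  simpa using h

theorem pairs_pow_one (K : ℕ) : (fun z : ℂ => z ^ K) =O[𝓝[≠] (0 : ℂ)] fun _ : ℂ => (1 : ℂ) := by
  simpa using pairs_one (X ^ K)

theorem pairs_lead {f : ℂ → ℂ} {c : ℂ} (hc : c ≠ 0) {m : ℕ}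
    (h : (fun z => f z - c * z ^ m) =O[𝓝[≠] (0 : ℂ)] fun z : ℂ => z ^ (m + 1)) :
    ∀ᶠ z in 𝓝[≠] (0 : ℂ), f z ≠ 0 := by
  obtain ⟨B, hB, hb⟩ := h.exists_pos
  have h1 : ∀ᶠ z in 𝓝[≠] (0 : ℂ), ‖z‖ < ‖c‖ / B := by
    refine Eventually.filter_mono nhdsWithin_le_nhds ?_
    have : Tendsto (fun z : ℂ => ‖z‖) (𝓝 0) (𝓝 0) := by
      simpa using (continuous_norm (E := ℂ)).tendsto 0
    exact this.eventually (gt_mem_nhds (div_pos (norm_pos_iff.2 hc) hB))
  filter_upwards [hb.bound, h1, self_mem_nhdsWithin] with z hz hz1 hz0 hf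
  have hz0' : 0 < ‖z‖ := norm_pos_iff.2 hz0
  rw [hf, zero_sub, norm_neg, norm_mul, norm_pow, norm_pow, pow_succ] at hz
  have hp : 0 < ‖z‖ ^ m := pow_pos hz0' m
  rw [lt_div_iff₀ hB] at hz1
  nlinarith

theorem Asy.poly (q : ℂ[X]) : Asy (fun z => q.eval z) (q : PowerSeries ℂ) := by
  refine ⟨Eventually.of_forall fun z => q.differentiableAt, fun K => ?_⟩
  have h : X ^ K ∣ q - PowerSeries.trunc K (q : PowerSeries ℂ) := by
    rw [Polynomial.X_pow_dvd_iff]
    intro d hd
    simp [PowerSeries.coeff_trunc, hd]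
  simpa using pairs_dvd _ h

theorem Asy.add {f g : ℂ → ℂ} {s u : PowerSeries ℂ} (hf : Asy f s) (hg : Asy g u) :
    Asy (f + g) (s + u) := by
  refine ⟨?_, fun K => ?_⟩
  · filter_upwards [hf.1, hg.1] with z h1 h2 using h1.add h2
  · refine ((hf.2 K).add (hg.2 K)).congr_left fun z => ?_
    simp only [map_add, eval_add, Pi.add_apply]
    ring

theorem Asy.neg {f : ℂ → ℂ} {s : PowerSeries ℂ} (hf : Asy f s) : Asy (-f) (-s) := by
  refine ⟨?_, fun K => ?_⟩
  · filter_upwards [hf.1] with z h1 using h1.neg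
  · refine (hf.2 K).neg_left.congr_left fun z => ?_
    simp only [map_neg, eval_neg, Pi.neg_apply]
    ring

/-- `f g - T_s T_u = (f - T_s) g + T_s (g - T_u)`, `g` is bounded (`K = 0`), and
`X ^ K` divides `T_s * T_u - trunc K (s * u)`. -/
theorem Asy.mul {f g : ℂ → ℂ} {s u : PowerSeries ℂ} (hf : Asy f s) (hg : Asy g u) :
    Asy (f * g) (s * u) := by
  refine ⟨?_, fun K => ?_⟩
  · filter_upwards [hf.1, hg.1] with z h1 h2 using h1.mul h2
  · have hg0 : g =O[𝓝[≠] (0 : ℂ)] fun _ : ℂ => (1 : ℂ) := by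
      simpa using hg.2 0
    have h1 := (hf.2 K).mul hg0
    have h2 := (pairs_one (PowerSeries.trunc K s)).mul (hg.2 K)
    have hd : X ^ K ∣ PowerSeries.trunc K s * PowerSeries.trunc K u -
        PowerSeries.trunc K (s * u) := by
      rw [Polynomial.X_pow_dvd_iff]
      intro d hd
      rw [coeff_sub, PowerSeries.coeff_trunc, if_pos hd,
        PowerSeries.coeff_mul_eq_coeff_trunc_mul_trunc s u hd, ← Polynomial.coe_mul,
        Polynomial.coeff_coe, sub_self]
    have h3 := pairs_dvd _ hd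
    simp only [mul_one, one_mul] at h1 h2
    refine ((h1.add h2).add h3).congr_left fun z => ?_
    simp only [eval_sub, eval_mul, Pi.mul_apply]
    ring

/-- Pairs of a function and its expansion. -/
noncomputable def PR : Subring ((ℂ → ℂ) × PowerSeries ℂ) where
  carrier := {q | Asy q.1 q.2}
  mul_mem' := fun ha hb => Asy.mul ha hb
  one_mem' := by
    have h := Asy.poly 1
    simp only [eval_one, Polynomial.coe_one] at h
    exact h
  add_mem' := fun ha hb => Asy.add ha hb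
  zero_mem' := by
    have h := Asy.poly 0
    simp only [eval_zero, Polynomial.coe_zero] at h
    exact h
  neg_mem' := fun ha => Asy.neg ha

/-- Value at `z`. -/
noncomputable def evz (z : ℂ) : PR →+* ℂ :=
  (Pi.evalRingHom (fun _ : ℂ => ℂ) z).comp ((RingHom.fst _ _).comp PR.subtype)

/-- The expansion. -/
noncomputable def ser : PR →+* PowerSeries ℂ := (RingHom.snd _ _).comp PR.subtype

/-- The pair of a polynomial. -/
noncomputable def prP : ℂ[X] →+* PR where
  toFun q := ⟨(fun z => q.eval z, (q : PowerSeries ℂ)), Asy.poly q⟩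
  map_one' := by ext <;> simp
  map_mul' a b := by ext <;> simp
  map_zero' := by ext <;> simp
  map_add' a b := by ext <;> simp

theorem evz_prP (z : ℂ) (q : ℂ[X]) : evz z (prP q) = q.eval z := rfl

theorem ser_prP (q : ℂ[X]) : ser (prP q) = (q : PowerSeries ℂ) := rfl

theorem evz_diff (x : PR) : ∀ᶠ z in 𝓝[≠] (0 : ℂ), DifferentiableAt ℂ (fun z => evz z x) z :=
  x.2.1

theorem isBigO_of_dvd (x : PR) {K : ℕ} (h : PowerSeries.X ^ K ∣ ser x) :
    (fun z => evz z x) =O[𝓝[≠] 0] fun z : ℂ => z ^ K := by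
  have h1 := x.2.2 K
  have h2 : PowerSeries.trunc K (ser x) = 0 := by
    ext d
    rw [PowerSeries.coeff_trunc]
    split_ifs with hd
    · exact PowerSeries.X_pow_dvd_iff.1 h d hd
    · rfl
  have h3 : PowerSeries.trunc K x.1.2 = 0 := h2
  rw [h3] at h1
  simp only [eval_zero, sub_zero] at h1
  exact h1

theorem pairs_ne (x : PR) (h : ser x ≠ 0) : ∀ᶠ z in 𝓝[≠] (0 : ℂ), evz z x ≠ 0 := by
  classical
  have hex : ∃ m, PowerSeries.coeff m (ser x) ≠ 0 := by
    by_contra h1
    push Not at h1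
    exact h (PowerSeries.ext fun m => by simpa using h1 m)
  have hm := Nat.find_spec hex
  have hlt : ∀ d < Nat.find hex, PowerSeries.coeff d (ser x) = 0 := fun d hd => by
    simpa using Nat.find_min hex hd
  generalize Nat.find hex = m at hm hlt
  have h2 : PowerSeries.trunc (m + 1) (ser x) = monomial m (PowerSeries.coeff m (ser x)) := by
    have h3 : PowerSeries.trunc m (ser x) = 0 := by
      ext d
      rw [PowerSeries.coeff_trunc]
      split_ifs with hd
      · exact hlt d hd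
      · rfl
    rw [PowerSeries.trunc_succ, h3, zero_add]
  have h1 := x.2.2 (m + 1)
  have h3 : PowerSeries.trunc (m + 1) x.1.2 = monomial m (PowerSeries.coeff m (ser x)) := h2
  rw [h3] at h1
  refine pairs_lead (f := fun z => evz z x) hm (m := m) ?_
  simp only [eval_monomial] at h1
  exact h1

/-- If `ser x ≠ 0` has order `m`, the case `K = m + 1` gives `c z ^ m = O (z ^ (m + 1))`. -/
theorem ser_eq_zero (x : PR) (h : ∀ᶠ z in 𝓝[≠] (0 : ℂ), evz z x = 0) : ser x = 0 := by
  by_contra h0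
  obtain ⟨z, h1, h2⟩ := (h.and (pairs_ne x h0)).exists
  exact h2 h1

/-- If `ser x ≠ 0` has order `m`, then `evz z x = c z ^ m + O (z ^ (m + 1))`. -/
theorem evz_ne_zero (x : PR) (h : ser x ≠ 0) : ∀ᶠ z in 𝓝[≠] (0 : ℂ), evz z x ≠ 0 := by
  exact pairs_ne x h

/-- `HasFPowerSeriesAt.isBigO_sub_part... (Taylor estimate in Analytic.Basic)`. -/
theorem exists_pair {f : ℂ → ℂ} (hf : AnalyticAt ℂ f 0) : ∃ x : PR, ∀ z, evz z x = f z := by
  refine ⟨⟨(f, PowerSeries.mk fun i => iteratedDeriv i f 0 / i.factorial), ?_, fun K => ?_⟩,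
    fun z => rfl⟩
  · refine Eventually.filter_mono nhdsWithin_le_nhds ?_
    filter_upwards [hf.eventually_analyticAt] with z hz using hz.differentiableAt
  · obtain ⟨F, hF, hE⟩ := hf.exists_eq_sum_add_pow_mul K
    have h1 : F =O[𝓝[≠] (0 : ℂ)] fun _ : ℂ => (1 : ℂ) :=
      (hF.continuousAt.tendsto.mono_left nhdsWithin_le_nhds).isBigO_one ℂ
    have h2 := (isBigO_refl (fun z : ℂ => z ^ K) (𝓝[≠] (0 : ℂ))).mul h1
    simp only [mul_one] at h2
    refine h2.congr_left fun z => ?_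
    have h3 : (PowerSeries.trunc K (PowerSeries.mk fun i =>
        iteratedDeriv i f 0 / i.factorial)).eval z =
        ∑ i ∈ Finset.range K, (z ^ i / i.factorial) • iteratedDeriv i f 0 := by
      rw [PowerSeries.trunc_apply, eval_finsetSum, Finset.range_eq_Ico]
      refine Finset.sum_congr rfl fun i _ => ?_
      simp only [PowerSeries.coeff_mk, eval_monomial, smul_eq_mul]
      ring
    show z ^ K * F z = f z - _
    rw [h3, hE z, smul_eq_mul]
    ring

/-- Truncate each coefficient. -/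
theorem exists_pair_approx (P : (PowerSeries ℂ)[X]) (K : ℕ) :
    ∃ P' : PR[X], C (PowerSeries.X ^ K) ∣ P'.map ser - P := by
  induction P using Polynomial.induction_on' with
  | add p q hp hq =>
    obtain ⟨p', hp'⟩ := hp
    obtain ⟨q', hq'⟩ := hq
    refine ⟨p' + q', ?_⟩
    have h := dvd_add hp' hq'
    rw [Polynomial.map_add]
    convert h using 1
    ring
  | monomial m a =>
    refine ⟨monomial m (prP (PowerSeries.trunc K a)), ?_⟩
    have h : PowerSeries.X ^ K ∣ ((PowerSeries.trunc K a : ℂ[X]) : PowerSeries ℂ) - a := by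
      rw [PowerSeries.X_pow_dvd_iff]
      intro d hd
      simp [PowerSeries.coeff_trunc, hd]
    obtain ⟨b, hb⟩ := h
    refine ⟨monomial m b, ?_⟩
    rw [Polynomial.map_monomial, ser_prP, ← map_sub, hb, C_mul_monomial]

/-- Removable singularity, then an analytic function of infinite order vanishes. -/
theorem flat_zero {E : Type*} [NormedAddCommGroup E] [NormedSpace ℂ E] [CompleteSpace E]
    {f : ℂ → E} (hd : ∀ᶠ z in 𝓝[≠] (0 : ℂ), DifferentiableAt ℂ f z)
    (h : ∀ K : ℕ, f =O[𝓝[≠] 0] fun z : ℂ => z ^ K) : ∀ᶠ z in 𝓝[≠] (0 : ℂ), f z = 0 := by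
  classical
  have ht : Tendsto f (𝓝[≠] 0) (𝓝 0) := by
    refine (h 1).trans_tendsto ?_
    have : Tendsto (fun z : ℂ => z ^ 1) (𝓝 0) (𝓝 (0 ^ 1)) := (continuous_pow 1).tendsto 0
    simpa using this.mono_left nhdsWithin_le_nhds
  have hfg : ∀ᶠ z in 𝓝[≠] (0 : ℂ), Function.update f 0 0 z = f z := by
    filter_upwards [self_mem_nhdsWithin] with z hz
    exact Function.update_of_ne hz _ _
  have hga : AnalyticAt ℂ (Function.update f 0 0) 0 := by
    refine Complex.analyticAt_of_differentiable_on_punctured_nhds_of_continuousAt ?_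
      (continuousAt_update_same.2 ht)
    filter_upwards [hd, self_mem_nhdsWithin] with z hz hz0
    refine hz.congr_of_eventuallyEq ?_
    filter_upwards [isOpen_ne.mem_nhds hz0] with y hy
    exact Function.update_of_ne hy _ _
  by_cases h0 : ∀ᶠ z in 𝓝 (0 : ℂ), Function.update f 0 0 z = 0
  · filter_upwards [hfg, h0.filter_mono nhdsWithin_le_nhds] with z h1 h2
    rw [← h1, h2]
  · exfalso
    obtain ⟨m, G, hG, hG0, hE⟩ := hga.exists_eventuallyEq_pow_smul_nonzero_iff.2 h0
    obtain ⟨B, hb⟩ := (h (m + 1)).bound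
    have hO : G =O[𝓝[≠] (0 : ℂ)] fun z : ℂ => z := by
      refine IsBigO.of_bound B ?_
      filter_upwards [hb, hfg, hE.filter_mono nhdsWithin_le_nhds, self_mem_nhdsWithin] with
        z h1 h2 h3 hz
      have hp : 0 < ‖z‖ ^ m := pow_pos (norm_pos_iff.2 hz) m
      rw [← h2, h3, sub_zero, norm_smul, norm_pow, norm_pow, pow_succ] at h1
      refine le_of_mul_le_mul_left ?_ hp
      linarith
    have h1 : Tendsto G (𝓝[≠] 0) (𝓝 0) :=
      hO.trans_tendsto (tendsto_id.mono_left nhdsWithin_le_nhds)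
    have h2 : Tendsto G (𝓝[≠] 0) (𝓝 (G 0)) :=
      hG.continuousAt.tendsto.mono_left nhdsWithin_le_nhds
    exact hG0 (tendsto_nhds_unique h2 h1)

end Pool.Agent.GR
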