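import Pool.Agent.Lib.MP_aa40d3_nt.GR.MatAn
import Pool.Agent.Lib.MP_aa40d3_nt.GR.Pairs
import Pool.Agent.Lib.MP_aa40d3_nt.GR.CP

/-! Gauge transformations along one side of the loop. -/

open Polynomial Matrix Set Filter Asymptotics Topology
open scoped Matrix.Norms.Operator

namespace Pool.Agent.GR

variable {n r : ℕ}

/-- `b` is the coefficient obtained from the companion system of `(H, N)` by the gauge `g`. -/
def SideOK (H : ℂ[X]) (N : Fin r → ℂ[X]) (g : Matrix (Fin r) (Fin r) ℂ[X]) (ya yb : ℂ)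
    (b : CI (Mat r)) : Prop :=
  ∀ s, H.eval (lin ya yb s) ≠ 0 ∧ (g.map (eval (lin ya yb s))).det ≠ 0 ∧
    H.eval (lin ya yb s) • ((yb - ya) • (g.map derivative).map (eval (lin ya yb s)) +
      g.map (eval (lin ya yb s)) * b s) =
    ((yb - ya) / lin ya yb s) • ((cmp H N).map (eval (lin ya yb s)) * g.map (eval (lin ya yb s)))

/-- The total gauge from the system to the normal form. -/
noncomputable def gaugeW [NeZero r] (t : Fin n → ℂ) (G : ℂ) (Q : Fin n → Mat r) (c : ℂ)
    (g : Matrix (Fin r) (Fin r) ℂ[X]) (y : ℂ) : Mat r :=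
  (g.map (eval y))⁻¹ * (((C G * dl t).eval (c * y) ^ r)⁻¹ •
    (cycM X (C G * dl t) (pm t Q)).map (eval (c * y)))

theorem loopa_gauge (a b : CI (Mat r)) (U U' : ℂ → Mat r) (ya yb : ℂ)
    (hU : ∀ s, HasDerivAt U (U' (lin ya yb s)) (lin ya yb s))
    (h : ∀ s, (yb - ya) • U' (lin ya yb s) + U (lin ya yb s) * a s = b s * U (lin ya yb s)) :
    U yb * Tr a = Tr b * U ya := by
  have h1 := Tr_gauge a b (fun s : ℝ => U (ya + s * (yb - ya)))
    (fun s : ℝ => (yb - ya) • U' (ya + s * (yb - ya))) (fun s hs => ?_) (fun s hs => ?_)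
  · simpa using h1
  · have h2 : HasDerivAt (fun s : ℝ => ya + (s : ℂ) * (yb - ya)) (yb - ya) s := by
      simpa using ((Complex.ofRealCLM.hasDerivAt (x := s)).mul_const (yb - ya)).const_add ya
    exact HasDerivAt.scomp s (hU ⟨s, hs⟩) h2
  · unfold ext
    rw [projIcc_of_mem zero_le_one hs]
    exact h ⟨s, hs⟩

theorem loopa_sys {t : Fin n → ℂ} {G : ℂ} (hG : G ≠ 0) (Q : Fin n → Mat r) {x : ℂ}
    (hx : ∀ i, x - t i ≠ 0) : (C G * dl t).eval x ≠ 0 ∧
      sys t (fun i => G⁻¹ • Q i) x = ((C G * dl t).eval x)⁻¹ • (pm t Q).map (eval x) := by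
  have h1 : (C G * dl t).eval x = G * ∏ i, (x - t i) := by
    simp [dl, eval_prod]
  have h2 : ∏ i, (x - t i) ≠ 0 := Finset.prod_ne_zero_iff.2 fun i _ => hx i
  refine ⟨h1 ▸ mul_ne_zero hG h2, ?_⟩
  ext a b
  simp only [sys, pm, h1, Matrix.sum_apply, Matrix.smul_apply, Matrix.map_apply, smul_eq_mul,
    eval_finsetSum, eval_mul, eval_prod, eval_sub, eval_X, eval_C, Finset.mul_sum]
  refine Finset.sum_congr rfl fun i _ => ?_
  have h3 : ∏ j ∈ Finset.univ.erase i, (x - t j) ≠ 0 :=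
    Finset.prod_ne_zero_iff.2 fun j _ => hx j
  have h4 := hx i
  rw [← Finset.mul_prod_erase _ _ (Finset.mem_univ i)]
  field_simp

theorem loopa_cmp (c y : ℂ) (H : ℂ[X]) (N : Fin r → ℂ[X]) :
    (cmp (sc c H) fun k => sc c (N k)).map (eval y) = (cmp H N).map (eval (c * y)) := by
  ext a b
  simp only [cmp, Matrix.map_apply, Matrix.of_apply]
  split_ifs <;> simp [sc, eval_comp]

theorem loopa_eval [NeZero r] (δ : ℂ[X]) (P : Matrix (Fin r) (Fin r) ℂ[X]) (x : ℂ) :
    (cycH X δ P).eval x • (x • (δ.eval x • ((cycM X δ P).map derivative).map (eval x) -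
        ((r : ℂ) * (derivative δ).eval x) • (cycM X δ P).map (eval x) +
        (cycM X δ P).map (eval x) * P.map (eval x))) =
      δ.eval x • ((cmp (cycH X δ P) (cycN X δ P)).map (eval x) * (cycM X δ P).map (eval x)) := by
  ext a b
  have h := congrArg (eval x) (congrFun (congrFun (cyc_gauge X δ P) a) b)
  simpa only [Matrix.smul_apply, Matrix.add_apply, Matrix.sub_apply, Matrix.mul_apply,
    Matrix.map_apply, smul_eq_mul, eval_mul, eval_add, eval_sub, eval_finsetSum, eval_X,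
    eval_natCast] using h

/-- Let `δ = C G * dl t`, `M = cycM X δ (pm t Q)`, `U x = (δ(x) ^ r)⁻¹ • M(x)` and let
`γ s = ((yb - ya) / y) • H(y)⁻¹ • cmp(y)` at `y = lin ya yb s` (a continuous map). Since
`sys t A x = δ(x)⁻¹ • (pm t Q)(x)`, evaluating `cyc_gauge` at `x = c * y` gives
`x • U' + x • U * sys = H⁻¹ • cmp * U`, so `Tr_gauge` yields `U (c yb) * T = Tr γ * U (c ya)`;
`SideOK` and `Tr_gauge` yield `g(yb) * Tr b = Tr γ * g(ya)`. Also `det M(c y) = H(y) ≠ 0`. -/
theorem side_gauge [NeZero r] {t : Fin n → ℂ} {G : ℂ} (hG : G ≠ 0) (Q : Fin n → Mat r) {c : ℂ}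
    (hc : c ≠ 0) {ya yb : ℂ} (ht : ∀ i, t i ∉ segment ℝ (c * ya) (c * yb))
    (h0 : ∀ s, lin ya yb s ≠ 0) {g : Matrix (Fin r) (Fin r) ℂ[X]} {b : CI (Mat r)}
    (hb : SideOK (sc c (HF t G Q)) (fun k => sc c (NF t G Q k)) g ya yb b) :
    gaugeW t G Q c g yb * T t (fun i => G⁻¹ • Q i) (c * ya) (c * yb) =
      Tr b * gaugeW t G Q c g ya ∧ (gaugeW t G Q c g ya).det ≠ 0 := by
  set δ : ℂ[X] := C G * dl t with hδ
  set M : Matrix (Fin r) (Fin r) ℂ[X] := cycM X δ (pm t Q) with hM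
  have hH : ∀ y, (sc c (HF t G Q)).eval y = (cycH X δ (pm t Q)).eval (c * y) := fun y => by
    simp [sc, eval_comp, HF, hδ]
  have hl : ∀ s, lin (c * ya) (c * yb) s = c * lin ya yb s := fun s => by
    show c * ya + (s : ℝ) * (c * yb - c * ya) = c * (ya + (s : ℝ) * (yb - ya))
    ring
  have hx : ∀ s i, c * lin ya yb s - t i ≠ 0 := by
    intro s i h
    apply ht i
    rw [← sub_eq_zero.1 h, segment_eq_image']
    refine ⟨s, s.2, ?_⟩
    show c * ya + (s : ℝ) • (c * yb - c * ya) = c * (ya + (s : ℝ) * (yb - ya))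
    rw [Complex.real_smul]
    ring
  have hcont : Continuous fun s : unitInterval =>
      ((yb - ya) / lin ya yb s * ((sc c (HF t G Q)).eval (lin ya yb s))⁻¹) •
        ((cmp (sc c (HF t G Q)) fun k => sc c (NF t G Q k)).map (eval (lin ya yb s)) : Mat r) := by
    refine Continuous.smul (Continuous.mul (continuous_const.div (lin ya yb).continuous h0)
      (Continuous.inv₀ ((Polynomial.continuous _).comp (lin ya yb).continuous)
        fun s => (hb s).1)) ?_
    exact (continuous_iff_continuousAt.2 fun y =>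
      (hasDerivAt_polyMat _ y).continuousAt).comp (lin ya yb).continuous
  let γ : CI (Mat r) := ⟨_, hcont⟩
  have hγ : ∀ s, γ s = ((yb - ya) / lin ya yb s * ((sc c (HF t G Q)).eval (lin ya yb s))⁻¹) •
      ((cmp (sc c (HF t G Q)) fun k => sc c (NF t G Q k)).map (eval (lin ya yb s)) : Mat r) :=
    fun _ => rfl
  have e1 : (g.map (eval yb) : Mat r) * Tr b = Tr γ * g.map (eval ya) := by
    refine loopa_gauge b γ (fun y => g.map (eval y)) (fun y => (g.map derivative).map (eval y))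
      ya yb (fun s => hasDerivAt_polyMat g _) fun s => ?_
    obtain ⟨h1, -, h2⟩ := hb s
    rw [hγ, smul_mul_assoc, mul_comm, mul_smul, ← h2, smul_smul, inv_mul_cancel₀ h1, one_smul]
  have e2 : (((δ.eval (c * yb) ^ r)⁻¹ • M.map (eval (c * yb)) : Mat r)) *
      T t (fun i => G⁻¹ • Q i) (c * ya) (c * yb) =
      Tr γ * ((δ.eval (c * ya) ^ r)⁻¹ • M.map (eval (c * ya))) := by
    refine loopa_gauge _ γ (fun y => (δ.eval (c * y) ^ r)⁻¹ • M.map (eval (c * y)))
      (fun y => c • ((δ.eval (c * y) ^ r)⁻¹ • (M.map derivative).map (eval (c * y)) +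
        (-((r : ℂ) * δ.eval (c * y) ^ (r - 1) * (derivative δ).eval (c * y)) /
          (δ.eval (c * y) ^ r) ^ 2) • M.map (eval (c * y)))) ya yb (fun s => ?_) fun s => ?_
    · have h1 := (((δ.hasDerivAt (c * lin ya yb s)).pow r).inv
        (pow_ne_zero r (loopa_sys hG Q (hx s)).1)).smul (hasDerivAt_polyMat M _)
      have h2 : HasDerivAt (fun y : ℂ => c * y) c (lin ya yb s) := by
        simpa using (hasDerivAt_id (lin ya yb s)).const_mul c
      exact HasDerivAt.scomp (lin ya yb s) h1 h2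
    · obtain ⟨h1, h2⟩ := loopa_sys hG Q (hx s)
      have h3 := (hb s).1
      have h4 := h0 s
      have h5 := loopa_eval δ (pm t Q) (c * lin ya yb s)
      rw [hγ, coef_apply _ ht, hl, h2, loopa_cmp, hH]
      rw [hH] at h3
      change _ = _ • (cmp (cycH X δ (pm t Q)) (cycN X δ (pm t Q))).map (eval (c * lin ya yb s)) * _
      rw [← hδ] at h1 ⊢
      rw [← hM] at h5
      generalize lin ya yb s = y at *
      generalize (cycH X δ (pm t Q)).eval (c * y) = H0 at *
      generalize (derivative δ).eval (c * y) = d1 at *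
      generalize δ.eval (c * y) = d0 at *
      generalize (M.map derivative).map (eval (c * y)) = M1 at *
      generalize M.map (eval (c * y)) = M0 at *
      generalize (pm t Q).map (eval (c * y)) = P0 at *
      generalize (cmp (cycH X δ (pm t Q)) (cycN X δ (pm t Q))).map (eval (c * y)) = C0 at *
      have h6 : C0 * M0 = (d0⁻¹ * H0 * (c * y)) • (d0 • M1 - ((r : ℂ) * d1) • M0 + M0 * P0) := by
        rw [mul_smul, mul_smul, h5, smul_smul, inv_mul_cancel₀ h1, one_smul]
      have h7 : d0 ^ r = d0 ^ (r - 1) * d0 := (pow_sub_one_mul (NeZero.ne r) d0).symm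
      have h8 : d0 ^ (r - 1) ≠ 0 := pow_ne_zero _ h1
      simp only [smul_mul_assoc, mul_smul_comm]
      rw [h6, h7]
      generalize d0 ^ (r - 1) = p at *
      match_scalars <;> field_simp
  have l0 : lin ya yb 0 = ya := by
    show ya + ((0 : ℝ) : ℂ) * (yb - ya) = ya
    simp
  have l1 : lin ya yb 1 = yb := by
    show ya + ((1 : ℝ) : ℂ) * (yb - ya) = yb
    simp
  have ua : IsUnit (g.map (eval ya)).det := (l0 ▸ (hb 0).2.1 : (g.map (eval ya)).det ≠ 0).isUnit
  have ub : IsUnit (g.map (eval yb)).det := (l1 ▸ (hb 1).2.1 : (g.map (eval yb)).det ≠ 0).isUnit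
  refine ⟨?_, ?_⟩
  · unfold gaugeW
    rw [← hδ, ← hM, Matrix.mul_assoc, e2, ← Matrix.mul_assoc, ← Matrix.mul_assoc,
      ← Matrix.mul_nonsing_inv_cancel_right _ (Tr γ) ua, ← e1, Matrix.mul_assoc (g.map (eval yb)),
      Matrix.nonsing_inv_mul_cancel_left _ _ ub]
  · unfold gaugeW
    rw [← hδ, ← hM, det_mul, det_smul]
    refine mul_ne_zero (Matrix.isUnit_nonsing_inv_det _ ua).ne_zero (mul_ne_zero
      (pow_ne_zero _ (inv_ne_zero (pow_ne_zero _ (l0 ▸ (loopa_sys hG Q (hx 0)).1)))) ?_)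
    have h1 := (hb 0).1
    rw [l0, hH] at h1
    have h2 := RingHom.map_det (evalRingHom (c * ya)) M
    rw [RingHom.mapMatrix_apply, coe_evalRingHom] at h2
    rw [← h2]
    exact h1

end Pool.Agent.GR
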