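import Pool.Agent.Lib.MP_aa40d3_nt.GR.LoopA

/-! Asymptotics of the gauge transformed coefficient. -/

open Polynomial Matrix Set Filter Asymptotics Topology
open scoped Matrix.Norms.Operator

namespace Pool.Agent.GR

variable {n r : ℕ}

/-- Evaluation of a polynomial over pairs along a segment. -/
noncomputable def evSide (P : PR[X]) (ya yb z : ℂ) : C(unitInterval, ℂ) :=
  ⟨fun s => (P.map (evz z)).eval (lin ya yb s), by fun_prop⟩

theorem loopb_evSide_apply (P : PR[X]) (ya yb z : ℂ) (s : unitInterval) :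
    evSide P ya yb z s = (P.map (evz z)).eval (lin ya yb s) := rfl

/-- A finite sum of terms `evz z (coeff j) • lin ^ j`; use `isBigO_of_dvd`. -/
theorem evSide_isBigO {P : PR[X]} {K : ℕ} (h : C (PowerSeries.X ^ K) ∣ P.map ser) (ya yb : ℂ) :
    evSide P ya yb =O[𝓝[≠] 0] fun z : ℂ => z ^ K := by
  have e : evSide P ya yb = fun z =>
      ∑ j ∈ Finset.range (P.natDegree + 1), evz z (P.coeff j) • (lin ya yb) ^ j := by
    funext z
    ext s
    rw [loopb_evSide_apply, eval_map, eval₂_eq_sum_range]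
    simp
  rw [e]
  refine IsBigO.fun_sum fun j _ => ?_
  have hj : PowerSeries.X ^ K ∣ ser (P.coeff j) := by
    have := (C_dvd_iff_dvd_coeff _ _).1 h j
    rwa [coeff_map] at this
  have h1 := (isBigO_of_dvd _ hj).smul
    (isBigO_const_const ((lin ya yb) ^ j) (one_ne_zero (α := ℂ)) (𝓝[≠] (0 : ℂ)))
  simpa using h1

/-- Evaluation of a matrix of polynomials over pairs along a segment. -/
noncomputable def loopbM (g : Matrix (Fin r) (Fin r) PR[X]) (ya yb z : ℂ) : CI (Mat r) :=
  ⟨fun s => ((g.map (Polynomial.map (evz z))).map (eval (lin ya yb s)) : Mat r),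
    continuous_matrix fun a b => (evSide (g a b) ya yb z).continuous⟩

theorem loopbM_apply (g : Matrix (Fin r) (Fin r) PR[X]) (ya yb z : ℂ) (s : unitInterval) :
    loopbM g ya yb z s = (g.map (Polynomial.map (evz z))).map (eval (lin ya yb s)) := rfl

theorem loopb_norm_le (A : Mat r) : ‖A‖ ≤ ∑ a, ∑ b, ‖A a b‖ := by
  rw [Matrix.linfty_opNorm_def]
  have h : (Finset.univ.sup fun i => ∑ j, ‖A i j‖₊) ≤ ∑ a, ∑ b, ‖A a b‖₊ :=
    Finset.sup_le fun i _ => Finset.single_le_sum (f := fun a => ∑ b, ‖A a b‖₊)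
      (fun _ _ => bot_le) (Finset.mem_univ i)
  have h2 := NNReal.coe_le_coe.2 h
  simpa using h2

theorem loopbM_isBigO {g : Matrix (Fin r) (Fin r) PR[X]} {K : ℕ}
    (h : ∀ a b, C (PowerSeries.X ^ K) ∣ (g a b).map ser) (ya yb : ℂ) :
    loopbM g ya yb =O[𝓝[≠] 0] fun z : ℂ => z ^ K := by
  have h1 : (fun z => ∑ a, ∑ b, ‖evSide (g a b) ya yb z‖) =O[𝓝[≠] 0] fun z : ℂ => z ^ K :=
    IsBigO.fun_sum fun a _ => IsBigO.fun_sum fun b _ =>
      (evSide_isBigO (h a b) ya yb).norm_left
  refine IsBigO.trans (IsBigO.of_norm_le fun z => ?_) h1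
  refine (ContinuousMap.norm_le _ (by positivity)).2 fun s => ?_
  refine (loopb_norm_le _).trans ?_
  refine Finset.sum_le_sum fun a _ => Finset.sum_le_sum fun b _ => ?_
  exact (evSide (g a b) ya yb z).norm_coe_le_norm s

theorem loopb_dvd_of_red {P : (PowerSeries ℂ)[X]} (h : red P = 0) :
    C (PowerSeries.X : PowerSeries ℂ) ∣ P := by
  refine (C_dvd_iff_dvd_coeff _ _).2 fun j => ?_
  rw [PowerSeries.X_dvd_iff]
  have := congrArg (fun q => q.coeff j) h
  simpa [red, coeff_map] using this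

theorem loopb_cmp_map {R S : Type*} [CommRing R] [CommRing S] (φ : R[X] →+* S[X]) (H : R[X])
    (N : Fin r → R[X]) : (cmp H N).map φ = cmp (φ H) fun k => φ (N k) := by
  ext1 a b
  simp only [cmp, map_apply, of_apply]
  split_ifs <;> simp

/-- The error term at the level of pairs. -/
noncomputable def loopbE (H : PR[X]) (N : Fin r → PR[X]) (γ : Fin r → ℂ)
    (g : Matrix (Fin r) (Fin r) PR[X]) : Matrix (Fin r) (Fin r) PR[X] :=
  H • (g.map th + g * diagonal fun j => C (prP (C (γ j)))) - cmp H N * g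

theorem loopbE_map {S : Type*} [CommRing S] (φ : PR →+* S) (H : PR[X]) (N : Fin r → PR[X])
    (γ : Fin r → ℂ) (g : Matrix (Fin r) (Fin r) PR[X]) :
    (loopbE H N γ g).map (Polynomial.map φ) =
      H.map φ • ((g.map (Polynomial.map φ)).map th +
        g.map (Polynomial.map φ) * diagonal fun j => C (φ (prP (C (γ j))))) -
      cmp (H.map φ) (fun k => (N k).map φ) * g.map (Polynomial.map φ) := by
  have hc := loopb_cmp_map (mapRingHom φ) H N
  simp only [coe_mapRingHom] at hc
  rw [← hc]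
  ext1 a b
  simp [loopbE, th, Matrix.mul_apply, Polynomial.map_sum, diagonal_apply, Polynomial.map_mul,
    Polynomial.map_sub, Polynomial.map_add]

theorem loopbE_ser (H : PR[X]) (N : Fin r → PR[X]) (γ : Fin r → ℂ)
    (g : Matrix (Fin r) (Fin r) PR[X]) :
    (loopbE H N γ g).map (Polynomial.map ser) =
      nfErr (H.map ser) (fun k => (N k).map ser) γ (g.map (Polynomial.map ser)) := by
  rw [loopbE_map, nfErr]
  simp [ser_prP]

theorem loopbE_ev (H : PR[X]) (N : Fin r → PR[X]) (γ : Fin r → ℂ)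
    (g : Matrix (Fin r) (Fin r) PR[X]) (z y : ℂ) :
    ((loopbE H N γ g).map (Polynomial.map (evz z))).map (eval y) =
      (H.map (evz z)).eval y •
        (y • ((g.map (Polynomial.map (evz z))).map derivative).map (eval y) +
          (g.map (Polynomial.map (evz z))).map (eval y) * diagonal γ) -
      (cmp (H.map (evz z)) fun k => (N k).map (evz z)).map (eval y) *
        (g.map (Polynomial.map (evz z))).map (eval y) := by
  rw [loopbE_map]
  ext1 a b
  simp [th, Matrix.mul_apply, eval_finsetSum, diagonal_apply, evz_prP]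

theorem loopb_abs {𝔸 : Type} [NormedRing 𝔸] [NormedAlgebra ℂ 𝔸] [CompleteSpace 𝔸]
    {l : Filter ℂ} {f : ℂ → ℂ} {U W : ℂ → CI 𝔸} {U0 U1 : CI 𝔸} (h01 : U0 * U1 = 1)
    (h10 : U1 * U0 = 1) (hU : Tendsto U l (𝓝 U0)) (hW : W =O[l] f) (c0 : CI 𝔸) :
    ∃ b : ℂ → CI 𝔸, (fun z => b z - c0) =O[l] f ∧
      ∀ᶠ z in l, ∀ s, ∃ J : 𝔸, U z s * J = 1 ∧ b z s = c0 s - J * W z s := by
  let u0 : (CI 𝔸)ˣ := ⟨U0, U1, h01, h10⟩
  have hunit : ∀ᶠ z in l, IsUnit (U z) := hU.eventually (Units.isOpen.mem_nhds u0.isUnit)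
  have hinv : (fun z => Ring.inverse (U z)) =O[l] fun _ : ℂ => (1 : ℂ) :=
    ((NormedRing.inverse_continuousAt u0).tendsto.comp hU).isBigO_one ℂ
  refine ⟨fun z => c0 - Ring.inverse (U z) * W z, ?_, ?_⟩
  · refine (hinv.mul hW).neg_left.congr (fun z => ?_) fun z => one_mul _
    exact (sub_sub_cancel_left _ _).symm
  · filter_upwards [hunit] with z hu s
    exact ⟨Ring.inverse (U z) s, congrArg (fun f : CI 𝔸 => f s) (Ring.mul_inverse_cancel _ hu), rfl⟩

/-- In the Banach algebras `C(unitInterval, ℂ)` and `CI (Mat r)`: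
`h z = (z ^ v)⁻¹ • evSide H` tends to the unit `c • lin ^ j0`, `gz z` (the values of `g`) tends to
the unit `lin ^ M • V` (compare with the constant pairs `prP (C _)`), and the values `E z` of the
error term are `O (z ^ (v + K))`. Put
`b z = coef - inverse (gz z) * (inverse (h z) * ((yb - ya) • inverse lin)) • (z ^ v)⁻¹ • E z`;
`Ring.inverse` is continuous at units (`NormedRing.inverse_continuousAt`), units form an open set,
and `coef ![0] ![B] ya yb s = ((yb - ya) / y) • B` by `coef_apply`. -/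
theorem side_asy [NeZero r] {H : PR[X]} {N : Fin r → PR[X]} {γ : Fin r → ℂ} {v j0 K M : ℕ} {c : ℂ}
    (hc : c ≠ 0) {V : Mat r} (hV : V.det ≠ 0) {g : Matrix (Fin r) (Fin r) PR[X]}
    (hH : C (PowerSeries.X ^ (v + 1)) ∣
      H.map ser - C (PowerSeries.X ^ v * PowerSeries.C c) * X ^ j0)
    (hg : (g.map (Polynomial.map ser)).map red = (X ^ M : ℂ[X]) • V.map C)
    (hE : ∀ a b, C (PowerSeries.X ^ (v + K)) ∣
      nfErr (H.map ser) (fun k => (N k).map ser) γ (g.map (Polynomial.map ser)) a b)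
    {ya yb : ℂ} (h0 : ∀ s, lin ya yb s ≠ 0) :
    ∃ b : ℂ → CI (Mat r),
      (fun z => b z - coef ![0] ![diagonal γ] ya yb) =O[𝓝[≠] 0] (fun z : ℂ => z ^ K) ∧
      ∀ᶠ z in 𝓝[≠] (0 : ℂ), SideOK (H.map (evz z)) (fun k => (N k).map (evz z))
        (g.map (Polynomial.map (evz z))) ya yb (b z) := by
  have hseg : ∀ i : Fin 1, (![0] : Fin 1 → ℂ) i ∉ segment ℝ ya yb := by
    intro i hi
    obtain ⟨a, b, ha, hb, hab, he⟩ := hi
    refine h0 ⟨b, hb, by linarith⟩ ?_
    have ha' : (a : ℂ) = 1 - b := by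
      have h1 : a = 1 - b := by linarith
      rw [h1]; push_cast; ring
    have he' : (a : ℂ) * ya + b * yb = 0 := by
      have : (![0] : Fin 1 → ℂ) i = 0 := by fin_cases i; rfl
      rw [this] at he
      simpa using he
    show ya + ((b : ℝ) : ℂ) * (yb - ya) = 0
    rw [ha'] at he'
    linear_combination he'
  have hcoef : ∀ (B : Mat r) (s : unitInterval),
      coef ![0] ![B] ya yb s = ((yb - ya) / lin ya yb s) • B := by
    intro B s
    rw [coef_apply _ hseg]
    simp [sys, smul_smul, div_eq_mul_inv]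
  have hlin : Continuous fun s => lin ya yb s := (lin ya yb).continuous
  let U0 : CI (Mat r) := ⟨fun s => (c * lin ya yb s ^ (j0 + M)) • V, by fun_prop⟩
  let U1 : CI (Mat r) := ⟨fun s => (c * lin ya yb s ^ (j0 + M))⁻¹ • V⁻¹,
    (Continuous.inv₀ (by fun_prop) fun s => mul_ne_zero hc (pow_ne_zero _ (h0 s))).smul
      continuous_const⟩
  have hVu : IsUnit V.det := isUnit_iff_ne_zero.2 hV
  have h01 : U0 * U1 = 1 := by
    refine ContinuousMap.ext fun s => ?_
    show ((c * lin ya yb s ^ (j0 + M)) • V) * ((c * lin ya yb s ^ (j0 + M))⁻¹ • V⁻¹) = 1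
    rw [Matrix.smul_mul, Matrix.mul_smul, smul_smul, Matrix.mul_nonsing_inv _ hVu,
      mul_inv_cancel₀ (mul_ne_zero hc (pow_ne_zero _ (h0 s))), one_smul]
  have h10 : U1 * U0 = 1 := by
    refine ContinuousMap.ext fun s => ?_
    show ((c * lin ya yb s ^ (j0 + M))⁻¹ • V⁻¹) * ((c * lin ya yb s ^ (j0 + M)) • V) = 1
    rw [Matrix.smul_mul, Matrix.mul_smul, smul_smul, Matrix.nonsing_inv_mul _ hVu,
      inv_mul_cancel₀ (mul_ne_zero hc (pow_ne_zero _ (h0 s))), one_smul]
  let P0 : Matrix (Fin r) (Fin r) PR[X] :=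
    Matrix.of fun a b => C (prP (X ^ v * C c)) * X ^ j0 * (X ^ M * C (prP (C (V a b))))
  have hP0 : ∀ a b, C (PowerSeries.X ^ (v + 1)) ∣ ((H • g - P0) a b).map ser := by
    intro a b
    have h1 : C (PowerSeries.X : PowerSeries ℂ) ∣
        (g a b).map ser - X ^ M * C (PowerSeries.C (V a b)) := by
      refine loopb_dvd_of_red ?_
      have h2 := congrFun (congrFun hg a) b
      simp only [map_apply, Matrix.smul_apply, smul_eq_mul] at h2
      rw [map_sub, h2]
      simp [red]
    have e : ((H • g - P0) a b).map ser =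
        (H.map ser - C (PowerSeries.X ^ v * PowerSeries.C c) * X ^ j0) * (g a b).map ser +
        C (PowerSeries.X ^ v) * ((g a b).map ser - X ^ M * C (PowerSeries.C (V a b))) *
          (C (PowerSeries.C c) * X ^ j0) := by
      simp only [P0, Matrix.sub_apply, Matrix.smul_apply, smul_eq_mul, of_apply,
        Polynomial.map_sub, Polynomial.map_mul, Polynomial.map_pow, map_X, map_C, ser_prP,
        Polynomial.coe_mul, Polynomial.coe_pow, Polynomial.coe_X, Polynomial.coe_C, C_mul]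
      ring
    rw [e]
    refine dvd_add (hH.mul_right _) (Dvd.dvd.mul_right ?_ _)
    rw [pow_succ, C_mul]
    exact mul_dvd_mul_left _ h1
  let U : ℂ → CI (Mat r) := fun z => (z ^ v)⁻¹ • loopbM (H • g) ya yb z
  have hz0 : ∀ᶠ z in 𝓝[≠] (0 : ℂ), z ≠ 0 := self_mem_nhdsWithin
  have hdiv : ∀ {f : ℂ → CI (Mat r)} {k : ℕ}, f =O[𝓝[≠] 0] (fun z : ℂ => z ^ (v + k)) →
      (fun z => (z ^ v)⁻¹ • f z) =O[𝓝[≠] 0] fun z : ℂ => z ^ k := by
    intro f k hf
    have h1 := (isBigO_refl (fun z : ℂ => (z ^ v)⁻¹) (𝓝[≠] 0)).smul hf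
    refine h1.congr' (Eventually.of_forall fun z => rfl) ?_
    filter_upwards [hz0] with z hz
    show (z ^ v)⁻¹ • z ^ (v + k) = z ^ k
    rw [smul_eq_mul, pow_add, inv_mul_cancel_left₀ (pow_ne_zero _ hz)]
  have hU : Tendsto U (𝓝[≠] 0) (𝓝 U0) := by
    have h1 := hdiv (loopbM_isBigO hP0 ya yb)
    have h2 : Tendsto (fun z : ℂ => z ^ 1) (𝓝[≠] 0) (𝓝 0) := by
      simp only [pow_one]
      exact (tendsto_id (x := 𝓝 (0 : ℂ))).mono_left nhdsWithin_le_nhds
    have h3 := h1.trans_tendsto h2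
    refine tendsto_sub_nhds_zero_iff.1 (h3.congr' ?_)
    filter_upwards [hz0] with z hz
    refine ContinuousMap.ext fun s => ?_
    show (z ^ v)⁻¹ • (((H • g - P0).map (Polynomial.map (evz z))).map (eval (lin ya yb s))) =
      (z ^ v)⁻¹ • (((H • g).map (Polynomial.map (evz z))).map (eval (lin ya yb s))) -
        (c * lin ya yb s ^ (j0 + M)) • V
    ext a b
    have hzv : z ^ v ≠ 0 := pow_ne_zero _ hz
    simp only [P0, Matrix.sub_apply, Matrix.smul_apply, smul_eq_mul, of_apply, map_apply,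
      Polynomial.map_sub, Polynomial.map_mul, Polynomial.map_pow, map_X, map_C, evz_prP,
      eval_sub, eval_mul, eval_pow, eval_X, eval_C]
    field_simp
    ring
  let W : ℂ → CI (Mat r) := fun z =>
    coef ![0] ![(1 : Mat r)] ya yb * ((z ^ v)⁻¹ • loopbM (loopbE H N γ g) ya yb z)
  have hW : W =O[𝓝[≠] 0] fun z : ℂ => z ^ K := by
    have h1 : ∀ a b, C (PowerSeries.X ^ (v + K)) ∣ (loopbE H N γ g a b).map ser := by
      intro a b
      have h2 := hE a b
      rw [← loopbE_ser] at h2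
      exact h2
    exact (hdiv (loopbM_isBigO h1 ya yb)).const_mul_left _
  obtain ⟨b, hb1, hb2⟩ := loopb_abs h01 h10 hU hW (coef ![0] ![diagonal γ] ya yb)
  refine ⟨b, hb1, ?_⟩
  · filter_upwards [hz0, hb2] with z hz hu s
    obtain ⟨I, hmul, hbs⟩ := hu s
    rw [hcoef] at hbs
    have hzv : z ^ v ≠ 0 := pow_ne_zero _ hz
    set y := lin ya yb s with hy
    set h := (H.map (evz z)).eval y with hh
    set G : Mat r := (g.map (Polynomial.map (evz z))).map (eval y) with hG
    have hUs : U z s = ((z ^ v)⁻¹ * h) • G := by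
      show (z ^ v)⁻¹ • (((H • g).map (Polynomial.map (evz z))).map (eval y)) = _
      ext a b
      simp [hh, hG, mul_assoc]
    rw [hUs] at hmul
    have hdet : ((z ^ v)⁻¹ * h) ^ r * G.det ≠ 0 := by
      have h1 := congrArg Matrix.det hmul
      rw [det_mul, det_smul, det_one, Fintype.card_fin] at h1
      exact left_ne_zero_of_mul_eq_one h1
    have hh0 : h ≠ 0 := by
      intro e
      apply hdet
      rw [e, mul_zero, zero_pow (NeZero.ne r), zero_mul]
    refine ⟨hh0, right_ne_zero_of_mul hdet, ?_⟩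
    have hWs : W z s = ((yb - ya) / y) • ((z ^ v)⁻¹ •
        ((loopbE H N γ g).map (Polynomial.map (evz z))).map (eval y)) := by
      show coef ![0] ![(1 : Mat r)] ya yb s * ((z ^ v)⁻¹ •
        ((loopbE H N γ g).map (Polynomial.map (evz z))).map (eval y)) = _
      rw [hcoef, Matrix.smul_mul, Matrix.one_mul]
    have hGi : h • (G * I) = (z ^ v) • (1 : Mat r) := by
      rw [← hmul, Matrix.smul_mul, smul_smul, mul_inv_cancel_left₀ hzv]
    rw [hbs, hWs, loopbE_ev, ← hh, ← hG]
    set G' : Mat r := ((g.map (Polynomial.map (evz z))).map derivative).map (eval y)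
    set Cm : Mat r := (cmp (H.map (evz z)) fun k => (N k).map (evz z)).map (eval y)
    set E : Mat r := h • (y • G' + G * diagonal γ) - Cm * G with hEdef
    have hy0 : y ≠ 0 := h0 s
    have e1 : h • (G * (I * (((yb - ya) / y) • ((z ^ v)⁻¹ • E)))) = ((yb - ya) / y) • E := by
      rw [← Matrix.mul_assoc, ← Matrix.smul_mul, hGi, Matrix.smul_mul, Matrix.one_mul, smul_comm,
        smul_smul (z ^ v), mul_inv_cancel₀ hzv, one_smul]
    rw [Matrix.mul_sub, smul_add, smul_sub, e1, hEdef, Matrix.mul_smul]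
    have e2 : (yb - ya) = (yb - ya) / y * y := by field_simp
    set q := (yb - ya) / y
    rw [e2]
    module

end Pool.Agent.GR
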