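import Pool.Agent.Lib.MP_aa40d3_nt.GR.Cyc

/-! Wronskian criterion in characteristic `p`. -/

open Polynomial Matrix

namespace Pool.Agent.GR

variable {k : Type*} [Field k] {n r : ℕ}

theorem m3_th_mul (a b : k[X]) : th (a * b) = th a * b + a * th b := by
  simp only [th, derivative_mul]; ring

theorem m3_th_sum {ι : Type*} (s : Finset ι) (f : ι → k[X]) :
    th (∑ i ∈ s, f i) = ∑ i ∈ s, th (f i) := by
  simp only [th, derivative_sum, Finset.mul_sum]

theorem m3_der_of_th {a : k[X]} (h : th a = 0) : derivative a = 0 := by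
  unfold th at h
  exact (mul_eq_zero.1 h).resolve_left X_ne_zero

theorem m3_inj {W : Matrix (Fin r) (Fin r) k[X]} (hW : W.det ≠ 0) {c : Fin r → k[X]}
    (h : W *ᵥ c = 0) : c = 0 := by
  by_contra hc
  exact hW (Matrix.exists_mulVec_eq_zero_iff.1 ⟨c, hc, h⟩)

theorem m3_der_pow (p : ℕ) [Fact p.Prime] [CharP k p] (a : k[X]) : derivative (a ^ p) = 0 := by
  rw [derivative_pow]
  simp

theorem m3_der_expand (p : ℕ) [Fact p.Prime] [CharP k p] (a : k[X]) :
    derivative (expand k p a) = 0 := by
  rw [derivative_expand]
  simp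

/-- Induction on `r`. If `det (wr y) = 0` take `c ≠ 0` over `k[X]` with `wr y *ᵥ c = 0`
(`Matrix.exists_mulVec_eq_zero_iff`). By induction the Wronskian `W'` of the first `r - 1`
functions is nonzero, hence the last coefficient `c_last ≠ 0`. Multiply `c` by `c_last ^ (p - 1)`,
so that `th c_last = 0`. Applying `th` to row `j` and subtracting row `j + 1` gives
`∑ th (c b) * th^[j] (y b) = 0` for `j < r - 1`, so `th (c b) = 0` because `W' ≠ 0`, so
`derivative (c b) = 0` and `c b = expand p (contract p (c b))` (`Polynomial.expand_contract`).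
Row `0` contradicts `h`. -/
theorem wr_ne_zero (p : ℕ) [Fact p.Prime] [CharP k p] (y : Fin r → k[X])
    (h : ∀ c : Fin r → k[X], ∑ b, expand k p (c b) * y b = 0 → c = 0) : (wr y).det ≠ 0 := by
  have hp : p.Prime := Fact.out
  induction r with
  | zero => simp
  | succ m ih =>
    intro hdet
    obtain ⟨c, hc0, hc⟩ := Matrix.exists_mulVec_eq_zero_iff.2 hdet
    have hW : (wr fun b : Fin m => y b.castSucc).det ≠ 0 := by
      apply ih
      intro d hd
      have h1 := h (Fin.snoc d 0) (by
        rw [Fin.sum_univ_castSucc]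
        simpa using hd)
      funext b
      have := congrFun h1 b.castSucc
      simpa using this
    have hrow : ∀ j : Fin (m + 1), ∑ b, th^[(j : ℕ)] (y b) * c b = 0 := by
      intro j
      have := congrFun hc j
      simpa [Matrix.mulVec, dotProduct, wr] using this
    have hlast : c (Fin.last m) ≠ 0 := by
      intro hl
      have h2 : (wr fun b : Fin m => y b.castSucc) *ᵥ (fun b : Fin m => c b.castSucc) = 0 := by
        funext j
        have := hrow j.castSucc
        rw [Fin.sum_univ_castSucc, hl] at this
        simpa [Matrix.mulVec, dotProduct, wr] using this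
      have h3 := m3_inj hW h2
      apply hc0
      funext b
      refine Fin.lastCases ?_ (fun b => ?_) b
      · exact hl
      · exact congrFun h3 b
    set e : Fin (m + 1) → k[X] := fun b => c (Fin.last m) ^ (p - 1) * c b with he
    have hel : e (Fin.last m) = c (Fin.last m) ^ p := by
      simp only [he]
      rw [← pow_succ, Nat.sub_add_cancel hp.one_le]
    have herow : ∀ j : Fin (m + 1), ∑ b, th^[(j : ℕ)] (y b) * e b = 0 := by
      intro j
      have := congrArg (fun z => c (Fin.last m) ^ (p - 1) * z) (hrow j)
      simp only [Finset.mul_sum, mul_zero] at this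
      rw [← this]
      refine Finset.sum_congr rfl fun b _ => ?_
      simp only [he]; ring
    have hthl : th (e (Fin.last m)) = 0 := by
      rw [hel, th, m3_der_pow, mul_zero]
    have h4 : (wr fun b : Fin m => y b.castSucc) *ᵥ (fun b : Fin m => th (e b.castSucc)) = 0 := by
      funext j
      have h5 := congrArg th (herow j.castSucc)
      rw [m3_th_sum] at h5
      simp only [m3_th_mul, Finset.sum_add_distrib] at h5
      have h6 := herow j.succ
      have h7 : ∑ b, th (th^[((j.castSucc : Fin (m + 1)) : ℕ)] (y b)) * e b = 0 := by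
        rw [← h6]
        refine Finset.sum_congr rfl fun b _ => ?_
        simp [Function.iterate_succ_apply']
      rw [h7, zero_add, Fin.sum_univ_castSucc, hthl] at h5
      have h8 : th (0 : k[X]) = 0 := by simp [th]
      rw [h8] at h5
      simpa [Matrix.mulVec, dotProduct, wr] using h5
    have h9 := m3_inj hW h4
    have hder : ∀ b, derivative (e b) = 0 := by
      intro b
      apply m3_der_of_th
      refine Fin.lastCases ?_ (fun b => ?_) b
      · exact hthl
      · exact congrFun h9 b
    have h10 := h (fun b => contract p (e b)) (by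
      have := herow 0
      simp only [Fin.val_zero, Function.iterate_zero, id] at this
      rw [← this]
      refine Finset.sum_congr rfl fun b _ => ?_
      rw [Polynomial.expand_contract p (hder b) hp.ne_zero, mul_comm])
    have h11 : contract p (e (Fin.last m)) = 0 := congrFun h10 (Fin.last m)
    have h12 := Polynomial.expand_contract p (hder (Fin.last m)) hp.ne_zero
    rw [h11, map_zero, hel] at h12
    exact hlast (pow_eq_zero_iff hp.ne_zero |>.1 h12.symm)

/-- If `∑ expand p (c b) * Φ 0 b = 0` then `Φ *ᵥ expand c` is a solution (`isSol_mulVec`) with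
first coordinate `0`, so it vanishes, so `expand c = 0` since `det Φ ≠ 0`. -/
theorem wr_ne_zero_of_injS [NeZero r] (p : ℕ) [Fact p.Prime] [CharP k p] {δ : k[X]}
    {P Φ : Matrix (Fin r) (Fin r) k[X]} (hΦ : Φ.det ≠ 0) (h : δ • Φ.map derivative = P * Φ)
    (hi : InjS δ P) : (wr fun b => Φ 0 b).det ≠ 0 := by
  have hp : p.Prime := Fact.out
  apply wr_ne_zero p
  intro c hc
  have h1 := isSol_mulVec h (fun b => expand k p (c b)) (fun b => m3_der_expand p (c b))
  have h2 := hi _ h1 (by
    simp only [Matrix.mulVec, dotProduct]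
    rw [← hc]
    exact Finset.sum_congr rfl fun b _ => mul_comm _ _)
  have h3 := m3_inj hΦ h2
  funext b
  exact (Polynomial.expand_eq_zero hp.pos).1 (congrFun h3 b)

/-- `cyc_det` and the previous lemma. -/
theorem cycH_ne_zero_charp [NeZero r] (p : ℕ) [Fact p.Prime] [CharP k p] {δ : k[X]} (hδ : δ ≠ 0)
    {P : Matrix (Fin r) (Fin r) k[X]} (hf : Fund δ P) (hi : InjS δ P) : cycH X δ P ≠ 0 := by
  obtain ⟨Φ, hΦ, h⟩ := hf
  have h1 := cyc_det h
  have h2 := wr_ne_zero_of_injS p hΦ h hi
  intro h0
  rw [h0, zero_mul] at h1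
  exact mul_ne_zero (pow_ne_zero _ hδ) h2 h1.symm

end Pool.Agent.GR
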