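import Pool.Agent.Lib.MP_aa40d3_nt.GR.NRes

/-! Formal normal form on an annulus. -/

open Polynomial Matrix

namespace Pool.Agent.GR

variable {r : ℕ}

section helpers
variable {R : Type*} [CommRing R]

private theorem nform_th_add (x y : R[X]) : th (x + y) = th x + th y := by
  simp [th, mul_add]

private theorem nform_th_C_mul (a : R) (y : R[X]) : th (C a * y) = C a * th y := by
  simp only [th, derivative_C_mul]; ring

private theorem nform_th_X_pow_mul (j : ℕ) (y : R[X]) :
    th (X ^ j * y) = X ^ j * (th y + (j : R[X]) * y) := by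
  induction j with
  | zero => simp [th]
  | succ j ih =>
    have h1 : (X : R[X]) ^ (j + 1) * y = X * (X ^ j * y) := by ring
    have h2 : th (X * (X ^ j * y)) = X * (th (X ^ j * y) + X ^ j * y) := by
      simp only [th, derivative_mul, derivative_X]; ring
    rw [h1, h2, ih]
    push_cast
    ring

private theorem nform_th_monomial (m : ℕ) (a : R) :
    th (monomial m a) = C (m : R) * monomial m a := by
  have h : (monomial m a : R[X]) = X ^ m * C a := by
    rw [← C_mul_X_pow_eq_monomial]; ring
  have h0 : th (C a : R[X]) = 0 := by simp [th]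
  rw [h, nform_th_X_pow_mul, h0]
  simp only [zero_add, map_natCast]
  ring

private theorem nform_th_map {S : Type*} [CommRing S] (φ : R →+* S) (y : R[X]) :
    (th y).map φ = th (y.map φ) := by
  simp [th, Polynomial.map_mul, derivative_map]

private theorem nform_th_sum {ι : Type*} (s : Finset ι) (f : ι → R[X]) :
    th (∑ i ∈ s, f i) = ∑ i ∈ s, th (f i) := by
  simp [th, Finset.mul_sum]

/-- Solving `θ h + δ h = z e` up to resonant terms. -/
private theorem nform_solve1 [IsDomain R] [CharZero R] {D : ℕ} (hD : 0 < D) {δ : R} {n : ℤ}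
    (hδ : (D : R) * δ = n) (e : R[X]) :
    ∃ z : ℤ, z ≠ 0 ∧ ∃ h ρ : R[X], C (z : R) * e = th h + C δ * h + ρ ∧ th ρ + C δ * ρ = 0 := by
  induction e using Polynomial.induction_on' with
  | add p q hp hq =>
    obtain ⟨z1, hz1, h1, ρ1, e1, r1⟩ := hp
    obtain ⟨z2, hz2, h2, ρ2, e2, r2⟩ := hq
    refine ⟨z1 * z2, mul_ne_zero hz1 hz2, C (z2 : R) * h1 + C (z1 : R) * h2,
      C (z2 : R) * ρ1 + C (z1 : R) * ρ2, ?_, ?_⟩
    · rw [nform_th_add, nform_th_C_mul, nform_th_C_mul, Int.cast_mul, C_mul]
      linear_combination (C (z2 : R)) * e1 + (C (z1 : R)) * e2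
    · rw [nform_th_add, nform_th_C_mul, nform_th_C_mul]
      linear_combination (C (z2 : R)) * r1 + (C (z1 : R)) * r2
  | monomial m a =>
    have hq : ((D * m + n : ℤ) : R) = (D : R) * ((m : R) + δ) := by
      push_cast
      rw [← hδ]; ring
    by_cases h0 : (D * m + n : ℤ) = 0
    · have hD' : (D : R) ≠ 0 := Nat.cast_ne_zero.mpr hD.ne'
      have h1 : (m : R) + δ = 0 := by
        rw [h0, Int.cast_zero] at hq
        exact (mul_eq_zero.mp hq.symm).resolve_left hD'
      refine ⟨1, one_ne_zero, 0, monomial m a, ?_, ?_⟩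
      · simp [th]
      · rw [nform_th_monomial, ← add_mul, ← C_add, h1]; simp
    · refine ⟨D * m + n, h0, C (D : R) * monomial m a, 0, ?_, ?_⟩
      · rw [hq, nform_th_C_mul, nform_th_monomial, C_mul, C_add]; ring
      · simp [th]

private theorem nform_solve [IsDomain R] [CharZero R] {D : ℕ} (hD : 0 < D) {ι : Type*}
    [Fintype ι] (δ : ι → R) (hδ : ∀ i, ∃ n : ℤ, (D : R) * δ i = n) (e : ι → R[X]) :
    ∃ z : ℤ, z ≠ 0 ∧ ∃ h ρ : ι → R[X], ∀ i,
      C (z : R) * e i = th (h i) + C (δ i) * h i + ρ i ∧ th (ρ i) + C (δ i) * ρ i = 0 := by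
  classical
  have h1 : ∀ i, ∃ z : ℤ, z ≠ 0 ∧ ∃ h ρ : R[X],
      C (z : R) * e i = th h + C (δ i) * h + ρ ∧ th ρ + C (δ i) * ρ = 0 := fun i => by
    obtain ⟨n, hn⟩ := hδ i
    exact nform_solve1 hD hn (e i)
  choose z hz h ρ he hr using h1
  refine ⟨∏ i, z i, Finset.prod_ne_zero_iff.mpr fun i _ => hz i,
    fun i => C ((∏ j ∈ Finset.univ.erase i, z j : ℤ) : R) * h i,
    fun i => C ((∏ j ∈ Finset.univ.erase i, z j : ℤ) : R) * ρ i, fun i => ⟨?_, ?_⟩⟩
  · rw [← Finset.mul_prod_erase Finset.univ z (Finset.mem_univ i), Int.cast_mul, C_mul,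
      nform_th_C_mul]
    linear_combination (C ((∏ j ∈ Finset.univ.erase i, z j : ℤ) : R)) * he i
  · rw [nform_th_C_mul]
    linear_combination (C ((∏ j ∈ Finset.univ.erase i, z j : ℤ) : R)) * hr i

private theorem nform_add (H : (PowerSeries R)[X]) (N : Fin r → (PowerSeries R)[X])
    (γ : Fin r → R) (g1 g2 : Matrix (Fin r) (Fin r) (PowerSeries R)[X]) :
    nfErr H N γ (g1 + g2) = nfErr H N γ g1 + nfErr H N γ g2 := by
  have h : (g1 + g2).map th = g1.map th + g2.map th := by
    ext1 a b; simp [nform_th_add]
  simp only [nfErr, h, Matrix.add_mul, Matrix.mul_add, smul_add]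
  abel

private theorem nform_C_smul (H : (PowerSeries R)[X]) (N : Fin r → (PowerSeries R)[X])
    (γ : Fin r → R) (s : PowerSeries R) (g : Matrix (Fin r) (Fin r) (PowerSeries R)[X]) :
    nfErr H N γ ((C s : (PowerSeries R)[X]) • g) = (C s : (PowerSeries R)[X]) • nfErr H N γ g := by
  have h : ((C s : (PowerSeries R)[X]) • g).map th = (C s : (PowerSeries R)[X]) • g.map th := by
    ext1 a b; simp [nform_th_C_mul]
  simp only [nfErr, h, Matrix.smul_mul, Matrix.mul_smul, smul_add, smul_sub, smul_comm H (C s)]

private theorem nform_shift (H : (PowerSeries R)[X]) (N : Fin r → (PowerSeries R)[X])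
    (γ : Fin r → R) (j : ℕ) (g : Matrix (Fin r) (Fin r) (PowerSeries R)[X]) :
    nfErr H N (fun i => γ i - j) ((X ^ j : (PowerSeries R)[X]) • g) =
      (X ^ j : (PowerSeries R)[X]) • nfErr H N γ g := by
  have h : ((X ^ j : (PowerSeries R)[X]) • g).map th +
      ((X ^ j : (PowerSeries R)[X]) • g) *
        diagonal (fun i => (C (PowerSeries.C (γ i - j)) : (PowerSeries R)[X])) =
      (X ^ j : (PowerSeries R)[X]) • (g.map th +
        g * diagonal (fun i => (C (PowerSeries.C (γ i)) : (PowerSeries R)[X]))) := by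
    ext1 a b
    simp only [Matrix.add_apply, Matrix.map_apply, Matrix.smul_apply, smul_eq_mul,
      Matrix.mul_diagonal, nform_th_X_pow_mul, map_sub, map_natCast]
    ring
  simp only [nfErr]
  rw [h, Matrix.mul_smul, smul_sub, smul_comm H]

private theorem nform_red_C (s : PowerSeries R) :
    red (C s : (PowerSeries R)[X]) = C (PowerSeries.constantCoeff s) := by
  simp [red]

private theorem nform_red_X : red (X : (PowerSeries R)[X]) = X := by
  simp [red]

private theorem nform_red_th (y : (PowerSeries R)[X]) : red (th y) = th (red y) :=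
  nform_th_map _ y

private theorem nform_red_lift (y : R[X]) : red (y.map PowerSeries.C) = y := by
  simp only [red, coe_mapRingHom, Polynomial.map_map]
  have : (PowerSeries.constantCoeff (R := R)).comp PowerSeries.C = RingHom.id R := by
    ext a; simp
  rw [this, Polynomial.map_id]

private theorem nform_red_err {H : (PowerSeries R)[X]} {N : Fin r → (PowerSeries R)[X]} {c : R}
    {j0 : ℕ} {β : Fin r → R} (he : EulerRed H N c j0 β) (γ : Fin r → R)
    (g : Matrix (Fin r) (Fin r) (PowerSeries R)[X]) :
    (nfErr H N γ g).map red = (C c * X ^ j0 : R[X]) •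
      ((g.map red).map th + g.map red * diagonal (fun i => C (γ i)) -
        (comp0 β).map C * g.map red) := by
  have h1 : (cmp H N * g).map red = (C c * X ^ j0 : R[X]) • ((comp0 β).map C * g.map red) := by
    rw [Matrix.map_mul, he.cmp, Matrix.smul_mul]
  ext1 a b
  have h2 := congrFun (congrFun h1 a) b
  simp only [Matrix.map_apply, Matrix.smul_apply, smul_eq_mul] at h2
  simp only [nfErr, Matrix.map_apply, Matrix.sub_apply, Matrix.smul_apply, Matrix.add_apply,
    smul_eq_mul, map_sub, map_mul, map_add, Matrix.mul_diagonal, h2, he.1, nform_red_th,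
    nform_red_C, PowerSeries.constantCoeff_C]
  ring

private theorem nform_dvd_of_red {y : (PowerSeries R)[X]} (h : red y = 0) :
    C (PowerSeries.X : PowerSeries R) ∣ y := by
  rw [C_dvd_iff_dvd_coeff]
  intro i
  rw [PowerSeries.X_dvd_iff]
  have := congrArg (fun q => Polynomial.coeff q i) h
  simpa [red, coeff_map] using this

private theorem nform_red_mps {S : Type*} [CommRing S] (φ : R →+* S) (y : (PowerSeries R)[X]) :
    red (mps φ y) = (red y).map φ := by
  simp only [red, mps, coe_mapRingHom, Polynomial.map_map]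
  congr 1

private theorem nform_comp0_map {S : Type*} [CommRing S] (φ : R →+* S) (β : Fin r → R) :
    (comp0 β).map φ = comp0 fun j => φ (β j) := by
  ext k j
  have h : (∏ i, (X - C (φ (β i))) : S[X]) = (∏ i, (X - C (β i)) : R[X]).map φ := by
    simp [Polynomial.map_prod]
  simp only [comp0, Matrix.map_apply, Matrix.of_apply, h, coeff_map]
  split_ifs <;> simp

end helpers

/-- Resonant terms vanish in characteristic zero. -/
private theorem nform_res_zero {R : Type} [CommRing R] [IsDomain R] [CharZero R]
    [Algebra.FiniteType ℤ R]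
    {H : (PowerSeries R)[X]} {N : Fin r → (PowerSeries R)[X]} {c : R} (hc : IsUnit c) {j0 : ℕ}
    {β : Fin r → R} (he : EulerRed H N c j0 β)
    (ho : ∃ P : ℕ, ∀ p : ℕ, p.Prime → P < p → ∀ (κ : Type) [Field κ] [CharP κ p] (φ : R →+* κ),
      CPO1 (mps φ H) fun k => mps φ (N k)) (γ : Fin r → R) {K : ℕ}
    {g ε : Matrix (Fin r) (Fin r) (PowerSeries R)[X]} {E : Matrix (Fin r) (Fin r) R[X]}
    (hg : nfErr H N γ g = (C (PowerSeries.X ^ K) : (PowerSeries R)[X]) • ε)
    (hε : ε.map red = (X ^ j0 : R[X]) • E)
    (hE : E.map th + E * diagonal (fun j => C (γ j)) = (comp0 β).map C * E) : E = 0 := by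
  obtain ⟨P, hP⟩ := ho
  ext a b m
  by_contra hx
  rw [Matrix.zero_apply, coeff_zero] at hx
  obtain ⟨P', hP'⟩ := spread hx
  obtain ⟨p, hp1, hp⟩ := Nat.exists_infinite_primes (P + P' + 1)
  obtain ⟨κ, hκ, hch, φ, hφ⟩ := hP' p hp (by omega)
  have : Fact p.Prime := ⟨hp⟩
  have hc' : φ c ≠ 0 := (hc.map φ).ne_zero
  have h0 : E.map (Polynomial.map φ) = 0 := by
    refine resonant_zero p hc' (he.map φ) (hP p hp (by omega) κ φ) (fun j => φ (γ j)) (K := K)
      (g := g.map (mps φ)) (ε := ε.map (mps φ)) ?_ ?_ ?_
    · rw [← nfErr_map, hg]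
      ext1 i j
      simp [mps]
    · ext1 i j
      have := congrFun (congrFun hε i) j
      simp only [Matrix.map_apply, Matrix.smul_apply, smul_eq_mul] at this ⊢
      rw [nform_red_mps, this]
      simp [Polynomial.map_mul]
    · ext1 i j
      have := congrArg (Polynomial.map φ) (congrFun (congrFun hE i) j)
      rw [← nform_comp0_map]
      simp only [Matrix.add_apply, Matrix.map_apply, Matrix.mul_diagonal, Matrix.mul_apply (M := (comp0 β).map C),
        Matrix.mul_apply (M := ((comp0 β).map φ).map C),
        Polynomial.map_add, Polynomial.map_mul, Polynomial.map_sum, map_C, nform_th_map] at this ⊢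
      exact this
  have := congrArg (fun q => Polynomial.coeff q m) (congrFun (congrFun h0 a) b)
  simp only [Matrix.map_apply, coeff_map, Matrix.zero_apply, coeff_zero] at this
  exact hφ this

/-- Induction on `K`, starting from `g = V.map (C ∘ C)`, `M = 0`, `d = 1` (`K = 0` is trivial; it
is convenient to prove the statement for `K + 1`, the case `K = 1` being `comp0_mul`).
Step: let `nfErr H N (β - M) g = C (X ^ K) • ε`, `K ≥ 1`. Replace `g` by `X ^ j0 • g` and `M` by
`M' = M + j0`; the error is multiplied by `X ^ j0`. Let `E = V⁻¹ * red ε` and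
`q a b m = D * (m + β b - M' - β a)`, an integer. Let `z ≠ 0` be the product of the nonzero
`q a b m` with `m ≤ natDegree (E a b)`; let `h a b` have coefficients
`-(c⁻¹ * D * (z / q a b m)) * (E a b).coeff m` if `q a b m ≠ 0` and `0` otherwise. For
`g' = z • X ^ j0 • g + C (X ^ K) • V * h` the reduced error is `X ^ j0 • z • V * E_res`, where
`E_res` keeps the coefficients with `q a b m = 0`. By `resonant_zero` (applied to the images under
`φ`, `nfErr_map`, `EulerRed.map`) and `spread`, `z • V * E_res = 0`. -/
theorem exists_nf {R : Type} [CommRing R] [IsDomain R] [CharZero R] [Algebra.FiniteType ℤ R]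
    {H : (PowerSeries R)[X]} {N : Fin r → (PowerSeries R)[X]} {c : R} (hc : IsUnit c) {j0 : ℕ}
    {β : Fin r → R} (he : EulerRed H N c j0 β) (hV : IsUnit (vandermonde β).det) {D : ℕ}
    (hD : 0 < D) (hβ : ∀ j, ∃ b : ℤ, (D : R) * β j = b)
    (ho : ∃ P : ℕ, ∀ p : ℕ, p.Prime → P < p → ∀ (κ : Type) [Field κ] [CharP κ p] (φ : R →+* κ),
      CPO1 (mps φ H) fun k => mps φ (N k)) (K : ℕ) :
    ∃ (M : ℕ) (d : ℤ) (g : Matrix (Fin r) (Fin r) (PowerSeries R)[X]), d ≠ 0 ∧
      g.map red = (X ^ M : R[X]) • ((d : R) • (vandermonde β)ᵀ).map C ∧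
      ∀ a b, C (PowerSeries.X ^ K) ∣ nfErr H N (fun j => β j - M) g a b := by
  classical
  set V : Matrix (Fin r) (Fin r) R := (vandermonde β)ᵀ with hVdef
  have hVu : IsUnit V.det := by rw [hVdef, Matrix.det_transpose]; exact hV
  have hcomp : (comp0 β).map C * V.map C = V.map C * diagonal (fun i => (C (β i) : R[X])) := by
    have := congrArg (fun A : Matrix (Fin r) (Fin r) R => A.map (C : R →+* R[X])) (comp0_mul β)
    simp only [Matrix.map_mul] at this
    rw [this, Matrix.diagonal_map (by simp)]
  have hthV : ∀ h : Matrix (Fin r) (Fin r) R[X], (V.map C * h).map th = V.map C * h.map th := by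
    intro h
    ext1 a b
    simp only [Matrix.map_apply, Matrix.mul_apply, nform_th_sum, nform_th_C_mul]
  have key : ∀ K : ℕ, ∃ (M : ℕ) (d : ℤ) (g ε : Matrix (Fin r) (Fin r) (PowerSeries R)[X]), d ≠ 0 ∧
      g.map red = (X ^ M : R[X]) • ((d : R) • V).map C ∧
      nfErr H N (fun j => β j - M) g = (C (PowerSeries.X ^ (K + 1)) : (PowerSeries R)[X]) • ε := by
    intro K
    induction K with
    | zero =>
      set g : Matrix (Fin r) (Fin r) (PowerSeries R)[X] :=
        (V.map C).map (Polynomial.map PowerSeries.C) with hg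
      have hred : g.map red = V.map C := by
        ext1 a b
        simp only [hg, Matrix.map_apply, nform_red_lift]
      have h0 : (nfErr H N β g).map red = 0 := by
        rw [nform_red_err he, hred, hcomp]
        have : (V.map C).map th = (0 : Matrix (Fin r) (Fin r) R[X]) := by
          ext1 a b; simp [th]
        rw [this]; simp
      have h1 : ∀ a b, ∃ e, nfErr H N β g a b = C (PowerSeries.X : PowerSeries R) * e :=
        fun a b => nform_dvd_of_red (congrFun (congrFun h0 a) b)
      choose e he' using h1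
      refine ⟨0, 1, g, Matrix.of e, one_ne_zero, by simpa using hred, ?_⟩
      ext1 a b
      simpa using he' a b
    | succ K ih =>
      obtain ⟨M, d, g, ε, hd, hred, herr⟩ := ih
      obtain ⟨ci, hci⟩ := hc.exists_right_inv
      set γ : Fin r → R := fun j => β j - ((M + j0 : ℕ) : R) with hγ
      set E : Matrix (Fin r) (Fin r) R[X] := (V⁻¹).map C * ε.map red with hE
      have hVE : V.map C * E = ε.map red := by
        rw [hE, ← Matrix.mul_assoc, ← Matrix.map_mul, Matrix.mul_nonsing_inv _ hVu]
        simp
      obtain ⟨z, hz, h, ρ, hh⟩ := nform_solve (R := R) hD (ι := Fin r × Fin r)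
        (fun i => γ i.2 - β i.1) (fun i => by
          obtain ⟨b1, hb1⟩ := hβ i.1
          obtain ⟨b2, hb2⟩ := hβ i.2
          refine ⟨b2 - D * (M + j0 : ℕ) - b1, ?_⟩
          simp only [hγ]
          push_cast
          rw [← hb1, ← hb2]; ring) (fun i => E i.1 i.2)
      set hm : Matrix (Fin r) (Fin r) R[X] := Matrix.of fun a b => C (-ci) * h (a, b) with hhm
      set ρm : Matrix (Fin r) (Fin r) R[X] := Matrix.of fun a b => ρ (a, b) with hρm
      set u : Matrix (Fin r) (Fin r) (PowerSeries R)[X] :=
        (V.map C * hm).map (Polynomial.map PowerSeries.C) with hu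
      have hured : u.map red = V.map C * hm := by
        ext1 a b
        simp only [hu, Matrix.map_apply, nform_red_lift]
      set g' : Matrix (Fin r) (Fin r) (PowerSeries R)[X] :=
        (C (PowerSeries.C (z : R)) : (PowerSeries R)[X]) • ((X ^ j0 : (PowerSeries R)[X]) • g) +
          (C (PowerSeries.X ^ (K + 1)) : (PowerSeries R)[X]) • u with hg'
      set ε' : Matrix (Fin r) (Fin r) (PowerSeries R)[X] :=
        (C (PowerSeries.C (z : R)) : (PowerSeries R)[X]) • ((X ^ j0 : (PowerSeries R)[X]) • ε) +
          nfErr H N γ u with hε'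
      have hγ' : γ = fun i => (β i - M) - (j0 : R) := by
        funext i; simp only [hγ]; push_cast; ring
      have herr' : nfErr H N γ g' = (C (PowerSeries.X ^ (K + 1)) : (PowerSeries R)[X]) • ε' := by
        rw [hg', nform_add, nform_C_smul, nform_C_smul, hε', smul_add]
        congr 1
        rw [hγ', nform_shift, herr, smul_comm (X ^ j0 : (PowerSeries R)[X]), smul_comm]
      have hinner : (C (z : R) : R[X]) • E + (C c : R[X]) •
          (hm.map th + hm * diagonal (fun i => C (γ i)) - diagonal (fun i => C (β i)) * hm) = ρm := by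
        ext1 a b
        have h1 := (hh (a, b)).1
        have h2 : (C c : R[X]) * C ci = 1 := by rw [← C_mul, hci, C_1]
        simp only [Matrix.add_apply, Matrix.smul_apply, Matrix.sub_apply, Matrix.map_apply,
          Matrix.mul_diagonal, Matrix.diagonal_mul, smul_eq_mul, hhm, hρm, Matrix.of_apply,
          nform_th_C_mul, C_sub] at h1 ⊢
        rw [C_neg]
        linear_combination h1 - (th (h (a, b)) + (C (γ b) - C (β a)) * h (a, b)) * h2
      have hε'red : ε'.map red = (X ^ j0 : R[X]) • (V.map C * ρm) := by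
        have h1 : ((C (PowerSeries.C (z : R)) : (PowerSeries R)[X]) •
            ((X ^ j0 : (PowerSeries R)[X]) • ε)).map red =
            (X ^ j0 : R[X]) • (C (z : R) : R[X]) • (V.map C * E) := by
          rw [hVE]
          ext1 a b
          simp only [Matrix.map_apply, Matrix.smul_apply, smul_eq_mul, map_mul, map_pow,
            nform_red_C, nform_red_X, PowerSeries.constantCoeff_C]
          ring
        rw [hε', Matrix.map_add _ (map_add red), h1, nform_red_err he, hured, hthV,
          ← Matrix.mul_assoc ((comp0 β).map C), hcomp, ← hinner]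
        simp only [Matrix.mul_add, Matrix.mul_sub, Matrix.mul_smul, Matrix.mul_assoc, smul_add,
          smul_sub, smul_smul, mul_comm (C c : R[X])]
      have hres : (V.map C * ρm).map th + (V.map C * ρm) * diagonal (fun j => C (γ j)) =
          (comp0 β).map C * (V.map C * ρm) := by
        have h1 : ρm.map th + ρm * diagonal (fun j => C (γ j)) =
            diagonal (fun j => C (β j)) * ρm := by
          ext1 a b
          have h1 := (hh (a, b)).2
          simp only [Matrix.add_apply, Matrix.map_apply, Matrix.mul_diagonal, Matrix.diagonal_mul,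
            hρm, Matrix.of_apply, C_sub] at h1 ⊢
          linear_combination h1
        rw [hthV, Matrix.mul_assoc, ← Matrix.mul_add, h1, ← Matrix.mul_assoc, ← hcomp,
          Matrix.mul_assoc]
      have hzero := nform_res_zero hc he ho γ herr' hε'red hres
      rw [hzero, smul_zero] at hε'red
      have h1 : ∀ a b, ∃ e, ε' a b = C (PowerSeries.X : PowerSeries R) * e :=
        fun a b => nform_dvd_of_red (congrFun (congrFun hε'red a) b)
      choose e he' using h1
      refine ⟨M + j0, z * d, g', Matrix.of e, mul_ne_zero hz hd, ?_, ?_⟩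
      · ext1 a b
        have h2 := congrFun (congrFun hred a) b
        simp only [Matrix.map_apply, Matrix.smul_apply, smul_eq_mul] at h2
        simp only [hg', Matrix.map_apply, Matrix.add_apply, Matrix.smul_apply, smul_eq_mul, map_add,
          map_mul, map_pow, nform_red_C, nform_red_X, h2, PowerSeries.constantCoeff_C,
          PowerSeries.constantCoeff_X, Int.cast_mul]
        simp only [map_zero, ne_eq, Nat.add_eq_zero_iff, one_ne_zero, and_false, not_false_eq_true,
          zero_pow, zero_mul, add_zero]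
        ring
      · rw [herr']
        ext1 a b
        simp only [Matrix.smul_apply, smul_eq_mul, Matrix.of_apply, he', pow_succ _ (K + 1), C_mul]
        ring
  obtain ⟨M, d, g, ε, hd, hred, herr⟩ := key K
  refine ⟨M, d, g, hd, hred, fun a b => ?_⟩
  rw [herr, Matrix.smul_apply, smul_eq_mul, pow_succ, C_mul, mul_assoc]
  exact Dvd.intro _ rfl

end Pool.Agent.GR
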