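import Pool.Agent.Lib.MP_aa40d3_nt.GR.Sat
import Pool.Agent.Lib.MP_aa40d3_nt.GR.Spread

/-! Resonant terms vanish in characteristic `p`. -/

open Polynomial Matrix

namespace Pool.Agent.GR

variable {r : ℕ}

theorem nres_map_smul {R S : Type*} [CommRing R] [CommRing S] (f : R →+* S) (a : R)
    (M : Matrix (Fin r) (Fin r) R) : (a • M).map f = f a • M.map f := by
  ext1 i j
  simp

theorem nres_cancel {R : Type*} [CommRing R] [IsDomain R] {a : R} (ha : a ≠ 0)
    {M M' : Matrix (Fin r) (Fin r) R} (h : a • M = a • M') : M = M' := by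
  ext1 i j
  exact mul_left_cancel₀ ha (congrFun (congrFun h i) j)

theorem nres_th_mul {R : Type*} [CommRing R] (M M' : Matrix (Fin r) (Fin r) R[X]) :
    (M * M').map th = M.map th * M' + M * M'.map th := by
  ext1 i j
  simp only [map_apply, Matrix.add_apply, mul_apply, th, derivative_sum, derivative_mul,
    Finset.mul_sum, ← Finset.sum_add_distrib]
  exact Finset.sum_congr rfl fun k _ => by ring

theorem nres_th_smul {R : Type*} [CommRing R] (a : R[X]) (M : Matrix (Fin r) (Fin r) R[X]) :
    (a • M).map th = th a • M + a • M.map th := by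
  ext1 i j
  simp only [map_apply, Matrix.add_apply, Matrix.smul_apply, smul_eq_mul, th, derivative_mul]
  ring

theorem nres_th_pow {R : Type*} [CommRing R] (p : ℕ) [CharP R p] (a : R[X]) : th (a ^ p) = 0 := by
  rw [th, derivative_pow, CharP.cast_eq_zero, C_0, zero_mul, zero_mul, mul_zero]

/-- The companion matrix of `∏ (X - C (β j))`. -/
noncomputable def comp0 {R : Type*} [CommRing R] (β : Fin r → R) : Matrix (Fin r) (Fin r) R :=
  Matrix.of fun k j => if (k : ℕ) + 1 = r then -(∏ i, (X - C (β i))).coeff j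
    else if (j : ℕ) = (k : ℕ) + 1 then 1 else 0

/-- The columns `(β j ^ k)_k` are eigenvectors of the companion matrix. -/
theorem comp0_mul {R : Type*} [CommRing R] (β : Fin r → R) :
    comp0 β * (vandermonde β)ᵀ = (vandermonde β)ᵀ * diagonal β := by
  ext k j
  rw [mul_diagonal, mul_apply]
  simp only [comp0, of_apply, transpose_apply, vandermonde_apply]
  by_cases hk : (k : ℕ) + 1 = r
  · simp only [if_pos hk]
    have hm : (∏ i, (X - C (β i))).Monic := monic_prod_of_monic _ _ fun i _ => monic_X_sub_C _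
    have h0 : (∏ i, (X - C (β i))).eval (β j) = 0 := by
      rw [eval_prod]
      exact Finset.prod_eq_zero (Finset.mem_univ j) (by simp)
    nontriviality R
    have hd : (∏ i, (X - C (β i))).natDegree = r := by
      rw [natDegree_prod_of_monic _ _ fun i _ => monic_X_sub_C _]
      simp
    have h1 := hm.coeff_natDegree
    rw [hd] at h1
    rw [eval_eq_sum_range, hd, Finset.sum_range_succ, h1, one_mul, Finset.sum_range] at h0
    rw [← pow_succ, hk]
    simp only [neg_mul, Finset.sum_neg_distrib]
    exact (eq_neg_of_add_eq_zero_right h0).symm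
  · simp only [if_neg hk]
    rw [Finset.sum_eq_single (⟨k + 1, by have := k.2; omega⟩ : Fin r)]
    · simp [pow_succ]
    · intro b _ hb
      rw [if_neg fun hh => hb (Fin.ext hh), zero_mul]
    · simp

/-- The reductions of `H` and `N` define the Euler equation with exponents `β`. -/
def EulerRed {R : Type*} [CommRing R] (H : (PowerSeries R)[X]) (N : Fin r → (PowerSeries R)[X])
    (c : R) (j0 : ℕ) (β : Fin r → R) : Prop :=
  red H = C c * X ^ j0 ∧ ∀ k : Fin r, red (N k) = C (c * (∏ i, (X - C (β i))).coeff k) * X ^ j0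

theorem EulerRed.map {R S : Type*} [CommRing R] [CommRing S] (φ : R →+* S)
    {H : (PowerSeries R)[X]} {N : Fin r → (PowerSeries R)[X]} {c : R} {j0 : ℕ} {β : Fin r → R}
    (h : EulerRed H N c j0 β) :
    EulerRed (mps φ H) (fun k => mps φ (N k)) (φ c) j0 fun j => φ (β j) := by
  have key : ∀ P : (PowerSeries R)[X], red (mps φ P) = (red P).map φ := fun P => by
    ext m
    simp only [red, mps, coe_mapRingHom, coeff_map,
      ← PowerSeries.coeff_zero_eq_constantCoeff_apply, PowerSeries.coeff_map]
  have e : (∏ i, (X - C (φ (β i)))) = (∏ i, (X - C (β i))).map φ := by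
    simp [Polynomial.map_prod]
  refine ⟨by simp [key, h.1], fun k => ?_⟩
  rw [key, h.2 k, e, coeff_map]
  simp

theorem EulerRed.cmp {R : Type*} [CommRing R] {H : (PowerSeries R)[X]}
    {N : Fin r → (PowerSeries R)[X]} {c : R} {j0 : ℕ} {β : Fin r → R} (h : EulerRed H N c j0 β) :
    (cmp H N).map red = (C c * X ^ j0 : R[X]) • (comp0 β).map C := by
  ext1 k j
  simp only [Pool.Agent.GR.cmp, comp0, map_apply, of_apply, Matrix.smul_apply, smul_eq_mul]
  split_ifs
  · rw [map_neg, h.2 j, C_neg, C_mul]
    ring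
  · rw [h.1, C_1, mul_one]
  · simp

theorem nfErr_map {R S : Type*} [CommRing R] [CommRing S] (φ : R →+* S) (H : (PowerSeries R)[X])
    (N : Fin r → (PowerSeries R)[X]) (β : Fin r → R)
    (g : Matrix (Fin r) (Fin r) (PowerSeries R)[X]) :
    (nfErr H N β g).map (mps φ) =
      nfErr (mps φ H) (fun k => mps φ (N k)) (fun j => φ (β j)) (g.map (mps φ)) := by
  have e1 : (g.map th).map (mps φ) = (g.map (mps φ)).map th := by
    ext1 a b
    exact th_map _ _
  have e2 : (diagonal fun j => (C (PowerSeries.C (β j)) : (PowerSeries R)[X])).map (mps φ) =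
      diagonal fun j => C (PowerSeries.C (φ (β j))) := by
    rw [diagonal_map (map_zero _)]
    simp [mps]
  have e3 : (cmp H N).map (mps φ) = cmp (mps φ H) fun k => mps φ (N k) := by
    ext1 k j
    simp only [cmp, map_apply, of_apply]
    split_ifs <;> simp
  rw [nfErr, nfErr, Matrix.map_sub _ (map_sub _), nres_map_smul, Matrix.map_add _ (map_add _),
    Matrix.map_mul, Matrix.map_mul, e1, e2, e3]

/-- Let `Y = wr y`, `W = det Y` from `CPO1`, so `H • Y.map th = cmp H N * Y` (`wr_eq`). Put
`u = W ^ (p - 1) • (adjugate Y * g)`, so `Y * u = W ^ p • g` and `th (W ^ p) = 0`. With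
`𝒟 u = u.map th + u * diagonal γ` one gets `H • (Y * 𝒟 u) = W ^ p • nfErr H N γ g`. Hence
`𝒟 u = C (X ^ K) • ε` (multiply by the adjugate, `dvd_of_dvd_mul_red`), and reducing,
`c • red Y * red ε = red W ^ p • E` (cancel `X ^ j0`). Since `red Y` solves
`th (red Y) = comp0 β * red Y` and `E` is resonant, `𝒟 (red ε) = 0`. Coefficientwise
`(m + γ b) * (red ε a b).coeff m = 0`; if `m + γ b = 0` in `κ` then the coefficient of `𝒟 u`
vanishes, so `(ε a b).coeff m = 0`. Thus `red ε = 0` and `E = 0`. -/
theorem resonant_zero {κ : Type} [Field κ] (p : ℕ) [Fact p.Prime] [CharP κ p]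
    {H : (PowerSeries κ)[X]} {N : Fin r → (PowerSeries κ)[X]} {c : κ} (hc : c ≠ 0) {j0 : ℕ}
    {β : Fin r → κ} (he : EulerRed H N c j0 β) (ho : CPO1 H N) (γ : Fin r → κ) {K : ℕ}
    {g ε : Matrix (Fin r) (Fin r) (PowerSeries κ)[X]} {E : Matrix (Fin r) (Fin r) κ[X]}
    (hg : nfErr H N γ g = (C (PowerSeries.X ^ K) : (PowerSeries κ)[X]) • ε)
    (hε : ε.map red = (X ^ j0 : κ[X]) • E)
    (hE : E.map th + E * diagonal (fun j => C (γ j)) = (comp0 β).map C * E) : E = 0 := by
  obtain ⟨y, hW, hy⟩ := ho
  have hY := wr_eq hy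
  generalize wr y = Y at hW hY
  have hp : p - 1 + 1 = p := Nat.sub_add_cancel (Fact.out : p.Prime).one_le
  have : CharP (PowerSeries κ) p := charP_of_injective_ringHom PowerSeries.C_injective p
  obtain ⟨u, hu⟩ : ∃ u, Y * u = Y.det ^ p • g := ⟨Y.det ^ (p - 1) • (adjugate Y * g), by
    rw [Matrix.mul_smul, ← Matrix.mul_assoc, mul_adjugate, Matrix.smul_mul, Matrix.one_mul,
      smul_smul, ← pow_succ, hp]⟩
  obtain ⟨Γ, hΓ⟩ : ∃ Γ, Γ = diagonal fun j => (C (PowerSeries.C (γ j)) : (PowerSeries κ)[X]) :=
    ⟨_, rfl⟩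
  have e1 : Y.map th * u + Y * u.map th = Y.det ^ p • g.map th := by
    rw [← nres_th_mul, hu, nres_th_smul, nres_th_pow p, zero_smul, zero_add]
  have e2 : H • (Y * (u.map th + u * Γ)) = Y.det ^ p • nfErr H N γ g := by
    have e3 : cmp H N * (Y.det ^ p • g) = H • (Y.map th * u) := by
      rw [← hu, ← Matrix.mul_assoc, ← hY, Matrix.smul_mul]
    rw [nfErr, ← hΓ, smul_sub, ← Matrix.mul_smul (cmp H N), e3, smul_comm _ H, smul_add, ← e1,
      Matrix.mul_add, ← Matrix.mul_assoc, hu, Matrix.smul_mul]
    simp only [smul_add]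
    abel
  have hH : red H ≠ 0 := by
    rw [he.1]
    exact mul_ne_zero (C_ne_zero.2 hc) (pow_ne_zero _ X_ne_zero)
  have e4 : (H * Y.det) • (u.map th + u * Γ) =
      (C (PowerSeries.X ^ K) : (PowerSeries κ)[X]) • Y.det ^ p • (adjugate Y * ε) := by
    have := congrArg (fun M => adjugate Y * M) e2
    simp only [hg, Matrix.mul_smul, ← Matrix.mul_assoc, adjugate_mul, Matrix.smul_mul,
      Matrix.one_mul, smul_smul] at this
    rw [this, smul_smul, mul_comm]
  have e5 : ∀ a b, ∃ z, (u.map th + u * Γ) a b = C (PowerSeries.X ^ K) * z := fun a b =>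
    dvd_of_dvd_mul_red (W := H * Y.det) (by rw [map_mul]; exact mul_ne_zero hH hW) K
      ⟨(Y.det ^ p • (adjugate Y * ε)) a b, by
      have := congrFun (congrFun e4 a) b
      rw [Matrix.smul_apply, Matrix.smul_apply, smul_eq_mul, smul_eq_mul] at this
      rw [mul_comm, this]⟩
  choose η hη using e5
  have e6 : u.map th + u * Γ = (C (PowerSeries.X ^ K) : (PowerSeries κ)[X]) • Matrix.of η := by
    ext1 a b
    exact hη a b
  have hK : (C (PowerSeries.X ^ K) : (PowerSeries κ)[X]) ≠ 0 :=
    C_ne_zero.2 (pow_ne_zero _ PowerSeries.X_ne_zero)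
  have e7 : H • (Y * Matrix.of η) = Y.det ^ p • ε := by
    refine nres_cancel hK ?_
    rw [smul_comm, ← Matrix.mul_smul, ← e6, e2, hg, smul_comm]
  have hX : (X ^ j0 : κ[X]) ≠ 0 := pow_ne_zero _ X_ne_zero
  have hcX : (C c : κ[X]) ≠ 0 := C_ne_zero.2 hc
  have e8 : (C c : κ[X]) • (Y.map red * (Matrix.of η).map red) = red Y.det ^ p • E := by
    have := congrArg (fun M => M.map red) e7
    simp only [nres_map_smul, Matrix.map_mul, hε, he.1, map_pow] at this
    refine nres_cancel hX ?_
    rw [smul_smul, mul_comm, this, smul_comm]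
  have e9 : (Y.map red).map th = (comp0 β).map C * Y.map red := by
    have := congrArg (fun M => M.map red) hY
    simp only [nres_map_smul, Matrix.map_mul, he.cmp, he.1, Matrix.smul_mul] at this
    refine Eq.trans ?_ (nres_cancel (mul_ne_zero hcX hX) this)
    ext1 a b
    exact (th_map _ _).symm
  have e10 : (C c : κ[X]) • (Y.map red * (((Matrix.of η).map red).map th +
      (Matrix.of η).map red * diagonal fun j => C (γ j))) = 0 := by
    have t1 := congrArg (fun M => M.map th) e8
    simp only [nres_th_smul, nres_th_mul, nres_th_pow p, e9] at t1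
    have t0 : th (C c : κ[X]) = 0 := by simp [th]
    rw [t0, zero_smul, zero_add, zero_smul, zero_add, smul_add] at t1
    have t2 := congrArg (fun M => red Y.det ^ p • M) hE
    simp only [smul_add] at t2
    rw [← t1, ← Matrix.smul_mul _ E, ← Matrix.mul_smul _ _ E, ← e8, Matrix.mul_smul,
      Matrix.smul_mul, ← Matrix.mul_assoc, add_assoc, add_eq_left] at t2
    rw [Matrix.mul_add, smul_add, ← Matrix.mul_assoc, t2]
  have hW' : (Y.map red).det ≠ 0 := by
    rwa [show (Y.map red).det = red Y.det from (RingHom.map_det (red (R := κ)) Y).symm]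
  have e11 : ((Matrix.of η).map red).map th +
      (Matrix.of η).map red * diagonal (fun j => C (γ j)) = 0 := by
    have := congrArg (fun M => adjugate (Y.map red) * M) (nres_cancel hcX (e10.trans
      (smul_zero _).symm))
    simp only [← Matrix.mul_assoc, adjugate_mul, Matrix.smul_mul, Matrix.one_mul,
      Matrix.mul_zero] at this
    exact nres_cancel hW' (this.trans (smul_zero _).symm)
  have e12 : (Matrix.of η).map red = 0 := by
    ext a b m
    have t1 := congrArg (fun P => P.coeff m) (congrFun (congrFun e11 a) b)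
    simp only [Matrix.add_apply, mul_diagonal, map_apply, of_apply, coeff_add, coeff_th,
      coeff_mul_C, Matrix.zero_apply, coeff_zero] at t1
    by_cases h0 : (m : κ) + γ b = 0
    · have t2 := congrArg (fun P => P.coeff m) (hη a b)
      simp only [hΓ, Matrix.add_apply, mul_diagonal, map_apply, coeff_add, coeff_th,
        coeff_mul_C, coeff_C_mul] at t2
      have t3 : (m : PowerSeries κ) + PowerSeries.C (γ b) = 0 := by
        rw [← map_natCast (PowerSeries.C (R := κ)), ← map_add, h0, map_zero]
      rw [mul_comm ((u a b).coeff m), ← add_mul, t3, zero_mul] at t2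
      have t4 := (mul_eq_zero.1 t2.symm).resolve_left (pow_ne_zero _ PowerSeries.X_ne_zero)
      simp [red, t4]
    · rw [mul_comm _ (γ b), ← add_mul] at t1
      simpa using (mul_eq_zero.1 t1).resolve_left h0
  rw [e12, Matrix.mul_zero, smul_zero] at e8
  exact nres_cancel (pow_ne_zero p hW) (e8.symm.trans (smul_zero _).symm)

end Pool.Agent.GR
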