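import Pool.Agent.Lib.MP_aa40d3_nt.GR.Rect

/-! Comparison of the loops joined from below and from the left. Choose a small rectangle
`[lo, hi] × [y1, y2]` around `pts c` inside the box, valid in both directions. By `vt_eq_RL`,
`vt c = Pb⁻¹ * RL * Pb` with `Pb = Ybot (lo, y1)`, and by `vt_eq_RL` for the swapped data
`vs c = Pl⁻¹ * RL * Pl` with `Pl = T (-H, y1) (lo, y1) * T (-H, -H) (-H, y1)` (the swapped `RL` is
the inverse of `RL`). Moreover `Pl⁻¹ * Pb = RL T (-H) lo (-H) y1`, which is `1` if there is no point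
to the lower left of `pts c`, and equals `vt i` if `pts i` is the only one (`RL_nest` and
`vt_eq_RL` with the same small rectangle around `pts i`). -/

open Set

namespace Pool.Agent.GR

variable {n : ℕ} {G : Type*} [Group G] {T : ℝ × ℝ → ℝ × ℝ → G} {pts : Fin n → ℝ × ℝ} {H : ℝ}

private theorem swap_inv (hT : RectT T pts) {x1 x2 y1 y2 : ℝ}
    (hf : ∀ i, pts i ∉ Icc x1 x2 ×ˢ Icc y1 y2) {a b : ℝ × ℝ} (ha : a ∈ Icc x1 x2 ×ˢ Icc y1 y2)
    (hb : b ∈ Icc x1 x2 ×ˢ Icc y1 y2) : T b a = (T a b)⁻¹ := by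
  have h1 : T a a = 1 := by
    have := hT _ _ _ _ hf a ha a ha a ha
    exact mul_eq_left.1 this
  rw [eq_inv_iff_mul_eq_one, hT _ _ _ _ hf a ha b hb a ha, h1]

private theorem swap_invH (hT : RectT T pts) {y : ℝ} (hf : ∀ i, (pts i).2 ≠ y) {x x' : ℝ}
    (h : x ≤ x') : T (x', y) (x, y) = (T (x, y) (x', y))⁻¹ :=
  swap_inv hT (x1 := x) (x2 := x') (y1 := y) (y2 := y)
    (fun i hi => hf i (le_antisymm hi.2.2 hi.2.1)) ⟨⟨le_rfl, h⟩, le_rfl, le_rfl⟩
    ⟨⟨h, le_rfl⟩, le_rfl, le_rfl⟩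

private theorem swap_invV (hT : RectT T pts) {x : ℝ} (hf : ∀ i, (pts i).1 ≠ x) {y y' : ℝ}
    (h : y ≤ y') : T (x, y') (x, y) = (T (x, y) (x, y'))⁻¹ :=
  swap_inv hT (x1 := x) (x2 := x) (y1 := y) (y2 := y')
    (fun i hi => hf i (le_antisymm hi.1.2 hi.1.1)) ⟨⟨le_rfl, le_rfl⟩, le_rfl, h⟩
    ⟨⟨le_rfl, le_rfl⟩, h, le_rfl⟩

private theorem swap_valid {x : Fin n → ℝ} (hx : Function.Injective x) (i : Fin n) {a b : ℝ}
    (ha : a < x i) (hb : x i < b) : ∃ lo hi, a ≤ lo ∧ hi ≤ b ∧ ValidAt x i lo hi := by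
  obtain ⟨ε, hε, h⟩ := exists_validAt hx i
  exact ⟨max a (x i - ε), min b (x i + ε), le_max_left _ _, min_le_left _ _,
    h _ _ (le_max_right _ _) (max_lt ha (by linarith)) (lt_min hb (by linarith))
      (min_le_right _ _)⟩

private theorem swap_ne {x : Fin n → ℝ} {i : Fin n} {lo hi : ℝ} (h : ValidAt x i lo hi) (j : Fin n) :
    x j ≠ lo ∧ x j ≠ hi := by
  have h1 := h.1
  have h2 := h.2.1
  by_cases e : j = i
  · rw [e]
    exact ⟨h1.ne', h2.ne⟩
  · exact ⟨fun e1 => h.2.2 j e ⟨e1.ge, by linarith⟩, fun e1 => h.2.2 j e ⟨by linarith, e1.le⟩⟩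

private theorem swap_lt {x : Fin n → ℝ} {i : Fin n} {lo hi : ℝ} (h : ValidAt x i lo hi) {j : Fin n}
    (hj : x j < x i) : x j < lo := by
  by_contra h1
  exact h.2.2 j (fun e => hj.ne (by rw [e])) ⟨not_lt.1 h1, (hj.trans h.2.1).le⟩

private theorem swap_key (hT : RectT T pts) (hb : InBox pts H)
    (hx : Function.Injective fun j => (pts j).1) (hy : Function.Injective fun j => (pts j).2)
    (c : Fin n) : ∃ lo y1 : ℝ, -H ≤ lo ∧ -H ≤ y1 ∧ lo < (pts c).1 ∧ y1 < (pts c).2 ∧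
      (∀ d, (pts d).1 < (pts c).1 → (pts d).1 < lo) ∧
      (∀ d, (pts d).2 < (pts c).2 → (pts d).2 < y1) ∧
      vt T pts H c = (RL T (-H) lo (-H) y1)⁻¹ * vs T pts H c * RL T (-H) lo (-H) y1 := by
  obtain ⟨b1, b2⟩ := abs_lt.1 (hb c).1
  obtain ⟨b3, b4⟩ := abs_lt.1 (hb c).2
  obtain ⟨lo, hi, g1, g2, hv⟩ := swap_valid hx c b1 b2
  obtain ⟨y1, y2, g3, g4, hw⟩ := swap_valid hy c b3 b4
  refine ⟨lo, y1, g1, g3, hv.1, hw.1, fun d => swap_lt hv, fun d => swap_lt hw, ?_⟩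
  have e1 := vt_eq_RL hT hb hv g3 hw.1 hw.2.1 g4
  have e2 := vt_eq_RL hT.swap hb.swap (i := c) (lo := y1) (hi := y2) (y1 := lo) (y2 := hi) hw g1
    hv.1 hv.2.1 g2
  have l1 : lo ≤ hi := (hv.1.trans hv.2.1).le
  have l2 : y1 ≤ y2 := (hw.1.trans hw.2.1).le
  have hH : ∀ j, (pts j).1 ≠ -H := fun j => (abs_lt.1 (hb j).1).1.ne'
  rw [vs, e1, e2]
  simp only [RL, Ybot, Prod.swap_prod_mk]
  rw [swap_invH hT (fun j => (swap_ne hw j).1) l1, swap_invH hT (fun j => (swap_ne hw j).2) l1,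
    swap_invV hT (fun j => (swap_ne hv j).1) l2, swap_invV hT (fun j => (swap_ne hv j).2) l2,
    swap_invH hT (fun j => (swap_ne hw j).1) g1, swap_invV hT hH g3]
  group

private theorem swap_inj {ρ x : Fin n → ℝ} (hρ : Function.Injective ρ)
    (h : ∀ a b, ρ a < ρ b → x a ≠ x b) : Function.Injective x := fun a b e => by
  rcases lt_trichotomy (ρ a) (ρ b) with h1 | h1 | h1
  · exact absurd e (h a b h1)
  · exact hρ h1
  · exact absurd e.symm (h b a h1)

private theorem swap_refl {ρ x : Fin n → ℝ} (hρ : Function.Injective ρ)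
    (h : ∀ a b, ρ a < ρ b → x a < x b) {a b : Fin n} (hab : x a < x b) : ρ a < ρ b := by
  rcases lt_trichotomy (ρ a) (ρ b) with h1 | h1 | h1
  · exact h1
  · rw [hρ h1] at hab
    exact absurd hab (lt_irrefl _)
  · exact absurd (h b a h1) hab.not_gt

theorem vt_eq_vs (hT : RectT T pts) (hb : InBox pts H)
    (hx : Function.Injective fun j => (pts j).1) (hy : Function.Injective fun j => (pts j).2)
    {c : Fin n} (h : ∀ d, (pts d).1 < (pts c).1 → (pts c).2 < (pts d).2) :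
    vt T pts H c = vs T pts H c := by
  obtain ⟨lo, y1, g1, g2, g3, g4, -, -, e⟩ := swap_key hT hb hx hy c
  have hf : ∀ d, pts d ∉ Icc (-H) lo ×ˢ Icc (-H) y1 := fun d hd => by
    have h1 := h d (hd.1.2.trans_lt g3)
    have h2 := hd.2.2
    linarith
  have m1 : (-H, -H) ∈ Icc (-H) lo ×ˢ Icc (-H) y1 := ⟨⟨le_rfl, g1⟩, le_rfl, g2⟩
  have m2 : (lo, -H) ∈ Icc (-H) lo ×ˢ Icc (-H) y1 := ⟨⟨g1, le_rfl⟩, le_rfl, g2⟩
  have m3 : (lo, y1) ∈ Icc (-H) lo ×ˢ Icc (-H) y1 := ⟨⟨g1, le_rfl⟩, g2, le_rfl⟩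
  have m4 : (-H, y1) ∈ Icc (-H) lo ×ˢ Icc (-H) y1 := ⟨⟨le_rfl, g1⟩, g2, le_rfl⟩
  have e1 : RL T (-H) lo (-H) y1 = 1 := by
    rw [RL, hT _ _ _ _ hf _ m3 _ m4 _ m1, hT _ _ _ _ hf _ m2 _ m3 _ m1, swap_inv hT hf m1 m2,
      inv_mul_cancel]
  rw [e, e1, inv_one, one_mul, mul_one]

theorem vt_eq_conj_vs (hT : RectT T pts) (hb : InBox pts H)
    (hx : Function.Injective fun j => (pts j).1) (hy : Function.Injective fun j => (pts j).2)
    {c i : Fin n} (h1 : (pts i).1 < (pts c).1) (h2 : (pts i).2 < (pts c).2)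
    (h : ∀ d, d ≠ i → (pts d).1 < (pts c).1 → (pts c).2 < (pts d).2) :
    vt T pts H c = (vt T pts H i)⁻¹ * vs T pts H c * vt T pts H i := by
  obtain ⟨lo, y1, g1, g2, g3, g4, g5, g6, e⟩ := swap_key hT hb hx hy c
  obtain ⟨lo', hi', k1, k2, hv⟩ := swap_valid hx i (abs_lt.1 (hb i).1).1 (g5 i h1)
  have k3 := (abs_lt.1 (hb i).2).1
  have k4 := (abs_lt.1 (hb c).2).2
  have e1 := vt_eq_RL hT hb hv le_rfl k3 (g6 i h2) (g4.trans k4).le
  have e2 := RL_nest hT k1 (hv.1.trans hv.2.1).le k2 le_rfl g2 le_rfl fun d hd => by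
    by_cases hdi : d = i
    · rw [hdi]
      exact ⟨⟨hv.1, hv.2.1⟩, k3, g6 i h2⟩
    · have h3 := h d hdi (hd.1.2.trans_lt g3)
      have h4 := hd.2.2
      exact absurd h3 (by linarith)
  rw [e, e1, e2]
  rfl

/-- The heights are ordered oppositely to `ρ` and the abscissae like `ρ`. -/
theorem vt_eq_vs_of_anti (hT : RectT T pts) (hb : InBox pts H) {ρ : Fin n → ℝ}
    (hρ : Function.Injective ρ) (hx : ∀ a b, ρ a < ρ b → (pts a).1 < (pts b).1)
    (hy : ∀ a b, ρ a < ρ b → (pts b).2 < (pts a).2) : vt T pts H = vs T pts H := by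
  funext c
  exact vt_eq_vs hT hb (swap_inj hρ fun a b h => (hx a b h).ne)
    (swap_inj hρ fun a b h => (hy a b h).ne') fun d hd => hy d c (swap_refl hρ hx hd)

/-- The heights are ordered oppositely to `ρ` and the abscissae like `ρ` after the move: the only
pairs in lower left position are `(i, c)` with `c ∈ mvS ρ i x`. -/
theorem vt_eq_mvT_vs (hT : RectT T pts) (hb : InBox pts H) {ρ : Fin n → ℝ}
    (hρ : Function.Injective ρ) {i : Fin n} {x : ℝ} (hi : x < ρ i) (hfree : ∀ c, ρ c ≠ x)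
    (hx : ∀ a b, Function.update ρ i x a < Function.update ρ i x b → (pts a).1 < (pts b).1)
    (hy : ∀ a b, ρ a < ρ b → (pts b).2 < (pts a).2) :
    vt T pts H = mvT (vs T pts H) i (mvS ρ i x) := by
  have hρ' : Function.Injective (Function.update ρ i x) := by
    intro a b e
    by_cases ha : a = i <;> by_cases hb' : b = i
    · rw [ha, hb']
    · rw [ha, Function.update_self, Function.update_of_ne hb'] at e
      exact absurd e.symm (hfree b)
    · rw [hb', Function.update_self, Function.update_of_ne ha] at e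
      exact absurd e (hfree a)
    · rw [Function.update_of_ne ha, Function.update_of_ne hb'] at e
      exact hρ e
  have ix := swap_inj hρ' fun a b h => (hx a b h).ne
  have iy := swap_inj hρ fun a b h => (hy a b h).ne'
  have hoth : ∀ c d, c ≠ i → d ≠ i → (pts d).1 < (pts c).1 → (pts c).2 < (pts d).2 :=
    fun c d hc hd h => by
      have h1 := swap_refl hρ' hx h
      rw [Function.update_of_ne hc, Function.update_of_ne hd] at h1
      exact hy d c h1
  have ei : vt T pts H i = vs T pts H i := vt_eq_vs hT hb ix iy fun d hd => by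
    have h1 := swap_refl hρ' hx hd
    have h2 : d ≠ i := fun e => hd.ne (by rw [e])
    rw [Function.update_self, Function.update_of_ne h2] at h1
    exact hy d i (h1.trans hi)
  funext c
  rw [mvT]
  split_ifs with hc
  · obtain ⟨h1, h2⟩ := (Finset.mem_filter.1 hc).2
    have h3 : c ≠ i := fun e => h2.ne (by rw [e])
    rw [← ei]
    exact vt_eq_conj_vs hT hb ix iy
      (hx i c (by rwa [Function.update_self, Function.update_of_ne h3])) (hy c i h2)
      fun d hd => hoth c d h3 hd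
  · by_cases h3 : c = i
    · rw [h3, ei]
    · refine vt_eq_vs hT hb ix iy fun d hd => ?_
      by_cases h4 : d = i
      · have h1 := swap_refl hρ' hx hd
        rw [h4, Function.update_self, Function.update_of_ne h3] at h1
        have h2 : ¬ρ c < ρ i := fun h2 => hc (Finset.mem_filter.2 ⟨Finset.mem_univ _, h1, h2⟩)
        rw [h4]
        exact hy i c (lt_of_le_of_ne (not_lt.1 h2) fun e => h3 (hρ e).symm)
      · exact hoth c d h3 h4 hd

end Pool.Agent.GR
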