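import Pool.Agent.Lib.MP_aa40d3_nt.GR.Arc
import Pool.Agent.Lib.MP_aa40d3_nt.GR.Swap
import Pool.Agent.Lib.MP_aa40d3_nt.GR.GramA

/-! The oracle along the whole orbit of moves. -/

open Polynomial Matrix Set
open scoped Matrix.Norms.Operator

namespace Pool.Agent.GR

variable {n r : ℕ} [NeZero r]

theorem path_update_inj {ρ : Fin n → ℝ} (hρ : Function.Injective ρ) (i : Fin n) {x : ℝ}
    (hx : ∀ c, ρ c ≠ x) : Function.Injective (Function.update ρ i x) := by
  intro a b hab
  by_cases ha : a = i <;> by_cases hb : b = i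
  · rw [ha, hb]
  · subst ha
    rw [Function.update_self, Function.update_of_ne hb] at hab
    exact absurd hab.symm (hx b)
  · subst hb
    rw [Function.update_self, Function.update_of_ne ha] at hab
    exact absurd hab (hx a)
  · rw [Function.update_of_ne ha, Function.update_of_ne hb] at hab
    exact hρ hab

theorem path_diffU_mvT {E : Type*} [NormedAddCommGroup E] [NormedSpace ℂ E] {x : E}
    {g : E → Fin n → (Mat r)ˣ} (hg : ∀ i, DiffU (fun y => g y i) x) (i : Fin n)
    (S : Finset (Fin n)) (c : Fin n) : DiffU (fun y => mvT (g y) i S c) x := by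
  unfold mvT
  by_cases hc : c ∈ S
  · simp only [if_pos hc]
    exact (((hg i).inv).mul (hg c)).mul (hg i)
  · simp only [if_neg hc]
    exact hg c

theorem path (M : Model n r) {H : ℝ} (hH : 0 < H) (μ : List (Fin n × ℝ)) :
    ∀ {ρ : Fin n → ℝ}, Function.Injective ρ → ValidL μ ρ → ∀ {l : List (Fin n)},
      LowerL (rhoL μ ρ) l → ∀ {w : Fin n ⊕ Fin M.m → ℂ}, w ∈ Cham M.m ρ H → ev1 w M.G ≠ 0 →
      ∀ {θ : ℂ}, ev2 w θ M.F = 0 →
        Orr r M.ζ l.toFinset ((l.map (mvTL μ ρ (mon M H (w, θ)))).prod.val).charpoly := by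
  induction μ with
  | nil => exact fun hρ _ l hl w hw hG θ hF => arc M hρ hl hw hG hF
  | cons m μ ih =>
    intro ρ hρ hv l hl w hw hG θ hF
    obtain ⟨h1, h2, h3⟩ := hv
    have hρ' := path_update_inj hρ m.1 h2
    have hB : ∀ w ∈ ChamI M.m ρ H, ev1 w M.G ≠ 0 → ∀ θ, ev2 w θ M.F = 0 →
        Orr r M.ζ l.toFinset ((l.map (mvTL μ (Function.update ρ m.1 m.2)
          (mvT (mos M H (w, θ)) m.1 (mvS ρ m.1 m.2)))).prod.val).charpoly := by
      intro w hw hG θ hF
      refine charpoly_cont_open M (isOpen_ChamI ρ H) (convex_ChamI ρ H)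
        ((isOpen_Cham (Function.update ρ m.1 m.2) H).inter (isOpen_ChamI ρ H))
        inter_subset_right (exists_mem_Cham ρ _ hH)
        (fun y => (l.map (mvTL μ (Function.update ρ m.1 m.2)
          (mvT (mos M H y) m.1 (mvS ρ m.1 m.2)))).prod) ?_ M.ζ l.toFinset ?_ hw hG hF
      · intro w hw hG θ
        exact DiffU.list_prod (fun i => DiffU.mvTL (fun c => path_diffU_mvT
          (fun j => diffU_mos M hρ hw hG θ j) _ _ c) μ _ i) l
      · intro w hw hG θ hF
        have e : mon M H (w, θ) = mvT (mos M H (w, θ)) m.1 (mvS ρ m.1 m.2) :=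
          vt_eq_mvT_vs (rectT_TT _ _) hw.1.1 hρ h1 h2 hw.1.2 hw.2.2
        have := ih hρ' h3 hl hw.1 hG hF
        rwa [e] at this
    refine charpoly_cont_open M (isOpen_Cham ρ H) (convex_Cham ρ H)
      ((isOpen_Cham ρ H).inter (isOpen_ChamI ρ H)) inter_subset_left (exists_mem_Cham ρ _ hH)
      (fun y => (l.map (mvTL μ (Function.update ρ m.1 m.2)
          (mvT (mon M H y) m.1 (mvS ρ m.1 m.2)))).prod) ?_ M.ζ l.toFinset ?_ hw hG hF
    · intro w hw hG θ
      exact DiffU.list_prod (fun i => DiffU.mvTL (fun c => path_diffU_mvT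
        (fun j => diffU_mon M hρ hw hG θ j) _ _ c) μ _ i) l
    · intro w hw hG θ hF
      have e : mon M H (w, θ) = mos M H (w, θ) :=
        vt_eq_vs_of_anti (rectT_TT _ _) hw.1.1 hρ hw.1.2 hw.2.2
      have := hB w hw.2 hG θ hF
      rwa [← e] at this

end Pool.Agent.GR
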