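import Pool.Agent.Lib.MP_aa40d3_nt.GR.Herm
import Pool.Agent.Lib.MP_aa40d3_nt.GR.Arg

/-! The dual Gram matrix and the signs of the minors. -/

open Polynomial Matrix
open scoped ComplexOrder

namespace Pool.Agent.GR

variable {n : ℕ}

theorem psda_mul_conj {z : ℂ} (hz : ‖z‖ = 1) : z * (starRingEnd ℂ) z = 1 := by
  rw [Complex.mul_conj, Complex.normSq_eq_norm_sq, hz]; simp

theorem psda_ne {z : ℂ} (hz : ‖z‖ = 1) : z ≠ 0 := by
  rintro rfl; simp at hz

theorem psda_conj_inv {z : ℂ} (hz : ‖z‖ = 1) : (starRingEnd ℂ) z⁻¹ = z := by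
  have h := psda_mul_conj hz
  rw [map_inv₀]
  exact (eq_inv_of_mul_eq_one_left h).symm

theorem psda_mvN {ζ : Fin n → ℂ} (hζ : ∀ i, ‖ζ i‖ = 1) (N : Matrix (Fin n) (Fin n) ℂ)
    (i : Fin n) (S : Finset (Fin n)) : mvN ζ (starN ζ N) i S = starN ζ (mvN ζ N i S) := by
  ext a b
  have h0 := psda_ne (hζ i)
  have h1 := psda_conj_inv (hζ i)
  by_cases ha : a ∈ S <;> by_cases hb : b ∈ S
  · simp only [mvN, starN, Matrix.of_apply, ha, hb, if_true]
  · simp only [mvN, starN, Matrix.of_apply, ha, hb, if_true, if_false, map_add, map_mul, h1]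
    ring
  · simp only [mvN, starN, Matrix.of_apply, ha, hb, if_true, if_false, map_sub, map_mul]
    field_simp
    ring
  · simp only [mvN, starN, Matrix.of_apply, ha, hb, if_false]

theorem starN_mvNL {ζ : Fin n → ℂ} (hζ : ∀ i, ‖ζ i‖ = 1) (μ : List (Fin n × ℝ)) (ρ : Fin n → ℝ)
    (N : Matrix (Fin n) (Fin n) ℂ) : mvNL ζ μ ρ (starN ζ N) = starN ζ (mvNL ζ μ ρ N) := by
  induction μ generalizing ρ N with
  | nil => rfl
  | cons m μ ih =>
    simp only [mvNL]
    rw [psda_mvN hζ, ih]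

theorem psda_eval_minor (J : Finset (Fin n)) (M : Matrix (Fin n) (Fin n) ℂ[X]) (x : ℂ) :
    (minor J M).eval x = minor J (M.map (Polynomial.eval x)) := by
  unfold minor
  have := (Polynomial.evalRingHom x).map_det
    (M.submatrix (Subtype.val : J → Fin n) Subtype.val)
  simpa [RingHom.mapMatrix_apply, Matrix.submatrix_map] using this

theorem psda_entry {ζ : Fin n → ℂ} (hζ : ∀ i, ‖ζ i‖ = 1) {ρ : Fin n → ℝ}
    (hρ : Function.Injective ρ) (N : Matrix (Fin n) (Fin n) ℂ) {x : ℂ} (hx : x ≠ 0)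
    (a b : Fin n) :
    (Qm ρ ζ (starN ζ N) a b).eval x =
      (-ζ a * x) * (starRingEnd ℂ) ((Qm ρ ζ N b a).eval ((starRingEnd ℂ) x)⁻¹) := by
  by_cases hab : a = b
  · subst hab
    have h := psda_mul_conj (hζ a)
    simp only [Qm, Matrix.of_apply, if_true, eval_sub, eval_X, eval_C, map_sub, map_inv₀,
      Complex.conj_conj]
    have : -ζ a * x * (x⁻¹ - (starRingEnd ℂ) (ζ a)) =
        -ζ a * (x * x⁻¹) + x * (ζ a * (starRingEnd ℂ) (ζ a)) := by ring
    rw [this, h, mul_inv_cancel₀ hx]; ring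
  · have hba : ¬ b = a := fun h => hab h.symm
    by_cases hl : ρ a < ρ b
    · have hl' : ¬ ρ b < ρ a := not_lt.2 hl.le
      simp only [Qm, starN, Matrix.of_apply, hab, hba, hl, hl', if_true, if_false, eval_mul,
        eval_X, eval_C]
      ring
    · have hl' : ρ b < ρ a := lt_of_le_of_ne (not_lt.1 hl) fun h => hba (hρ h)
      simp only [Qm, starN, Matrix.of_apply, hab, hba, hl, hl', if_true, if_false, eval_mul,
        eval_X, eval_C, map_mul, map_inv₀, Complex.conj_conj]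
      field_simp

theorem psda_prod (ν : Multiset ℂ) (hν : ∀ z ∈ ν, ‖z‖ = 1) {x : ℂ} (hx : x ≠ 0) :
    x ^ Multiset.card ν * (starRingEnd ℂ)
        (((ν.map fun z => X - C z).prod).eval ((starRingEnd ℂ) x)⁻¹) =
      (starRingEnd ℂ) (((ν.map fun z => X - C z).prod).eval 0) *
        ((ν.map fun z => X - C z).prod).eval x := by
  induction ν using Multiset.induction_on with
  | empty => simp
  | cons z ν ih =>
    have ih' := ih fun w hw => hν w (Multiset.mem_cons_of_mem hw)
    have h := psda_mul_conj (hν z (Multiset.mem_cons_self _ _))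
    simp only [Multiset.map_cons, Multiset.prod_cons, Multiset.card_cons, eval_mul, eval_sub,
      eval_X, eval_C, map_mul, map_sub, map_inv₀, Complex.conj_conj, map_zero] at ih' ⊢
    have e : x * (x⁻¹ - (starRingEnd ℂ) z) = (0 - (starRingEnd ℂ) z) * (x - z) := by
      have : x * (x⁻¹ - (starRingEnd ℂ) z) = x * x⁻¹ - x * (starRingEnd ℂ) z := by ring
      rw [this, mul_inv_cancel₀ hx]
      linear_combination -h
    rw [pow_succ]
    linear_combination (x * (x⁻¹ - (starRingEnd ℂ) z)) * ih' + ((starRingEnd ℂ)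
      (eval 0 (Multiset.map (fun z => X - C z) ν).prod) *
        eval x (Multiset.map (fun z => X - C z) ν).prod) * e

/-- Evaluate at `x ≠ 0`: taking `-ζ a` out of row `a` and transposing, the matrix for `starN` is
`x • conj (Qm ((conj x)⁻¹))`, so the determinant is `∏ (-ζ a) * x ^ k * conj (q ((conj x)⁻¹))`.
For `q = ∏ (X - z)` with `‖z‖ = 1` this is `∏ (-ζ a) * ∏ (-conj z) * q x`, and
`∏ (-z) = q 0 = ∏ (-ζ a)` by `minor_Qm_eval_zero`; `k = card ν` by `minor_Qm_monic`. -/
theorem minor_starN {ζ : Fin n → ℂ} (hζ : ∀ i, ‖ζ i‖ = 1) {ρ : Fin n → ℝ}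
    (hρ : Function.Injective ρ) (N : Matrix (Fin n) (Fin n) ℂ) (J : Finset (Fin n))
    {ν : Multiset ℂ} (hν : ∀ z ∈ ν, ‖z‖ = 1)
    (h : minor J (Qm ρ ζ N) = (ν.map fun z => X - C z).prod) :
    minor J (Qm ρ ζ (starN ζ N)) = minor J (Qm ρ ζ N) := by
  have hcard : Multiset.card ν = J.card := by
    have h1 := (minor_Qm_monic J hρ ζ N).2
    rw [h, Polynomial.natDegree_multiset_prod_X_sub_C_eq_card] at h1
    exact h1
  have h0 := minor_Qm_eval_zero J hρ ζ N
  apply Polynomial.eq_of_infinite_eval_eq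
  refine Set.Infinite.mono (s := {x : ℂ | x ≠ 0}) ?_ ?_
  · intro x hx
    have hx : x ≠ 0 := hx
    show (minor J (Qm ρ ζ (starN ζ N))).eval x = (minor J (Qm ρ ζ N)).eval x
    have e1 : (minor J (Qm ρ ζ (starN ζ N))).eval x =
        (∏ a ∈ J, (-ζ a * x)) * (starRingEnd ℂ)
          ((minor J (Qm ρ ζ N)).eval ((starRingEnd ℂ) x)⁻¹) := by
      rw [psda_eval_minor, psda_eval_minor]
      unfold minor
      have hm : (((Qm ρ ζ (starN ζ N)).map (Polynomial.eval x)).submatrix
            (Subtype.val : J → Fin n) Subtype.val) =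
          Matrix.of fun i j : J => (-ζ i * x) *
            ((((Qm ρ ζ N).map (Polynomial.eval ((starRingEnd ℂ) x)⁻¹)).submatrix
              (Subtype.val : J → Fin n) Subtype.val)ᴴ i j) := by
        ext i j
        simp only [Matrix.submatrix_apply, Matrix.map_apply, Matrix.of_apply,
          Matrix.conjTranspose_apply]
        exact psda_entry hζ hρ N hx i j
      rw [hm, Matrix.det_mul_column, Matrix.det_conjTranspose,
        ← Finset.prod_coe_sort J fun a => -ζ a * x]
      rfl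
    rw [e1, Finset.prod_mul_distrib, Finset.prod_const, ← hcard, mul_assoc, ← h0, h,
      psda_prod ν hν hx, ← mul_assoc]
    have hn : ‖((ν.map fun z => X - C z).prod).eval 0‖ = 1 := by
      rw [← h, h0, norm_prod]
      exact Finset.prod_eq_one fun a _ => by rw [norm_neg, hζ]
    rw [psda_mul_conj hn, one_mul]
  · have : ({x : ℂ | x ≠ 0}) = ({0} : Set ℂ)ᶜ := by ext; simp
    rw [this]
    exact (Set.finite_singleton _).infinite_compl

/-- The normalising factor with `kap z * (1 - z) = 2 sin (π a01 z)`. -/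
noncomputable def kap (z : ℂ) : ℂ := Complex.I * Complex.exp (-(Real.pi * Complex.I * a01 z))

theorem psda_kap_prod (ν : Multiset ℂ) :
    (ν.map kap).prod = Complex.I ^ Multiset.card ν *
      Complex.exp (-(Real.pi * Complex.I * ((ν.map a01).sum : ℝ))) := by
  induction ν using Multiset.induction_on with
  | empty => simp
  | cons z ν ih =>
    simp only [Multiset.map_cons, Multiset.prod_cons, Multiset.card_cons, Multiset.sum_cons, ih]
    rw [kap]
    push_cast
    rw [show -((Real.pi : ℂ) * Complex.I * ((a01 z : ℂ) + (((ν.map a01).sum : ℝ) : ℂ))) =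
      -(Real.pi * Complex.I * a01 z) + -(Real.pi * Complex.I * (((ν.map a01).sum : ℝ) : ℂ)) by
        ring, Complex.exp_add]
    ring

theorem psda_kap_mul {z : ℂ} (hz : ‖z‖ = 1) :
    kap z * (1 - z) = ((2 * Real.sin (Real.pi * a01 z) : ℝ) : ℂ) := by
  have h := one_sub_eq hz
  have e : Complex.exp (-(Real.pi * Complex.I * a01 z)) *
      Complex.exp (Real.pi * Complex.I * a01 z) = 1 := by
    rw [← Complex.exp_add]; simp
  have hI := Complex.I_mul_I
  rw [h, kap, Complex.ofReal_mul]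
  simp only [Complex.ofReal_ofNat]
  linear_combination (-2 * (Real.sin (Real.pi * a01 z) : ℂ) *
    (Complex.exp (-(Real.pi * Complex.I * a01 z)) *
      Complex.exp (Real.pi * Complex.I * a01 z))) * hI +
    (2 * (Real.sin (Real.pi * a01 z) : ℂ)) * e

theorem psda_sin_nonneg (z : ℂ) : 0 ≤ Real.sin (Real.pi * a01 z) := by
  apply Real.sin_nonneg_of_nonneg_of_le_pi
  · exact mul_nonneg Real.pi_pos.le (a01_nonneg z)
  · have := a01_lt_one z
    nlinarith [Real.pi_pos]

theorem psda_sin_pos {z : ℂ} (hz : ‖z‖ = 1) (h1 : z ≠ 1) : 0 < Real.sin (Real.pi * a01 z) := by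
  apply Real.sin_pos_of_pos_of_lt_pi
  · exact mul_pos Real.pi_pos (a01_pos hz h1)
  · have := a01_lt_one z
    nlinarith [Real.pi_pos]

theorem psda_nonneg (ν : Multiset ℂ) (hν : ∀ z ∈ ν, ‖z‖ = 1) :
    0 ≤ (ν.map kap).prod * ((ν.map fun z => X - C z).prod).eval 1 := by
  induction ν using Multiset.induction_on with
  | empty => simp
  | cons z ν ih =>
    have ih' := ih fun w hw => hν w (Multiset.mem_cons_of_mem hw)
    have h := psda_kap_mul (hν z (Multiset.mem_cons_self _ _))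
    simp only [Multiset.map_cons, Multiset.prod_cons, eval_mul, eval_sub, eval_X, eval_C]
    rw [mul_mul_mul_comm, h]
    refine mul_nonneg ?_ ih'
    exact Complex.zero_le_real.2 (mul_nonneg zero_le_two (psda_sin_nonneg z))

theorem psda_sum_inv (ν : Multiset ℂ) (hν : ∀ z ∈ ν, ‖z‖ = 1) (h1 : ∀ z ∈ ν, z ≠ 1) :
    ((ν.map fun z => z⁻¹).map a01).sum = Multiset.card ν - (ν.map a01).sum := by
  induction ν using Multiset.induction_on with
  | empty => simp
  | cons z ν ih =>
    have ih' := ih (fun w hw => hν w (Multiset.mem_cons_of_mem hw))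
      fun w hw => h1 w (Multiset.mem_cons_of_mem hw)
    simp only [Multiset.map_cons, Multiset.sum_cons, Multiset.card_cons] at ih' ⊢
    rw [ih', a01_inv (hν z (Multiset.mem_cons_self _ _)) (h1 z (Multiset.mem_cons_self _ _))]
    push_cast
    ring

/-- If the minor is nonzero no root is `1`, so the two inequalities give
`∑ a01 ν = ∑ a01 ζ` (`a01_inv`, `card ν = card J`); then use `one_sub_eq` for each root. -/
theorem sign_minor {ζ : Fin n → ℂ} (hζ : ∀ i, ‖ζ i‖ = 1) (hζ1 : ∀ i, ζ i ≠ 1) {J : Finset (Fin n)}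
    {q : ℂ[X]} (hq : q.natDegree = J.card) (h : WOr ζ J q) :
    0 ≤ (∏ a ∈ J, kap (ζ a)) * q.eval 1 := by
  obtain ⟨ν, hν, rfl, h1, h2⟩ := h
  rw [Polynomial.natDegree_multiset_prod_X_sub_C_eq_card] at hq
  by_cases hone : (1 : ℂ) ∈ ν
  · obtain ⟨ν', rfl⟩ := Multiset.exists_cons_of_mem hone
    simp
  have hne : ∀ z ∈ ν, z ≠ 1 := fun z hz h => hone (h ▸ hz)
  have g1 := h1.1
  have g2 := h2.1
  rw [psda_sum_inv ν hν hne] at g2
  have g3 : ∑ i ∈ J, a01 (ζ i)⁻¹ = J.card - ∑ i ∈ J, a01 (ζ i) := by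
    rw [Finset.sum_congr rfl fun i _ => a01_inv (hζ i) (hζ1 i), Finset.sum_sub_distrib]
    simp
  rw [g3, hq] at g2
  have g4 : (ν.map a01).sum = ∑ i ∈ J, a01 (ζ i) := by linarith
  have g5 : ∏ a ∈ J, kap (ζ a) = (ν.map kap).prod := by
    have e1 : ∏ a ∈ J, kap (ζ a) = ((J.val.map ζ).map kap).prod := by
      rw [Multiset.map_map]; rfl
    have e2 : ((J.val.map ζ).map a01).sum = ∑ i ∈ J, a01 (ζ i) := by
      rw [Multiset.map_map]; rfl
    rw [e1, psda_kap_prod, psda_kap_prod, e2, g4, Multiset.card_map, hq]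
    rfl
  rw [g5]
  exact psda_nonneg ν hν

/-- Let `ν = {ω₁, ω₂}`. At `X = ζ a`: `w = -ζ a * (1 - ω₁ / ζ a) * (1 - ω₂ / ζ a)`, so both
quotients differ from `1`; the twisted inequalities give
`a01 (ω₁ / ζ a) + a01 (ω₂ / ζ a) = 1 - a01 (ζ a) + a01 (ζ b)`; use `one_sub_eq`, `exp_a01`. -/
theorem sign_pair {ζ : Fin n → ℂ} (hζ : ∀ i, ‖ζ i‖ = 1) (hζ1 : ∀ i, ζ i ≠ 1) {a b : Fin n}
    (hab : a ≠ b) {w : ℂ} (hw : w ≠ 0)
    (h : WOr ζ {a, b} ((X - C (ζ a)) * (X - C (ζ b)) - X * C w)) :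
    0 < kap (ζ a) * kap (ζ b) * w := by
  obtain ⟨ν, hν, hq, h1, h2⟩ := h
  have hdeg : ((X - C (ζ a)) * (X - C (ζ b)) - X * C w : ℂ[X]).natDegree = 2 := by
    compute_degree!
  rw [hq, Polynomial.natDegree_multiset_prod_X_sub_C_eq_card] at hdeg
  obtain ⟨u, v, rfl⟩ := Multiset.card_eq_two.1 hdeg
  have hu : ‖u‖ = 1 := hν u (by simp)
  have hv : ‖v‖ = 1 := hν v (by simp)
  have ha0 := psda_ne (hζ a)
  have he := congrArg (Polynomial.eval (ζ a)) hq
  simp only [Multiset.insert_eq_cons, Multiset.map_cons, Multiset.map_singleton,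
    Multiset.prod_cons, Multiset.prod_singleton, eval_sub, eval_mul, eval_X, eval_C, sub_self,
    zero_mul, zero_sub] at he
  have hw' : w = -ζ a * (1 - u / ζ a) * (1 - v / ζ a) := by
    field_simp
    linear_combination -he
  have hu1 : u / ζ a ≠ 1 := fun h => hw (by rw [hw', h]; simp)
  have hv1 : v / ζ a ≠ 1 := fun h => hw (by rw [hw', h]; simp)
  have hun : ‖u / ζ a‖ = 1 := by rw [norm_div, hu, hζ]; simp
  have hvn : ‖v / ζ a‖ = 1 := by rw [norm_div, hv, hζ]; simp
  have g1 := h1.2 a (by simp)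
  have g2 := h2.2 a (by simp)
  have hc : ({a, b} : Finset (Fin n)).card = 2 := Finset.card_pair hab
  have hr : ({a, b} : Finset (Fin n)).erase a = {b} := by
    rw [Finset.erase_insert]; simpa using hab
  rw [hc, hr, Finset.sum_singleton] at g1 g2
  simp only [Multiset.insert_eq_cons, Multiset.map_cons, Multiset.map_singleton,
    Multiset.sum_cons, Multiset.sum_singleton, inv_inv] at g1 g2
  have i1 : u⁻¹ / (ζ a)⁻¹ = (u / ζ a)⁻¹ := by rw [inv_div_inv, inv_div]
  have i2 : v⁻¹ / (ζ a)⁻¹ = (v / ζ a)⁻¹ := by rw [inv_div_inv, inv_div]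
  rw [i1, i2, a01_inv hun hu1, a01_inv hvn hv1, a01_inv (hζ b) (hζ1 b)] at g2
  rw [a01_inv (hζ a) (hζ1 a)] at g1
  have g3 : a01 (u / ζ a) + a01 (v / ζ a) = 1 - a01 (ζ a) + a01 (ζ b) := by
    push_cast at g1 g2
    linarith
  have k1 := psda_kap_mul hun
  have k2 := psda_kap_mul hvn
  have kk : kap (ζ a) * kap (ζ b) * -ζ a = kap (u / ζ a) * kap (v / ζ a) := by
    have ea := exp_a01 (hζ a)
    have g4 : (a01 (u / ζ a) : ℂ) + a01 (v / ζ a) = 1 - a01 (ζ a) + a01 (ζ b) := by
      exact_mod_cast g3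
    have l1 : Complex.exp (-(Real.pi * Complex.I * a01 (u / ζ a))) *
        Complex.exp (-(Real.pi * Complex.I * a01 (v / ζ a))) =
        Complex.exp (-(Real.pi * Complex.I * a01 (ζ a))) *
          Complex.exp (-(Real.pi * Complex.I * a01 (ζ b))) *
            Complex.exp (2 * Real.pi * Complex.I * a01 (ζ a)) *
              Complex.exp (-(Real.pi * Complex.I)) := by
      rw [← Complex.exp_add, ← Complex.exp_add, ← Complex.exp_add, ← Complex.exp_add]
      congr 1
      linear_combination (-(Real.pi * Complex.I : ℂ)) * g4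
    rw [ea, Complex.exp_neg (Real.pi * Complex.I), Complex.exp_pi_mul_I] at l1
    unfold kap
    linear_combination (-(Complex.I * Complex.I)) * l1
  have fin : kap (ζ a) * kap (ζ b) * w =
      ((2 * Real.sin (Real.pi * a01 (u / ζ a)) * (2 * Real.sin (Real.pi * a01 (v / ζ a))) : ℝ) :
        ℂ) := by
    rw [Complex.ofReal_mul, ← k1, ← k2, hw']
    linear_combination ((1 - u / ζ a) * (1 - v / ζ a)) * kk
  rw [fin]
  exact Complex.zero_lt_real.2 (mul_pos (mul_pos two_pos (psda_sin_pos hun hu1))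
    (mul_pos two_pos (psda_sin_pos hvn hv1)))

end Pool.Agent.GR
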