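import Pool.Agent.Lib.MP_aa40d3_nt.GR.DefsG

/-! Relations between loops in a box. Everything follows from `RectT`: each transport along a
segment is split and recombined inside rectangles free of points (a segment is a degenerate
rectangle; `RectT` gives `T a a = 1` and `T b a = (T a b)⁻¹` there). -/

open Set

namespace Pool.Agent.GR

variable {n : ℕ} {G : Type*} [Group G] {T : ℝ × ℝ → ℝ × ℝ → G} {pts : Fin n → ℝ × ℝ} {H : ℝ}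

theorem RectT.swap (hT : RectT T pts) :
    RectT (fun a b => T a.swap b.swap) fun j => (pts j).swap := by
  intro x1 x2 y1 y2 h a ha b hb c hc
  exact hT y1 y2 x1 x2 (fun i hi => h i ⟨hi.2, hi.1⟩) _ ⟨ha.2, ha.1⟩ _ ⟨hb.2, hb.1⟩ _ ⟨hc.2, hc.1⟩

theorem InBox.swap (hb : InBox pts H) : InBox (fun j => (pts j).swap) H := by
  exact fun i => ⟨(hb i).2, (hb i).1⟩

theorem recta_line (hT : RectT T pts) {y : ℝ} (hy : ∀ i, (pts i).2 ≠ y) (a b c : ℝ) :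
    T (b, y) (c, y) * T (a, y) (b, y) = T (a, y) (c, y) := by
  refine hT (min a (min b c)) (max a (max b c)) y y
    (fun i hi => hy i (le_antisymm hi.2.2 hi.2.1)) _ ⟨⟨?_, ?_⟩, le_rfl, le_rfl⟩ _
    ⟨⟨?_, ?_⟩, le_rfl, le_rfl⟩ _ ⟨⟨?_, ?_⟩, le_rfl, le_rfl⟩ <;> simp

theorem recta_sq (hT : RectT T pts) {x1 x2 y1 y2 : ℝ} (h : ∀ i, pts i ∉ Icc x1 x2 ×ˢ Icc y1 y2)
    {A B a b : ℝ × ℝ} (hA : A ∈ Icc x1 x2 ×ˢ Icc y1 y2) (hB : B ∈ Icc x1 x2 ×ˢ Icc y1 y2)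
    (ha : a ∈ Icc x1 x2 ×ˢ Icc y1 y2) (hb : b ∈ Icc x1 x2 ×ˢ Icc y1 y2) :
    T A B = (T B b)⁻¹ * T a b * T A a := by
  rw [mul_assoc, hT _ _ _ _ h A hA a ha b hb, ← hT _ _ _ _ h A hA B hB b hb, inv_mul_cancel_left]

/-- The rectangle `[σ, σ'] × [-H, H]` is free, and so are the lines at height `± H`. -/
theorem Vp_eq (hT : RectT T pts) (hb : InBox pts H) (hH : 0 ≤ H) {σ σ' : ℝ} (h : σ ≤ σ')
    (hf : ∀ j, (pts j).1 ∉ Icc σ σ') : Vp T H σ = Vp T H σ' := by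
  have t := recta_line hT (y := H) (fun i hi => by
    have := (hb i).2
    rw [hi] at this
    exact absurd (le_abs_self H) (not_le.2 this)) σ' σ (-H)
  have b := recta_line hT (y := -H) (fun i hi => by
    have := (hb i).2
    rw [hi, abs_neg] at this
    exact absurd (le_abs_self H) (not_le.2 this)) (-H) σ σ'
  have hH' : -H ≤ H := by linarith
  have fr : ∀ i, pts i ∉ Icc σ σ' ×ˢ Icc (-H) H := fun i hi => hf i hi.1
  have m1 := hT _ _ _ _ fr (σ, -H) ⟨⟨le_rfl, h⟩, le_rfl, hH'⟩ (σ', -H) ⟨⟨h, le_rfl⟩, le_rfl, hH'⟩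
    (σ', H) ⟨⟨h, le_rfl⟩, hH', le_rfl⟩
  have m2 := hT _ _ _ _ fr (σ, -H) ⟨⟨le_rfl, h⟩, le_rfl, hH'⟩ (σ', H) ⟨⟨h, le_rfl⟩, hH', le_rfl⟩
    (σ, H) ⟨⟨le_rfl, h⟩, hH', le_rfl⟩
  rw [Vp, Vp, ← t, ← b, ← m2, ← m1]
  group

theorem exists_validAt {x : Fin n → ℝ} (hx : Function.Injective x) (i : Fin n) :
    ∃ ε : ℝ, 0 < ε ∧ ∀ lo hi, x i - ε ≤ lo → lo < x i → x i < hi → hi ≤ x i + ε →
      ValidAt x i lo hi := by
  have h : ∀ᶠ ε in nhdsWithin (0 : ℝ) (Ioi 0), ∀ j, j ≠ i → ε < |x j - x i| := by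
    refine Filter.eventually_all.2 fun j => ?_
    by_cases hj : j = i
    · exact Filter.Eventually.of_forall fun _ h => absurd hj h
    · exact ((eventually_lt_nhds (abs_pos.2 (sub_ne_zero.2 (hx.ne hj)))).filter_mono
        nhdsWithin_le_nhds).mono fun _ h _ => h
  obtain ⟨ε, h1, h2⟩ := (h.and self_mem_nhdsWithin).exists
  refine ⟨ε, h2, fun lo hi a b c d => ⟨b, c, fun j hj hm => ?_⟩⟩
  have := h1 j hj
  rw [lt_abs] at this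
  rcases this with e | e
  · linarith [hm.2]
  · linarith [hm.1]

theorem recta_valid (hT : RectT T pts) (hb : InBox pts H) {i : Fin n} {lo hi lo' hi' : ℝ}
    (h : ValidAt (fun j => (pts j).1) i lo hi) (h' : ValidAt (fun j => (pts j).1) i lo' hi') :
    (lo ≤ lo' → Vp T H lo = Vp T H lo') ∧ (hi' ≤ hi → Vp T H hi' = Vp T H hi) := by
  have hH : 0 ≤ H := (abs_nonneg _).trans (hb i).1.le
  refine ⟨fun e => Vp_eq hT hb hH e fun j hj => ?_, fun e => Vp_eq hT hb hH e fun j hj => ?_⟩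
  · by_cases hji : j = i
    · subst hji
      exact absurd hj.2 (not_le.2 h'.1)
    · exact h.2.2 j hji ⟨hj.1, hj.2.trans (h'.1.trans h.2.1).le⟩
  · by_cases hji : j = i
    · subst hji
      exact absurd hj.1 (not_le.2 h'.2.1)
    · exact h.2.2 j hji ⟨(h.1.trans h'.2.1).le.trans hj.1, hj.2⟩

theorem vt_eq (hT : RectT T pts) (hb : InBox pts H) {i : Fin n} {lo hi : ℝ}
    (h : ValidAt (fun j => (pts j).1) i lo hi) : vt T pts H i = (Vp T H lo)⁻¹ * Vp T H hi := by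
  have hex : ∃ q : ℝ × ℝ, ValidAt (fun j => (pts j).1) i q.1 q.2 := ⟨(lo, hi), h⟩
  have h' := hex.choose_spec
  have k := recta_valid hT hb h h'
  have k' := recta_valid hT hb h' h
  rw [vt, dif_pos hex]
  congr 1
  · congr 1
    rcases le_total lo hex.choose.1 with e | e
    · exact (k.1 e).symm
    · exact k'.1 e
  · rcases le_total hi hex.choose.2 with e | e
    · exact (k'.2 e).symm
    · exact k.2 e

/-- Shrinking a rectangle, one side at a time: top and right sides do not change the loop, the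
left and bottom sides conjugate it. -/
theorem RL_nest (hT : RectT T pts) {x1 x2 y1 y2 x1' x2' y1' y2' : ℝ} (h1 : x1 ≤ x1')
    (h2 : x1' ≤ x2') (h3 : x2' ≤ x2) (h4 : y1 ≤ y1') (h5 : y1' ≤ y2') (h6 : y2' ≤ y2)
    (h : ∀ i, pts i ∈ Icc x1 x2 ×ˢ Icc y1 y2 → pts i ∈ Ioo x1' x2' ×ˢ Ioo y1' y2') :
    RL T x1 x2 y1 y2 = (T (x1', y1) (x1', y1') * T (x1, y1) (x1', y1))⁻¹ * RL T x1' x2' y1' y2' *
      (T (x1', y1) (x1', y1') * T (x1, y1) (x1', y1)) := by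
  have x12 : x1 ≤ x2 := h1.trans (h2.trans h3)
  have y12 : y1 ≤ y2 := h4.trans (h5.trans h6)
  have fL : ∀ i, pts i ∉ Icc x1 x1' ×ˢ Icc y1 y2 := fun i hi =>
    absurd (h i ⟨⟨hi.1.1, hi.1.2.trans (h2.trans h3)⟩, hi.2⟩).1.1 (not_lt.2 hi.1.2)
  have fR : ∀ i, pts i ∉ Icc x2' x2 ×ˢ Icc y1 y2 := fun i hi =>
    absurd (h i ⟨⟨(h1.trans h2).trans hi.1.1, hi.1.2⟩, hi.2⟩).1.2 (not_lt.2 hi.1.1)
  have fB : ∀ i, pts i ∉ Icc x1 x2 ×ˢ Icc y1 y1' := fun i hi =>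
    absurd (h i ⟨hi.1, hi.2.1, hi.2.2.trans (h5.trans h6)⟩).2.1 (not_lt.2 hi.2.2)
  have fT : ∀ i, pts i ∉ Icc x1 x2 ×ˢ Icc y2' y2 := fun i hi =>
    absurd (h i ⟨hi.1, (h4.trans h5).trans hi.2.1, hi.2.2⟩).2.2 (not_lt.2 hi.2.1)
  have e0 := hT _ _ _ _ fB (x1, y1) ⟨⟨le_rfl, x12⟩, le_rfl, h4⟩ (x1', y1)
    ⟨⟨h1, h2.trans h3⟩, le_rfl, h4⟩ (x1', y1') ⟨⟨h1, h2.trans h3⟩, h4, le_rfl⟩
  have e1 := recta_sq hT fB (A := (x1, y1)) (B := (x2, y1)) (a := (x1', y1')) (b := (x2', y1'))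
    ⟨⟨le_rfl, x12⟩, le_rfl, h4⟩ ⟨⟨x12, le_rfl⟩, le_rfl, h4⟩ ⟨⟨h1, h2.trans h3⟩, h4, le_rfl⟩
    ⟨⟨h1.trans h2, h3⟩, h4, le_rfl⟩
  have e2 := recta_sq hT fR (A := (x2, y1)) (B := (x2, y2)) (a := (x2', y1')) (b := (x2', y2'))
    ⟨⟨h3, le_rfl⟩, le_rfl, y12⟩ ⟨⟨h3, le_rfl⟩, y12, le_rfl⟩ ⟨⟨le_rfl, h3⟩, h4, h5.trans h6⟩
    ⟨⟨le_rfl, h3⟩, h4.trans h5, h6⟩
  have e3 := recta_sq hT fT (A := (x2, y2)) (B := (x1, y2)) (a := (x2', y2')) (b := (x1', y2'))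
    ⟨⟨x12, le_rfl⟩, h6, le_rfl⟩ ⟨⟨le_rfl, x12⟩, h6, le_rfl⟩ ⟨⟨h1.trans h2, h3⟩, le_rfl, h6⟩
    ⟨⟨h1, h2.trans h3⟩, le_rfl, h6⟩
  have e4 := recta_sq hT fL (A := (x1, y2)) (B := (x1, y1)) (a := (x1', y2')) (b := (x1', y1'))
    ⟨⟨le_rfl, h1⟩, y12, le_rfl⟩ ⟨⟨le_rfl, h1⟩, le_rfl, y12⟩ ⟨⟨h1, le_rfl⟩, h4.trans h5, h6⟩
    ⟨⟨h1, le_rfl⟩, h4, h5.trans h6⟩
  rw [e0, RL, RL, e1, e2, e3, e4]
  group

end Pool.Agent.GR
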