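import Pool.Agent.Lib.MP_aa40d3_nt.GR.Cyc

/-! Matrices of rank at most one. -/

open Polynomial Matrix

namespace Pool.Agent.GR

variable {n r : ℕ} {k : Type*} [Field k]

theorem Rk1.map {R S : Type*} [CommRing R] [CommRing S] (φ : R →+* S)
    {A : Matrix (Fin r) (Fin r) R} (h : Rk1 A) : Rk1 (A.map φ) := by
  intro a b c d
  simp only [map_apply, ← map_mul, h a b c d]

theorem rk1_of_rank {A : Matrix (Fin r) (Fin r) k} (h : A.rank ≤ 1) : Rk1 A := by
  obtain ⟨v, hv⟩ := finrank_le_one_iff.1 h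
  have h1 : ∀ b, ∃ c : k, ∀ a, A a b = c * v.1 a := fun b => by
    obtain ⟨c, hc⟩ := hv ⟨A.mulVecLin (Pi.single b 1), LinearMap.mem_range_self _ _⟩
    refine ⟨c, fun a => ?_⟩
    have := congrFun (congrArg Subtype.val hc) a
    simpa using this.symm
  choose c hc using h1
  intro a b a' d
  simp only [hc]
  ring

theorem Rk1.exists_vec {A : Matrix (Fin r) (Fin r) k} (h : Rk1 A) :
    ∃ e f : Fin r → k, A = vecMulVec e f := by
  by_cases h0 : ∀ c d, A c d = 0
  · exact ⟨0, 0, by ext a b; simp [h0]⟩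
  · obtain ⟨c, hc⟩ := not_forall.1 h0
    obtain ⟨d, hd⟩ := not_forall.1 hc
    refine ⟨fun a => A a d / A c d, A c, ?_⟩
    ext a b
    rw [vecMulVec_apply, div_mul_eq_mul_div, eq_div_iff hd, h a b c d]

theorem Rk1.mul_self {R : Type*} [CommRing R] {A : Matrix (Fin r) (Fin r) R} (h : Rk1 A) :
    A * A = A.trace • A := by
  ext a b
  rw [mul_apply, Matrix.smul_apply, trace, smul_eq_mul, Finset.sum_mul]
  exact Finset.sum_congr rfl fun c _ => by rw [h a c c b, diag_apply, mul_comm]

/-- Evaluate at `x ≠ l` in an infinite extension, or use `det_one_add_replicateCol_mul_replicateRow`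
over the fraction field of `k[X]`. -/
theorem Rk1.charpoly [NeZero r] {A : Matrix (Fin r) (Fin r) k} (h : Rk1 A) (l : k) :
    (A + l • (1 : Matrix (Fin r) (Fin r) k)).charpoly =
      (X - C l) ^ (r - 1) * (X - C (l + A.trace)) := by
  obtain ⟨e, f, rfl⟩ := h.exists_vec
  have h1 : vecMulVec e f + l • (1 : Matrix (Fin r) (Fin r) k) =
      vecMulVec e f - scalar (Fin r) (-l) := by
    rw [map_neg, sub_neg_eq_add, scalar_apply, smul_one_eq_diagonal]
  obtain ⟨m, rfl⟩ := Nat.exists_eq_succ_of_ne_zero (NeZero.ne r)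
  rw [h1, charpoly_sub_scalar, charpoly_vecMulVec, trace_vecMulVec]
  simp only [Fintype.card_fin, Nat.succ_sub_one, smul_eq_C_mul, sub_comp, mul_comp, pow_comp,
    X_comp, C_comp, map_neg, map_add, pow_succ]
  ring

/-- Compare the multisets of roots; `Nat.cast` is injective below `p`. -/
theorem sum_exp [NeZero r] (p : ℕ) [CharP k p] {A : Matrix (Fin r) (Fin r) k} (h : Rk1 A)
    {m0 m1 : ℕ} (h0 : m0 < p) (h1 : m1 < p) (htr : (m1 : k) - m0 = A.trace) {e : Fin r → ℕ}
    (he : ∀ b, e b < p) (hc : (A + (m0 : k) • (1 : Matrix (Fin r) (Fin r) k)).charpoly =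
      ∏ b, (X - C (e b : k))) : ∑ b, e b = (r - 1) * m0 + m1 := by
  classical
  rw [h.charpoly, ← htr, add_sub_cancel] at hc
  have h2 : ((Multiset.replicate (r - 1) m0 + {m1}).map (Nat.cast : ℕ → k)) =
      (Finset.univ.val.map e).map Nat.cast := by
    rw [← roots_multiset_prod_X_sub_C (Multiset.map _ (_ + _)),
      ← roots_multiset_prod_X_sub_C (Multiset.map _ (Multiset.map e _))]
    congr 1
    simpa [Finset.prod, Function.comp_def] using hc
  let g : k → ℕ := Function.invFunOn Nat.cast (Set.Iio p)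
  have hg : ∀ m < p, g m = m := fun m hm =>
    (CharP.natCast_injOn_Iio k p).leftInvOn_invFunOn (Set.mem_Iio.2 hm)
  have h3 := congrArg (fun s => (s.map g).sum) h2
  simp only [Multiset.map_map, Function.comp, hg _ (he _), Multiset.map_add, Multiset.map_replicate,
    Multiset.map_singleton, hg _ h0, hg _ h1, Multiset.sum_add, Multiset.sum_replicate,
    Multiset.sum_singleton, smul_eq_mul] at h3
  exact h3.symm

end Pool.Agent.GR
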