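import Pool.Agent.Lib.MP_aa40d3_nt.GR.M3

/-! Saturation of lattices of solutions over `κ⟦X⟧`. -/

open Polynomial Matrix

namespace Pool.Agent.GR

variable {κ : Type} [Field κ] {r : ℕ}

/-- The fraction field of the power series ring. -/
abbrev FF (κ : Type) [Field κ] : Type := FractionRing (PowerSeries κ)

theorem sata_iter_mul {R : Type} [CommRing R] {u : R[X]} (hu : derivative u = 0) (y : R[X])
    (k : ℕ) : th^[k] (u * y) = u * th^[k] y := by
  induction k with
  | zero => rfl
  | succ k ih =>
    rw [Function.iterate_succ_apply', Function.iterate_succ_apply', ih, th, th, derivative_mul, hu]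
    ring

theorem sata_iter_add {R : Type} [CommRing R] (y z : R[X]) (k : ℕ) :
    th^[k] (y + z) = th^[k] y + th^[k] z := by
  induction k with
  | zero => rfl
  | succ k ih =>
    rw [Function.iterate_succ_apply', Function.iterate_succ_apply', Function.iterate_succ_apply',
      ih, th, th, th, derivative_add, mul_add]

theorem sata_wr_update {R : Type} [CommRing R] (y : Fin r → R[X]) (b : Fin r) (z : R[X]) :
    wr (Function.update y b z) = (wr y).updateCol b fun k => th^[(k : ℕ)] z := by
  ext1 k a
  by_cases h : a = b
  · rw [h, updateCol_self, wr, of_apply, Function.update_self]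
  · rw [updateCol_ne h, wr, wr, of_apply, of_apply, Function.update_of_ne h]

theorem sata_det_add {R : Type} [CommRing R] (y : Fin r → R[X]) {a b : Fin r} (h : b ≠ a)
    {u : R[X]} (hu : derivative u = 0) :
    (wr (Function.update y b (y b + u * y a))).det = (wr y).det := by
  rw [sata_wr_update, ← det_updateCol_add_smul_self (wr y) h u]
  congr 2
  funext k
  rw [sata_iter_add, sata_iter_mul hu]
  rfl

theorem sata_det_mul {R : Type} [CommRing R] (y : Fin r → R[X]) (b : Fin r) {u z : R[X]}
    (hu : derivative u = 0) (h : y b = u * z) :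
    (wr y).det = u * (wr (Function.update y b z)).det := by
  rw [sata_wr_update, ← det_updateCol_smul]
  congr 1
  ext1 k a
  by_cases h1 : a = b
  · rw [h1, updateCol_self, wr, of_apply, h, sata_iter_mul hu]
    rfl
  · rw [updateCol_ne h1]

theorem sata_dvd {y : (PowerSeries κ)[X]} (h : red y = 0) : C PowerSeries.X ∣ y := by
  rw [C_dvd_iff_dvd_coeff]
  intro i
  rw [PowerSeries.X_dvd_iff]
  have h1 := congrArg (fun z => coeff z i) h
  simpa [red] using h1

theorem sata_red_expand (p : ℕ) (q : κ[X]) :
    red (expand (PowerSeries κ) p (q.map PowerSeries.C)) = expand κ p q := by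
  rw [red, coe_mapRingHom, map_expand, Polynomial.map_map, PowerSeries.constantCoeff_comp_C,
    Polynomial.map_id]

theorem sata_deriv_expand (p : ℕ) [CharP κ p] (q : (PowerSeries κ)[X]) :
    derivative (expand (PowerSeries κ) p q) = 0 := by
  have h : (p : (PowerSeries κ)[X]) = 0 := by
    rw [← map_natCast (C : PowerSeries κ →+* (PowerSeries κ)[X]),
      ← map_natCast (PowerSeries.C : κ →+* PowerSeries κ), CharP.cast_eq_zero, map_zero, map_zero]
  rw [derivative_expand, h, zero_mul, mul_zero]

open Classical in
/-- The size of a polynomial. -/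
noncomputable def sata_mu (c : κ[X]) : ℕ := if c = 0 then 0 else c.natDegree + 1

theorem sata_mu_lt {a b : κ[X]} (h : a.degree < b.degree) : sata_mu a < sata_mu b := by
  have hb : b ≠ 0 := ne_zero_of_degree_gt h
  unfold sata_mu
  rw [if_neg hb]
  split_ifs with ha
  · omega
  · have := natDegree_lt_natDegree ha h
    omega

theorem sata_step (p : ℕ) [Fact p.Prime] [CharP κ p] (Pr : (PowerSeries κ)[X] → Prop)
    (hadd : ∀ y z, Pr y → Pr z → Pr (y + z))
    (hmul : ∀ c y, Pr y → Pr (expand (PowerSeries κ) p c * y))
    (hdiv : ∀ y, Pr (C PowerSeries.X * y) → Pr y) (n : ℕ) :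
    ∀ (y : Fin r → (PowerSeries κ)[X]) (c : Fin r → κ[X]), (∀ b, Pr (y b)) → c ≠ 0 →
      ∑ b, expand κ p (c b) * red (y b) = 0 → ∑ b, sata_mu (c b) < n →
      ∃ y' : Fin r → (PowerSeries κ)[X], (∀ b, Pr (y' b)) ∧
        (wr y).det = C PowerSeries.X * (wr y').det := by
  classical
  induction n with
  | zero => exact fun _ _ _ _ _ h => absurd h (Nat.not_lt_zero _)
  | succ n ih =>
    intro y c hy hc hrel hn
    by_cases h : ∃ a b, b ≠ a ∧ c b ≠ 0 ∧ (c b).degree ≤ (c a).degree
    · obtain ⟨a, b, hab, hb, hd⟩ := h
      have hdiv' : c a = c a % c b + c b * (c a / c b) := (EuclideanDomain.mod_add_div _ _).symm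
      rw [← sata_det_add y hab (sata_deriv_expand p ((c a / c b).map PowerSeries.C))]
      refine ih _ (Function.update c a (c a % c b)) ?_ ?_ ?_ ?_
      · intro j
        by_cases hj : j = b
        · rw [hj, Function.update_self]
          exact hadd _ _ (hy b) (hmul _ _ (hy a))
        · rw [Function.update_of_ne hj]
          exact hy j
      · intro h0
        have h1 := congrFun h0 b
        rw [Function.update_of_ne hab] at h1
        exact hb h1
      · have h1 : ∀ j, expand κ p (Function.update c a (c a % c b) j) *
            red (Function.update y b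
              (y b + expand (PowerSeries κ) p ((c a / c b).map PowerSeries.C) * y a) j) =
            expand κ p (c j) * red (y j) +
              ((if j = b then expand κ p (c b * (c a / c b)) * red (y a) else 0) -
                if j = a then expand κ p (c b * (c a / c b)) * red (y a) else 0) := by
          intro j
          by_cases hj : j = b
          · rw [hj, Function.update_self, Function.update_of_ne hab, if_pos rfl, if_neg hab,
              map_add, map_mul, map_mul, sata_red_expand]
            ring
          · rw [Function.update_of_ne hj, if_neg hj]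
            by_cases hj' : j = a
            · rw [hj', Function.update_self, if_pos rfl]
              have h2 := congrArg (expand κ p) hdiv'
              rw [map_add] at h2
              linear_combination (-red (y a)) * h2
            · rw [Function.update_of_ne hj', if_neg hj', sub_zero, add_zero]
        simp only [h1, Finset.sum_add_distrib, Finset.sum_sub_distrib, hrel, Finset.sum_ite_eq',
          Finset.mem_univ, if_true, sub_self, add_zero]
      · have h1 : ∑ j, sata_mu (Function.update c a (c a % c b) j) < ∑ j, sata_mu (c j) := by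
          refine Finset.sum_lt_sum (fun j _ => ?_) ⟨a, Finset.mem_univ a, ?_⟩
          · by_cases hj : j = a
            · rw [hj, Function.update_self]
              exact (sata_mu_lt ((degree_mod_lt _ hb).trans_le hd)).le
            · rw [Function.update_of_ne hj]
          · rw [Function.update_self]
            exact sata_mu_lt ((degree_mod_lt _ hb).trans_le hd)
        omega
    · obtain ⟨b, hb⟩ := Function.ne_iff.1 hc
      have hb' : c b ≠ 0 := hb
      have h0 : ∀ a, a ≠ b → c a = 0 := by
        intro a ha
        by_contra h1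
        rcases le_total (c a).degree (c b).degree with h2 | h2
        · exact h ⟨b, a, ha, h1, h2⟩
        · exact h ⟨a, b, ha.symm, hb', h2⟩
      rw [Finset.sum_eq_single b (fun a _ ha => by rw [h0 a ha, map_zero, zero_mul])
        (fun h1 => absurd (Finset.mem_univ b) h1)] at hrel
      have h1 : red (y b) = 0 := (mul_eq_zero.1 hrel).resolve_left fun h2 =>
        hb' ((expand_eq_zero (Fact.out : p.Prime).pos).1 h2)
      obtain ⟨z, hz⟩ := sata_dvd h1
      refine ⟨Function.update y b z, fun j => ?_, sata_det_mul y b derivative_C hz⟩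
      by_cases hj : j = b
      · rw [hj, Function.update_self]
        exact hdiv z (hz ▸ hy b)
      · rw [Function.update_of_ne hj]
        exact hy j

/-- Strong induction on the largest `m` with `C (X ^ m) ∣ det (wr y)` (finite: order of a nonzero
coefficient). If `red (det (wr y)) = 0`, then by `wr_map` and `wr_ne_zero` there is a relation
`∑ expand p (c b) * red (y b) = 0` with `c ≠ 0` over `κ[X]`. Inner induction on
`∑ b, (if c b = 0 then 0 else natDegree (c b) + 1)`: if two coefficients `c b₁, c b₂` are nonzero
with `deg c b₁ ≥ deg c b₂`, write `c b₁ = q * c b₂ + ρ` and replace `y b₂` by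
`y b₂ + expand p q' * y b₁` (`q'` a lift of `q` along `PowerSeries.C`): the Wronskian is unchanged
(column operation, `th` commutes with `expand p q'`) and the relation has `c b₁` replaced by `ρ`.
If only `c b₀` is nonzero then `red (y b₀) = 0`, so `y b₀ = C X * y'`; replace `y b₀` by `y'`:
the determinant is divided by `C X`. -/
theorem exists_saturated (p : ℕ) [Fact p.Prime] [CharP κ p] (Pr : (PowerSeries κ)[X] → Prop)
    (hadd : ∀ y z, Pr y → Pr z → Pr (y + z))
    (hmul : ∀ c y, Pr y → Pr (expand (PowerSeries κ) p c * y))
    (hdiv : ∀ y, Pr (C PowerSeries.X * y) → Pr y)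
    (y : Fin r → (PowerSeries κ)[X]) (hy : ∀ b, Pr (y b)) (hw : (wr y).det ≠ 0) :
    ∃ (y' : Fin r → (PowerSeries κ)[X]) (m : ℕ), (∀ b, Pr (y' b)) ∧
      (wr y).det = C (PowerSeries.X ^ m) * (wr y').det ∧ red (wr y').det ≠ 0 := by
  have key : ∀ (n : ℕ) (y : Fin r → (PowerSeries κ)[X]), (∀ b, Pr (y b)) →
      ¬ C (PowerSeries.X ^ n) ∣ (wr y).det →
      ∃ (y' : Fin r → (PowerSeries κ)[X]) (m : ℕ), (∀ b, Pr (y' b)) ∧
        (wr y).det = C (PowerSeries.X ^ m) * (wr y').det ∧ red (wr y').det ≠ 0 := by
    intro n
    induction n with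
    | zero =>
      intro y _ h
      rw [pow_zero, C_1] at h
      exact absurd (one_dvd _) h
    | succ n ih =>
      intro y hy h
      by_cases h0 : red (wr y).det = 0
      · have h1 : (wr fun b => red (y b)).det = 0 := by
          rw [RingHom.map_det] at h0
          rw [← h0]
          congr 1
          exact (wr_map PowerSeries.constantCoeff y).symm
        have h2 : ∃ c : Fin r → κ[X], c ≠ 0 ∧ ∑ b, expand κ p (c b) * red (y b) = 0 := by
          by_contra h2
          refine wr_ne_zero p (fun b => red (y b)) (fun c hc => ?_) h1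
          by_contra h3
          exact h2 ⟨c, h3, hc⟩
        obtain ⟨c, hc, hrel⟩ := h2
        obtain ⟨y', hy', h3⟩ := sata_step p Pr hadd hmul hdiv _ y c hy hc hrel (Nat.lt_succ_self _)
        obtain ⟨y'', m, h4, h5, h6⟩ := ih y' hy' fun h4 => h (by
          rw [h3, pow_succ', C_mul]
          exact mul_dvd_mul_left _ h4)
        refine ⟨y'', m + 1, h4, ?_, h6⟩
        rw [h3, h5, pow_succ', C_mul, mul_assoc]
      · exact ⟨y, 0, hy, by rw [pow_zero, C_1, one_mul], h0⟩
  obtain ⟨i, hi⟩ : ∃ i, (wr y).det.coeff i ≠ 0 := by
    by_contra h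
    exact hw (Polynomial.ext fun i => by_contra fun h1 => h ⟨i, h1⟩)
  obtain ⟨j, hj⟩ : ∃ j, PowerSeries.coeff j ((wr y).det.coeff i) ≠ 0 := by
    by_contra h
    exact hi (PowerSeries.ext fun j => by_contra fun h1 => h ⟨j, h1⟩)
  refine key (j + 1) y hy fun h => hj ?_
  exact PowerSeries.X_pow_dvd_iff.1 ((C_dvd_iff_dvd_coeff _ _).1 h i) j (Nat.lt_succ_self j)

end Pool.Agent.GR
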