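import Pool.Agent.Lib.MP_aa40d3_nt.GR.Cyc

/-! Saturated fundamental matrices in characteristic `p`. -/

open Polynomial Matrix

namespace Pool.Agent.GR

variable {k : Type*} [Field k] {n r : ℕ}

/-- The columns of `Φ` span a saturated module over `k[X ^ p]`. -/
def Satd (p : ℕ) (Φ : Matrix (Fin r) (Fin r) k[X]) : Prop :=
  ∀ (π : k[X]) (c : Fin r → k[X]), π ≠ 0 →
    (∀ a, expand k p π ∣ (Φ *ᵥ fun b => expand k p (c b)) a) → ∀ b, π ∣ c b

theorem satd_der_expand (p : ℕ) [CharP k p] (f : k[X]) : derivative (expand k p f) = 0 := by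
  rw [derivative_expand, ← C_eq_natCast, CharP.cast_eq_zero k p]
  simp

theorem satd_cancel {δ u : k[X]} {P : Matrix (Fin r) (Fin r) k[X]} {v : Fin r → k[X]}
    (hu : derivative u = 0) (hu0 : u ≠ 0) (h : IsSol δ P (u • v)) : IsSol δ P v := by
  unfold IsSol at h ⊢
  rw [mulVec_smul] at h
  funext a
  have h1 := congrFun h a
  simp only [Pi.smul_apply, smul_eq_mul, derivative_mul, hu, zero_mul, zero_add] at h1 ⊢
  apply mul_left_cancel₀ hu0
  rw [← h1]
  ring

theorem satd_of_cols {δ : k[X]} {P Ψ : Matrix (Fin r) (Fin r) k[X]}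
    (h : ∀ b, IsSol δ P fun a => Ψ a b) : δ • Ψ.map derivative = P * Ψ := by
  ext1 a b
  exact congrFun (h b) a

theorem satd_prime (p : ℕ) [hp : Fact p.Prime] [CharP k p] {δ : k[X]}
    {P Φ : Matrix (Fin r) (Fin r) k[X]} (h0 : Φ.det ≠ 0) (h : δ • Φ.map derivative = P * Φ)
    (hmin : ∀ Ψ : Matrix (Fin r) (Fin r) k[X], Ψ.det ≠ 0 → δ • Ψ.map derivative = P * Ψ →
      Φ.det.natDegree ≤ Ψ.det.natDegree) {π : k[X]} (hπ : Irreducible π) (c : Fin r → k[X])
    (hc : ∀ a, expand k p π ∣ (Φ *ᵥ fun b => expand k p (c b)) a) (b : Fin r) : π ∣ c b := by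
  by_contra hb
  obtain ⟨u, w, huw⟩ := (hπ.coprime_iff_not_dvd.2 hb)
  choose v hv using hc
  have hπ0 : expand k p π ≠ 0 := (expand_ne_zero hp.out.pos).2 hπ.ne_zero
  set x : Fin r → k[X] := fun j => expand k p (w * c j + if j = b then u * π else 0) with hx
  set v' : Fin r → k[X] := fun a => expand k p w * v a + expand k p u * Φ a b with hv'
  have hxv : Φ *ᵥ x = expand k p π • v' := by
    have e : x = expand k p w • (fun j => expand k p (c j)) +
        Pi.single b (expand k p u * expand k p π) := by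
      funext j
      by_cases hj : j = b
      · subst hj
        simp [hx]
      · simp [hx, hj]
    rw [e, mulVec_add, mulVec_smul, mulVec_single]
    funext a
    simp only [Pi.add_apply, Pi.smul_apply, smul_eq_mul, hv a, hv', MulOpposite.smul_eq_mul_unop,
      MulOpposite.unop_op, col_apply]
    ring
  have hxb : x b = 1 := by
    simp only [hx, if_true]
    rw [add_comm, huw, map_one]
  have hsol : IsSol δ P v' := by
    refine satd_cancel (satd_der_expand p π) hπ0 ?_
    rw [← hxv]
    exact isSol_mulVec h x (fun j => satd_der_expand p _)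
  have hdet : expand k p π * (Φ.updateCol b v').det = Φ.det := by
    rw [← det_updateCol_smul, ← hxv, ← cramer_apply, cramer_eq_adjugate_mulVec, mulVec_mulVec,
      adjugate_mul, smul_mulVec, one_mulVec, Pi.smul_apply, hxb, smul_eq_mul, mul_one]
  have hne : (Φ.updateCol b v').det ≠ 0 := fun e => h0 (by rw [← hdet, e, mul_zero])
  have hle := hmin _ hne (satd_of_cols fun j => by
    by_cases hj : j = b
    · subst hj
      simpa only [updateCol_self] using hsol
    · simpa only [updateCol_ne hj] using isSol_col h j)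
  rw [← hdet, natDegree_mul hπ0 hne, natDegree_expand] at hle
  have h1 : 0 < π.natDegree * p := Nat.mul_pos hπ.natDegree_pos hp.out.pos
  omega

/-- Take a solution `Φ` with `det Φ ≠ 0` of minimal degree. First let `π` be irreducible and not
divide `c b`. Choose `u` with `π ∣ u * c b - 1` and let `c' = update (u • c) b 1`; then still
`Φ *ᵥ expand c' = expand π • v`, where `v` is a solution (cancel `expand π`, whose derivative
vanishes; `isSol_mulVec`). `Φ.updateCol b v` is a solution matrix with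
`expand π * det = det Φ` (`det_updateCol_sum` or Cramer), of smaller degree: contradiction.
For general `π` induct on the factorisation (`UniqueFactorizationMonoid.induction_on_prime`). -/
theorem exists_satd (p : ℕ) [Fact p.Prime] [CharP k p] {δ : k[X]}
    {P : Matrix (Fin r) (Fin r) k[X]} (h : Fund δ P) :
    ∃ Φ : Matrix (Fin r) (Fin r) k[X], Φ.det ≠ 0 ∧ δ • Φ.map derivative = P * Φ ∧ Satd p Φ := by
  classical
  have hp : 0 < p := (Fact.out : p.Prime).pos
  have hex : ∃ m, ∃ Φ : Matrix (Fin r) (Fin r) k[X], Φ.det ≠ 0 ∧ δ • Φ.map derivative = P * Φ ∧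
      Φ.det.natDegree = m := by
    obtain ⟨Φ, h1, h2⟩ := h
    exact ⟨_, Φ, h1, h2, rfl⟩
  obtain ⟨Φ, h0, h1, h2⟩ := Nat.find_spec hex
  have hmin : ∀ Ψ : Matrix (Fin r) (Fin r) k[X], Ψ.det ≠ 0 → δ • Ψ.map derivative = P * Ψ →
      Φ.det.natDegree ≤ Ψ.det.natDegree := fun Ψ g1 g2 => by
    rw [h2]
    exact Nat.find_min' hex ⟨Ψ, g1, g2, rfl⟩
  refine ⟨Φ, h0, h1, fun π => ?_⟩
  induction π using UniqueFactorizationMonoid.induction_on_prime with
  | h₁ => exact fun c hc => absurd rfl hc
  | h₂ x hx => exact fun c _ _ b => hx.dvd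
  | h₃ a q ha hq ih =>
    intro c _ hc
    have hq1 : ∀ b, q ∣ c b := satd_prime p h0 h1 hmin hq.irreducible c (fun j =>
      (dvd_trans (by rw [map_mul]; exact dvd_mul_right _ _) (hc j)))
    choose c' hc' using hq1
    have hq0 : expand k p q ≠ 0 := (expand_ne_zero hp).2 hq.ne_zero
    have e : (fun b => expand k p (c b)) = expand k p q • fun b => expand k p (c' b) := by
      funext b
      simp [hc' b]
    intro b
    rw [hc' b]
    refine mul_dvd_mul_left q (ih c' ha (fun j => ?_) b)
    have h3 := hc j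
    rw [e, mulVec_smul, map_mul, Pi.smul_apply, smul_eq_mul] at h3
    exact (mul_dvd_mul_iff_left hq0).1 h3

theorem satd_decomp (p : ℕ) (hp : 0 < p) (f : k[X]) :
    ∃ c : ℕ → k[X], f = ∑ j ∈ Finset.range p, X ^ j * expand k p (c j) := by
  induction f using Polynomial.induction_on' with
  | add f g hf hg =>
    obtain ⟨c, hc⟩ := hf
    obtain ⟨d, hd⟩ := hg
    refine ⟨c + d, ?_⟩
    rw [hc, hd, ← Finset.sum_add_distrib]
    refine Finset.sum_congr rfl fun j _ => ?_
    rw [Pi.add_apply, map_add, mul_add]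
  | monomial m a =>
    refine ⟨fun j => if j = m % p then monomial (m / p) a else 0, ?_⟩
    rw [Finset.sum_eq_single (m % p)]
    · simp only [if_true]
      rw [expand_monomial, X_pow_mul_monomial]
      congr 2
      rw [mul_comm]
      exact (Nat.div_add_mod m p).symm
    · intro j _ hj
      simp only [if_neg hj, map_zero, mul_zero]
    · intro hm
      exact absurd (Finset.mem_range.2 (Nat.mod_lt _ hp)) hm

theorem satd_parts (p : ℕ) [Fact p.Prime] [CharP k p] (W : Submodule k[X] (Fin r → k[X]))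
    (hW : ∀ v ∈ W, (fun a => derivative (v a)) ∈ W) (m : ℕ) : m ≤ p →
    ∀ c : ℕ → Fin r → k[X], (fun a => ∑ j ∈ Finset.range m, X ^ j * expand k p (c j a)) ∈ W →
      ∀ j, j < m → (fun a => expand k p (c j a)) ∈ W := by
  induction m with
  | zero => exact fun _ _ _ j hj => absurd hj (by omega)
  | succ m ih =>
    intro hm c hc
    have h1 := hW _ hc
    have e : (fun a => derivative (∑ j ∈ Finset.range (m + 1), X ^ j * expand k p (c j a))) =
        fun a => ∑ j ∈ Finset.range m, X ^ j * expand k p (C ((j + 1 : ℕ) : k) * c (j + 1) a) := by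
      funext a
      rw [Finset.sum_range_succ', map_add, derivative_sum]
      simp only [derivative_mul, satd_der_expand, mul_zero, add_zero, pow_zero, derivative_one,
        zero_mul, derivative_X_pow, map_mul, expand_C, Nat.add_sub_cancel]
      refine Finset.sum_congr rfl fun j _ => ?_
      ring
    rw [e] at h1
    have h2 : ∀ j, j < m → (fun a => expand k p (c (j + 1) a)) ∈ W := by
      intro j hj
      have h3 := W.smul_mem (C ((j + 1 : ℕ) : k)⁻¹) (ih (by omega) _ h1 j hj)
      have h4 : ((j + 1 : ℕ) : k) ≠ 0 := by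
        rw [Ne, CharP.cast_eq_zero_iff k p]
        exact Nat.not_dvd_of_pos_of_lt (by omega) (by omega)
      convert h3 using 1
      funext a
      rw [Pi.smul_apply, smul_eq_mul, map_mul, expand_C, ← mul_assoc, ← C_mul,
        inv_mul_cancel₀ h4, C_1, one_mul]
    intro j hj
    rcases j with _ | j
    · have h5 : ∑ j ∈ Finset.range m, (X ^ (j + 1) : k[X]) • (fun a => expand k p (c (j + 1) a))
          ∈ W := W.sum_mem fun j hj => W.smul_mem _ (h2 j (Finset.mem_range.1 hj))
      convert W.sub_mem hc h5 using 1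
      funext a
      rw [Pi.sub_apply, Finset.sum_range_succ', Finset.sum_apply]
      simp
    · exact h2 j (by omega)

/-- Every polynomial is `∑_{j < p} X ^ j * expand p (c j)`. A submodule stable under the
derivative contains the components: downward induction on the top index `j`, using that the
`j`-th derivative of `∑_{i ≤ j} X ^ i * expand (c i)` is `j! * expand (c j)` and `j!` is a unit. -/
theorem const_parts (p : ℕ) [Fact p.Prime] [CharP k p] (W : Submodule k[X] (Fin r → k[X]))
    (hW : ∀ v ∈ W, (fun a => derivative (v a)) ∈ W) (v : Fin r → k[X]) (hv : v ∈ W) :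
    ∃ c : Fin p → Fin r → k[X], (∀ j, (fun a => expand k p (c j a)) ∈ W) ∧
      ∀ a, v a = ∑ j : Fin p, X ^ (j : ℕ) * expand k p (c j a) := by
  have hp : 0 < p := (Fact.out : p.Prime).pos
  choose c hc using fun a => satd_decomp p hp (v a)
  refine ⟨fun j a => c a j, fun j => satd_parts p W hW p le_rfl (fun j a => c a j) ?_ j j.2,
    fun a => ?_⟩
  · convert hv using 1
    funext a
    exact (hc a).symm
  · rw [hc a, Finset.sum_range]

/-- Suppose `q ∣ det Φ`. Over the field `k[X] / (q)` there is `c₀`, not divisible by `q`, with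
`q ∣ Φ *ᵥ c₀`. The submodule `W = {c | q ^ p ∣ Φ *ᵥ c}` contains `q ^ (p - 1) • c₀` and is stable
under the derivative: if `Φ c = q ^ p v` then `δ Φ c' = q ^ p (δ v' - P v)` and `q ^ p` is prime
to `δ`. With `π = q.map (frobenius k p)` one has `expand p π = q ^ p` (`map_frobenius_expand`,
`map_expand`), so `const_parts` and `Satd` give `q ^ p ∣ q ^ (p - 1) * c₀ b` for all `b`. -/
theorem Satd.not_dvd (p : ℕ) [Fact p.Prime] [CharP k p] {δ : k[X]}
    {P Φ : Matrix (Fin r) (Fin r) k[X]} (h : δ • Φ.map derivative = P * Φ) (hs : Satd p Φ)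
    {q : k[X]} (hq : Irreducible q) (hqδ : ¬ q ∣ δ) : ¬ q ∣ Φ.det := by
  intro hd
  have hp : p.Prime := Fact.out
  have : Fact (Irreducible q) := ⟨hq⟩
  have h0 : (Φ.map (AdjoinRoot.mk q)).det = 0 := by
    rw [← RingHom.mapMatrix_apply, ← RingHom.map_det, AdjoinRoot.mk_eq_zero]
    exact hd
  obtain ⟨v, hv0, hv⟩ := exists_mulVec_eq_zero_iff.2 h0
  choose c₀ hc₀ using fun b => AdjoinRoot.mk_surjective (v b)
  have h1 : ∀ a, q ∣ (Φ *ᵥ c₀) a := by
    intro a
    rw [← AdjoinRoot.mk_eq_zero, RingHom.map_mulVec]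
    have : (AdjoinRoot.mk q) ∘ c₀ = v := funext hc₀
    rw [this, hv]
    rfl
  let W : Submodule k[X] (Fin r → k[X]) :=
    { carrier := {c | ∀ a, q ^ p ∣ (Φ *ᵥ c) a}
      add_mem' := fun {x y} hx hy a => by
        rw [mulVec_add]
        exact dvd_add (hx a) (hy a)
      zero_mem' := fun a => by simp
      smul_mem' := fun u x hx a => by
        rw [mulVec_smul]
        exact Dvd.dvd.mul_left (hx a) u }
  have hπ : expand k p (q.map (frobenius k p)) = q ^ p := by
    rw [← map_expand, map_frobenius_expand]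
  have hW : ∀ c ∈ W, (fun a => derivative (c a)) ∈ W := by
    intro c hc a
    have hcop : IsCoprime (q ^ p) δ := (hq.coprime_iff_not_dvd.2 hqδ).pow_left
    refine hcop.dvd_of_dvd_mul_left ?_
    have e : δ * (Φ *ᵥ fun a => derivative (c a)) a =
        δ * derivative ((Φ *ᵥ c) a) - (P *ᵥ (Φ *ᵥ c)) a := by
      rw [mulVec_mulVec, ← h]
      simp only [mulVec, dotProduct, derivative_sum, derivative_mul, Matrix.smul_apply,
        Matrix.map_apply, smul_eq_mul, Finset.mul_sum, ← Finset.sum_sub_distrib]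
      refine Finset.sum_congr rfl fun j _ => ?_
      ring
    rw [e]
    refine dvd_sub (Dvd.dvd.mul_left ?_ _) ?_
    · obtain ⟨w, hw⟩ := hc a
      rw [hw, derivative_mul, ← hπ, satd_der_expand, zero_mul, zero_add]
      exact dvd_mul_right _ _
    · have hc' : ∀ j, q ^ p ∣ (Φ *ᵥ c) j := hc
      generalize Φ *ᵥ c = y at hc'
      change q ^ p ∣ ∑ j, P a j * y j
      exact Finset.dvd_sum fun j _ => Dvd.dvd.mul_left (hc' j) _
  have hmem : (q ^ (p - 1) • c₀) ∈ W := by
    intro a
    rw [mulVec_smul, Pi.smul_apply, smul_eq_mul]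
    have : q ^ p = q ^ (p - 1) * q := by rw [← pow_succ, Nat.sub_add_cancel hp.one_le]
    rw [this]
    exact mul_dvd_mul_left _ (h1 a)
  obtain ⟨c, hc1, hc2⟩ := const_parts p W hW _ hmem
  have hπ0 : q.map (frobenius k p) ≠ 0 := Polynomial.map_ne_zero hq.ne_zero
  apply hv0
  funext b
  rw [← hc₀ b, Pi.zero_apply, AdjoinRoot.mk_eq_zero]
  have h2 : q ^ p ∣ (q ^ (p - 1) • c₀) b := by
    rw [hc2 b]
    refine Finset.dvd_sum fun j _ => Dvd.dvd.mul_left ?_ _
    rw [← hπ]
    have h4 : ∀ a, q ^ p ∣ (Φ *ᵥ fun b => expand k p (c j b)) a := hc1 j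
    rw [← hπ] at h4
    exact _root_.map_dvd (expand k p) (hs _ (c j) hπ0 h4 b)
  have h3 : q ^ p = q ^ (p - 1) * q := by rw [← pow_succ, Nat.sub_add_cancel hp.one_le]
  rw [h3, Pi.smul_apply, smul_eq_mul] at h2
  exact (mul_dvd_mul_iff_left (pow_ne_zero _ hq.ne_zero)).1 h2

end Pool.Agent.GR
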