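import Mathlib

/-! Specialisation of algebraic power series and formal solutions of linear systems. -/

open Polynomial Matrix

namespace Pool.Agent.GR

theorem speca_algebraMap (p : ℂ[X]) : algebraMap ℂ[X] (PowerSeries ℂ) p = (p : PowerSeries ℂ) := by
  ext k
  simp [RingHom.algebraMap_toAlgebra]

theorem speca_tower : IsScalarTower ℂ ℂ[X] (PowerSeries ℂ) :=
  IsScalarTower.of_algebraMap_eq fun c => by
    rw [speca_algebraMap]
    simp

/-- Transcendence is independence of the monomials. -/
theorem speca_alg_iff (g : PowerSeries ℂ) : IsAlgebraic ℂ[X] g ↔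
    ¬ LinearIndependent ℂ fun ij : ℕ × ℕ => PowerSeries.X ^ ij.1 * g ^ ij.2 := by
  have := speca_tower
  let b : Module.Basis (ℕ × ℕ) ℂ ℂ[X][X] := (basisMonomials ℂ).smulTower (basisMonomials ℂ[X])
  let L : ℂ[X][X] →ₗ[ℂ] PowerSeries ℂ := ((aeval g).toLinearMap).restrictScalars ℂ
  have hb : (fun ij : ℕ × ℕ => PowerSeries.X ^ ij.1 * g ^ ij.2) = L ∘ b := by
    funext ij
    simp only [L, b, Function.comp, Module.Basis.smulTower_apply, coe_basisMonomials,
      LinearMap.restrictScalars_apply, AlgHom.toLinearMap_apply, Algebra.smul_def,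
      monomial_one_right_eq_X_pow]
    simp [speca_algebraMap]
  rw [hb, ← not_iff_not, not_not]
  show Transcendental ℂ[X] g ↔ _
  rw [transcendental_iff_injective]
  constructor
  · intro h
    exact b.linearIndependent.map' L (LinearMap.ker_eq_bot.2 h)
  · intro h
    exact LinearMap.injective_of_linearIndependent b.span_eq h

/-- An independent finite family of power series has a nonzero maximal minor. -/
theorem speca_minor {κ : Type} [Fintype κ] [DecidableEq κ] {v : κ → PowerSeries ℂ}
    (h : LinearIndependent ℂ v) :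
    ∃ m : κ → ℕ, (Matrix.of fun i k => PowerSeries.coeff (m k) (v i)).det ≠ 0 := by
  let c : ℕ → κ → ℂ := fun m i => PowerSeries.coeff m (v i)
  have hsp : Submodule.span ℂ (Set.range c) = ⊤ := by
    by_contra hne
    obtain ⟨f, hf0, hf⟩ := Submodule.exists_dual_map_eq_bot_of_lt_top (lt_top_iff_ne_top.2 hne)
      inferInstance
    apply hf0
    have ha : ∀ x : κ → ℂ, f x = ∑ i, x i * f (Pi.single i 1) := by
      intro x
      conv_lhs => rw [pi_eq_sum_univ' x]
      simp [map_sum]
    have h0 : ∑ i, f (Pi.single i 1) • v i = 0 := by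
      ext m
      have h1 : f (c m) = 0 := by
        have : f (c m) ∈ Submodule.map f (Submodule.span ℂ (Set.range c)) :=
          Submodule.mem_map_of_mem (Submodule.subset_span ⟨m, rfl⟩)
        rw [hf] at this
        simpa using this
      rw [ha] at h1
      simpa [c, mul_comm] using h1
    have h2 := Fintype.linearIndependent_iff.1 h _ h0
    refine LinearMap.ext fun x => ?_
    rw [ha]
    simp [h2]
  obtain ⟨κ', a, -, hs, hl⟩ := exists_linearIndependent' ℂ c
  let B : Module.Basis κ' ℂ (κ → ℂ) := Module.Basis.mk hl (by rw [hs, hsp])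
  let e : κ ≃ κ' := (Pi.basisFun ℂ κ).indexEquiv B
  refine ⟨fun k => a (e k), ?_⟩
  have hu : IsUnit (Matrix.of fun i k => PowerSeries.coeff (a (e k)) (v i)) := by
    rw [← Matrix.linearIndependent_cols_iff_isUnit]
    exact hl.comp e e.injective
  exact ((Matrix.isUnit_iff_isUnit_det _).1 hu).ne_zero

/-- A nonzero minor gives independence. -/
theorem speca_indep {κ : Type} [Fintype κ] [DecidableEq κ] {v : κ → PowerSeries ℂ} {m : κ → ℕ}
    (h : (Matrix.of fun i k => PowerSeries.coeff (m k) (v i)).det ≠ 0) :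
    LinearIndependent ℂ v := by
  have hu : IsUnit (Matrix.of fun i k => PowerSeries.coeff (m k) (v i)) :=
    (Matrix.isUnit_iff_isUnit_det _).2 (isUnit_iff_ne_zero.2 h)
  rw [← Matrix.linearIndependent_rows_iff_isUnit] at hu
  let L : PowerSeries ℂ →ₗ[ℂ] (κ → ℂ) := LinearMap.pi fun k => PowerSeries.coeff (m k)
  exact LinearIndependent.of_comp L hu

/-- Algebraicity at uncountably many points under an injective map specialises. -/
theorem spec_det {R : Type} [CommRing R] (ι φ : R →+* ℂ) (hi : Function.Injective ι)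
    (f : PowerSeries R[X]) {Z : Set ℂ} (hZ : ¬ Z.Countable)
    (h : ∀ z ∈ Z, IsAlgebraic ℂ[X] (PowerSeries.map (eval₂RingHom ι z) f)) (w : ℂ) :
    IsAlgebraic ℂ[X] (PowerSeries.map (eval₂RingHom φ w) f) := by
  classical
  by_contra hn
  rw [speca_alg_iff, not_not, linearIndependent_iff_finset_linearIndependent] at hn
  apply hZ
  have key : ∀ s : Finset (ℕ × ℕ), Set.Finite {z : ℂ | ¬ LinearIndependent ℂ
      ((fun ij : ℕ × ℕ => PowerSeries.X ^ ij.1 * (PowerSeries.map (eval₂RingHom ι z) f) ^ ij.2) ∘
        (Subtype.val : s → ℕ × ℕ))} := by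
    intro s
    obtain ⟨m, hm⟩ := speca_minor (hn s)
    let M : Matrix s s R[X] :=
      Matrix.of fun i k => PowerSeries.coeff (m k) (PowerSeries.X ^ i.1.1 * f ^ i.1.2)
    have hM : ∀ ψ : R[X] →+* ℂ, (Matrix.of fun (i k : s) => PowerSeries.coeff (m k)
        (((fun ij : ℕ × ℕ => PowerSeries.X ^ ij.1 * (PowerSeries.map ψ f) ^ ij.2) ∘
          (Subtype.val : s → ℕ × ℕ)) i)).det = ψ M.det := by
      intro ψ
      rw [RingHom.map_det]
      congr 1
      ext i k
      simp only [M, Matrix.of_apply, Function.comp, RingHom.mapMatrix_apply, Matrix.map_apply]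
      rw [← PowerSeries.coeff_map]
      simp
    have hM0 : M.det ≠ 0 := by
      intro h0
      rw [hM, h0, map_zero] at hm
      exact hm rfl
    have hM1 : M.det.map ι ≠ 0 := (Polynomial.map_ne_zero_iff hi).2 hM0
    refine (M.det.map ι).roots.toFinset.finite_toSet.subset fun z hz => ?_
    by_contra hz'
    apply hz
    refine speca_indep (m := m) ?_
    rw [hM]
    intro h0
    apply hz'
    simp only [Finset.mem_coe, Multiset.mem_toFinset, mem_roots hM1, IsRoot.def, eval_map]
    exact h0
  refine (Set.countable_iUnion fun s : Finset (ℕ × ℕ) => (key s).countable).mono fun z hz => ?_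
  have h1 := h z hz
  rw [speca_alg_iff, linearIndependent_iff_finset_linearIndependent, not_forall] at h1
  exact Set.mem_iUnion.2 h1

section formal
variable {S : Type} [CommRing S] {r : ℕ}

/-- Formal solution of `F' = B F`. -/
def FSol (B F : Matrix (Fin r) (Fin r) (PowerSeries S)) : Prop :=
  F.map (PowerSeries.derivative S) = B * F

/-- Coefficients of the normalised formal solution. -/
noncomputable def fcoef [Algebra ℚ S] (B : ℕ → Matrix (Fin r) (Fin r) S) :
    ℕ → Matrix (Fin r) (Fin r) S
  | 0 => 1
  | k + 1 => ((k : ℚ) + 1)⁻¹ • ∑ j : Fin (k + 1), B (k - j) * fcoef B j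
decreasing_by exact j.2

theorem speca_coeff_mul (B F : Matrix (Fin r) (Fin r) (PowerSeries S)) (k : ℕ) :
    (B * F).map (PowerSeries.coeff k) = ∑ j : Fin (k + 1),
      B.map (PowerSeries.coeff (k - j)) * F.map (PowerSeries.coeff j) := by
  ext a b
  simp only [Matrix.map_apply, Matrix.mul_apply, map_sum, Matrix.sum_apply]
  rw [Finset.sum_comm]
  refine Finset.sum_congr rfl fun c _ => ?_
  rw [mul_comm, PowerSeries.coeff_mul, Finset.Nat.sum_antidiagonal_eq_sum_range_succ
    (fun i j => PowerSeries.coeff i (F c b) * PowerSeries.coeff j (B a c)), Finset.sum_range]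
  simp [mul_comm]

theorem exists_fsol [Algebra ℚ S] (B : Matrix (Fin r) (Fin r) (PowerSeries S)) :
    ∃ F, FSol B F ∧ F.map (PowerSeries.coeff 0) = 1 := by
  let c := fcoef fun k => B.map (PowerSeries.coeff k)
  let F : Matrix (Fin r) (Fin r) (PowerSeries S) :=
    Matrix.of fun a b => PowerSeries.mk fun k => c k a b
  have hF : ∀ k, F.map (PowerSeries.coeff k) = c k := fun k => by
    ext a b
    simp [F]
  refine ⟨F, ?_, by rw [hF]; simp [c, fcoef]⟩
  ext a b k
  have h1 := congrFun (congrFun (speca_coeff_mul B F k) a) b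
  rw [Matrix.map_apply] at h1
  rw [h1, Matrix.map_apply, PowerSeries.coeff_derivative]
  simp only [hF]
  have h2 : PowerSeries.coeff (k + 1) (F a b) = c (k + 1) a b := by simp [F]
  rw [h2]
  simp only [c]
  rw [fcoef, Matrix.smul_apply, mul_comm, Algebra.smul_def, ← mul_assoc]
  have h3 : ((k : S) + 1) * algebraMap ℚ S ((k : ℚ) + 1)⁻¹ = 1 := by
    have : ((k : S) + 1) = algebraMap ℚ S ((k : ℚ) + 1) := by simp
    rw [this, ← map_mul, mul_inv_cancel₀ (by positivity), map_one]
  rw [h3, one_mul]

theorem FSol.unique {B F G : Matrix (Fin r) (Fin r) (PowerSeries ℂ)} (hF : FSol B F)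
    (hG : FSol B G) (h0 : F.map (PowerSeries.coeff 0) = G.map (PowerSeries.coeff 0)) : F = G := by
  have key : ∀ k, F.map (PowerSeries.coeff k) = G.map (PowerSeries.coeff k) := by
    intro k
    induction k using Nat.strong_induction_on with
    | _ k ih =>
      rcases k with _ | k
      · exact h0
      · have h1 := speca_coeff_mul B F k
        have h2 := speca_coeff_mul B G k
        rw [← hF] at h1
        rw [← hG] at h2
        have h3 : (F.map (PowerSeries.derivative ℂ)).map (PowerSeries.coeff k) =
            (G.map (PowerSeries.derivative ℂ)).map (PowerSeries.coeff k) := by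
          rw [h1, h2]
          exact Finset.sum_congr rfl fun j _ => by rw [ih j j.2]
        ext a b
        have h4 := congrFun (congrFun h3 a) b
        simp only [Matrix.map_apply, PowerSeries.coeff_derivative] at h4
        exact mul_right_cancel₀ (Nat.cast_add_one_ne_zero k) h4
  ext a b k
  exact congrFun (congrFun (key k) a) b

theorem FSol.map {S' : Type} [CommRing S'] (ψ : S →+* S')
    {B F : Matrix (Fin r) (Fin r) (PowerSeries S)} (h : FSol B F) :
    FSol (B.map (PowerSeries.map ψ)) (F.map (PowerSeries.map ψ)) := by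
  unfold FSol at h ⊢
  rw [← Matrix.map_mul, ← h]
  ext a b k
  simp [PowerSeries.coeff_derivative]

theorem FSol.mul_const {B F : Matrix (Fin r) (Fin r) (PowerSeries S)} (h : FSol B F)
    (M : Matrix (Fin r) (Fin r) S) : FSol B (F * M.map PowerSeries.C) := by
  unfold FSol at h ⊢
  rw [← Matrix.mul_assoc, ← h]
  ext1 a b
  simp [Matrix.mul_apply, Derivation.leibniz, mul_comm]

/-- The series of `(1 + d X)⁻¹`. -/
noncomputable def geo (d : S) : PowerSeries S := PowerSeries.mk fun k => (-d) ^ k

theorem geo_mul (d : S) : geo d * (1 + PowerSeries.C d * PowerSeries.X) = 1 := by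
  ext k
  rcases k with _ | k
  · simp [geo]
  · rw [mul_add, mul_one, ← mul_assoc, map_add, PowerSeries.coeff_succ_mul_X,
      PowerSeries.coeff_mul_C]
    simp [geo, pow_succ, PowerSeries.coeff_one]

variable {n : ℕ}

/-- The coefficient of the rescaled system. -/
noncomputable def fB (d : Fin n → S) (A : Fin n → Matrix (Fin r) (Fin r) S) :
    Matrix (Fin r) (Fin r) (PowerSeries S) :=
  ∑ i, (PowerSeries.C (d i) * geo (d i)) • (A i).map PowerSeries.C

theorem fB_map {S' : Type} [CommRing S'] (ψ : S →+* S') (d : Fin n → S)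
    (A : Fin n → Matrix (Fin r) (Fin r) S) :
    (fB d A).map (PowerSeries.map ψ) = fB (fun i => ψ (d i)) fun i => (A i).map ψ := by
  have hg : ∀ x : S, PowerSeries.map ψ (geo x) = geo (ψ x) := fun x => by
    ext k
    simp [geo]
  ext1 a b
  simp [fB, Matrix.sum_apply, hg]

end formal

end Pool.Agent.GR
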