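import Mathlib

/-! Spreading out for finitely generated rings. -/

open Polynomial

namespace Pool.Agent.GR

/-- The range of `PrimeSpectrum.comap f` is constructible (`isConstructible_range_comap`; finite
type over a noetherian ring is finite presentation) and contains the generic point. By
`exists_constructibleSetData_iff` it is a finite union of sets `V(g₁, …) \ V(u)`; the piece that
contains `⊥` has all `gᵢ = 0` and `u ≠ 0`. -/
theorem chev {A B : Type*} [CommRing A] [IsDomain A] [IsNoetherianRing A] [CommRing B]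
    [IsDomain B] (f : A →+* B) (hf : Function.Injective f) (hft : f.FiniteType) :
    ∃ u : A, u ≠ 0 ∧ ∀ P : Ideal A, P.IsPrime → u ∉ P →
      ∃ Q : Ideal B, Q.IsPrime ∧ Q.comap f = P := by
  have hc := PrimeSpectrum.isConstructible_range_comap (RingHom.FinitePresentation.of_finiteType.1 hft)
  obtain ⟨S, hS⟩ := PrimeSpectrum.exists_constructibleSetData_iff.2 hc
  have hbot : (⟨⊥, Ideal.isPrime_bot⟩ : PrimeSpectrum A) ∈ Set.range (PrimeSpectrum.comap f) := by
    refine ⟨⟨⊥, Ideal.isPrime_bot⟩, PrimeSpectrum.ext ?_⟩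
    exact Ideal.comap_bot_of_injective f hf
  rw [← hS] at hbot
  obtain ⟨C, hC, hmem⟩ := Set.mem_iUnion₂.1 hbot
  obtain ⟨h1, h2⟩ := hmem
  have hg : ∀ i, C.g i = 0 := fun i => by
    have := (PrimeSpectrum.mem_zeroLocus _ _).1 h1 ⟨i, rfl⟩
    simpa using this
  have hu : C.f ≠ 0 := by
    intro h0
    apply h2
    rw [PrimeSpectrum.mem_zeroLocus]
    simp [h0]
  refine ⟨C.f, hu, fun P hP hPu => ?_⟩
  have hin : (⟨P, hP⟩ : PrimeSpectrum A) ∈ Set.range (PrimeSpectrum.comap f) := by
    rw [← hS]
    refine Set.mem_iUnion₂.2 ⟨C, hC, ?_, ?_⟩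
    · rw [PrimeSpectrum.mem_zeroLocus]
      rintro _ ⟨i, rfl⟩
      rw [hg i]
      exact P.zero_mem
    · rw [PrimeSpectrum.mem_zeroLocus]
      simpa using hPu
  obtain ⟨Q, hQ⟩ := hin
  exact ⟨Q.asIdeal, Q.isPrime, congrArg PrimeSpectrum.asIdeal hQ⟩

/-- Apply `chev` to `ℤ → Localization.Away x`; for `p > |u|` take `Q` over `(p)` and the fraction
field of the quotient. -/
theorem spread {R : Type} [CommRing R] [IsDomain R] [CharZero R] [Algebra.FiniteType ℤ R] {x : R}
    (hx : x ≠ 0) : ∃ P : ℕ, ∀ p : ℕ, p.Prime → P < p →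
      ∃ (k : Type) (_ : Field k) (_ : CharP k p) (φ : R →+* k), φ x ≠ 0 := by
  have hle : Submonoid.powers x ≤ nonZeroDivisors R :=
    powers_le_nonZeroDivisors_of_noZeroDivisors hx
  have : IsDomain (Localization.Away x) := IsLocalization.isDomain_localization hle
  have hinj : Function.Injective (algebraMap R (Localization.Away x)) :=
    IsLocalization.injective _ hle
  have hf : Function.Injective ((algebraMap R (Localization.Away x)).comp (algebraMap ℤ R)) :=
    hinj.comp (algebraMap ℤ R).injective_int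
  have hft : ((algebraMap R (Localization.Away x)).comp (algebraMap ℤ R)).FiniteType :=
    RingHom.FiniteType.comp (RingHom.finiteType_algebraMap.2 inferInstance)
      (RingHom.finiteType_algebraMap.2 inferInstance)
  obtain ⟨u, hu, H⟩ := chev _ hf hft
  refine ⟨u.natAbs, fun p hp hlt => ?_⟩
  have hpp : Prime (p : ℤ) := Nat.prime_iff_prime_int.1 hp
  have hP : (Ideal.span {(p : ℤ)}).IsPrime := (Ideal.span_singleton_prime hpp.ne_zero).2 hpp
  have hnot : u ∉ Ideal.span {(p : ℤ)} := by
    rw [Ideal.mem_span_singleton]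
    intro hd
    have := Nat.le_of_dvd (Int.natAbs_pos.2 hu) (Int.natCast_dvd.1 hd)
    omega
  obtain ⟨Q, hQ, hQP⟩ := H _ hP hnot
  let ψ : Localization.Away x →+* FractionRing (Localization.Away x ⧸ Q) :=
    (algebraMap (Localization.Away x ⧸ Q) _).comp (Ideal.Quotient.mk Q)
  have hp0 : ((p : ℕ) : FractionRing (Localization.Away x ⧸ Q)) = 0 := by
    have h1 : (p : ℤ) ∈ Q.comap ((algebraMap R (Localization.Away x)).comp (algebraMap ℤ R)) := by
      rw [hQP]
      exact Ideal.mem_span_singleton_self _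
    rw [Ideal.mem_comap, map_natCast] at h1
    have h2 : ψ (p : Localization.Away x) = 0 := by
      simp only [ψ, RingHom.comp_apply]
      rw [Ideal.Quotient.eq_zero_iff_mem.2 h1, map_zero]
    rwa [map_natCast] at h2
  refine ⟨FractionRing (Localization.Away x ⧸ Q), inferInstance,
    (CharP.charP_iff_prime_eq_zero hp).2 hp0,
    ψ.comp (algebraMap R (Localization.Away x)), ?_⟩
  exact ((IsLocalization.Away.algebraMap_isUnit x).map ψ).ne_zero

/-- The subring generated by a finite set is of finite type. -/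
theorem finiteType_closure (S : Finset ℂ) :
    Algebra.FiniteType ℤ (Subring.closure (S : Set ℂ)) := by
  have h1 : Algebra.FiniteType ℤ (Algebra.adjoin ℤ (S : Set ℂ)) :=
    Algebra.FiniteType.adjoin_of_finite S.finite_toSet
  have h2 : (Algebra.adjoin ℤ (S : Set ℂ)).toSubring = Subring.closure (S : Set ℂ) := by
    rw [Algebra.adjoin_int]
    rfl
  exact Algebra.FiniteType.equiv h1 (RingEquiv.subringCongr h2).toIntAlgEquiv

/-- Enlarging a ring of definition by finitely many complex numbers. -/
theorem exists_enlarge {R : Type} [CommRing R] [Algebra.FiniteType ℤ R] (ι : R →+* ℂ)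
    (S : Finset ℂ) : ∃ (R' : Subring ℂ) (j : R →+* R'), Algebra.FiniteType ℤ R' ∧
      (∀ x, (j x : ℂ) = ι x) ∧ ∀ s ∈ S, s ∈ R' := by
  classical
  obtain ⟨T, hT⟩ := (Algebra.FiniteType.out : (⊤ : Subalgebra ℤ R).FG)
  let R' : Subring ℂ := Subring.closure ((T.image ι ∪ S : Finset ℂ) : Set ℂ)
  have hmem : ∀ x, ι x ∈ R' := by
    intro x
    have hx : x ∈ Algebra.adjoin ℤ (T : Set R) := hT ▸ Algebra.mem_top
    rw [Algebra.adjoin_int] at hx
    have hle : Subring.closure (T : Set R) ≤ R'.comap ι := by
      rw [Subring.closure_le]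
      intro t ht
      refine Subring.subset_closure ?_
      simp only [Finset.coe_union, Finset.coe_image]
      exact Or.inl ⟨t, ht, rfl⟩
    exact hle hx
  refine ⟨R', ι.codRestrict R' hmem, finiteType_closure _, fun x => rfl, fun s hs => ?_⟩
  refine Subring.subset_closure ?_
  simp only [Finset.coe_union]
  exact Or.inr hs

end Pool.Agent.GR
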