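import Pool.Agent.Lib.MP_aa40d3_nt.GR.Aff

/-! Transfer of the hypotheses under twists and affine changes of variable. -/

open Polynomial Matrix

namespace Pool.Agent.GR

variable {n r : ℕ}

private theorem topa_pm_twist (t : Fin n → ℂ) (A : Fin n → Matrix (Fin r) (Fin r) ℂ)
    (lam : Fin n → ℂ) (l : Fin r → ℂ[X]) :
    l ᵥ* pm t A = l ᵥ* pm t (fun i => A i - lam i • (1 : Matrix (Fin r) (Fin r) ℂ)) +
      (∑ i, (∏ j ∈ Finset.univ.erase i, (X - C (t j))) * C (lam i)) • l := by
  have h : pm t A = pm t (fun i => A i - lam i • (1 : Matrix (Fin r) (Fin r) ℂ)) +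
      (∑ i, (∏ j ∈ Finset.univ.erase i, (X - C (t j))) * C (lam i)) •
        (1 : Matrix (Fin r) (Fin r) ℂ[X]) := by
    unfold pm
    rw [Finset.sum_smul, ← Finset.sum_add_distrib]
    refine Finset.sum_congr rfl fun i _ => ?_
    refine Matrix.ext fun a b => ?_
    by_cases hab : a = b
    · subst hab
      simp only [Matrix.add_apply, Matrix.smul_apply, Matrix.map_apply, Matrix.sub_apply,
        Matrix.one_apply_eq, smul_eq_mul, mul_one, map_sub]
      ring
    · simp only [Matrix.add_apply, Matrix.smul_apply, Matrix.map_apply, Matrix.sub_apply,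
        Matrix.one_apply_ne hab, smul_eq_mul, mul_zero, sub_zero, add_zero]
  rw [h, Matrix.vecMul_add, Matrix.vecMul_smul, Matrix.vecMul_one]

private theorem topa_comp {t t' : Fin n → ℂ} {c b : ℂ} (ht : ∀ i, t i = c * t' i + b)
    (s : Finset (Fin n)) : (∏ j ∈ s, (X - C (t j))).comp (C c * X + C b) =
      C c ^ s.card * ∏ j ∈ s, (X - C (t' j)) := by
  rw [Polynomial.prod_comp, ← Finset.prod_const, ← Finset.prod_mul_distrib]
  refine Finset.prod_congr rfl fun j _ => ?_
  rw [sub_comp, X_comp, C_comp, ht j, map_add, map_mul]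
  ring

private theorem topa_op {t t' : Fin n → ℂ} {c b : ℂ} (ht : ∀ i, t i = c * t' i + b)
    (A : Fin n → Matrix (Fin r) (Fin r) ℂ) (l : Fin r → ℂ[X]) :
    (C c : ℂ[X]) • (fun a => (((dl t • fun a => derivative (l a)) + l ᵥ* pm t A) a).comp
      (C c * X + C b)) = (C c ^ n : ℂ[X]) •
      ((dl t' • fun a => derivative ((l a).comp (C c * X + C b))) +
        (fun a => (l a).comp (C c * X + C b)) ᵥ* pm t' A) := by
  have h1 : (dl t).comp (C c * X + C b) = C c ^ n * dl t' := by
    unfold dl
    rw [topa_comp ht, Finset.card_univ, Fintype.card_fin]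
  have h2 : ∀ x y, C c * (pm t A x y).comp (C c * X + C b) = C c ^ n * pm t' A x y := by
    intro x y
    unfold pm
    rw [Matrix.sum_apply, Matrix.sum_apply, Polynomial.sum_comp, Finset.mul_sum, Finset.mul_sum]
    refine Finset.sum_congr rfl fun i _ => ?_
    have h3 : (Finset.univ.erase i).card + 1 = n := by
      rw [Finset.card_erase_add_one (Finset.mem_univ i), Finset.card_univ, Fintype.card_fin]
    have h4 : (C c : ℂ[X]) ^ n = C c ^ (Finset.univ.erase i).card * C c := by
      rw [← pow_succ, h3]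
    simp only [Matrix.smul_apply, Matrix.map_apply, smul_eq_mul]
    rw [mul_comp, C_comp, topa_comp ht, h4]
    ring
  funext a
  have h5 : derivative (C c * X + C b : ℂ[X]) = C c := by simp
  simp only [Pi.smul_apply, Pi.add_apply, smul_eq_mul, Matrix.vecMul, dotProduct]
  rw [add_comp, mul_comp, Polynomial.sum_comp, h1, derivative_comp, h5, mul_add, mul_add,
    Finset.mul_sum, Finset.mul_sum]
  congr 1
  · ring
  · refine Finset.sum_congr rfl fun x _ => ?_
    rw [mul_comp]
    linear_combination (l x).comp (C c * X + C b) * h2 x a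

/-- `pm t (A - lam) = pm t A - u • 1` for a polynomial `u`, and `W` is a submodule. -/
theorem Irred.twist {t : Fin n → ℂ} {A : Fin n → Matrix (Fin r) (Fin r) ℂ} (h : Irred t A)
    (lam : Fin n → ℂ) : Irred t fun i => A i - lam i • (1 : Matrix (Fin r) (Fin r) ℂ) := by
  intro W hW
  refine h W fun l hl => ?_
  rw [topa_pm_twist t A lam, ← add_assoc]
  exact W.add_mem (hW l hl) (W.smul_mem _ hl)

/-- Given `W'` stable for `t'`, let `W = {l | (fun a => (l a).comp (C c * X + C b)) ∈ W'}`; the
substitution is a ring automorphism of `ℂ[X]` (`Polynomial.algEquivCMulXAddC`); see the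
computation in `isSol_aff`. -/
theorem Irred.aff {t t' : Fin n → ℂ} {c b : ℂ} (hc : c ≠ 0) (ht : ∀ i, t i = c * t' i + b)
    {A : Fin n → Matrix (Fin r) (Fin r) ℂ} (h : Irred t A) : Irred t' A := by
  intro W' hW'
  have : Invertible c := invertibleOfNonzero hc
  have hφ : ∀ q : ℂ[X], algEquivCMulXAddC c b q = q.comp (C c * X + C b) := fun q => by
    rw [algEquivCMulXAddC_apply, comp_eq_aeval]
  have hs : ∀ v : Fin r → ℂ[X], ∃ u : Fin r → ℂ[X],
      (fun a => (u a).comp (C c * X + C b)) = v := fun v =>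
    ⟨fun a => (algEquivCMulXAddC c b).symm (v a), funext fun a => by
      rw [← hφ, AlgEquiv.apply_symm_apply]⟩
  have hsm : ∀ (q : ℂ[X]) (u : Fin r → ℂ[X]), (fun a => ((q • u) a).comp (C c * X + C b)) =
      q.comp (C c * X + C b) • fun a => (u a).comp (C c * X + C b) := fun q u => by
    funext a
    simp only [Pi.smul_apply, smul_eq_mul, mul_comp]
  let W : Submodule ℂ[X] (Fin r → ℂ[X]) :=
    { carrier := {l | (fun a => (l a).comp (C c * X + C b)) ∈ W'}
      add_mem' := fun {u v} hu hv => by
        have h1 : (fun a => ((u + v) a).comp (C c * X + C b)) =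
            (fun a => (u a).comp (C c * X + C b)) + fun a => (v a).comp (C c * X + C b) := by
          funext a
          simp only [Pi.add_apply, add_comp]
        show (fun a => ((u + v) a).comp (C c * X + C b)) ∈ W'
        rw [h1]
        exact W'.add_mem hu hv
      zero_mem' := by
        have h1 : (fun a => ((0 : Fin r → ℂ[X]) a).comp (C c * X + C b)) = 0 := by
          funext a
          simp only [Pi.zero_apply, zero_comp]
        show (fun a => ((0 : Fin r → ℂ[X]) a).comp (C c * X + C b)) ∈ W'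
        rw [h1]
        exact W'.zero_mem
      smul_mem' := fun q u hu => by
        show (fun a => ((q • u) a).comp (C c * X + C b)) ∈ W'
        rw [hsm]
        exact W'.smul_mem _ hu }
  have hmem : ∀ l, l ∈ W ↔ (fun a => (l a).comp (C c * X + C b)) ∈ W' := fun l => Iff.rfl
  have hst : ∀ l ∈ W, (dl t • fun a => derivative (l a)) + l ᵥ* pm t A ∈ W := by
    intro l hl
    rw [hmem] at hl ⊢
    have h1 := W'.smul_mem (C c⁻¹) (W'.smul_mem (C c ^ n) (hW' _ hl))
    rw [← topa_op ht, smul_smul, ← map_mul, inv_mul_cancel₀ hc, map_one, one_smul] at h1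
    exact h1
  rcases h W hst with h0 | h0
  · left
    rw [Submodule.eq_bot_iff] at h0 ⊢
    intro v hv
    obtain ⟨u, rfl⟩ := hs v
    rw [h0 u ((hmem u).2 hv)]
    funext a
    simp only [Pi.zero_apply, zero_comp]
  · right
    intro v
    obtain ⟨u, rfl⟩ := hs v
    obtain ⟨q, hq, hu⟩ := h0 u
    refine ⟨q.comp (C c * X + C b), ?_, ?_⟩
    · rw [← hφ]
      exact (map_ne_zero_iff _ (algEquivCMulXAddC c b).injective).2 hq
    · rw [← hsm]
      exact (hmem _).1 hu

/-- Add `c`, `c⁻¹`, `b` to `S` and use `hasFund_aff`. -/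
theorem PC.aff {t t' : Fin n → ℂ} {c b : ℂ} (hc : c ≠ 0) (ht : ∀ i, t i = c * t' i + b)
    {A : Fin n → Matrix (Fin r) (Fin r) ℂ} (h : PC t A) : PC t' A := by
  classical
  obtain ⟨S, P0, h⟩ := h
  refine ⟨insert c (insert c⁻¹ (insert b S)), P0, ?_⟩
  intro R _ ι hι hS u A' hu hA p hp hP k _ _ φ
  obtain ⟨c0, hc0⟩ := hS c (by simp)
  obtain ⟨c1, hc1⟩ := hS c⁻¹ (by simp)
  obtain ⟨b0, hb0⟩ := hS b (by simp)
  have h1 : c0 * c1 = 1 := hι (by rw [map_mul, hc0, hc1, map_one, mul_inv_cancel₀ hc])
  have h2 : φ c0 ≠ 0 := left_ne_zero_of_mul_eq_one (by rw [← map_mul, h1, map_one])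
  have h3 := h R ι hι (fun s hs => hS s (by simp [hs])) (fun i => c0 * u i + b0) A'
    (fun i => by rw [map_add, map_mul, hc0, hb0, hu, ht]) hA p hp hP k φ
  exact hasFund_aff (b := φ b0) h2 (fun i => by rw [map_add, map_mul]) h3

/-- Add the `lam i` to `S`, take `p > D`, choose `m i : ℕ` with `D * m i ≡ -b i` mod `p` and use
`hasFund_twist`. -/
theorem PC.twist {t : Fin n → ℂ} {A : Fin n → Matrix (Fin r) (Fin r) ℂ} (h : PC t A)
    {lam : Fin n → ℂ} {D : ℕ} (hD : 0 < D) {b : Fin n → ℤ} (hb : ∀ i, (D : ℂ) * lam i = b i) :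
    PC t fun i => A i - lam i • (1 : Matrix (Fin r) (Fin r) ℂ) := by
  classical
  obtain ⟨S, P0, h⟩ := h
  refine ⟨S ∪ Finset.univ.image lam, max P0 D, ?_⟩
  intro R _ ι hι hS u A' hu hA p hp hP k _ _ φ
  have h1 : ∀ i, ∃ l : R, ι l = lam i := fun i => hS (lam i) (by simp)
  choose l hl using h1
  have h2 : ∀ i, (A' i + l i • (1 : Matrix (Fin r) (Fin r) R)).map ι = A i := by
    intro i
    ext x y
    have h3 : ι (A' i x y) = A i x y - lam i * (1 : Matrix (Fin r) (Fin r) ℂ) x y :=
      congrFun (congrFun (hA i) x) y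
    simp only [Matrix.map_apply, Matrix.add_apply, Matrix.smul_apply, smul_eq_mul, map_add,
      map_mul, h3, hl, Matrix.one_apply]
    split_ifs <;> simp
  have h3 := h R ι hι (fun s hs => hS s (by simp [hs])) u _ hu h2 p hp
    (lt_of_le_of_lt (le_max_left _ _) hP) k φ
  have hDk : (D : k) ≠ 0 := by
    rw [Ne, CharP.cast_eq_zero_iff k p]
    exact Nat.not_dvd_of_pos_of_lt hD (lt_of_le_of_lt (le_max_right _ _) hP)
  have : Fact p.Prime := ⟨hp⟩
  have h4 : ∀ i, ∃ m : ℕ, (m : k) = -φ (l i) := by
    intro i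
    have h5 : (D : R) * l i = b i := hι (by rw [map_mul, map_natCast, map_intCast, hl, hb])
    have h6 : (D : k) * φ (l i) = b i := by
      rw [← map_natCast φ, ← map_mul, h5, map_intCast]
    refine ⟨(-(b i : ZMod p) * (D : ZMod p)⁻¹).val, ?_⟩
    rw [← map_natCast (ZMod.castHom (dvd_refl p) k), ZMod.natCast_zmod_val, map_mul, map_neg,
      map_inv₀, map_intCast, map_natCast, ← h6]
    field_simp
  choose m hm using h4
  have h5 := hasFund_twist m h3
  have h6 : (fun i => (A' i + l i • (1 : Matrix (Fin r) (Fin r) R)).map φ +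
      (m i : k) • (1 : Matrix (Fin r) (Fin r) k)) = fun i => (A' i).map φ := by
    funext i
    ext x y
    simp only [Matrix.map_apply, Matrix.add_apply, Matrix.smul_apply, smul_eq_mul, map_add,
      map_mul, hm, Matrix.one_apply]
    split_ifs <;> simp
  rw [h6] at h5
  exact h5

/-- Let `s i = a * t i + b` and `η = 1 + q * I` with `q : ℚ` outside the finite set of values for
which `(η * (s i - s j)).re = 0` (`s` is injective). The `η * s i` are algebraically independent:
`AlgebraicIndependent.extendScalars` to the algebraic closure of `ℚ` in `ℂ`, scale the variables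
by the unit `η` (an injective algebra map of `MvPolynomial`), and `restrictScalars`. -/
theorem exists_rotation {t : Fin n → ℂ} {a b : ℂ} (ha : a ≠ 0)
    (h : AlgebraicIndependent ℚ fun i => a * t i + b) :
    ∃ (t' : Fin n → ℂ) (c d : ℂ), c ≠ 0 ∧ (∀ i, t i = c * t' i + d) ∧ AlgebraicIndependent ℚ t' ∧
      Function.Injective fun i => (t' i).re := by
  classical
  set s : Fin n → ℂ := fun i => a * t i + b with hs
  have hinj : Function.Injective s := h.injective
  obtain ⟨x, ⟨q, rfl⟩, hq⟩ := (Set.infinite_range_of_injective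
    (Rat.cast_injective (α := ℝ))).exists_notMem_finset
    (Finset.univ.image fun z : Fin n × Fin n => (s z.1 - s z.2).re / (s z.1 - s z.2).im)
  set η : ℂ := 1 + (q : ℂ) * Complex.I with hη
  have hre : ∀ z : ℂ, (η * z).re = z.re - q * z.im := fun z => by
    simp [hη]
  have hη0 : η ≠ 0 := by
    intro h0
    have h1 := hre 1
    rw [h0] at h1
    simp at h1
  have hmem : η ∈ algebraicClosure ℚ ℂ := by
    have hI : Complex.I ∈ algebraicClosure ℚ ℂ := by
      rw [mem_algebraicClosure_iff]
      refine ⟨X ^ 2 + 1, ?_, by simp⟩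
      exact (Polynomial.monic_X_pow_add_C (a := (1 : ℚ)) (n := 2) two_ne_zero).ne_zero
    exact add_mem (one_mem _) (mul_mem (SubfieldClass.ratCast_mem _ q) hI)
  refine ⟨fun i => η * s i, a⁻¹ * η⁻¹, -(a⁻¹ * b), mul_ne_zero (inv_ne_zero ha) (inv_ne_zero hη0),
    fun i => ?_, ?_, ?_⟩
  · simp only [hs]
    field_simp
    ring
  · set e : algebraicClosure ℚ ℂ := ⟨η, hmem⟩ with he
    have he0 : e ≠ 0 := fun h0 => hη0 (congrArg Subtype.val h0)
    have h1 : AlgebraicIndependent (algebraicClosure ℚ ℂ) fun i : Fin n =>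
        (MvPolynomial.C e * MvPolynomial.X i : MvPolynomial (Fin n) (algebraicClosure ℚ ℂ)) := by
      refine AlgebraicIndependent.of_aeval (x := fun i : Fin n =>
        (MvPolynomial.C e⁻¹ * MvPolynomial.X i : MvPolynomial (Fin n) (algebraicClosure ℚ ℂ))) ?_
      have h2 : (fun i : Fin n => MvPolynomial.aeval (fun i : Fin n =>
          (MvPolynomial.C e⁻¹ * MvPolynomial.X i : MvPolynomial (Fin n) (algebraicClosure ℚ ℂ)))
          (MvPolynomial.C e * MvPolynomial.X i : MvPolynomial (Fin n) (algebraicClosure ℚ ℂ))) =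
          MvPolynomial.X := by
        funext i
        rw [map_mul, MvPolynomial.aeval_C, MvPolynomial.aeval_X, MvPolynomial.algebraMap_eq,
          ← mul_assoc, ← map_mul, mul_inv_cancel₀ he0, map_one, one_mul]
      rw [h2]
      exact MvPolynomial.algebraicIndependent_X _ _
    have h3 := h.algebraicClosure.aeval_of_algebraicIndependent h1
    have h4 : (fun i : Fin n => MvPolynomial.aeval s
        (MvPolynomial.C e * MvPolynomial.X i : MvPolynomial (Fin n) (algebraicClosure ℚ ℂ))) =
        fun i => η * s i := by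
      funext i
      rw [map_mul, MvPolynomial.aeval_C, MvPolynomial.aeval_X]
      rfl
    rw [h4] at h3
    exact h3.restrictScalars (algebraMap ℚ (algebraicClosure ℚ ℂ)).injective
  · intro i j hij
    have h1 : (s i - s j).re = q * (s i - s j).im := by
      have h2 := hre (s i - s j)
      have h3 : (η * s i).re = (η * s j).re := hij
      rw [mul_sub, Complex.sub_re, h3, sub_self] at h2
      linarith
    by_cases h0 : (s i - s j).im = 0
    · rw [h0, mul_zero] at h1
      exact hinj (sub_eq_zero.1 (Complex.ext h1 h0))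
    · exfalso
      refine hq (Finset.mem_image.2 ⟨(i, j), Finset.mem_univ _, ?_⟩)
      rw [div_eq_iff h0]
      exact h1

end Pool.Agent.GR
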