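import Pool.Agent.Lib.MP_aa40d3_nt.GR.Stmt

/-! Transfer of the conclusion under twists and affine changes of variable. -/

open Polynomial Matrix

namespace Pool.Agent.GR

variable {n r : ℕ}

/-- `Y x = Y' (c⁻¹ * (x - b))` on the ball of centre `c * x₀ + b` and radius `‖c‖ * ε`; substitute
in the coefficients of `P` (an injective ring map of `ℂ[X]`). -/
theorem AlgSol.aff {t t' : Fin n → ℂ} {c b : ℂ} (hc : c ≠ 0) (ht : ∀ i, t i = c * t' i + b)
    {A : Fin n → Matrix (Fin r) (Fin r) ℂ} (h : AlgSol t' A) : AlgSol t A := by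
  obtain ⟨x₀, ε, Y, hε, h1, h2⟩ := h
  have hb : ∀ x ∈ Metric.ball (c * x₀ + b) (‖c‖ * ε), c⁻¹ * (x - b) ∈ Metric.ball x₀ ε := by
    intro x hx
    rw [Metric.mem_ball, dist_eq_norm] at hx ⊢
    rw [show c⁻¹ * (x - b) - x₀ = c⁻¹ * (x - (c * x₀ + b)) by field_simp; ring, norm_mul, norm_inv,
      inv_mul_lt_iff₀ (norm_pos_iff.2 hc)]
    exact hx
  have he : ∀ x i, x - t i = c * (c⁻¹ * (x - b) - t' i) := fun x i => by
    rw [ht]
    field_simp
    ring
  refine ⟨c * x₀ + b, ‖c‖ * ε, fun x => Y (c⁻¹ * (x - b)), mul_pos (norm_pos_iff.2 hc) hε,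
    fun x hx => ?_, fun a b' => ?_⟩
  · obtain ⟨h3, h4, h5⟩ := h1 _ (hb x hx)
    refine ⟨fun i => sub_ne_zero.1 ?_, h4, fun a b' => ?_⟩
    · rw [he]
      exact mul_ne_zero hc (sub_ne_zero.2 (h3 i))
    · have h6 : HasDerivAt (fun x : ℂ => c⁻¹ * (x - b)) c⁻¹ x := by
        simpa using ((hasDerivAt_id x).sub_const b).const_mul c⁻¹
      have h7 : ∑ i, (x - t i)⁻¹ • A i = c⁻¹ • ∑ i, (c⁻¹ * (x - b) - t' i)⁻¹ • A i := by
        rw [Finset.smul_sum]
        exact Finset.sum_congr rfl fun i _ => by rw [he, mul_inv, mul_smul]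
      rw [h7, smul_mul_assoc, Matrix.smul_apply, smul_eq_mul, mul_comm]
      exact (h5 a b').comp x h6
  · obtain ⟨P, hP, h3⟩ := h2 a b'
    have hq : Function.Injective (compRingHom (C c⁻¹ * (X - C b)) : ℂ[X] →+* ℂ[X]) := by
      refine Function.LeftInverse.injective (g := fun p : ℂ[X] => p.comp (C c * X + C b))
        fun p => ?_
      show (p.comp (C c⁻¹ * (X - C b))).comp (C c * X + C b) = p
      rw [comp_assoc, mul_comp, sub_comp, C_comp, C_comp, X_comp, add_sub_cancel_right,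
        ← mul_assoc, ← C_mul, inv_mul_cancel₀ hc, C_1, one_mul, comp_X]
    refine ⟨P.map (compRingHom (C c⁻¹ * (X - C b))), (Polynomial.map_ne_zero_iff hq).2 hP,
      fun x hx => ?_⟩
    have h4 := eval_map_apply (p := P) (compRingHom (C c⁻¹ * (X - C b)))
      (C (Y (c⁻¹ * (x - b)) a b'))
    rw [coe_compRingHom_apply, C_comp, coe_compRingHom_apply] at h4
    have h5 := h3 _ (hb x hx)
    unfold evalEval at h5 ⊢
    rw [h4, eval_comp, ← h5]
    simp

/-- On a smaller ball `(x - t i) / (x₀ - t i)` lies in the slit plane; let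
`f x = exp (∑ lam i * log ((x - t i) / (x₀ - t i)))` and `Y x = f x • Y' x`. Then `f ^ D` is a
quotient of nonzero polynomials. Make the functions on the ball an algebra over `ℂ[X]`
(`RingHom.toAlgebra` of `Pi.ringHom fun x => evalRingHom x`); `f` and the entries of `Y'` are
`IsAlgebraic ℂ[X]`, hence so are the products (`IsAlgebraic.mul`). -/
theorem AlgSol.twist {t : Fin n → ℂ} {A : Fin n → Matrix (Fin r) (Fin r) ℂ} {lam : Fin n → ℂ}
    {D : ℕ} (hD : 0 < D) {b : Fin n → ℤ} (hb : ∀ i, (D : ℂ) * lam i = b i)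
    (h : AlgSol t fun i => A i - lam i • (1 : Matrix (Fin r) (Fin r) ℂ)) : AlgSol t A := by
  obtain ⟨x₀, ε, Y, hε, h1, h2⟩ := h
  have h0 : ∀ i, x₀ - t i ≠ 0 := fun i => sub_ne_zero.2 ((h1 x₀ (Metric.mem_ball_self hε)).1 i)
  have hs : ∀ x ∈ Metric.ball x₀ ε, ∀ i, (x₀ - t i)⁻¹ * (x - t i) ∈ Complex.slitPlane := by
    intro x hx i
    have h3 : ε ≤ ‖x₀ - t i‖ := by
      by_contra h3
      refine (h1 (t i) ?_).1 i rfl
      rw [Metric.mem_ball, dist_comm, dist_eq_norm]
      exact not_le.1 h3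
    have h4 := h0 i
    rw [show (x₀ - t i)⁻¹ * (x - t i) = 1 + (x₀ - t i)⁻¹ * (x - x₀) by field_simp; ring]
    refine Complex.mem_slitPlane_of_norm_lt_one ?_
    rw [norm_mul, norm_inv, inv_mul_lt_iff₀ (norm_pos_iff.2 h4), mul_one]
    exact (mem_ball_iff_norm.1 hx).trans_le h3
  let f : ℂ → ℂ := fun x => Complex.exp (∑ i, lam i * Complex.log ((x₀ - t i)⁻¹ * (x - t i)))
  refine ⟨x₀, ε, fun x => f x • Y x, hε, fun x hx => ?_, fun a b' => ?_⟩
  · obtain ⟨h3, h4, h5⟩ := h1 x hx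
    refine ⟨h3, ?_, fun a b' => ?_⟩
    · rw [det_smul]
      exact mul_ne_zero (pow_ne_zero _ (Complex.exp_ne_zero _)) h4
    · have h6 : HasDerivAt f (f x * ∑ i, (x - t i)⁻¹ * lam i) x := by
        refine (HasDerivAt.fun_sum fun i _ => ?_).cexp
        have h7 := ((((hasDerivAt_id x).sub_const (t i)).const_mul (x₀ - t i)⁻¹).clog
          (hs x hx i)).const_mul (lam i)
        have h8 := h0 i
        have h9 := sub_ne_zero.2 (h3 i)
        refine h7.congr_deriv ?_
        simp only [id]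
        field_simp
      have h7 : ∑ i, (x - t i)⁻¹ • A i = (∑ i, (x - t i)⁻¹ * lam i) • (1 : Matrix _ _ ℂ) +
          ∑ i, (x - t i)⁻¹ • (A i - lam i • 1) := by
        rw [Finset.sum_smul, ← Finset.sum_add_distrib]
        refine Finset.sum_congr rfl fun i _ => ?_
        rw [mul_smul, ← smul_add, add_sub_cancel]
      refine (h6.mul (h5 a b')).congr_deriv ?_
      rw [h7, mul_smul_comm, add_mul, smul_mul_assoc, Matrix.one_mul, Matrix.smul_apply,
        Matrix.add_apply, Matrix.smul_apply, smul_eq_mul, smul_eq_mul]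
      ring
  · letI : Algebra ℂ[X] (Metric.ball x₀ ε → ℂ) :=
      (Pi.ringHom fun x : Metric.ball x₀ ε => evalRingHom x.1).toAlgebra
    have hev : ∀ (P : ℂ[X][X]) (g : Metric.ball x₀ ε → ℂ) (x : Metric.ball x₀ ε),
        aeval g P x = P.evalEval x.1 (g x) := fun P g x => by
      rw [← eval₂_evalRingHom]
      exact hom_eval₂ P (algebraMap ℂ[X] (Metric.ball x₀ ε → ℂ))
        (Pi.evalRingHom (fun _ => ℂ) x) g
    have hY : IsAlgebraic ℂ[X] fun x : Metric.ball x₀ ε => Y x.1 a b' := by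
      obtain ⟨P, hP, h3⟩ := h2 a b'
      exact ⟨P, hP, funext fun x => (hev P _ x).trans (h3 x.1 x.2)⟩
    have hu : ∀ (i : Fin n) (z : ℤ),
        IsAlgebraic ℂ[X] fun x : Metric.ball x₀ ε => ((x₀ - t i)⁻¹ * (x.1 - t i)) ^ z := by
      intro i z
      obtain ⟨m, rfl | rfl⟩ := z.eq_nat_or_neg
      · refine ⟨X - C ((C (x₀ - t i)⁻¹ * (X - C (t i))) ^ m), X_sub_C_ne_zero _,
          funext fun x => (hev _ _ x).trans ?_⟩
        simp [evalEval]
      · refine ⟨C ((C (x₀ - t i)⁻¹ * (X - C (t i))) ^ m) * X - 1, fun h3 => ?_,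
          funext fun x => (hev _ _ x).trans ?_⟩
        · have h4 := congrArg (fun P : ℂ[X][X] => P.coeff 0) h3
          simp at h4
        · have h4 := pow_ne_zero m (Complex.slitPlane_ne_zero (hs x.1 x.2 i))
          simp only [evalEval, eval_sub, eval_mul, eval_C, eval_X, eval_one, eval_pow,
            _root_.zpow_neg, _root_.zpow_natCast, mul_inv_cancel₀ h4, sub_self, Pi.zero_apply]
    have hf : IsAlgebraic ℂ[X] fun x : Metric.ball x₀ ε => f x.1 := by
      refine IsAlgebraic.of_pow hD ?_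
      have h3 : (fun x : Metric.ball x₀ ε => f x.1) ^ D =
          ∏ i, fun x : Metric.ball x₀ ε => ((x₀ - t i)⁻¹ * (x.1 - t i)) ^ b i := by
        funext x
        rw [Pi.pow_apply, Finset.prod_apply, ← Complex.exp_nat_mul, Finset.mul_sum,
          Complex.exp_sum]
        refine Finset.prod_congr rfl fun i _ => ?_
        rw [← mul_assoc, hb, Complex.exp_int_mul,
          Complex.exp_log (Complex.slitPlane_ne_zero (hs x.1 x.2 i))]
      rw [h3]
      exact Finset.prod_induction _ _ (fun _ _ => IsAlgebraic.mul) isAlgebraic_one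
        fun i _ => hu i _
    obtain ⟨P, hP, h3⟩ := hf.mul hY
    exact ⟨P, hP, fun x hx => (hev P _ ⟨x, hx⟩).symm.trans (congrFun h3 _)⟩

end Pool.Agent.GR
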