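import Pool.Agent.Lib.MP_aa40d3_nt.GR.Aff
import Pool.Agent.Lib.MP_aa40d3_nt.GR.Glob
import Pool.Agent.Lib.MP_aa40d3_nt.GR.Spread

/-! The local exponents are rational. -/

open Polynomial Matrix

namespace Pool.Agent.GR

variable {n r : ℕ}

theorem topc_key {k : Type*} [Field k] (p : ℕ) [Fact p.Prime] [CharP k p] (hr : 2 ≤ r)
    {t : Fin n → k} (ht : Function.Injective t) {B : Fin n → Matrix (Fin r) (Fin r) k}
    {l : Fin n → k} (hB : ∀ i, Rk1 (B i))
    (hf : HasFund t fun i => B i + l i • (1 : Matrix (Fin r) (Fin r) k)) (i : Fin n) :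
    l i ^ p = l i ∧ (B i).trace ^ p = (B i).trace := by
  have : NeZero r := ⟨by omega⟩
  obtain ⟨_, e, _, -, -, -, hc, -⟩ := glob p ht hf
  have h1 := hc i
  rw [(hB i).charpoly] at h1
  have h2 : ∀ x : k, ((X - C (l i)) ^ (r - 1) * (X - C (l i + (B i).trace))).eval x = 0 →
      x ^ p = x := by
    intro x hx
    rw [h1, eval_prod, Finset.prod_eq_zero_iff] at hx
    obtain ⟨b, -, hb⟩ := hx
    rw [eval_sub, eval_X, eval_C, sub_eq_zero] at hb
    rw [hb]
    exact map_natCast (frobenius k p) _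
  have h3 := h2 (l i) (by
    rw [eval_mul, eval_pow, eval_sub, eval_X, eval_C, sub_self, zero_pow (by omega), zero_mul])
  have h4 := h2 (l i + (B i).trace) (by
    rw [eval_mul, eval_sub X, eval_X, eval_C, sub_self, mul_zero])
  rw [add_pow_char, h3] at h4
  exact ⟨h3, add_left_cancel h4⟩

theorem topc_ring (S : Finset ℂ) (t lam : Fin n → ℂ) (A : Fin n → Matrix (Fin r) (Fin r) ℂ) :
    ∃ R : Subring ℂ, Algebra.FiniteType ℤ R ∧ (∀ s ∈ S, s ∈ R) ∧ (∀ i, t i ∈ R) ∧
      (∀ i, lam i ∈ R) ∧ (∀ i a b, A i a b ∈ R) ∧ ∀ i j, (t i - t j)⁻¹ ∈ R := by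
  classical
  refine ⟨_, finiteType_closure (S ∪ Finset.univ.image t ∪ Finset.univ.image lam ∪
    Finset.univ.image (fun q : Fin n × Fin r × Fin r => A q.1 q.2.1 q.2.2) ∪
    Finset.univ.image (fun q : Fin n × Fin n => (t q.1 - t q.2)⁻¹)), fun s hs => ?_, fun i => ?_,
    fun i => ?_, fun i a b => ?_, fun i j => ?_⟩ <;> refine Subring.subset_closure ?_ <;>
    simp only [Finset.mem_coe, Finset.mem_union, Finset.mem_image, Finset.mem_univ, true_and]
  · exact .inl (.inl (.inl (.inl hs)))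
  · exact .inl (.inl (.inl (.inr ⟨i, rfl⟩)))
  · exact .inl (.inl (.inr ⟨i, rfl⟩))
  · exact .inl (.inr ⟨(i, a, b), rfl⟩)
  · exact .inr ⟨(i, j), rfl⟩

theorem topc_den {ι : Type*} [Fintype ι] (x : ι → ℂ)
    (h : ∀ i, ∃ a d : ℤ, d ≠ 0 ∧ (d : ℂ) * x i = a) :
    ∃ (D : ℕ) (a : ι → ℤ), 0 < D ∧ ∀ i, (D : ℂ) * x i = a i := by
  choose a d hd hx using h
  have h1 : ∀ i, ∃ c : ℤ, ((∏ j, d j).natAbs : ℤ) = d i * c := fun i =>
    Int.dvd_natAbs.2 (Finset.dvd_prod_of_mem d (Finset.mem_univ i))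
  choose c hc using h1
  refine ⟨(∏ j, d j).natAbs, fun i => c i * a i,
    Int.natAbs_pos.2 (Finset.prod_ne_zero_iff.2 fun j _ => hd j), fun i => ?_⟩
  rw [← Int.cast_natCast, hc i, Int.cast_mul, Int.cast_mul, ← hx i]
  ring

/-- Let `R` be the closure of `S` (from `h`), the `t i`, the entries of the `A i`, the `lam i` and
the `(t i - t j)⁻¹` (`finiteType_closure`). For `φ : R →+* k` the points stay distinct, and `glob`
and `Rk1.charpoly` give `∏ (X - C (e b)) = (X - C l) ^ (r - 1) * (X - C (l + tr))`; so `l = φ lam`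
and `l + tr` are casts of natural numbers and are fixed by Frobenius. Apply `rat_of_frob` to
`lam i` and to the trace and take a common denominator. -/
theorem exps_rat (hr : 2 ≤ r) {t : Fin n → ℂ} (ht : Function.Injective t)
    {A : Fin n → Matrix (Fin r) (Fin r) ℂ} {lam : Fin n → ℂ}
    (hrk : ∀ i, Rk1 (A i - lam i • (1 : Matrix (Fin r) (Fin r) ℂ))) (h : PC t A) :
    ∃ (D : ℕ) (a b : Fin n → ℤ), 0 < D ∧ (∀ i, (D : ℂ) * lam i = b i) ∧
      ∀ i, (D : ℂ) * (A i - lam i • (1 : Matrix (Fin r) (Fin r) ℂ)).trace = a i := by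
  obtain ⟨S, P0, h⟩ := h
  obtain ⟨R, hR, hS, htR, hlR, hAR, hiR⟩ := topc_ring S t lam A
  let t' : Fin n → R := fun i => ⟨t i, htR i⟩
  let l' : Fin n → R := fun i => ⟨lam i, hlR i⟩
  let A' : Fin n → Matrix (Fin r) (Fin r) R := fun i => Matrix.of fun a b => ⟨A i a b, hAR i a b⟩
  let B' : Fin n → Matrix (Fin r) (Fin r) R := fun i => A' i - l' i • 1
  have hB : ∀ i a b, (B' i a b : ℂ) = (A i - lam i • (1 : Matrix (Fin r) (Fin r) ℂ)) a b := by
    intro i a b
    by_cases hab : a = b <;> simp [B', A', l', hab]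
  have hB1 : ∀ i, Rk1 (B' i) := fun i a b c d => Subtype.ext (by
    rw [Subring.coe_mul, Subring.coe_mul, hB, hB, hB, hB]
    exact hrk i a b c d)
  have key : ∀ p : ℕ, p.Prime → P0 < p → ∀ (k : Type) [Field k] [CharP k p] (φ : R →+* k) (i),
      φ (l' i) ^ p = φ (l' i) ∧ φ (B' i).trace ^ p = φ (B' i).trace := by
    intro p hp hP k _ _ φ i
    have : Fact p.Prime := ⟨hp⟩
    have hf := h R R.subtype Subtype.val_injective (fun s hs => ⟨⟨s, hS s hs⟩, rfl⟩) t' A'
      (fun _ => rfl) (fun _ => rfl) p hp hP k φ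
    have hinj : Function.Injective fun i => φ (t' i) := by
      intro a b hab
      by_contra hne
      have h1 : (t' a - t' b) * ⟨_, hiR a b⟩ = 1 :=
        Subtype.ext (mul_inv_cancel₀ (sub_ne_zero.2 fun h0 => hne (ht h0)))
      have h2 := congrArg φ h1
      rw [map_mul, map_sub, sub_eq_zero.2 hab, zero_mul, map_one] at h2
      exact zero_ne_one h2
    have e : (fun i => (A' i).map φ) =
        fun i => (B' i).map φ + φ (l' i) • (1 : Matrix (Fin r) (Fin r) k) := by
      funext i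
      ext a b
      by_cases hab : a = b <;> simp [B', hab]
    rw [e] at hf
    have h3 := topc_key p hr hinj (fun i => (hB1 i).map φ) hf i
    have e2 : ((B' i).map φ).trace = φ (B' i).trace := by
      simp only [Matrix.trace, Matrix.diag, Matrix.map_apply, map_sum]
    rwa [e2] at h3
  obtain ⟨D, c, hD, hc⟩ := topc_den (ι := Fin n ⊕ Fin n)
    (Sum.elim lam fun i => (A i - lam i • (1 : Matrix (Fin r) (Fin r) ℂ)).trace) (by
      rintro (i | i)
      · obtain ⟨a, d, hd, had⟩ := rat_of_frob (l' i)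
          ⟨P0, fun p hp hP k _ _ φ => (key p hp hP k φ i).1⟩
        refine ⟨a, d, hd, ?_⟩
        have h1 := congrArg R.subtype had
        rwa [map_mul, map_intCast, map_intCast] at h1
      · obtain ⟨a, d, hd, had⟩ := rat_of_frob (B' i).trace
          ⟨P0, fun p hp hP k _ _ φ => (key p hp hP k φ i).2⟩
        refine ⟨a, d, hd, ?_⟩
        have h1 := congrArg R.subtype had
        rw [map_mul, map_intCast, map_intCast] at h1
        rw [← h1]
        simp only [Sum.elim_inr, Matrix.trace, Matrix.diag, map_sum, Subring.subtype_apply, hB])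
  exact ⟨D, fun i => c (.inr i), fun i => c (.inl i), hD, fun i => hc (.inl i),
    fun i => hc (.inr i)⟩

end Pool.Agent.GR
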