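import Pool.Agent.Lib.MP_aa40d3_nt.GR.TrEx

/-! Properties of the transport. -/

open Set

namespace Pool.Agent.GR

variable {𝔸 : Type} [NormedRing 𝔸] [NormedAlgebra ℂ 𝔸] [CompleteSpace 𝔸]

/-- The transport. -/
noncomputable def Tr : C(unitInterval, 𝔸) → 𝔸 := Classical.choose (exists_Tr 𝔸)

theorem differentiable_Tr : Differentiable ℂ (Tr : C(unitInterval, 𝔸) → 𝔸) :=
  (Classical.choose_spec (exists_Tr 𝔸)).1

theorem Tr_spec (a : C(unitInterval, 𝔸)) : ∃ Y : ℝ → 𝔸, Y 0 = 1 ∧ Y 1 = Tr a ∧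
    ∀ s ∈ Icc (0 : ℝ) 1, HasDerivAt Y (ext a s * Y s) s :=
  (Classical.choose_spec (exists_Tr 𝔸)).2 a

omit [CompleteSpace 𝔸] in
private theorem tr_uniq (b : C(unitInterval, 𝔸)) {f g : ℝ → 𝔸}
    (hf : ∀ s ∈ Icc (0 : ℝ) 1, HasDerivAt f (ext b s * f s) s)
    (hg : ∀ s ∈ Icc (0 : ℝ) 1, HasDerivAt g (ext b s * g s) s) (h : f 0 = g 0) : f 1 = g 1 := by
  have hv : ∀ t : ℝ, LipschitzWith ‖b‖₊ fun z : 𝔸 => ext b t * z := fun t =>
    LipschitzWith.of_dist_le_mul fun x y => by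
      rw [dist_eq_norm, dist_eq_norm, ← mul_sub]
      exact (norm_mul_le _ _).trans
        (mul_le_mul_of_nonneg_right (b.norm_coe_le_norm _) (norm_nonneg _))
  exact ODE_solution_unique hv (fun s hs => (hf s hs).continuousAt.continuousWithinAt)
    (fun s hs => (hf s (Ico_subset_Icc_self hs)).hasDerivWithinAt)
    (fun s hs => (hg s hs).continuousAt.continuousWithinAt)
    (fun s hs => (hg s (Ico_subset_Icc_self hs)).hasDerivWithinAt) h ⟨zero_le_one, le_rfl⟩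

private theorem tr_sol (b : C(unitInterval, 𝔸)) (x : 𝔸) : ∃ Z : ℝ → 𝔸, Z 0 = x ∧ Z 1 = Tr b * x ∧
    ∀ s ∈ Icc (0 : ℝ) 1, HasDerivAt Z (ext b s * Z s) s := by
  obtain ⟨Y, h0, h1, hY⟩ := Tr_spec b
  refine ⟨fun s => Y s * x, by simp [h0], by simp [h1], fun s hs => ?_⟩
  rw [← mul_assoc]
  exact (hY s hs).mul_const x

private theorem tr_bound [NormOneClass 𝔸] (a : C(unitInterval, 𝔸)) {B B' : ℝ → ℝ}
    (hB : ∀ s ∈ Icc (0 : ℝ) 1, HasDerivAt B (B' s) s) (h0 : 1 ≤ B 0)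
    (hb : ∀ s : unitInterval, ‖a s‖ * B s < B' s) : ‖Tr a‖ ≤ B 1 := by
  obtain ⟨Y, g0, g1, hY⟩ := Tr_spec a
  rw [← g1]
  refine image_norm_le_of_norm_deriv_right_lt_deriv_boundary'
    (fun s hs => (hY s hs).continuousAt.continuousWithinAt)
    (fun s hs => (hY s (Ico_subset_Icc_self hs)).hasDerivWithinAt) (by rw [g0, norm_one]; exact h0)
    (fun s hs => (hB s hs).continuousAt.continuousWithinAt)
    (fun s hs => (hB s (Ico_subset_Icc_self hs)).hasDerivWithinAt) (fun s hs e => ?_)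
    ⟨zero_le_one, le_rfl⟩
  refine (norm_mul_le _ _).trans_lt ?_
  rw [e, ext, projIcc_of_mem _ (Ico_subset_Icc_self hs)]
  exact hb ⟨s, Ico_subset_Icc_self hs⟩

/-- Gauge transformations: `u * Y_a` and `Y_b * u 0` solve `Z' = b Z` with the same initial value
(`ODE_solution_unique_of_mem_Icc_right` or `ODE_solution_unique`, Lipschitz constant `‖b‖`). -/
theorem Tr_gauge (a b : C(unitInterval, 𝔸)) (u u' : ℝ → 𝔸)
    (hu : ∀ s ∈ Icc (0 : ℝ) 1, HasDerivAt u (u' s) s)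
    (h : ∀ s ∈ Icc (0 : ℝ) 1, u' s + u s * ext a s = ext b s * u s) :
    u 1 * Tr a = Tr b * u 0 := by
  obtain ⟨Y, h0, h1, hY⟩ := Tr_spec a
  obtain ⟨Z, g0, g1, hZ⟩ := tr_sol b (u 0)
  rw [← h1, ← g1]
  refine tr_uniq b (f := fun s => u s * Y s) (fun s hs => ?_) hZ (by simp [h0, g0])
  rw [← mul_assoc, ← h s hs, add_mul, mul_assoc]
  exact (hu s hs).mul (hY s hs)

/-- Uniqueness. -/
theorem Tr_unique (b : C(unitInterval, 𝔸)) (u : ℝ → 𝔸)
    (hu : ∀ s ∈ Icc (0 : ℝ) 1, HasDerivAt u (ext b s * u s) s) : u 1 = Tr b * u 0 := by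
  obtain ⟨Z, g0, g1, hZ⟩ := tr_sol b (u 0)
  rw [← g1]
  exact tr_uniq b hu hZ g0.symm

/-- With the reversed coefficient `b s = -a (1 - s)`, `Tr_unique` applied to `Y (1 - s)` gives
`Tr b * Tr a = 1`, and reversing twice gives `a` back. -/
theorem isUnit_Tr (a : C(unitInterval, 𝔸)) : IsUnit (Tr a) := by
  let rev : C(unitInterval, 𝔸) → C(unitInterval, 𝔸) := fun b =>
    ⟨fun s => -b (unitInterval.symm s), by fun_prop⟩
  have key : ∀ b, Tr (rev b) * Tr b = 1 := fun b => by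
    obtain ⟨Y, h0, h1, hY⟩ := Tr_spec b
    have h2 := Tr_unique (rev b) (fun s => Y (1 - s)) fun s hs => by
      have hs' : 1 - s ∈ Icc (0 : ℝ) 1 := ⟨by linarith [hs.2], by linarith [hs.1]⟩
      have e : ext (rev b) s = -ext b (1 - s) := by
        rw [ext, ext, projIcc_of_mem _ hs, projIcc_of_mem _ hs']
        rfl
      rw [e, neg_mul]
      exact (hY _ hs').comp_const_sub
    simpa [h0, h1] using h2.symm
  have e : rev (rev a) = a := by
    ext s
    simp [rev]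
  exact ⟨⟨Tr a, Tr (rev a), by simpa [e] using key (rev a), key a⟩, rfl⟩

/-- Compare `‖Y s‖` with `B s = (c / (c - s)) ^ (m + 1)`
(`image_norm_le_of_norm_deriv_right_lt_deriv_boundary`). -/
theorem norm_Tr_le_of_pole [NormOneClass 𝔸] (a : C(unitInterval, 𝔸)) (m : ℕ) {c : ℝ} (hc : 1 < c)
    (h : ∀ s : unitInterval, ‖a s‖ ≤ m / (c - s)) : ‖Tr a‖ ≤ (c / (c - 1)) ^ (m + 1) := by
  refine tr_bound a (B := fun s => (c / (c - s)) ^ (m + 1))
    (B' := fun s => ((m + 1 : ℕ) : ℝ) * (c / (c - s)) ^ m * (c / (c - s) ^ 2))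
    (fun s hs => ?_) ?_ fun s => ?_
  · have h1 : c - s ≠ 0 := by linarith [hs.2]
    have h2 : HasDerivAt (fun s : ℝ => c / (c - s)) (c / (c - s) ^ 2) s := by
      simpa using (hasDerivAt_const s c).fun_div ((hasDerivAt_id s).const_sub c) h1
    exact h2.fun_pow (m + 1)
  · simp [div_self (by linarith : c ≠ 0)]
  · have h1 : 0 < c - s := by linarith [s.2.2]
    have h2 : 0 < c := by linarith
    refine (mul_le_mul_of_nonneg_right (h s) (by positivity)).trans_lt ?_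
    have h3 : (m : ℝ) / (c - s) * (c / (c - s)) ^ (m + 1) =
        m * (c / (c - s)) ^ m * (c / (c - s) ^ 2) := by
      rw [pow_succ]
      field_simp
    rw [h3]
    gcongr
    exact Nat.lt_succ_self m

/-- Compare `‖Y s‖` with `B s = ((c + s) / c) ^ (m + 1)`. -/
theorem norm_Tr_le_of_decay [NormOneClass 𝔸] (a : C(unitInterval, 𝔸)) (m : ℕ) {c : ℝ} (hc : 0 < c)
    (h : ∀ s : unitInterval, ‖a s‖ ≤ m / (c + s)) : ‖Tr a‖ ≤ ((c + 1) / c) ^ (m + 1) := by
  refine tr_bound a (B := fun s => ((c + s) / c) ^ (m + 1))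
    (B' := fun s => ((m + 1 : ℕ) : ℝ) * ((c + s) / c) ^ m * (1 / c))
    (fun s _ => ?_) ?_ fun s => ?_
  · exact (((hasDerivAt_id s).const_add c).div_const c).fun_pow (m + 1)
  · simp [div_self hc.ne']
  · have h1 : 0 < c + s := by linarith [s.2.1]
    refine (mul_le_mul_of_nonneg_right (h s) (by positivity)).trans_lt ?_
    have h3 : (m : ℝ) / (c + s) * ((c + s) / c) ^ (m + 1) = m * ((c + s) / c) ^ m * (1 / c) := by
      rw [pow_succ]
      field_simp
    rw [h3]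
    gcongr
    exact Nat.lt_succ_self m

end Pool.Agent.GR
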