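import Mathlib

/-! Transport of a linear equation `Y' = a Y` over the unit interval in a Banach algebra, with
holomorphic dependence on the coefficient. -/

open Set

namespace Pool.Agent.GR

variable {𝔸 : Type} [NormedRing 𝔸] [NormedAlgebra ℂ 𝔸] [CompleteSpace 𝔸]

/-- Continuous functions on the unit interval, for the topology of the norm (use this name for
matrix algebras, so that the normed instances are found). -/
abbrev CI (𝔹 : Type) [NormedRing 𝔹] : Type := C(unitInterval, 𝔹)

/-- Extension of a function on the unit interval by its boundary values. -/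
noncomputable def ext (a : C(unitInterval, 𝔸)) (s : ℝ) : 𝔸 := a (projIcc 0 1 zero_le_one s)

omit [NormedAlgebra ℂ 𝔸] [CompleteSpace 𝔸] in
private theorem trex_cont (a : C(unitInterval, 𝔸)) : Continuous (ext a) :=
  a.continuous.comp continuous_projIcc

omit [NormedAlgebra ℂ 𝔸] [CompleteSpace 𝔸] in
private theorem trex_ext_coe (a : C(unitInterval, 𝔸)) (s : unitInterval) : ext a s = a s := by
  simp [ext]

private theorem trex_deriv (g : C(unitInterval, 𝔸)) (s : ℝ) :
    HasDerivAt (fun x => ∫ u in (0 : ℝ)..x, ext g u) (ext g s) s :=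
  ((trex_cont g).integral_hasStrictDerivAt 0 s).hasDerivAt

private noncomputable def trex_V0 : C(unitInterval, 𝔸) →ₗ[ℂ] C(unitInterval, 𝔸) where
  toFun g := ⟨fun s => ∫ u in (0 : ℝ)..(s : ℝ), ext g u,
    (continuous_iff_continuousAt.2 fun s => (trex_deriv g s).continuousAt).comp
      continuous_subtype_val⟩
  map_add' g h := by
    ext s
    simp only [ContinuousMap.coe_mk, ContinuousMap.add_apply]
    rw [← intervalIntegral.integral_add ((trex_cont g).intervalIntegrable _ _)
      ((trex_cont h).intervalIntegrable _ _)]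
    rfl
  map_smul' c g := by
    ext s
    simp only [ContinuousMap.coe_mk, ContinuousMap.smul_apply, RingHom.id_apply]
    rw [← intervalIntegral.integral_smul]
    rfl

private theorem trex_V0_bound (g : C(unitInterval, 𝔸)) (C : ℝ) (m : ℕ)
    (h : ∀ s : unitInterval, ‖g s‖ ≤ C * (s : ℝ) ^ m) (s : unitInterval) :
    ‖trex_V0 g s‖ ≤ C / (m + 1) * (s : ℝ) ^ (m + 1) := by
  have h0 : (0 : ℝ) ≤ s := s.2.1
  have h1 : ‖∫ u in (0 : ℝ)..(s : ℝ), ext g u‖ ≤ ∫ u in (0 : ℝ)..(s : ℝ), C * u ^ m := by
    refine intervalIntegral.norm_integral_le_of_norm_le h0 ?_ ?_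
    · refine Filter.Eventually.of_forall fun u hu => ?_
      have hu' : u ∈ Icc (0 : ℝ) 1 := ⟨hu.1.le, hu.2.trans s.2.2⟩
      have := h ⟨u, hu'⟩
      rw [← trex_ext_coe] at this
      exact this
    · exact (by fun_prop : Continuous fun u : ℝ => C * u ^ m).intervalIntegrable _ _
  refine h1.trans (le_of_eq ?_)
  rw [intervalIntegral.integral_const_mul, integral_pow]
  simp only [ne_eq, Nat.add_eq_zero_iff, one_ne_zero, and_false, not_false_eq_true, zero_pow,
    sub_zero]
  ring

private noncomputable def trex_V : C(unitInterval, 𝔸) →L[ℂ] C(unitInterval, 𝔸) :=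
  trex_V0.mkContinuous 1 fun g => by
    rw [one_mul]
    refine (ContinuousMap.norm_le _ (norm_nonneg g)).2 fun s => ?_
    have := trex_V0_bound g ‖g‖ 0 (fun s => by simpa using g.norm_coe_le_norm s) s
    refine this.trans ?_
    have h1 : (s : ℝ) ≤ 1 := s.2.2
    have h0 := norm_nonneg g
    simp only [CharP.cast_eq_zero, zero_add, div_one, pow_one]
    nlinarith

private noncomputable def trex_K (a : C(unitInterval, 𝔸)) :
    C(unitInterval, 𝔸) →L[ℂ] C(unitInterval, 𝔸) :=
  trex_V.comp (ContinuousLinearMap.mul ℂ C(unitInterval, 𝔸) a)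

private theorem trex_K_apply (a f : C(unitInterval, 𝔸)) : trex_K a f = trex_V0 (a * f) := rfl

private theorem trex_K_diff : Differentiable ℂ (trex_K (𝔸 := 𝔸)) :=
  (differentiable_const _).clm_comp (ContinuousLinearMap.mul ℂ C(unitInterval, 𝔸)).differentiable

private theorem trex_pow (a f : C(unitInterval, 𝔸)) (m : ℕ) (s : unitInterval) :
    ‖(trex_K a ^ m) f s‖ ≤ ‖a‖ ^ m / m.factorial * ‖f‖ * (s : ℝ) ^ m := by
  induction m generalizing s with
  | zero => simpa using f.norm_coe_le_norm s
  | succ m ih =>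
    rw [pow_succ', mul_apply_eq_comp, trex_K_apply]
    have := trex_V0_bound (a * (trex_K a ^ m) f) (‖a‖ * (‖a‖ ^ m / m.factorial * ‖f‖)) m
      (fun s => by
        rw [ContinuousMap.mul_apply, mul_assoc]
        exact (norm_mul_le _ _).trans
          (mul_le_mul (a.norm_coe_le_norm s) (ih s) (norm_nonneg _) (norm_nonneg _))) s
    refine this.trans (le_of_eq ?_)
    rw [Nat.factorial_succ]
    push_cast
    have : (m.factorial : ℝ) ≠ 0 := by positivity
    field_simp
    ring

private theorem trex_gen_unit {E : Type} [NormedAddCommGroup E] [NormedSpace ℂ E] [CompleteSpace E]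
    (T : E →L[ℂ] E) (m : ℕ) (h : ‖T ^ m‖ < 1) : IsUnit (1 - T) := by
  have hu : IsUnit (1 - T ^ m) := isUnit_one_sub_of_norm_lt_one h
  rw [← mul_neg_geom_sum] at hu
  have hc : Commute (1 - T) (∑ i ∈ Finset.range m, T ^ i) :=
    Commute.sum_right _ _ _ fun i _ =>
      (Commute.one_left _).sub_left (Commute.self_pow _ _)
  exact (hc.isUnit_mul_iff.1 hu).1

private theorem trex_gen_diff {E F : Type} [NormedAddCommGroup E] [NormedSpace ℂ E]
    [CompleteSpace E] [NormedAddCommGroup F] [NormedSpace ℂ F] (K : F → E →L[ℂ] E)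
    (hK : Differentiable ℂ K) (hu : ∀ a, IsUnit (1 - K a)) (v : E) :
    Differentiable ℂ fun a => Ring.inverse (1 - K a) v := by
  have h1 : Differentiable ℂ fun a => Ring.inverse (1 - K a) := fun a =>
    DifferentiableAt.comp (g := Ring.inverse) (f := fun a => 1 - K a) a
      (differentiableAt_inverse (hu a)) ((differentiable_const 1).sub hK a)
  exact h1.clm_apply (differentiable_const _)

private theorem trex_unit (a : C(unitInterval, 𝔸)) : IsUnit (1 - trex_K a) := by
  have hb : ∀ m : ℕ, ‖trex_K a ^ m‖ ≤ ‖a‖ ^ m / m.factorial := fun m => by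
    refine ContinuousLinearMap.opNorm_le_bound _ (by positivity) fun f => ?_
    refine (ContinuousMap.norm_le _ (by positivity)).2 fun s => (trex_pow a f m s).trans ?_
    have h1 : (s : ℝ) ^ m ≤ 1 := pow_le_one₀ s.2.1 s.2.2
    have h0 : 0 ≤ ‖a‖ ^ m / m.factorial * ‖f‖ := by positivity
    nlinarith
  have ht := FloorSemiring.tendsto_pow_div_factorial_atTop ‖a‖
  obtain ⟨m, hm⟩ := (ht.eventually (gt_mem_nhds zero_lt_one)).exists
  exact trex_gen_unit (E := C(unitInterval, 𝔸)) _ m ((hb m).trans_lt hm)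

theorem exists_Tr (𝔸 : Type) [NormedRing 𝔸] [NormedAlgebra ℂ 𝔸] [CompleteSpace 𝔸] :
    ∃ Tr : C(unitInterval, 𝔸) → 𝔸, Differentiable ℂ Tr ∧ ∀ a, ∃ Y : ℝ → 𝔸, Y 0 = 1 ∧ Y 1 = Tr a ∧
      ∀ s ∈ Icc (0 : ℝ) 1, HasDerivAt Y (ext a s * Y s) s := by
  refine ⟨fun a => Ring.inverse (1 - trex_K a) 1 1, ?_, fun a => ?_⟩
  · have h2 := trex_gen_diff (E := C(unitInterval, 𝔸)) (F := C(unitInterval, 𝔸)) trex_K
      trex_K_diff trex_unit 1
    exact (ContinuousMap.evalCLM ℂ (1 : unitInterval)).differentiable.comp h2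
  · set f : C(unitInterval, 𝔸) := Ring.inverse (1 - trex_K a) 1 with hf
    have hfe : f = 1 + trex_K a f := by
      have := congrArg (fun T : C(unitInterval, 𝔸) →L[ℂ] C(unitInterval, 𝔸) => T 1)
        (Ring.mul_inverse_cancel _ (trex_unit a))
      simp only [mul_apply_eq_comp, sub_apply,
        one_apply_eq_self, ← hf] at this
      rw [← this]; abel
    have hY : ∀ s : unitInterval, 1 + ∫ u in (0 : ℝ)..(s : ℝ), ext (a * f) u = f s := fun s => by
      conv_rhs => rw [hfe]
      rfl
    refine ⟨fun x => 1 + ∫ u in (0 : ℝ)..x, ext (a * f) u, by simp, hY 1, fun s hs => ?_⟩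
    have h1 := (trex_deriv (a * f) s).const_add 1
    have h2 := hY ⟨s, hs⟩
    have h3 : ext (a * f) s = ext a s * f ⟨s, hs⟩ := by
      rw [← trex_ext_coe f ⟨s, hs⟩]; rfl
    simp only at h2 ⊢
    rw [h2, ← h3]
    exact h1

end Pool.Agent.GR
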