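import Pool.Agent.Lib.MP_aa40d3_nt.GR.DefsG
import Pool.Agent.Lib.MP_aa40d3_nt.GR.DefsGEq

/-! Walk products and diagonal normalisation. -/

open Polynomial Matrix

namespace Pool.Agent.GR

variable {n : ℕ}

section
variable {R : Type*} [CommRing R]

theorem walka_nil (N : Matrix (Fin n) (Fin n) R) : Gm N [] = N := by
  rw [Gm, List.map_nil, List.prod_nil, mul_one]

theorem walka_cons (N : Matrix (Fin n) (Fin n) R) (c : Fin n) (w : List (Fin n)) (a b : Fin n) :
    Gm N (c :: w) a b = Gm N w a b - N a c * Gm N w c b := by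
  have e : N * rf N c = N - vecMulVec (fun a => N a c) (N c) := by
    rw [rf, mul_sub, mul_one, mul_vecMulVec, mulVec_single_one]
    rfl
  rw [Gm, List.map_cons, List.prod_cons, ← mul_assoc, e, sub_mul, Matrix.sub_apply, vecMulVec_mul,
    vecMulVec_apply]
  rfl

theorem wk_append (N : Matrix (Fin n) (Fin n) R) (a : Fin n) (l : List (Fin n)) (c : Fin n)
    (l' : List (Fin n)) (b : Fin n) : wk N a (l ++ c :: l') b = wk N a l c * wk N c l' b := by
  induction l generalizing a with
  | nil => rfl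
  | cons d l ih => rw [List.cons_append, wk, wk, ih, mul_assoc]

theorem wk_rotate (N : Matrix (Fin n) (Fin n) R) (a : Fin n) (l : List (Fin n)) (c : Fin n)
    (l' : List (Fin n)) : wk N a (l ++ c :: l') a = wk N c (l' ++ a :: l) c := by
  rw [wk_append, wk_append, mul_comm]

theorem wk_map {S : Type*} [CommRing S] (σ : R →+* S) (N : Matrix (Fin n) (Fin n) R) (a : Fin n)
    (l : List (Fin n)) (b : Fin n) : σ (wk N a l b) = wk (N.map σ) a l b := by
  induction l generalizing a with
  | nil => rfl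
  | cons d l ih => rw [wk, wk, map_mul, ih, map_apply]

theorem Gm_map {S : Type*} [CommRing S] (σ : R →+* S) (N : Matrix (Fin n) (Fin n) R)
    (w : List (Fin n)) : (Gm N w).map σ = Gm (N.map σ) w := by
  induction w with
  | nil => rw [walka_nil, walka_nil]
  | cons c w ih =>
    ext a b
    rw [map_apply, walka_cons, walka_cons, map_sub, map_mul, ← ih]
    rfl

theorem Gm_cons (N : Matrix (Fin n) (Fin n) R) (c : Fin n) (w : List (Fin n)) (a b : Fin n) :
    Gm N (c :: w) a b = Gm N w a b - N a c * Gm N w c b := by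
  exact walka_cons N c w a b

/-- Induction on `w` with `Gm_cons` and `wk_append`. -/
theorem Gm_mul_wk_mem (N : Matrix (Fin n) (Fin n) R) (O : Subring R)
    (h : ∀ a l, wk N a l a ∈ O) (w : List (Fin n)) (a b : Fin n) (l : List (Fin n)) :
    Gm N w a b * wk N b l a ∈ O := by
  induction w generalizing a l with
  | nil => rw [walka_nil]; exact h a (b :: l)
  | cons c w ih =>
    have e : Gm N (c :: w) a b * wk N b l a =
        Gm N w a b * wk N b l a - Gm N w c b * wk N b (l ++ [a]) c := by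
      rw [Gm_cons, wk_append, wk]; ring
    rw [e]
    exact O.sub_mem (ih a l) (ih c _)

end

section
variable {K : Type*} [Field K]

/-- Diagonal conjugation. -/
def dconj (d : Fin n → K) (N : Matrix (Fin n) (Fin n) K) : Matrix (Fin n) (Fin n) K :=
  Matrix.of fun a b => (d a)⁻¹ * N a b * d b

theorem wk_dconj {d : Fin n → K} (hd : ∀ a, d a ≠ 0) (N : Matrix (Fin n) (Fin n) K) (a : Fin n)
    (l : List (Fin n)) (b : Fin n) : wk (dconj d N) a l b = (d a)⁻¹ * wk N a l b * d b := by
  induction l generalizing a with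
  | nil => rfl
  | cons c l ih =>
    have := hd c
    rw [wk, wk, ih, dconj, of_apply]
    field_simp

theorem Gm_dconj {d : Fin n → K} (hd : ∀ a, d a ≠ 0) (N : Matrix (Fin n) (Fin n) K)
    (w : List (Fin n)) : Gm (dconj d N) w = dconj d (Gm N w) := by
  induction w with
  | nil => rw [walka_nil, walka_nil]
  | cons c w ih =>
    ext a b
    have := hd c
    rw [Gm_cons, ih]
    simp only [dconj, of_apply, Gm_cons]
    field_simp

theorem mvNL_dconj {d : Fin n → K} (hd : ∀ a, d a ≠ 0) (ζ : Fin n → K) (μ : List (Fin n × ℝ))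
    (ρ : Fin n → ℝ) (N : Matrix (Fin n) (Fin n) K) :
    mvNL ζ μ ρ (dconj d N) = dconj d (mvNL ζ μ ρ N) := by
  induction μ generalizing ρ N with
  | nil => rfl
  | cons m μ ih =>
    have e : ∀ (i : Fin n) (S : Finset (Fin n)), mvN ζ (dconj d N) i S = dconj d (mvN ζ N i S) := by
      intro i S
      ext a b
      have := hd i
      simp only [mvN, dconj, of_apply]
      split_ifs
      · rfl
      · field_simp
      · linear_combination ((ζ i)⁻¹ * (d a)⁻¹ * N a i * N i b * d b) * mul_inv_cancel₀ this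
      · rfl
    rw [mvNL, mvNL, e, ih]

theorem minor_Qm_dconj {d : Fin n → K} (hd : ∀ a, d a ≠ 0) (J : Finset (Fin n)) (ρ : Fin n → ℝ)
    (ζ : Fin n → K) (N : Matrix (Fin n) (Fin n) K) :
    minor J (Qm ρ ζ (dconj d N)) = minor J (Qm ρ ζ N) := by
  have e : (Qm ρ ζ (dconj d N)).submatrix (Subtype.val : J → Fin n) Subtype.val =
      of fun a b : J => C (d a)⁻¹ * (of fun a b : J => C (d b) *
        (Qm ρ ζ N).submatrix (Subtype.val : J → Fin n) Subtype.val a b) a b := by
    ext1 a b
    simp only [submatrix_apply, Qm, dconj, of_apply]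
    split_ifs with h1 h2
    · rw [← h1, ← mul_assoc, ← C_mul, inv_mul_cancel₀ (hd _), C_1, one_mul]
    · simp only [C_mul]; ring
    · simp only [C_mul]; ring
  rw [minor, minor, e, det_mul_column, det_mul_row, ← mul_assoc, ← Finset.prod_mul_distrib,
    Finset.prod_eq_one fun a _ => by rw [← C_mul, inv_mul_cancel₀ (hd _), C_1], one_mul]

/-- Fix `a₀`, walks `p a` from `a` to `a₀` and `p' a` back with nonzero products. With
`P a = wk N a (p a) a₀`, `P' a = wk N' a (p a) a₀` (nonzero) one has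
`N' a b * P' b / P' a = N a b * P b / P a`. -/
theorem exists_potential {N N' : Matrix (Fin n) (Fin n) K} (hc : ∀ a b, ∃ l, wk N a l b ≠ 0)
    (h : ∀ a l, wk N a l a = wk N' a l a) : ∃ d : Fin n → K, (∀ a, d a ≠ 0) ∧ N' = dconj d N := by
  rcases isEmpty_or_nonempty (Fin n) with hn | ⟨⟨a₀⟩⟩
  · exact ⟨fun _ => 1, fun _ => one_ne_zero, Subsingleton.elim _ _⟩
  choose p hp using hc
  have h1 : ∀ a, wk N a (p a a₀) a₀ * wk N a₀ (p a₀ a) a =
      wk N' a (p a a₀) a₀ * wk N' a₀ (p a₀ a) a := fun a => by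
    rw [← wk_append, ← wk_append, h]
  have h2 : ∀ a b, N a b * wk N b (p b a₀) a₀ * wk N a₀ (p a₀ a) a =
      N' a b * wk N' b (p b a₀) a₀ * wk N' a₀ (p a₀ a) a := fun a b => by
    have := h a ((b :: p b a₀) ++ a₀ :: p a₀ a)
    rwa [wk_append, wk_append, wk, wk] at this
  have h3 : ∀ a, wk N' a (p a a₀) a₀ ≠ 0 ∧ wk N' a₀ (p a₀ a) a ≠ 0 := fun a =>
    mul_ne_zero_iff.1 (h1 a ▸ mul_ne_zero (hp a a₀) (hp a₀ a))
  refine ⟨fun a => wk N a (p a a₀) a₀ / wk N' a (p a a₀) a₀,
    fun a => div_ne_zero (hp a a₀) (h3 a).1, ?_⟩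
  ext a b
  have k1 := hp a a₀
  have k2 := (h3 a).1
  have k3 := (h3 b).1
  simp only [dconj, of_apply]
  field_simp
  refine mul_right_cancel₀ (h3 a).2 ?_
  linear_combination -(wk N a (p a a₀) a₀) * h2 a b + (N a b * wk N b (p b a₀) a₀) * h1 a

/-- With `d a = wk N a (p a) a₀` every entry of `dconj d N` is a quotient of closed walks. -/
theorem exists_dconj_mem {N : Matrix (Fin n) (Fin n) K} (hc : ∀ a b, ∃ l, wk N a l b ≠ 0)
    (F : Subfield K) (h : ∀ a l, wk N a l a ∈ F) :
    ∃ d : Fin n → K, (∀ a, d a ≠ 0) ∧ ∀ a b, dconj d N a b ∈ F := by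
  rcases isEmpty_or_nonempty (Fin n) with hn | ⟨⟨a₀⟩⟩
  · exact ⟨fun _ => 1, fun _ => one_ne_zero, fun a => hn.elim a⟩
  choose p hp using hc
  refine ⟨fun a => wk N a (p a a₀) a₀, fun a => hp a a₀, fun a b => ?_⟩
  have e : dconj (fun a => wk N a (p a a₀) a₀) N a b =
      wk N a ((b :: p b a₀) ++ a₀ :: p a₀ a) a / wk N a (p a a₀ ++ a₀ :: p a₀ a) a := by
    have k1 := hp a a₀
    have k2 := hp a₀ a
    rw [wk_append, wk_append, wk, dconj, of_apply]
    field_simp
  rw [e]
  exact F.div_mem (h _ _) (h _ _)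

end

end Pool.Agent.GR
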